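import Mathlib

open scoped InnerProductSpace

namespace Pool.Agent.Helper415.DGA

/-- Hilbert space `ℓ²(ℕ ⊕ ℕ)` -/
abbrev E : Type := lp (fun _ : ℕ ⊕ ℕ => ℝ) 2

noncomputable def bas (i : ℕ ⊕ ℕ) : E := (default : HilbertBasis (ℕ ⊕ ℕ) ℝ E) i

lemma bas_orthonormal : Orthonormal ℝ bas := (default : HilbertBasis (ℕ ⊕ ℕ) ℝ E).orthonormal

noncomputable def ee (p : ℕ) : E := bas (Sum.inl p)
noncomputable def nn (j : ℕ) : E := bas (Sum.inr j)

lemma inner_ee (p q : ℕ) : ⟪ee p, ee q⟫_ℝ = if p = q then 1 else 0 := by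
  have h := orthonormal_iff_ite.1 bas_orthonormal (Sum.inl p) (Sum.inl q)
  simpa [ee] using h

lemma inner_nn (p q : ℕ) : ⟪nn p, nn q⟫_ℝ = if p = q then 1 else 0 := by
  have h := orthonormal_iff_ite.1 bas_orthonormal (Sum.inr p) (Sum.inr q)
  simpa [nn] using h

lemma inner_en (p q : ℕ) : ⟪ee p, nn q⟫_ℝ = 0 := by
  have h := orthonormal_iff_ite.1 bas_orthonormal (Sum.inl p) (Sum.inr q)
  simpa [nn, ee] using h

lemma inner_ne (p q : ℕ) : ⟪nn p, ee q⟫_ℝ = 0 := by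
  rw [real_inner_comm]; exact inner_en q p

lemma norm_nn (p : ℕ) : ‖nn p‖ = 1 := bas_orthonormal.1 _
lemma norm_ee (p : ℕ) : ‖ee p‖ = 1 := bas_orthonormal.1 _

/-- sup of the `n`-coordinates -/
noncomputable def supn (y : E) : ℝ := ⨆ j : ℕ, |⟪nn j, y⟫_ℝ|

lemma abs_inner_nn_le (y : E) (j : ℕ) : |⟪nn j, y⟫_ℝ| ≤ ‖y‖ := by
  have h := abs_real_inner_le_norm (nn j) y
  rwa [norm_nn, one_mul] at h

lemma bdd_supn (y : E) : BddAbove (Set.range fun j : ℕ => |⟪nn j, y⟫_ℝ|) :=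
  ⟨‖y‖, by rintro _ ⟨j, rfl⟩; exact abs_inner_nn_le y j⟩

lemma le_supn (y : E) (j : ℕ) : |⟪nn j, y⟫_ℝ| ≤ supn y := le_ciSup (bdd_supn y) j

lemma supn_le {y : E} {C : ℝ} (h : ∀ j, |⟪nn j, y⟫_ℝ| ≤ C) : supn y ≤ C := ciSup_le h

lemma supn_nonneg (y : E) : 0 ≤ supn y := (abs_nonneg _).trans (le_supn y 0)

lemma supn_le_norm (y : E) : supn y ≤ ‖y‖ := supn_le (abs_inner_nn_le y)

lemma supn_add (y z : E) : supn (y + z) ≤ supn y + supn z := by
  apply supn_le
  intro j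
  rw [inner_add_right]
  exact (abs_add_le _ _).trans (add_le_add (le_supn y j) (le_supn z j))

lemma supn_smul (a : ℝ) (y : E) : supn (a • y) = |a| * supn y := by
  unfold supn
  rw [Real.mul_iSup_of_nonneg (abs_nonneg a)]
  congr 1
  funext j
  rw [real_inner_smul_right, abs_mul]

lemma supn_neg (y : E) : supn (-y) = supn y := by
  rw [← neg_one_smul ℝ y, supn_smul]; simp

/-- the dual norm -/
noncomputable def N (y : E) : ℝ := ‖y‖ + 480 * supn y

lemma N_add (y z : E) : N (y + z) ≤ N y + N z := by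
  unfold N
  have h1 := norm_add_le y z
  have h2 := supn_add y z
  linarith

lemma N_smul (a : ℝ) (y : E) : N (a • y) = |a| * N y := by
  unfold N
  rw [norm_smul, supn_smul, Real.norm_eq_abs]; ring

lemma N_neg (y : E) : N (-y) = N y := by
  rw [← neg_one_smul ℝ y, N_smul]; simp

lemma norm_le_N (y : E) : ‖y‖ ≤ N y := by
  unfold N; linarith [supn_nonneg y]

lemma N_nonneg (y : E) : 0 ≤ N y := (norm_nonneg y).trans (norm_le_N y)

lemma N_le (y : E) : N y ≤ 481 * ‖y‖ := by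
  unfold N; linarith [supn_le_norm y]

lemma N_zero : N 0 = 0 := by
  have h := N_smul 0 0
  simpa using h

/-- uniform convexity of `N` with power type 2 -/
lemma N_uc (a b : E) (ha : N a = 1) (hb : N b = 1) :
    N (a - b) ^ 2 ≤ 10 ^ 12 * (2 - N (a + b)) := by
  set A := ‖a‖ with hA
  set B := ‖b‖ with hB
  have hA0 : 0 < A := by
    have h1 := N_le a
    rw [ha] at h1
    linarith
  have hB0 : 0 < B := by
    have h1 := N_le b
    rw [hb] at h1
    linarith
  have hA1 : A ≤ 1 := by rw [← ha]; exact norm_le_N a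
  have hB1 : B ≤ 1 := by rw [← hb]; exact norm_le_N b
  set t := A * B - ⟪a, b⟫_ℝ with ht
  have ht0 : 0 ≤ t := by
    have h1 := real_inner_le_norm a b
    rw [← hA, ← hB] at h1
    linarith
  -- deficit
  have hab : ‖a + b‖ ^ 2 = (A + B) ^ 2 - 2 * t := by
    rw [norm_add_sq_real, ht, hA, hB]; ring
  have hab1 : ‖a + b‖ ≤ 2 := (norm_add_le a b).trans (by linarith)
  have hdef : t / 2 ≤ 2 - N (a + b) := by
    have h1 : N (a + b) ≤ ‖a + b‖ + 2 - A - B := by
      unfold N at ha hb ⊢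
      have h2 := supn_add a b
      linarith
    have h2 : t / 2 ≤ A + B - ‖a + b‖ := by
      have h3 : (A + B - ‖a + b‖) * (A + B + ‖a + b‖) = 2 * t := by
        have : (A + B - ‖a + b‖) * (A + B + ‖a + b‖) = (A + B) ^ 2 - ‖a + b‖ ^ 2 := by ring
        rw [this, hab]; ring
      have h4 : 0 ≤ A + B - ‖a + b‖ := by
        have := norm_add_le a b
        linarith
      have h5 : A + B + ‖a + b‖ ≤ 4 := by linarith
      nlinarith
    linarith
  -- difference
  have hdiff : ‖a - b‖ ^ 2 = (A - B) ^ 2 + 2 * t := by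
    rw [norm_sub_sq_real, ht, hA, hB]; ring
  have hAB : (A - B) ^ 2 ≤ 2 * 481 ^ 2 * t := by
    -- unit vectors
    set v := B • a - A • b with hv
    have hv2 : ‖v‖ ^ 2 = 2 * (A * B) * t := by
      rw [hv, norm_sub_sq_real, norm_smul, norm_smul, real_inner_smul_left, real_inner_smul_right,
        Real.norm_eq_abs, Real.norm_eq_abs, abs_of_pos hA0, abs_of_pos hB0, ht, ← hA, ← hB]
      ring
    have h1 : |B - A| ≤ N v := by
      have h2 : N (B • a) ≤ N v + N (A • b) := by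
        have := N_add v (A • b)
        rwa [hv, sub_add_cancel] at this
      have h3 : N (A • b) ≤ N v + N (B • a) := by
        have := N_add (-v) (B • a)
        rw [N_neg] at this
        have e : -v + B • a = A • b := by rw [hv]; abel
        rwa [e] at this
      rw [N_smul, N_smul, ha, hb, abs_of_pos hA0, abs_of_pos hB0] at h2 h3
      rw [abs_le]; constructor <;> linarith
    have h2 : |B - A| ≤ 481 * ‖v‖ := h1.trans (N_le v)
    have h3 : (A - B) ^ 2 ≤ (481 * ‖v‖) ^ 2 := by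
      rw [← sq_abs (A - B), abs_sub_comm]
      exact pow_le_pow_left₀ (abs_nonneg _) h2 2
    rw [mul_pow, hv2] at h3
    have h4 : A * B ≤ 1 := by nlinarith
    nlinarith [mul_nonneg ht0 (sub_nonneg.2 h4)]
  have hN2 : N (a - b) ^ 2 ≤ (481 * ‖a - b‖) ^ 2 :=
    pow_le_pow_left₀ (N_nonneg _) (N_le _) 2
  rw [mul_pow, hdiff] at hN2
  nlinarith

/-- the space with norm `N` -/
def Z : Type := E

noncomputable instance : AddCommGroup Z := inferInstanceAs (AddCommGroup E)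
noncomputable instance : Module ℝ Z := inferInstanceAs (Module ℝ E)

noncomputable def toE : Z →ₗ[ℝ] E where
  toFun := fun y => y
  map_add' := fun _ _ => rfl
  map_smul' := fun _ _ => rfl

noncomputable def ofE : E →ₗ[ℝ] Z where
  toFun := fun y => y
  map_add' := fun _ _ => rfl
  map_smul' := fun _ _ => rfl

lemma toE_ofE (y : E) : toE (ofE y) = y := rfl

noncomputable def zNorm : AddGroupNorm Z where
  toFun := fun y => N (toE y)
  map_zero' := by rw [map_zero]; exact N_zero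
  add_le' := fun y z => by rw [map_add]; exact N_add _ _
  neg' := fun y => by rw [map_neg]; exact N_neg _
  eq_zero_of_map_eq_zero' := fun y hy => by
    have h1 := norm_le_N (toE y)
    rw [hy] at h1
    exact norm_le_zero_iff.1 h1

noncomputable instance : NormedAddCommGroup Z := zNorm.toNormedAddCommGroup

lemma norm_Z (y : Z) : ‖y‖ = N (toE y) := rfl

lemma norm_ofE (y : E) : ‖ofE y‖ = N y := rfl

noncomputable instance : NormedSpace ℝ Z where
  norm_smul_le a y := by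
    rw [norm_Z, norm_Z, map_smul]
    exact le_of_eq (N_smul a _)

/-- dual of `(E, N)` -/
abbrev X0 : Type := Z →L[ℝ] ℝ

lemma exists_unit (φ : X0) (r : ℝ) (hr : r < ‖φ‖) : ∃ y : Z, ‖y‖ = 1 ∧ r < φ y := by
  rcases lt_or_ge r 0 with h0 | h0
  · -- any unit vector
    have hne : ‖ofE (nn 0)‖ ≠ 0 := by
      intro h
      rw [norm_ofE] at h
      have h1 := norm_le_N (nn 0)
      rw [norm_nn, h] at h1
      linarith
    set y0 : Z := ‖ofE (nn 0)‖⁻¹ • ofE (nn 0) with hy0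
    have hy1 : ‖y0‖ = 1 := by
      rw [hy0, norm_smul, norm_inv, norm_norm]
      exact inv_mul_cancel₀ hne
    rcases le_or_gt 0 (φ y0) with h1 | h1
    · exact ⟨y0, hy1, by linarith⟩
    · exact ⟨-y0, by rw [norm_neg, hy1], by rw [map_neg]; linarith⟩
  · obtain ⟨y, hy, hy2⟩ := φ.exists_lt_apply_of_lt_opNorm hr
    have hyne : y ≠ 0 := by
      rintro rfl
      rw [map_zero, norm_zero] at hy2
      linarith
    have hypos : 0 < ‖y‖ := norm_pos_iff.2 hyne
    have hbig : r < ‖y‖⁻¹ * |φ y| := by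
      rw [Real.norm_eq_abs] at hy2
      have h1 : 1 ≤ ‖y‖⁻¹ := (one_le_inv₀ hypos).2 hy.le
      have h2 : 0 ≤ |φ y| := abs_nonneg _
      nlinarith
    rcases le_or_gt 0 (φ y) with h1 | h1
    · refine ⟨‖y‖⁻¹ • y, ?_, ?_⟩
      · rw [norm_smul, norm_inv, norm_norm]; exact inv_mul_cancel₀ hypos.ne'
      · rw [map_smul, smul_eq_mul]; rwa [abs_of_nonneg h1] at hbig
    · refine ⟨-(‖y‖⁻¹ • y), ?_, ?_⟩
      · rw [norm_neg, norm_smul, norm_inv, norm_norm]; exact inv_mul_cancel₀ hypos.ne'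
      · rw [map_neg, map_smul, smul_eq_mul]; rw [abs_of_neg h1] at hbig; linarith

/-- power type 2 smoothness of the dual -/
lemma smooth (x h : X0) (hx : ‖x‖ = 1) (hh : ‖h‖ = 1) (u : ℝ) (hu : 0 < u) :
    (‖x + u • h‖ + ‖x - u • h‖) / 2 - 1 ≤ 10 ^ 12 * u ^ 2 := by
  have key : ‖x + u • h‖ + ‖x - u • h‖ ≤ 2 + 10 ^ 12 * u ^ 2 := by
    apply le_of_forall_pos_lt_add
    intro ε hε
    obtain ⟨y, hy1, hy2⟩ := exists_unit (x + u • h) (‖x + u • h‖ - ε / 2) (by linarith)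
    obtain ⟨z, hz1, hz2⟩ := exists_unit (x - u • h) (‖x - u • h‖ - ε / 2) (by linarith)
    have h1 : x (y + z) ≤ ‖y + z‖ := by
      have := x.le_opNorm (y + z)
      rw [hx, one_mul] at this
      exact (le_abs_self _).trans this
    have h2 : h (y - z) ≤ ‖y - z‖ := by
      have := h.le_opNorm (y - z)
      rw [hh, one_mul] at this
      exact (le_abs_self _).trans this
    have h3 : ‖y - z‖ ^ 2 ≤ 10 ^ 12 * (2 - ‖y + z‖) := by
      rw [norm_Z, norm_Z, map_sub, map_add]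
      exact N_uc (toE y) (toE z) hy1 hz1
    have h4 : (x + u • h) y + (x - u • h) z = x (y + z) + u * h (y - z) := by
      simp only [add_apply, sub_apply, smul_apply, smul_eq_mul, map_add, map_sub]
      ring
    have h5 : u * h (y - z) ≤ u * ‖y - z‖ := mul_le_mul_of_nonneg_left h2 hu.le
    have h6 : u * ‖y - z‖ ≤ ‖y - z‖ ^ 2 / 10 ^ 12 + 10 ^ 12 * u ^ 2 := by
      have h7 : 0 ≤ (‖y - z‖ / 10 ^ 6 - 10 ^ 6 * u) ^ 2 := sq_nonneg _
      have h8 : (‖y - z‖ / 10 ^ 6 - 10 ^ 6 * u) ^ 2 = ‖y - z‖ ^ 2 / 10 ^ 12 + 10 ^ 12 * u ^ 2 -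
          2 * (u * ‖y - z‖) := by ring
      have h9 : 0 ≤ u * ‖y - z‖ := by positivity
      linarith
    have h10 : ‖y - z‖ ^ 2 / 10 ^ 12 ≤ 2 - ‖y + z‖ := by
      rw [div_le_iff₀ (by positivity)]; linarith
    linarith
  linarith [mul_nonneg (show (0 : ℝ) ≤ 10 ^ 12 by norm_num) (sq_nonneg u)]

lemma J_bound (w : E) (y : Z) : ‖⟪w, toE y⟫_ℝ‖ ≤ ‖w‖ * ‖y‖ :=
  (norm_inner_le_norm w (toE y)).trans
    (mul_le_mul_of_nonneg_left (norm_le_N (toE y)) (norm_nonneg w))

/-- the functional given by `w` -/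
noncomputable def Jf (w : E) : X0 :=
  LinearMap.mkContinuous
    { toFun := fun y : Z => ⟪w, toE y⟫_ℝ
      map_add' := fun y z => by rw [map_add, inner_add_right]
      map_smul' := fun a y => by
        rw [map_smul, real_inner_smul_right]; rfl } ‖w‖ (J_bound w)

lemma Jf_apply (w : E) (y : Z) : Jf w y = ⟪w, toE y⟫_ℝ := rfl

/-- embedding of `E` in the dual -/
noncomputable def J : E →ₗ[ℝ] X0 where
  toFun w := Jf w
  map_add' w w' := by
    ext y
    rw [add_apply, Jf_apply, Jf_apply, Jf_apply, inner_add_left]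
  map_smul' a w := by
    ext y
    rw [RingHom.id_apply, smul_apply, Jf_apply, Jf_apply, real_inner_smul_left, smul_eq_mul]

lemma J_apply (w : E) (y : Z) : J w y = ⟪w, toE y⟫_ℝ := rfl

lemma norm_J_le (w : E) : ‖J w‖ ≤ ‖w‖ :=
  ContinuousLinearMap.opNorm_le_bound _ (norm_nonneg w) (fun y => J_bound w y)

lemma norm_J_le' (w : E) (j : ℕ) (b t : ℝ) (hw : ‖w‖ ≤ t) (hb : |b| ≤ t) :
    ‖J (w + (480 * b) • nn j)‖ ≤ t := by
  have ht : 0 ≤ t := (norm_nonneg w).trans hw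
  apply ContinuousLinearMap.opNorm_le_bound _ ht
  intro y
  rw [J_apply, inner_add_left, real_inner_smul_left, Real.norm_eq_abs]
  have h1 : |⟪w, toE y⟫_ℝ| ≤ ‖w‖ * ‖toE y‖ := abs_real_inner_le_norm w _
  have h2 : |480 * b * ⟪nn j, toE y⟫_ℝ| ≤ 480 * t * supn (toE y) := by
    rw [abs_mul, abs_mul, abs_of_pos (show (0 : ℝ) < 480 by norm_num)]
    have := le_supn (toE y) j
    have h3 : 0 ≤ |⟪nn j, toE y⟫_ℝ| := abs_nonneg _
    calc 480 * |b| * |⟪nn j, toE y⟫_ℝ| ≤ 480 * t * |⟪nn j, toE y⟫_ℝ| := by gcongr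
      _ ≤ 480 * t * supn (toE y) := by gcongr
  have h4 : ‖w‖ * ‖toE y‖ ≤ t * ‖toE y‖ := by gcongr
  calc |⟪w, toE y⟫_ℝ + 480 * b * ⟪nn j, toE y⟫_ℝ|
      ≤ |⟪w, toE y⟫_ℝ| + |480 * b * ⟪nn j, toE y⟫_ℝ| := abs_add_le _ _
    _ ≤ t * ‖toE y‖ + 480 * t * supn (toE y) := by linarith
    _ = t * N (toE y) := by unfold N; ring
    _ = t * ‖y‖ := rfl

end Pool.Agent.Helper415.DGA
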