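import Mathlib
import Pool.Agent.Helper415.DGA1

open scoped InnerProductSpace
open Finset

namespace Pool.Agent.Helper415.DGA

noncomputable def al (m : ℕ) : ℝ := 1 / ((m : ℝ) + 1024)

lemma al_pos (m : ℕ) : 0 < al m := by unfold al; positivity

lemma al_le (m : ℕ) : al m ≤ 1 / 1024 := by
  unfold al
  apply one_div_le_one_div_of_le (by norm_num)
  have : (0 : ℝ) ≤ m := Nat.cast_nonneg m
  linarith

lemma al_anti {m n : ℕ} (h : m ≤ n) : al n ≤ al m := by
  unfold al
  apply one_div_le_one_div_of_le (by positivity)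
  have : (m : ℝ) ≤ n := by exact_mod_cast h
  linarith

def lev (m : ℕ) : ℕ := Nat.log 2 (m + 1024)

noncomputable def ang (M P : ℕ) : ℝ := Real.pi / 2 * ((M : ℝ) / 2 ^ P - 1)

noncomputable def yv (M P : ℕ) : E := Real.cos (ang M P) • ee P + Real.sin (ang M P) • ee (P + 1)

noncomputable def yb (m : ℕ) : E := yv (m + 1024) (lev m)

noncomputable def xi (m : ℕ) : E := nn (m + 2) + nn (m + 1) + (1 / 2 : ℝ) • nn m

noncomputable def sq (m : ℕ) : ℝ := Real.sqrt (1 - 9 / 4 * al m ^ 2)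

noncomputable def uu (m : ℕ) : E := sq m • yb m + al m • xi m

lemma sq_sq (m : ℕ) : sq m ^ 2 = 1 - 9 / 4 * al m ^ 2 := by
  unfold sq
  apply Real.sq_sqrt
  have h1 := al_pos m
  have h2 := al_le m
  nlinarith

lemma sq_nonneg' (m : ℕ) : 0 ≤ sq m := Real.sqrt_nonneg _

lemma sq_le_one (m : ℕ) : sq m ≤ 1 := by
  have h1 := sq_sq m
  have h2 := sq_nonneg' m
  nlinarith [sq_nonneg (al m)]

lemma sq_ge (m : ℕ) : 1 - al m ≤ sq m := by
  unfold sq
  apply Real.le_sqrt_of_sq_le
  have h1 := al_pos m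
  have h2 := al_le m
  nlinarith

lemma norm_yv_sub (M P : ℕ) (M' : ℕ) :
    ‖yv M P - yv M' P‖ ^ 2 = 2 - 2 * Real.cos (ang M P - ang M' P) := by
  unfold yv
  rw [← real_inner_self_eq_norm_sq]
  simp only [inner_sub_left, inner_sub_right, inner_add_left, inner_add_right,
    real_inner_smul_left, real_inner_smul_right, inner_ee]
  simp
  rw [Real.cos_sub]
  nlinarith [Real.sin_sq_add_cos_sq (ang M P), Real.sin_sq_add_cos_sq (ang M' P)]

lemma norm_yv (M P : ℕ) : ‖yv M P‖ ^ 2 = 1 := by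
  unfold yv
  rw [← real_inner_self_eq_norm_sq]
  simp only [inner_add_left, inner_add_right,
    real_inner_smul_left, real_inner_smul_right, inner_ee]
  simp
  nlinarith [Real.sin_sq_add_cos_sq (ang M P)]

lemma lev_spec (m : ℕ) : 2 ^ lev m ≤ m + 1024 ∧ m + 1024 < 2 ^ (lev m + 1) :=
  ⟨Nat.pow_log_le_self 2 (by omega), Nat.lt_pow_succ_log_self (by norm_num) _⟩

lemma lev_eq (m P : ℕ) (h1 : 2 ^ P ≤ m + 1024) (h2 : m + 1024 < 2 ^ (P + 1)) : lev m = P := by
  unfold lev
  exact (Nat.log_eq_iff (Or.inr ⟨by norm_num, by omega⟩)).2 ⟨h1, h2⟩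

lemma yb_succ (m : ℕ) : yb (m + 1) = yv (m + 1 + 1024) (lev m) := by
  obtain ⟨h1, h2⟩ := lev_spec m
  unfold yb
  by_cases h3 : m + 1 + 1024 < 2 ^ (lev m + 1)
  · rw [lev_eq (m + 1) (lev m) (by omega) h3]
  · have h4 : m + 1 + 1024 = 2 ^ (lev m + 1) := by omega
    have h5 : 2 ^ (lev m + 1) < 2 ^ (lev m + 1 + 1) := by
      apply Nat.pow_lt_pow_right (by norm_num) (by omega)
    rw [lev_eq (m + 1) (lev m + 1) (by omega) (by omega), h4]
    unfold yv ang
    have e1 : Real.pi / 2 * (((2 ^ (lev m + 1) : ℕ) : ℝ) / 2 ^ (lev m + 1) - 1) = 0 := by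
      push_cast
      rw [div_self (by positivity)]; ring
    have e2 : Real.pi / 2 * (((2 ^ (lev m + 1) : ℕ) : ℝ) / 2 ^ (lev m) - 1) = Real.pi / 2 := by
      push_cast
      rw [pow_succ]
      field_simp
      ring
    rw [e1, e2]
    simp

lemma norm_yb_sub (m : ℕ) : ‖yb m - yb (m + 1)‖ ≤ 4 * al m := by
  rw [yb_succ]
  unfold yb
  have h1 := norm_yv_sub (m + 1024) (lev m) (m + 1 + 1024)
  have h2 : ang (m + 1024) (lev m) - ang (m + 1 + 1024) (lev m) =
      -(Real.pi / 2 * (1 / 2 ^ lev m)) := by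
    unfold ang; push_cast; ring
  have h3 := Real.one_sub_sq_div_two_le_cos (x := ang (m + 1024) (lev m) - ang (m + 1 + 1024) (lev m))
  have h4 : ‖yv (m + 1024) (lev m) - yv (m + 1 + 1024) (lev m)‖ ^ 2 ≤
      (Real.pi / 2 * (1 / 2 ^ lev m)) ^ 2 := by
    rw [h1]
    rw [h2] at h3 ⊢
    nlinarith
  have h5 : Real.pi / 2 * (1 / 2 ^ lev m) ≤ 4 * al m := by
    obtain ⟨_, h6⟩ := lev_spec m
    have h7 : ((m : ℝ) + 1024) ≤ 2 * 2 ^ lev m := by
      have : ((m + 1024 : ℕ) : ℝ) < ((2 ^ (lev m + 1) : ℕ) : ℝ) := by exact_mod_cast h6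
      push_cast at this
      rw [pow_succ] at this
      linarith
    have hLpos : (0 : ℝ) < 2 ^ lev m := by positivity
    generalize (2 : ℝ) ^ lev m = L at h7 hLpos ⊢
    have hm : (0 : ℝ) < (m : ℝ) + 1024 := by linarith [(Nat.cast_nonneg m : (0 : ℝ) ≤ (m : ℝ))]
    have h8 : (1 : ℝ) / L ≤ 2 * al m := by
      have e1 : 2 * al m = 2 / ((m : ℝ) + 1024) := by unfold al; ring
      rw [e1, div_le_div_iff₀ hLpos hm]
      linarith
    have h9 := Real.pi_le_four
    have h10 : (0 : ℝ) < 1 / L := by positivity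
    have h11 := Real.pi_pos
    calc Real.pi / 2 * (1 / L) ≤ 2 * (1 / L) := by
          apply mul_le_mul_of_nonneg_right _ h10.le
          linarith
      _ ≤ 4 * al m := by linarith
  have h6 : 0 ≤ Real.pi / 2 * (1 / 2 ^ lev m) := by have := Real.pi_pos; positivity
  calc ‖yv (m + 1024) (lev m) - yv (m + 1 + 1024) (lev m)‖ ≤ Real.pi / 2 * (1 / 2 ^ lev m) :=
        (abs_le_of_sq_le_sq' h4 h6).2
    _ ≤ 4 * al m := h5

lemma inner_nn_xi (i m : ℕ) : ⟪nn i, xi m⟫_ℝ =
    (if i = m + 2 then 1 else 0) + (if i = m + 1 then 1 else 0) + 1 / 2 * (if i = m then 1 else 0) := by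
  unfold xi
  simp only [inner_add_right, real_inner_smul_right, inner_nn]

lemma inner_ee_xi (i m : ℕ) : ⟪ee i, xi m⟫_ℝ = 0 := by
  unfold xi
  simp only [inner_add_right, real_inner_smul_right, inner_en]
  simp

lemma inner_yb_xi (i m : ℕ) : ⟪yb i, xi m⟫_ℝ = 0 := by
  unfold yb yv
  simp only [inner_add_left, real_inner_smul_left, inner_ee_xi]
  simp

lemma inner_nn_yb (i m : ℕ) : ⟪nn i, yb m⟫_ℝ = 0 := by
  unfold yb yv
  simp only [inner_add_right, real_inner_smul_right, inner_ne]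
  simp

lemma norm_xi_sq (m : ℕ) : ‖xi m‖ ^ 2 = 9 / 4 := by
  rw [← real_inner_self_eq_norm_sq]
  conv_lhs => rw [show xi m = nn (m + 2) + nn (m + 1) + (1 / 2 : ℝ) • nn m from rfl]
  simp only [inner_add_left, inner_add_right, real_inner_smul_left, real_inner_smul_right, inner_nn]
  simp
  norm_num

lemma norm_xi (m : ℕ) : ‖xi m‖ = 3 / 2 := by
  have h1 := norm_xi_sq m
  have h2 : 0 ≤ ‖xi m‖ := norm_nonneg _
  nlinarith

lemma inner_uu (i m : ℕ) : ⟪uu i, uu m⟫_ℝ = sq i * sq m * ⟪yb i, yb m⟫_ℝ +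
    al i * al m * ⟪xi i, xi m⟫_ℝ := by
  unfold uu
  simp only [inner_add_left, inner_add_right, real_inner_smul_left, real_inner_smul_right,
    inner_yb_xi]
  rw [real_inner_comm (yb m) (xi i), inner_yb_xi]
  ring

lemma norm_uu (m : ℕ) : ‖uu m‖ = 1 := by
  have h1 : ‖uu m‖ ^ 2 = 1 := by
    rw [← real_inner_self_eq_norm_sq, inner_uu, real_inner_self_eq_norm_sq,
      real_inner_self_eq_norm_sq, norm_xi_sq]
    have h2 := sq_sq m
    have h3 : ‖yb m‖ ^ 2 = 1 := norm_yv _ _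
    rw [h3]
    nlinarith
  have h2 : 0 ≤ ‖uu m‖ := norm_nonneg _
  nlinarith

lemma inner_nn_uu (i m : ℕ) : ⟪nn i, uu m⟫_ℝ = al m *
    ((if i = m + 2 then 1 else 0) + (if i = m + 1 then 1 else 0) +
      1 / 2 * (if i = m then 1 else 0)) := by
  unfold uu
  rw [inner_add_right, real_inner_smul_right, real_inner_smul_right, inner_nn_yb, inner_nn_xi]
  ring

lemma supn_uu (m : ℕ) : supn (uu m) = al m := by
  have ha := al_pos m
  apply le_antisymm
  · apply supn_le
    intro i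
    rw [inner_nn_uu, abs_mul, abs_of_pos ha]
    have : |(if i = m + 2 then (1 : ℝ) else 0) + (if i = m + 1 then 1 else 0) +
      1 / 2 * (if i = m then 1 else 0)| ≤ 1 := by
      by_cases h1 : i = m + 2
      · simp [h1]
      · by_cases h2 : i = m + 1
        · simp [h2]
        · by_cases h3 : i = m
          · simp [h3]; norm_num
          · simp [h1, h2, h3]
    nlinarith
  · have h1 := le_supn (uu m) (m + 2)
    rw [inner_nn_uu] at h1
    simpa [abs_of_pos ha] using h1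

lemma N_uu (m : ℕ) : N (uu m) = 1 + 480 * al m := by
  unfold N; rw [norm_uu, supn_uu]

lemma norm_uu_sub (m : ℕ) : ‖uu m - uu (m + 1)‖ ≤ 8 * al m := by
  have e : uu m - uu (m + 1) = (sq m • (yb m - yb (m + 1)) + (sq m - sq (m + 1)) • yb (m + 1)) +
      (al m • xi m - al (m + 1) • xi (m + 1)) := by
    unfold uu; module
  have hyb : ‖yb (m + 1)‖ = 1 := by
    have h1 : ‖yb (m + 1)‖ ^ 2 = 1 := norm_yv _ _
    have h2 : 0 ≤ ‖yb (m + 1)‖ := norm_nonneg _
    nlinarith
  have h1 : ‖sq m • (yb m - yb (m + 1))‖ ≤ 4 * al m := by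
    rw [norm_smul, Real.norm_eq_abs, abs_of_nonneg (sq_nonneg' m)]
    have := norm_yb_sub m
    have h2 := sq_le_one m
    have h3 := sq_nonneg' m
    have h4 : 0 ≤ ‖yb m - yb (m + 1)‖ := norm_nonneg _
    nlinarith
  have h2 : ‖(sq m - sq (m + 1)) • yb (m + 1)‖ ≤ al m := by
    rw [norm_smul, hyb, mul_one, Real.norm_eq_abs, abs_le]
    have a1 := sq_ge m
    have a2 := sq_ge (m + 1)
    have a3 := sq_le_one m
    have a4 := sq_le_one (m + 1)
    have a5 := al_anti (Nat.le_succ m)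
    constructor <;> linarith
  have h3 : ‖al m • xi m - al (m + 1) • xi (m + 1)‖ ≤ 3 * al m := by
    refine (norm_sub_le _ _).trans ?_
    rw [norm_smul, norm_smul, norm_xi, norm_xi, Real.norm_eq_abs, Real.norm_eq_abs,
      abs_of_pos (al_pos m), abs_of_pos (al_pos (m + 1))]
    have := al_anti (Nat.le_succ m)
    linarith
  rw [e]
  refine (norm_add_le _ _).trans ?_
  have h4 := norm_add_le (sq m • (yb m - yb (m + 1))) ((sq m - sq (m + 1)) • yb (m + 1))
  linarith

/-- far apart indices give orthogonal vectors -/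
lemma inner_uu_far (i m : ℕ) (h : 4 * (i + 1024) < m + 1024) : ⟪uu i, uu m⟫_ℝ = 0 := by
  obtain ⟨h1, h2⟩ := lev_spec i
  obtain ⟨h3, h4⟩ := lev_spec m
  have hlev : lev i + 2 ≤ lev m := by
    by_contra hcon
    push Not at hcon
    have h5 : lev m + 1 ≤ lev i + 2 := by omega
    have h6 : 2 ^ (lev m + 1) ≤ 2 ^ (lev i + 2) := Nat.pow_le_pow_right (by norm_num) h5
    have h7 : 2 ^ (lev i + 2) = 4 * 2 ^ lev i := by ring
    omega
  rw [inner_uu]
  have h5 : ⟪yb i, yb m⟫_ℝ = 0 := by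
    unfold yb yv
    simp only [inner_add_left, inner_add_right, real_inner_smul_left, real_inner_smul_right,
      inner_ee]
    rw [if_neg (by omega), if_neg (by omega), if_neg (by omega), if_neg (by omega)]
    ring
  have h6 : ⟪xi i, xi m⟫_ℝ = 0 := by
    conv_lhs => rw [show xi i = nn (i + 2) + nn (i + 1) + (1 / 2 : ℝ) • nn i from rfl]
    simp only [inner_add_left, real_inner_smul_left, inner_nn_xi]
    rw [if_neg (by omega), if_neg (by omega), if_neg (by omega), if_neg (by omega),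
      if_neg (by omega), if_neg (by omega), if_neg (by omega), if_neg (by omega),
      if_neg (by omega)]
    ring
  rw [h5, h6]; ring

/-- sum of squares of the steps -/
lemma sum_al_sq (n : ℕ) : ∑ i ∈ range n, al i ^ 2 ≤ 1 / 1023 := by
  have key : ∀ n : ℕ, ∑ i ∈ range n, al i ^ 2 ≤ 1 / 1023 - 1 / ((n : ℝ) + 1023) := by
    intro n
    induction n with
    | zero => simp
    | succ n ih =>
      rw [sum_range_succ]
      have h1 : al n ^ 2 ≤ 1 / ((n : ℝ) + 1023) - 1 / (((n + 1 : ℕ) : ℝ) + 1023) := by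
        unfold al
        have hn : (0 : ℝ) ≤ n := Nat.cast_nonneg n
        push_cast
        have e1 : 1 / ((n : ℝ) + 1023) - 1 / ((n : ℝ) + 1 + 1023) =
            1 / (((n : ℝ) + 1023) * ((n : ℝ) + 1024)) := by
          have h2 : ((n : ℝ) + 1023) ≠ 0 := by positivity
          have h3 : ((n : ℝ) + 1 + 1023) ≠ 0 := by positivity
          have h4 : ((n : ℝ) + 1024) ≠ 0 := by positivity
          field_simp
          ring
        rw [e1, one_div, inv_pow, ← one_div]
        apply one_div_le_one_div_of_le (by positivity)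
        nlinarith
      linarith
  have h1 := key n
  have h2 : (0 : ℝ) < 1 / ((n : ℝ) + 1023) := by positivity
  linarith

end Pool.Agent.Helper415.DGA
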