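import Mathlib
import Pool.Agent.Helper415.DGA2

open scoped InnerProductSpace
open Finset

namespace Pool.Agent.Helper415.DGA

noncomputable def lam : ℕ → ℝ
  | 0 => 1
  | (m + 1) => lam m * (⟪uu m, uu (m + 1)⟫_ℝ + 480 * al (m + 1)) / (1 + 480 * al (m + 1))

lemma inner_uu_succ (m : ℕ) : 1 - ⟪uu m, uu (m + 1)⟫_ℝ = ‖uu m - uu (m + 1)‖ ^ 2 / 2 := by
  rw [norm_sub_sq_real, norm_uu, norm_uu]; ring

lemma inner_uu_succ_le (m : ℕ) : 1 - ⟪uu m, uu (m + 1)⟫_ℝ ≤ 32 * al m ^ 2 := by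
  rw [inner_uu_succ]
  have h1 := norm_uu_sub m
  have h2 : 0 ≤ ‖uu m - uu (m + 1)‖ := norm_nonneg _
  nlinarith

lemma inner_uu_le_one (i m : ℕ) : |⟪uu i, uu m⟫_ℝ| ≤ 1 := by
  have h := abs_real_inner_le_norm (uu i) (uu m)
  rwa [norm_uu, norm_uu, one_mul] at h

lemma lam_diff (m : ℕ) : lam m - lam (m + 1) =
    lam m * (1 - ⟪uu m, uu (m + 1)⟫_ℝ) / (1 + 480 * al (m + 1)) := by
  have h1 := al_pos (m + 1)
  have h2 : 1 + 480 * al (m + 1) ≠ 0 := by positivity
  rw [show lam (m + 1) = lam m * (⟪uu m, uu (m + 1)⟫_ℝ + 480 * al (m + 1)) /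
    (1 + 480 * al (m + 1)) from rfl]
  field_simp
  ring

lemma lam_bounds (m : ℕ) : 1 - 32 * ∑ i ∈ range m, al i ^ 2 ≤ lam m ∧ lam m ≤ 1 ∧ 0 < lam m := by
  induction m with
  | zero => simp [lam]
  | succ m ih =>
    obtain ⟨h1, h2, h3⟩ := ih
    have h4 := lam_diff m
    have h5 := inner_uu_succ_le m
    have h6 : 0 ≤ 1 - ⟪uu m, uu (m + 1)⟫_ℝ := by
      have := (abs_le.1 (inner_uu_le_one m (m + 1))).2
      linarith
    have h7 := al_pos (m + 1)
    have h8 : lam m * (1 - ⟪uu m, uu (m + 1)⟫_ℝ) / (1 + 480 * al (m + 1)) ≤ 32 * al m ^ 2 := by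
      rw [div_le_iff₀ (by positivity)]
      have h9 : lam m * (1 - ⟪uu m, uu (m + 1)⟫_ℝ) ≤ 1 * (32 * al m ^ 2) :=
        mul_le_mul h2 h5 h6 (by norm_num)
      have h10 : 0 ≤ 32 * al m ^ 2 := by positivity
      nlinarith
    have h9 : 0 ≤ lam m * (1 - ⟪uu m, uu (m + 1)⟫_ℝ) / (1 + 480 * al (m + 1)) := by positivity
    have h10 := sum_al_sq (m + 1)
    rw [sum_range_succ] at h10 ⊢
    refine ⟨by linarith, by linarith, by linarith⟩

lemma lam_ge (m : ℕ) : 7 / 8 ≤ lam m := by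
  have h1 := (lam_bounds m).1
  have h2 := sum_al_sq m
  linarith

lemma lam_le (m : ℕ) : lam m ≤ 1 := (lam_bounds m).2.1
lemma lam_pos (m : ℕ) : 0 < lam m := (lam_bounds m).2.2

lemma lam_anti (m : ℕ) : lam (m + 1) ≤ lam m := by
  have h4 := lam_diff m
  have h3 := lam_pos m
  have h6 : 0 ≤ 1 - ⟪uu m, uu (m + 1)⟫_ℝ := by
    have := (abs_le.1 (inner_uu_le_one m (m + 1))).2
    linarith
  have h7 := al_pos (m + 1)
  have h9 : 0 ≤ lam m * (1 - ⟪uu m, uu (m + 1)⟫_ℝ) / (1 + 480 * al (m + 1)) := by positivity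
  linarith

lemma lam_diff_le (m : ℕ) : lam m - lam (m + 1) ≤ 32 * al m ^ 2 := by
  have h4 := lam_diff m
  have h5 := inner_uu_succ_le m
  have h3 := lam_pos m
  have h2 := lam_le m
  have h6 : 0 ≤ 1 - ⟪uu m, uu (m + 1)⟫_ℝ := by
    have := (abs_le.1 (inner_uu_le_one m (m + 1))).2
    linarith
  have h7 := al_pos (m + 1)
  have h8 : lam m * (1 - ⟪uu m, uu (m + 1)⟫_ℝ) / (1 + 480 * al (m + 1)) ≤ 32 * al m ^ 2 := by
    rw [div_le_iff₀ (by positivity)]
    have h9 : lam m * (1 - ⟪uu m, uu (m + 1)⟫_ℝ) ≤ 1 * (32 * al m ^ 2) :=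
      mul_le_mul h2 h5 h6 (by norm_num)
    have h10 : 0 ≤ 32 * al m ^ 2 := by positivity
    nlinarith
  linarith

noncomputable def ww (m : ℕ) : E := lam m • uu m + (480 * lam m) • nn (m + 2)

noncomputable def ff (m : ℕ) : X0 := J (ww m)

/-- value of the `j`-th element at `uu m` -/
lemma inner_ww_uu (j m : ℕ) : ⟪ww j, uu m⟫_ℝ = lam j * ⟪uu j, uu m⟫_ℝ + 480 * lam j * (al m *
    ((if j = m then 1 else 0) + (if j + 1 = m then 1 else 0) +
      1 / 2 * (if j + 2 = m then 1 else 0))) := by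
  unfold ww
  rw [inner_add_left, real_inner_smul_left, real_inner_smul_left, inner_nn_uu]
  have e1 : (j + 2 = m + 2) ↔ (j = m) := by omega
  have e2 : (j + 2 = m + 1) ↔ (j + 1 = m) := by omega
  simp only [e1, e2]

lemma D_zero (m : ℕ) : ⟪ww m - ww (m + 1), uu (m + 1)⟫_ℝ = 0 := by
  rw [inner_sub_left, inner_ww_uu, inner_ww_uu, real_inner_self_eq_norm_sq, norm_uu]
  have h7 := al_pos (m + 1)
  have h2 : 1 + 480 * al (m + 1) ≠ 0 := by positivity
  have e3 : ¬ (m = m + 1) := by omega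
  have e4 : ¬ (m + 2 = m + 1) := by omega
  have e5 : ¬ (m + 1 + 1 = m + 1) := by omega
  have e6 : ¬ (m + 1 + 2 = m + 1) := by omega
  simp only [e3, e4, e5, e6, if_true, if_false]
  rw [show lam (m + 1) = lam m * (⟪uu m, uu (m + 1)⟫_ℝ + 480 * al (m + 1)) /
    (1 + 480 * al (m + 1)) from rfl]
  field_simp
  ring

lemma D_self (m : ℕ) : 420 * al m ≤ ⟪ww m - ww (m + 1), uu m⟫_ℝ := by
  rw [inner_sub_left, inner_ww_uu, inner_ww_uu, real_inner_self_eq_norm_sq, norm_uu]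
  have e3 : ¬ (m + 1 = m) := by omega
  have e4 : ¬ (m + 2 = m) := by omega
  have e5 : ¬ (m + 1 + 1 = m) := by omega
  have e6 : ¬ (m + 1 + 2 = m) := by omega
  simp only [e3, e4, e5, e6, if_true, if_false]
  have h1 := al_pos m
  have h2 := lam_ge m
  have h3 := lam_anti m
  have h4 := lam_pos (m + 1)
  have h5 := (abs_le.1 (inner_uu_le_one (m + 1) m)).2
  have h6 : lam (m + 1) * ⟪uu (m + 1), uu m⟫_ℝ ≤ lam m := by nlinarith
  nlinarith

lemma al_near (j m : ℕ) (h : m + 1024 ≤ 5 * (j + 1024)) : al j ≤ 5 * al m := by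
  have h3 : (m : ℝ) + 1024 ≤ 5 * ((j : ℝ) + 1024) := by exact_mod_cast h
  clear h
  unfold al
  have hj0 : (0 : ℝ) ≤ (j : ℝ) := Nat.cast_nonneg j
  have hm0 : (0 : ℝ) ≤ (m : ℝ) := Nat.cast_nonneg m
  have e1 : 5 * (1 / ((m : ℝ) + 1024)) = 5 / ((m : ℝ) + 1024) := by ring
  have hjp : (0 : ℝ) < (j : ℝ) + 1024 := by linarith
  have hmp : (0 : ℝ) < (m : ℝ) + 1024 := by linarith
  rw [e1, div_le_div_iff₀ hjp hmp]
  linarith

lemma D_other (j m : ℕ) (h1 : j ≠ m) (h2 : j + 1 ≠ m) :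
    |⟪ww j - ww (j + 1), uu m⟫_ℝ| ≤ 300 * al m := by
  have ha := al_pos m
  rw [inner_sub_left, inner_ww_uu, inner_ww_uu]
  -- u part
  have hu : |lam j * ⟪uu j, uu m⟫_ℝ - lam (j + 1) * ⟪uu (j + 1), uu m⟫_ℝ| ≤ 60 * al m := by
    by_cases hfar : 4 * (j + 1 + 1024) < m + 1024
    · have hfar2 : 4 * (j + 1024) < m + 1024 := by
        generalize 1024 = K at *
        omega
      rw [inner_uu_far j m hfar2, inner_uu_far (j + 1) m hfar]
      clear hfar hfar2
      rw [mul_zero, mul_zero, sub_zero, abs_zero]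
      linarith
    · have hj : al j ≤ 5 * al m := al_near j m (by omega)
      clear hfar
      have e : lam j * ⟪uu j, uu m⟫_ℝ - lam (j + 1) * ⟪uu (j + 1), uu m⟫_ℝ =
          (lam j - lam (j + 1)) * ⟪uu j, uu m⟫_ℝ + lam (j + 1) * ⟪uu j - uu (j + 1), uu m⟫_ℝ := by
        rw [inner_sub_left]; ring
      rw [e]
      have b1 : |(lam j - lam (j + 1)) * ⟪uu j, uu m⟫_ℝ| ≤ 32 * al j ^ 2 := by
        rw [abs_mul, abs_of_nonneg (by linarith [lam_anti j] : 0 ≤ lam j - lam (j + 1))]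
        have := lam_diff_le j
        have h3 := inner_uu_le_one j m
        have h4 : 0 ≤ lam j - lam (j + 1) := by linarith [lam_anti j]
        have h5 : 0 ≤ |⟪uu j, uu m⟫_ℝ| := abs_nonneg _
        nlinarith
      have b2 : |lam (j + 1) * ⟪uu j - uu (j + 1), uu m⟫_ℝ| ≤ 8 * al j := by
        rw [abs_mul, abs_of_pos (lam_pos (j + 1))]
        have h3 : |⟪uu j - uu (j + 1), uu m⟫_ℝ| ≤ ‖uu j - uu (j + 1)‖ := by
          have := abs_real_inner_le_norm (uu j - uu (j + 1)) (uu m)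
          rwa [norm_uu, mul_one] at this
        have h4 := norm_uu_sub j
        have h5 := lam_le (j + 1)
        have h6 := lam_pos (j + 1)
        have h7 : 0 ≤ |⟪uu j - uu (j + 1), uu m⟫_ℝ| := abs_nonneg _
        nlinarith
      refine (abs_add_le _ _).trans ?_
      have h8 := al_le j
      have h9 := al_pos j
      nlinarith
  -- c part
  have hc : |480 * lam j * (al m * ((if j = m then 1 else 0) + (if j + 1 = m then 1 else 0) +
      1 / 2 * (if j + 2 = m then 1 else 0))) - 480 * lam (j + 1) * (al m *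
      ((if j + 1 = m then 1 else 0) + (if j + 1 + 1 = m then 1 else 0) +
      1 / 2 * (if j + 1 + 2 = m then 1 else 0)))| ≤ 240 * al m := by
    have l1 := lam_ge j
    have l2 := lam_le j
    have l3 := lam_ge (j + 1)
    have l4 := lam_le (j + 1)
    have l5 := lam_anti j
    by_cases h3 : j + 2 = m
    · have e1 : ¬ (j + 3 = m) := by omega
      have e2 : j + 1 + 1 = m := by omega
      have e3 : ¬ (j + 1 + 2 = m) := by omega
      simp only [h1, h2, h3, e2, e3, if_true, if_false]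
      rw [abs_le]
      constructor <;> nlinarith
    · by_cases h4 : j + 3 = m
      · have e2 : ¬ (j + 1 + 1 = m) := by omega
        have e3 : j + 1 + 2 = m := by omega
        simp only [h1, h2, h3, e2, e3, if_true, if_false]
        rw [abs_le]
        constructor <;> nlinarith
      · have e2 : ¬ (j + 1 + 1 = m) := by omega
        have e3 : ¬ (j + 1 + 2 = m) := by omega
        simp only [h1, h2, h3, e2, e3, if_false]
        simp
        linarith
  have e : lam j * ⟪uu j, uu m⟫_ℝ + 480 * lam j * (al m * ((if j = m then 1 else 0) +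
      (if j + 1 = m then 1 else 0) + 1 / 2 * (if j + 2 = m then 1 else 0))) -
      (lam (j + 1) * ⟪uu (j + 1), uu m⟫_ℝ + 480 * lam (j + 1) * (al m *
      ((if j + 1 = m then 1 else 0) + (if j + 1 + 1 = m then 1 else 0) +
      1 / 2 * (if j + 1 + 2 = m then 1 else 0)))) =
      (lam j * ⟪uu j, uu m⟫_ℝ - lam (j + 1) * ⟪uu (j + 1), uu m⟫_ℝ) +
      (480 * lam j * (al m * ((if j = m then 1 else 0) + (if j + 1 = m then 1 else 0) +
      1 / 2 * (if j + 2 = m then 1 else 0))) - 480 * lam (j + 1) * (al m *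
      ((if j + 1 = m then 1 else 0) + (if j + 1 + 1 = m then 1 else 0) +
      1 / 2 * (if j + 1 + 2 = m then 1 else 0)))) := by ring
  rw [e]
  refine (abs_add_le _ _).trans ?_
  linarith

/-- the norm of `ff m` -/
lemma norm_ff_le (m : ℕ) : ‖ff m‖ ≤ lam m := by
  unfold ff ww
  apply norm_J_le'
  · rw [norm_smul, norm_uu, mul_one, Real.norm_eq_abs, abs_of_pos (lam_pos m)]
  · rw [abs_of_pos (lam_pos m)]

lemma ff_apply (m : ℕ) (y : E) : ff m (ofE y) = ⟪ww m, y⟫_ℝ := by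
  unfold ff; rw [J_apply, toE_ofE]

lemma ff_self (m : ℕ) : ff m (ofE (uu m)) = lam m * (1 + 480 * al m) := by
  rw [ff_apply, inner_ww_uu, real_inner_self_eq_norm_sq, norm_uu]
  have e3 : ¬ (m + 1 = m) := by omega
  have e4 : ¬ (m + 2 = m) := by omega
  simp only [e3, e4, if_true, if_false]
  ring

lemma norm_ff (m : ℕ) : ‖ff m‖ = lam m := by
  apply le_antisymm (norm_ff_le m)
  have h1 := (ff m).le_opNorm (ofE (uu m))
  rw [ff_self, norm_ofE, N_uu, Real.norm_eq_abs] at h1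
  have h2 := al_pos m
  have h3 := lam_pos m
  rw [abs_of_pos (by positivity)] at h1
  exact le_of_mul_le_mul_right h1 (by positivity)

lemma norm_diff_le (m : ℕ) : ‖ff m - ff (m + 1)‖ ≤ 2 := by
  refine (norm_sub_le _ _).trans ?_
  rw [norm_ff, norm_ff]
  linarith [lam_le m, lam_le (m + 1)]

lemma norm_diff_ge (m : ℕ) : 3 / 2 ≤ ‖ff m - ff (m + 1)‖ := by
  set y : E := nn (m + 2) - nn (m + 3) with hy
  have hN : N y ≤ 482 := by
    have h1 : ‖y‖ ≤ 2 := by
      rw [hy]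
      refine (norm_sub_le _ _).trans ?_
      rw [norm_nn, norm_nn]; norm_num
    have h2 : supn y ≤ 1 := by
      apply supn_le
      intro j
      rw [hy, inner_sub_right, inner_nn, inner_nn]
      by_cases h3 : j = m + 2
      · have h4 : ¬ (j = m + 3) := by omega
        rw [if_pos h3, if_neg h4]; simp
      · rw [if_neg h3]
        split_ifs <;> simp
    unfold N
    linarith
  have h1 := (ff m - ff (m + 1)).le_opNorm (ofE y)
  have h2 : (ff m - ff (m + 1)) (ofE y) = ⟪ww m - ww (m + 1), y⟫_ℝ := by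
    rw [sub_apply, ff_apply, ff_apply, inner_sub_left]
  have h3 : 840 ≤ ⟪ww m - ww (m + 1), y⟫_ℝ := by
    have e1 : ⟪uu m, nn (m + 2)⟫_ℝ = al m := by
      rw [real_inner_comm, inner_nn_uu]; simp
    have e2 : ⟪uu m, nn (m + 3)⟫_ℝ = 0 := by
      rw [real_inner_comm, inner_nn_uu]
      have a1 : ¬ (m + 3 = m + 2) := by omega
      have a2 : ¬ (m + 3 = m + 1) := by omega
      have a3 : ¬ (m + 3 = m) := by omega
      simp only [a1, a2, a3, if_false]; ring
    have e3 : ⟪uu (m + 1), nn (m + 2)⟫_ℝ = al (m + 1) := by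
      rw [real_inner_comm, inner_nn_uu]
      have a1 : ¬ (m + 2 = m + 1 + 2) := by omega
      have a2 : (m + 2 = m + 1 + 1) := by omega
      have a3 : ¬ (m + 2 = m + 1) := by omega
      simp only [a1, a3, if_false, if_true]; ring
    have e4 : ⟪uu (m + 1), nn (m + 3)⟫_ℝ = al (m + 1) := by
      rw [real_inner_comm, inner_nn_uu]
      have a1 : (m + 3 = m + 1 + 2) := by omega
      have a2 : ¬ (m + 3 = m + 1 + 1) := by omega
      have a3 : ¬ (m + 3 = m + 1) := by omega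
      simp only [a2, a3, if_false, if_true]; ring
    have c1 : ⟪nn (m + 2), nn (m + 3)⟫_ℝ = 0 := by rw [inner_nn, if_neg (by omega)]
    have c2 : ⟪nn (m + 1 + 2), nn (m + 2)⟫_ℝ = 0 := by rw [inner_nn, if_neg (by omega)]
    have c3 : ⟪nn (m + 1 + 2), nn (m + 3)⟫_ℝ = 1 := by rw [inner_nn, if_pos (by omega)]
    have c4 : ⟪nn (m + 2), nn (m + 2)⟫_ℝ = 1 := by rw [inner_nn, if_pos rfl]
    rw [hy]
    unfold ww
    simp only [inner_sub_left, inner_add_left, inner_sub_right, real_inner_smul_left,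
      e1, e2, e3, e4, c1, c2, c3, c4]
    have l1 := lam_ge m
    have l2 := lam_ge (m + 1)
    have l3 := al_pos m
    nlinarith
  rw [h2, Real.norm_eq_abs, norm_ofE] at h1
  have h4 : 840 ≤ ‖ff m - ff (m + 1)‖ * N y := (h3.trans (le_abs_self _)).trans h1
  have h5 : 0 ≤ ‖ff m - ff (m + 1)‖ := norm_nonneg _
  nlinarith

/-- averages of a sparse subsequence tend to zero -/
def mk (k : ℕ) : ℕ := 1024 * 5 ^ k - 1024

lemma mk_add (k : ℕ) : mk k + 1024 = 1024 * 5 ^ k := by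
  unfold mk
  have : 1 ≤ 5 ^ k := Nat.one_le_pow _ _ (by norm_num)
  omega

lemma mk_far {k l : ℕ} (h : k < l) : 4 * (mk k + 1024) < mk l + 1024 := by
  rw [mk_add, mk_add]
  have h1 : 5 ^ (k + 1) ≤ 5 ^ l := Nat.pow_le_pow_right (by norm_num) h
  have h2 : 5 ^ (k + 1) = 5 * 5 ^ k := by ring
  have h3 : 0 < 5 ^ k := by positivity
  omega

lemma ww_orth {k l : ℕ} (h : k < l) : ⟪ww (mk k), ww (mk l)⟫_ℝ = 0 := by
  have hf := mk_far h
  have e1 := inner_uu_far (mk k) (mk l) hf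
  have e2 : ⟪uu (mk k), nn (mk l + 2)⟫_ℝ = 0 := by
    rw [real_inner_comm, inner_nn_uu, if_neg (by omega), if_neg (by omega), if_neg (by omega)]
    ring
  have e3 : ⟪nn (mk k + 2), uu (mk l)⟫_ℝ = 0 := by
    rw [inner_nn_uu, if_neg (by omega), if_neg (by omega), if_neg (by omega)]
    ring
  have e4 : ⟪nn (mk k + 2), nn (mk l + 2)⟫_ℝ = 0 := by rw [inner_nn, if_neg (by omega)]
  unfold ww
  simp only [inner_add_left, inner_add_right, real_inner_smul_left, real_inner_smul_right,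
    e1, e2, e3, e4]
  ring

lemma norm_ww_le (m : ℕ) : ‖ww m‖ ≤ 481 := by
  unfold ww
  refine (norm_add_le _ _).trans ?_
  rw [norm_smul, norm_smul, norm_uu, norm_nn, Real.norm_eq_abs, Real.norm_eq_abs,
    abs_of_pos (lam_pos m), abs_of_pos (by have := lam_pos m; positivity)]
  linarith [lam_le m]

lemma norm_sum_ww (K : ℕ) : ‖∑ k ∈ range K, ww (mk k)‖ ^ 2 ≤ K * 481 ^ 2 := by
  induction K with
  | zero => simp
  | succ K ih =>
    rw [sum_range_succ, norm_add_sq_real]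
    have h1 : ⟪∑ k ∈ range K, ww (mk k), ww (mk K)⟫_ℝ = 0 := by
      rw [sum_inner]
      apply sum_eq_zero
      intro k hk
      exact ww_orth (mem_range.1 hk)
    rw [h1]
    have h2 := norm_ww_le (mk K)
    have h3 : 0 ≤ ‖ww (mk K)‖ := norm_nonneg _
    push_cast
    nlinarith

lemma norm_avg (K : ℕ) (hK : 0 < K) (ε : ℝ) (hε : 0 < ε) (hKε : 481 ^ 2 < ε ^ 2 * K) :
    ‖(K : ℝ)⁻¹ • ∑ k ∈ range K, ff (mk k)‖ < ε := by
  have h1 : ∑ k ∈ range K, ff (mk k) = J (∑ k ∈ range K, ww (mk k)) := by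
    rw [map_sum]; rfl
  have hKR : (0 : ℝ) < K := by exact_mod_cast hK
  rw [h1, norm_smul, norm_inv, Real.norm_eq_abs, abs_of_pos hKR, inv_mul_lt_iff₀ hKR]
  refine (norm_J_le _).trans_lt ?_
  have h2 := norm_sum_ww K
  have h3 : ‖∑ k ∈ range K, ww (mk k)‖ ^ 2 < (K * ε) ^ 2 := by
    refine h2.trans_lt ?_
    nlinarith
  exact lt_of_pow_lt_pow_left₀ 2 (by positivity) h3

end Pool.Agent.Helper415.DGA
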