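import Mathlib
import Pool.Agent.Helper415.DGA3

open scoped InnerProductSpace
open Finset

namespace Pool.Agent.Helper415.DGA

/-- the dual of `(E, N)` as a plain Banach space -/
def XD : Type := X0

noncomputable instance : NormedAddCommGroup XD := inferInstanceAs (NormedAddCommGroup X0)
noncomputable instance : NormedSpace ℝ XD := inferInstanceAs (NormedSpace ℝ X0)
instance : CompleteSpace XD := inferInstanceAs (CompleteSpace X0)

/-- the functional behind an element -/
def toF (x : XD) : X0 := x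
def ofF (x : X0) : XD := x

lemma norm_toF (x : XD) : ‖toF x‖ = ‖x‖ := rfl
lemma norm_ofF (x : X0) : ‖ofF x‖ = ‖x‖ := rfl
lemma toF_add (x y : XD) : toF (x + y) = toF x + toF y := rfl
lemma toF_sub (x y : XD) : toF (x - y) = toF x - toF y := rfl
lemma toF_smul (a : ℝ) (x : XD) : toF (a • x) = a • toF x := rfl
lemma toF_ofF (x : X0) : toF (ofF x) = x := rfl

noncomputable def ffD (m : ℕ) : XD := ofF (ff m)

/-- evaluation at a vector -/
noncomputable def evalD (y : Z) : XD →L[ℝ] ℝ :=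
  LinearMap.mkContinuous
    { toFun := fun x : XD => toF x y
      map_add' := fun x x' => by rw [toF_add, add_apply]
      map_smul' := fun a x => by rw [toF_smul, smul_apply, RingHom.id_apply] } ‖y‖
    (fun x => by
      have h := (toF x).le_opNorm y
      rw [norm_toF, mul_comm] at h
      exact h)

lemma evalD_apply (y : Z) (x : XD) : evalD y x = toF x y := rfl

/-- the closed span of the `ffD m` -/
noncomputable def SS : Submodule ℝ XD := (Submodule.span ℝ (Set.range ffD)).topologicalClosure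

/-- the space of the counterexample -/
abbrev XX : Type := ↥SS

instance : CompleteSpace XX :=
  IsClosed.completeSpace_coe (hs := Submodule.isClosed_topologicalClosure _)

noncomputable def fX (m : ℕ) : XX :=
  ⟨ffD m, Submodule.le_topologicalClosure _ (Submodule.subset_span ⟨m, rfl⟩)⟩

lemma norm_fX (m : ℕ) : ‖fX m‖ = lam m := norm_ff m

noncomputable def aa (m : ℕ) : ℝ := ‖fX m - fX (m + 1)‖

lemma aa_le (m : ℕ) : aa m ≤ 2 := norm_diff_le m
lemma aa_ge (m : ℕ) : 3 / 2 ≤ aa m := norm_diff_ge m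

noncomputable def gX (m : ℕ) : XX := (aa m)⁻¹ • (fX m - fX (m + 1))

lemma norm_gX (m : ℕ) : ‖gX m‖ = 1 := by
  unfold gX
  have h1 := aa_ge m
  rw [norm_smul, norm_inv, Real.norm_eq_abs, abs_of_pos (by linarith)]
  exact inv_mul_cancel₀ (by linarith : (0 : ℝ) < aa m).ne'

def DD : Set XX := {x | ∃ j, x = gX j ∨ x = -gX j}

noncomputable def FX (m : ℕ) : XX →L[ℝ] ℝ :=
  ((1 + 480 * al m)⁻¹ • evalD (ofE (uu m))).comp SS.subtypeL

lemma FX_apply (m : ℕ) (x : XX) : FX m x = (1 + 480 * al m)⁻¹ * toF (x : XD) (ofE (uu m)) := rfl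

lemma FX_fX (m : ℕ) : FX m (fX m) = lam m := by
  have h1 := al_pos m
  rw [FX_apply]
  change (1 + 480 * al m)⁻¹ * ff m (ofE (uu m)) = lam m
  rw [ff_self, mul_comm (lam m), ← mul_assoc, inv_mul_cancel₀ (by positivity), one_mul]

lemma norm_FX (m : ℕ) : ‖FX m‖ = 1 := by
  have h1 := al_pos m
  apply le_antisymm
  · apply ContinuousLinearMap.opNorm_le_bound _ zero_le_one
    intro x
    rw [FX_apply, one_mul, norm_mul, norm_inv, Real.norm_eq_abs, abs_of_pos (by positivity)]
    have h2 := (toF (x : XD)).le_opNorm (ofE (uu m))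
    rw [norm_ofE, N_uu] at h2
    rw [inv_mul_le_iff₀ (by positivity), mul_comm]
    exact h2
  · have h2 := (FX m).le_opNorm (fX m)
    rw [FX_fX, norm_fX, Real.norm_eq_abs, abs_of_pos (lam_pos m)] at h2
    have h3 := lam_pos m
    by_contra hcon
    push Not at hcon
    nlinarith

lemma FX_diff (j m : ℕ) : FX m (fX j - fX (j + 1)) =
    (1 + 480 * al m)⁻¹ * ⟪ww j - ww (j + 1), uu m⟫_ℝ := by
  rw [FX_apply]
  change (1 + 480 * al m)⁻¹ * (ff j - ff (j + 1)) (ofE (uu m)) = _
  rw [sub_apply, ff_apply, ff_apply, inner_sub_left]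

lemma FX_gX (j m : ℕ) : FX m (gX j) =
    (1 + 480 * al m)⁻¹ * ((aa j)⁻¹ * ⟪ww j - ww (j + 1), uu m⟫_ℝ) := by
  unfold gX
  rw [map_smul, FX_diff, smul_eq_mul]; ring

lemma FX_le (j m : ℕ) : |FX m (gX j)| ≤ FX m (gX m) := by
  have h1 := al_pos m
  have h2 : 0 < (1 + 480 * al m)⁻¹ := by positivity
  rw [FX_gX, FX_gX, abs_mul, abs_of_pos h2]
  apply mul_le_mul_of_nonneg_left _ h2.le
  have a1 := aa_ge j
  have a2 := aa_le j
  have b1 := aa_ge m
  have b2 := aa_le m
  have hself := D_self m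
  have hm : 210 * al m ≤ (aa m)⁻¹ * ⟪ww m - ww (m + 1), uu m⟫_ℝ := by
    rw [inv_mul_eq_div, le_div_iff₀ (by linarith)]
    nlinarith
  by_cases h3 : j = m
  · subst h3
    rw [abs_of_nonneg]
    linarith
  by_cases h4 : j + 1 = m
  · subst h4
    rw [D_zero, mul_zero, abs_zero]
    linarith
  · have h5 := D_other j m h3 h4
    rw [abs_mul, abs_of_pos (by rw [inv_pos]; linarith)]
    refine le_trans ?_ hm
    rw [inv_mul_eq_div, div_le_iff₀ (by linarith)]
    nlinarith

lemma FX_next (m : ℕ) : FX (m + 1) (gX m) = 0 := by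
  rw [FX_gX, D_zero]; ring

lemma fX_succ (m : ℕ) : fX (m + 1) = fX m - aa m • gX m := by
  unfold gX
  have h1 := aa_ge m
  rw [smul_smul, mul_inv_cancel₀ (by linarith : (0 : ℝ) < aa m).ne', one_smul]
  abel

lemma line_opt (m : ℕ) (b : ℝ) : ‖fX m - aa m • gX m‖ ≤ ‖fX m - b • gX m‖ := by
  rw [← fX_succ, norm_fX, ← FX_fX]
  have h1 : FX (m + 1) (fX (m + 1)) = FX (m + 1) (fX m - b • gX m) := by
    rw [fX_succ, map_sub, map_sub, map_smul, map_smul, FX_next, smul_zero, smul_zero]
  rw [h1]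
  have h2 := (FX (m + 1)).le_opNorm (fX m - b • gX m)
  rw [norm_FX, one_mul] at h2
  exact (le_abs_self _).trans h2

lemma gX_mem (m : ℕ) : gX m ∈ DD := ⟨m, Or.inl rfl⟩

/-- differences are in the span -/
lemma diff_mem (m : ℕ) : fX 0 - fX m ∈ Submodule.span ℝ DD := by
  induction m with
  | zero => rw [sub_self]; exact Submodule.zero_mem _
  | succ m ih =>
    have h1 : fX 0 - fX (m + 1) = (fX 0 - fX m) + aa m • gX m := by
      rw [fX_succ]; abel
    rw [h1]
    exact Submodule.add_mem _ ih (Submodule.smul_mem _ _ (Submodule.subset_span (gX_mem m)))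

lemma fX0_mem : fX 0 ∈ (Submodule.span ℝ DD).topologicalClosure := by
  rw [← SetLike.mem_coe, Submodule.topologicalClosure_coe, Metric.mem_closure_iff]
  intro ε hε
  obtain ⟨K, hK⟩ := exists_nat_gt (481 ^ 2 / ε ^ 2)
  have hKpos : (0 : ℝ) < K := lt_of_le_of_lt (by positivity) hK
  have hKpos' : 0 < K := by exact_mod_cast hKpos
  have hKε : 481 ^ 2 < ε ^ 2 * K := by
    rw [div_lt_iff₀ (by positivity)] at hK
    linarith
  refine ⟨(K : ℝ)⁻¹ • ∑ k ∈ range K, (fX 0 - fX (mk k)), ?_, ?_⟩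
  · apply Submodule.smul_mem
    exact Submodule.sum_mem _ (fun k _ => diff_mem (mk k))
  · have h1 : fX 0 - (K : ℝ)⁻¹ • ∑ k ∈ range K, (fX 0 - fX (mk k)) =
        (K : ℝ)⁻¹ • ∑ k ∈ range K, fX (mk k) := by
      rw [sum_sub_distrib, sum_const, card_range, smul_sub, ← Nat.cast_smul_eq_nsmul ℝ, smul_smul,
        inv_mul_cancel₀ hKpos.ne', one_smul]
      abel
    rw [dist_eq_norm, h1]
    have h2 : ‖(K : ℝ)⁻¹ • ∑ k ∈ range K, fX (mk k)‖ =
        ‖(K : ℝ)⁻¹ • ∑ k ∈ range K, ff (mk k)‖ := by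
      have e1 : (((K : ℝ)⁻¹ • ∑ k ∈ range K, fX (mk k) : XX) : XD) =
          (K : ℝ)⁻¹ • ∑ k ∈ range K, ffD (mk k) := by
        rw [Submodule.coe_smul, Submodule.coe_sum]
        rfl
      have e2 : ∀ n, toF (∑ k ∈ range n, ffD (mk k)) = ∑ k ∈ range n, ff (mk k) := by
        intro n
        induction n with
        | zero => rfl
        | succ n ih => rw [sum_range_succ, sum_range_succ, toF_add, ih]; rfl
      have e3 : ‖(K : ℝ)⁻¹ • ∑ k ∈ range K, fX (mk k)‖ =
          ‖(((K : ℝ)⁻¹ • ∑ k ∈ range K, fX (mk k) : XX) : XD)‖ := rfl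
      rw [e3, e1, ← norm_toF, toF_smul, e2]
    rw [h2]
    exact norm_avg K hKpos' ε hε hKε

lemma fX_mem (m : ℕ) : fX m ∈ (Submodule.span ℝ DD).topologicalClosure := by
  have h1 : fX m = fX 0 - (fX 0 - fX m) := by abel
  rw [h1]
  exact Submodule.sub_mem _ fX0_mem (Submodule.le_topologicalClosure _ (diff_mem m))

lemma dense_span : Dense ((Submodule.span ℝ DD : Submodule ℝ XX) : Set XX) := by
  -- every element of the span of `ffD` (seen in `XX`) is in the closure
  have h1 : ∀ x : XD, x ∈ Submodule.span ℝ (Set.range ffD) →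
      ∀ hx : x ∈ SS, (⟨x, hx⟩ : XX) ∈ (Submodule.span ℝ DD).topologicalClosure := by
    intro x hx
    induction hx using Submodule.span_induction with
    | mem x h =>
      obtain ⟨m, rfl⟩ := h
      intro hx
      exact fX_mem m
    | zero =>
      intro hx
      exact Submodule.zero_mem _
    | add x y hx hy ihx ihy =>
      intro hxy
      have hx' : x ∈ SS := Submodule.le_topologicalClosure _ hx
      have hy' : y ∈ SS := Submodule.le_topologicalClosure _ hy
      exact Submodule.add_mem _ (ihx hx') (ihy hy')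
    | smul a x hx ihx =>
      intro hax
      have hx' : x ∈ SS := Submodule.le_topologicalClosure _ hx
      exact Submodule.smul_mem _ a (ihx hx')
  intro x
  rw [Metric.mem_closure_iff]
  intro ε hε
  have hx : (x : XD) ∈ closure ((Submodule.span ℝ (Set.range ffD) : Submodule ℝ XD) : Set XD) := by
    have := x.2
    unfold SS at this
    rwa [← SetLike.mem_coe, Submodule.topologicalClosure_coe] at this
  rw [Metric.mem_closure_iff] at hx
  obtain ⟨y, hy, hxy⟩ := hx (ε / 2) (by positivity)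
  have hy' : y ∈ SS := Submodule.le_topologicalClosure _ hy
  have h2 := h1 y hy hy'
  rw [← SetLike.mem_coe, Submodule.topologicalClosure_coe, Metric.mem_closure_iff] at h2
  obtain ⟨z, hz, hyz⟩ := h2 (ε / 2) (by positivity)
  refine ⟨z, hz, ?_⟩
  have h3 : dist x (⟨y, hy'⟩ : XX) < ε / 2 := hxy
  calc dist x z ≤ dist x (⟨y, hy'⟩ : XX) + dist (⟨y, hy'⟩ : XX) z := dist_triangle _ _ _
    _ < ε / 2 + ε / 2 := add_lt_add h3 hyz
    _ = ε := by ring

lemma smoothX (x y : XX) (hx : ‖x‖ = 1) (hy : ‖y‖ = 1) (u : ℝ) (hu : 0 < u) :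
    (‖x + u • y‖ + ‖x - u • y‖) / 2 - 1 ≤ 10 ^ 12 * u ^ (2 : ℝ) := by
  rw [Real.rpow_two]
  exact smooth (toF (x : XD)) (toF (y : XD)) hx hy u hu

end Pool.Agent.Helper415.DGA
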