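import Mathlib

/-!
Definitions for the Weak Chebyshev Greedy Algorithm with respect to a dictionary, and the
`d`-variate trigonometric system normalized in `L_p`.
-/

set_option autoImplicit false

open MeasureTheory Filter Topology
open scoped ENNReal

namespace Pool.Agent.Helper415.TG

section General

variable {V : Type} [NormedAddCommGroup V] [NormedSpace ℝ V]

/-- Best `m`-term error of `f` with respect to the dictionary `D`. -/
noncomputable def sigma (D : Set V) (m : ℕ) (f : V) : ℝ :=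
  sInf {e : ℝ | ∃ (g : Fin m → V) (c : Fin m → ℝ), (∀ i, g i ∈ D) ∧ e = ‖f - ∑ i, c i • g i‖}

/-- `G` is a best approximation of `f` from `W`. -/
def IsBestApprox (f G : V) (W : Submodule ℝ V) : Prop :=
  G ∈ W ∧ ∀ h ∈ W, ‖f - G‖ ≤ ‖f - h‖

/-- The weak greedy condition for the choice of `φ ∈ D` at the residual `f`, where `F f` is the
norming functional of `f`. -/
def WeakGreedy (F : V → V → ℝ) (D : Set V) (t : ℝ) (f φ : V) : Prop :=
  φ ∈ D ∧ ∀ g ∈ D, t * |F f g| ≤ |F f φ|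

/-- One step of the Weak Chebyshev Greedy Algorithm with weakness parameter `t` started at `f₀`:
`r k` is the residual `f_k`, `φ k` is the element picked at step `k + 1`. If `f_k = 0`, all later
residuals are `0`; otherwise the element picked satisfies the weak greedy condition and
`f_{k+1} = f₀ - G`, where `G` is a best approximation of `f₀` from the span of all picked elements. -/
def Step (F : V → V → ℝ) (D : Set V) (t : ℝ) (f₀ : V) (φ r : ℕ → V) (k : ℕ) : Prop :=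
  (r k = 0 → r (k + 1) = 0) ∧
    (r k ≠ 0 → WeakGreedy F D t (r k) (φ k) ∧
      ∃ G, IsBestApprox f₀ G (Submodule.span ℝ (φ '' Set.Iio (k + 1))) ∧ r (k + 1) = f₀ - G)

/-- `r` is the sequence of residuals of a run (realization) of WCGA(`t`) started at `f₀`, with
picked elements `φ`. -/
def IsRun (F : V → V → ℝ) (D : Set V) (t : ℝ) (f₀ : V) (φ r : ℕ → V) : Prop :=
  r 0 = f₀ ∧ ∀ k, Step F D t f₀ φ r k

/-- The nonzero elements of `A`, each divided by its norm. -/
def Normalized (A : Set V) : Set V := {g | ∃ h ∈ A, h ≠ 0 ∧ g = ‖h‖⁻¹ • h}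

/-- The dictionary `D` is almost greedy with respect to the WCGA. -/
def AlmostGreedy (F : V → V → ℝ) (D : Set V) : Prop :=
  ∀ t : ℝ, 0 < t → t ≤ 1 → ∃ C : ℝ, 0 < C ∧
    ∀ (f₀ : V) (φ r : ℕ → V), IsRun F D t f₀ φ r →
      ∀ m : ℕ, 1 ≤ m → ‖r ⌈C * m⌉₊‖ ≤ C * sigma D m f₀

end General

section Lp

variable {X : Type} [MeasurableSpace X] {μ : Measure X} {p : ℝ≥0∞}

/-- The integral `∫ |f|^(q-2) f g`. -/
noncomputable def pairing (μ : Measure X) (q : ℝ) (f g : X → ℝ) : ℝ :=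
  ∫ x, |f x| ^ (q - 2) * f x * g x ∂μ

/-- The norming functional `F_f(g) = ‖f‖^(1-p) ∫ |f|^(p-2) f g` of the real space `L_p(μ)`. -/
noncomputable def normingF [Fact (1 ≤ p)] (f g : Lp ℝ p μ) : ℝ :=
  ‖f‖ ^ (1 - p.toReal) * pairing μ p.toReal f g

/-- The elements of `L_p(μ)` given by the functions in `T`. -/
def classes (μ : Measure X) (p : ℝ≥0∞) (T : Set (X → ℝ)) : Set (Lp ℝ p μ) :=
  {h | ∃ f ∈ T, h =ᵐ[μ] f}

/-- The system `T` normalized in `L_p(μ)`; zero functions are discarded. -/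
def normalizedSystem (μ : Measure X) (p : ℝ≥0∞) [Fact (1 ≤ p)] (T : Set (X → ℝ)) :
    Set (Lp ℝ p μ) :=
  Normalized (classes μ p T)

end Lp

/-- Lebesgue measure on `𝕋^d = [0, 2π)^d`. -/
noncomputable def torus (d : ℕ) : Measure (Fin d → ℝ) :=
  volume.restrict (Set.univ.pi fun _ => Set.Ico (0:ℝ) (2 * Real.pi))

/-- The function `∏_{j ∈ E} cos (k_j x_j) ∏_{j ∉ E} sin (k_j x_j)`, where `E = {j | s j = false}`. -/
noncomputable def trig {d : ℕ} (k : Fin d → ℕ) (s : Fin d → Bool) (x : Fin d → ℝ) : ℝ :=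
  ∏ j, if s j then Real.sin ((k j : ℝ) * x j) else Real.cos ((k j : ℝ) * x j)

/-- The real `d`-variate trigonometric system. -/
def trigSystem (d : ℕ) : Set ((Fin d → ℝ) → ℝ) :=
  {f | ∃ (k : Fin d → ℕ) (s : Fin d → Bool), f = trig k s}

/-- The real `d`-variate trigonometric system normalized in `L_p(𝕋^d)`; zero functions are
discarded. -/
def RT (d : ℕ) (p : ℝ≥0∞) [Fact (1 ≤ p)] : Set (Lp ℝ p (torus d)) :=
  normalizedSystem (torus d) p (trigSystem d)

lemma RT_iff {d : ℕ} {p : ℝ≥0∞} [Fact (1 ≤ p)] (g : Lp ℝ p (torus d)) :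
    g ∈ RT d p ↔ ∃ (k : Fin d → ℕ) (s : Fin d → Bool) (h : Lp ℝ p (torus d)),
      h =ᵐ[torus d] trig k s ∧ h ≠ 0 ∧ g = ‖h‖⁻¹ • h := by
  constructor
  · rintro ⟨h, ⟨f, ⟨k, s, rfl⟩, hf⟩, hne, hg⟩
    exact ⟨k, s, h, hf, hne, hg⟩
  · rintro ⟨k, s, h, hf, hne, hg⟩
    exact ⟨h, ⟨_, ⟨k, s, rfl⟩, hf⟩, hne, hg⟩

end Pool.Agent.Helper415.TG
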