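import Mathlib

set_option autoImplicit false

namespace Pool.Agent.Helper415.WC

open MeasureTheory

/-- The constant of the pointwise inequality. -/
noncomputable def KK (p : ℝ) : ℝ := (2 ^ p + 1) * p ^ 2

lemma KK_ge_sq {p : ℝ} (_hp : 2 ≤ p) : p ^ 2 ≤ KK p := by
  unfold KK
  have h1 : (0:ℝ) < 2 ^ p := by positivity
  nlinarith [sq_nonneg p]

lemma KK_ge_four {p : ℝ} (hp : 2 ≤ p) : 4 ≤ KK p := by
  have := KK_ge_sq hp
  nlinarith

lemma KK_pos {p : ℝ} (hp : 2 ≤ p) : 0 < KK p := by linarith [KK_ge_four hp]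

/-- Pointwise inequality with the first argument equal to one. -/
lemma pointwise_one {p : ℝ} (hp : 2 ≤ p) (b : ℝ) :
    |1 - b| ^ p ≤ 1 - p * b + KK p * (b ^ 2 + |b| ^ p) := by
  have hp0 : 0 < p := by linarith
  have h2p : (1:ℝ) ≤ 2 ^ p := Real.one_le_rpow (by norm_num) (by linarith)
  have hbp : 0 ≤ |b| ^ p := by positivity
  have hK : KK p = (2 ^ p + 1) * p ^ 2 := rfl
  have hKp : 0 < KK p := KK_pos hp
  have hbabs : b ≤ |b| := le_abs_self b
  rcases le_or_gt (p * |b|) 1 with h | h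
  · have hb1 : |b| ≤ 1 / p := by rw [le_div_iff₀ hp0]; linarith
    have hb2 : |b| ≤ 1 / 2 := le_trans hb1 (by rw [div_le_div_iff₀ hp0 (by norm_num)]; linarith)
    have hpos : 0 ≤ 1 - b := by linarith
    rw [abs_of_nonneg hpos]
    have h1 : (1 - b) ^ p ≤ (Real.exp (-b)) ^ p :=
      Real.rpow_le_rpow hpos (Real.one_sub_le_exp_neg b) hp0.le
    have h2 : (Real.exp (-b)) ^ p = Real.exp (-(p * b)) := by
      rw [← Real.exp_mul]; ring_nf
    have h3 : |-(p * b)| ≤ 1 := by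
      rw [abs_neg, abs_mul, abs_of_pos hp0]; exact h
    have h4 := abs_le.mp (Real.abs_exp_sub_one_sub_id_le h3)
    have h5 : Real.exp (-(p * b)) ≤ 1 - p * b + (p * b) ^ 2 := by nlinarith [h4.2]
    have h6 : (p * b) ^ 2 ≤ KK p * (b ^ 2 + |b| ^ p) := by
      have : p ^ 2 * b ^ 2 ≤ KK p * b ^ 2 := mul_le_mul_of_nonneg_right (KK_ge_sq hp) (sq_nonneg b)
      nlinarith [mul_nonneg hKp.le hbp]
    linarith [h1.trans (h2.le.trans h5)]
  · have hsq : 1 ≤ (p * |b|) ^ 2 := by nlinarith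
    have hbsq : |b| ^ 2 = b ^ 2 := sq_abs b
    have hpb : p * b ≤ (p * |b|) ^ 2 := by
      have h1 : p * b ≤ p * |b| := by nlinarith
      nlinarith
    have hexp : (p * |b|) ^ 2 = p ^ 2 * b ^ 2 := by rw [mul_pow, hbsq]
    rw [hexp] at hsq hpb
    have habs : |1 - b| ≤ 1 + |b| := by
      calc |1 - b| ≤ |(1:ℝ)| + |b| := abs_sub _ _
        _ = 1 + |b| := by simp
    rcases le_or_gt |b| 1 with h1 | h1
    · have h2 : |1 - b| ^ p ≤ 2 ^ p :=
        Real.rpow_le_rpow (abs_nonneg _) (by linarith) hp0.le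
      have h3 : 2 ^ p ≤ 2 ^ p * (p ^ 2 * b ^ 2) := by nlinarith
      have h4 : KK p * (b ^ 2 + |b| ^ p) ≥ (2 ^ p + 1) * p ^ 2 * b ^ 2 := by
        rw [hK]; nlinarith [mul_nonneg hKp.le hbp]
      nlinarith
    · have h2 : |1 - b| ^ p ≤ (2 * |b|) ^ p :=
        Real.rpow_le_rpow (abs_nonneg _) (by linarith) hp0.le
      have h3 : (2 * |b|) ^ p = 2 ^ p * |b| ^ p := Real.mul_rpow (by norm_num) (abs_nonneg _)
      have h4 : 2 ^ p ≤ KK p := by
        have hp2 : (1:ℝ) ≤ p ^ 2 := by nlinarith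
        rw [hK]
        nlinarith [mul_le_mul_of_nonneg_left hp2 (by linarith : (0:ℝ) ≤ 2 ^ p + 1)]
      have h5 : 2 ^ p * |b| ^ p ≤ KK p * |b| ^ p := mul_le_mul_of_nonneg_right h4 hbp
      have h6 : p ^ 2 * b ^ 2 ≤ KK p * b ^ 2 := mul_le_mul_of_nonneg_right (KK_ge_sq hp) (sq_nonneg b)
      nlinarith

lemma rpow_split {p x : ℝ} (hp : 2 ≤ p) (hx : 0 < x) : x ^ p = x ^ (p - 2) * x ^ 2 := by
  rw [← Real.rpow_natCast x 2, ← Real.rpow_add hx]; norm_num

/-- Pointwise inequality. -/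
lemma pointwise {p : ℝ} (hp : 2 ≤ p) (a b : ℝ) :
    |a - b| ^ p ≤ |a| ^ p - p * (|a| ^ (p - 2) * a * b)
      + KK p * (|a| ^ (p - 2) * b ^ 2 + |b| ^ p) := by
  have hp0 : 0 < p := by linarith
  have hKp : 0 < KK p := KK_pos hp
  have hbp : 0 ≤ |b| ^ p := by positivity
  rcases eq_or_ne a 0 with ha | ha
  · subst ha
    have h0 : (0:ℝ) ≤ |(0:ℝ)| ^ (p - 2) := by positivity
    have h1 : |(0:ℝ)| ^ p = 0 := by rw [abs_zero]; exact Real.zero_rpow hp0.ne'
    rw [h1, zero_sub, abs_neg]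
    have h2 : 0 ≤ |(0:ℝ)| ^ (p - 2) * b ^ 2 := mul_nonneg h0 (sq_nonneg b)
    have h3 := KK_ge_four hp
    nlinarith [mul_nonneg hKp.le h2]
  · have hapos : 0 < |a| := abs_pos.mpr ha
    have hsplit := rpow_split hp hapos
    have h1 := pointwise_one hp (b / a)
    have h2 : |a - b| ^ p = |a| ^ p * |1 - b / a| ^ p := by
      rw [← Real.mul_rpow (abs_nonneg _) (abs_nonneg _), ← abs_mul]
      congr 2
      field_simp
    have h3 : |a| ^ p * (b / a) = |a| ^ (p - 2) * a * b := by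
      rw [hsplit, sq_abs]; field_simp
    have h4 : |a| ^ p * (b / a) ^ 2 = |a| ^ (p - 2) * b ^ 2 := by
      rw [hsplit, sq_abs]; field_simp
    have h5 : |a| ^ p * |b / a| ^ p = |b| ^ p := by
      rw [← Real.mul_rpow (abs_nonneg _) (abs_nonneg _), ← abs_mul]
      congr 2
      field_simp
    have h6 : |a| ^ p * |1 - b / a| ^ p ≤
        |a| ^ p * (1 - p * (b / a) + KK p * ((b / a) ^ 2 + |b / a| ^ p)) :=
      mul_le_mul_of_nonneg_left h1 (by positivity)
    rw [h2]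
    refine h6.trans (le_of_eq ?_)
    rw [← h3, ← h4, ← h5]; ring

lemma mul_le_add_rpow {p x y : ℝ} (hp : 2 ≤ p) (hx : 0 ≤ x) (hy : 0 ≤ y) :
    x ^ (p - 2) * y ^ 2 ≤ x ^ p + y ^ p := by
  have hp2 : 0 ≤ p - 2 := by linarith
  have hxp : 0 ≤ x ^ p := by positivity
  have hyp : 0 ≤ y ^ p := by positivity
  rcases le_total x y with h | h
  · rcases hy.eq_or_lt with h0 | h0
    · rw [← h0] at *
      have : (0:ℝ) ^ 2 = 0 := by norm_num
      rw [this, mul_zero]; positivity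
    · have h1 : x ^ (p - 2) ≤ y ^ (p - 2) := Real.rpow_le_rpow hx h hp2
      have h2 := rpow_split hp h0
      nlinarith [sq_nonneg y]
  · rcases hx.eq_or_lt with h0 | h0
    · have hy0 : y = 0 := by linarith
      rw [hy0]
      have : (0:ℝ) ^ 2 = 0 := by norm_num
      rw [this, mul_zero]; positivity
    · have h1 : y ^ 2 ≤ x ^ 2 := by nlinarith
      have h2 := rpow_split hp h0
      have h3 : 0 ≤ x ^ (p - 2) := by positivity
      nlinarith

lemma mul_le_add_rpow' {p x y : ℝ} (hp : 2 ≤ p) (hx : 0 ≤ x) (hy : 0 ≤ y) :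
    x ^ (p - 2) * x * y ≤ x ^ p + y ^ p := by
  have hp2 : 0 ≤ p - 2 := by linarith
  have hxp : 0 ≤ x ^ p := by positivity
  have hyp : 0 ≤ y ^ p := by positivity
  rcases le_total x y with h | h
  · rcases hy.eq_or_lt with h0 | h0
    · rw [← h0]
      rw [mul_zero]; positivity
    · have h1 : x ^ (p - 2) ≤ y ^ (p - 2) := Real.rpow_le_rpow hx h hp2
      have h2 := rpow_split hp h0
      have h3 : x ^ (p - 2) * x ≤ y ^ (p - 2) * y := by
        apply mul_le_mul h1 h hx (by positivity)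
      nlinarith [mul_le_mul_of_nonneg_right h3 hy]
  · rcases hx.eq_or_lt with h0 | h0
    · have hy0 : y = 0 := by linarith
      rw [hy0, mul_zero]; positivity
    · have h2 := rpow_split hp h0
      have h3 : 0 ≤ x ^ (p - 2) * x := by positivity
      nlinarith [mul_le_mul_of_nonneg_left h h3]

lemma sq_le_one_add_rpow {p x : ℝ} (hp : 2 ≤ p) (hx : 0 ≤ x) : x ^ 2 ≤ 1 + x ^ p := by
  rcases le_total x 1 with h | h
  · have : 0 ≤ x ^ p := by positivity
    nlinarith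
  · have h1 : x ^ (2:ℝ) ≤ x ^ p := Real.rpow_le_rpow_of_exponent_le h hp
    rw [Real.rpow_two] at h1
    linarith

end Pool.Agent.Helper415.WC
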