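import Mathlib
import Pool.Agent.Helper415.WC1

set_option autoImplicit false

namespace Pool.Agent.Helper415.WC

open MeasureTheory

variable {X : Type*} [MeasurableSpace X] {μ : Measure X}

lemma int_rpow {p : ℝ} (hp : 2 ≤ p) {f : X → ℝ} (hf : MemLp f (ENNReal.ofReal p) μ) :
    Integrable (fun x => |f x| ^ p) μ := by
  have h1 := hf.integrable_norm_rpow (by
    simp only [ne_eq, ENNReal.ofReal_eq_zero, not_le]; linarith) ENNReal.ofReal_ne_top
  rw [ENNReal.toReal_ofReal (by linarith)] at h1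
  simpa [Real.norm_eq_abs] using h1

lemma meas_abs_rpow {f : X → ℝ} (hf : AEStronglyMeasurable f μ) (q : ℝ) :
    AEStronglyMeasurable (fun x => |f x| ^ q) μ := by
  have h1 : AEMeasurable (fun x => |f x|) μ := by
    have := hf.aemeasurable
    exact this.abs
  exact (h1.pow_const q).aestronglyMeasurable

lemma int_J {p : ℝ} (hp : 2 ≤ p) {r h : X → ℝ} (hr : MemLp r (ENNReal.ofReal p) μ)
    (hh : MemLp h (ENNReal.ofReal p) μ) :
    Integrable (fun x => |r x| ^ (p - 2) * r x * h x) μ := by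
  refine Integrable.mono' ((int_rpow hp hr).add (int_rpow hp hh))
    (((meas_abs_rpow hr.1 (p - 2)).mul hr.1).mul hh.1) ?_
  refine Filter.Eventually.of_forall (fun x => ?_)
  rw [Real.norm_eq_abs, abs_mul, abs_mul, abs_of_nonneg (by positivity : (0:ℝ) ≤ |r x| ^ (p - 2))]
  exact mul_le_add_rpow' hp (abs_nonneg _) (abs_nonneg _)

lemma int_Q {p : ℝ} (hp : 2 ≤ p) {r h : X → ℝ} (hr : MemLp r (ENNReal.ofReal p) μ)
    (hh : MemLp h (ENNReal.ofReal p) μ) :
    Integrable (fun x => |r x| ^ (p - 2) * h x ^ 2) μ := by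
  refine Integrable.mono' ((int_rpow hp hr).add (int_rpow hp hh))
    ((meas_abs_rpow hr.1 (p - 2)).mul (hh.1.pow 2)) ?_
  refine Filter.Eventually.of_forall (fun x => ?_)
  rw [Real.norm_eq_abs, abs_mul, abs_of_nonneg (by positivity : (0:ℝ) ≤ |r x| ^ (p - 2)),
    abs_of_nonneg (sq_nonneg (h x)), ← sq_abs]
  exact mul_le_add_rpow hp (abs_nonneg _) (abs_nonneg _)

/-- The decrease constant. -/
noncomputable def kap (p : ℝ) : ℝ := p ^ 2 / (12 * KK p)

lemma kap_pos {p : ℝ} (hp : 2 ≤ p) : 0 < kap p := by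
  unfold kap
  have := KK_pos hp
  positivity

lemma J_bound {p u : ℝ} (hp : 2 ≤ p) (hu : 0 < u) {r h : X → ℝ}
    (hr : MemLp r (ENNReal.ofReal p) μ) (hh : MemLp h (ENNReal.ofReal p) μ)
    (hU : ∫ x, |r x| ^ p ∂μ = u ^ p) (hh1 : ∫ x, |h x| ^ p ∂μ ≤ 1) :
    |u * ∫ x, |r x| ^ (p - 2) * r x * h x ∂μ| ≤ 2 * u ^ p := by
  have hup : 0 < u ^ p := by positivity
  have h1 : |∫ x, u * (|r x| ^ (p - 2) * r x * h x) ∂μ| ≤
      ∫ x, (|r x| ^ p + u ^ p * |h x| ^ p) ∂μ := by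
    rw [← Real.norm_eq_abs]
    refine (norm_integral_le_integral_norm _).trans ?_
    refine integral_mono_of_nonneg (Filter.Eventually.of_forall (fun x => norm_nonneg _))
      ((int_rpow hp hr).add ((int_rpow hp hh).const_mul _)) ?_
    refine Filter.Eventually.of_forall (fun x => ?_)
    show ‖u * (|r x| ^ (p - 2) * r x * h x)‖ ≤ |r x| ^ p + u ^ p * |h x| ^ p
    rw [Real.norm_eq_abs, abs_mul, abs_mul, abs_mul,
      abs_of_nonneg (by positivity : (0:ℝ) ≤ |r x| ^ (p - 2)), abs_of_pos hu]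
    have h2 := mul_le_add_rpow' hp (abs_nonneg (r x)) (by positivity : (0:ℝ) ≤ u * |h x|)
    rw [Real.mul_rpow hu.le (abs_nonneg _)] at h2
    linarith
  rw [integral_const_mul] at h1
  refine h1.trans ?_
  rw [integral_add (int_rpow hp hr) ((int_rpow hp hh).const_mul _), integral_const_mul, hU]
  nlinarith

/-- One step decrease of the `p`-th power of the norm. -/
lemma decrease {p u : ℝ} (hp : 2 ≤ p) (hu : 0 < u) {r h : X → ℝ}
    (hr : MemLp r (ENNReal.ofReal p) μ) (hh : MemLp h (ENNReal.ofReal p) μ)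
    (hU : ∫ x, |r x| ^ p ∂μ = u ^ p) (hh1 : ∫ x, |h x| ^ p ∂μ ≤ 1) :
    ∃ s : ℝ, ∫ x, |r x - s * h x| ^ p ∂μ ≤
      u ^ p * (1 - kap p * (u * (∫ x, |r x| ^ (p - 2) * r x * h x ∂μ) / u ^ p) ^ 2) := by
  have hup : 0 < u ^ p := by positivity
  have hK := KK_pos hp
  have hKsq := KK_ge_sq hp
  set J : ℝ := ∫ x, |r x| ^ (p - 2) * r x * h x ∂μ with hJ
  set F : ℝ := u * J / u ^ p with hF
  have hF2 : |F| ≤ 2 := by
    rw [hF, abs_div, abs_of_pos hup, div_le_iff₀ hup]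
    exact J_bound hp hu hr hh hU hh1
  set σ : ℝ := p * F / (6 * KK p) with hσ
  have hσ1 : |σ| ≤ 1 := by
    rw [hσ, abs_div, abs_mul, abs_of_pos (by linarith : (0:ℝ) < p),
      abs_of_pos (by positivity : (0:ℝ) < 6 * KK p), div_le_one (by positivity)]
    nlinarith [abs_nonneg F]
  refine ⟨σ * u, ?_⟩
  have hs1 : ∀ x, |r x - σ * u * h x| ^ p ≤ |r x| ^ p
      - p * (σ * u) * (|r x| ^ (p - 2) * r x * h x)
      + KK p * (σ ^ 2 * (|r x| ^ p + u ^ p * |h x| ^ p) + σ ^ 2 * (u ^ p * |h x| ^ p)) := by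
    intro x
    have h1 := pointwise hp (r x) (σ * u * h x)
    have h2 := mul_le_add_rpow hp (abs_nonneg (r x)) (by positivity : (0:ℝ) ≤ u * |h x|)
    rw [Real.mul_rpow hu.le (abs_nonneg _)] at h2
    have h3 : |r x| ^ (p - 2) * (σ * u * h x) ^ 2 ≤ σ ^ 2 * (|r x| ^ p + u ^ p * |h x| ^ p) := by
      have h4 : |r x| ^ (p - 2) * (σ * u * h x) ^ 2 = σ ^ 2 * (|r x| ^ (p - 2) * (u * |h x|) ^ 2) := by
        rw [mul_pow u, sq_abs]; ring
      rw [h4]
      exact mul_le_mul_of_nonneg_left h2 (sq_nonneg _)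
    have h5 : |σ * u * h x| ^ p ≤ σ ^ 2 * (u ^ p * |h x| ^ p) := by
      rw [abs_mul, abs_mul, abs_of_pos hu, Real.mul_rpow (by positivity) (abs_nonneg _),
        Real.mul_rpow (abs_nonneg _) hu.le]
      have h6 : |σ| ^ p ≤ σ ^ 2 := by
        rcases (abs_nonneg σ).eq_or_lt with h0 | h0
        · rw [← h0, Real.zero_rpow (by linarith)]; positivity
        · have h7 := Real.rpow_le_rpow_of_exponent_ge h0 hσ1 hp
          rw [Real.rpow_two, sq_abs] at h7
          exact h7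
      have h8 : 0 ≤ u ^ p * |h x| ^ p := by positivity
      nlinarith
    have h9 : KK p * (|r x| ^ (p - 2) * (σ * u * h x) ^ 2 + |σ * u * h x| ^ p) ≤
        KK p * (σ ^ 2 * (|r x| ^ p + u ^ p * |h x| ^ p) + σ ^ 2 * (u ^ p * |h x| ^ p)) :=
      mul_le_mul_of_nonneg_left (by linarith) hK.le
    nlinarith
  have hmem : MemLp (fun x => r x - σ * u * h x) (ENNReal.ofReal p) μ :=
    hr.sub (hh.const_mul (σ * u))
  have hIr := int_rpow hp hr
  have hIh := int_rpow hp hh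
  have hIJ := int_J hp hr hh
  have i1 : Integrable (fun x => |r x| ^ p - p * (σ * u) * (|r x| ^ (p - 2) * r x * h x)) μ :=
    hIr.sub (hIJ.const_mul _)
  have i2 : Integrable (fun x => σ ^ 2 * (|r x| ^ p + u ^ p * |h x| ^ p)) μ :=
    (hIr.add (hIh.const_mul _)).const_mul _
  have i3 : Integrable (fun x => σ ^ 2 * (u ^ p * |h x| ^ p)) μ :=
    (hIh.const_mul _).const_mul _
  have i4 : Integrable (fun x => σ ^ 2 * (|r x| ^ p + u ^ p * |h x| ^ p)
      + σ ^ 2 * (u ^ p * |h x| ^ p)) μ := i2.add i3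
  have i5 : Integrable (fun x => KK p * (σ ^ 2 * (|r x| ^ p + u ^ p * |h x| ^ p)
      + σ ^ 2 * (u ^ p * |h x| ^ p))) μ := i4.const_mul _
  have hmono : ∫ x, |r x - σ * u * h x| ^ p ∂μ ≤ ∫ x, (|r x| ^ p
      - p * (σ * u) * (|r x| ^ (p - 2) * r x * h x)
      + KK p * (σ ^ 2 * (|r x| ^ p + u ^ p * |h x| ^ p) + σ ^ 2 * (u ^ p * |h x| ^ p))) ∂μ :=
    integral_mono (int_rpow hp hmem) (i1.add i5) hs1
  have hcalc : ∫ x, (|r x| ^ p
      - p * (σ * u) * (|r x| ^ (p - 2) * r x * h x)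
      + KK p * (σ ^ 2 * (|r x| ^ p + u ^ p * |h x| ^ p) + σ ^ 2 * (u ^ p * |h x| ^ p))) ∂μ
      = u ^ p - p * (σ * u) * J
      + KK p * (σ ^ 2 * (u ^ p + u ^ p * ∫ x, |h x| ^ p ∂μ) + σ ^ 2 * (u ^ p * ∫ x, |h x| ^ p ∂μ)) := by
    rw [integral_add i1 i5, integral_const_mul, integral_sub hIr (hIJ.const_mul _),
      integral_const_mul, hU, ← hJ]
    congr 2
    rw [integral_add i2 i3, integral_const_mul, integral_add hIr (hIh.const_mul _),
      integral_const_mul, integral_const_mul, integral_const_mul, hU]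
  refine hmono.trans (hcalc.le.trans ?_)
  set H : ℝ := ∫ x, |h x| ^ p ∂μ with hH
  have hH0 : 0 ≤ H := integral_nonneg (fun x => by positivity)
  have e1 : KK p * (σ ^ 2 * (u ^ p + u ^ p * H) + σ ^ 2 * (u ^ p * H)) ≤ KK p * (3 * σ ^ 2 * u ^ p) := by
    apply mul_le_mul_of_nonneg_left _ hK.le
    have : 0 ≤ σ ^ 2 * u ^ p := by positivity
    nlinarith
  have e2 : p * (σ * u) * J = p * σ * F * u ^ p := by
    rw [hF]; field_simp
  have e3 : p * σ * F - KK p * (3 * σ ^ 2) = kap p * F ^ 2 := by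
    rw [hσ]; unfold kap
    field_simp
    ring
  nlinarith

/-- At a best approximation the norming functional vanishes. -/
lemma J_zero {p u : ℝ} (hp : 2 ≤ p) (hu : 0 < u) {r h : X → ℝ}
    (hr : MemLp r (ENNReal.ofReal p) μ) (hh : MemLp h (ENNReal.ofReal p) μ)
    (hU : ∫ x, |r x| ^ p ∂μ = u ^ p)
    (hmin : ∀ s : ℝ, u ^ p ≤ ∫ x, |r x - s * h x| ^ p ∂μ) :
    ∫ x, |r x| ^ (p - 2) * r x * h x ∂μ = 0 := by
  have hp0 : 0 < p := by linarith
  have hup : 0 < u ^ p := by positivity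
  set H : ℝ := ∫ x, |h x| ^ p ∂μ with hH
  have hH0 : 0 ≤ H := integral_nonneg (fun x => by positivity)
  set c : ℝ := (1 + H) ^ (-(1 / p)) with hc
  have hc0 : 0 < c := by positivity
  have hcp : c ^ p = (1 + H)⁻¹ := by
    rw [hc, ← Real.rpow_mul (by positivity)]
    rw [show -(1 / p) * p = -1 by field_simp, Real.rpow_neg_one]
  have hh' : MemLp (fun x => c * h x) (ENNReal.ofReal p) μ := hh.const_mul c
  have hh1 : ∫ x, |c * h x| ^ p ∂μ ≤ 1 := by
    have : ∀ x, |c * h x| ^ p = c ^ p * |h x| ^ p := by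
      intro x
      rw [abs_mul, abs_of_pos hc0, Real.mul_rpow hc0.le (abs_nonneg _)]
    simp_rw [this]
    rw [integral_const_mul, hcp, ← hH, inv_mul_le_iff₀ (by positivity)]
    linarith
  obtain ⟨s, hs⟩ := decrease hp hu hr hh' hU hh1
  have h1 := hmin (s * c)
  have h2 : ∀ x, r x - s * c * h x = r x - s * (c * h x) := fun x => by ring
  simp_rw [h2] at h1
  have h3 := h1.trans hs
  have h4 : ∫ x, |r x| ^ (p - 2) * r x * (c * h x) ∂μ = c * ∫ x, |r x| ^ (p - 2) * r x * h x ∂μ := by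
    rw [← integral_const_mul]
    congr 1; funext x; ring
  rw [h4] at h3
  set J : ℝ := ∫ x, |r x| ^ (p - 2) * r x * h x ∂μ with hJ
  have hk := kap_pos hp
  have h5 : kap p * (u * (c * J) / u ^ p) ^ 2 ≤ 0 := by
    by_contra hcon
    push Not at hcon
    nlinarith
  have h6 : (u * (c * J) / u ^ p) ^ 2 ≤ 0 := by
    by_contra hcon
    push Not at hcon
    nlinarith
  have h7 : u * (c * J) / u ^ p = 0 := by
    exact pow_eq_zero_iff (two_ne_zero) |>.mp (le_antisymm h6 (sq_nonneg _))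
  rw [div_eq_zero_iff] at h7
  rcases h7 with h7 | h7
  · have : u * c * J = 0 := by linarith
    rcases mul_eq_zero.mp this with h8 | h8
    · exact absurd h8 (by positivity)
    · exact h8
  · exact absurd h7 hup.ne'

end Pool.Agent.Helper415.WC
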