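import Mathlib

set_option autoImplicit false

namespace Pool.Agent.Helper415.WC

open Finset

/-- A weighted Hardy inequality. -/
lemma hardy (N : ℕ) (w b : ℕ → ℝ) (hw : ∀ k, k < N → 0 < w k) :
    ∑ k ∈ range N, w k * b k * ((∑ l ∈ range (k + 1), w l * b l) / ∑ l ∈ range (k + 1), w l)
      ≤ 2 * ∑ k ∈ range N, w k * b k ^ 2 := by
  set Y : ℕ → ℝ := fun n => ∑ l ∈ range n, w l * b l with hY
  set W : ℕ → ℝ := fun n => ∑ l ∈ range n, w l with hW
  set α : ℕ → ℝ := fun k => Y (k + 1) / W (k + 1) with hα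
  have hWpos : ∀ n, 0 < n → n ≤ N → 0 < W n := by
    intro n hn hnN
    apply Finset.sum_pos
    · intro i hi
      exact hw i (lt_of_lt_of_le (mem_range.mp hi) hnN)
    · exact ⟨0, mem_range.mpr hn⟩
  have key : ∀ n, n ≤ N → ∑ k ∈ range n, (w k * α k ^ 2 - 2 * (w k * b k * α k))
      + Y n ^ 2 / W n ≤ 0 := by
    intro n
    induction n with
    | zero => intro _; simp [hY]
    | succ n ih =>
      intro hn
      have ih' := ih (by omega)
      rw [sum_range_succ]
      have hW1 : 0 < W (n + 1) := hWpos (n + 1) (by omega) hn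
      have hWs : W (n + 1) = W n + w n := by simp [hW, sum_range_succ]
      have hYs : Y (n + 1) = Y n + w n * b n := by simp [hY, sum_range_succ]
      have hYα : Y (n + 1) = W (n + 1) * α n := by
        simp only [hα]; field_simp
      have hV1 : Y (n + 1) ^ 2 / W (n + 1) = W (n + 1) * α n ^ 2 := by
        rw [hYα]; field_simp
      have hV : 2 * α n * Y n - α n ^ 2 * W n ≤ Y n ^ 2 / W n := by
        rcases Nat.eq_zero_or_pos n with h0 | h0
        · subst h0; simp [hY, hW]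
        · have hWn := hWpos n h0 (by omega)
          rw [le_div_iff₀ hWn]
          nlinarith [sq_nonneg (Y n - α n * W n)]
      rw [hV1]
      have h3 : 2 * α n * Y n - α n ^ 2 * W n
          = W (n + 1) * α n ^ 2 + (w n * α n ^ 2 - 2 * (w n * b n * α n)) := by
        have : Y n = W (n + 1) * α n - w n * b n := by linarith
        rw [this, show W n = W (n + 1) - w n by linarith]
        ring
      linarith
  have hsum := key N le_rfl
  have hV0 : 0 ≤ Y N ^ 2 / W N := by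
    rcases Nat.eq_zero_or_pos N with h0 | h0
    · subst h0; simp [hY]
    · have := hWpos N h0 le_rfl
      positivity
  have h1 : ∑ k ∈ range N, (w k * α k ^ 2 - 2 * (w k * b k * α k)) ≤ 0 := by linarith
  rw [sum_sub_distrib, ← mul_sum] at h1
  have h2 : 2 * ∑ k ∈ range N, w k * b k * α k ≤
      2 * ∑ k ∈ range N, w k * b k ^ 2 + (1 / 2) * ∑ k ∈ range N, w k * α k ^ 2 := by
    rw [mul_sum, mul_sum, mul_sum, ← sum_add_distrib]
    apply sum_le_sum
    intro k hk
    have hwk := hw k (mem_range.mp hk)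
    nlinarith [mul_nonneg hwk.le (sq_nonneg (2 * b k - α k))]
  have h3 : ∑ k ∈ range N, w k * b k * α k ≤
      ∑ k ∈ range N, w k * b k ^ 2 + (1 / 4) * ∑ k ∈ range N, w k * α k ^ 2 := by linarith
  show ∑ k ∈ range N, w k * b k * α k ≤ 2 * ∑ k ∈ range N, w k * b k ^ 2
  linarith

lemma sq_sum_le (N : ℕ) (x x' : ℕ → ℝ) (hx' : ∀ k, k < N → 0 ≤ x' k)
    (hxx : ∀ k, k < N → x' k ≤ x k) :
    (∑ k ∈ range N, x' k) ^ 2 ≤ 2 * ∑ k ∈ range N, x' k * ∑ l ∈ range (k + 1), x l := by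
  induction N with
  | zero => simp
  | succ n ih =>
    have ih' := ih (fun k hk => hx' k (by omega)) (fun k hk => hxx k (by omega))
    have h1 : ∑ k ∈ range (n + 1), x' k ≤ ∑ k ∈ range (n + 1), x k :=
      sum_le_sum (fun k hk => hxx k (mem_range.mp hk))
    have h2 := hx' n (by omega)
    rw [sum_range_succ (fun k => x' k * ∑ l ∈ range (k + 1), x l)]
    have h3 : x' n * ∑ k ∈ range (n + 1), x' k ≤ x' n * ∑ k ∈ range (n + 1), x k :=
      mul_le_mul_of_nonneg_left h1 h2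
    rw [sum_range_succ] at h3 ⊢
    nlinarith [sq_nonneg (x' n)]

/-- The summation lemma behind the removal of the logarithm. -/
lemma sum_bound {ι : Type*} [DecidableEq ι] (Λ : Finset ι) (a : ι → ℝ) (ha : ∀ i, 0 ≤ a i)
    (Γ : ℕ → Finset ι) (hΓ : ∀ k, Γ k ⊆ Λ) (N : ℕ) (w : ℕ → ℝ) (hw : ∀ k, k < N → 0 < w k)
    (C : ℝ) (hC : 0 < C)
    (h : ∀ k, k < N → (∑ l ∈ range (k + 1), w l) * ∑ i ∈ Γ k, a i ^ 2 ≤ C) :
    ∑ k ∈ range N, w k * (∑ i ∈ Γ k, a i) ^ 2 ≤ 4 * C * (Λ.card : ℝ) := by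
  set b : ℕ → ℝ := fun k => ∑ i ∈ Γ k, a i with hb
  have hb0 : ∀ k, 0 ≤ b k := fun k => sum_nonneg (fun i _ => ha i)
  set x : ℕ → ℝ := fun k => w k * b k with hx
  have hx0 : ∀ k, k < N → 0 ≤ x k := fun k hk => mul_nonneg (hw k hk).le (hb0 k)
  set S : ℝ := ∑ k ∈ range N, w k * b k ^ 2 with hS
  set y : ι → ℝ := fun i => ∑ k ∈ range N, if i ∈ Γ k then x k else 0 with hy
  have hSy : S = ∑ i ∈ Λ, a i * y i := by
    simp only [hy, mul_sum]
    rw [sum_comm]
    apply sum_congr rfl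
    intro k _
    have h1 : ∑ i ∈ Λ, a i * (if i ∈ Γ k then x k else 0) = ∑ i ∈ Γ k, a i * x k := by
      rw [← Finset.sum_filter_add_sum_filter_not Λ (fun i => i ∈ Γ k)]
      have e1 : Λ.filter (fun i => i ∈ Γ k) = Γ k := by
        ext i; simp only [mem_filter]; exact ⟨fun h => h.2, fun h => ⟨hΓ k h, h⟩⟩
      rw [e1]
      have e2 : ∑ i ∈ Λ.filter (fun i => ¬ i ∈ Γ k), a i * (if i ∈ Γ k then x k else 0) = 0 := by
        apply sum_eq_zero
        intro i hi
        rw [if_neg (mem_filter.mp hi).2, mul_zero]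
      rw [e2, add_zero]
      apply sum_congr rfl
      intro i hi
      rw [if_pos hi]
    rw [h1, ← sum_mul]
    show w k * b k ^ 2 = b k * (w k * b k)
    ring
  have hysq : ∀ i, y i ^ 2 ≤ 2 * ∑ k ∈ range N,
      (if i ∈ Γ k then x k else 0) * ∑ l ∈ range (k + 1), x l := by
    intro i
    apply sq_sum_le
    · intro k hk
      split_ifs
      · exact hx0 k hk
      · exact le_rfl
    · intro k hk
      split_ifs
      · exact le_rfl
      · exact hx0 k hk
  have hay : ∑ i ∈ Λ, a i ^ 2 * y i ^ 2 ≤ 4 * C * S := by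
    have h1 : ∑ i ∈ Λ, a i ^ 2 * y i ^ 2 ≤
        ∑ i ∈ Λ, a i ^ 2 * (2 * ∑ k ∈ range N,
          (if i ∈ Γ k then x k else 0) * ∑ l ∈ range (k + 1), x l) :=
      sum_le_sum (fun i _ => mul_le_mul_of_nonneg_left (hysq i) (sq_nonneg _))
    have h2 : ∑ i ∈ Λ, a i ^ 2 * (2 * ∑ k ∈ range N,
          (if i ∈ Γ k then x k else 0) * ∑ l ∈ range (k + 1), x l)
        = 2 * ∑ k ∈ range N, (∑ i ∈ Γ k, a i ^ 2) * (x k * ∑ l ∈ range (k + 1), x l) := by
      simp only [mul_sum]
      rw [sum_comm]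
      apply sum_congr rfl
      intro k _
      have e3 : ∀ i ∈ Λ, ∑ l ∈ range (k + 1), a i ^ 2 * (2 * ((if i ∈ Γ k then x k else 0) * x l))
          = if i ∈ Γ k then ∑ l ∈ range (k + 1), 2 * (a i ^ 2 * (x k * x l)) else 0 := by
        intro i _
        split_ifs
        · apply sum_congr rfl; intro l _; ring
        · apply sum_eq_zero; intro l _; ring
      rw [sum_congr rfl e3, ← sum_filter]
      have e1 : Λ.filter (fun i => i ∈ Γ k) = Γ k := by
        ext i; simp only [mem_filter]; exact ⟨fun h => h.2, fun h => ⟨hΓ k h, h⟩⟩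
      rw [e1, sum_comm]
      apply sum_congr rfl
      intro l _
      rw [sum_mul, mul_sum]
    have h3 : ∑ k ∈ range N, (∑ i ∈ Γ k, a i ^ 2) * (x k * ∑ l ∈ range (k + 1), x l) ≤
        C * ∑ k ∈ range N, w k * b k * ((∑ l ∈ range (k + 1), w l * b l) /
          ∑ l ∈ range (k + 1), w l) := by
      rw [mul_sum]
      apply sum_le_sum
      intro k hk
      have hkN := mem_range.mp hk
      have hWp : 0 < ∑ l ∈ range (k + 1), w l := by
        apply Finset.sum_pos
        · intro i hi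
          exact hw i (by have := mem_range.mp hi; omega)
        · exact ⟨0, mem_range.mpr (by omega)⟩
      have hYp : 0 ≤ ∑ l ∈ range (k + 1), x l :=
        sum_nonneg (fun l hl => hx0 l (by have := mem_range.mp hl; omega))
      have hA : ∑ i ∈ Γ k, a i ^ 2 ≤ C / ∑ l ∈ range (k + 1), w l := by
        rw [le_div_iff₀ hWp, mul_comm]; exact h k hkN
      calc (∑ i ∈ Γ k, a i ^ 2) * (x k * ∑ l ∈ range (k + 1), x l)
          ≤ (C / ∑ l ∈ range (k + 1), w l) * (x k * ∑ l ∈ range (k + 1), x l) :=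
            mul_le_mul_of_nonneg_right hA (mul_nonneg (hx0 k hkN) hYp)
        _ = C * (w k * b k * ((∑ l ∈ range (k + 1), w l * b l) /
          ∑ l ∈ range (k + 1), w l)) := by simp only [hx]; ring
    have h4 := hardy N w b hw
    rw [h2] at h1
    have h5 : C * ∑ k ∈ range N, w k * b k * ((∑ l ∈ range (k + 1), w l * b l) /
          ∑ l ∈ range (k + 1), w l) ≤ C * (2 * S) := mul_le_mul_of_nonneg_left h4 hC.le
    linarith
  have hfin : S ≤ ∑ i ∈ Λ, (2 * C + a i ^ 2 * y i ^ 2 / (8 * C)) := by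
    rw [hSy]
    apply sum_le_sum
    intro i _
    have h1 : 0 ≤ (a i * y i - 4 * C) ^ 2 / (8 * C) := by positivity
    have h2 : (a i * y i - 4 * C) ^ 2 / (8 * C) = 2 * C + a i ^ 2 * y i ^ 2 / (8 * C) - a i * y i := by
      field_simp; ring
    linarith
  rw [sum_add_distrib, sum_const, nsmul_eq_mul, ← sum_div] at hfin
  have h6 : (∑ i ∈ Λ, a i ^ 2 * y i ^ 2) / (8 * C) ≤ S / 2 := by
    rw [div_le_div_iff₀ (by positivity) (by norm_num)]
    linarith
  show S ≤ _
  linarith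

/-- Abstract counting of the steps. -/
lemma steps_bound {ι : Type*} [DecidableEq ι] (Λ : Finset ι) (a : ι → ℝ) (ha : ∀ i, 0 ≤ a i)
    (Γ : ℕ → Finset ι) (hΓ : ∀ k, Γ k ⊆ Λ) (N : ℕ) (u : ℕ → ℝ) (hu : ∀ k, k < N → 0 < u k)
    (huN : 0 ≤ u N)
    (κ C : ℝ) (hκ : 0 < κ) (hC : 0 < C)
    (hb : ∀ k, k < N → 0 < ∑ i ∈ Γ k, a i)
    (hA : ∀ k, k < N → ∑ i ∈ Γ k, a i ^ 2 ≤ C * u k ^ 2)
    (hdec : ∀ k, k < N → u (k + 1) ≤ u k * (1 - κ * u k ^ 2 / (∑ i ∈ Γ k, a i) ^ 2)) :
    κ * (N : ℝ) ≤ 6 * C * (Λ.card : ℝ) := by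
  set b : ℕ → ℝ := fun k => ∑ i ∈ Γ k, a i with hbdef
  set w : ℕ → ℝ := fun k => κ / b k ^ 2 with hw
  have hwpos : ∀ k, k < N → 0 < w k := fun k hk => by
    have : 0 < b k := hb k hk
    simp only [hw]; positivity
  have hu0 : ∀ k, k ≤ N → 0 ≤ u k := by
    intro k hk
    rcases hk.lt_or_eq with h | h
    · exact (hu k h).le
    · rw [h]; exact huN
  -- one step
  have hone : ∀ k, k < N → w k * u k ^ 2 ≤ 1 := by
    intro k hk
    have h1 := hdec k hk
    have h2 := hu0 (k + 1) (by omega)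
    have h3 := hu k hk
    have h4 : κ * u k ^ 2 / (b k) ^ 2 = w k * u k ^ 2 := by simp only [hw]; ring
    change u (k + 1) ≤ u k * (1 - κ * u k ^ 2 / (b k) ^ 2) at h1
    rw [h4] at h1
    by_contra hcon
    push Not at hcon
    have : u k * (1 - w k * u k ^ 2) < 0 := mul_neg_of_pos_of_neg h3 (by linarith)
    linarith
  have hstep : ∀ k, k + 1 < N → 1 / u k ^ 2 + 2 * w k ≤ 1 / u (k + 1) ^ 2 := by
    intro k hk
    have h1 := hdec k (by omega)
    have h2 := hu (k + 1) hk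
    have h3 := hu k (by omega)
    have h4 : κ * u k ^ 2 / (b k) ^ 2 = w k * u k ^ 2 := by simp only [hw]; ring
    change u (k + 1) ≤ u k * (1 - κ * u k ^ 2 / (b k) ^ 2) at h1
    rw [h4] at h1
    have h5 := hwpos k (by omega)
    set z : ℝ := w k * u k ^ 2 with hz
    have hz0 : 0 < z := by positivity
    have hz1 : z < 1 := by
      by_contra hcon
      push Not at hcon
      have : u k * (1 - z) ≤ 0 := mul_nonpos_of_nonneg_of_nonpos h3.le (by linarith)
      linarith
    have h6 : u (k + 1) ^ 2 ≤ (u k * (1 - z)) ^ 2 := by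
      apply pow_le_pow_left₀ h2.le h1
    have h7 : 1 / (u k * (1 - z)) ^ 2 ≤ 1 / u (k + 1) ^ 2 :=
      one_div_le_one_div_of_le (by positivity) h6
    refine le_trans ?_ h7
    have h8 : (0:ℝ) < (1 - z) ^ 2 := by
      have : (0:ℝ) < 1 - z := by linarith
      positivity
    have h9 : 1 / u k ^ 2 + 2 * w k = (1 + 2 * z) / u k ^ 2 := by
      rw [hz]; field_simp
    rw [h9, mul_pow, div_le_div_iff₀ (by positivity) (by positivity)]
    have h10 : (1 + 2 * z) * (1 - z) ^ 2 ≤ 1 := by nlinarith [sq_nonneg z, mul_pos hz0 hz0]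
    have h11 : 0 < u k ^ 2 := by positivity
    nlinarith
  have hW : ∀ k, k < N → 2 * ∑ l ∈ range k, w l ≤ 1 / u k ^ 2 := by
    intro k
    induction k with
    | zero => intro h0; simp; positivity
    | succ k ih =>
      intro hk
      rw [sum_range_succ]
      have h1 := ih (by omega)
      have h2 := hstep k hk
      linarith
  have hmain := sum_bound Λ a ha Γ hΓ N w hwpos (3 / 2 * C) (by positivity) (by
    intro k hk
    have h1 := hW k hk
    have h2 := hone k hk
    have h3 := hu k hk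
    have h4 : ∑ l ∈ range (k + 1), w l ≤ (3 / 2) / u k ^ 2 := by
      rw [sum_range_succ]
      have h5 : w k ≤ 1 / u k ^ 2 := by rw [le_div_iff₀ (by positivity)]; exact h2
      have h6 : (3 / 2 : ℝ) / u k ^ 2 = (1 / 2) * (1 / u k ^ 2) + 1 / u k ^ 2 := by ring
      rw [h6]; linarith
    have h7 : 0 ≤ ∑ i ∈ Γ k, a i ^ 2 := sum_nonneg (fun i _ => sq_nonneg _)
    calc (∑ l ∈ range (k + 1), w l) * ∑ i ∈ Γ k, a i ^ 2
        ≤ (3 / 2) / u k ^ 2 * (C * u k ^ 2) :=
          mul_le_mul h4 (hA k hk) h7 (by positivity)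
      _ = 3 / 2 * C := by field_simp)
  have hS : ∑ k ∈ range N, w k * (∑ i ∈ Γ k, a i) ^ 2 = κ * N := by
    rw [sum_congr rfl (fun k hk => ?_)]
    · rw [sum_const, card_range, nsmul_eq_mul, mul_comm]
    · have : 0 < b k := hb k (mem_range.mp hk)
      show κ / b k ^ 2 * b k ^ 2 = κ
      field_simp
  rw [hS] at hmain
  linarith

end Pool.Agent.Helper415.WC
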