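import Mathlib
import Pool.Agent.Helper415.WC2
import Pool.Agent.Helper415.WC3

set_option autoImplicit false

namespace Pool.Agent.Helper415.WC

open MeasureTheory

variable {X : Type*} [MeasurableSpace X] {μ : Measure X}

lemma memLp_span {p : ℝ} {S : Set (X → ℝ)} (hS : ∀ g ∈ S, MemLp g (ENNReal.ofReal p) μ)
    {h : X → ℝ} (hh : h ∈ Submodule.span ℝ S) : MemLp h (ENNReal.ofReal p) μ := by
  induction hh using Submodule.span_induction with
  | mem x hx => exact hS x hx
  | zero => exact MemLp.zero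
  | add x y _ _ hx hy => exact hx.add hy
  | smul a x _ hx => exact hx.const_smul a

lemma memLp_two [IsFiniteMeasure μ] {p : ℝ} (hp : 2 ≤ p) {h : X → ℝ}
    (hh : MemLp h (ENNReal.ofReal p) μ) : MemLp h 2 μ := by
  apply hh.mono_exponent
  rw [show (2 : ENNReal) = ENNReal.ofReal 2 by norm_num]
  exact ENNReal.ofReal_le_ofReal hp

lemma int_mul_two {f g : X → ℝ} (hf : MemLp f 2 μ) (hg : MemLp g 2 μ) :
    Integrable (fun x => f x * g x) μ := hf.integrable_mul hg

lemma l2_le [IsFiniteMeasure μ] {p u : ℝ} (hp : 2 ≤ p) (hu : 0 < u) {r : X → ℝ}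
    (hr : MemLp r (ENNReal.ofReal p) μ) (hU : ∫ x, |r x| ^ p ∂μ ≤ u ^ p) :
    ∫ x, r x ^ 2 ∂μ ≤ (μ.real Set.univ + 1) * u ^ 2 := by
  have hup : 0 < u ^ p := by positivity
  have h1 : ∀ x, r x ^ 2 ≤ u ^ 2 * (1 + |r x| ^ p / u ^ p) := by
    intro x
    have h2 := sq_le_one_add_rpow hp (by positivity : (0:ℝ) ≤ |r x| / u)
    rw [Real.div_rpow (abs_nonneg _) hu.le, div_pow, sq_abs, div_le_iff₀ (by positivity)] at h2
    linarith
  have h3 : Integrable (fun x => u ^ 2 * (1 + |r x| ^ p / u ^ p)) μ :=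
    ((integrable_const _).add ((int_rpow hp hr).div_const _)).const_mul _
  have h4 := integral_mono (memLp_two hp hr).integrable_sq h3 h1
  refine h4.trans ?_
  rw [integral_const_mul, integral_add (integrable_const _) ((int_rpow hp hr).div_const _),
    integral_div, integral_const, smul_eq_mul, mul_one, mul_comm]
  have h5 : (∫ x, |r x| ^ p ∂μ) / u ^ p ≤ 1 := by rw [div_le_one hup]; exact hU
  have h6 : 0 < u ^ 2 := by positivity
  nlinarith

/-- Young type bound for the noise term. -/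
lemma noise_bound {p : ℝ} (hp : 2 ≤ p) {r g : X → ℝ}
    (hr : MemLp r (ENNReal.ofReal p) μ) (hg : MemLp g (ENNReal.ofReal p) μ) :
    |∫ x, |r x| ^ (p - 2) * r x * g x ∂μ| ≤
      (1 / 4) * ∫ x, |r x| ^ p ∂μ + 4 ^ p * ∫ x, |g x| ^ p ∂μ := by
  have hpt : ∀ x, |(|r x| ^ (p - 2) * r x * g x)| ≤ (1 / 4) * |r x| ^ p + 4 ^ p * |g x| ^ p := by
    intro x
    rw [abs_mul, abs_mul, abs_of_nonneg (by positivity : (0:ℝ) ≤ |r x| ^ (p - 2))]
    have hr0 := abs_nonneg (r x)
    have hg0 := abs_nonneg (g x)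
    set y := |r x|
    set z := |g x|
    have hyp : 0 ≤ y ^ p := by positivity
    have hzp : 0 ≤ z ^ p := by positivity
    rcases le_or_gt (4 * z) y with h | h
    · rcases hr0.eq_or_lt with h0 | h0
      · have hz : z = 0 := by linarith
        rw [hz, mul_zero]; positivity
      · have h1 := rpow_split hp h0
        have h2 : y ^ (p - 2) * y * z ≤ y ^ (p - 2) * y * (y / 4) :=
          mul_le_mul_of_nonneg_left (by linarith) (by positivity)
        have h3 : y ^ (p - 2) * y * (y / 4) = (1 / 4) * y ^ p := by rw [h1]; ring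
        have h4 : (0:ℝ) ≤ 4 ^ p * z ^ p := by positivity
        linarith
    · have hz0 : 0 < z := by linarith
      have h1 : y ^ (p - 2) ≤ (4 * z) ^ (p - 2) := Real.rpow_le_rpow hr0 h.le (by linarith)
      have h2 : y ^ (p - 2) * y * z ≤ (4 * z) ^ (p - 2) * (4 * z) * (4 * z) := by
        apply mul_le_mul (mul_le_mul h1 h.le hr0 (by positivity)) (by linarith) hg0 (by positivity)
      have h3 : (4 * z) ^ (p - 2) * (4 * z) * (4 * z) = 4 ^ p * z ^ p := by
        rw [← Real.mul_rpow (by norm_num) hz0.le, rpow_split hp (by positivity : 0 < 4 * z)]; ring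
      linarith
  have h1 : |∫ x, |r x| ^ (p - 2) * r x * g x ∂μ| ≤
      ∫ x, ((1 / 4) * |r x| ^ p + 4 ^ p * |g x| ^ p) ∂μ := by
    rw [← Real.norm_eq_abs]
    refine (norm_integral_le_integral_norm _).trans ?_
    refine integral_mono_of_nonneg (Filter.Eventually.of_forall (fun x => norm_nonneg _))
      (((int_rpow hp hr).const_mul _).add ((int_rpow hp hg).const_mul _)) ?_
    refine Filter.Eventually.of_forall (fun x => ?_)
    show ‖|r x| ^ (p - 2) * r x * g x‖ ≤ (1 / 4) * |r x| ^ p + 4 ^ p * |g x| ^ p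
    rw [Real.norm_eq_abs]; exact hpt x
  refine h1.trans (le_of_eq ?_)
  rw [integral_add ((int_rpow hp hr).const_mul _) ((int_rpow hp hg).const_mul _),
    integral_const_mul, integral_const_mul]

/-- Additivity and homogeneity of the functional in the second argument. -/
lemma J_add {p : ℝ} (hp : 2 ≤ p) {r g h : X → ℝ} (hr : MemLp r (ENNReal.ofReal p) μ)
    (hg : MemLp g (ENNReal.ofReal p) μ) (hh : MemLp h (ENNReal.ofReal p) μ) :
    ∫ x, |r x| ^ (p - 2) * r x * (g x + h x) ∂μ =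
      ∫ x, |r x| ^ (p - 2) * r x * g x ∂μ + ∫ x, |r x| ^ (p - 2) * r x * h x ∂μ := by
  rw [← integral_add (int_J hp hr hg) (int_J hp hr hh)]
  congr 1; funext x; ring

lemma J_smul {p : ℝ} {r g : X → ℝ} (c : ℝ) :
    ∫ x, |r x| ^ (p - 2) * r x * (c * g x) ∂μ = c * ∫ x, |r x| ^ (p - 2) * r x * g x ∂μ := by
  rw [← integral_const_mul]
  congr 1; funext x; ring

lemma J_sum {p : ℝ} (hp : 2 ≤ p) {r : X → ℝ} (hr : MemLp r (ENNReal.ofReal p) μ)
    (Λ : Finset (X → ℝ)) (hΛ : ∀ g ∈ Λ, MemLp g (ENNReal.ofReal p) μ) (c : (X → ℝ) → ℝ) :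
    ∫ x, |r x| ^ (p - 2) * r x * (∑ g ∈ Λ, c g * g x) ∂μ =
      ∑ g ∈ Λ, c g * ∫ x, |r x| ^ (p - 2) * r x * g x ∂μ := by
  have h1 : ∀ g ∈ Λ, c g * ∫ x, |r x| ^ (p - 2) * r x * g x ∂μ =
      ∫ x, c g * (|r x| ^ (p - 2) * r x * g x) ∂μ := fun g _ => by rw [integral_const_mul]
  rw [Finset.sum_congr rfl h1, ← integral_finsetSum]
  · congr 1; funext x; rw [Finset.mul_sum]; apply Finset.sum_congr rfl; intro g _; ring
  · intro g hg
    exact (int_J hp hr (hΛ g hg)).const_mul _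

/-- Bessel type inequality. -/
lemma bessel [IsFiniteMeasure μ] {p b : ℝ} (hp : 2 ≤ p) (D : Set (X → ℝ))
    (hD : ∀ g ∈ D, MemLp g (ENNReal.ofReal p) μ)
    (hDb : ∀ g ∈ D, b ≤ ∫ x, g x ^ 2 ∂μ)
    (hDo : ∀ g ∈ D, ∀ h ∈ D, g ≠ h → ∫ x, g x * h x ∂μ = 0)
    (Γ : Finset (X → ℝ)) (hΓ : ∀ g ∈ Γ, g ∈ D) (A : Set (X → ℝ)) (hA : A ⊆ D)
    (hdisj : ∀ g ∈ Γ, g ∉ A) (c : (X → ℝ) → ℝ) (v : X → ℝ) (hv : v ∈ Submodule.span ℝ A) :
    b * ∑ g ∈ Γ, c g ^ 2 ≤ ∫ x, ((∑ g ∈ Γ, c g * g x) + v x) ^ 2 ∂μ := by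
  have hD2 : ∀ g ∈ D, MemLp g 2 μ := fun g hg => memLp_two hp (hD g hg)
  have hv2 : MemLp v 2 μ := memLp_two hp (memLp_span (fun g hg => hD g (hA hg)) hv)
  have hgv : ∀ g ∈ Γ, ∫ x, g x * v x ∂μ = 0 := by
    intro g hg
    induction hv using Submodule.span_induction with
    | mem x hx => exact hDo g (hΓ g hg) x (hA hx) (fun h => hdisj g hg (h ▸ hx))
    | zero => simp
    | add x y hx hy ihx ihy =>
      have hx2 : MemLp x 2 μ := memLp_two hp (memLp_span (fun g hg => hD g (hA hg)) hx)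
      have hy2 : MemLp y 2 μ := memLp_two hp (memLp_span (fun g hg => hD g (hA hg)) hy)
      have := ihx hx2
      have := ihy hy2
      have e : ∀ z, g z * (x + y) z = g z * x z + g z * y z := fun z => by
        simp only [Pi.add_apply]; ring
      simp_rw [e]
      rw [integral_add (int_mul_two (hD2 g (hΓ g hg)) hx2) (int_mul_two (hD2 g (hΓ g hg)) hy2),
        ihx hx2, ihy hy2, add_zero]
    | smul a x hx ihx =>
      have hx2 : MemLp x 2 μ := memLp_two hp (memLp_span (fun g hg => hD g (hA hg)) hx)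
      have e : ∀ z, g z * (a • x) z = a * (g z * x z) := fun z => by
        simp only [Pi.smul_apply, smul_eq_mul]; ring
      simp_rw [e]
      rw [integral_const_mul, ihx hx2, mul_zero]
  set F : X → ℝ := fun x => ∑ g ∈ Γ, c g * g x with hF
  have hF2 : MemLp F 2 μ := by
    apply memLp_finsetSum
    intro g hg
    exact (hD2 g (hΓ g hg)).const_mul _
  have hFv : ∫ x, F x * v x ∂μ = 0 := by
    have e : ∀ x, F x * v x = ∑ g ∈ Γ, c g * (g x * v x) := fun x => by
      simp only [hF, Finset.sum_mul]; apply Finset.sum_congr rfl; intro g _; ring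
    simp_rw [e]
    rw [integral_finsetSum]
    · apply Finset.sum_eq_zero
      intro g hg
      rw [integral_const_mul, hgv g hg, mul_zero]
    · intro g hg
      exact (int_mul_two (hD2 g (hΓ g hg)) hv2).const_mul _
  have hFF : ∫ x, F x ^ 2 ∂μ = ∑ g ∈ Γ, c g ^ 2 * ∫ x, g x ^ 2 ∂μ := by
    have e : ∀ x, F x ^ 2 = ∑ g ∈ Γ, ∑ h ∈ Γ, (c g * c h) * (g x * h x) := fun x => by
      simp only [hF, sq, Finset.sum_mul, Finset.mul_sum]
      apply Finset.sum_congr rfl; intro g _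
      apply Finset.sum_congr rfl; intro h _
      ring
    simp_rw [e]
    rw [integral_finsetSum]
    · apply Finset.sum_congr rfl
      intro g hg
      rw [integral_finsetSum]
      · rw [Finset.sum_eq_single g]
        · rw [integral_const_mul]
          congr 1
          · ring
          · congr 1; funext x; ring
        · intro h hh hne
          rw [integral_const_mul, hDo g (hΓ g hg) h (hΓ h hh) (fun e => hne e.symm), mul_zero]
        · intro hng; exact absurd hg hng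
      · intro h hh
        exact (int_mul_two (hD2 g (hΓ g hg)) (hD2 h (hΓ h hh))).const_mul _
    · intro g hg
      apply integrable_finsetSum
      intro h hh
      exact (int_mul_two (hD2 g (hΓ g hg)) (hD2 h (hΓ h hh))).const_mul _
  have hexp : ∀ x, (F x + v x) ^ 2 = F x ^ 2 + 2 * (F x * v x) + v x ^ 2 := fun x => by ring
  have hgoal : ∫ x, (F x + v x) ^ 2 ∂μ = ∫ x, F x ^ 2 ∂μ + ∫ x, v x ^ 2 ∂μ := by
    simp_rw [hexp]
    have i1 : Integrable (fun x => F x ^ 2 + 2 * (F x * v x)) μ :=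
      hF2.integrable_sq.add ((int_mul_two hF2 hv2).const_mul 2)
    rw [integral_add i1 hv2.integrable_sq,
      integral_add hF2.integrable_sq ((int_mul_two hF2 hv2).const_mul 2), integral_const_mul, hFv]
    ring
  change b * ∑ g ∈ Γ, c g ^ 2 ≤ ∫ x, (F x + v x) ^ 2 ∂μ
  rw [hgoal, hFF, Finset.mul_sum]
  have h1 : ∑ g ∈ Γ, b * c g ^ 2 ≤ ∑ g ∈ Γ, c g ^ 2 * ∫ x, g x ^ 2 ∂μ := by
    apply Finset.sum_le_sum
    intro g hg
    nlinarith [hDb g (hΓ g hg), sq_nonneg (c g)]
  have h2 : 0 ≤ ∫ x, v x ^ 2 ∂μ := integral_nonneg (fun x => sq_nonneg _)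
  linarith

end Pool.Agent.Helper415.WC
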