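import Mathlib
import Pool.Agent.Helper415.WC4

set_option autoImplicit false

namespace Pool.Agent.Helper415.WC

open MeasureTheory

variable {X : Type*} [MeasurableSpace X] {μ : Measure X}

/-- The number of steps before the residual gets comparable with the noise. -/
theorem core [IsFiniteMeasure μ] {p t b : ℝ} (hp : 2 ≤ p) (ht : 0 < t) (hb : 0 < b)
    (D : Set (X → ℝ))
    (hD : ∀ g ∈ D, MemLp g (ENNReal.ofReal p) μ)
    (hD1 : ∀ g ∈ D, ∫ x, |g x| ^ p ∂μ ≤ 1)
    (hDb : ∀ g ∈ D, b ≤ ∫ x, g x ^ 2 ∂μ)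
    (hDo : ∀ g ∈ D, ∀ h ∈ D, g ≠ h → ∫ x, g x * h x ∂μ = 0)
    (f₀ : X → ℝ) (hf₀ : MemLp f₀ (ENNReal.ofReal p) μ) (φ G : ℕ → X → ℝ)
    (hφD : ∀ n, φ n ∈ D)
    (hGs : ∀ n, G n ∈ Submodule.span ℝ (φ '' Set.Iio n))
    (hGm : ∀ n, ∀ h ∈ Submodule.span ℝ (φ '' Set.Iio n),
      ∫ x, |f₀ x - G n x| ^ p ∂μ ≤ ∫ x, |f₀ x - h x| ^ p ∂μ)
    (hφ : ∀ n, ∀ g ∈ D, t * |∫ x, |f₀ x - G n x| ^ (p - 2) * (f₀ x - G n x) * g x ∂μ| ≤
      |∫ x, |f₀ x - G n x| ^ (p - 2) * (f₀ x - G n x) * φ n x ∂μ|)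
    (Λ : Finset (X → ℝ)) (hΛ : ∀ g ∈ Λ, g ∈ D) (c : (X → ℝ) → ℝ) (σ : ℝ) (hσ : 0 ≤ σ)
    (hσ' : ∫ x, |f₀ x - ∑ g ∈ Λ, c g * g x| ^ p ∂μ ≤ σ ^ p)
    (n : ℕ) (hn : 4 ^ (1 + 1 / p) * 2 * σ < (∫ x, |f₀ x - G n x| ^ p ∂μ) ^ (1 / p)) :
    (kap p * t ^ 2 / (4 * p)) * ((n : ℝ) + 1)
      ≤ 6 * (4 * (μ.real Set.univ + 1) / b) * (Λ.card : ℝ) := by
  classical
  have hp0 : 0 < p := by linarith
  have hkap := kap_pos hp
  have hM : 0 ≤ μ.real Set.univ := measureReal_nonneg
  set r : ℕ → X → ℝ := fun k x => f₀ x - G k x with hr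
  have hφmem : ∀ n, ∀ g ∈ φ '' Set.Iio n, MemLp g (ENNReal.ofReal p) μ := by
    rintro n g ⟨j, _, rfl⟩
    exact hD _ (hφD j)
  have hGmem : ∀ n, MemLp (G n) (ENNReal.ofReal p) μ := fun n => memLp_span (hφmem n) (hGs n)
  have hrmem : ∀ n, MemLp (r n) (ENNReal.ofReal p) μ := fun n => hf₀.sub (hGmem n)
  set U : ℕ → ℝ := fun k => ∫ x, |r k x| ^ p ∂μ with hU
  have hU0 : ∀ k, 0 ≤ U k := fun k => integral_nonneg (fun x => by positivity)
  set u : ℕ → ℝ := fun k => U k ^ (1 / p) with hu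
  have hu0 : ∀ k, 0 ≤ u k := fun k => by simp only [hu]; exact Real.rpow_nonneg (hU0 k) _
  have huU : ∀ k, u k ^ p = U k := fun k => by
    simp only [hu]
    rw [← Real.rpow_mul (hU0 k), one_div, inv_mul_cancel₀ hp0.ne', Real.rpow_one]
  have hspan_mono : ∀ k l, k ≤ l → Submodule.span ℝ (φ '' Set.Iio k) ≤
      Submodule.span ℝ (φ '' Set.Iio l) := fun k l hkl =>
    Submodule.span_mono (Set.image_mono (Set.Iio_subset_Iio hkl))
  have hUmono : ∀ k l, k ≤ l → U l ≤ U k := fun k l hkl =>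
    hGm l (G k) (hspan_mono k l hkl (hGs k))
  have humono : ∀ k l, k ≤ l → u l ≤ u k := fun k l hkl =>
    Real.rpow_le_rpow (hU0 l) (hUmono k l hkl) (by positivity)
  have h4 : (0:ℝ) < 4 ^ (1 + 1 / p) := by positivity
  have hun : ∀ k, k ≤ n → 4 ^ (1 + 1 / p) * 2 * σ < u k := fun k hk => lt_of_lt_of_le hn (humono k n hk)
  have hunpos : ∀ k, k ≤ n → 0 < u k := fun k hk =>
    lt_of_le_of_lt (by positivity) (hun k hk)
  -- the noise is small
  have hnoise : ∀ k, k ≤ n → 4 ^ p * σ ^ p ≤ (1 / 4) * U k := by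
    intro k hk
    have h1 : (4 ^ (1 + 1 / p) * σ) ^ p ≤ (u k) ^ p := by
      apply Real.rpow_le_rpow (by positivity) _ hp0.le
      have := hun k hk
      nlinarith [mul_nonneg h4.le hσ]
    rw [Real.mul_rpow h4.le hσ, huU, ← Real.rpow_mul (by norm_num)] at h1
    rw [show (1 + 1 / p) * p = p + 1 by field_simp, Real.rpow_add (by norm_num), Real.rpow_one] at h1
    linarith
  set g₀ : X → ℝ := fun x => f₀ x - ∑ g ∈ Λ, c g * g x with hg₀
  have hΛmem : ∀ g ∈ Λ, MemLp g (ENNReal.ofReal p) μ := fun g hg => hD g (hΛ g hg)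
  have hsum_mem : MemLp (fun x => ∑ g ∈ Λ, c g * g x) (ENNReal.ofReal p) μ :=
    memLp_finsetSum _ (fun g hg => (hΛmem g hg).const_mul _)
  have hg₀mem : MemLp g₀ (ENNReal.ofReal p) μ := hf₀.sub hsum_mem
  set Γ : ℕ → Finset (X → ℝ) := fun k => Λ.filter (fun g => g ∉ φ '' Set.Iio k) with hΓ
  have hJzero : ∀ k, k ≤ n → ∀ h ∈ Submodule.span ℝ (φ '' Set.Iio k),
      ∫ x, |r k x| ^ (p - 2) * r k x * h x ∂μ = 0 := by
    intro k hk h hh
    apply J_zero hp (hunpos k hk) (hrmem k) (memLp_span (hφmem k) hh) (huU k).symm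
    intro s
    rw [huU]
    have h1 := hGm k (G k + s • h) (Submodule.add_mem _ (hGs k) (Submodule.smul_mem _ s hh))
    refine h1.trans (le_of_eq ?_)
    congr 1; funext x
    simp only [Pi.add_apply, Pi.smul_apply, smul_eq_mul, hr]
    congr 2; ring
  -- the main lower bound for the functional
  have hJlow : ∀ k, k ≤ n → t * U k / 2 ≤
      (∑ g ∈ Γ k, |c g|) * |∫ x, |r k x| ^ (p - 2) * r k x * φ k x ∂μ| := by
    intro k hk
    set Jφ := |∫ x, |r k x| ^ (p - 2) * r k x * φ k x ∂μ| with hJφ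
    have e1 : U k = ∫ x, |r k x| ^ (p - 2) * r k x * r k x ∂μ := by
      simp only [hU]
      congr 1; funext x
      rcases eq_or_ne (r k x) 0 with h0 | h0
      · rw [h0]; simp [Real.zero_rpow hp0.ne']
      · rw [rpow_split hp (abs_pos.mpr h0), sq_abs]; ring
    have e2 : ∀ x, r k x = (∑ g ∈ Λ, c g * g x) + (g₀ x + (-1) * G k x) := fun x => by
      simp only [hr, hg₀]; ring
    have e3 : ∫ x, |r k x| ^ (p - 2) * r k x * r k x ∂μ =
        ∫ x, |r k x| ^ (p - 2) * r k x * ((∑ g ∈ Λ, c g * g x) + (g₀ x + (-1) * G k x)) ∂μ := by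
      congr 1; funext x; congr 1; exact e2 x
    have hGk' : MemLp (fun x => (-1) * G k x) (ENNReal.ofReal p) μ := (hGmem k).const_mul (-1)
    have hsum3 : MemLp (fun x => g₀ x + (-1) * G k x) (ENNReal.ofReal p) μ := hg₀mem.add hGk'
    rw [J_add hp (hrmem k) hsum_mem hsum3] at e3
    have e4 : ∫ x, |r k x| ^ (p - 2) * r k x * (g₀ x + (-1) * G k x) ∂μ =
        ∫ x, |r k x| ^ (p - 2) * r k x * g₀ x ∂μ := by
      have := J_add hp (hrmem k) hg₀mem hGk'
      rw [J_smul, hJzero k hk (G k) (hGs k), mul_zero, add_zero] at this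
      exact this
    have e5 : ∫ x, |r k x| ^ (p - 2) * r k x * (∑ g ∈ Λ, c g * g x) ∂μ =
        ∑ g ∈ Γ k, c g * ∫ x, |r k x| ^ (p - 2) * r k x * g x ∂μ := by
      rw [J_sum hp (hrmem k) Λ hΛmem c]
      rw [← Finset.sum_filter_add_sum_filter_not Λ (fun g => g ∉ φ '' Set.Iio k)]
      have : ∑ g ∈ Λ.filter (fun g => ¬ g ∉ φ '' Set.Iio k),
          c g * ∫ x, |r k x| ^ (p - 2) * r k x * g x ∂μ = 0 := by
        apply Finset.sum_eq_zero
        intro g hg
        have hg2 : g ∈ φ '' Set.Iio k := by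
          have := (Finset.mem_filter.mp hg).2
          push Not at this
          exact this
        rw [hJzero k hk g (Submodule.subset_span hg2), mul_zero]
      rw [this, add_zero]
    have e6 := noise_bound hp (hrmem k) hg₀mem
    have e7 : |∑ g ∈ Γ k, c g * ∫ x, |r k x| ^ (p - 2) * r k x * g x ∂μ| ≤
        (∑ g ∈ Γ k, |c g|) * (Jφ / t) := by
      refine (Finset.abs_sum_le_sum_abs _ _).trans ?_
      rw [Finset.sum_mul]
      apply Finset.sum_le_sum
      intro g hg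
      rw [abs_mul]
      apply mul_le_mul_of_nonneg_left _ (abs_nonneg _)
      rw [le_div_iff₀ ht, mul_comm]
      exact hφ k g (hΛ g (Finset.mem_filter.mp hg).1)
    have e8 : 4 ^ p * ∫ x, |g₀ x| ^ p ∂μ ≤ 4 ^ p * σ ^ p :=
      mul_le_mul_of_nonneg_left hσ' (by positivity)
    have e9 := hnoise k hk
    have e10 : U k ≤ (∑ g ∈ Γ k, |c g|) * (Jφ / t) + (1 / 2) * U k := by
      have h1 : U k = ∑ g ∈ Γ k, c g * ∫ x, |r k x| ^ (p - 2) * r k x * g x ∂μ +
          ∫ x, |r k x| ^ (p - 2) * r k x * g₀ x ∂μ := by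
        rw [← e5, ← e4, e1]; exact e3
      have h2 := le_abs_self (∑ g ∈ Γ k, c g * ∫ x, |r k x| ^ (p - 2) * r k x * g x ∂μ)
      have h3 := le_abs_self (∫ x, |r k x| ^ (p - 2) * r k x * g₀ x ∂μ)
      have h5 : ∫ x, |r k x| ^ p ∂μ = U k := rfl
      rw [h5] at e6
      linarith
    have e11 : (∑ g ∈ Γ k, |c g|) * (Jφ / t) = ((∑ g ∈ Γ k, |c g|) * Jφ) / t := by ring
    rw [e11] at e10
    have e12 : (1 / 2) * U k ≤ ((∑ g ∈ Γ k, |c g|) * Jφ) / t := by linarith
    rw [le_div_iff₀ ht] at e12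
    linarith
  have hbpos : ∀ k, k < n + 1 → 0 < ∑ g ∈ Γ k, |c g| := by
    intro k hk
    have h1 := hJlow k (by omega)
    have h2 : 0 < U k := by rw [← huU]; have := hunpos k (by omega); positivity
    have h3 : 0 < t * U k / 2 := by positivity
    have h5 : 0 ≤ ∑ g ∈ Γ k, |c g| := Finset.sum_nonneg (fun g _ => abs_nonneg _)
    rcases h5.eq_or_lt with h6 | h6
    · rw [← h6, zero_mul] at h1; linarith
    · exact h6
  have hAk : ∀ k, k < n + 1 → ∑ g ∈ Γ k, |c g| ^ 2 ≤ (4 * (μ.real Set.univ + 1) / b) * u k ^ 2 := by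
    intro k hk
    have hkn : k ≤ n := by omega
    have huk := hunpos k hkn
    have h1 : b * ∑ g ∈ Γ k, c g ^ 2 ≤
        ∫ x, ((∑ g ∈ Γ k, c g * g x) + ((∑ g ∈ Λ.filter (fun g => ¬ g ∉ φ '' Set.Iio k), c g • g)
          - G k) x) ^ 2 ∂μ := by
      apply bessel hp D hD hDb hDo (Γ k) (fun g hg => hΛ g (Finset.mem_filter.mp hg).1)
        (φ '' Set.Iio k)
      · rintro g ⟨j, _, rfl⟩; exact hφD j
      · intro g hg; exact (Finset.mem_filter.mp hg).2
      · apply Submodule.sub_mem _ _ (hGs k)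
        apply Submodule.sum_mem
        intro g hg
        apply Submodule.smul_mem
        apply Submodule.subset_span
        have := (Finset.mem_filter.mp hg).2
        push Not at this
        exact this
    have h2 : ∀ x, (∑ g ∈ Γ k, c g * g x) +
        ((∑ g ∈ Λ.filter (fun g => ¬ g ∉ φ '' Set.Iio k), c g • g) - G k) x = r k x - g₀ x := by
      intro x
      simp only [Pi.sub_apply, Finset.sum_apply, Pi.smul_apply, smul_eq_mul, hr, hg₀]
      rw [← Finset.sum_filter_add_sum_filter_not Λ (fun g => g ∉ φ '' Set.Iio k)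
        (fun g => c g * g x)]
      ring
    simp_rw [h2] at h1
    have h3 : ∫ x, (r k x - g₀ x) ^ 2 ∂μ ≤ ∫ x, (2 * r k x ^ 2 + 2 * g₀ x ^ 2) ∂μ := by
      apply integral_mono
      · exact (memLp_two hp ((hrmem k).sub hg₀mem)).integrable_sq
      · exact ((memLp_two hp (hrmem k)).integrable_sq.const_mul 2).add
          ((memLp_two hp hg₀mem).integrable_sq.const_mul 2)
      · intro x; show (r k x - g₀ x) ^ 2 ≤ 2 * r k x ^ 2 + 2 * g₀ x ^ 2
        nlinarith [sq_nonneg (r k x + g₀ x)]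
    rw [integral_add ((memLp_two hp (hrmem k)).integrable_sq.const_mul 2)
          ((memLp_two hp hg₀mem).integrable_sq.const_mul 2), integral_const_mul,
          integral_const_mul] at h3
    have h5 := l2_le hp huk (hrmem k) (huU k).ge
    have h6 : ∫ x, |g₀ x| ^ p ∂μ ≤ u k ^ p := by
      have e1 := hnoise k hkn
      have e2 : (1:ℝ) ≤ 4 ^ p := Real.one_le_rpow (by norm_num) hp0.le
      have e3 : 0 ≤ σ ^ p := by positivity
      rw [huU]
      nlinarith [hU0 k]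
    have h7 := l2_le hp huk hg₀mem h6
    have h8 : ∑ g ∈ Γ k, |c g| ^ 2 = ∑ g ∈ Γ k, c g ^ 2 :=
      Finset.sum_congr rfl (fun g _ => sq_abs _)
    rw [h8, div_mul_eq_mul_div, le_div_iff₀ hb]
    nlinarith
  have hdec : ∀ k, k < n + 1 → u (k + 1) ≤ u k * (1 - (kap p * t ^ 2 / (4 * p)) * u k ^ 2 /
      (∑ g ∈ Γ k, |c g|) ^ 2) := by
    intro k hk
    have hkn : k ≤ n := by omega
    have huk := hunpos k hkn
    have hbk := hbpos k hk
    have hupk : 0 < u k ^ p := by positivity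
    set B := ∑ g ∈ Γ k, |c g| with hB
    obtain ⟨s, hs⟩ := decrease hp huk (hrmem k) (hD _ (hφD k)) (huU k).symm (hD1 _ (hφD k))
    set J := ∫ x, |r k x| ^ (p - 2) * r k x * φ k x ∂μ with hJ
    have h1 : U (k + 1) ≤ u k ^ p * (1 - kap p * (u k * J / u k ^ p) ^ 2) := by
      refine le_trans ?_ hs
      have h2 := hGm (k + 1) (G k + s • φ k) (Submodule.add_mem _
        (hspan_mono k (k + 1) (by omega) (hGs k))
        (Submodule.smul_mem _ s (Submodule.subset_span ⟨k, by simp, rfl⟩)))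
      refine h2.trans (le_of_eq ?_)
      congr 1; funext x
      simp only [Pi.add_apply, Pi.smul_apply, smul_eq_mul, hr]
      congr 2; ring
    have h2 := hJlow k hkn
    have h3 : t * u k / (2 * B) ≤ |u k * J / u k ^ p| := by
      rw [abs_div, abs_mul, abs_of_pos huk, abs_of_pos hupk, div_le_div_iff₀ (by positivity) hupk]
      rw [← huU] at h2
      nlinarith
    have h5 : (t * u k / (2 * B)) ^ 2 ≤ (u k * J / u k ^ p) ^ 2 := by
      rw [← sq_abs (u k * J / u k ^ p)]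
      exact pow_le_pow_left₀ (by positivity) h3 2
    have h6 : U (k + 1) ≤ u k ^ p * (1 - kap p * (t * u k / (2 * B)) ^ 2) := by
      refine h1.trans (mul_le_mul_of_nonneg_left ?_ hupk.le)
      nlinarith
    set y := kap p * (t * u k / (2 * B)) ^ 2 with hy
    have hy1 : 0 ≤ 1 - y := by
      by_contra hcon
      push Not at hcon
      have : u k ^ p * (1 - y) < 0 := mul_neg_of_pos_of_neg hupk hcon
      linarith [hU0 (k + 1)]
    have h7 : u (k + 1) ≤ (u k ^ p * (1 - y)) ^ (1 / p) := by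
      simp only [hu]
      exact Real.rpow_le_rpow (hU0 _) h6 (by positivity)
    rw [Real.mul_rpow hupk.le hy1, ← Real.rpow_mul (hu0 k), show p * (1 / p) = 1 by field_simp,
      Real.rpow_one] at h7
    have h8 : (1 - y) ^ (1 / p) ≤ 1 - (1 / p) * y := by
      have h9 := rpow_one_add_le_one_add_mul_self (s := -y) (by linarith) (p := 1 / p)
        (by positivity) (by rw [div_le_one hp0]; linarith)
      have e1 : 1 + -y = 1 - y := by ring
      rw [e1] at h9
      linarith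
    refine h7.trans (mul_le_mul_of_nonneg_left (h8.trans (le_of_eq ?_)) huk.le)
    rw [hy]
    field_simp
    ring
  have hfinal := steps_bound Λ (fun g => |c g|) (fun g => abs_nonneg _) Γ
    (fun k => Finset.filter_subset _ _) (n + 1) u (fun k hk => hunpos k (by omega)) (hu0 _)
    (kap p * t ^ 2 / (4 * p)) (4 * (μ.real Set.univ + 1) / b) (by positivity) (by positivity)
    hbpos hAk hdec
  push_cast at hfinal
  exact hfinal

end Pool.Agent.Helper415.WC
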