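import Mathlib
import Pool.Agent.Helper415.WC5

set_option autoImplicit false

namespace Pool.Agent.Helper415.WC

open MeasureTheory

variable {X : Type*} [MeasurableSpace X] {μ : Measure X}

/-- The number of steps constant. -/
noncomputable def C1 (p t b M : ℝ) : ℕ :=
  ⌈(6 * (4 * (M + 1) / b)) / (kap p * t ^ 2 / (4 * p))⌉₊

/-- The error constant. -/
noncomputable def C2 (p : ℝ) : ℝ := 4 ^ (1 + 1 / p) * 2

/-- Almost greediness, functions version. -/
theorem almost_greedy [IsFiniteMeasure μ] {p t b : ℝ} (hp : 2 ≤ p) (ht : 0 < t) (hb : 0 < b)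
    (D : Set (X → ℝ))
    (hD : ∀ g ∈ D, MemLp g (ENNReal.ofReal p) μ)
    (hD1 : ∀ g ∈ D, ∫ x, |g x| ^ p ∂μ ≤ 1)
    (hDb : ∀ g ∈ D, b ≤ ∫ x, g x ^ 2 ∂μ)
    (hDo : ∀ g ∈ D, ∀ h ∈ D, g ≠ h → ∫ x, g x * h x ∂μ = 0)
    (f₀ : X → ℝ) (hf₀ : MemLp f₀ (ENNReal.ofReal p) μ) (φ G : ℕ → X → ℝ)
    (hφD : ∀ n, φ n ∈ D)
    (hGs : ∀ n, G n ∈ Submodule.span ℝ (φ '' Set.Iio n))
    (hGm : ∀ n, ∀ h ∈ Submodule.span ℝ (φ '' Set.Iio n),
      ∫ x, |f₀ x - G n x| ^ p ∂μ ≤ ∫ x, |f₀ x - h x| ^ p ∂μ)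
    (hφ : ∀ n, ∀ g ∈ D, t * |∫ x, |f₀ x - G n x| ^ (p - 2) * (f₀ x - G n x) * g x ∂μ| ≤
      |∫ x, |f₀ x - G n x| ^ (p - 2) * (f₀ x - G n x) * φ n x ∂μ|)
    (m : ℕ) (ψ : Fin m → X → ℝ) (hψ : ∀ i, ψ i ∈ D) (c : Fin m → ℝ) :
    (∫ x, |f₀ x - G (C1 p t b (μ.real Set.univ) * m) x| ^ p ∂μ) ^ (1 / p) ≤
      C2 p * (∫ x, |f₀ x - ∑ i, c i * ψ i x| ^ p ∂μ) ^ (1 / p) := by
  classical
  have hp0 : 0 < p := by linarith
  have hkap := kap_pos hp
  have hM : 0 ≤ μ.real Set.univ := measureReal_nonneg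
  by_contra hcon
  push Not at hcon
  set Λ : Finset (X → ℝ) := Finset.univ.image ψ with hΛ
  set c' : (X → ℝ) → ℝ := fun g => ∑ i ∈ Finset.univ.filter (fun i => ψ i = g), c i with hc'
  have hcard : (Λ.card : ℝ) ≤ m := by
    have : Λ.card ≤ m := (Finset.card_image_le).trans (by simp)
    exact_mod_cast this
  have hsum : ∀ x, ∑ g ∈ Λ, c' g * g x = ∑ i, c i * ψ i x := by
    intro x
    rw [← Finset.sum_fiberwise_of_maps_to (s := Finset.univ) (t := Λ) (g := ψ)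
      (fun i _ => Finset.mem_image_of_mem ψ (Finset.mem_univ i)) (fun i => c i * ψ i x)]
    apply Finset.sum_congr rfl
    intro g _
    simp only [hc']
    rw [Finset.sum_mul]
    apply Finset.sum_congr rfl
    intro i hi
    rw [(Finset.mem_filter.mp hi).2]
  set S : ℝ := ∫ x, |f₀ x - ∑ i, c i * ψ i x| ^ p ∂μ with hS
  have hS0 : 0 ≤ S := integral_nonneg (fun x => by positivity)
  have hσ : 0 ≤ S ^ (1 / p) := Real.rpow_nonneg hS0 _
  have hσ' : ∫ x, |f₀ x - ∑ g ∈ Λ, c' g * g x| ^ p ∂μ ≤ (S ^ (1 / p)) ^ p := by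
    simp_rw [hsum]
    rw [← Real.rpow_mul hS0, one_div, inv_mul_cancel₀ hp0.ne', Real.rpow_one]
  have hcore := core hp ht hb D hD hD1 hDb hDo f₀ hf₀ φ G hφD hGs hGm hφ Λ (by
    intro g hg
    obtain ⟨i, _, rfl⟩ := Finset.mem_image.mp hg
    exact hψ i) c' (S ^ (1 / p)) hσ hσ' (C1 p t b (μ.real Set.univ) * m) hcon
  have h1 : (6 * (4 * (μ.real Set.univ + 1) / b)) / (kap p * t ^ 2 / (4 * p)) ≤
      (C1 p t b (μ.real Set.univ) : ℝ) := Nat.le_ceil _
  have hk : 0 < kap p * t ^ 2 / (4 * p) := by positivity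
  rw [div_le_iff₀ hk] at h1
  have h2 : 0 ≤ 6 * (4 * (μ.real Set.univ + 1) / b) := by positivity
  push_cast at hcore
  have h3 : 6 * (4 * (μ.real Set.univ + 1) / b) * (Λ.card : ℝ) ≤
      6 * (4 * (μ.real Set.univ + 1) / b) * m := mul_le_mul_of_nonneg_left hcard h2
  have h4 : 6 * (4 * (μ.real Set.univ + 1) / b) * m ≤
      (C1 p t b (μ.real Set.univ) : ℝ) * (kap p * t ^ 2 / (4 * p)) * m :=
    mul_le_mul_of_nonneg_right h1 (Nat.cast_nonneg m)
  nlinarith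

/-! ### The trigonometric system -/

/-- One dimensional trigonometric function. -/
noncomputable def E (k : ℕ) (s : Bool) (x : ℝ) : ℝ :=
  if s then Real.sin ((k : ℝ) * x) else Real.cos ((k : ℝ) * x)

lemma E_cont (k : ℕ) (s : Bool) : Continuous (E k s) := by
  unfold E; cases s <;> simp <;> fun_prop

lemma E_abs (k : ℕ) (s : Bool) (x : ℝ) : |E k s x| ≤ 1 := by
  unfold E; cases s
  · simpa using Real.abs_cos_le_one _
  · simpa using Real.abs_sin_le_one _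

lemma int_cos_int (n : ℤ) (hn : n ≠ 0) :
    ∫ x in Set.Icc (0:ℝ) (2 * Real.pi), Real.cos ((n : ℝ) * x) = 0 := by
  rw [integral_Icc_eq_integral_Ioc, ← intervalIntegral.integral_of_le (by positivity)]
  have hn' : (n : ℝ) ≠ 0 := by exact_mod_cast hn
  rw [intervalIntegral.integral_comp_mul_left (fun x => Real.cos x) hn', integral_cos]
  have h1 : Real.sin ((n : ℝ) * (2 * Real.pi)) = 0 := by
    have := Real.sin_int_mul_pi (2 * n)
    push_cast at this
    rw [← this]; ring_nf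
  rw [h1]; simp

lemma int_sin_int (n : ℤ) :
    ∫ x in Set.Icc (0:ℝ) (2 * Real.pi), Real.sin ((n : ℝ) * x) = 0 := by
  rw [integral_Icc_eq_integral_Ioc, ← intervalIntegral.integral_of_le (by positivity)]
  rcases eq_or_ne n 0 with hn | hn
  · subst hn; simp
  have hn' : (n : ℝ) ≠ 0 := by exact_mod_cast hn
  rw [intervalIntegral.integral_comp_mul_left (fun x => Real.sin x) hn', integral_sin]
  have h1 : Real.cos ((n : ℝ) * (2 * Real.pi)) = 1 := Real.cos_int_mul_two_pi n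
  rw [h1]; simp

lemma vol_Icc : (volume.restrict (Set.Icc (0:ℝ) (2 * Real.pi))).real Set.univ = 2 * Real.pi := by
  simp [Measure.real, Real.volume_Icc, Real.pi_pos.le]

lemma icos (a : ℤ) : Integrable (fun x => Real.cos ((a : ℝ) * x))
    (volume.restrict (Set.Icc (0:ℝ) (2 * Real.pi))) :=
  (by fun_prop : Continuous (fun x : ℝ => Real.cos ((a : ℝ) * x))).integrableOn_Icc

lemma isin (a : ℤ) : Integrable (fun x => Real.sin ((a : ℝ) * x))
    (volume.restrict (Set.Icc (0:ℝ) (2 * Real.pi))) :=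
  (by fun_prop : Continuous (fun x : ℝ => Real.sin ((a : ℝ) * x))).integrableOn_Icc

lemma E_orth (k l : ℕ) (s r : Bool) (h : ¬ (k = l ∧ s = r)) :
    ∫ x in Set.Icc (0:ℝ) (2 * Real.pi), E k s x * E l r x = 0 := by
  have hcc : ∀ x, Real.cos ((k : ℝ) * x) * Real.cos ((l : ℝ) * x) =
      (1 / 2) * (Real.cos ((((k : ℤ) - (l : ℤ) : ℤ) : ℝ) * x)
        + Real.cos ((((k : ℤ) + (l : ℤ) : ℤ) : ℝ) * x)) := by
    intro x; push_cast
    rw [sub_mul, add_mul, Real.cos_sub, Real.cos_add]; ring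
  have hss : ∀ x, Real.sin ((k : ℝ) * x) * Real.sin ((l : ℝ) * x) =
      (1 / 2) * (Real.cos ((((k : ℤ) - (l : ℤ) : ℤ) : ℝ) * x)
        - Real.cos ((((k : ℤ) + (l : ℤ) : ℤ) : ℝ) * x)) := by
    intro x; push_cast
    rw [sub_mul, add_mul, Real.cos_sub, Real.cos_add]; ring
  have hsc : ∀ x, Real.sin ((k : ℝ) * x) * Real.cos ((l : ℝ) * x) =
      (1 / 2) * (Real.sin ((((k : ℤ) - (l : ℤ) : ℤ) : ℝ) * x)
        + Real.sin ((((k : ℤ) + (l : ℤ) : ℤ) : ℝ) * x)) := by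
    intro x; push_cast
    rw [sub_mul, add_mul, Real.sin_sub, Real.sin_add]; ring
  have hcs : ∀ x, Real.cos ((k : ℝ) * x) * Real.sin ((l : ℝ) * x) =
      (1 / 2) * (Real.sin ((((k : ℤ) + (l : ℤ) : ℤ) : ℝ) * x)
        - Real.sin ((((k : ℤ) - (l : ℤ) : ℤ) : ℝ) * x)) := by
    intro x; push_cast
    rw [sub_mul, add_mul, Real.sin_sub, Real.sin_add]; ring
  cases s <;> cases r
  · have hkl : k ≠ l := fun e => h ⟨e, rfl⟩
    simp only [E, Bool.false_eq_true, if_false]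
    simp_rw [hcc]
    rw [integral_const_mul, integral_add (icos _) (icos _), int_cos_int _ (by omega),
      int_cos_int _ (by omega)]
    simp
  · simp only [E, Bool.false_eq_true, if_false, if_true]
    simp_rw [hcs]
    rw [integral_const_mul, integral_sub (isin _) (isin _), int_sin_int, int_sin_int]
    simp
  · simp only [E, Bool.false_eq_true, if_false, if_true]
    simp_rw [hsc]
    rw [integral_const_mul, integral_add (isin _) (isin _), int_sin_int, int_sin_int]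
    simp
  · have hkl : k ≠ l := fun e => h ⟨e, rfl⟩
    simp only [E, if_true]
    simp_rw [hss]
    rw [integral_const_mul, integral_sub (icos _) (icos _), int_cos_int _ (by omega),
      int_cos_int _ (by omega)]
    simp

lemma E_sq (k : ℕ) (s : Bool) (h : ¬ (k = 0 ∧ s = true)) :
    Real.pi ≤ ∫ x in Set.Icc (0:ℝ) (2 * Real.pi), E k s x * E k s x := by
  have hpi := Real.pi_pos
  have hone : ∫ x in Set.Icc (0:ℝ) (2 * Real.pi), (1:ℝ) = 2 * Real.pi := by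
    rw [integral_const, smul_eq_mul, mul_one]; exact vol_Icc
  have i1 : Integrable (fun _ : ℝ => (1:ℝ)) (volume.restrict (Set.Icc (0:ℝ) (2 * Real.pi))) :=
    integrable_const _
  have hcc : ∀ x, Real.cos ((k : ℝ) * x) * Real.cos ((k : ℝ) * x) =
      (1 / 2) * (1 + Real.cos (((2 * (k : ℤ) : ℤ) : ℝ) * x)) := by
    intro x; push_cast
    rw [mul_assoc 2, Real.cos_two_mul]; ring
  have hss : ∀ x, Real.sin ((k : ℝ) * x) * Real.sin ((k : ℝ) * x) =
      (1 / 2) * (1 - Real.cos (((2 * (k : ℤ) : ℤ) : ℝ) * x)) := by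
    intro x; push_cast
    rw [mul_assoc 2, Real.cos_two_mul]
    have := Real.sin_sq_add_cos_sq ((k : ℝ) * x)
    nlinarith
  cases s
  · simp only [E, Bool.false_eq_true, if_false]
    rcases Nat.eq_zero_or_pos k with h0 | h0
    · subst h0
      simp only [Nat.cast_zero, zero_mul, Real.cos_zero, mul_one]
      rw [hone]; linarith
    · simp_rw [hcc]
      rw [integral_const_mul, integral_add i1 (icos _), hone, int_cos_int _ (by omega)]
      linarith
  · have h0 : k ≠ 0 := fun e => h ⟨e, rfl⟩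
    simp only [E, if_true]
    simp_rw [hss]
    rw [integral_const_mul, integral_sub i1 (icos _), hone, int_cos_int _ (by omega)]
    linarith

/-- The box measure. -/
noncomputable def bm (d : ℕ) : Measure (Fin d → ℝ) :=
  Measure.pi (fun _ => volume.restrict (Set.Icc (0:ℝ) (2 * Real.pi)))

instance (d : ℕ) : IsFiniteMeasure (bm d) := by unfold bm; infer_instance

/-- Product trigonometric function. -/
noncomputable def P {d : ℕ} (k : Fin d → ℕ) (s : Fin d → Bool) (x : Fin d → ℝ) : ℝ :=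
  ∏ j, E (k j) (s j) (x j)

lemma P_cont {d : ℕ} (k : Fin d → ℕ) (s : Fin d → Bool) : Continuous (P k s) := by
  unfold P
  exact continuous_finsetProd _ (fun j _ => (E_cont _ _).comp (continuous_apply j))

lemma P_abs {d : ℕ} (k : Fin d → ℕ) (s : Fin d → Bool) (x : Fin d → ℝ) : |P k s x| ≤ 1 := by
  unfold P
  rw [Finset.abs_prod]
  exact Finset.prod_le_one (fun j _ => abs_nonneg _) (fun j _ => E_abs _ _ _)

lemma P_memLp {d : ℕ} (k : Fin d → ℕ) (s : Fin d → Bool) (q : ENNReal) :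
    MemLp (P k s) q (bm d) :=
  MemLp.of_bound (P_cont k s).aestronglyMeasurable 1
    (Filter.Eventually.of_forall (fun x => by rw [Real.norm_eq_abs]; exact P_abs k s x))

lemma P_mul {d : ℕ} (k l : Fin d → ℕ) (s r : Fin d → Bool) :
    ∫ x, P k s x * P l r x ∂(bm d) =
      ∏ j, ∫ x in Set.Icc (0:ℝ) (2 * Real.pi), E (k j) (s j) x * E (l j) (r j) x := by
  unfold bm P
  rw [← integral_fintype_prod_eq_prod]
  congr 1; funext x
  rw [Finset.prod_mul_distrib]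

lemma P_orth {d : ℕ} (k l : Fin d → ℕ) (s r : Fin d → Bool) (h : ¬ (k = l ∧ s = r)) :
    ∫ x, P k s x * P l r x ∂(bm d) = 0 := by
  rw [P_mul]
  have : ∃ j, ¬ (k j = l j ∧ s j = r j) := by
    by_contra hcon
    push Not at hcon
    exact h ⟨funext (fun j => (hcon j).1), funext (fun j => (hcon j).2)⟩
  obtain ⟨j, hj⟩ := this
  exact Finset.prod_eq_zero (Finset.mem_univ j) (E_orth _ _ _ _ hj)

lemma P_sq {d : ℕ} (k : Fin d → ℕ) (s : Fin d → Bool) (h : ∀ j, ¬ (k j = 0 ∧ s j = true)) :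
    1 ≤ ∫ x, P k s x ^ 2 ∂(bm d) := by
  simp_rw [sq]
  rw [P_mul]
  calc (1:ℝ) ≤ ∏ _j : Fin d, Real.pi := by
        rw [Finset.prod_const]
        exact one_le_pow₀ (by linarith [Real.pi_gt_three])
    _ ≤ _ := Finset.prod_le_prod (fun j _ => Real.pi_pos.le) (fun j _ => E_sq _ _ (h j))

/-- The normalised trigonometric system. -/
def DT (d : ℕ) (p : ℝ) : Set ((Fin d → ℝ) → ℝ) :=
  {g | ∃ (k : Fin d → ℕ) (s : Fin d → Bool),
    (∫ x, |P k s x| ^ p ∂(bm d)) ^ (1 / p) ≠ 0 ∧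
      g = fun x => ((∫ x, |P k s x| ^ p ∂(bm d)) ^ (1 / p))⁻¹ * P k s x}

lemma DT_mem {d : ℕ} {p : ℝ} (g : (Fin d → ℝ) → ℝ) (hg : g ∈ DT d p) (q : ENNReal) :
    MemLp g q (bm d) := by
  obtain ⟨k, s, _, rfl⟩ := hg
  exact (P_memLp k s q).const_mul _

lemma DT_one {d : ℕ} {p : ℝ} (hp : 2 ≤ p) (g : (Fin d → ℝ) → ℝ) (hg : g ∈ DT d p) :
    ∫ x, |g x| ^ p ∂(bm d) ≤ 1 := by
  have hp0 : 0 < p := by linarith
  obtain ⟨k, s, hN, rfl⟩ := hg
  set I := ∫ x, |P k s x| ^ p ∂(bm d) with hI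
  have hI0 : 0 ≤ I := integral_nonneg (fun x => by positivity)
  have hN0 : 0 < I ^ (1 / p) := lt_of_le_of_ne (Real.rpow_nonneg hI0 _) (Ne.symm hN)
  have h1 : ∀ x, |(I ^ (1 / p))⁻¹ * P k s x| ^ p = I⁻¹ * |P k s x| ^ p := by
    intro x
    rw [abs_mul, abs_of_pos (by positivity), Real.mul_rpow (by positivity) (abs_nonneg _),
      Real.inv_rpow hN0.le, ← Real.rpow_mul hI0, one_div, inv_mul_cancel₀ hp0.ne', Real.rpow_one]
  simp_rw [h1]
  rw [integral_const_mul, ← hI]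
  exact inv_mul_le_one

lemma DT_low {d : ℕ} {p : ℝ} (hp : 2 ≤ p) (g : (Fin d → ℝ) → ℝ) (hg : g ∈ DT d p) :
    1 ≤ ∫ x, g x ^ 2 ∂(bm d) := by
  have hp0 : 0 < p := by linarith
  obtain ⟨k, s, hN, rfl⟩ := hg
  set I := ∫ x, |P k s x| ^ p ∂(bm d) with hI
  have hI0 : 0 ≤ I := integral_nonneg (fun x => by positivity)
  have hN0 : 0 < I ^ (1 / p) := lt_of_le_of_ne (Real.rpow_nonneg hI0 _) (Ne.symm hN)
  have hnd : ∀ j, ¬ (k j = 0 ∧ s j = true) := by
    intro j hj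
    apply hN
    have : ∀ x, P k s x = 0 := by
      intro x
      unfold P
      apply Finset.prod_eq_zero (Finset.mem_univ j)
      rw [hj.1, hj.2]; simp [E]
    rw [hI]
    simp only [this, abs_zero, Real.zero_rpow hp0.ne', integral_zero]
    rw [Real.zero_rpow (by positivity)]
  have hsq := P_sq k s hnd
  set Q := ∫ x, P k s x ^ 2 ∂(bm d) with hQ
  have hIQ : I ≤ Q := by
    apply integral_mono (int_rpow hp (P_memLp k s _)) (P_memLp k s 2).integrable_sq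
    intro x
    show |P k s x| ^ p ≤ P k s x ^ 2
    rcases (abs_nonneg (P k s x)).eq_or_lt with h0 | h0
    · rw [← h0, Real.zero_rpow hp0.ne']; positivity
    · have := Real.rpow_le_rpow_of_exponent_ge h0 (P_abs k s x) hp
      rw [Real.rpow_two, sq_abs] at this
      exact this
  have h1 : (I ^ (1 / p)) ^ 2 ≤ Q := by
    rw [← Real.rpow_natCast, ← Real.rpow_mul hI0]
    calc I ^ (1 / p * ((2:ℕ):ℝ)) ≤ Q ^ (1 / p * ((2:ℕ):ℝ)) :=
          Real.rpow_le_rpow hI0 hIQ (by positivity)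
      _ ≤ Q ^ (1:ℝ) := by
          apply Real.rpow_le_rpow_of_exponent_le hsq
          push_cast
          rw [one_div, inv_mul_le_iff₀ hp0]; linarith
      _ = Q := Real.rpow_one _
  have h2 : ∀ x, ((I ^ (1 / p))⁻¹ * P k s x) ^ 2 = ((I ^ (1 / p)) ^ 2)⁻¹ * P k s x ^ 2 := by
    intro x; rw [mul_pow, inv_pow]
  simp_rw [h2]
  rw [integral_const_mul, ← hQ, ← div_eq_inv_mul, le_div_iff₀ (by positivity)]
  linarith

lemma DT_orth {d : ℕ} {p : ℝ} (g : (Fin d → ℝ) → ℝ) (hg : g ∈ DT d p)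
    (h : (Fin d → ℝ) → ℝ) (hh : h ∈ DT d p) (hne : g ≠ h) : ∫ x, g x * h x ∂(bm d) = 0 := by
  obtain ⟨k, s, _, rfl⟩ := hg
  obtain ⟨l, r, _, rfl⟩ := hh
  have h1 : ¬ (k = l ∧ s = r) := by
    rintro ⟨rfl, rfl⟩; exact hne rfl
  have h2 : ∀ x, ((∫ x, |P k s x| ^ p ∂(bm d)) ^ (1 / p))⁻¹ * P k s x *
      (((∫ x, |P l r x| ^ p ∂(bm d)) ^ (1 / p))⁻¹ * P l r x) =
      (((∫ x, |P k s x| ^ p ∂(bm d)) ^ (1 / p))⁻¹ * ((∫ x, |P l r x| ^ p ∂(bm d)) ^ (1 / p))⁻¹) *
        (P k s x * P l r x) := fun x => by ring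
  simp_rw [h2]
  rw [integral_const_mul, P_orth k l s r h1, mul_zero]

end Pool.Agent.Helper415.WC
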