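import Mathlib
import Pool.Agent.Helper415.WC6
import Pool.Agent.Helper415.TGDefs

/-! Positive part: `2 ≤ p`. -/

set_option autoImplicit false

open MeasureTheory Filter Topology
open scoped ENNReal

namespace Pool.Agent.Helper415.TG

open Pool.Agent.Helper415

section gen

variable {X : Type} [MeasurableSpace X] {μ : Measure X} {p : ℝ≥0∞}

lemma lift_span [Fact (1 ≤ p)] (S : Set (Lp ℝ p μ)) (v : Lp ℝ p μ) (hv : v ∈ Submodule.span ℝ S) :
    ∃ w ∈ Submodule.span ℝ ((fun g : Lp ℝ p μ => (g : X → ℝ)) '' S),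
      w =ᵐ[μ] v := by
  induction hv using Submodule.span_induction with
  | mem x hx => exact ⟨x, Submodule.subset_span ⟨x, hx, rfl⟩, EventuallyEq.rfl⟩
  | zero => exact ⟨0, Submodule.zero_mem _, (Lp.coeFn_zero ℝ p _).symm⟩
  | add x y _ _ hx hy =>
    obtain ⟨w, hw, hw'⟩ := hx
    obtain ⟨z, hz, hz'⟩ := hy
    exact ⟨w + z, Submodule.add_mem _ hw hz, (hw'.add hz').trans (Lp.coeFn_add x y).symm⟩
  | smul a x _ hx =>
    obtain ⟨w, hw, hw'⟩ := hx
    exact ⟨a • w, Submodule.smul_mem _ a hw, (hw'.const_smul a).trans (Lp.coeFn_smul a x).symm⟩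

lemma lower_span [Fact (1 ≤ p)] (S : Set (Lp ℝ p μ)) (w : X → ℝ)
    (hw : w ∈ Submodule.span ℝ ((fun g : Lp ℝ p μ => (g : X → ℝ)) '' S)) :
    ∃ v ∈ Submodule.span ℝ S, w =ᵐ[μ] (v : Lp ℝ p μ) := by
  induction hw using Submodule.span_induction with
  | mem x hx =>
    obtain ⟨g, hg, rfl⟩ := hx
    exact ⟨g, Submodule.subset_span hg, EventuallyEq.rfl⟩
  | zero => exact ⟨0, Submodule.zero_mem _, (Lp.coeFn_zero ℝ p _).symm⟩
  | add x y _ _ hx hy =>
    obtain ⟨w, hw, hw'⟩ := hx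
    obtain ⟨z, hz, hz'⟩ := hy
    exact ⟨w + z, Submodule.add_mem _ hw hz, (hw'.add hz').trans (Lp.coeFn_add w z).symm⟩
  | smul a x _ hx =>
    obtain ⟨w, hw, hw'⟩ := hx
    exact ⟨a • w, Submodule.smul_mem _ a hw, (hw'.const_smul a).trans (Lp.coeFn_smul a w).symm⟩

lemma norm_eq [Fact (1 ≤ p)] (hp0 : p ≠ 0) (hp : p ≠ ⊤) (f : Lp ℝ p μ)
    (w : X → ℝ) (hw : w =ᵐ[μ] f) :
    ‖f‖ = (∫ x, |w x| ^ p.toReal ∂μ) ^ (1 / p.toReal) := by
  rw [Lp.norm_def, MemLp.eLpNorm_eq_integral_rpow_norm hp0 hp (Lp.memLp f)]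
  rw [ENNReal.toReal_ofReal (by positivity), one_div]
  congr 1
  apply integral_congr_ae
  filter_upwards [hw] with x hx
  rw [hx, Real.norm_eq_abs]

lemma coeFn_sum [Fact (1 ≤ p)] {ι : Type} (Λ : Finset ι) (g : ι → Lp ℝ p μ) (c : ι → ℝ) :
    ((∑ j ∈ Λ, c j • g j : Lp ℝ p μ) : X → ℝ) =ᵐ[μ] fun x => ∑ j ∈ Λ, c j * g j x := by
  classical
  induction Λ using Finset.induction_on with
  | empty =>
    simp only [Finset.sum_empty]
    exact Lp.coeFn_zero ℝ p _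
  | insert a Λ' ha ih =>
    simp only [Finset.sum_insert ha]
    filter_upwards [ih, Lp.coeFn_add (c a • g a) (∑ j ∈ Λ', c j • g j), Lp.coeFn_smul (c a) (g a)]
      with x h1 h2 h3
    rw [h2, Pi.add_apply, h1, h3, Pi.smul_apply, smul_eq_mul]

/-- Almost greediness for an orthogonal-type dictionary of `L_p(μ)`, `2 ≤ p < ∞`. -/
lemma ag_of [IsFiniteMeasure μ] [Fact (1 ≤ p)] (hp2 : 2 ≤ p) (hptop : p ≠ ⊤)
    (D : Set (Lp ℝ p μ)) (b : ℝ) (hbpos : 0 < b) (hne : D.Nonempty)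
    (hD1 : ∀ g ∈ D, ‖g‖ = 1) (hDb : ∀ g ∈ D, b ≤ ∫ x, g x ^ 2 ∂μ)
    (hDo : ∀ g ∈ D, ∀ h ∈ D, g ≠ h → ∫ x, g x * h x ∂μ = 0) : AlmostGreedy normingF D := by
  classical
  set q : ℝ := p.toReal with hq
  have hpq : ENNReal.ofReal q = p := ENNReal.ofReal_toReal hptop
  have hp0 : p ≠ 0 := by
    intro h; rw [h] at hp2; exact absurd hp2 (by norm_num)
  have hq2 : 2 ≤ q := by
    have := ENNReal.toReal_mono hptop hp2
    simpa using this
  have hq0 : 0 < q := by linarith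
  obtain ⟨g₀, hg₀⟩ := hne
  set D' : Set (X → ℝ) := (fun g : Lp ℝ p μ => (g : X → ℝ)) '' D with hD'
  have hmem : ∀ f : Lp ℝ p μ, MemLp f (ENNReal.ofReal q) μ := fun f => by
    rw [hpq]; exact Lp.memLp f
  have hint : ∀ f : Lp ℝ p μ, ∫ x, |f x| ^ q ∂μ = ‖f‖ ^ q := by
    intro f
    rw [norm_eq hp0 hptop f f EventuallyEq.rfl, ← Real.rpow_mul (integral_nonneg (fun x => by positivity)),
      one_div, ← hq, inv_mul_cancel₀ hq0.ne', Real.rpow_one]
  have hD'mem : ∀ g ∈ D', MemLp g (ENNReal.ofReal q) μ := by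
    rintro g ⟨j, _, rfl⟩; exact hmem j
  have hD'1 : ∀ g ∈ D', ∫ x, |g x| ^ q ∂μ ≤ 1 := by
    rintro g ⟨j, hj, rfl⟩
    show ∫ x, |j x| ^ q ∂μ ≤ 1
    rw [hint, hD1 j hj, Real.one_rpow]
  have hD'b : ∀ g ∈ D', b ≤ ∫ x, g x ^ 2 ∂μ := by
    rintro g ⟨j, hj, rfl⟩; exact hDb j hj
  have hD'o : ∀ g ∈ D', ∀ h ∈ D', g ≠ h → ∫ x, g x * h x ∂μ = 0 := by
    rintro g ⟨i, hi, rfl⟩ h ⟨j, hj, rfl⟩ hne
    apply hDo i hi j hj
    intro hij; subst hij; exact hne rfl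
  intro t ht ht1
  have hC2 : 0 < WC.C2 q := by unfold WC.C2; positivity
  set N : ℕ := WC.C1 q t b (μ.real Set.univ) with hN
  refine ⟨N + WC.C2 q, by positivity, ?_⟩
  intro f₀ φ₀ r hrun m hm
  obtain ⟨hr0, hstep⟩ := hrun
  set φ : ℕ → Lp ℝ p μ := fun n => if r n = 0 then g₀ else φ₀ n with hφ
  have hzero : ∀ j k, j ≤ k → r j = 0 → r k = 0 := by
    intro j k hjk hj
    induction k, hjk using Nat.le_induction with
    | base => exact hj
    | succ k _ ih => exact (hstep k).1 ih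
  have hφD : ∀ n, φ n ∈ D := by
    intro n
    by_cases hn : r n = 0
    · simp only [hφ, if_pos hn]; exact hg₀
    · simp only [hφ, if_neg hn]; exact ((hstep n).2 hn).1.1
  -- all residuals are best residuals
  have hall : ∀ k, (f₀ - r k) ∈ Submodule.span ℝ (φ '' Set.Iio k) ∧
      ∀ h ∈ Submodule.span ℝ (φ '' Set.Iio k), ‖r k‖ ≤ ‖f₀ - h‖ := by
    intro k
    induction k with
    | zero =>
      rw [hr0]
      refine ⟨by simp, ?_⟩
      intro h hh
      simp at hh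
      rw [hh, sub_zero]
    | succ k ih =>
      by_cases hk : r k = 0
      · have hk1 := (hstep k).1 hk
        rw [hk1]
        refine ⟨?_, fun h _ => by rw [norm_zero]; exact norm_nonneg _⟩
        have h1 := ih.1
        rw [hk] at h1
        exact Submodule.span_mono (Set.image_mono (Set.Iio_subset_Iio (Nat.le_succ k))) h1
      · obtain ⟨_, G, ⟨hG, hGmin⟩, hrG⟩ := (hstep k).2 hk
        have himg : φ '' Set.Iio (k + 1) = φ₀ '' Set.Iio (k + 1) := by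
          apply Set.image_congr
          intro j hj
          have hj' : j ≤ k := Nat.lt_succ_iff.mp hj
          have : r j ≠ 0 := fun h => hk (hzero j k hj' h)
          simp only [hφ, if_neg this]
        rw [hrG, himg]
        refine ⟨by simpa using hG, hGmin⟩
  have himg : ∀ k, (fun g : Lp ℝ p μ => (g : X → ℝ)) '' (φ '' Set.Iio k) =
      (fun i => (φ i : X → ℝ)) '' Set.Iio k := by
    intro k; rw [Set.image_image]
  have hlift : ∀ k, ∃ w ∈ Submodule.span ℝ ((fun i => (φ i : X → ℝ)) '' Set.Iio k),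
      w =ᵐ[μ] (f₀ - r k : Lp ℝ p μ) := by
    intro k
    rw [← himg]
    exact lift_span _ _ (hall k).1
  choose G hGs hGe using hlift
  set φ' : ℕ → X → ℝ := fun i => φ i with hφ'
  have hres : ∀ k, (fun x => (f₀ : X → ℝ) x - G k x) =ᵐ[μ] r k := by
    intro k
    filter_upwards [hGe k, Lp.coeFn_sub f₀ (r k)] with x h1 h2
    rw [h1, h2]; simp
  have hGm : ∀ n, ∀ h ∈ Submodule.span ℝ (φ' '' Set.Iio n),
      ∫ x, |(f₀ : X → ℝ) x - G n x| ^ q ∂μ ≤ ∫ x, |(f₀ : X → ℝ) x - h x| ^ q ∂μ := by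
    intro n h hh
    rw [hφ', ← himg] at hh
    obtain ⟨v, hv, hve⟩ := lower_span _ _ hh
    have h1 := (hall n).2 v hv
    have h2 : (fun x => (f₀ : X → ℝ) x - h x) =ᵐ[μ] (f₀ - v : Lp ℝ p μ) := by
      filter_upwards [hve, Lp.coeFn_sub f₀ v] with x h1 h2
      rw [h2, Pi.sub_apply, h1]
    rw [norm_eq hp0 hptop (r n) _ (hres n), norm_eq hp0 hptop (f₀ - v) _ h2] at h1
    exact (Real.rpow_le_rpow_iff (integral_nonneg (fun x => by positivity))
      (integral_nonneg (fun x => by positivity)) (by positivity)).mp h1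
  have hsel : ∀ n, ∀ g ∈ D', t * |∫ x, |(f₀ : X → ℝ) x - G n x| ^ (q - 2) *
        (f₀ x - G n x) * g x ∂μ| ≤
      |∫ x, |(f₀ : X → ℝ) x - G n x| ^ (q - 2) * (f₀ x - G n x) * φ' n x ∂μ| := by
    rintro n g ⟨j, hj, rfl⟩
    have hrep : ∀ j : Lp ℝ p μ, ∫ x, |(f₀ : X → ℝ) x - G n x| ^ (q - 2) *
        (f₀ x - G n x) * j x ∂μ = ∫ x, |r n x| ^ (q - 2) * r n x * j x ∂μ := by
      intro j
      apply integral_congr_ae
      filter_upwards [hres n] with x hx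
      rw [hx]
    show t * |∫ x, |(f₀ : X → ℝ) x - G n x| ^ (q - 2) *
        (f₀ x - G n x) * j x ∂μ| ≤ |∫ x, |(f₀ : X → ℝ) x - G n x| ^ (q - 2) *
        (f₀ x - G n x) * φ n x ∂μ|
    rw [hrep, hrep]
    by_cases hn : r n = 0
    · have hz : ∀ j : Lp ℝ p μ, ∫ x, |r n x| ^ (q - 2) * r n x * j x ∂μ = 0 := by
        intro j
        rw [← integral_zero (α := X) (G := ℝ) (μ := μ)]
        apply integral_congr_ae
        have h0 : (r n : X → ℝ) =ᵐ[μ] 0 := by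
          rw [hn]; exact Lp.coeFn_zero ℝ p _
        filter_upwards [h0] with x hx
        rw [hx]; simp
      rw [hz, hz]; simp
    · have h1 := ((hstep n).2 hn).1.2 j hj
      have hnorm : 0 < ‖r n‖ := norm_pos_iff.mpr hn
      have hc : 0 < ‖r n‖ ^ (1 - p.toReal) := by positivity
      simp only [hφ, if_neg hn]
      simp only [normingF, pairing, abs_mul, abs_of_pos hc] at h1
      have h2 : ‖r n‖ ^ (1 - p.toReal) * (t * |∫ x, |r n x| ^ (p.toReal - 2) * r n x * j x ∂μ|) ≤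
          ‖r n‖ ^ (1 - p.toReal) * |∫ x, |r n x| ^ (p.toReal - 2) * r n x * φ₀ n x ∂μ| := by
        linarith
      exact le_of_mul_le_mul_left h2 hc
  -- conclusion
  have hmono : ∀ j k, j ≤ k → ‖r k‖ ≤ ‖r j‖ := by
    intro j k hjk
    have h1 := (hall k).2 (f₀ - r j)
      (Submodule.span_mono (Set.image_mono (Set.Iio_subset_Iio hjk)) (hall j).1)
    simpa using h1
  have hbound : ∀ (g : Fin m → Lp ℝ p μ) (c : Fin m → ℝ), (∀ i, g i ∈ D) →
      ‖r (N * m)‖ ≤ WC.C2 q * ‖f₀ - ∑ i, c i • g i‖ := by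
    intro g c hg
    have hmain := WC.almost_greedy (μ := μ) hq2 ht hbpos D' hD'mem hD'1 hD'b hD'o f₀ (hmem f₀) φ' G
      (fun n => ⟨φ n, hφD n, rfl⟩) hGs hGm hsel m (fun i => g i) (fun i => ⟨g i, hg i, rfl⟩) c
    have h2 : (fun x => (f₀ : X → ℝ) x - ∑ i, c i * g i x) =ᵐ[μ]
        (f₀ - ∑ i, c i • g i : Lp ℝ p μ) := by
      have h3 := coeFn_sum Finset.univ g c
      filter_upwards [h3, Lp.coeFn_sub f₀ (∑ i, c i • g i)] with x h4 h5
      rw [h5, Pi.sub_apply, h4]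
    rw [norm_eq hp0 hptop (r _) _ (hres _), norm_eq hp0 hptop _ _ h2]
    exact hmain
  have hceil : N * m ≤ ⌈((N : ℝ) + WC.C2 q) * m⌉₊ := by
    have h1 : ((N * m : ℕ) : ℝ) ≤ ((N : ℝ) + WC.C2 q) * m := by
      push_cast
      have : 0 ≤ WC.C2 q * (m : ℝ) := by positivity
      nlinarith
    exact_mod_cast h1.trans (Nat.le_ceil _)
  have hkey : ‖r ⌈((N : ℝ) + WC.C2 q) * m⌉₊‖ ≤ WC.C2 q * sigma D m f₀ := by
    refine (hmono _ _ hceil).trans ?_
    unfold sigma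
    rw [← div_le_iff₀' hC2]
    apply le_csInf
    · exact ⟨_, fun _ => g₀, 0, fun _ => hg₀, rfl⟩
    · rintro e ⟨g, c, hg, rfl⟩
      rw [div_le_iff₀' hC2]
      exact hbound g c hg
  have hσ0 : 0 ≤ sigma D m f₀ := by
    apply Real.sInf_nonneg
    rintro e ⟨g, c, _, rfl⟩
    exact norm_nonneg _
  refine hkey.trans ?_
  apply mul_le_mul_of_nonneg_right _ hσ0
  have : (0:ℝ) ≤ N := Nat.cast_nonneg _
  linarith

end gen

/-! ### The trigonometric system -/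

lemma torus_eq (d : ℕ) : torus d = WC.bm d := by
  unfold torus WC.bm
  rw [volume_pi, Measure.restrict_pi_pi]
  congr 1
  funext i
  exact Measure.restrict_congr_set Ico_ae_eq_Icc

instance (d : ℕ) : IsFiniteMeasure (torus d) := by rw [torus_eq]; infer_instance

lemma trig_eq {d : ℕ} (k : Fin d → ℕ) (s : Fin d → Bool) : trig k s = WC.P k s := rfl

section RTsec

variable {d : ℕ} {p : ℝ≥0∞} [Fact (1 ≤ p)]

lemma RT_rep (hp0 : p ≠ 0) (hptop : p ≠ ⊤) (g : Lp ℝ p (torus d)) (hg : g ∈ RT d p) :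
    ∃ g' ∈ WC.DT d p.toReal, g =ᵐ[torus d] g' := by
  obtain ⟨k, s, h, hh, hne, rfl⟩ := (RT_iff _).mp hg
  have hn : ‖h‖ = (∫ x, |WC.P k s x| ^ p.toReal ∂(WC.bm d)) ^ (1 / p.toReal) := by
    rw [norm_eq hp0 hptop h (trig k s) hh.symm, torus_eq, trig_eq]
  refine ⟨_, ⟨k, s, ?_, rfl⟩, ?_⟩
  · rw [← hn]; exact norm_ne_zero_iff.mpr hne
  · rw [← hn]
    filter_upwards [Lp.coeFn_smul (‖h‖⁻¹) h, hh] with x h1 h2
    rw [h1, Pi.smul_apply, h2, smul_eq_mul, trig_eq]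

lemma RT_norm (g : Lp ℝ p (torus d)) (hg : g ∈ RT d p) : ‖g‖ = 1 := by
  obtain ⟨k, s, h, hh, hne, rfl⟩ := (RT_iff _).mp hg
  rw [norm_smul, norm_inv, norm_norm, inv_mul_cancel₀ (norm_ne_zero_iff.mpr hne)]

lemma RT_nonempty (hp0 : p ≠ 0) (hptop : p ≠ ⊤) : (RT d p).Nonempty := by
  have hm : MemLp (trig (fun _ : Fin d => 0) (fun _ => false)) p (torus d) := by
    rw [torus_eq, trig_eq]; exact WC.P_memLp _ _ _
  refine ⟨‖hm.toLp _‖⁻¹ • hm.toLp _, (RT_iff _).mpr ⟨fun _ => 0, fun _ => false, hm.toLp _, hm.coeFn_toLp, ?_, rfl⟩⟩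
  intro h0
  have h1 := hm.coeFn_toLp
  rw [h0] at h1
  have h2 : (fun _ => (1:ℝ)) =ᵐ[torus d] (fun _ => (0:ℝ)) := by
    filter_upwards [h1, Lp.coeFn_zero ℝ p (torus d)] with x hx hx0
    rw [hx0] at hx
    simp [trig] at hx
  have h3 : ∫ _x : Fin d → ℝ, (1:ℝ) ∂(torus d) = ∫ _x : Fin d → ℝ, (0:ℝ) ∂(torus d) :=
    integral_congr_ae h2
  rw [integral_zero, integral_const, torus_eq] at h3
  have h4 : (WC.bm d).real Set.univ = (2 * Real.pi) ^ d := by
    unfold WC.bm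
    rw [Measure.real, Measure.pi_univ, ENNReal.toReal_prod]
    simp only [← Measure.real_def, WC.vol_Icc]
    simp
  rw [h4] at h3
  have : (0:ℝ) < (2 * Real.pi) ^ d := by positivity
  simp at h3

/-- The trigonometric system is almost greedy for `2 ≤ p < ∞`. -/
theorem positive (hp2 : 2 ≤ p) (hptop : p ≠ ⊤) : AlmostGreedy normingF (RT d p) := by
  have hp0 : p ≠ 0 := by
    intro h; rw [h] at hp2; exact absurd hp2 (by norm_num)
  have hq2 : 2 ≤ p.toReal := by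
    have := ENNReal.toReal_mono hptop hp2
    simpa using this
  apply ag_of hp2 hptop (RT d p) 1 one_pos (RT_nonempty hp0 hptop) RT_norm
  · intro g hg
    obtain ⟨g', hg', hgg⟩ := RT_rep hp0 hptop g hg
    rw [integral_congr_ae (hgg.mono (fun x hx => by show g x ^ 2 = g' x ^ 2; rw [hx])), torus_eq]
    exact WC.DT_low hq2 g' hg'
  · intro g hg h hh hne
    obtain ⟨g', hg', hgg⟩ := RT_rep hp0 hptop g hg
    obtain ⟨h', hh', hhh⟩ := RT_rep hp0 hptop h hh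
    have h1 : g' ≠ h' := by
      intro h0; subst h0
      apply hne
      exact Lp.ext (hgg.trans hhh.symm)
    have h2 : ∫ x, g x * h x ∂(torus d) = ∫ x, g' x * h' x ∂(torus d) := by
      apply integral_congr_ae
      filter_upwards [hgg, hhh] with x h3 h4
      rw [h3, h4]
    rw [h2, torus_eq]
    exact WC.DT_orth g' hg' h' hh' h1

end RTsec

end Pool.Agent.Helper415.TG
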