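import Mathlib
import Pool.Agent.Helper415.TGDefs

/-! Extension of a finite run to an infinite one. -/

set_option autoImplicit false

open MeasureTheory Filter Topology

namespace Pool.Agent.Helper415.TG

variable {V : Type} [NormedAddCommGroup V] [NormedSpace ℝ V]

lemma exists_best (f₀ : V) (W : Submodule ℝ V) [FiniteDimensional ℝ W] :
    ∃ G, IsBestApprox f₀ G W := by
  have hcont : Continuous (fun w : W => ‖f₀ - (w : V)‖) := by fun_prop
  have hlim : Tendsto (fun w : W => ‖f₀ - (w : V)‖) (cocompact W) atTop := by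
    have : ProperSpace W := FiniteDimensional.proper ℝ W
    have h1 : Tendsto (fun w : W => ‖w‖ - ‖f₀‖) (cocompact W) atTop :=
      tendsto_atTop_add_const_right _ _ (tendsto_norm_cocompact_atTop)
    refine tendsto_atTop_mono (fun w => ?_) h1
    have := norm_sub_norm_le (w : V) f₀
    rw [norm_sub_rev]
    simpa using this
  obtain ⟨w, hw⟩ := hcont.exists_forall_le hlim
  exact ⟨w, w.2, fun h hh => hw ⟨h, hh⟩⟩

omit [NormedAddCommGroup V] [NormedSpace ℝ V] in
lemma exists_weak {F : V → V → ℝ} {D : Set V} {t : ℝ} (ht1 : t < 1) (hD : D.Nonempty)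
    (f : V) (hB : BddAbove ((fun g => |F f g|) '' D)) : ∃ g, WeakGreedy F D t f g := by
  set s := sSup ((fun g => |F f g|) '' D) with hs
  have hle : ∀ g ∈ D, |F f g| ≤ s := fun g hg => le_csSup hB ⟨g, hg, rfl⟩
  obtain ⟨g₀, hg₀⟩ := hD
  have hs0 : 0 ≤ s := (abs_nonneg _).trans (hle g₀ hg₀)
  rcases hs0.eq_or_lt with h0 | h0
  · refine ⟨g₀, hg₀, fun g hg => ?_⟩
    have h1 : |F f g| = 0 := le_antisymm ((hle g hg).trans h0.symm.le) (abs_nonneg _)
    rw [h1, mul_zero]; exact abs_nonneg _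
  · have h1 : t * s < s := by nlinarith
    have hne : ((fun g => |F f g|) '' D).Nonempty := ⟨_, g₀, hg₀, rfl⟩
    rw [hs] at h1
    obtain ⟨_, ⟨g, hg, rfl⟩, hgs⟩ := exists_lt_of_lt_csSup hne h1
    rw [← hs] at hgs
    refine ⟨g, hg, fun h hh => ?_⟩
    by_cases ht0 : 0 ≤ t
    · exact (mul_le_mul_of_nonneg_left (hle h hh) ht0).trans hgs.le
    · push Not at ht0
      have : t * |F f h| ≤ 0 := mul_nonpos_of_nonpos_of_nonneg ht0.le (abs_nonneg _)
      exact this.trans (abs_nonneg _)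

lemma step_congr {F : V → V → ℝ} {D : Set V} {t : ℝ} {f₀ : V} {φ r φ' r' : ℕ → V} {k : ℕ}
    (hφ : ∀ j ≤ k, φ' j = φ j) (hr : ∀ j ≤ k + 1, r' j = r j)
    (h : Step F D t f₀ φ r k) : Step F D t f₀ φ' r' k := by
  have himg : φ' '' Set.Iio (k + 1) = φ '' Set.Iio (k + 1) :=
    Set.image_congr (fun j hj => hφ j (Nat.lt_succ_iff.mp hj))
  unfold Step at h ⊢
  rw [himg, hr k (Nat.le_succ k), hr (k + 1) le_rfl, hφ k le_rfl]
  exact h

/-- A partial run. -/
def Good (F : V → V → ℝ) (D : Set V) (t : ℝ) (f₀ : V) (X : (ℕ → V) × (ℕ → V)) (k : ℕ) : Prop :=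
  X.2 0 = f₀ ∧ ∀ j < k, Step F D t f₀ X.1 X.2 j

lemma extend_one {F : V → V → ℝ} {D : Set V} {t : ℝ} (ht1 : t < 1) (hD : D.Nonempty)
    (hB : ∀ f, BddAbove ((fun g => |F f g|) '' D)) {f₀ : V} (X : (ℕ → V) × (ℕ → V)) (k : ℕ)
    (h : Good F D t f₀ X k) :
    ∃ Y : (ℕ → V) × (ℕ → V), Good F D t f₀ Y (k + 1) ∧ (∀ j < k, Y.1 j = X.1 j) ∧
      ∀ j ≤ k, Y.2 j = X.2 j := by
  classical
  obtain ⟨h0, hs⟩ := h
  by_cases hk : X.2 k = 0
  · refine ⟨(X.1, Function.update X.2 (k + 1) 0), ⟨?_, ?_⟩, fun j _ => rfl, ?_⟩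
    · show Function.update X.2 (k + 1) 0 0 = f₀
      rw [Function.update_of_ne (by omega)]; exact h0
    · intro j hj
      rcases Nat.lt_succ_iff_lt_or_eq.mp hj with hj | hj
      · apply step_congr _ _ (hs j hj)
        · intro i _; rfl
        · intro i hi
          show Function.update X.2 (k + 1) 0 i = X.2 i
          rw [Function.update_of_ne (by omega)]
      · subst hj
        refine ⟨fun _ => ?_, fun h1 => ?_⟩
        · show Function.update X.2 (j + 1) 0 (j + 1) = 0
          rw [Function.update_self]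
        · exfalso; apply h1
          show Function.update X.2 (j + 1) 0 j = 0
          rw [Function.update_of_ne (by omega)]; exact hk
    · intro j hj
      show Function.update X.2 (k + 1) 0 j = X.2 j
      rw [Function.update_of_ne (by omega)]
  · obtain ⟨g, hg⟩ := exists_weak ht1 hD (X.2 k) (hB _)
    set φ' := Function.update X.1 k g with hφ'
    have hfd : FiniteDimensional ℝ (Submodule.span ℝ (φ' '' Set.Iio (k + 1))) :=
      FiniteDimensional.span_of_finite ℝ ((Set.finite_Iio _).image _)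
    obtain ⟨G, hG⟩ := exists_best f₀ (Submodule.span ℝ (φ' '' Set.Iio (k + 1)))
    have hr' : ∀ j ≤ k, Function.update X.2 (k + 1) (f₀ - G) j = X.2 j := fun j hj => by
      rw [Function.update_of_ne (by omega)]
    have hφk : ∀ j < k, φ' j = X.1 j := fun j hj => by
      rw [hφ', Function.update_of_ne (by omega)]
    refine ⟨(φ', Function.update X.2 (k + 1) (f₀ - G)), ⟨?_, ?_⟩, hφk, hr'⟩
    · show Function.update X.2 (k + 1) (f₀ - G) 0 = f₀
      rw [hr' 0 (Nat.zero_le _)]; exact h0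
    · intro j hj
      rcases Nat.lt_succ_iff_lt_or_eq.mp hj with hj | hj
      · apply step_congr _ _ (hs j hj)
        · intro i hi; exact hφk i (by omega)
        · intro i hi; exact hr' i (by omega)
      · subst hj
        have h2 : (φ', Function.update X.2 (j + 1) (f₀ - G)).2 j = X.2 j := hr' j le_rfl
        refine ⟨fun h1 => ?_, fun _ => ⟨?_, G, hG, ?_⟩⟩
        · rw [h2] at h1; exact absurd h1 hk
        · rw [h2]
          show WeakGreedy F D t (X.2 j) (φ' j)
          rw [hφ', Function.update_self]; exact hg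
        · show Function.update X.2 (j + 1) (f₀ - G) (j + 1) = f₀ - G
          rw [Function.update_self]

/-- Every finite run can be continued. -/
theorem extend_run {F : V → V → ℝ} {D : Set V} {t : ℝ} (ht1 : t < 1) (hD : D.Nonempty)
    (hB : ∀ f, BddAbove ((fun g => |F f g|) '' D)) {f₀ : V} (φ₀ r₀ : ℕ → V) (K : ℕ)
    (h0 : r₀ 0 = f₀) (hs : ∀ j < K, Step F D t f₀ φ₀ r₀ j) :
    ∃ φ r : ℕ → V, IsRun F D t f₀ φ r ∧ (∀ j < K, φ j = φ₀ j) ∧ ∀ j ≤ K, r j = r₀ j := by
  classical
  choose! Y hY1 hY2 hY3 using fun X k h => extend_one (f₀ := f₀) ht1 hD hB X k h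
  let X : ℕ → (ℕ → V) × (ℕ → V) := fun n => Nat.rec (φ₀, r₀) (fun n x => Y x (K + n)) n
  have hX0 : X 0 = (φ₀, r₀) := rfl
  have hXs : ∀ n, X (n + 1) = Y (X n) (K + n) := fun n => rfl
  have hgood : ∀ n, Good F D t f₀ (X n) (K + n) := by
    intro n
    induction n with
    | zero => rw [hX0]; exact ⟨h0, hs⟩
    | succ n ih => rw [hXs]; exact hY1 _ _ ih
  have hst1 : ∀ n n' j, n ≤ n' → j < K + n → (X n').1 j = (X n).1 j := by
    intro n n' j hn hj
    induction n', hn using Nat.le_induction with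
    | base => rfl
    | succ m hm ih =>
      rw [hXs, hY2 _ _ (hgood m) j (by omega), ih]
  have hst2 : ∀ n n' j, n ≤ n' → j ≤ K + n → (X n').2 j = (X n).2 j := by
    intro n n' j hn hj
    induction n', hn using Nat.le_induction with
    | base => rfl
    | succ m hm ih =>
      rw [hXs, hY3 _ _ (hgood m) j (by omega), ih]
  refine ⟨fun j => (X (j + 1)).1 j, fun j => (X (j + 1)).2 j, ⟨?_, ?_⟩, ?_, ?_⟩
  · exact (hgood 1).1
  · intro k
    apply step_congr _ _ ((hgood (k + 2)).2 k (by omega))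
    · intro j hj
      exact (hst1 (j + 1) (k + 2) j (by omega) (by omega)).symm
    · intro j hj
      exact (hst2 (j + 1) (k + 2) j (by omega) (by omega)).symm
  · intro j hj
    show (X (j + 1)).1 j = φ₀ j
    rw [hst1 0 (j + 1) j (by omega) (by omega), hX0]
  · intro j hj
    show (X (j + 1)).2 j = r₀ j
    rw [hst2 0 (j + 1) j (by omega) (by omega), hX0]

end Pool.Agent.Helper415.TG
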