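import Mathlib

set_option autoImplicit false

namespace Pool.Agent.Helper415.TN

/-- The odd power function. -/
noncomputable def Ph (q y : ℝ) : ℝ := |y| ^ (q - 1) * y

lemma Ph_nonneg_eq {q y : ℝ} (hq : 0 < q) (hy : 0 ≤ y) : Ph q y = y ^ q := by
  unfold Ph
  rcases hy.eq_or_lt with h | h
  · rw [← h]; simp [Real.zero_rpow hq.ne']
  · rw [abs_of_pos h, Real.rpow_sub_one h.ne']
    field_simp

lemma Ph_neg (q y : ℝ) : Ph q (-y) = -Ph q y := by
  unfold Ph; rw [abs_neg]; ring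

lemma Ph_abs {q : ℝ} (hq : 0 < q) (y : ℝ) : |Ph q y| = |y| ^ q := by
  rcases le_total 0 y with h | h
  · rw [Ph_nonneg_eq hq h, abs_of_nonneg h, abs_of_nonneg (by positivity)]
  · have h1 : Ph q y = -Ph q (-y) := by rw [Ph_neg]; ring
    rw [h1, abs_neg, Ph_nonneg_eq hq (by linarith), abs_of_nonpos h,
      abs_of_nonneg (Real.rpow_nonneg (by linarith) _)]

lemma Ph_mono {q : ℝ} (hq : 0 < q) : Monotone (Ph q) := by
  intro x y hxy
  rcases le_total 0 x with hx | hx
  · rw [Ph_nonneg_eq hq hx, Ph_nonneg_eq hq (hx.trans hxy)]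
    exact Real.rpow_le_rpow hx hxy hq.le
  · have h1 : Ph q x = -Ph q (-x) := by rw [Ph_neg]; ring
    rcases le_total 0 y with hy | hy
    · rw [h1, Ph_nonneg_eq hq (by linarith), Ph_nonneg_eq hq hy]
      have := Real.rpow_nonneg (by linarith : 0 ≤ -x) q
      have := Real.rpow_nonneg hy q
      linarith
    · have h2 : Ph q y = -Ph q (-y) := by rw [Ph_neg]; ring
      rw [h1, h2, Ph_nonneg_eq hq (by linarith), Ph_nonneg_eq hq (by linarith)]
      have := Real.rpow_le_rpow (by linarith : 0 ≤ -y) (by linarith : -y ≤ -x) hq.le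
      linarith

lemma pow_diff_up {q u v : ℝ} (hq1 : q ≤ 1) (hu : 0 ≤ u) (huv : u ≤ v) (hv : 0 < v) :
    v ^ q - u ^ q ≤ v ^ (q - 1) * (v - u) := by
  have h1 : u ^ q ≥ v ^ (q - 1) * u := by
    rcases hu.eq_or_lt with h0 | h0
    · rw [← h0, mul_zero]; exact Real.rpow_nonneg le_rfl _
    · have h2 : u ^ q = u ^ (q - 1) * u := by
        rw [Real.rpow_sub_one h0.ne']; field_simp
      rw [h2]
      apply mul_le_mul_of_nonneg_right _ hu
      exact Real.rpow_le_rpow_of_nonpos h0 huv (by linarith)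
  have h3 : v ^ q = v ^ (q - 1) * v := by
    rw [Real.rpow_sub_one hv.ne']; field_simp
  rw [h3]; linarith

lemma pow_diff_low {q u v : ℝ} (hq : 0 < q) (hq1 : q ≤ 1) (hu : 0 ≤ u) (_huv : u ≤ v) (hv : 0 < v) :
    q * v ^ (q - 1) * (v - u) ≤ v ^ q - u ^ q := by
  have h3 : v ^ q = v ^ (q - 1) * v := by
    rw [Real.rpow_sub_one hv.ne']; field_simp
  have h1 : (u / v) ^ q ≤ 1 + q * (u / v - 1) := by
    have h2 := rpow_one_add_le_one_add_mul_self (s := u / v - 1) (by
      have : 0 ≤ u / v := by positivity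
      linarith) (p := q) hq.le hq1
    have e : 1 + (u / v - 1) = u / v := by ring
    rwa [e] at h2
  have h4 : u ^ q = v ^ q * (u / v) ^ q := by
    rw [← Real.mul_rpow hv.le (by positivity)]; congr 1; field_simp
  rw [h4]
  have h5 : v ^ q * (u / v) ^ q ≤ v ^ q * (1 + q * (u / v - 1)) :=
    mul_le_mul_of_nonneg_left h1 (by positivity)
  have h6 : v ^ q * (1 + q * (u / v - 1)) = v ^ q - q * v ^ (q - 1) * (v - u) := by
    rw [h3]; field_simp; ring
  linarith

lemma Ph_sym (q R s : ℝ) : Ph q (-R + s) - Ph q (-R - s) = Ph q (R + s) - Ph q (R - s) := by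
  have h1 : Ph q (-R - s) = -Ph q (R + s) := by rw [← Ph_neg]; ring_nf
  have h2 : Ph q (-R + s) = -Ph q (R - s) := by rw [← Ph_neg]; ring_nf
  rw [h1, h2]; ring

lemma Ph_up_aux {q R s : ℝ} (hq : 0 < q) (hq1 : q ≤ 1) (hR : 0 ≤ R) (hs : 0 < s) :
    Ph q (R + s) - Ph q (R - s) ≤ 4 * s * (R + s) ^ (q - 1) := by
  have hv : 0 < R + s := by linarith
  have hw : 0 ≤ (R + s) ^ (q - 1) := by positivity
  rcases le_total s R with h | h
  · rw [Ph_nonneg_eq hq (by linarith), Ph_nonneg_eq hq (by linarith)]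
    have h1 := pow_diff_up hq1 (by linarith : 0 ≤ R - s) (by linarith : R - s ≤ R + s) hv
    have h2 : (R + s) ^ (q - 1) * ((R + s) - (R - s)) = 2 * s * (R + s) ^ (q - 1) := by ring
    have h3 : 0 ≤ s * (R + s) ^ (q - 1) := by positivity
    linarith
  · have h1 : Ph q (R - s) = -Ph q (s - R) := by rw [← Ph_neg]; ring_nf
    rw [h1, Ph_nonneg_eq hq (by linarith), Ph_nonneg_eq hq (by linarith)]
    have h2 : (s - R) ^ q ≤ (R + s) ^ q := Real.rpow_le_rpow (by linarith) (by linarith) hq.le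
    have h3 : (R + s) ^ q = (R + s) ^ (q - 1) * (R + s) := by
      rw [Real.rpow_sub_one hv.ne']; field_simp
    have h4 : (R + s) ^ (q - 1) * (R + s) ≤ (R + s) ^ (q - 1) * (2 * s) :=
      mul_le_mul_of_nonneg_left (by linarith) hw
    linarith

lemma Ph_low_aux {q R s : ℝ} (hq : 0 < q) (hq1 : q ≤ 1) (hR : 0 ≤ R) (hs : 0 < s) :
    q * s * (R + s) ^ (q - 1) ≤ Ph q (R + s) - Ph q (R - s) := by
  have hv : 0 < R + s := by linarith
  have hw : 0 ≤ (R + s) ^ (q - 1) := by positivity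
  rcases le_total s R with h | h
  · rw [Ph_nonneg_eq hq (by linarith), Ph_nonneg_eq hq (by linarith)]
    have h1 := pow_diff_low hq hq1 (by linarith : 0 ≤ R - s) (by linarith : R - s ≤ R + s) hv
    have h3 : 0 ≤ q * s * (R + s) ^ (q - 1) := by positivity
    nlinarith
  · have h1 : Ph q (R - s) = -Ph q (s - R) := by rw [← Ph_neg]; ring_nf
    rw [h1, Ph_nonneg_eq hq (by linarith), Ph_nonneg_eq hq (by linarith)]
    have h2 : 0 ≤ (s - R) ^ q := Real.rpow_nonneg (by linarith) _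
    have h3 : (R + s) ^ q = (R + s) ^ (q - 1) * (R + s) := by
      rw [Real.rpow_sub_one hv.ne']; field_simp
    have h4 : (R + s) ^ (q - 1) * (q * s) ≤ (R + s) ^ (q - 1) * (R + s) := by
      apply mul_le_mul_of_nonneg_left _ hw
      nlinarith
    linarith

lemma Ph_up {q s : ℝ} (hq : 0 < q) (hq1 : q ≤ 1) (R : ℝ) (hs : 0 < s) :
    Ph q (R + s) - Ph q (R - s) ≤ 4 * s * (|R| + s) ^ (q - 1) := by
  rcases le_total 0 R with h | h
  · rw [abs_of_nonneg h]; exact Ph_up_aux hq hq1 h hs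
  · rw [abs_of_nonpos h, ← Ph_sym]; exact Ph_up_aux hq hq1 (by linarith) hs

lemma Ph_low {q s : ℝ} (hq : 0 < q) (hq1 : q ≤ 1) (R : ℝ) (hs : 0 < s) :
    q * s * (|R| + s) ^ (q - 1) ≤ Ph q (R + s) - Ph q (R - s) := by
  rcases le_total 0 R with h | h
  · rw [abs_of_nonneg h]; exact Ph_low_aux hq hq1 h hs
  · rw [abs_of_nonpos h, ← Ph_sym]; exact Ph_low_aux hq hq1 (by linarith) hs

/-- The weight. -/
noncomputable def w (q b R : ℝ) : ℝ := (|R| + b) ^ (q - 1)

lemma w_pos {q b R : ℝ} (hb : 0 < b) : 0 < w q b R := by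
  unfold w; have := abs_nonneg R; positivity

lemma w_le {q b R : ℝ} (hq1 : q ≤ 1) (hb : 0 < b) : w q b R ≤ b ^ (q - 1) := by
  unfold w
  exact Real.rpow_le_rpow_of_nonpos hb (by linarith [abs_nonneg R]) (by linarith)

/-- A perturbation of size at most `c b`, `c ≥ 1`. -/
lemma Ph_pert {q b c : ℝ} (hq : 0 < q) (hq1 : q ≤ 1) (hb : 0 < b) (hc : 1 ≤ c) {R e : ℝ}
    (he : |e| ≤ c * b) : |Ph q (R + e) - Ph q R| ≤ 4 * c * b * w q b R := by
  have hcb : 0 < c * b := by positivity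
  have h1 := Ph_up hq hq1 R hcb
  have h2 : (|R| + c * b) ^ (q - 1) ≤ w q b R := by
    unfold w
    apply Real.rpow_le_rpow_of_nonpos (by linarith [abs_nonneg R]) _ (by linarith)
    nlinarith
  have h3 := abs_le.mp he
  have m1 : Ph q (R + e) ≤ Ph q (R + c * b) := Ph_mono hq (by linarith)
  have m2 : Ph q (R - c * b) ≤ Ph q (R + e) := Ph_mono hq (by linarith)
  have m3 : Ph q R ≤ Ph q (R + c * b) := Ph_mono hq (by linarith)
  have m4 : Ph q (R - c * b) ≤ Ph q R := Ph_mono hq (by linarith)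
  have h4 : 4 * (c * b) * (|R| + c * b) ^ (q - 1) ≤ 4 * c * b * w q b R := by
    have := mul_le_mul_of_nonneg_left h2 (by positivity : 0 ≤ 4 * (c * b))
    linarith
  rw [abs_le]; constructor <;> linarith

/-- Comparison of the weights at nearby points. -/
lemma w_comp {q b c : ℝ} (hq : 0 < q) (hq1 : q ≤ 1) (hb : 0 < b) (hc : 0 ≤ c) {R e : ℝ}
    (he : |e| ≤ c * b) : w q b R ≤ (1 + c) * w q b (R + e) := by
  unfold w
  have hR := abs_nonneg R
  have h1 : |R + e| + b ≤ (1 + c) * (|R| + b) := by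
    have := abs_add_le R e
    nlinarith
  have h0 : 0 < |R + e| + b := by linarith [abs_nonneg (R + e)]
  have h2 : ((1 + c) * (|R| + b)) ^ (q - 1) ≤ (|R + e| + b) ^ (q - 1) :=
    Real.rpow_le_rpow_of_nonpos h0 h1 (by linarith)
  rw [Real.mul_rpow (by linarith) (by linarith)] at h2
  have h3 : (1 + c) ^ (q - 1) ≥ (1 + c)⁻¹ := by
    rw [← Real.rpow_neg_one]
    exact Real.rpow_le_rpow_of_exponent_le (by linarith) (by linarith)
  have h4 : 0 < (|R| + b) ^ (q - 1) := by positivity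
  have h5 : (1 + c)⁻¹ * (|R| + b) ^ (q - 1) ≤ (|R + e| + b) ^ (q - 1) := by
    refine le_trans ?_ h2
    exact mul_le_mul_of_nonneg_right h3 h4.le
  rw [inv_mul_le_iff₀ (by linarith)] at h5
  exact h5

/-- Lower bound for the pairing with the sine. -/
lemma Ph_sin_low {q b : ℝ} (hq : 0 < q) (hq1 : q ≤ 1) (hb : 0 < b) (R s : ℝ) (hs : |s| ≤ 1) :
    q * b * (s ^ 2 * w q b R) ≤ (Ph q (R + b * s) - Ph q (R - b * s)) * s := by
  rcases eq_or_ne s 0 with h0 | h0
  · rw [h0]; simp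
  have hsp : 0 < |s| := abs_pos.mpr h0
  have h1 := Ph_low hq hq1 R (by positivity : 0 < b * |s|)
  have h2 : w q b R ≤ (|R| + b * |s|) ^ (q - 1) := by
    unfold w
    apply Real.rpow_le_rpow_of_nonpos (by linarith [abs_nonneg R, mul_pos hb hsp]) _ (by linarith)
    nlinarith
  have h3 : (Ph q (R + b * s) - Ph q (R - b * s)) * s =
      (Ph q (R + b * |s|) - Ph q (R - b * |s|)) * |s| := by
    rcases le_total 0 s with h | h
    · rw [abs_of_nonneg h]
    · rw [abs_of_nonpos h]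
      have e1 : R + b * -s = R - b * s := by ring
      have e2 : R - b * -s = R + b * s := by ring
      rw [e1, e2]; ring
  rw [h3]
  have h4 : q * (b * |s|) * w q b R ≤ Ph q (R + b * |s|) - Ph q (R - b * |s|) := by
    refine le_trans ?_ h1
    exact mul_le_mul_of_nonneg_left h2 (by positivity)
  have h5 := mul_le_mul_of_nonneg_right h4 hsp.le
  have h6 : q * (b * |s|) * w q b R * |s| = q * b * (s ^ 2 * w q b R) := by
    rw [← sq_abs s]; ring
  linarith

lemma abs_rpow_sub_le {q : ℝ} (hq : 0 < q) (hq1 : q ≤ 1) {x y : ℝ} (hx : 0 ≤ x) (hy : 0 ≤ y) :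
    |x ^ q - y ^ q| ≤ |x - y| ^ q := by
  wlog h : y ≤ x generalizing x y with H
  · rw [abs_sub_comm, abs_sub_comm x y]; exact H hy hx (by linarith)
  have h1 : x ^ q ≤ y ^ q + (x - y) ^ q := by
    have := Real.rpow_add_le_add_rpow hy (by linarith : 0 ≤ x - y) hq.le hq1
    have e : y + (x - y) = x := by ring
    rwa [e] at this
  have h2 : y ^ q ≤ x ^ q := Real.rpow_le_rpow hy h hq.le
  rw [abs_of_nonneg (by linarith), abs_of_nonneg (by linarith)]
  linarith

lemma Ph_holder {q : ℝ} (hq : 0 < q) (hq1 : q ≤ 1) (x y : ℝ) :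
    |Ph q x - Ph q y| ≤ 2 * |x - y| ^ q := by
  have hnn : 0 ≤ |x - y| ^ q := by positivity
  have opp : ∀ x y : ℝ, 0 ≤ x → y ≤ 0 → |Ph q x - Ph q y| ≤ 2 * |x - y| ^ q := by
    intro x y hx hy
    have h1 : Ph q y = -Ph q (-y) := by rw [Ph_neg]; ring
    rw [h1, Ph_nonneg_eq hq hx, Ph_nonneg_eq hq (by linarith)]
    have h2 : |x - y| = x - y := abs_of_nonneg (by linarith)
    rw [h2]
    have h3 : x ^ q ≤ (x - y) ^ q := Real.rpow_le_rpow hx (by linarith) hq.le
    have h4 : (-y) ^ q ≤ (x - y) ^ q := Real.rpow_le_rpow (by linarith) (by linarith) hq.le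
    have h5 : 0 ≤ x ^ q := by positivity
    have h6 : 0 ≤ (-y) ^ q := Real.rpow_nonneg (by linarith) _
    rw [abs_of_nonneg (by linarith)]
    linarith
  rcases le_total 0 x with hx | hx <;> rcases le_total 0 y with hy | hy
  · rw [Ph_nonneg_eq hq hx, Ph_nonneg_eq hq hy]
    linarith [abs_rpow_sub_le hq hq1 hx hy]
  · exact opp x y hx hy
  · rw [abs_sub_comm, abs_sub_comm x y]; exact opp y x hy hx
  · have h1 : Ph q y = -Ph q (-y) := by rw [Ph_neg]; ring
    have h2 : Ph q x = -Ph q (-x) := by rw [Ph_neg]; ring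
    rw [h1, h2, Ph_nonneg_eq hq (by linarith), Ph_nonneg_eq hq (by linarith)]
    have h3 := abs_rpow_sub_le hq hq1 (by linarith : 0 ≤ -y) (by linarith : 0 ≤ -x)
    have e1 : -y - -x = x - y := by ring
    have e2 : -(-x) ^ q - -(-y) ^ q = (-y) ^ q - (-x) ^ q := by ring
    rw [e1] at h3
    rw [e2]
    linarith

/-- Tangent line inequality giving a lower bound for the mean of the weight. -/
lemma w_tangent {q s s₀ : ℝ} (hq1 : q < 1) (hs : 0 < s) (hs₀ : 0 < s₀) :
    s₀ ^ (q - 1) + (q - 1) * s₀ ^ (q - 2) * (s - s₀) ≤ s ^ (q - 1) := by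
  have hx : 0 < s / s₀ := by positivity
  have h1 : (s / s₀) ^ (q - 1) ≥ 1 + (q - 1) * (s / s₀ - 1) := by
    rw [Real.rpow_def_of_pos hx]
    have h2 := Real.add_one_le_exp (Real.log (s / s₀) * (q - 1))
    have h3 := Real.log_le_sub_one_of_pos hx
    nlinarith
  have h2 : s ^ (q - 1) = s₀ ^ (q - 1) * (s / s₀) ^ (q - 1) := by
    rw [← Real.mul_rpow hs₀.le hx.le]; congr 1; field_simp
  have h3 : s₀ ^ (q - 2) = s₀ ^ (q - 1) / s₀ := by
    rw [show q - 2 = (q - 1) - 1 by ring, Real.rpow_sub_one hs₀.ne']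
  rw [h2, h3]
  have h4 : 0 < s₀ ^ (q - 1) := by positivity
  have h5 := mul_le_mul_of_nonneg_left h1 h4.le
  refine le_trans (le_of_eq ?_) h5
  field_simp

end Pool.Agent.Helper415.TN
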