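import Mathlib
import Pool.Agent.Helper415.TN1

set_option autoImplicit false

namespace Pool.Agent.Helper415.TN

open MeasureTheory intervalIntegral Real

/-- Bounded measurable `2π`-periodic functions. -/
structure Nice (F : ℝ → ℝ) : Prop where
  meas : Measurable F
  per : Function.Periodic F (2 * π)
  bdd : ∃ C, ∀ x, |F x| ≤ C

namespace Nice

lemma ii {F : ℝ → ℝ} (hF : Nice F) (a b : ℝ) : IntervalIntegrable F volume a b := by
  obtain ⟨C, hC⟩ := hF.bdd
  have h1 : IntervalIntegrable (fun _ : ℝ => C) volume a b := intervalIntegrable_const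
  refine h1.mono_fun hF.meas.aestronglyMeasurable ?_
  refine Filter.Eventually.of_forall (fun x => ?_)
  show ‖F x‖ ≤ |C|
  rw [Real.norm_eq_abs]
  exact (hC x).trans (le_abs_self C)

lemma add {F G : ℝ → ℝ} (hF : Nice F) (hG : Nice G) : Nice (fun x => F x + G x) := by
  obtain ⟨C, hC⟩ := hF.bdd
  obtain ⟨D, hD⟩ := hG.bdd
  refine ⟨hF.meas.add hG.meas, fun x => ?_, C + D, fun x => ?_⟩
  · show F (x + 2 * π) + G (x + 2 * π) = F x + G x
    rw [hF.per x, hG.per x]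
  · exact (abs_add_le _ _).trans (add_le_add (hC x) (hD x))

lemma sub {F G : ℝ → ℝ} (hF : Nice F) (hG : Nice G) : Nice (fun x => F x - G x) := by
  obtain ⟨C, hC⟩ := hF.bdd
  obtain ⟨D, hD⟩ := hG.bdd
  refine ⟨hF.meas.sub hG.meas, fun x => ?_, C + D, fun x => ?_⟩
  · show F (x + 2 * π) - G (x + 2 * π) = F x - G x
    rw [hF.per x, hG.per x]
  · exact (abs_sub _ _).trans (add_le_add (hC x) (hD x))

lemma mul {F G : ℝ → ℝ} (hF : Nice F) (hG : Nice G) : Nice (fun x => F x * G x) := by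
  obtain ⟨C, hC⟩ := hF.bdd
  obtain ⟨D, hD⟩ := hG.bdd
  refine ⟨hF.meas.mul hG.meas, fun x => ?_, C * D, fun x => ?_⟩
  · show F (x + 2 * π) * G (x + 2 * π) = F x * G x
    rw [hF.per x, hG.per x]
  · rw [abs_mul]
    exact mul_le_mul (hC x) (hD x) (abs_nonneg _) ((abs_nonneg _).trans (hC x))

lemma const (c : ℝ) : Nice (fun _ => c) :=
  ⟨measurable_const, fun _ => rfl, |c|, fun _ => le_rfl⟩

lemma const_mul (c : ℝ) {F : ℝ → ℝ} (hF : Nice F) : Nice (fun x => c * F x) := (const c).mul hF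

lemma shift {F : ℝ → ℝ} (hF : Nice F) (τ : ℝ) : Nice (fun x => F (x + τ)) := by
  obtain ⟨C, hC⟩ := hF.bdd
  refine ⟨hF.meas.comp (measurable_id.add_const τ), fun x => ?_, C, fun x => hC _⟩
  show F (x + 2 * π + τ) = F (x + τ)
  rw [show x + 2 * π + τ = (x + τ) + 2 * π by ring, hF.per]

lemma neg {F : ℝ → ℝ} (hF : Nice F) : Nice (fun x => F (-x)) := by
  obtain ⟨C, hC⟩ := hF.bdd
  refine ⟨hF.meas.comp measurable_neg, fun x => ?_, C, fun x => hC _⟩
  show F (-(x + 2 * π)) = F (-x)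
  have := hF.per (-(x + 2 * π))
  rw [← this]; ring_nf

lemma abs {F : ℝ → ℝ} (hF : Nice F) : Nice (fun x => |F x|) := by
  obtain ⟨C, hC⟩ := hF.bdd
  refine ⟨hF.meas.abs, fun x => ?_, C, fun x => by rw [abs_abs]; exact hC x⟩
  show |F (x + 2 * π)| = |F x|
  rw [hF.per]

lemma rpow {F : ℝ → ℝ} (hF : Nice F) {q : ℝ} (hq : 0 ≤ q) : Nice (fun x => |F x| ^ q) := by
  obtain ⟨C, hC⟩ := hF.bdd
  refine ⟨hF.meas.abs.pow_const q, fun x => ?_, C ^ q, fun x => ?_⟩
  · show |F (x + 2 * π)| ^ q = |F x| ^ q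
    rw [hF.per]
  · rw [abs_of_nonneg (by positivity)]
    exact Real.rpow_le_rpow (abs_nonneg _) (hC x) hq

lemma ph {F : ℝ → ℝ} (hF : Nice F) {q : ℝ} (hq : 0 < q) : Nice (fun x => Ph q (F x)) := by
  obtain ⟨C, hC⟩ := hF.bdd
  refine ⟨?_, fun x => ?_, C ^ q, fun x => ?_⟩
  · unfold Ph
    exact (hF.meas.abs.pow_const _).mul hF.meas
  · show Ph q (F (x + 2 * π)) = Ph q (F x)
    rw [hF.per]
  · rw [Ph_abs hq]
    exact Real.rpow_le_rpow (abs_nonneg _) (hC x) hq.le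

lemma weight {F : ℝ → ℝ} (hF : Nice F) {q b : ℝ} (hq1 : q ≤ 1) (hb : 0 < b) :
    Nice (fun x => w q b (F x)) := by
  refine ⟨?_, fun x => ?_, b ^ (q - 1), fun x => ?_⟩
  · unfold w
    exact (hF.meas.abs.add_const b).pow_const _
  · show w q b (F (x + 2 * π)) = w q b (F x)
    rw [hF.per]
  · rw [abs_of_pos (w_pos hb)]; exact w_le hq1 hb

lemma sin (n : ℕ) : Nice (fun x => Real.sin ((n : ℝ) * x)) := by
  refine ⟨by fun_prop, fun x => ?_, 1, fun x => Real.abs_sin_le_one _⟩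
  show Real.sin ((n : ℝ) * (x + 2 * π)) = Real.sin ((n : ℝ) * x)
  rw [mul_add]
  exact Real.sin_add_nat_mul_two_pi _ n

lemma cos (n : ℕ) : Nice (fun x => Real.cos ((n : ℝ) * x)) := by
  refine ⟨by fun_prop, fun x => ?_, 1, fun x => Real.abs_cos_le_one _⟩
  show Real.cos ((n : ℝ) * (x + 2 * π)) = Real.cos ((n : ℝ) * x)
  rw [mul_add]
  exact Real.cos_add_nat_mul_two_pi _ n

lemma dil {F : ℝ → ℝ} (hF : Nice F) (n : ℕ) : Nice (fun x => F ((n : ℝ) * x)) := by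
  obtain ⟨C, hC⟩ := hF.bdd
  refine ⟨hF.meas.comp (measurable_id.const_mul _), fun x => ?_, C, fun x => hC _⟩
  show F ((n : ℝ) * (x + 2 * π)) = F ((n : ℝ) * x)
  rw [mul_add]
  exact hF.per.nat_mul n _

lemma int_shift {F : ℝ → ℝ} (hF : Nice F) (τ : ℝ) :
    ∫ x in (0:ℝ)..(2 * π), F (x + τ) = ∫ x in (0:ℝ)..(2 * π), F x := by
  rw [intervalIntegral.integral_comp_add_right]
  have h1 := hF.per.intervalIntegral_add_eq τ 0
  rw [zero_add] at h1 ⊢
  rw [← h1]; congr 1; ring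

lemma int_neg {F : ℝ → ℝ} (hF : Nice F) :
    ∫ x in (0:ℝ)..(2 * π), F (-x) = ∫ x in (0:ℝ)..(2 * π), F x := by
  rw [intervalIntegral.integral_comp_neg]
  have h1 := hF.per.intervalIntegral_add_eq (-(2 * π)) 0
  rw [zero_add, neg_add_cancel] at h1
  rw [neg_zero]; exact h1

lemma int_dil {F : ℝ → ℝ} (hF : Nice F) (n : ℕ) (hn : 0 < n) :
    ∫ x in (0:ℝ)..(2 * π), F ((n : ℝ) * x) = ∫ x in (0:ℝ)..(2 * π), F x := by
  have hn' : (n : ℝ) ≠ 0 := by positivity
  rw [intervalIntegral.integral_comp_mul_left _ hn', mul_zero]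
  have h1 : ∫ x in (0:ℝ)..((n : ℝ) * (2 * π)), F x = n * ∫ x in (0:ℝ)..(2 * π), F x := by
    have h2 := hF.per.intervalIntegral_add_zsmul_eq (n : ℤ) 0 (fun a b => hF.ii a b)
    simp only [zero_add, natCast_zsmul, nsmul_eq_mul] at h2
    exact h2
  rw [h1, smul_eq_mul]; field_simp

lemma mono {F G : ℝ → ℝ} (hF : Nice F) (hG : Nice G) (h : ∀ x, F x ≤ G x) :
    ∫ x in (0:ℝ)..(2 * π), F x ≤ ∫ x in (0:ℝ)..(2 * π), G x :=
  intervalIntegral.integral_mono (by positivity) (hF.ii _ _) (hG.ii _ _) h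

lemma abs_int_le {F G : ℝ → ℝ} (hF : Nice F) (hG : Nice G) (h : ∀ x, |F x| ≤ G x) :
    |∫ x in (0:ℝ)..(2 * π), F x| ≤ ∫ x in (0:ℝ)..(2 * π), G x := by
  refine (intervalIntegral.abs_integral_le_integral_abs (by positivity)).trans ?_
  exact mono hF.abs hG h

end Nice

lemma int_const' (c : ℝ) : ∫ _x in (0:ℝ)..(2 * π), c = 2 * π * c := by
  rw [intervalIntegral.integral_const]; simp

/-! ### The functions -/

variable (b : ℝ) (K : ℕ) (Ds : ℝ → ℝ)

/-- The lacunary part. -/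
noncomputable def S (k : ℕ) (x : ℝ) : ℝ := b * ∑ i ∈ Finset.Ico k K, Real.sin (((4 ^ i : ℕ) : ℝ) * x)

/-- The residual after `k` steps. -/
noncomputable def f (k : ℕ) (x : ℝ) : ℝ := S b K k x + Ds (((4 ^ K : ℕ) : ℝ) * x)

lemma nice_sum (s : Finset ℕ) : Nice (fun x => ∑ i ∈ s, Real.sin (((4 ^ i : ℕ) : ℝ) * x)) := by
  classical
  induction s using Finset.induction_on with
  | empty => simpa using Nice.const 0
  | insert a s ha ih =>
    simp_rw [Finset.sum_insert ha]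
    exact (Nice.sin (4 ^ a)).add ih

lemma nice_S (k : ℕ) : Nice (S b K k) := (nice_sum _).const_mul b

variable {Ds} in
lemma nice_f (hD : Nice Ds) (k : ℕ) : Nice (f b K Ds k) := (nice_S b K k).add (hD.dil (4 ^ K))

lemma f_succ {k : ℕ} (hk : k < K) (x : ℝ) :
    f b K Ds k x = f b K Ds (k + 1) x + b * Real.sin (((4 ^ k : ℕ) : ℝ) * x) := by
  unfold f S
  rw [Finset.sum_eq_sum_Ico_succ_bot hk]
  ring

lemma sin_shift_zero {n : ℕ} {τ : ℝ} (z : ℤ) (hz : (n : ℝ) * τ = z * (2 * π)) (x : ℝ) :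
    Real.sin ((n : ℝ) * (x + τ)) = Real.sin ((n : ℝ) * x) := by
  rw [mul_add, hz]; exact Real.sin_add_int_mul_two_pi _ z

variable {Ds} in
lemma f_shift (hD : Nice Ds) (k : ℕ) (hk : k ≤ K) {τ : ℝ}
    (h : ∀ i, k ≤ i → i ≤ K → ∃ z : ℤ, ((4 ^ i : ℕ) : ℝ) * τ = z * (2 * π)) (x : ℝ) :
    f b K Ds k (x + τ) = f b K Ds k x := by
  unfold f S
  congr 1
  · congr 1
    apply Finset.sum_congr rfl
    intro i hi
    have hi' := Finset.mem_Ico.mp hi
    obtain ⟨z, hz⟩ := h i hi'.1 hi'.2.le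
    exact sin_shift_zero z hz x
  · obtain ⟨z, hz⟩ := h K hk le_rfl
    rw [mul_add, hz]
    exact hD.per.int_mul z _

lemma pow_mul_pi {i j : ℕ} (h : j < i) :
    ∃ z : ℤ, ((4 ^ i : ℕ) : ℝ) * (π / ((4 ^ j : ℕ) : ℝ)) = z * (2 * π) := by
  obtain ⟨e, rfl⟩ : ∃ e, i = j + 1 + e := ⟨i - j - 1, by omega⟩
  refine ⟨2 * 4 ^ e, ?_⟩
  push_cast
  rw [pow_add, pow_add]
  field_simp
  ring

lemma pow_mul_half_pi {i j : ℕ} (h : j < i) :
    ∃ z : ℤ, ((4 ^ i : ℕ) : ℝ) * (π / (2 * ((4 ^ j : ℕ) : ℝ))) = z * (2 * π) := by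
  obtain ⟨e, rfl⟩ : ∃ e, i = j + 1 + e := ⟨i - j - 1, by omega⟩
  refine ⟨4 ^ e, ?_⟩
  push_cast
  rw [pow_add, pow_add]
  field_simp
  ring

variable {b K Ds}

/-- The picked sines are orthogonal to the later residuals. -/
lemma ortho {q : ℝ} (hq : 0 < q) (hD : Nice Ds) {j k : ℕ} (hjk : j < k) (hk : k ≤ K) :
    ∫ x in (0:ℝ)..(2 * π), Ph q (f b K Ds k x) * Real.sin (((4 ^ j : ℕ) : ℝ) * x) = 0 := by
  have hn : Nice (fun x => Ph q (f b K Ds k x) * Real.sin (((4 ^ j : ℕ) : ℝ) * x)) :=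
    ((nice_f b K hD k).ph hq).mul (Nice.sin (4 ^ j))
  have h1 := hn.int_shift (π / ((4 ^ j : ℕ) : ℝ))
  have h2 : ∀ x, Ph q (f b K Ds k (x + π / ((4 ^ j : ℕ) : ℝ))) *
      Real.sin (((4 ^ j : ℕ) : ℝ) * (x + π / ((4 ^ j : ℕ) : ℝ))) =
      -(Ph q (f b K Ds k x) * Real.sin (((4 ^ j : ℕ) : ℝ) * x)) := by
    intro x
    rw [f_shift b K hD k hk (fun i hi _ => pow_mul_pi (lt_of_lt_of_le hjk hi))]
    have : ((4 ^ j : ℕ) : ℝ) * (x + π / ((4 ^ j : ℕ) : ℝ)) = ((4 ^ j : ℕ) : ℝ) * x + π := by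
      have : ((4 ^ j : ℕ) : ℝ) ≠ 0 := by positivity
      field_simp
    rw [this, Real.sin_add_pi]; ring
  simp_rw [h2] at h1
  rw [intervalIntegral.integral_neg] at h1
  linarith

/-- Lower bound for the functional at the next sine. -/
lemma A_low {q : ℝ} (hq : 0 < q) (hq1 : q ≤ 1) (hb : 0 < b) (hD : Nice Ds) {k : ℕ} (hk : k < K) :
    q / 8 * b * ∫ x in (0:ℝ)..(2 * π), w q b (f b K Ds k x) ≤
      ∫ x in (0:ℝ)..(2 * π), Ph q (f b K Ds k x) * Real.sin (((4 ^ k : ℕ) : ℝ) * x) := by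
  set N : ℝ := ((4 ^ k : ℕ) : ℝ) with hN
  have hN0 : N ≠ 0 := by rw [hN]; positivity
  have nf := nice_f b K hD k
  have nf1 := nice_f b K hD (k + 1)
  have hn : Nice (fun x => Ph q (f b K Ds k x) * Real.sin (N * x)) :=
    (nf.ph hq).mul (Nice.sin (4 ^ k))
  set A := ∫ x in (0:ℝ)..(2 * π), Ph q (f b K Ds k x) * Real.sin (N * x) with hA
  set R : ℝ → ℝ := f b K Ds (k + 1) with hR
  have h1 := hn.int_shift (π / N)
  have hRs : ∀ x, R (x + π / N) = R x := fun x =>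
    f_shift b K hD (k + 1) hk (fun i hi _ => pow_mul_pi (by omega)) x
  have hRs2 : ∀ x, R (x + π / (2 * N)) = R x := fun x =>
    f_shift b K hD (k + 1) hk (fun i hi _ => pow_mul_half_pi (by omega)) x
  have hsinN : ∀ x, Real.sin (N * (x + π / N)) = -Real.sin (N * x) := fun x => by
    rw [show N * (x + π / N) = N * x + π by field_simp, Real.sin_add_pi]
  have hsinN2 : ∀ x, Real.sin (N * (x + π / (2 * N))) = Real.cos (N * x) := fun x => by
    rw [show N * (x + π / (2 * N)) = N * x + π / 2 by field_simp, Real.sin_add_pi_div_two]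
  have h2 : ∀ x, Ph q (f b K Ds k (x + π / N)) * Real.sin (N * (x + π / N)) =
      -(Ph q (R x - b * Real.sin (N * x)) * Real.sin (N * x)) := by
    intro x
    rw [f_succ b K Ds hk, ← hN, ← hR, hRs, hsinN]
    ring_nf
  have h3 : ∀ x, Ph q (f b K Ds k x) * Real.sin (N * x) =
      Ph q (R x + b * Real.sin (N * x)) * Real.sin (N * x) := by
    intro x; rw [f_succ b K Ds hk]
  have nR : Nice R := nf1
  have nb : Nice (fun x => b * Real.sin (N * x)) := (Nice.sin (4 ^ k)).const_mul b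
  have n1 : Nice (fun x => Ph q (R x + b * Real.sin (N * x)) * Real.sin (N * x)) :=
    ((nR.add nb).ph hq).mul (Nice.sin (4 ^ k))
  have n2 : Nice (fun x => Ph q (R x - b * Real.sin (N * x)) * Real.sin (N * x)) :=
    ((nR.sub nb).ph hq).mul (Nice.sin (4 ^ k))
  have h4 : 2 * A = ∫ x in (0:ℝ)..(2 * π),
      (Ph q (R x + b * Real.sin (N * x)) - Ph q (R x - b * Real.sin (N * x))) * Real.sin (N * x) := by
    simp_rw [h2] at h1
    rw [intervalIntegral.integral_neg] at h1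
    have e1 : ∀ x, (Ph q (R x + b * Real.sin (N * x)) - Ph q (R x - b * Real.sin (N * x))) *
        Real.sin (N * x) = Ph q (R x + b * Real.sin (N * x)) * Real.sin (N * x)
          - Ph q (R x - b * Real.sin (N * x)) * Real.sin (N * x) := fun x => by ring
    simp_rw [e1]
    rw [intervalIntegral.integral_sub (n1.ii _ _) (n2.ii _ _)]
    have e2 : A = ∫ x in (0:ℝ)..(2 * π), Ph q (R x + b * Real.sin (N * x)) * Real.sin (N * x) := by
      rw [hA]; simp_rw [h3]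
    rw [← e2]; linarith
  have nw : Nice (fun x => w q b (R x)) := nR.weight hq1 hb
  have nsw : Nice (fun x => Real.sin (N * x) ^ 2 * w q b (R x)) := by
    have := ((Nice.sin (4 ^ k)).mul (Nice.sin (4 ^ k))).mul nw
    simp only [sq]; exact this
  have ncw : Nice (fun x => Real.cos (N * x) ^ 2 * w q b (R x)) := by
    have := ((Nice.cos (4 ^ k)).mul (Nice.cos (4 ^ k))).mul nw
    simp only [sq]; exact this
  have h5 : ∫ x in (0:ℝ)..(2 * π), Real.sin (N * x) ^ 2 * w q b (R x) =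
      ∫ x in (0:ℝ)..(2 * π), Real.cos (N * x) ^ 2 * w q b (R x) := by
    rw [← nsw.int_shift (π / (2 * N))]
    simp_rw [hRs2, hsinN2]
  have h6 : 2 * ∫ x in (0:ℝ)..(2 * π), Real.sin (N * x) ^ 2 * w q b (R x) =
      ∫ x in (0:ℝ)..(2 * π), w q b (R x) := by
    rw [two_mul]
    nth_rewrite 2 [h5]
    rw [← intervalIntegral.integral_add (nsw.ii _ _) (ncw.ii _ _)]
    congr 1; funext x
    have := Real.sin_sq_add_cos_sq (N * x)
    rw [← add_mul, this, one_mul]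
  have n12 : Nice (fun x => (Ph q (R x + b * Real.sin (N * x)) - Ph q (R x - b * Real.sin (N * x))) *
      Real.sin (N * x)) := (((nR.add nb).ph hq).sub ((nR.sub nb).ph hq)).mul (Nice.sin (4 ^ k))
  have h7 : q * b * ∫ x in (0:ℝ)..(2 * π), Real.sin (N * x) ^ 2 * w q b (R x) ≤ 2 * A := by
    rw [h4, ← intervalIntegral.integral_const_mul]
    exact Nice.mono (nsw.const_mul _) n12 (fun x => Ph_sin_low hq hq1 hb (R x) _ (Real.abs_sin_le_one _))
  have h8 : ∫ x in (0:ℝ)..(2 * π), w q b (f b K Ds k x) ≤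
      2 * ∫ x in (0:ℝ)..(2 * π), w q b (R x) := by
    rw [← intervalIntegral.integral_const_mul]
    apply Nice.mono (nf.weight hq1 hb) (nw.const_mul 2)
    intro x
    have e : R x = f b K Ds k x + -(b * Real.sin (N * x)) := by
      rw [f_succ b K Ds hk]; ring
    have := w_comp hq hq1 hb (c := 1) zero_le_one (R := f b K Ds k x)
      (e := -(b * Real.sin (N * x))) (by
        rw [abs_neg, abs_mul, abs_of_pos hb]
        nlinarith [Real.abs_sin_le_one (N * x)])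
    rw [← e] at this
    linarith
  have hqb : 0 < q * b := by positivity
  have h9 := mul_le_mul_of_nonneg_left h8 (by positivity : 0 ≤ q / 8 * b)
  nlinarith

end Pool.Agent.Helper415.TN
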