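import Mathlib
import Pool.Agent.Helper415.TN2

set_option autoImplicit false

namespace Pool.Agent.Helper415.TN

open MeasureTheory intervalIntegral Real

lemma abs_sin_sub_le (x y : ℝ) : |Real.sin x - Real.sin y| ≤ |x - y| := by
  rw [Real.sin_sub_sin, abs_mul, abs_mul, abs_two]
  have h1 : |Real.sin ((x - y) / 2)| ≤ |x - y| / 2 := by
    calc |Real.sin ((x - y) / 2)| ≤ |(x - y) / 2| := Real.abs_sin_le_abs
      _ = |x - y| / 2 := by rw [abs_div, abs_two]
  have h2 : |Real.cos ((x + y) / 2)| ≤ 1 := Real.abs_cos_le_one _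
  have h3 : 0 ≤ |Real.sin ((x - y) / 2)| := abs_nonneg _
  have h4 : 0 ≤ |Real.cos ((x + y) / 2)| := abs_nonneg _
  nlinarith

lemma abs_sin_sub_le_two (x y : ℝ) : |Real.sin x - Real.sin y| ≤ 2 := by
  have h1 := Real.abs_sin_le_one x
  have h2 := Real.abs_sin_le_one y
  calc |Real.sin x - Real.sin y| ≤ |Real.sin x| + |Real.sin y| := abs_sub _ _
    _ ≤ 2 := by linarith

lemma geo4 (I : ℕ) : ∑ i ∈ Finset.range I, (4:ℝ) ^ i ≤ 4 ^ I / 3 := by
  induction I with
  | zero => simp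
  | succ I ih => rw [Finset.sum_range_succ, pow_succ]; linarith

/-- Sum of the changes of the sines under a small translation. -/
lemma sum_change (v : ℕ) (x : ℝ) (s : Finset ℕ) :
    ∑ i ∈ s, |Real.sin (((4 ^ i : ℕ) : ℝ) * (x + π / 2 ^ v)) - Real.sin (((4 ^ i : ℕ) : ℝ) * x)| ≤ 4 := by
  set g : ℕ → ℝ := fun i =>
    |Real.sin (((4 ^ i : ℕ) : ℝ) * (x + π / 2 ^ v)) - Real.sin (((4 ^ i : ℕ) : ℝ) * x)| with hg
  have hg0 : ∀ i, 0 ≤ g i := fun i => abs_nonneg _
  have hgz : ∀ i, v < 2 * i → g i = 0 := by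
    intro i hi
    obtain ⟨e, he⟩ : ∃ e, 2 * i = v + 1 + e := ⟨2 * i - v - 1, by omega⟩
    have h1 : ((4 ^ i : ℕ) : ℝ) * (π / 2 ^ v) = ((2 ^ e : ℤ) : ℝ) * (2 * π) := by
      have h4 : ((4 ^ i : ℕ) : ℝ) = 2 ^ v * 2 * 2 ^ e := by
        push_cast
        rw [show (4:ℝ) = 2 ^ 2 by norm_num, ← pow_mul, he, pow_add, pow_add, pow_one]
      rw [h4]; push_cast; field_simp
    simp only [hg]
    rw [sin_shift_zero (2 ^ e : ℤ) h1, sub_self, abs_zero]
  have hg2 : ∀ i, g i ≤ 2 := fun i => abs_sin_sub_le_two _ _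
  have hgs : ∀ i, g i ≤ π * 4 ^ i / 2 ^ v := by
    intro i
    refine (abs_sin_sub_le _ _).trans (le_of_eq ?_)
    have : ((4 ^ i : ℕ) : ℝ) * (x + π / 2 ^ v) - ((4 ^ i : ℕ) : ℝ) * x = π * 4 ^ i / 2 ^ v := by
      push_cast; ring
    rw [this, abs_of_nonneg (by positivity)]
  set I := v / 2 with hI
  have h1 : ∑ i ∈ s, g i ≤ ∑ i ∈ Finset.range (I + 1), g i := by
    rw [← Finset.sum_filter_add_sum_filter_not s (fun i => i < I + 1)]
    have e1 : ∑ i ∈ s.filter (fun i => ¬ i < I + 1), g i = 0 := by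
      apply Finset.sum_eq_zero
      intro i hi
      apply hgz
      have := (Finset.mem_filter.mp hi).2
      omega
    rw [e1, add_zero]
    apply Finset.sum_le_sum_of_subset_of_nonneg
    · intro i hi
      exact Finset.mem_range.mpr (Finset.mem_filter.mp hi).2
    · intro i _ _; exact hg0 i
  refine h1.trans ?_
  rw [Finset.sum_range_succ]
  have h2 : ∑ i ∈ Finset.range I, g i ≤ π / 3 := by
    calc ∑ i ∈ Finset.range I, g i ≤ ∑ i ∈ Finset.range I, π / 2 ^ v * 4 ^ i := by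
          apply Finset.sum_le_sum
          intro i _
          refine (hgs i).trans (le_of_eq (by ring))
      _ = π / 2 ^ v * ∑ i ∈ Finset.range I, (4:ℝ) ^ i := by rw [Finset.mul_sum]
      _ ≤ π / 2 ^ v * (4 ^ I / 3) := mul_le_mul_of_nonneg_left (geo4 I) (by positivity)
      _ ≤ π / 3 := by
          have h3 : (4:ℝ) ^ I ≤ 2 ^ v := by
            rw [show (4:ℝ) = 2 ^ 2 by norm_num, ← pow_mul]
            exact pow_le_pow_right₀ (by norm_num) (by omega)
          rw [div_mul_div_comm, div_le_div_iff₀ (by positivity) (by norm_num)]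
          nlinarith [Real.pi_pos]
  have h3 := hg2 I
  have h4 := Real.pi_lt_four
  linarith

/-- Small translations: total change at most `π / 3`. -/
lemma sum_change_small (N : ℝ) (K : ℕ) (hN : (4:ℝ) ^ K ≤ N) (x : ℝ) (k : ℕ) :
    ∑ i ∈ Finset.Ico k K, |Real.sin (((4 ^ i : ℕ) : ℝ) * (x + π / N)) - Real.sin (((4 ^ i : ℕ) : ℝ) * x)|
      ≤ 2 := by
  have hN0 : 0 < N := lt_of_lt_of_le (by positivity) hN
  have h1 : ∀ i, |Real.sin (((4 ^ i : ℕ) : ℝ) * (x + π / N)) - Real.sin (((4 ^ i : ℕ) : ℝ) * x)| ≤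
      π / N * 4 ^ i := by
    intro i
    refine (abs_sin_sub_le _ _).trans (le_of_eq ?_)
    have : ((4 ^ i : ℕ) : ℝ) * (x + π / N) - ((4 ^ i : ℕ) : ℝ) * x = π / N * 4 ^ i := by
      push_cast; ring
    rw [this, abs_of_nonneg (by positivity)]
  calc ∑ i ∈ Finset.Ico k K, |Real.sin (((4 ^ i : ℕ) : ℝ) * (x + π / N)) - Real.sin (((4 ^ i : ℕ) : ℝ) * x)|
      ≤ ∑ i ∈ Finset.Ico k K, π / N * 4 ^ i := Finset.sum_le_sum (fun i _ => h1 i)
    _ ≤ ∑ i ∈ Finset.range K, π / N * 4 ^ i := by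
        apply Finset.sum_le_sum_of_subset_of_nonneg
        · intro i hi; exact Finset.mem_range.mpr (Finset.mem_Ico.mp hi).2
        · intro i _ _; positivity
    _ = π / N * ∑ i ∈ Finset.range K, (4:ℝ) ^ i := by rw [Finset.mul_sum]
    _ ≤ π / N * (4 ^ K / 3) := mul_le_mul_of_nonneg_left (geo4 K) (by positivity)
    _ ≤ π / 3 := by
        rw [div_mul_div_comm, div_le_div_iff₀ (by positivity) (by norm_num)]
        nlinarith [Real.pi_pos]
    _ ≤ 2 := by linarith [Real.pi_lt_four]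

variable {b : ℝ} {K : ℕ} {Ds : ℝ → ℝ}

lemma S_diff (hb : 0 < b) (k : ℕ) (x τ c : ℝ)
    (h : ∑ i ∈ Finset.Ico k K, |Real.sin (((4 ^ i : ℕ) : ℝ) * (x + τ)) - Real.sin (((4 ^ i : ℕ) : ℝ) * x)| ≤ c) :
    |S b K k (x + τ) - S b K k x| ≤ c * b := by
  unfold S
  rw [← mul_sub, ← Finset.sum_sub_distrib, abs_mul, abs_of_pos hb]
  have h1 := Finset.abs_sum_le_sum_abs (fun i => Real.sin (((4 ^ i : ℕ) : ℝ) * (x + τ)) -
    Real.sin (((4 ^ i : ℕ) : ℝ) * x)) (Finset.Ico k K)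
  have h2 := h1.trans h
  nlinarith

/-- If the test function changes sign under a translation, the pairing is half the integral of the
difference. -/
lemma half_int {F ψ : ℝ → ℝ} (hF : Nice F) (hψ : Nice ψ) (τ : ℝ) (hsgn : ∀ x, ψ (x + τ) = -ψ x)
    (hψ1 : ∀ x, |ψ x| ≤ 1) {H : ℝ → ℝ} (hH : Nice H) (hdiff : ∀ x, |F (x + τ) - F x| ≤ H x) :
    |∫ x in (0:ℝ)..(2 * π), F x * ψ x| ≤ (1 / 2) * ∫ x in (0:ℝ)..(2 * π), H x := by
  have n1 := hF.mul hψ
  have h1 := n1.int_shift τ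
  have h2 : ∀ x, F (x + τ) * ψ (x + τ) = -(F (x + τ) * ψ x) := fun x => by rw [hsgn]; ring
  simp_rw [h2] at h1
  rw [intervalIntegral.integral_neg] at h1
  have n2 := (hF.shift τ).mul hψ
  have h3 : 2 * ∫ x in (0:ℝ)..(2 * π), F x * ψ x =
      ∫ x in (0:ℝ)..(2 * π), -((F (x + τ) - F x) * ψ x) := by
    have e : ∀ x, -((F (x + τ) - F x) * ψ x) = F x * ψ x - F (x + τ) * ψ x := fun x => by ring
    simp_rw [e]
    rw [intervalIntegral.integral_sub (n1.ii _ _) (n2.ii _ _)]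
    linarith
  have n3 : Nice (fun x => (F (x + τ) - F x) * ψ x) := ((hF.shift τ).sub hF).mul hψ
  have h4 : |∫ x in (0:ℝ)..(2 * π), (F (x + τ) - F x) * ψ x| ≤ ∫ x in (0:ℝ)..(2 * π), H x := by
    apply Nice.abs_int_le n3 hH
    intro x
    rw [abs_mul]
    have := hdiff x
    nlinarith [hψ1 x, abs_nonneg (ψ x), abs_nonneg (F (x + τ) - F x)]
  rw [intervalIntegral.integral_neg] at h3
  have h5 : |2 * ∫ x in (0:ℝ)..(2 * π), F x * ψ x| ≤ ∫ x in (0:ℝ)..(2 * π), H x := by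
    rw [h3, abs_neg]; exact h4
  rw [abs_mul, abs_two] at h5
  linarith

/-- Case A: the frequency is not divisible by `4 ^ K`. -/
lemma caseA {q : ℝ} (hq : 0 < q) (hq1 : q ≤ 1) (hb : 0 < b) (hD : Nice Ds) {k : ℕ}
    (n : ℕ) (hn : n ≠ 0) (hnK : ¬ (4 ^ K ∣ n)) (ψ : ℝ → ℝ)
    (hψ : (ψ = fun x => Real.sin ((n : ℝ) * x)) ∨ (ψ = fun x => Real.cos ((n : ℝ) * x))) :
    |∫ x in (0:ℝ)..(2 * π), Ph q (f b K Ds k x) * ψ x| ≤
      8 * b * ∫ x in (0:ℝ)..(2 * π), w q b (f b K Ds k x) := by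
  obtain ⟨v, u, hu, hnv⟩ := Nat.exists_eq_two_pow_mul_odd hn
  have hv : v < 2 * K := by
    by_contra hcon
    push Not at hcon
    apply hnK
    rw [hnv, show (4:ℕ) = 2 ^ 2 by norm_num, ← pow_mul]
    exact Dvd.dvd.mul_right (pow_dvd_pow 2 hcon) u
  have nf := nice_f b K hD k
  obtain ⟨z, hz⟩ := hu
  have harg : ∀ x : ℝ, (n : ℝ) * (x + π / 2 ^ v) = (n : ℝ) * x + π + z * (2 * π) := by
    intro x
    rw [hnv, hz]; push_cast; field_simp; ring
  have hsin : ∀ x : ℝ, Real.sin ((n : ℝ) * (x + π / 2 ^ v)) = -Real.sin ((n : ℝ) * x) := by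
    intro x
    rw [harg, Real.sin_add_nat_mul_two_pi, Real.sin_add_pi]
  have hcos : ∀ x : ℝ, Real.cos ((n : ℝ) * (x + π / 2 ^ v)) = -Real.cos ((n : ℝ) * x) := by
    intro x
    rw [harg, Real.cos_add_nat_mul_two_pi, Real.cos_add_pi]
  have hψn : Nice ψ := by
    rcases hψ with h | h
    · rw [h]; exact Nice.sin n
    · rw [h]; exact Nice.cos n
  have hψs : ∀ x, ψ (x + π / 2 ^ v) = -ψ x := by
    rcases hψ with h | h
    · rw [h]; exact hsin
    · rw [h]; exact hcos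
  have hψ1 : ∀ x, |ψ x| ≤ 1 := by
    rcases hψ with h | h
    · rw [h]; exact fun x => Real.abs_sin_le_one _
    · rw [h]; exact fun x => Real.abs_cos_le_one _
  have hfd : ∀ x, |f b K Ds k (x + π / 2 ^ v) - f b K Ds k x| ≤ 4 * b := by
    intro x
    have h1 : Ds (((4 ^ K : ℕ) : ℝ) * (x + π / 2 ^ v)) = Ds (((4 ^ K : ℕ) : ℝ) * x) := by
      obtain ⟨e, he⟩ : ∃ e, 2 * K = v + 1 + e := ⟨2 * K - v - 1, by omega⟩
      have h4 : ((4 ^ K : ℕ) : ℝ) * (x + π / 2 ^ v) = ((4 ^ K : ℕ) : ℝ) * x + ((2 ^ e : ℤ) : ℝ) * (2 * π) := by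
        have h5 : ((4 ^ K : ℕ) : ℝ) = 2 ^ v * 2 * 2 ^ e := by
          push_cast
          rw [show (4:ℝ) = 2 ^ 2 by norm_num, ← pow_mul, he, pow_add, pow_add, pow_one]
        rw [h5]; push_cast; field_simp
      rw [h4]
      exact hD.per.int_mul (2 ^ e) _
    unfold f
    rw [h1, add_sub_add_right_eq_sub]
    exact S_diff hb k x _ 4 (sum_change v x _)
  have h2 := half_int (nf.ph hq) hψn (π / 2 ^ v) hψs hψ1 ((nf.weight hq1 hb).const_mul (4 * 4 * b))
    (fun x => by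
      have h3 := Ph_pert hq hq1 hb (c := 4) (by norm_num) (R := f b K Ds k x)
        (e := f b K Ds k (x + π / 2 ^ v) - f b K Ds k x) (hfd x)
      rw [add_sub_cancel] at h3
      exact h3)
  rw [intervalIntegral.integral_const_mul] at h2
  linarith

/-- The pure lacunary part against sines and cosines of high frequency. -/
lemma caseB_S {q : ℝ} (hq : 0 < q) (hq1 : q ≤ 1) (hb : 0 < b) {k : ℕ}
    (n : ℕ) (hnK : 4 ^ K ∣ n) (ψ : ℝ → ℝ)
    (hψ : (ψ = fun x => Real.sin ((n : ℝ) * x)) ∨ (ψ = fun x => Real.cos ((n : ℝ) * x))) :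
    |∫ x in (0:ℝ)..(2 * π), Ph q (S b K k x) * ψ x| ≤
      4 * b * ∫ x in (0:ℝ)..(2 * π), w q b (S b K k x) := by
  have nS := nice_S b K k
  have hw0 : 0 ≤ ∫ x in (0:ℝ)..(2 * π), w q b (S b K k x) :=
    intervalIntegral.integral_nonneg (by positivity) (fun x _ => (w_pos hb).le)
  rcases hψ with h | h
  · rw [h]
    rcases Nat.eq_zero_or_pos n with h0 | h0
    · subst h0; simp; positivity
    · have hn0 : (n : ℝ) ≠ 0 := by positivity
      have hle : (4:ℝ) ^ K ≤ n := by exact_mod_cast Nat.le_of_dvd h0 hnK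
      have hsin : ∀ x : ℝ, Real.sin ((n : ℝ) * (x + π / n)) = -Real.sin ((n : ℝ) * x) := by
        intro x
        rw [show (n : ℝ) * (x + π / n) = n * x + π by field_simp, Real.sin_add_pi]
      have h2 := half_int (nS.ph hq) (Nice.sin n) (π / n) hsin (fun x => Real.abs_sin_le_one _)
        ((nS.weight hq1 hb).const_mul (4 * 2 * b)) (fun x => by
          have h3 := Ph_pert hq hq1 hb (c := 2) (by norm_num) (R := S b K k x)
            (e := S b K k (x + π / n) - S b K k x)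
            (S_diff hb k x _ 2 (sum_change_small (n : ℝ) K hle x k))
          rw [add_sub_cancel] at h3
          exact h3)
      rw [intervalIntegral.integral_const_mul] at h2
      linarith
  · rw [h]
    have n1 : Nice (fun x => Ph q (S b K k x) * Real.cos ((n : ℝ) * x)) := (nS.ph hq).mul (Nice.cos n)
    have h1 := n1.int_neg
    have h2 : ∀ x, Ph q (S b K k (-x)) * Real.cos ((n : ℝ) * (-x)) =
        -(Ph q (S b K k x) * Real.cos ((n : ℝ) * x)) := by
      intro x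
      have e1 : S b K k (-x) = -S b K k x := by
        unfold S
        simp only [mul_neg, Real.sin_neg, Finset.sum_neg_distrib]
      rw [e1, Ph_neg, mul_neg, Real.cos_neg]; ring
    simp_rw [h2] at h1
    rw [intervalIntegral.integral_neg] at h1
    have h3 : ∫ x in (0:ℝ)..(2 * π), Ph q (S b K k x) * Real.cos ((n : ℝ) * x) = 0 := by linarith
    rw [h3, abs_zero]
    positivity

/-- Comparison of the weights of `S` and `f`. -/
lemma w_S_le {q : ℝ} (hq : 0 < q) (hq1 : q ≤ 1) (hb : 0 < b) (hD : Nice Ds)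
    (hsupp : ∀ y, Ds y = 0 ∨ Ds (y + π) = 0) (k : ℕ) :
    ∫ x in (0:ℝ)..(2 * π), w q b (S b K k x) ≤ 4 * ∫ x in (0:ℝ)..(2 * π), w q b (f b K Ds k x) := by
  have nS := nice_S b K k
  have nf := nice_f b K hD k
  have nw := nf.weight hq1 hb
  set N : ℝ := ((4 ^ K : ℕ) : ℝ) with hN
  have hN0 : N ≠ 0 := by rw [hN]; positivity
  have h1 : ∀ x, w q b (S b K k x) ≤ w q b (f b K Ds k x) + 3 * w q b (f b K Ds k (x + π / N)) := by
    intro x
    have p1 : 0 < w q b (f b K Ds k x) := w_pos hb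
    have p2 : 0 < w q b (f b K Ds k (x + π / N)) := w_pos hb
    rcases hsupp (N * x) with h | h
    · have : f b K Ds k x = S b K k x := by unfold f; rw [← hN, h, add_zero]
      rw [this] at *
      linarith
    · have e1 : N * (x + π / N) = N * x + π := by field_simp
      have e2 : f b K Ds k (x + π / N) = S b K k (x + π / N) := by
        unfold f; rw [← hN, e1, h, add_zero]
      have h3 := w_comp hq hq1 hb (c := 2) (by norm_num) (R := S b K k x)
            (e := S b K k (x + π / N) - S b K k x)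
            (S_diff hb k x _ 2 (sum_change_small N K (by rw [hN]; push_cast; exact le_rfl) x k))
      rw [add_sub_cancel, ← e2] at h3
      linarith
  have h2 := Nice.mono (nS.weight hq1 hb) (nw.add ((nw.shift (π / N)).const_mul 3)) h1
  refine h2.trans (le_of_eq ?_)
  rw [intervalIntegral.integral_add (nw.ii _ _) (((nw.shift (π / N)).const_mul 3).ii _ _),
    intervalIntegral.integral_const_mul, nw.int_shift]
  ring

/-- All pairings are controlled by the weight. -/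
lemma all_up {q : ℝ} (hq : 0 < q) (hq1 : q ≤ 1) (hb : 0 < b) (hD : Nice Ds)
    (hsupp : ∀ y, Ds y = 0 ∨ Ds (y + π) = 0) (k : ℕ)
    (hI : 2 * ∫ x in (0:ℝ)..(2 * π), |Ds x| ^ q ≤ b * ∫ x in (0:ℝ)..(2 * π), w q b (f b K Ds k x))
    (n : ℕ) (ψ : ℝ → ℝ)
    (hψ : (ψ = fun x => Real.sin ((n : ℝ) * x)) ∨ (ψ = fun x => Real.cos ((n : ℝ) * x))) :
    |∫ x in (0:ℝ)..(2 * π), Ph q (f b K Ds k x) * ψ x| ≤
      17 * b * ∫ x in (0:ℝ)..(2 * π), w q b (f b K Ds k x) := by
  have nS := nice_S b K k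
  have nf := nice_f b K hD k
  have hw0 : 0 ≤ ∫ x in (0:ℝ)..(2 * π), w q b (f b K Ds k x) :=
    intervalIntegral.integral_nonneg (by positivity) (fun x _ => (w_pos hb).le)
  by_cases hcase : 4 ^ K ∣ n
  · have hψn : Nice ψ := by
      rcases hψ with h | h
      · rw [h]; exact Nice.sin n
      · rw [h]; exact Nice.cos n
    have hψ1 : ∀ x, |ψ x| ≤ 1 := by
      rcases hψ with h | h
      · rw [h]; exact fun x => Real.abs_sin_le_one _
      · rw [h]; exact fun x => Real.abs_cos_le_one _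
    have h1 := caseB_S (K := K) (k := k) hq hq1 hb n hcase ψ hψ
    have h2 := w_S_le (K := K) hq hq1 hb hD hsupp k
    have n1 : Nice (fun x => (Ph q (f b K Ds k x) - Ph q (S b K k x)) * ψ x) :=
      ((nf.ph hq).sub (nS.ph hq)).mul hψn
    have nD : Nice (fun x => 2 * |Ds (((4 ^ K : ℕ) : ℝ) * x)| ^ q) :=
      ((hD.dil (4 ^ K)).rpow hq.le).const_mul 2
    have h3 : |∫ x in (0:ℝ)..(2 * π), (Ph q (f b K Ds k x) - Ph q (S b K k x)) * ψ x| ≤
        ∫ x in (0:ℝ)..(2 * π), 2 * |Ds (((4 ^ K : ℕ) : ℝ) * x)| ^ q := by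
      apply Nice.abs_int_le n1 nD
      intro x
      rw [abs_mul]
      have h4 := Ph_holder hq hq1 (f b K Ds k x) (S b K k x)
      have e : f b K Ds k x - S b K k x = Ds (((4 ^ K : ℕ) : ℝ) * x) := by unfold f; ring
      rw [e] at h4
      nlinarith [hψ1 x, abs_nonneg (ψ x), abs_nonneg (Ph q (f b K Ds k x) - Ph q (S b K k x))]
    rw [intervalIntegral.integral_const_mul,
      (hD.rpow hq.le).int_dil (4 ^ K) (by positivity)] at h3
    have h5 : ∫ x in (0:ℝ)..(2 * π), Ph q (f b K Ds k x) * ψ x =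
        (∫ x in (0:ℝ)..(2 * π), (Ph q (f b K Ds k x) - Ph q (S b K k x)) * ψ x) +
          ∫ x in (0:ℝ)..(2 * π), Ph q (S b K k x) * ψ x := by
      rw [← intervalIntegral.integral_add (n1.ii _ _) (((nS.ph hq).mul hψn).ii _ _)]
      congr 1; funext x; ring
    rw [h5]
    refine (abs_add_le _ _).trans ?_
    nlinarith
  · have hn0 : n ≠ 0 := by
      intro h; subst h; exact hcase (dvd_zero _)
    have h1 := caseA (K := K) (k := k) hq hq1 hb hD n hn0 hcase ψ hψ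
    nlinarith

/-- The greedy condition in one dimension. -/
lemma greedy_one {q : ℝ} (hq : 0 < q) (hq1 : q ≤ 1) (hb : 0 < b) (hD : Nice Ds)
    (hsupp : ∀ y, Ds y = 0 ∨ Ds (y + π) = 0) {k : ℕ} (hk : k < K)
    (hI : 2 * ∫ x in (0:ℝ)..(2 * π), |Ds x| ^ q ≤ b * ∫ x in (0:ℝ)..(2 * π), w q b (f b K Ds k x))
    (n : ℕ) (ψ : ℝ → ℝ)
    (hψ : (ψ = fun x => Real.sin ((n : ℝ) * x)) ∨ (ψ = fun x => Real.cos ((n : ℝ) * x))) :
    q / 136 * |∫ x in (0:ℝ)..(2 * π), Ph q (f b K Ds k x) * ψ x| ≤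
      ∫ x in (0:ℝ)..(2 * π), Ph q (f b K Ds k x) * Real.sin (((4 ^ k : ℕ) : ℝ) * x) := by
  have h1 := all_up hq hq1 hb hD hsupp k hI n ψ hψ
  have h2 := A_low hq hq1 hb hD hk
  have h3 := mul_le_mul_of_nonneg_left h1 (by positivity : 0 ≤ q / 136)
  refine h3.trans (le_trans (le_of_eq ?_) h2)
  ring

/-- Lower bound for the weight integral. -/
lemma w_int_low {q : ℝ} (hq1 : q < 1) (hb : 0 < b) {F : ℝ → ℝ} (hF : Nice F) {s₀ : ℝ} (hs₀ : 0 < s₀)
    (h : ∫ x in (0:ℝ)..(2 * π), (|F x| + b) ≤ 2 * π * s₀) :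
    2 * π * s₀ ^ (q - 1) ≤ ∫ x in (0:ℝ)..(2 * π), w q b (F x) := by
  have n1 : Nice (fun x => |F x| + b) := hF.abs.add (Nice.const b)
  have n2 : Nice (fun x => s₀ ^ (q - 1) + (q - 1) * s₀ ^ (q - 2) * ((|F x| + b) - s₀)) :=
    (Nice.const _).add ((n1.sub (Nice.const s₀)).const_mul _)
  have h1 := Nice.mono n2 (hF.weight hq1.le hb) (fun x => w_tangent hq1
    (by have := abs_nonneg (F x); linarith : 0 < |F x| + b) hs₀)
  refine le_trans ?_ h1
  rw [intervalIntegral.integral_add ((Nice.const _).ii _ _) (((n1.sub (Nice.const s₀)).const_mul _).ii _ _),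
    int_const', intervalIntegral.integral_const_mul,
    intervalIntegral.integral_sub (n1.ii _ _) ((Nice.const s₀).ii _ _), int_const']
  have h2 : 0 < s₀ ^ (q - 2) := by positivity
  have h3 : 0 ≤ (q - 1) * s₀ ^ (q - 2) * ((∫ x in (0:ℝ)..(2 * π), (|F x| + b)) - 2 * π * s₀) := by
    apply mul_nonneg_of_nonpos_of_nonpos
    · nlinarith
    · linarith
  linarith

end Pool.Agent.Helper415.TN
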