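import Mathlib
import Pool.Agent.Helper415.TN3

set_option autoImplicit false

namespace Pool.Agent.Helper415.TN

open MeasureTheory intervalIntegral Real

/-! ### Estimates for the lacunary part -/

lemma sin_orth {i j : ℕ} (hij : i < j) :
    ∫ x in (0:ℝ)..(2 * π), Real.sin (((4 ^ i : ℕ) : ℝ) * x) * Real.sin (((4 ^ j : ℕ) : ℝ) * x) = 0 := by
  have hn := (Nice.sin (4 ^ i)).mul (Nice.sin (4 ^ j))
  have h1 := hn.int_shift (π / ((4 ^ i : ℕ) : ℝ))
  have h2 : ∀ x, Real.sin (((4 ^ i : ℕ) : ℝ) * (x + π / ((4 ^ i : ℕ) : ℝ))) *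
      Real.sin (((4 ^ j : ℕ) : ℝ) * (x + π / ((4 ^ i : ℕ) : ℝ))) =
      -(Real.sin (((4 ^ i : ℕ) : ℝ) * x) * Real.sin (((4 ^ j : ℕ) : ℝ) * x)) := by
    intro x
    obtain ⟨z, hz⟩ := pow_mul_pi hij
    rw [sin_shift_zero z hz]
    have : ((4 ^ i : ℕ) : ℝ) * (x + π / ((4 ^ i : ℕ) : ℝ)) = ((4 ^ i : ℕ) : ℝ) * x + π := by
      have : ((4 ^ i : ℕ) : ℝ) ≠ 0 := by positivity
      field_simp
    rw [this, Real.sin_add_pi]; ring
  simp_rw [h2] at h1
  rw [intervalIntegral.integral_neg] at h1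
  linarith

lemma sum_sq_le (K : ℕ) (k : ℕ) :
    ∫ x in (0:ℝ)..(2 * π), (∑ i ∈ Finset.Ico k K, Real.sin (((4 ^ i : ℕ) : ℝ) * x)) ^ 2 ≤
      2 * π * K := by
  have h1 : ∀ x : ℝ, (∑ i ∈ Finset.Ico k K, Real.sin (((4 ^ i : ℕ) : ℝ) * x)) ^ 2 =
      ∑ i ∈ Finset.Ico k K, ∑ j ∈ Finset.Ico k K,
        Real.sin (((4 ^ i : ℕ) : ℝ) * x) * Real.sin (((4 ^ j : ℕ) : ℝ) * x) := by
    intro x; rw [sq, Finset.sum_mul_sum]
  simp_rw [h1]
  rw [intervalIntegral.integral_finsetSum (fun i _ => by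
    have : Nice (fun x => Real.sin (((4 ^ i : ℕ) : ℝ) * x) *
      ∑ j ∈ Finset.Ico k K, Real.sin (((4 ^ j : ℕ) : ℝ) * x)) := (Nice.sin _).mul (nice_sum _)
    have h := this.ii 0 (2 * π)
    refine h.congr (fun x _ => ?_)
    rw [Finset.mul_sum])]
  have h2 : ∀ i ∈ Finset.Ico k K, ∫ x in (0:ℝ)..(2 * π), ∑ j ∈ Finset.Ico k K,
      Real.sin (((4 ^ i : ℕ) : ℝ) * x) * Real.sin (((4 ^ j : ℕ) : ℝ) * x) ≤ 2 * π := by
    intro i hi
    rw [intervalIntegral.integral_finsetSum (fun j _ => ((Nice.sin _).mul (Nice.sin _)).ii _ _)]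
    rw [Finset.sum_eq_single i]
    · have h3 : ∫ x in (0:ℝ)..(2 * π), Real.sin (((4 ^ i : ℕ) : ℝ) * x) * Real.sin (((4 ^ i : ℕ) : ℝ) * x)
          ≤ ∫ x in (0:ℝ)..(2 * π), (1:ℝ) := by
        apply Nice.mono ((Nice.sin _).mul (Nice.sin _)) (Nice.const 1)
        intro x
        have := Real.abs_sin_le_one (((4 ^ i : ℕ) : ℝ) * x)
        rw [← sq, ← sq_abs]
        nlinarith [abs_nonneg (Real.sin (((4 ^ i : ℕ) : ℝ) * x))]
      rw [int_const'] at h3
      linarith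
    · intro j _ hji
      rcases lt_or_gt_of_ne hji with h | h
      · have := sin_orth h
        simp_rw [mul_comm (Real.sin (((4 ^ i : ℕ) : ℝ) * _))]
        exact this
      · exact sin_orth h
    · intro h; exact absurd hi h
  refine (Finset.sum_le_sum h2).trans ?_
  rw [Finset.sum_const, Nat.card_Ico, nsmul_eq_mul]
  have : ((K - k : ℕ) : ℝ) ≤ K := by exact_mod_cast Nat.sub_le K k
  nlinarith [Real.pi_pos]

variable {b : ℝ} {K : ℕ} {Ds : ℝ → ℝ}

lemma S_sq_le {σ : ℝ} (hσb : b ^ 2 * K = σ ^ 2) (k : ℕ) :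
    ∫ x in (0:ℝ)..(2 * π), S b K k x ^ 2 ≤ 2 * π * σ ^ 2 := by
  have h1 : ∀ x, S b K k x ^ 2 = b ^ 2 * (∑ i ∈ Finset.Ico k K, Real.sin (((4 ^ i : ℕ) : ℝ) * x)) ^ 2 := by
    intro x; unfold S; ring
  simp_rw [h1]
  rw [intervalIntegral.integral_const_mul]
  have := mul_le_mul_of_nonneg_left (sum_sq_le K k) (sq_nonneg b)
  have e : b ^ 2 * (2 * π * K) = 2 * π * σ ^ 2 := by rw [← hσb]; ring
  linarith

lemma nice_sq {F : ℝ → ℝ} (hF : Nice F) : Nice (fun x => F x ^ 2) := by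
  have := hF.mul hF
  simp only [sq]; exact this

lemma S_abs_le {σ : ℝ} (hσ : 0 < σ) (hσb : b ^ 2 * K = σ ^ 2) (k : ℕ) :
    ∫ x in (0:ℝ)..(2 * π), |S b K k x| ≤ 2 * π * σ := by
  have nS := nice_S b K k
  have h1 : ∫ x in (0:ℝ)..(2 * π), |S b K k x| ≤
      ∫ x in (0:ℝ)..(2 * π), (1 / (2 * σ) * S b K k x ^ 2 + σ / 2) := by
    apply Nice.mono nS.abs (((nice_sq nS).const_mul _).add (Nice.const _))
    intro x
    have h2 : |S b K k x| ^ 2 = S b K k x ^ 2 := sq_abs _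
    have h3 : 1 / (2 * σ) * S b K k x ^ 2 + σ / 2 - |S b K k x| = (|S b K k x| - σ) ^ 2 / (2 * σ) := by
      rw [← h2]; field_simp; ring
    have h4 : 0 ≤ (|S b K k x| - σ) ^ 2 / (2 * σ) := by positivity
    linarith
  refine h1.trans ?_
  rw [intervalIntegral.integral_add (((nice_sq nS).const_mul _).ii _ _) ((Nice.const _).ii _ _),
    intervalIntegral.integral_const_mul, int_const']
  have h5 := mul_le_mul_of_nonneg_left (S_sq_le (b := b) (K := K) hσb k) (by positivity : 0 ≤ 1 / (2 * σ))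
  have h6 : 1 / (2 * σ) * (2 * π * σ ^ 2) = π * σ := by field_simp
  linarith

lemma S_pow_le {σ p : ℝ} (hσ : 0 < σ) (hp : 0 < p) (hp2 : p ≤ 2) (hσb : b ^ 2 * K = σ ^ 2) (k : ℕ) :
    ∫ x in (0:ℝ)..(2 * π), |S b K k x| ^ p ≤ 4 * π * σ ^ p := by
  have nS := nice_S b K k
  have hσp : 0 < σ ^ p := by positivity
  have h1 : ∫ x in (0:ℝ)..(2 * π), |S b K k x| ^ p ≤
      ∫ x in (0:ℝ)..(2 * π), (σ ^ p + σ ^ p / σ ^ 2 * S b K k x ^ 2) := by
    apply Nice.mono (nS.rpow hp.le) ((Nice.const _).add ((nice_sq nS).const_mul _))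
    intro x
    have h2 : (|S b K k x| / σ) ^ p ≤ 1 + (|S b K k x| / σ) ^ 2 := by
      have h0 : 0 ≤ |S b K k x| / σ := by positivity
      rcases le_total (|S b K k x| / σ) 1 with h | h
      · have := Real.rpow_le_one h0 h hp.le
        nlinarith [sq_nonneg (|S b K k x| / σ)]
      · have h3 := Real.rpow_le_rpow_of_exponent_le h hp2
        rw [Real.rpow_two] at h3
        linarith
    rw [Real.div_rpow (abs_nonneg _) hσ.le, div_pow, sq_abs, div_le_iff₀ hσp] at h2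
    refine h2.trans (le_of_eq ?_)
    field_simp
  refine h1.trans ?_
  rw [intervalIntegral.integral_add ((Nice.const _).ii _ _) (((nice_sq nS).const_mul _).ii _ _),
    intervalIntegral.integral_const_mul, int_const']
  have h5 := mul_le_mul_of_nonneg_left (S_sq_le (b := b) (K := K) hσb k) (by positivity : 0 ≤ σ ^ p / σ ^ 2)
  have h6 : σ ^ p / σ ^ 2 * (2 * π * σ ^ 2) = 2 * π * σ ^ p := by field_simp
  linarith

/-- The hypothesis of `greedy_one` from scalar conditions. -/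
lemma hI_of {q σ : ℝ} (hq : 0 < q) (hq1 : q < 1) (hb : 0 < b) (hσ : 0 < σ) (hK : 1 ≤ K)
    (hbσ : b * Real.sqrt K = σ) (hD : Nice Ds)
    (hD1 : ∫ x in (0:ℝ)..(2 * π), |Ds x| ≤ 2 * π * σ)
    (hDq : Real.sqrt K * ∫ x in (0:ℝ)..(2 * π), |Ds x| ^ q ≤ σ ^ q) (k : ℕ) :
    2 * ∫ x in (0:ℝ)..(2 * π), |Ds x| ^ q ≤ b * ∫ x in (0:ℝ)..(2 * π), w q b (f b K Ds k x) := by
  have hK' : (1:ℝ) ≤ K := by exact_mod_cast hK
  have hsK : 1 ≤ Real.sqrt K := by rw [Real.one_le_sqrt]; exact hK'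
  have hsK0 : 0 < Real.sqrt K := by linarith
  have hσb : b ^ 2 * K = σ ^ 2 := by
    rw [← hbσ, mul_pow, Real.sq_sqrt (by positivity)]
  have hbσ' : b ≤ σ := by rw [← hbσ]; nlinarith
  have nS := nice_S b K k
  have nD : Nice (fun x => Ds (((4 ^ K : ℕ) : ℝ) * x)) := hD.dil (4 ^ K)
  have nf := nice_f b K hD k
  have h1 : ∫ x in (0:ℝ)..(2 * π), (|f b K Ds k x| + b) ≤ 2 * π * (3 * σ) := by
    have h2 : ∫ x in (0:ℝ)..(2 * π), (|f b K Ds k x| + b) ≤
        ∫ x in (0:ℝ)..(2 * π), ((|S b K k x| + |Ds (((4 ^ K : ℕ) : ℝ) * x)|) + b) := by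
      apply Nice.mono (nf.abs.add (Nice.const b)) ((nS.abs.add nD.abs).add (Nice.const b))
      intro x
      have : |f b K Ds k x| ≤ |S b K k x| + |Ds (((4 ^ K : ℕ) : ℝ) * x)| := abs_add_le _ _
      linarith
    refine h2.trans ?_
    rw [intervalIntegral.integral_add ((nS.abs.add nD.abs).ii _ _) ((Nice.const b).ii _ _),
      intervalIntegral.integral_add (nS.abs.ii _ _) (nD.abs.ii _ _), int_const',
      hD.abs.int_dil (4 ^ K) (by positivity)]
    have h3 := S_abs_le (b := b) (K := K) hσ hσb k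
    have h4 : 2 * π * b ≤ 2 * π * σ := mul_le_mul_of_nonneg_left hbσ' (by positivity)
    linarith
  have h2 := w_int_low hq1 hb nf (by positivity : 0 < 3 * σ) h1
  have h3 := mul_le_mul_of_nonneg_left h2 hb.le
  refine le_trans ?_ h3
  have h4 : (3 * σ) ^ (q - 1) = 3 ^ (q - 1) * σ ^ (q - 1) := Real.mul_rpow (by norm_num) hσ.le
  have h5 : (3:ℝ) ^ (q - 1) ≥ 1 / 3 := by
    rw [show (1:ℝ) / 3 = 3 ^ (-1 : ℝ) by rw [Real.rpow_neg_one]; norm_num]
    exact Real.rpow_le_rpow_of_exponent_le (by norm_num) (by linarith)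
  have h6 : σ ^ (q - 1) = σ ^ q / σ := Real.rpow_sub_one hσ.ne' q
  have h7 : b = σ / Real.sqrt K := by rw [← hbσ]; field_simp
  have hσq : 0 < σ ^ q := by positivity
  have h8 : ∫ x in (0:ℝ)..(2 * π), |Ds x| ^ q ≤ σ ^ q / Real.sqrt K := by
    rw [le_div_iff₀ hsK0, mul_comm]; exact hDq
  have h9 : b * (2 * π * (3 * σ) ^ (q - 1)) ≥ 2 * (σ ^ q / Real.sqrt K) := by
    rw [h4, h6]
    have e1 : b * (2 * π * (3 ^ (q - 1) * (σ ^ q / σ))) =
        (2 * π * 3 ^ (q - 1)) * (σ ^ q / Real.sqrt K) := by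
      rw [h7]; field_simp
    rw [e1]
    apply mul_le_mul_of_nonneg_right _ (by positivity)
    nlinarith [Real.pi_gt_three]
  linarith

/-! ### The Fejer kernel -/

/-- Dirichlet kernel. -/
noncomputable def Dir (j : ℕ) (y : ℝ) : ℝ := 1 + 2 * ∑ n ∈ Finset.range j, Real.cos (((n + 1 : ℕ) : ℝ) * y)

/-- `M` times the Fejer kernel. -/
noncomputable def TT (M : ℕ) (y : ℝ) : ℝ := ∑ j ∈ Finset.range M, Dir j y

lemma Dir_mul (j : ℕ) (y : ℝ) :
    Dir j y * (1 - Real.cos y) = Real.cos ((j : ℝ) * y) - Real.cos (((j + 1 : ℕ) : ℝ) * y) := by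
  induction j with
  | zero => simp [Dir]
  | succ j ih =>
    have h1 : Dir (j + 1) y = Dir j y + 2 * Real.cos (((j + 1 : ℕ) : ℝ) * y) := by
      unfold Dir; rw [Finset.sum_range_succ]; ring
    rw [h1, add_mul, ih]
    have h2 : Real.cos (((j + 1 + 1 : ℕ) : ℝ) * y) =
        2 * Real.cos (((j + 1 : ℕ) : ℝ) * y) * Real.cos y - Real.cos ((j : ℝ) * y) := by
      have e1 : ((j + 1 + 1 : ℕ) : ℝ) * y = ((j + 1 : ℕ) : ℝ) * y + y := by push_cast; ring
      have e2 : ((j : ℕ) : ℝ) * y = ((j + 1 : ℕ) : ℝ) * y - y := by push_cast; ring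
      rw [e1, e2, Real.cos_add, Real.cos_sub]; ring
    rw [h2]; ring

lemma TT_mul (M : ℕ) (y : ℝ) : TT M y * (1 - Real.cos y) = 1 - Real.cos ((M : ℝ) * y) := by
  induction M with
  | zero => simp [TT]
  | succ M ih =>
    have h1 : TT (M + 1) y = TT M y + Dir M y := by unfold TT; rw [Finset.sum_range_succ]
    rw [h1, add_mul, ih, Dir_mul]; ring

lemma Dir_abs (j : ℕ) (y : ℝ) : |Dir j y| ≤ 1 + 2 * j := by
  unfold Dir
  have h1 : |∑ n ∈ Finset.range j, Real.cos (((n + 1 : ℕ) : ℝ) * y)| ≤ j := by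
    refine (Finset.abs_sum_le_sum_abs _ _).trans ?_
    calc ∑ n ∈ Finset.range j, |Real.cos (((n + 1 : ℕ) : ℝ) * y)| ≤ ∑ _n ∈ Finset.range j, (1:ℝ) :=
          Finset.sum_le_sum (fun n _ => Real.abs_cos_le_one _)
      _ = j := by simp
  calc |1 + 2 * ∑ n ∈ Finset.range j, Real.cos (((n + 1 : ℕ) : ℝ) * y)|
      ≤ |(1:ℝ)| + |2 * ∑ n ∈ Finset.range j, Real.cos (((n + 1 : ℕ) : ℝ) * y)| := abs_add_le _ _
    _ = 1 + 2 * |∑ n ∈ Finset.range j, Real.cos (((n + 1 : ℕ) : ℝ) * y)| := by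
        rw [abs_one, abs_mul, abs_two]
    _ ≤ 1 + 2 * j := by linarith

lemma TT_abs (M : ℕ) (y : ℝ) : |TT M y| ≤ (M : ℝ) ^ 2 := by
  unfold TT
  refine (Finset.abs_sum_le_sum_abs _ _).trans ?_
  have h1 : ∑ j ∈ Finset.range M, |Dir j y| ≤ ∑ j ∈ Finset.range M, (1 + 2 * (j : ℝ)) :=
    Finset.sum_le_sum (fun j _ => Dir_abs j y)
  refine h1.trans (le_of_eq ?_)
  induction M with
  | zero => simp
  | succ M ih =>
    rw [Finset.sum_range_succ]
    have := ih (Finset.sum_le_sum (fun j _ => Dir_abs j y))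
    rw [this]; push_cast; ring

lemma cos_eq_one_of {y : ℝ} (h : Real.cos y = 1) (n : ℕ) : Real.cos ((n : ℝ) * y) = 1 := by
  obtain ⟨k, hk⟩ := (Real.cos_eq_one_iff y).mp h
  rw [← hk]
  have : (n : ℝ) * ((k : ℝ) * (2 * π)) = ((n * k : ℤ) : ℝ) * (2 * π) := by push_cast; ring
  rw [this]
  exact Real.cos_int_mul_two_pi _

lemma TT_nonneg (M : ℕ) (y : ℝ) : 0 ≤ TT M y := by
  rcases eq_or_ne (Real.cos y) 1 with h | h
  · unfold TT
    apply Finset.sum_nonneg
    intro j _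
    unfold Dir
    have : ∀ n ∈ Finset.range j, Real.cos (((n + 1 : ℕ) : ℝ) * y) = 1 := fun n _ => cos_eq_one_of h _
    rw [Finset.sum_congr rfl this]
    simp; positivity
  · have h1 : 0 < 1 - Real.cos y := by
      have := Real.cos_le_one y
      exact sub_pos.mpr (lt_of_le_of_ne this h)
    have h2 := TT_mul M y
    have h3 : 0 ≤ TT M y * (1 - Real.cos y) := by
      rw [h2]; linarith [Real.cos_le_one ((M : ℝ) * y)]
    exact nonneg_of_mul_nonneg_left h3 h1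

lemma nice_Dir (j : ℕ) : Nice (Dir j) := by
  have h : Nice (fun y => ∑ n ∈ Finset.range j, Real.cos (((n + 1 : ℕ) : ℝ) * y)) := by
    induction j with
    | zero => simpa using Nice.const 0
    | succ j ih =>
      simp_rw [Finset.sum_range_succ]
      exact ih.add (Nice.cos _)
  exact (Nice.const 1).add (h.const_mul 2)

lemma nice_TT (M : ℕ) : Nice (TT M) := by
  induction M with
  | zero =>
    have : TT 0 = fun _ => 0 := by funext y; simp [TT]
    rw [this]; exact Nice.const 0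
  | succ M ih =>
    have : TT (M + 1) = fun y => TT M y + Dir M y := by
      funext y; unfold TT; rw [Finset.sum_range_succ]
    rw [this]; exact ih.add (nice_Dir M)

lemma int_cos_zero (n : ℕ) (hn : 0 < n) : ∫ x in (0:ℝ)..(2 * π), Real.cos ((n : ℝ) * x) = 0 := by
  have h1 := (Nice.cos n).int_shift (π / n)
  have hn' : (n : ℝ) ≠ 0 := by positivity
  have h2 : ∀ x : ℝ, Real.cos ((n : ℝ) * (x + π / n)) = -Real.cos ((n : ℝ) * x) := by
    intro x
    rw [show (n : ℝ) * (x + π / n) = n * x + π by field_simp, Real.cos_add_pi]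
  simp_rw [h2] at h1
  rw [intervalIntegral.integral_neg] at h1
  linarith

lemma int_Dir (j : ℕ) : ∫ x in (0:ℝ)..(2 * π), Dir j x = 2 * π := by
  induction j with
  | zero =>
    have : ∀ x, Dir 0 x = 1 := fun x => by simp [Dir]
    simp_rw [this]; rw [int_const']; ring
  | succ j ih =>
    have h1 : ∀ x, Dir (j + 1) x = Dir j x + 2 * Real.cos (((j + 1 : ℕ) : ℝ) * x) := by
      intro x; unfold Dir; rw [Finset.sum_range_succ]; ring
    simp_rw [h1]
    rw [intervalIntegral.integral_add ((nice_Dir j).ii _ _) (((Nice.cos _).const_mul 2).ii _ _),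
      ih, intervalIntegral.integral_const_mul, int_cos_zero _ (by omega)]
    ring

lemma int_TT (M : ℕ) : ∫ x in (0:ℝ)..(2 * π), TT M x = 2 * π * M := by
  induction M with
  | zero =>
    have : ∀ x, TT 0 x = 0 := fun x => by simp [TT]
    simp_rw [this]; simp
  | succ M ih =>
    have h1 : ∀ x, TT (M + 1) x = TT M x + Dir M x := by
      intro x; unfold TT; rw [Finset.sum_range_succ]
    simp_rw [h1]
    rw [intervalIntegral.integral_add ((nice_TT M).ii _ _) ((nice_Dir M).ii _ _), ih, int_Dir]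
    push_cast; ring

/-- `TT M` is a cosine polynomial with `M` terms. -/
lemma TT_coeff (M : ℕ) : ∃ a : ℕ → ℝ, ∀ y, TT M y = ∑ n ∈ Finset.range M, a n * Real.cos ((n : ℝ) * y) := by
  induction M with
  | zero => exact ⟨0, fun y => by simp [TT]⟩
  | succ M ih =>
    obtain ⟨a, ha⟩ := ih
    refine ⟨fun n => (if n < M then a n else 0) + (if n = 0 then 1 else 2), fun y => ?_⟩
    have h1 : TT (M + 1) y = TT M y + Dir M y := by unfold TT; rw [Finset.sum_range_succ]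
    rw [h1, ha]
    have h2 : Dir M y = ∑ n ∈ Finset.range (M + 1), (if n = 0 then (1:ℝ) else 2) * Real.cos ((n : ℝ) * y) := by
      rw [Finset.sum_range_succ']
      unfold Dir
      rw [Finset.mul_sum]
      simp only [Nat.add_eq_zero_iff, one_ne_zero, and_false, if_false, if_true, Nat.cast_zero, zero_mul,
        Real.cos_zero, mul_one]
      ring
    have h3 : ∑ n ∈ Finset.range M, a n * Real.cos ((n : ℝ) * y) =
        ∑ n ∈ Finset.range (M + 1), (if n < M then a n else 0) * Real.cos ((n : ℝ) * y) := by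
      rw [Finset.sum_range_succ, if_neg (lt_irrefl M), zero_mul, add_zero]
      apply Finset.sum_congr rfl
      intro n hn
      rw [if_pos (Finset.mem_range.mp hn)]
    rw [h2, h3, ← Finset.sum_add_distrib]
    apply Finset.sum_congr rfl
    intro n _
    ring

end Pool.Agent.Helper415.TN
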