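import Mathlib
import Pool.Agent.Helper415.TN4

set_option autoImplicit false

namespace Pool.Agent.Helper415.TN

open MeasureTheory intervalIntegral Real

/-- Normalised Fejer kernel. -/
noncomputable def Fej (M : ℕ) (y : ℝ) : ℝ := TT M y / M

open Classical in
/-- Truncated Fejer kernel. -/
noncomputable def DD (M : ℕ) (c : ℝ) (y : ℝ) : ℝ := if 1 - Real.cos y ≤ c then TT M y / M else 0

lemma nice_Fej (M : ℕ) : Nice (Fej M) := by
  have := (nice_TT M).const_mul ((M : ℝ)⁻¹)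
  have e : Fej M = fun y => (M : ℝ)⁻¹ * TT M y := by funext y; unfold Fej; rw [div_eq_inv_mul]
  rw [e]; exact this

lemma Fej_nonneg (M : ℕ) (y : ℝ) : 0 ≤ Fej M y := div_nonneg (TT_nonneg M y) (Nat.cast_nonneg M)

lemma Fej_le (M : ℕ) (hM : 1 ≤ M) (y : ℝ) : Fej M y ≤ M := by
  have hM' : (0:ℝ) < M := by exact_mod_cast hM
  unfold Fej
  rw [div_le_iff₀ hM']
  have := (le_abs_self _).trans (TT_abs M y)
  nlinarith

lemma DD_le (M : ℕ) (c y : ℝ) : 0 ≤ DD M c y ∧ DD M c y ≤ Fej M y := by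
  unfold DD
  split_ifs
  · exact ⟨Fej_nonneg M y, le_rfl⟩
  · exact ⟨le_rfl, Fej_nonneg M y⟩

lemma nice_DD (M : ℕ) (c : ℝ) : Nice (DD M c) := by
  classical
  have hF := nice_Fej M
  obtain ⟨C, hC⟩ := hF.bdd
  refine ⟨?_, fun x => ?_, C, fun x => ?_⟩
  · unfold DD
    apply Measurable.ite
    · apply measurableSet_le
      · fun_prop
      · exact measurable_const
    · exact hF.meas
    · exact measurable_const
  · unfold DD
    rw [Real.cos_add_two_pi, (nice_TT M).per x]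
  · have h1 := DD_le M c x
    rw [abs_of_nonneg h1.1]
    exact h1.2.trans ((le_abs_self _).trans (hC x))

lemma DD_supp (M : ℕ) {c : ℝ} (hc : c < 1) (y : ℝ) : DD M c y = 0 ∨ DD M c (y + π) = 0 := by
  unfold DD
  by_cases h : 1 - Real.cos y ≤ c
  · right
    rw [if_neg]
    rw [Real.cos_add_pi]
    intro h2; linarith
  · left; rw [if_neg h]

lemma int_DD (M : ℕ) (hM : 1 ≤ M) (c : ℝ) : ∫ x in (0:ℝ)..(2 * π), |DD M c x| ≤ 2 * π := by
  have hM' : (0:ℝ) < M := by exact_mod_cast hM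
  have h1 := Nice.mono (nice_DD M c).abs (nice_Fej M) (fun x => by
    have := DD_le M c x
    rw [abs_of_nonneg this.1]; exact this.2)
  refine h1.trans (le_of_eq ?_)
  have : ∀ x, Fej M x = (M : ℝ)⁻¹ * TT M x := fun x => by unfold Fej; rw [div_eq_inv_mul]
  simp_rw [this]
  rw [intervalIntegral.integral_const_mul, int_TT]
  field_simp

lemma int_DD_q (M : ℕ) (hM : 1 ≤ M) {c q : ℝ} (hc : 0 < c) (hq : 0 < q) :
    ∫ x in (0:ℝ)..(2 * π), |DD M c x| ^ q ≤ (M : ℝ) ^ q * (2 * (π * Real.sqrt (c / 2))) := by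
  classical
  have hM' : (0:ℝ) < M := by exact_mod_cast hM
  have nD := (nice_DD M c).rpow hq.le
  set yc := π * Real.sqrt (c / 2) with hyc
  have hyc0 : 0 ≤ yc := by positivity
  have hper := nD.per.intervalIntegral_add_eq (-π) 0
  rw [zero_add, show -π + 2 * π = π by ring] at hper
  rw [← hper]
  set g : ℝ → ℝ := (Set.Icc (-yc) yc).indicator (fun _ => (M : ℝ) ^ q) with hg
  have hgint : Integrable g volume := by
    rw [hg, integrable_indicator_iff measurableSet_Icc]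
    exact integrableOn_const (by simp) 
  have h1 : ∫ x in (-π)..π, |DD M c x| ^ q ≤ ∫ x in (-π)..π, g x := by
    apply intervalIntegral.integral_mono_on (by linarith [Real.pi_pos]) (nD.ii _ _) hgint.intervalIntegrable
    intro x hx
    have hxabs : |x| ≤ π := abs_le.mpr ⟨hx.1, hx.2⟩
    by_cases h : 1 - Real.cos x ≤ c
    · have h2 := Real.cos_le_one_sub_mul_cos_sq hxabs
      have h3 : 2 / π ^ 2 * x ^ 2 ≤ c := by linarith
      have h4 : x ^ 2 ≤ yc ^ 2 := by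
        rw [hyc, mul_pow, Real.sq_sqrt (by positivity)]
        have hpi : 0 < π ^ 2 := by positivity
        have h5 : 2 / π ^ 2 * x ^ 2 = 2 * x ^ 2 / π ^ 2 := by ring
        rw [h5, div_le_iff₀ hpi] at h3
        nlinarith
      have h6 : |x| ≤ yc := abs_le_of_sq_le_sq h4 hyc0
      have hxm : x ∈ Set.Icc (-yc) yc := abs_le.mp h6
      rw [hg, Set.indicator_of_mem hxm]
      have h7 := DD_le M c x
      rw [abs_of_nonneg h7.1]
      exact Real.rpow_le_rpow h7.1 (h7.2.trans (Fej_le M hM x)) hq.le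
    · have h2 : DD M c x = 0 := by unfold DD; rw [if_neg h]
      rw [h2, abs_zero, Real.zero_rpow hq.ne']
      exact Set.indicator_nonneg (fun _ _ => by positivity) x
  refine h1.trans ?_
  rw [intervalIntegral.integral_of_le (by linarith [Real.pi_pos])]
  have h2 : ∫ x in Set.Ioc (-π) π, g x ≤ ∫ x, g x :=
    setIntegral_le_integral hgint (Filter.Eventually.of_forall
      (fun x => Set.indicator_nonneg (fun _ _ => by positivity) x))
  refine h2.trans (le_of_eq ?_)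
  rw [hg, MeasureTheory.integral_indicator measurableSet_Icc, setIntegral_const, Measure.real, Real.volume_Icc,
    ENNReal.toReal_ofReal (by linarith), smul_eq_mul]
  ring

lemma int_noise (M : ℕ) (hM : 1 ≤ M) {c q : ℝ} (hc : 0 < c) (hq : 0 < q) :
    ∫ x in (0:ℝ)..(2 * π), |Fej M x - DD M c x| ^ (1 + q) ≤ (2 / (M * c)) ^ q * (2 * π) := by
  have hM' : (0:ℝ) < M := by exact_mod_cast hM
  have hM0 : (M : ℝ) ≠ 0 := hM'.ne'
  have n1 : Nice (fun x => |Fej M x - DD M c x| ^ (1 + q)) :=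
    ((nice_Fej M).sub (nice_DD M c)).rpow (by linarith)
  have h1 := Nice.mono n1 ((nice_Fej M).const_mul ((2 / (M * c)) ^ q)) (fun x => by
    by_cases h : 1 - Real.cos x ≤ c
    · have : Fej M x - DD M c x = 0 := by unfold Fej DD; rw [if_pos h, sub_self]
      rw [this, abs_zero, Real.zero_rpow (by linarith)]
      exact mul_nonneg (by positivity) (Fej_nonneg M x)
    · push Not at h
      have e : Fej M x - DD M c x = Fej M x := by
        unfold DD; rw [if_neg (not_le.mpr h), sub_zero]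
      have hF := Fej_nonneg M x
      rw [e, abs_of_nonneg hF]
      have h2 : Fej M x ≤ 2 / (M * c) := by
        rw [le_div_iff₀ (by positivity)]
        have h3 := TT_mul M x
        have h4 : Fej M x * (M * (1 - Real.cos x)) = 1 - Real.cos ((M : ℝ) * x) := by
          rw [← h3]; unfold Fej; field_simp
        have h5 := Real.neg_one_le_cos ((M : ℝ) * x)
        have h6 : Fej M x * (M * c) ≤ Fej M x * (M * (1 - Real.cos x)) :=
          mul_le_mul_of_nonneg_left (mul_le_mul_of_nonneg_left h.le hM'.le) hF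
        linarith
      rcases hF.eq_or_lt with h0 | h0
      · rw [← h0, Real.zero_rpow (by linarith)]; simp
      · rw [Real.rpow_add h0, Real.rpow_one, mul_comm]
        exact mul_le_mul_of_nonneg_right (Real.rpow_le_rpow hF h2 hq.le) hF)
  refine h1.trans (le_of_eq ?_)
  rw [intervalIntegral.integral_const_mul]
  congr 1
  have : ∀ x, Fej M x = (M : ℝ)⁻¹ * TT M x := fun x => by unfold Fej; rw [div_eq_inv_mul]
  simp_rw [this]
  rw [intervalIntegral.integral_const_mul, int_TT]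
  field_simp

lemma int_DD_low (M : ℕ) (hM : 1 ≤ M) {c q : ℝ} (hc : π ^ 2 / (2 * (M : ℝ) ^ 2) ≤ c) (hq : 0 < q)
    (hq1 : q ≤ 1) :
    (M : ℝ) ^ q / 3 ≤ ∫ x in (0:ℝ)..(2 * π), |DD M c x| ^ (1 + q) := by
  have hM' : (0:ℝ) < M := by exact_mod_cast hM
  have hM1 : (1:ℝ) ≤ M := by exact_mod_cast hM
  have hM0 : (M : ℝ) ≠ 0 := hM'.ne'
  have hpi := Real.pi_pos
  have nD := (nice_DD M c).rpow (by linarith : 0 ≤ 1 + q)
  have hle : π / M ≤ 2 * π := by
    rw [div_le_iff₀ hM']; nlinarith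
  have h1 : ∫ x in (0:ℝ)..(π / M), |DD M c x| ^ (1 + q) ≤ ∫ x in (0:ℝ)..(2 * π), |DD M c x| ^ (1 + q) := by
    apply intervalIntegral.integral_mono_interval le_rfl (by positivity) hle
    · exact Filter.Eventually.of_forall (fun x => by positivity)
    · exact nD.ii _ _
  refine le_trans ?_ h1
  have h2 : ∫ _x in (0:ℝ)..(π / M), (4 * M / π ^ 2 : ℝ) ^ (1 + q) ≤
      ∫ x in (0:ℝ)..(π / M), |DD M c x| ^ (1 + q) := by
    apply intervalIntegral.integral_mono_on_of_le_Ioo (by positivity) intervalIntegrable_const (nD.ii _ _)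
    intro x hx
    have hx0 : 0 < x := hx.1
    have hx1 : x * M ≤ π := by
      have := hx.2.le
      rwa [le_div_iff₀ hM'] at this
    have h3 : 1 - Real.cos x ≤ x ^ 2 / 2 := by linarith [Real.one_sub_sq_div_two_le_cos (x := x)]
    have h4 : 1 - Real.cos x ≤ c := by
      refine h3.trans (le_trans ?_ hc)
      rw [div_le_div_iff₀ (by norm_num) (by positivity)]
      have : (x * M) ^ 2 ≤ π ^ 2 := pow_le_pow_left₀ (by positivity) hx1 2
      nlinarith
    have h5 := Real.cos_le_one_sub_mul_cos_sq (x := (M : ℝ) * x) (by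
      rw [abs_of_pos (by positivity)]; linarith)
    have h6 := TT_mul M x
    have h7 := TT_nonneg M x
    have h8 : TT M x * (1 - Real.cos x) ≤ TT M x * (x ^ 2 / 2) := mul_le_mul_of_nonneg_left h3 h7
    have h9 : 4 * (M : ℝ) ^ 2 / π ^ 2 ≤ TT M x := by
      have h10 : 2 / π ^ 2 * ((M : ℝ) * x) ^ 2 ≤ TT M x * (x ^ 2 / 2) := by linarith
      have h11 : 2 / π ^ 2 * ((M : ℝ) * x) ^ 2 = (4 * (M : ℝ) ^ 2 / π ^ 2) * (x ^ 2 / 2) := by ring
      rw [h11] at h10
      exact le_of_mul_le_mul_right h10 (by positivity)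
    have h10 : 4 * (M : ℝ) / π ^ 2 ≤ DD M c x := by
      unfold DD
      rw [if_pos h4, le_div_iff₀ hM']
      refine le_trans (le_of_eq ?_) h9
      ring
    have h11 : 0 ≤ 4 * (M : ℝ) / π ^ 2 := by positivity
    rw [abs_of_nonneg (h11.trans h10)]
    exact Real.rpow_le_rpow h11 h10 (by linarith)
  refine le_trans ?_ h2
  rw [intervalIntegral.integral_const, sub_zero, smul_eq_mul]
  have e1 : (4 * (M : ℝ) / π ^ 2) ^ (1 + q) = (4 / π ^ 2) ^ (1 + q) * ((M : ℝ) * (M : ℝ) ^ q) := by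
    rw [show 4 * (M : ℝ) / π ^ 2 = (4 / π ^ 2) * M by ring, Real.mul_rpow (by positivity) hM'.le,
      Real.rpow_add hM', Real.rpow_one]
  rw [e1]
  have e2 : (4 / π ^ 2) ^ (2:ℝ) ≤ (4 / π ^ 2) ^ (1 + q) := by
    apply Real.rpow_le_rpow_of_exponent_ge (by positivity)
    · rw [div_le_one (by positivity)]; nlinarith [Real.pi_gt_three]
    · linarith
  rw [Real.rpow_two] at e2
  have hMq : 0 < (M : ℝ) ^ q := by positivity
  have e3 : π / M * ((4 / π ^ 2) ^ (1 + q) * ((M : ℝ) * (M : ℝ) ^ q)) =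
      (π * (4 / π ^ 2) ^ (1 + q)) * (M : ℝ) ^ q := by field_simp
  rw [e3]
  have e4 : π * (4 / π ^ 2) ^ 2 ≤ π * (4 / π ^ 2) ^ (1 + q) := mul_le_mul_of_nonneg_left e2 hpi.le
  have e5 : (1:ℝ) / 3 ≤ π * (4 / π ^ 2) ^ 2 := by
    have : π * (4 / π ^ 2) ^ 2 = 16 / π ^ 3 := by field_simp; ring
    rw [this, div_le_div_iff₀ (by norm_num) (by positivity)]
    have h1 := Real.pi_lt_d2
    have : π ^ 3 ≤ 3.15 ^ 3 := pow_le_pow_left₀ hpi.le h1.le 3
    norm_num at this ⊢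
    linarith
  nlinarith

/-! ### Choice of the parameters -/

lemma evt {α β : ℝ} (h : α < β) (A B : ℝ) (hB : 0 < B) :
    ∀ᶠ M : ℕ in Filter.atTop, A * (M : ℝ) ^ α ≤ B * (M : ℝ) ^ β := by
  have h1 : Filter.Tendsto (fun M : ℕ => (M : ℝ) ^ (β - α)) Filter.atTop Filter.atTop :=
    (tendsto_rpow_atTop (by linarith)).comp tendsto_natCast_atTop_atTop
  filter_upwards [h1.eventually_ge_atTop (A / B), Filter.eventually_gt_atTop 0] with M hM hM0
  have hM' : (0:ℝ) < M := by exact_mod_cast hM0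
  rw [div_le_iff₀ hB] at hM
  have h2 : (M : ℝ) ^ β = (M : ℝ) ^ (β - α) * (M : ℝ) ^ α := by
    rw [← Real.rpow_add hM']; congr 1; ring
  rw [h2]
  have h3 : 0 < (M : ℝ) ^ α := by positivity
  nlinarith

theorem params {q C ε : ℝ} (hq : 0 < q) (hq1 : q < 1) (hC : 0 < C) (hε : 0 < ε) :
    ∃ M : ℕ, 1 ≤ M ∧ ∃ c : ℝ, 0 < c ∧ c < 1 ∧
      1 ≤ ε * (∫ x in (0:ℝ)..(2 * π), |DD M c x| ^ (1 + q)) ^ (1 / (1 + q)) ∧
      Real.sqrt (⌈C * M⌉₊ : ℝ) * ∫ x in (0:ℝ)..(2 * π), |DD M c x| ^ q ≤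
        (ε * (∫ x in (0:ℝ)..(2 * π), |DD M c x| ^ (1 + q)) ^ (1 / (1 + q))) ^ q ∧
      ∫ x in (0:ℝ)..(2 * π), |Fej M x - DD M c x| ^ (1 + q) ≤
        (ε * (∫ x in (0:ℝ)..(2 * π), |DD M c x| ^ (1 + q)) ^ (1 / (1 + q))) ^ (1 + q) := by
  set p : ℝ := 1 + q with hp
  have hp0 : 0 < p := by linarith
  set δ : ℝ := (1 - q) / (4 * (1 + q)) with hδ
  have hδ0 : 0 < δ := by rw [hδ]; apply div_pos <;> linarith
  have hδ1 : δ < 1 / 4 := by
    rw [hδ, div_lt_div_iff₀ (by positivity) (by norm_num)]; linarith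
  have hexp1 : q + δ - 1 / 2 < q * q / p := by
    rw [lt_div_iff₀ hp0, hδ, hp]
    have : (q + (1 - q) / (4 * (1 + q)) - 1 / 2) * (1 + q) = (q - 1 / 2) * (1 + q) + (1 - q) / 4 := by
      field_simp
      ring
    rw [this]; nlinarith
  have hexp2 : (1 - 2 * δ) * q < q := by nlinarith
  have E1 := evt (α := 0) (β := 2 * δ) (by linarith) (π ^ 2 / 2) 1 one_pos
  have E2 := evt (α := 0) (β := q / p) (by positivity) 1 (ε * (1 / 3) ^ (1 / p)) (by positivity)
  have E3 := evt hexp1 (Real.sqrt (C + 1) * (2 * (π * (1 / Real.sqrt 2))))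
    (ε ^ q * ((1 / 3) ^ (1 / p)) ^ q) (by positivity)
  have E4 := evt hexp2 (2 ^ q * (2 * π)) (ε ^ p / 3) (by positivity)
  obtain ⟨M, hE1, hE2, hE3, hE4, hM2⟩ :=
    (E1.and (E2.and (E3.and (E4.and (Filter.eventually_ge_atTop 2))))).exists
  have hM1 : 1 ≤ M := by omega
  have hM' : (0:ℝ) < M := by positivity
  have hM1' : (1:ℝ) < M := by exact_mod_cast (by omega : 1 < M)
  set c : ℝ := (M : ℝ) ^ (2 * δ - 2) with hc
  have hc0 : 0 < c := by positivity
  have hc1 : c < 1 := Real.rpow_lt_one_of_one_lt_of_neg hM1' (by linarith)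
  refine ⟨M, hM1, c, hc0, hc1, ?_⟩
  set I : ℝ := ∫ x in (0:ℝ)..(2 * π), |DD M c x| ^ p with hI
  have hclow : π ^ 2 / (2 * (M : ℝ) ^ 2) ≤ c := by
    rw [Real.rpow_zero, mul_one, one_mul] at hE1
    have h1 : c = (M : ℝ) ^ (2 * δ) / (M : ℝ) ^ 2 := by
      rw [hc, Real.rpow_sub hM', Real.rpow_two]
    rw [h1, div_le_div_iff₀ (by positivity) (by positivity)]
    have hM2' : 0 < (M : ℝ) ^ 2 := by positivity
    nlinarith
  have hIlow : (M : ℝ) ^ q / 3 ≤ I := int_DD_low M hM1 hclow hq hq1.le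
  have hI0 : 0 < I := lt_of_lt_of_le (by positivity) hIlow
  set N : ℝ := I ^ (1 / p) with hN
  have hN0 : 0 < N := by positivity
  have hNp : N ^ p = I := by
    rw [hN, ← Real.rpow_mul hI0.le, one_div, inv_mul_cancel₀ hp0.ne', Real.rpow_one]
  have hNlow : (1 / 3) ^ (1 / p) * (M : ℝ) ^ (q / p) ≤ N := by
    have h1 : ((M : ℝ) ^ q / 3) ^ (1 / p) ≤ N := Real.rpow_le_rpow (by positivity) hIlow (by positivity)
    refine le_trans (le_of_eq ?_) h1
    have e0 : (M : ℝ) ^ q / 3 = (1 / 3) * (M : ℝ) ^ q := by ring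
    rw [e0, Real.mul_rpow (by norm_num) (by positivity), ← Real.rpow_mul hM'.le, mul_one_div]
  refine ⟨?_, ?_, ?_⟩
  · rw [Real.rpow_zero, mul_one] at hE2
    calc (1:ℝ) ≤ ε * (1 / 3) ^ (1 / p) * (M : ℝ) ^ (q / p) := hE2
      _ = ε * ((1 / 3) ^ (1 / p) * (M : ℝ) ^ (q / p)) := by ring
      _ ≤ ε * N := mul_le_mul_of_nonneg_left hNlow hε.le
  · have h1 : Real.sqrt (⌈C * M⌉₊ : ℝ) ≤ Real.sqrt (C + 1) * (M : ℝ) ^ (1 / 2 : ℝ) := by
      rw [← Real.sqrt_eq_rpow, ← Real.sqrt_mul (by linarith)]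
      apply Real.sqrt_le_sqrt
      have := Nat.ceil_lt_add_one (by positivity : 0 ≤ C * M)
      nlinarith
    have h2 := int_DD_q M hM1 hc0 hq
    have h3 : Real.sqrt (c / 2) = (1 / Real.sqrt 2) * (M : ℝ) ^ (δ - 1) := by
      rw [Real.sqrt_div hc0.le, hc, Real.sqrt_eq_rpow, ← Real.rpow_mul hM'.le,
        show (2 * δ - 2) * (1 / 2) = δ - 1 by ring]
      ring
    rw [h3] at h2
    have h4 : Real.sqrt (⌈C * M⌉₊ : ℝ) * ∫ x in (0:ℝ)..(2 * π), |DD M c x| ^ q ≤
        (Real.sqrt (C + 1) * (M : ℝ) ^ (1 / 2 : ℝ)) *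
          ((M : ℝ) ^ q * (2 * (π * (1 / Real.sqrt 2 * (M : ℝ) ^ (δ - 1))))) := by
      apply mul_le_mul h1 h2 _ (by positivity)
      exact intervalIntegral.integral_nonneg (by positivity) (fun x _ => by positivity)
    have h5 : (Real.sqrt (C + 1) * (M : ℝ) ^ (1 / 2 : ℝ)) *
          ((M : ℝ) ^ q * (2 * (π * (1 / Real.sqrt 2 * (M : ℝ) ^ (δ - 1))))) =
        Real.sqrt (C + 1) * (2 * (π * (1 / Real.sqrt 2))) * (M : ℝ) ^ (q + δ - 1 / 2) := by
      have e : (M : ℝ) ^ (q + δ - 1 / 2) = (M : ℝ) ^ (1 / 2 : ℝ) * (M : ℝ) ^ q * (M : ℝ) ^ (δ - 1) := by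
        rw [← Real.rpow_add hM', ← Real.rpow_add hM']; congr 1; ring
      rw [e]; ring
    rw [h5] at h4
    refine h4.trans (hE3.trans ?_)
    have h6 : ε ^ q * ((1 / 3) ^ (1 / p)) ^ q * (M : ℝ) ^ (q * q / p) =
        (ε * ((1 / 3) ^ (1 / p) * (M : ℝ) ^ (q / p))) ^ q := by
      rw [Real.mul_rpow hε.le (by positivity), Real.mul_rpow (by positivity) (by positivity),
        ← Real.rpow_mul hM'.le, show q / p * q = q * q / p by ring]
      ring
    rw [h6]
    exact Real.rpow_le_rpow (by positivity) (mul_le_mul_of_nonneg_left hNlow hε.le) hq.le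
  · have h1 := int_noise M hM1 hc0 hq
    refine h1.trans ?_
    rw [Real.mul_rpow hε.le hN0.le, hNp]
    have h2 : 2 / ((M : ℝ) * c) = 2 * (M : ℝ) ^ (1 - 2 * δ) := by
      rw [hc]
      have e : (M : ℝ) * (M : ℝ) ^ (2 * δ - 2) = (M : ℝ) ^ (2 * δ - 1) := by
        rw [mul_comm, ← Real.rpow_add_one hM'.ne']; congr 1; ring
      rw [e, div_eq_mul_inv, ← Real.rpow_neg hM'.le]; congr 2; ring
    rw [h2, Real.mul_rpow (by norm_num) (by positivity), ← Real.rpow_mul hM'.le]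
    calc 2 ^ q * (M : ℝ) ^ ((1 - 2 * δ) * q) * (2 * π) = 2 ^ q * (2 * π) * (M : ℝ) ^ ((1 - 2 * δ) * q) := by ring
      _ ≤ ε ^ p / 3 * (M : ℝ) ^ q := hE4
      _ = ε ^ p * ((M : ℝ) ^ q / 3) := by ring
      _ ≤ ε ^ p * I := mul_le_mul_of_nonneg_left hIlow (by positivity)

end Pool.Agent.Helper415.TN
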