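import Mathlib
import Pool.Agent.Helper415.TG1
import Pool.Agent.Helper415.TG2
import Pool.Agent.Helper415.TN5

/-! Multivariate integrals of univariate functions. -/

set_option autoImplicit false

open MeasureTheory Filter Topology
open scoped ENNReal

namespace Pool.Agent.Helper415.TG

open Pool.Agent.Helper415 Real

/-- Integral over the circle. -/
noncomputable def I1 (F : ℝ → ℝ) : ℝ := ∫ y in (0:ℝ)..(2 * π), F y

lemma I1_Icc (F : ℝ → ℝ) : ∫ y in Set.Icc (0:ℝ) (2 * π), F y = I1 F := by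
  unfold I1
  rw [integral_Icc_eq_integral_Ioc, ← intervalIntegral.integral_of_le (by positivity)]

variable {d : ℕ} (j0 : Fin d)

lemma int_up (F : ℝ → ℝ) (k : Fin d → ℕ) (s : Fin d → Bool) :
    ∫ x, F (x j0) * WC.P k s x ∂(torus d) =
      I1 (fun y => F y * WC.E (k j0) (s j0) y) *
        ∏ j ∈ Finset.univ.erase j0, I1 (WC.E (k j) (s j)) := by
  classical
  have h1 : ∀ x : Fin d → ℝ, F (x j0) * WC.P k s x =
      ∏ j, (fun j y => if j = j0 then F y * WC.E (k j) (s j) y else WC.E (k j) (s j) y) j (x j) := by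
    intro x
    unfold WC.P
    rw [← Finset.mul_prod_erase Finset.univ _ (Finset.mem_univ j0),
      ← Finset.mul_prod_erase Finset.univ (fun j => (fun j y => if j = j0 then F y * WC.E (k j) (s j) y
        else WC.E (k j) (s j) y) j (x j)) (Finset.mem_univ j0)]
    simp only [if_true]
    rw [mul_assoc]
    congr 2
    apply Finset.prod_congr rfl
    intro j hj
    rw [if_neg (Finset.ne_of_mem_erase hj)]
  simp_rw [h1]
  rw [torus_eq]
  unfold WC.bm
  rw [integral_fintype_prod_eq_prod (𝕜 := ℝ)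
    (fun (j : Fin d) (y : ℝ) => if j = j0 then F y * WC.E (k j) (s j) y else WC.E (k j) (s j) y),
    ← Finset.mul_prod_erase Finset.univ _ (Finset.mem_univ j0)]
  simp only [if_true]
  rw [I1_Icc]
  congr 1
  apply Finset.prod_congr rfl
  intro j hj
  rw [← I1_Icc]
  simp only [if_neg (Finset.ne_of_mem_erase hj)]

lemma I1_one : I1 (fun _ => (1:ℝ)) = 2 * π := by
  unfold I1; simp

lemma abs_I1_E (k : ℕ) (s : Bool) : |I1 (WC.E k s)| ≤ 2 * π := by
  unfold I1
  have h := intervalIntegral.norm_integral_le_of_norm_le_const (a := 0) (b := 2 * π)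
    (f := WC.E k s) (C := 1) (fun x _ => by rw [Real.norm_eq_abs]; exact WC.E_abs k s x)
  rw [Real.norm_eq_abs] at h
  have h2 : |2 * π - 0| = 2 * π := by rw [sub_zero, abs_of_pos (by positivity)]
  rw [h2, one_mul] at h
  exact h

lemma E_zero_false (y : ℝ) : WC.E 0 false y = 1 := by simp [WC.E]

/-- Abbreviation: `(2π)^(d-1)`. -/
noncomputable def TT1 (d : ℕ) : ℝ := (2 * π) ^ (d - 1)

lemma TT1_pos (d : ℕ) : 0 < TT1 d := by unfold TT1; positivity

lemma abs_int_up_le (F : ℝ → ℝ) (k : Fin d → ℕ) (s : Fin d → Bool) :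
    |∫ x, F (x j0) * WC.P k s x ∂(torus d)| ≤ |I1 (fun y => F y * WC.E (k j0) (s j0) y)| * TT1 d := by
  rw [int_up, abs_mul, Finset.abs_prod]
  apply mul_le_mul_of_nonneg_left _ (abs_nonneg _)
  unfold TT1
  have h1 := Finset.prod_le_prod (s := Finset.univ.erase j0) (f := fun j => |I1 (WC.E (k j) (s j))|)
    (g := fun _ => 2 * π) (fun j _ => abs_nonneg _) (fun j _ => abs_I1_E _ _)
  rw [Finset.prod_const, Finset.card_erase_of_mem (Finset.mem_univ j0), Finset.card_univ,
    Fintype.card_fin] at h1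
  exact h1

lemma P_sin (n : ℕ) (x : Fin d → ℝ) :
    WC.P (fun j => if j = j0 then n else 0) (fun j => decide (j = j0)) x = Real.sin ((n : ℝ) * x j0) := by
  classical
  unfold WC.P
  rw [Finset.prod_eq_single j0]
  · simp [WC.E]
  · intro j _ hj
    simp [WC.E, hj]
  · intro h; exact absurd (Finset.mem_univ _) h

lemma P_cos (n : ℕ) (x : Fin d → ℝ) :
    WC.P (fun j => if j = j0 then n else 0) (fun _ => false) x = Real.cos ((n : ℝ) * x j0) := by
  classical
  unfold WC.P
  rw [Finset.prod_eq_single j0]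
  · simp [WC.E]
  · intro j _ hj
    simp [WC.E, hj]
  · intro h; exact absurd (Finset.mem_univ _) h

lemma int_up_eq (F : ℝ → ℝ) (k : Fin d → ℕ) (s : Fin d → Bool) (hk : ∀ j ≠ j0, k j = 0 ∧ s j = false) :
    ∫ x, F (x j0) * WC.P k s x ∂(torus d) = I1 (fun y => F y * WC.E (k j0) (s j0) y) * TT1 d := by
  rw [int_up]
  congr 1
  rw [Finset.prod_congr rfl (g := fun _ => 2 * π)]
  · rw [Finset.prod_const, Finset.card_erase_of_mem (Finset.mem_univ j0), Finset.card_univ,
      Fintype.card_fin]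
    rfl
  · intro j hj
    obtain ⟨h1, h2⟩ := hk j (Finset.ne_of_mem_erase hj)
    rw [h1, h2]
    have : WC.E 0 false = fun _ => 1 := by funext y; exact E_zero_false y
    rw [this, I1_one]

lemma int_up_sin (F : ℝ → ℝ) (n : ℕ) :
    ∫ x, F (x j0) * Real.sin ((n : ℝ) * x j0) ∂(torus d) = I1 (fun y => F y * Real.sin ((n : ℝ) * y)) * TT1 d := by
  have h := int_up_eq j0 F (fun j => if j = j0 then n else 0) (fun j => decide (j = j0))
    (fun j hj => by simp [hj])
  simp_rw [P_sin] at h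
  rw [h]
  simp [WC.E]

lemma int_up_one (F : ℝ → ℝ) :
    ∫ x, F (x j0) ∂(torus d) = I1 F * TT1 d := by
  have h := int_up_eq j0 F (fun _ => 0) (fun _ => false) (fun j hj => by simp)
  have h1 : ∀ x : Fin d → ℝ, WC.P (fun _ => 0) (fun _ => false) x = 1 := by
    intro x; unfold WC.P; simp [WC.E]
  simp_rw [h1, mul_one] at h
  rw [h]
  simp [WC.E]

lemma memLp_up {F : ℝ → ℝ} (hF : TN.Nice F) (p : ℝ≥0∞) :
    MemLp (fun x : Fin d → ℝ => F (x j0)) p (torus d) := by
  obtain ⟨C, hC⟩ := hF.bdd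
  exact MemLp.of_bound (hF.meas.comp (measurable_pi_apply j0)).aestronglyMeasurable C
    (Filter.Eventually.of_forall (fun x => by rw [Real.norm_eq_abs]; exact hC _))

variable {p : ℝ≥0∞} [Fact (1 ≤ p)]

lemma norm_up (hp0 : p ≠ 0) (hptop : p ≠ ⊤) {F : ℝ → ℝ}
    (h : Lp ℝ p (torus d)) (hh : h =ᵐ[torus d] fun x => F (x j0)) :
    ‖h‖ = TT1 d ^ (1 / p.toReal) * (I1 (fun y => |F y| ^ p.toReal)) ^ (1 / p.toReal) := by
  rw [norm_eq hp0 hptop h _ hh.symm]
  have h1 : ∫ x, |F (x j0)| ^ p.toReal ∂(torus d) = I1 (fun y => |F y| ^ p.toReal) * TT1 d :=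
    int_up_one j0 (fun y => |F y| ^ p.toReal)
  rw [h1, mul_comm, Real.mul_rpow (TT1_pos d).le]
  unfold I1
  apply intervalIntegral.integral_nonneg (by positivity)
  intro x _; positivity

lemma vol_torus : (torus d).real Set.univ = (2 * π) ^ d := by
  rw [torus_eq]
  unfold WC.bm
  rw [Measure.real, Measure.pi_univ, ENNReal.toReal_prod]
  simp only [← Measure.real_def, WC.vol_Icc]
  simp

/-- Lower bound of the norm of a nonzero trigonometric function. -/
lemma norm_low (hp0 : p ≠ 0) (hptop : p ≠ ⊤) (hp2 : p.toReal ≤ 2) {k : Fin d → ℕ} {s : Fin d → Bool}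
    (hnd : ∀ j, ¬ (k j = 0 ∧ s j = true))
    (h : Lp ℝ p (torus d)) (hh : h =ᵐ[torus d] WC.P k s) : 1 ≤ ‖h‖ := by
  have hpp : 0 < p.toReal := ENNReal.toReal_pos hp0 hptop
  rw [norm_eq hp0 hptop h _ hh.symm]
  apply Real.one_le_rpow _ (by positivity)
  refine (WC.P_sq k s hnd).trans ?_
  rw [torus_eq]
  apply integral_mono (WC.P_memLp k s 2).integrable_sq
  · have h1 := (WC.P_memLp k s p).integrable_norm_rpow hp0 hptop
    simpa [Real.norm_eq_abs] using h1
  · intro x
    show WC.P k s x ^ 2 ≤ |WC.P k s x| ^ p.toReal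
    rcases (abs_nonneg (WC.P k s x)).eq_or_lt with h0 | h0
    · rw [← h0, Real.zero_rpow hpp.ne']
      have : WC.P k s x = 0 := abs_eq_zero.mp h0.symm
      rw [this]; norm_num
    · have := Real.rpow_le_rpow_of_exponent_ge h0 (WC.P_abs k s x) hp2
      rw [Real.rpow_two, sq_abs] at this
      exact this

lemma norm_high (hp0 : p ≠ 0) (hptop : p ≠ ⊤) {k : Fin d → ℕ} {s : Fin d → Bool}
    (h : Lp ℝ p (torus d)) (hh : h =ᵐ[torus d] WC.P k s) : ‖h‖ ≤ ((2 * π) ^ d) ^ (1 / p.toReal) := by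
  have hpp : 0 < p.toReal := ENNReal.toReal_pos hp0 hptop
  rw [norm_eq hp0 hptop h _ hh.symm]
  apply Real.rpow_le_rpow (integral_nonneg (fun x => by positivity)) _ (by positivity)
  rw [← vol_torus]
  have h1 : ∫ x, |WC.P k s x| ^ p.toReal ∂(torus d) ≤ ∫ _x, (1:ℝ) ∂(torus d) := by
    apply integral_mono
    · have h1 := (WC.P_memLp k s p).integrable_norm_rpow hp0 hptop
      rw [torus_eq]
      simpa [Real.norm_eq_abs] using h1
    · exact integrable_const _
    · intro x
      exact Real.rpow_le_one (abs_nonneg _) (WC.P_abs k s x) hpp.le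
  refine h1.trans (le_of_eq ?_)
  rw [integral_const]; simp

omit [Fact (1 ≤ p)] in
/-- Nonzero elements have nondegenerate representations. -/
lemma nondeg_of (h : Lp ℝ p (torus d)) {k : Fin d → ℕ} {s : Fin d → Bool}
    (hh : h =ᵐ[torus d] trig k s) (hne : h ≠ 0) : ∀ j, ¬ (k j = 0 ∧ s j = true) := by
  intro j hj
  apply hne
  have h0 : ∀ x, trig k s x = 0 := by
    intro x
    unfold trig
    apply Finset.prod_eq_zero (Finset.mem_univ j)
    rw [hj.1, hj.2]; simp
  apply Lp.ext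
  filter_upwards [hh, Lp.coeFn_zero ℝ p (torus d)] with x h1 h2
  rw [h1, h0, h2]; rfl

lemma RT_norm_low (hp0 : p ≠ 0) (hptop : p ≠ ⊤) (hp2 : p.toReal ≤ 2) {g : Lp ℝ p (torus d)}
    (hg : g ∈ RT d p) : ∃ (k : Fin d → ℕ) (s : Fin d → Bool) (c : ℝ), 0 < c ∧ c ≤ 1 ∧
      g =ᵐ[torus d] fun x => c * WC.P k s x := by
  obtain ⟨k, s, h, hh, hne, rfl⟩ := (RT_iff _).mp hg
  have h1 := norm_low hp0 hptop hp2 (nondeg_of h hh hne) h hh
  refine ⟨k, s, ‖h‖⁻¹, by positivity, inv_le_one_of_one_le₀ h1, ?_⟩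
  filter_upwards [Lp.coeFn_smul (‖h‖⁻¹) h, hh] with x h2 h3
  rw [h2, Pi.smul_apply, h3, smul_eq_mul, trig_eq]

/-- The functionals are bounded on the dictionary. -/
lemma bdd_RT (hp1 : 1 ≤ p.toReal) (hp0 : p ≠ 0) (hptop : p ≠ ⊤) (hp2 : p.toReal ≤ 2) (f : Lp ℝ p (torus d)) :
    BddAbove ((fun g => |normingF f g|) '' RT d p) := by
  refine ⟨‖f‖ ^ (1 - p.toReal) * ∫ x, |f x| ^ (p.toReal - 2) * |f x| ∂(torus d), ?_⟩
  rintro _ ⟨g, hg, rfl⟩
  obtain ⟨k, s, c, hc, hc1, hgc⟩ := RT_norm_low hp0 hptop hp2 hg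
  show |normingF f g| ≤ _
  unfold normingF pairing
  rw [abs_mul, abs_of_nonneg (by positivity)]
  apply mul_le_mul_of_nonneg_left _ (by positivity)
  refine (abs_integral_le_integral_abs).trans ?_
  apply integral_mono_of_nonneg (Eventually.of_forall (fun x => abs_nonneg _))
  · -- integrability
    have h1 := (Lp.memLp f).integrable_norm_rpow hp0 hptop
    have h2 : Integrable (fun x => 1 + ‖f x‖ ^ p.toReal) (torus d) := (integrable_const 1).add h1
    refine h2.mono' ?_ ?_
    · have hm := (Lp.stronglyMeasurable f).measurable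
      have : Measurable (fun x => |f x| ^ (p.toReal - 2) * |f x|) := by fun_prop
      exact this.aestronglyMeasurable
    · refine Eventually.of_forall (fun x => ?_)
      rw [Real.norm_eq_abs, abs_of_nonneg (by positivity), Real.norm_eq_abs]
      rcases (abs_nonneg (f x)).eq_or_lt with h0 | h0
      · rw [← h0]; simp; positivity
      · rw [← Real.rpow_add_one h0.ne']
        rcases le_total |f x| 1 with h3 | h3
        · have := Real.rpow_le_one h0.le h3 (by linarith : 0 ≤ p.toReal - 2 + 1)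
          have h4 : 0 ≤ |f x| ^ p.toReal := by positivity
          linarith
        · have := Real.rpow_le_rpow_of_exponent_le h3 (by linarith : p.toReal - 2 + 1 ≤ p.toReal)
          linarith
  · filter_upwards [hgc] with x hx
    show |(|f x| ^ (p.toReal - 2) * f x * g x)| ≤ |f x| ^ (p.toReal - 2) * |f x|
    rw [abs_mul, abs_mul, abs_of_nonneg (by positivity : 0 ≤ |f x| ^ (p.toReal - 2))]
    apply mul_le_of_le_one_right (by positivity)
    rw [hx, abs_mul, abs_of_pos hc]
    have := WC.P_abs k s x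
    calc c * |WC.P k s x| ≤ 1 * 1 := mul_le_mul hc1 this (abs_nonneg _) (by norm_num)
      _ = 1 := one_mul 1

end Pool.Agent.Helper415.TG
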