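import Mathlib
import Pool.Agent.Helper415.TG3

/-! Negative part: `1 < p < 2`. -/

set_option autoImplicit false

open MeasureTheory Filter Topology
open scoped ENNReal

namespace Pool.Agent.Helper415.TG

open Pool.Agent.Helper415 Real

lemma pow_convex {P : ℝ} (hP : 1 ≤ P) (a b : ℝ) :
    |a| ^ P + P * (|a| ^ (P - 2) * a * b) ≤ |a + b| ^ P := by
  rcases eq_or_ne a 0 with ha | ha
  · subst ha
    simp only [abs_zero, mul_zero, zero_mul, add_zero, zero_add]
    rw [Real.zero_rpow (by linarith)]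
    positivity
  · have ha' : 0 < |a| := abs_pos.mpr ha
    set s := b / a with hs
    have hb : b = a * s := by rw [hs]; field_simp
    have h1 : |a| ^ (P - 2) * a * b = |a| ^ P * s := by
      rw [hb]
      have : |a| ^ P = |a| ^ (P - 2) * (a * a) := by
        rw [← abs_mul_abs_self, ← sq, ← Real.rpow_two, ← Real.rpow_add ha']; ring_nf
      rw [this]; ring
    have h2 : |a + b| ^ P = |a| ^ P * |1 + s| ^ P := by
      rw [hb, ← Real.mul_rpow (abs_nonneg _) (abs_nonneg _), ← abs_mul]; ring_nf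
    have h3 : 1 + P * s ≤ |1 + s| ^ P := by
      rcases le_or_gt (-1) s with h | h
      · rw [abs_of_nonneg (by linarith)]
        exact one_add_mul_self_le_rpow_one_add h hP
      · have : 1 + P * s ≤ 0 := by nlinarith
        exact this.trans (by positivity)
    rw [h1, h2]
    have h4 : 0 < |a| ^ P := by positivity
    nlinarith

section gen

variable {X : Type} [MeasurableSpace X] {μ : Measure X} {p : ℝ≥0∞} [Fact (1 ≤ p)]

lemma norm_le_of_pairing (hP : 1 ≤ p.toReal) (hp0 : p ≠ 0) (hptop : p ≠ ⊤) (r v : Lp ℝ p μ)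
    (hi : Integrable (fun x => |r x| ^ (p.toReal - 2) * r x * v x) μ)
    (h : pairing μ p.toReal r v = 0) : ‖r‖ ≤ ‖r + v‖ := by
  have hpp : 0 < p.toReal := by linarith
  rw [norm_eq hp0 hptop r r EventuallyEq.rfl, norm_eq hp0 hptop (r + v) _ EventuallyEq.rfl]
  apply Real.rpow_le_rpow (integral_nonneg (fun x => by positivity)) _ (by positivity)
  have i1 : Integrable (fun x => |r x| ^ p.toReal) μ := by
    have h1 := (Lp.memLp r).integrable_norm_rpow hp0 hptop
    simpa [Real.norm_eq_abs] using h1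
  have i2 : Integrable (fun x => |(r + v) x| ^ p.toReal) μ := by
    have h1 := (Lp.memLp (r + v)).integrable_norm_rpow hp0 hptop
    simpa [Real.norm_eq_abs] using h1
  have i3 : Integrable (fun x => |r x| ^ p.toReal +
      p.toReal * (|r x| ^ (p.toReal - 2) * r x * v x)) μ := i1.add (hi.const_mul _)
  have h1 : ∫ x, (|r x| ^ p.toReal + p.toReal * (|r x| ^ (p.toReal - 2) * r x * v x)) ∂μ ≤
      ∫ x, |(r + v) x| ^ p.toReal ∂μ := by
    apply integral_mono_ae i3 i2
    filter_upwards [Lp.coeFn_add r v] with x hx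
    rw [hx]
    exact pow_convex hP _ _
  rw [integral_add i1 (hi.const_mul _), integral_const_mul] at h1
  unfold pairing at h
  rw [h] at h1
  linarith

lemma int_pair [IsFiniteMeasure μ] (hP : 1 < p.toReal) (r v : Lp ℝ p μ) (B : ℝ)
    (hr : ∀ᵐ x ∂μ, |r x| ≤ B) : Integrable (fun x => |r x| ^ (p.toReal - 2) * r x * v x) μ := by
  have hv : Integrable (v : X → ℝ) μ := (Lp.memLp v).integrable (Fact.out)
  have hm := (Lp.stronglyMeasurable r).measurable
  have hm' : Measurable (fun x => |r x| ^ (p.toReal - 2) * r x) := by fun_prop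
  refine (hv.bdd_mul (c := B ^ (p.toReal - 1)) hm'.aestronglyMeasurable ?_)
  filter_upwards [hr] with x hx
  have := TN.Ph_abs (q := p.toReal - 1) (by linarith) (r x)
  unfold TN.Ph at this
  rw [show p.toReal - 1 - 1 = p.toReal - 2 by ring] at this
  rw [Real.norm_eq_abs, this]
  exact Real.rpow_le_rpow (abs_nonneg _) hx (by linarith)

lemma pairing_span [IsFiniteMeasure μ] (hP : 1 < p.toReal) (r : Lp ℝ p μ) (B : ℝ)
    (hr : ∀ᵐ x ∂μ, |r x| ≤ B) (D : Set (Lp ℝ p μ)) (hD : ∀ g ∈ D, pairing μ p.toReal r g = 0)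
    (v : Lp ℝ p μ) (hv : v ∈ Submodule.span ℝ D) : pairing μ p.toReal r v = 0 := by
  induction hv using Submodule.span_induction with
  | mem x hx => exact hD x hx
  | zero =>
    unfold pairing
    rw [← integral_zero (α := X) (G := ℝ) (μ := μ)]
    apply integral_congr_ae
    filter_upwards [Lp.coeFn_zero ℝ p μ] with x hx
    rw [hx]; simp
  | add y z _ _ hy hz =>
    unfold pairing at hy hz ⊢
    have h1 := integral_add (int_pair hP r y B hr) (int_pair hP r z B hr)
    rw [hy, hz, add_zero] at h1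
    rw [← h1]
    apply integral_congr_ae
    filter_upwards [Lp.coeFn_add y z] with x hx
    rw [hx, Pi.add_apply]; ring
  | smul a y _ hy =>
    unfold pairing at hy ⊢
    have h1 := integral_const_mul a (fun x => |r x| ^ (p.toReal - 2) * r x * y x) (μ := μ)
    rw [hy, mul_zero] at h1
    rw [← h1]
    apply integral_congr_ae
    filter_upwards [Lp.coeFn_smul a y] with x hx
    rw [hx, Pi.smul_apply, smul_eq_mul]; ring

end gen

section neg

variable {d : ℕ} (j0 : Fin d) {p : ℝ≥0∞} [Fact (1 ≤ p)]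

/-- Element of `L_p` depending on the coordinate `j0` only. -/
noncomputable def up {F : ℝ → ℝ} (hF : TN.Nice F) : Lp ℝ p (torus d) := (memLp_up j0 hF p).toLp _

lemma up_coe {F : ℝ → ℝ} (hF : TN.Nice F) :
    (up j0 hF : Lp ℝ p (torus d)) =ᵐ[torus d] fun x => F (x j0) := MemLp.coeFn_toLp _

/-- Pairing with a trigonometric function. -/
lemma pairing_up_le {F : ℝ → ℝ} (hF : TN.Nice F) {q : ℝ} (hq : p.toReal = 1 + q)
    {g : Lp ℝ p (torus d)} {k : Fin d → ℕ} {s : Fin d → Bool} {c : ℝ} (hc : 0 < c) (hc1 : c ≤ 1)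
    (hg : g =ᵐ[torus d] fun x => c * WC.P k s x) :
    |pairing (torus d) p.toReal (up j0 hF : Lp ℝ p (torus d)) g| ≤
      |I1 (fun y => TN.Ph q (F y) * WC.E (k j0) (s j0) y)| * TT1 d := by
  have h1 : pairing (torus d) p.toReal (up j0 hF : Lp ℝ p (torus d)) g =
      c * ∫ x, TN.Ph q (F (x j0)) * WC.P k s x ∂(torus d) := by
    unfold pairing
    rw [← integral_const_mul]
    apply integral_congr_ae
    filter_upwards [hg, up_coe (p := p) j0 hF] with x h1 h2
    rw [h1, h2, hq]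
    unfold TN.Ph
    rw [show 1 + q - 2 = q - 1 by ring]; ring
  rw [h1, abs_mul, abs_of_pos hc]
  have h2 := abs_int_up_le j0 (fun y => TN.Ph q (F y)) k s
  calc c * |∫ x, TN.Ph q (F (x j0)) * WC.P k s x ∂(torus d)| ≤
      1 * |∫ x, TN.Ph q (F (x j0)) * WC.P k s x ∂(torus d)| :=
        mul_le_mul_of_nonneg_right hc1 (abs_nonneg _)
    _ ≤ _ := by rw [one_mul]; exact h2

/-- The sine of frequency `n` in the coordinate `j0`. -/
noncomputable def sn (n : ℕ) : Lp ℝ p (torus d) := up j0 (TN.Nice.sin n)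

/-- The cosine of frequency `n` in the coordinate `j0`. -/
noncomputable def cs (n : ℕ) : Lp ℝ p (torus d) := up j0 (TN.Nice.cos n)

lemma sn_coe (n : ℕ) : (sn j0 n : Lp ℝ p (torus d)) =ᵐ[torus d]
    trig (fun j => if j = j0 then n else 0) (fun j => decide (j = j0)) := by
  filter_upwards [up_coe (p := p) j0 (TN.Nice.sin n)] with x hx
  unfold sn
  rw [hx, trig_eq, P_sin]

lemma cs_coe (n : ℕ) : (cs j0 n : Lp ℝ p (torus d)) =ᵐ[torus d]
    trig (fun j => if j = j0 then n else 0) (fun _ => false) := by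
  filter_upwards [up_coe (p := p) j0 (TN.Nice.cos n)] with x hx
  unfold cs
  rw [hx, trig_eq, P_cos]

lemma sn_low (hp0 : p ≠ 0) (hptop : p ≠ ⊤) (hp2 : p.toReal ≤ 2) (n : ℕ) (hn : 0 < n) :
    1 ≤ ‖(sn j0 n : Lp ℝ p (torus d))‖ := by
  apply norm_low hp0 hptop hp2 _ _ (sn_coe j0 n)
  intro j hj
  by_cases h : j = j0
  · simp [h] at hj; omega
  · simp [h] at hj

lemma cs_low (hp0 : p ≠ 0) (hptop : p ≠ ⊤) (hp2 : p.toReal ≤ 2) (n : ℕ) :
    1 ≤ ‖(cs j0 n : Lp ℝ p (torus d))‖ := by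
  apply norm_low hp0 hptop hp2 _ _ (cs_coe j0 n)
  intro j hj
  simp at hj

lemma sn_high (hp0 : p ≠ 0) (hptop : p ≠ ⊤) (n : ℕ) :
    ‖(sn j0 n : Lp ℝ p (torus d))‖ ≤ ((2 * π) ^ d) ^ (1 / p.toReal) :=
  norm_high hp0 hptop _ (sn_coe j0 n)

lemma sn_RT (hp0 : p ≠ 0) (hptop : p ≠ ⊤) (hp2 : p.toReal ≤ 2) (n : ℕ) (hn : 0 < n) :
    ‖(sn j0 n : Lp ℝ p (torus d))‖⁻¹ • (sn j0 n : Lp ℝ p (torus d)) ∈ RT d p := by
  refine (RT_iff _).mpr ⟨_, _, sn j0 n, sn_coe j0 n, ?_, rfl⟩
  have := sn_low (p := p) j0 hp0 hptop hp2 n hn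
  intro h; rw [h, norm_zero] at this; linarith

lemma cs_RT (hp0 : p ≠ 0) (hptop : p ≠ ⊤) (hp2 : p.toReal ≤ 2) (n : ℕ) :
    ‖(cs j0 n : Lp ℝ p (torus d))‖⁻¹ • (cs j0 n : Lp ℝ p (torus d)) ∈ RT d p := by
  refine (RT_iff _).mpr ⟨_, _, cs j0 n, cs_coe j0 n, ?_, rfl⟩
  have := cs_low (p := p) j0 hp0 hptop hp2 n
  intro h; rw [h, norm_zero] at this; linarith

lemma pairing_up_sn {F : ℝ → ℝ} (hF : TN.Nice F) {q : ℝ} (hq : p.toReal = 1 + q) (n : ℕ) (c : ℝ) :
    pairing (torus d) p.toReal (up j0 hF : Lp ℝ p (torus d)) ((c • sn j0 n : Lp ℝ p (torus d))) =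
      c * (I1 (fun y => TN.Ph q (F y) * Real.sin ((n : ℝ) * y)) * TT1 d) := by
  rw [← int_up_sin j0, ← integral_const_mul]
  unfold pairing
  apply integral_congr_ae
  filter_upwards [Lp.coeFn_smul c (sn j0 n : Lp ℝ p (torus d)), up_coe (p := p) j0 (TN.Nice.sin n),
    up_coe (p := p) j0 hF] with x h1 h2 h3
  rw [h1, Pi.smul_apply, h3, smul_eq_mul]
  unfold sn
  rw [h2, hq]
  unfold TN.Ph
  rw [show 1 + q - 2 = q - 1 by ring]; ring

end neg

end Pool.Agent.Helper415.TG
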