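import Mathlib
import Pool.Agent.Helper415.WC2
import Pool.Agent.Helper415.TG4

/-! Analytic inequalities for the Haar basis, `p > 2`. -/

set_option autoImplicit false

open MeasureTheory

namespace Pool.Agent.Helper415.HA

open Pool.Agent.Helper415

/-- The duality function `|y|^(p-2) y`. -/
noncomputable def Phi (p y : ℝ) : ℝ := |y| ^ (p - 2) * y

lemma Phi_neg (p y : ℝ) : Phi p (-y) = -Phi p y := by unfold Phi; rw [abs_neg]; ring

lemma Phi_nonneg_eq {p y : ℝ} (hp : 1 < p) (hy : 0 ≤ y) : Phi p y = y ^ (p - 1) := by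
  unfold Phi
  rw [abs_of_nonneg hy]
  rcases hy.eq_or_lt with h | h
  · rw [← h, mul_zero, Real.zero_rpow (by linarith)]
  · rw [← Real.rpow_add_one h.ne']; ring_nf

lemma Phi_abs {p : ℝ} (hp : 1 < p) (y : ℝ) : |Phi p y| = |y| ^ (p - 1) := by
  rcases le_total 0 y with h | h
  · rw [Phi_nonneg_eq hp h, abs_of_nonneg (by positivity), abs_of_nonneg h]
  · have h' : 0 ≤ -y := by linarith
    have : Phi p y = -Phi p (-y) := by rw [Phi_neg, neg_neg]
    rw [this, abs_neg, Phi_nonneg_eq hp h', abs_of_nonneg (by positivity), abs_of_nonpos h]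

/-- Lower bound of the duality function. -/
lemma Phi_low {p : ℝ} (hp : 2 ≤ p) {z : ℝ} (hz : 0 ≤ z) (f : ℝ) :
    (z / 2) ^ (p - 1) - 2 * |f| ^ (p - 1) ≤ Phi p (z + f) := by
  have hp1 : 0 ≤ p - 1 := by linarith
  have hfp : 0 ≤ |f| ^ (p - 1) := by positivity
  rcases le_or_gt |f| (z / 2) with h | h
  · have h1 : z / 2 ≤ z + f := by have := neg_abs_le f; linarith
    rw [Phi_nonneg_eq (by linarith) (by linarith)]
    have := Real.rpow_le_rpow (by linarith) h1 hp1
    linarith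
  · have h1 : (z / 2) ^ (p - 1) ≤ |f| ^ (p - 1) := Real.rpow_le_rpow (by linarith) h.le hp1
    have h2 : -(|f| ^ (p - 1)) ≤ Phi p (z + f) := by
      rcases le_or_gt 0 (z + f) with h3 | h3
      · rw [Phi_nonneg_eq (by linarith) h3]
        have : 0 ≤ (z + f) ^ (p - 1) := by positivity
        linarith
      · have h4 : |Phi p (z + f)| ≤ |f| ^ (p - 1) := by
          rw [Phi_abs (by linarith)]
          apply Real.rpow_le_rpow (abs_nonneg _) _ hp1
          rw [abs_of_neg h3]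
          have := neg_abs_le f
          linarith
        exact (abs_le.mp h4).1
    linarith

/-- The exponent `(p-2)/(p-1)`. -/
noncomputable def rho (p : ℝ) : ℝ := (p - 2) / (p - 1)

/-- Step constant. -/
noncomputable def cst (p : ℝ) : ℝ := p ^ 2 / (8 * WC.KK p)

variable {X : Type*} [MeasurableSpace X] {μ : Measure X}

/-- One step decrease, local version. -/
lemma decrease2 {p : ℝ} (hp : 2 < p) {r h : X → ℝ}
    (hr : MemLp r (ENNReal.ofReal p) μ) (hh : MemLp h (ENNReal.ofReal p) μ)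
    (hh1 : ∫ x, |h x| ^ p ∂μ ≤ 1)
    (hJ : 0 < |∫ x, |r x| ^ (p - 2) * r x * h x ∂μ|) :
    ∃ s : ℝ, ∫ x, |r x - s * h x| ^ p ∂μ ≤ ∫ x, |r x| ^ p ∂μ -
      cst p * |∫ x, |r x| ^ (p - 2) * r x * h x ∂μ| ^ 2 /
        (∫ x, |r x| ^ (p - 2) * h x ^ 2 ∂μ + |∫ x, |r x| ^ (p - 2) * r x * h x ∂μ| ^ rho p) := by
  have hp2 : 2 ≤ p := hp.le
  have hK := WC.KK_pos hp2
  have hKsq := WC.KK_ge_sq hp2
  set J : ℝ := ∫ x, |r x| ^ (p - 2) * r x * h x ∂μ with hJd
  set B : ℝ := ∫ x, |r x| ^ (p - 2) * h x ^ 2 ∂μ with hB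
  set U : ℝ := ∫ x, |r x| ^ p ∂μ with hU
  set H : ℝ := ∫ x, |h x| ^ p ∂μ with hH
  have hB0 : 0 ≤ B := integral_nonneg (fun x => by positivity)
  have hJr : 0 < |J| ^ rho p := by positivity
  set x : ℝ := B + |J| ^ rho p with hx
  have hx0 : 0 < x := by linarith
  set η : ℝ := p / (4 * WC.KK p) with hη
  have hη0 : 0 < η := by positivity
  have hη1 : η ≤ 1 := by
    rw [hη, div_le_one (by positivity)]; nlinarith
  set s : ℝ := η * J / x with hs
  refine ⟨s, ?_⟩
  have hpt : ∀ y, |r y - s * h y| ^ p ≤ |r y| ^ p - p * s * (|r y| ^ (p - 2) * r y * h y)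
      + WC.KK p * (s ^ 2 * (|r y| ^ (p - 2) * h y ^ 2) + |s| ^ p * |h y| ^ p) := by
    intro y
    have h1 := WC.pointwise hp2 (r y) (s * h y)
    have h2 : |s * h y| ^ p = |s| ^ p * |h y| ^ p := by
      rw [abs_mul, Real.mul_rpow (abs_nonneg _) (abs_nonneg _)]
    rw [h2] at h1
    refine h1.trans (le_of_eq ?_)
    ring
  have hmem : MemLp (fun y => r y - s * h y) (ENNReal.ofReal p) μ := hr.sub (hh.const_mul s)
  have hIr := WC.int_rpow hp2 hr
  have hIh := WC.int_rpow hp2 hh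
  have hIJ := WC.int_J hp2 hr hh
  have hIQ := WC.int_Q hp2 hr hh
  have i1 : Integrable (fun y => |r y| ^ p - p * s * (|r y| ^ (p - 2) * r y * h y)) μ :=
    hIr.sub (hIJ.const_mul _)
  have i2 : Integrable (fun y => s ^ 2 * (|r y| ^ (p - 2) * h y ^ 2) + |s| ^ p * |h y| ^ p) μ :=
    (hIQ.const_mul _).add (hIh.const_mul _)
  have h1 := integral_mono (WC.int_rpow hp2 hmem) (i1.add (i2.const_mul (WC.KK p))) hpt
  refine h1.trans ?_
  have e1 : ∫ y, ((fun y => |r y| ^ p - p * s * (|r y| ^ (p - 2) * r y * h y)) + fun y => WC.KK p *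
      (s ^ 2 * (|r y| ^ (p - 2) * h y ^ 2) + |s| ^ p * |h y| ^ p)) y ∂μ =
      U - p * s * J + WC.KK p * (s ^ 2 * B + |s| ^ p * H) := by
    rw [integral_add' i1 (i2.const_mul (WC.KK p)), integral_const_mul,
      integral_sub hIr (hIJ.const_mul _), integral_const_mul,
      integral_add (hIQ.const_mul _) (hIh.const_mul _), integral_const_mul, integral_const_mul]
  refine (le_of_eq e1).trans ?_
  -- numeric part
  have e2 : p * s * J = p * η * (|J| ^ 2 / x) := by rw [hs, sq_abs]; ring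
  have e3 : s ^ 2 * B ≤ η ^ 2 * (|J| ^ 2 / x) := by
    have : s ^ 2 * B = η ^ 2 * (|J| ^ 2 / x) * (B / x) := by
      rw [hs, sq_abs]; field_simp
    rw [this]
    apply mul_le_of_le_one_right (by positivity)
    rw [div_le_one hx0]; linarith
  have e4 : |s| ^ p ≤ η ^ 2 * (|J| ^ 2 / x) := by
    have hs' : |s| = η * |J| / x := by
      rw [hs, abs_div, abs_mul, abs_of_pos hη0, abs_of_pos hx0]
    rw [hs', Real.div_rpow (by positivity) hx0.le, Real.mul_rpow hη0.le (abs_nonneg _)]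
    have h2 : η ^ p ≤ η ^ 2 := by
      have := Real.rpow_le_rpow_of_exponent_ge hη0 hη1 hp2
      rwa [Real.rpow_two] at this
    have h3 : |J| ^ p = |J| ^ (p - 2) * |J| ^ 2 := WC.rpow_split hp2 hJ
    have h4 : |J| ^ (p - 2) ≤ x ^ (p - 1) := by
      have h5 : |J| ^ rho p ≤ x := by linarith
      have h6 := Real.rpow_le_rpow hJr.le h5 (by linarith : 0 ≤ p - 1)
      rw [← Real.rpow_mul (abs_nonneg _)] at h6
      have h7 : rho p * (p - 1) = p - 2 := by
        unfold rho; field_simp [(by linarith : p - 1 ≠ 0)]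
      rwa [h7] at h6
    have h5 : x ^ p = x ^ (p - 1) * x := by
      rw [← Real.rpow_add_one hx0.ne']; ring_nf
    rw [h3, h5]
    have h6 : 0 < x ^ (p - 1) := by positivity
    rw [div_le_iff₀ (by positivity)]
    have h7 : η ^ 2 * (|J| ^ 2 / x) * (x ^ (p - 1) * x) = η ^ 2 * (x ^ (p - 1) * |J| ^ 2) := by
      field_simp
    rw [h7]
    apply mul_le_mul h2 _ (by positivity) (by positivity)
    exact mul_le_mul_of_nonneg_right h4 (by positivity)
  have e5 : |s| ^ p * H ≤ η ^ 2 * (|J| ^ 2 / x) := by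
    have : |s| ^ p * H ≤ |s| ^ p * 1 := mul_le_mul_of_nonneg_left hh1 (by positivity)
    linarith
  have e6 : WC.KK p * (s ^ 2 * B + |s| ^ p * H) ≤ WC.KK p * (2 * (η ^ 2 * (|J| ^ 2 / x))) :=
    mul_le_mul_of_nonneg_left (by linarith) hK.le
  have e7 : p * η * (|J| ^ 2 / x) - WC.KK p * (2 * (η ^ 2 * (|J| ^ 2 / x))) =
      cst p * |J| ^ 2 / x := by
    rw [hη]; unfold cst
    field_simp
    ring
  rw [e2]
  linarith

/-- The two point inequality behind the lower `ℓ_p` estimate. -/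
lemma two_point {p : ℝ} (hp : 2 ≤ p) (z w : ℝ) :
    2 * (|z| ^ p + |w| ^ p) ≤ |z + w| ^ p + |z - w| ^ p := by
  have hq : 1 ≤ p / 2 := by linarith
  have e : ∀ y : ℝ, |y| ^ p = (y ^ 2) ^ (p / 2) := by
    intro y
    rw [← sq_abs, ← Real.rpow_two, ← Real.rpow_mul (abs_nonneg _)]; ring_nf
  rw [e z, e w, e (z + w), e (z - w)]
  have h1 : (z ^ 2) ^ (p / 2) + (w ^ 2) ^ (p / 2) ≤ (z ^ 2 + w ^ 2) ^ (p / 2) :=
    Real.add_rpow_le_rpow_add (sq_nonneg _) (sq_nonneg _) hq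
  have h2 : ((z ^ 2 + w ^ 2)) ^ (p / 2) ≤
      (1 / 2) * ((z + w) ^ 2) ^ (p / 2) + (1 / 2) * ((z - w) ^ 2) ^ (p / 2) := by
    have h3 := (convexOn_rpow hq).2 (Set.mem_Ici.mpr (sq_nonneg (z + w)))
      (Set.mem_Ici.mpr (sq_nonneg (z - w))) (by norm_num : (0:ℝ) ≤ 1 / 2)
      (by norm_num : (0:ℝ) ≤ 1 / 2) (by norm_num)
    simp only [smul_eq_mul] at h3
    have h4 : 1 / 2 * (z + w) ^ 2 + 1 / 2 * (z - w) ^ 2 = z ^ 2 + w ^ 2 := by ring
    rwa [h4] at h3
  linarith

/-- Jensen's inequality on a set, in the form needed. -/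
lemma jensen_ind {q : ℝ} (hq : 1 ≤ q) {g : X → ℝ} {w : X → ℝ} (hg : ∀ x, 0 ≤ g x)
    (hw : ∀ x, 0 ≤ w x) (hiw : Integrable w μ) (hig : Integrable (fun x => g x * w x) μ)
    (higq : Integrable (fun x => g x ^ q * w x) μ) {m : ℝ} (hm : 0 < m) (hwm : ∫ x, w x ∂μ = m) :
    m * ((∫ x, g x * w x ∂μ) / m) ^ q ≤ ∫ x, g x ^ q * w x ∂μ := by
  set a : ℝ := (∫ x, g x * w x ∂μ) / m with ha
  have ha0 : 0 ≤ a := div_nonneg (integral_nonneg (fun x => mul_nonneg (hg x) (hw x))) hm.le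
  have hpt : ∀ x, (a ^ q - q * (a ^ (q - 2) * a * a)) * w x + q * (a ^ (q - 2) * a) * (g x * w x) ≤
      g x ^ q * w x := by
    intro x
    have h1 := TG.pow_convex hq a (g x - a)
    rw [show a + (g x - a) = g x by ring, abs_of_nonneg ha0, abs_of_nonneg (hg x)] at h1
    have h2 := mul_le_mul_of_nonneg_right h1 (hw x)
    refine le_trans (le_of_eq ?_) h2
    ring
  have h2 := integral_mono ((hiw.const_mul _).add (hig.const_mul _)) higq hpt
  rw [integral_add' (hiw.const_mul _) (hig.const_mul _), integral_const_mul, integral_const_mul,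
    hwm] at h2
  have h3 : ∫ x, g x * w x ∂μ = a * m := by rw [ha]; field_simp
  rw [h3] at h2
  refine le_trans (le_of_eq ?_) h2
  ring

end Pool.Agent.Helper415.HA
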