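import Mathlib

/-! Dyadic cells on `[0,1)` and pick-free cells. -/

set_option autoImplicit false

open MeasureTheory

namespace Pool.Agent.Helper415.HA

/-- Lebesgue measure on `[0,1)`. -/
noncomputable def μ1 : Measure ℝ := volume.restrict (Set.Ico 0 1)

instance : IsFiniteMeasure μ1 := ⟨by
  unfold μ1; rw [Measure.restrict_apply_univ, Real.volume_Ico]; simp⟩

/-- The number of the dyadic cell of level `n` containing `x`. -/
noncomputable def cell (n : ℕ) (x : ℝ) : ℕ := ⌊(2:ℝ) ^ n * x⌋₊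

lemma cell_add (n m : ℕ) (x : ℝ) : cell n x = cell (n + m) x / 2 ^ m := by
  unfold cell
  have : (2:ℝ) ^ n * x = ((2:ℝ) ^ (n + m) * x) / ((2 ^ m : ℕ) : ℝ) := by
    push_cast; rw [pow_add]; field_simp
  rw [this, Nat.floor_div_natCast]

lemma cell_le {n m : ℕ} (h : n ≤ m) (x : ℝ) : cell n x = cell m x / 2 ^ (m - n) := by
  obtain ⟨e, rfl⟩ := Nat.exists_eq_add_of_le h
  rw [Nat.add_sub_cancel_left]; exact cell_add n e x

lemma cell_lt {n : ℕ} {x : ℝ} (hx : x ∈ Set.Ico (0:ℝ) 1) : cell n x < 2 ^ n := by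
  unfold cell
  rw [Nat.floor_lt (mul_nonneg (by positivity) hx.1)]
  push_cast
  have : (0:ℝ) < 2 ^ n := by positivity
  nlinarith [hx.2]

lemma meas_cell (n : ℕ) : Measurable (cell n) := by
  unfold cell
  exact Nat.measurable_floor.comp (measurable_const.mul measurable_id)

/-- Indicator of a cell. -/
noncomputable def ind (n k : ℕ) (x : ℝ) : ℝ := if cell n x = k then 1 else 0

lemma ind_nonneg (n k : ℕ) (x : ℝ) : 0 ≤ ind n k x := by unfold ind; split_ifs <;> norm_num

lemma ind_le_one (n k : ℕ) (x : ℝ) : ind n k x ≤ 1 := by unfold ind; split_ifs <;> norm_num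

lemma ind_sq (n k : ℕ) (x : ℝ) : ind n k x ^ 2 = ind n k x := by unfold ind; split_ifs <;> norm_num

lemma meas_ind (n k : ℕ) : Measurable (ind n k) := by
  unfold ind
  exact Measurable.ite ((meas_cell n) (measurableSet_singleton k)) measurable_const measurable_const

lemma int_ind (n k : ℕ) : ∫ x, ind n k x ∂μ1 = if k < 2 ^ n then (1 / 2 : ℝ) ^ n else 0 := by
  have h2 : (0:ℝ) < 2 ^ n := by positivity
  have hset : MeasurableSet {x : ℝ | cell n x = k} := (meas_cell n) (measurableSet_singleton k)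
  have e : ind n k = Set.indicator {x : ℝ | cell n x = k} 1 := by
    funext x; unfold ind Set.indicator; simp
  rw [e, integral_indicator_one hset]
  unfold μ1
  rw [Measure.real, Measure.restrict_apply hset]
  split_ifs with hk
  · have hs : {x : ℝ | cell n x = k} ∩ Set.Ico 0 1 =
        Set.Ico ((k : ℝ) / 2 ^ n) (((k : ℝ) + 1) / 2 ^ n) := by
      ext x
      simp only [Set.mem_inter_iff, Set.mem_ofPred_eq, Set.mem_Ico]
      have hk' : (k : ℝ) + 1 ≤ 2 ^ n := by exact_mod_cast hk
      constructor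
      · rintro ⟨h1, h3, _⟩
        unfold cell at h1
        rw [Nat.floor_eq_iff (mul_nonneg h2.le h3)] at h1
        rw [div_le_iff₀ h2, lt_div_iff₀ h2, mul_comm x]
        exact h1
      · rintro ⟨h1, h3⟩
        rw [div_le_iff₀ h2, mul_comm x] at h1
        rw [lt_div_iff₀ h2, mul_comm x] at h3
        have h4 : 0 ≤ x := by
          by_contra hcon
          push Not at hcon
          have : (0:ℝ) ≤ k := Nat.cast_nonneg k
          nlinarith
        refine ⟨?_, h4, ?_⟩
        · unfold cell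
          rw [Nat.floor_eq_iff (mul_nonneg h2.le h4)]
          exact ⟨h1, h3⟩
        · by_contra hcon
          push Not at hcon
          nlinarith
    rw [hs, Real.volume_Ico]
    rw [← sub_div, add_sub_cancel_left, ENNReal.toReal_ofReal (by positivity), one_div_pow]
  · have hs : {x : ℝ | cell n x = k} ∩ Set.Ico 0 1 = ∅ := by
      ext x
      simp only [Set.mem_inter_iff, Set.mem_ofPred_eq, Set.mem_empty_iff_false, iff_false, not_and]
      intro h1 h3
      have := cell_lt (n := n) h3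
      omega
    rw [hs]; simp

lemma int_ind_eq {n k : ℕ} (hk : k < 2 ^ n) : ∫ x, ind n k x ∂μ1 = (1 / 2 : ℝ) ^ n := by
  rw [int_ind, if_pos hk]

lemma int_ind_le (n k : ℕ) : ∫ x, ind n k x ∂μ1 ≤ (1 / 2 : ℝ) ^ n := by
  rw [int_ind]; split_ifs
  · exact le_rfl
  · positivity

lemma integrable_ind (n k : ℕ) : Integrable (ind n k) μ1 := by
  refine (integrable_const (1:ℝ)).mono' (meas_ind n k).aestronglyMeasurable ?_
  refine Filter.Eventually.of_forall (fun x => ?_)
  rw [Real.norm_eq_abs, abs_of_nonneg (ind_nonneg n k x)]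
  exact ind_le_one n k x

lemma integrable_mul_ind {f : ℝ → ℝ} (hf : Integrable f μ1) (n k : ℕ) :
    Integrable (fun x => f x * ind n k x) μ1 := by
  refine hf.mono (hf.1.mul (meas_ind n k).aestronglyMeasurable) ?_
  refine Filter.Eventually.of_forall (fun x => ?_)
  rw [Real.norm_eq_abs, Real.norm_eq_abs, abs_mul, abs_of_nonneg (ind_nonneg n k x)]
  exact mul_le_of_le_one_right (abs_nonneg _) (ind_le_one n k x)

lemma ind_split (n k : ℕ) (x : ℝ) : ind n k x = ind (n + 1) (2 * k) x + ind (n + 1) (2 * k + 1) x := by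
  unfold ind
  have h := cell_add n 1 x
  rw [pow_one] at h
  rw [h]
  set c := cell (n + 1) x
  by_cases h1 : c = 2 * k
  · rw [if_pos (by omega), if_pos h1, if_neg (by omega)]; norm_num
  · by_cases h2 : c = 2 * k + 1
    · rw [if_pos (by omega), if_neg h1, if_pos h2]; norm_num
    · rw [if_neg (by omega), if_neg h1, if_neg h2]; norm_num

/-- The sign function. -/
noncomputable def rs (n : ℕ) (x : ℝ) : ℝ := if cell (n + 1) x % 2 = 0 then 1 else -1

lemma rs_sq (n : ℕ) (x : ℝ) : rs n x ^ 2 = 1 := by unfold rs; split_ifs <;> norm_num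

lemma rs_abs (n : ℕ) (x : ℝ) : |rs n x| = 1 := by unfold rs; split_ifs <;> norm_num

lemma meas_rs (n : ℕ) : Measurable (rs n) := by
  unfold rs
  exact Measurable.ite ((meas_cell (n + 1)) (MeasurableSet.of_discrete (s := {c | c % 2 = 0})))
    measurable_const measurable_const

lemma ind_rs (n k : ℕ) (x : ℝ) :
    ind n k x * rs n x = ind (n + 1) (2 * k) x - ind (n + 1) (2 * k + 1) x := by
  unfold ind rs
  have h := cell_add n 1 x
  rw [pow_one] at h
  rw [h]
  set c := cell (n + 1) x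
  by_cases h1 : c = 2 * k
  · have e1 : c / 2 = k := by omega
    have e2 : c % 2 = 0 := by omega
    have e3 : ¬ c = 2 * k + 1 := by omega
    rw [if_pos e1, if_pos e2, if_pos h1, if_neg e3]; norm_num
  · by_cases h2 : c = 2 * k + 1
    · have e1 : c / 2 = k := by omega
      have e2 : ¬ c % 2 = 0 := by omega
      rw [if_pos e1, if_neg e2, if_neg h1, if_pos h2]; norm_num
    · have e1 : ¬ c / 2 = k := by omega
      rw [if_neg e1, if_neg h1, if_neg h2]; norm_num

/-! ### Pick-free cells -/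

/-- No element of `P` is contained in the cell `(n, k)`. -/
def pf (P : Finset (ℕ × ℕ)) (n k : ℕ) : Prop := ∀ J ∈ P, n ≤ J.1 → J.2 / 2 ^ (J.1 - n) ≠ k

lemma pf_of_lt {P : Finset (ℕ × ℕ)} {n : ℕ} (h : ∀ J ∈ P, J.1 < n) (k : ℕ) : pf P n k :=
  fun J hJ hn => absurd (h J hJ) (not_lt.mpr hn)

lemma exists_pf (P : Finset (ℕ × ℕ)) (x : ℝ) : ∃ n, pf P n (cell n x) := by
  refine ⟨P.sup (fun J => J.1) + 1, pf_of_lt (fun J hJ => ?_) _⟩
  exact Nat.lt_succ_of_le (Finset.le_sup (f := fun J : ℕ × ℕ => J.1) hJ)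

open Classical in
/-- The level of the maximal pick-free cell containing `x`. -/
noncomputable def lam (P : Finset (ℕ × ℕ)) (x : ℝ) : ℕ := Nat.find (exists_pf P x)

lemma lam_pf (P : Finset (ℕ × ℕ)) (x : ℝ) : pf P (lam P x) (cell (lam P x) x) := by
  classical
  exact Nat.find_spec (exists_pf P x)

lemma lam_le {P : Finset (ℕ × ℕ)} {x : ℝ} {n : ℕ} (h : pf P n (cell n x)) : lam P x ≤ n := by
  classical
  exact Nat.find_min' (exists_pf P x) h

lemma lam_min {P : Finset (ℕ × ℕ)} {x : ℝ} {n : ℕ} (h : n < lam P x) : ¬ pf P n (cell n x) :=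
  fun h1 => absurd (lam_le h1) (not_le.mpr h)

lemma div_div_pow {a N m n : ℕ} (h1 : n ≤ m) (h2 : m ≤ N) :
    a / 2 ^ (N - m) / 2 ^ (m - n) = a / 2 ^ (N - n) := by
  rw [Nat.div_div_eq_div_mul, ← pow_add]; congr 2; omega

lemma pf_mono {P : Finset (ℕ × ℕ)} {x : ℝ} {n m : ℕ} (hnm : n ≤ m) (h : pf P n (cell n x)) :
    pf P m (cell m x) := by
  intro J hJ hm hcon
  apply h J hJ (hnm.trans hm)
  rw [cell_le hnm x, ← hcon, div_div_pow hnm hm]

lemma meas_lam (P : Finset (ℕ × ℕ)) : Measurable (lam P) := by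
  classical
  unfold lam
  apply measurable_find
  intro k
  exact (meas_cell k) (MeasurableSet.of_discrete (s := {c | pf P k c}))

lemma lam_bdd {P : Finset (ℕ × ℕ)} {N : ℕ} (h : ∀ J ∈ P, J.1 ≤ N) (x : ℝ) : lam P x ≤ N + 1 :=
  lam_le (pf_of_lt (fun J hJ => Nat.lt_succ_of_le (h J hJ)) _)

end Pool.Agent.Helper415.HA
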