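import Mathlib
import Pool.Agent.Helper415.HA2

/-! The tree sum estimate. -/

set_option autoImplicit false

open MeasureTheory

namespace Pool.Agent.Helper415.HA

variable (β γ : ℝ)

/-- The function `1 + ∑_{J ∈ P} β^{lev J} 1_J`. -/
noncomputable def VV (P : Finset (ℕ × ℕ)) (x : ℝ) : ℝ := 1 + ∑ J ∈ P, β ^ J.1 * ind J.1 J.2 x

lemma VV_ge_one (hβ : 0 < β) (P : Finset (ℕ × ℕ)) (x : ℝ) : 1 ≤ VV β P x := by
  unfold VV
  have : 0 ≤ ∑ J ∈ P, β ^ J.1 * ind J.1 J.2 x :=
    Finset.sum_nonneg (fun J _ => mul_nonneg (by positivity) (ind_nonneg _ _ _))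
  linarith

lemma meas_VV (P : Finset (ℕ × ℕ)) : Measurable (VV β P) := by
  unfold VV
  apply Measurable.const_add
  exact Finset.measurable_fun_sum _ (fun J _ => (meas_ind J.1 J.2).const_mul _)

lemma sum_ind_eq (P : Finset (ℕ × ℕ)) (f : ℕ → ℝ) (x : ℝ) :
    ∑ J ∈ P, f J.1 * ind J.1 J.2 x =
      ∑ n ∈ (P.filter (fun J => cell J.1 x = J.2)).image Prod.fst, f n := by
  classical
  rw [Finset.sum_image]
  · rw [Finset.sum_filter]
    apply Finset.sum_congr rfl
    intro J _
    unfold ind
    split_ifs <;> ring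
  · intro a ha b hb hab
    have h1 := (Finset.mem_filter.mp ha).2
    have h2 := (Finset.mem_filter.mp hb).2
    have hab' : a.1 = b.1 := hab
    apply Prod.ext hab'
    rw [← h1, ← h2, hab']

lemma geo_le {β : ℝ} (hβ : 1 < β) (l : ℕ) : ∑ n ∈ Finset.range l, β ^ n ≤ β ^ l / (β - 1) := by
  rw [geom_sum_eq hβ.ne']
  apply div_le_div_of_nonneg_right _ (by linarith)
  linarith

/-- Bound when all picks containing `x` are of level less than `l`. -/
lemma VV_bound {β : ℝ} (hβ : 1 < β) {P : Finset (ℕ × ℕ)} {x : ℝ} {l : ℕ}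
    (h : ∀ J ∈ P, cell J.1 x = J.2 → J.1 < l) : VV β P x ≤ β / (β - 1) * β ^ l := by
  classical
  unfold VV
  rw [sum_ind_eq P (fun n => β ^ n) x]
  have h1 : ∑ n ∈ (P.filter (fun J => cell J.1 x = J.2)).image Prod.fst, β ^ n ≤
      ∑ n ∈ Finset.range l, β ^ n := by
    apply Finset.sum_le_sum_of_subset_of_nonneg
    · intro n hn
      obtain ⟨J, hJ, rfl⟩ := Finset.mem_image.mp hn
      have := Finset.mem_filter.mp hJ
      exact Finset.mem_range.mpr (h J this.1 this.2)
    · intro n _ _; positivity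
  have h2 := geo_le hβ l
  have h3 : (1:ℝ) ≤ β ^ l := one_le_pow₀ hβ.le
  have h4 : β / (β - 1) * β ^ l = β ^ l + β ^ l / (β - 1) := by
    have : β - 1 ≠ 0 := by linarith
    field_simp
    ring
  linarith

lemma VV_bound_pf {β : ℝ} (hβ : 1 < β) {P : Finset (ℕ × ℕ)} {x : ℝ} {l : ℕ}
    (h : pf P l (cell l x)) : VV β P x ≤ β / (β - 1) * β ^ l := by
  apply VV_bound hβ
  intro J hJ hx
  by_contra hcon
  push Not at hcon
  apply h J hJ hcon
  rw [← hx, cell_le hcon x]

/-- The constant of the tree sum. -/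
noncomputable def Cf : ℝ := 2 * (β / (β - 1)) / (β - 1) + γ

variable {β γ}

lemma int_VV_lam_integrable (hβ : 0 < β) (hγ : 1 ≤ γ) (P : Finset (ℕ × ℕ)) :
    Integrable (fun x => VV β P x * γ ^ lam P x) μ1 := by
  set N := P.sup (fun J => J.1) with hN
  have hlam : ∀ x, lam P x ≤ N + 1 := fun x =>
    lam_bdd (fun J hJ => Finset.le_sup (f := fun J : ℕ × ℕ => J.1) hJ) x
  have hm : Measurable (fun x => VV β P x * γ ^ lam P x) := by
    refine (meas_VV β P).mul ?_
    exact (measurable_from_nat (f := fun n => γ ^ n)).comp (meas_lam P)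
  refine (integrable_const ((1 + ∑ J ∈ P, β ^ J.1) * γ ^ (N + 1))).mono' hm.aestronglyMeasurable ?_
  refine Filter.Eventually.of_forall (fun x => ?_)
  have h1 := VV_ge_one β hβ P x
  rw [Real.norm_eq_abs, abs_of_nonneg (by positivity)]
  apply mul_le_mul _ (pow_le_pow_right₀ hγ (hlam x)) (by positivity)
    (by have : 0 ≤ ∑ J ∈ P, β ^ J.1 := Finset.sum_nonneg (fun J _ => by positivity)
        linarith)
  unfold VV
  apply add_le_add_right
  apply Finset.sum_le_sum
  intro J _
  exact mul_le_of_le_one_right (by positivity) (ind_le_one _ _ _)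

/-- The tree sum estimate. -/
theorem tree_sum (hβ : 1 < β) (hγ : 1 ≤ γ) (hβγ : β * γ = 2) (P : Finset (ℕ × ℕ)) :
    ∫ x, VV β P x * γ ^ lam P x ∂μ1 ≤ 1 + Cf β γ * (P.card : ℝ) := by
  classical
  have hβ0 : 0 < β := by linarith
  have hβ1 : 0 < β - 1 := by linarith
  induction P using Finset.induction_on_max_value (fun J : ℕ × ℕ => J.1) with
  | empty =>
    have h1 : ∀ x, VV β ∅ x * γ ^ lam ∅ x = 1 := by
      intro x
      have : lam ∅ x = 0 := Nat.le_zero.mp (lam_le (fun J hJ => absurd hJ (Finset.notMem_empty _)))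
      rw [this]; unfold VV; simp
    simp_rw [h1]
    rw [integral_const]
    unfold μ1
    simp
  | insert I P hI hmax ih =>
    set N := I.1 with hN
    -- the level of the maximal pick-free ancestor
    have hex : ∃ n, n ≤ N ∧ pf P n (I.2 / 2 ^ (N - n)) := by
      refine ⟨N, le_rfl, ?_⟩
      intro J hJ hNJ hcon
      have h1 : J.1 = N := le_antisymm (hmax J hJ) hNJ
      rw [h1, Nat.sub_self, pow_zero, Nat.div_one, Nat.div_one] at hcon
      apply hI
      have : J = I := Prod.ext h1 hcon
      rw [← this]; exact hJ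
    set l := Nat.find hex with hl
    obtain ⟨hlN, hlpf⟩ := Nat.find_spec hex
    rw [← hl] at hlN hlpf
    set CV := β / (β - 1) with hCV
    have hCV0 : 0 < CV := by positivity
    set Sg : ℝ → ℝ := fun x => ∑ n ∈ Finset.Ioc l (N + 1),
      γ ^ n * ind (n - 1) (I.2 / 2 ^ (N - (n - 1))) x with hSg
    have hpt : ∀ x, VV β (insert I P) x * γ ^ lam (insert I P) x ≤
        VV β P x * γ ^ lam P x + CV * β ^ l * Sg x + β ^ N * γ ^ (N + 1) * ind N I.2 x := by
      intro x
      have hV : VV β (insert I P) x = VV β P x + β ^ N * ind N I.2 x := by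
        unfold VV
        rw [Finset.sum_insert hI]; ring
      have hV1 := VV_ge_one β hβ0 P x
      have hSg0 : 0 ≤ Sg x := Finset.sum_nonneg (fun n _ => mul_nonneg (by positivity) (ind_nonneg _ _ _))
      have hlam : lam (insert I P) x ≤ N + 1 := by
        apply lam_bdd
        intro J hJ
        rcases Finset.mem_insert.mp hJ with h | h
        · rw [h]
        · exact hmax J h
      have h1 : β ^ N * ind N I.2 x * γ ^ lam (insert I P) x ≤ β ^ N * γ ^ (N + 1) * ind N I.2 x := by
        have h2 : γ ^ lam (insert I P) x ≤ γ ^ (N + 1) := pow_le_pow_right₀ hγ hlam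
        have h3 : 0 ≤ β ^ N * ind N I.2 x := mul_nonneg (by positivity) (ind_nonneg _ _ _)
        nlinarith [mul_le_mul_of_nonneg_left h2 h3]
      have h2 : VV β P x * γ ^ lam (insert I P) x ≤
          VV β P x * γ ^ lam P x + CV * β ^ l * Sg x := by
        rcases le_or_gt (lam (insert I P) x) (lam P x) with h | h
        · have h3 : γ ^ lam (insert I P) x ≤ γ ^ lam P x := pow_le_pow_right₀ hγ h
          have h4 : 0 ≤ CV * β ^ l * Sg x := by positivity
          nlinarith [mul_le_mul_of_nonneg_left h3 (by linarith : 0 ≤ VV β P x)]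
        · set n := lam (insert I P) x with hn
          have hn1 : n - 1 < n := by omega
          have h3 : ¬ pf (insert I P) (n - 1) (cell (n - 1) x) := lam_min hn1
          have h4 : pf P (n - 1) (cell (n - 1) x) := pf_mono (by omega) (lam_pf P x)
          have h5 : n - 1 ≤ N ∧ I.2 / 2 ^ (N - (n - 1)) = cell (n - 1) x := by
            by_contra hcon
            apply h3
            intro J hJ hnJ hJc
            rcases Finset.mem_insert.mp hJ with hJI | hJP
            · rw [hJI] at hnJ hJc
              exact hcon ⟨hnJ, hJc⟩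
            · exact h4 J hJP hnJ hJc
          have h6 : l ≤ n - 1 := by
            apply Nat.find_min'
            refine ⟨h5.1, ?_⟩
            rw [h5.2]; exact h4
          have h7 : n ∈ Finset.Ioc l (N + 1) := Finset.mem_Ioc.mpr ⟨by omega, hlam⟩
          have h8 : γ ^ n ≤ Sg x := by
            have h9 : γ ^ n * ind (n - 1) (I.2 / 2 ^ (N - (n - 1))) x ≤ Sg x :=
              Finset.single_le_sum (f := fun n => γ ^ n * ind (n - 1) (I.2 / 2 ^ (N - (n - 1))) x)
                (fun n _ => mul_nonneg (by positivity) (ind_nonneg _ _ _)) h7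
            have h10 : ind (n - 1) (I.2 / 2 ^ (N - (n - 1))) x = 1 := by
              unfold ind; rw [if_pos h5.2.symm]
            rw [h10, mul_one] at h9
            exact h9
          have h9 : pf P l (cell l x) := by
            rw [cell_le h6 x, ← h5.2, div_div_pow h6 h5.1]
            exact hlpf
          have h10 := VV_bound_pf hβ h9
          have h11 : VV β P x * γ ^ n ≤ CV * β ^ l * Sg x :=
            mul_le_mul h10 h8 (by positivity) (by positivity)
          have h12 : 0 ≤ VV β P x * γ ^ lam P x := by positivity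
          linarith
      rw [hV, add_mul]
      linarith
    have hi1 := int_VV_lam_integrable hβ0 hγ P
    have hi2 : Integrable (fun x => CV * β ^ l * Sg x) μ1 := by
      apply Integrable.const_mul
      apply integrable_finsetSum
      intro n _
      exact (integrable_ind _ _).const_mul _
    have hi3 : Integrable (fun x => β ^ N * γ ^ (N + 1) * ind N I.2 x) μ1 :=
      (integrable_ind _ _).const_mul _
    have hi12 : Integrable (fun x => VV β P x * γ ^ lam P x + CV * β ^ l * Sg x) μ1 := hi1.add hi2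
    have h1 := integral_mono (int_VV_lam_integrable hβ0 hγ (insert I P)) (hi12.add hi3) hpt
    refine h1.trans ?_
    rw [integral_add' hi12 hi3, integral_add hi1 hi2, integral_const_mul, integral_const_mul]
    have h2 : CV * β ^ l * ∫ x, Sg x ∂μ1 ≤ 2 * CV / (β - 1) := by
      have h3 : ∫ x, Sg x ∂μ1 ≤ ∑ n ∈ Finset.Ioc l (N + 1), γ ^ n * (1 / 2) ^ (n - 1) := by
        simp only [hSg]
        rw [integral_finsetSum _ (fun n _ => (integrable_ind _ _).const_mul _)]
        apply Finset.sum_le_sum
        intro n _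
        rw [integral_const_mul]
        exact mul_le_mul_of_nonneg_left (int_ind_le _ _) (by positivity)
      have h4 : β ^ l * ∑ n ∈ Finset.Ioc l (N + 1), γ ^ n * (1 / 2) ^ (n - 1) ≤ 2 / (β - 1) := by
        have h5 : ∀ n ∈ Finset.Ioc l (N + 1), γ ^ n * (1 / 2 : ℝ) ^ (n - 1) = 2 * (1 / β) ^ n := by
          intro n hn
          have hn1 : 1 ≤ n := by have := (Finset.mem_Ioc.mp hn).1; omega
          obtain ⟨m, rfl⟩ := Nat.exists_eq_add_of_le' hn1
          rw [Nat.add_sub_cancel]
          have hγe : γ = 2 * (1 / β) := by field_simp; linarith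
          rw [hγe, mul_pow, pow_succ 2, one_div_pow 2]
          field_simp
        rw [Finset.sum_congr rfl h5, ← Finset.mul_sum]
        have h6 : ∑ n ∈ Finset.Ioc l (N + 1), (1 / β) ^ n ≤ (1 / β) ^ l * (1 / (β - 1)) := by
          have h7 : ∀ M, l ≤ M → ∑ n ∈ Finset.Ioc l M, (1 / β) ^ n ≤
              (1 / β) ^ l * (1 / (β - 1)) - (1 / β) ^ M * (1 / (β - 1)) := by
            intro M hM
            induction M, hM using Nat.le_induction with
            | base => simp
            | succ M hM ih2 =>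
              rw [Finset.sum_Ioc_succ_top hM]
              have h8 : (1 / β) ^ (M + 1) = (1 / β) ^ M * (1 / (β - 1)) - (1 / β) ^ (M + 1) * (1 / (β - 1)) := by
                rw [pow_succ]
                field_simp

              linarith
          have h8 := h7 (N + 1) (by omega)
          have h9 : 0 ≤ (1 / β) ^ (N + 1) * (1 / (β - 1)) := by positivity
          linarith
        have h7 : β ^ l * (2 * ∑ n ∈ Finset.Ioc l (N + 1), (1 / β) ^ n) ≤
            β ^ l * (2 * ((1 / β) ^ l * (1 / (β - 1)))) :=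
          mul_le_mul_of_nonneg_left (by linarith) (by positivity)
        refine h7.trans (le_of_eq ?_)
        rw [one_div_pow]
        field_simp
      calc CV * β ^ l * ∫ x, Sg x ∂μ1 ≤
          CV * β ^ l * ∑ n ∈ Finset.Ioc l (N + 1), γ ^ n * (1 / 2) ^ (n - 1) :=
            mul_le_mul_of_nonneg_left h3 (by positivity)
        _ = CV * (β ^ l * ∑ n ∈ Finset.Ioc l (N + 1), γ ^ n * (1 / 2) ^ (n - 1)) := by ring
        _ ≤ CV * (2 / (β - 1)) := mul_le_mul_of_nonneg_left h4 hCV0.le
        _ = 2 * CV / (β - 1) := by ring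
    have h3 : β ^ N * γ ^ (N + 1) * ∫ x, ind N I.2 x ∂μ1 ≤ γ := by
      have h4 : β ^ N * γ ^ (N + 1) * ∫ x, ind N I.2 x ∂μ1 ≤ β ^ N * γ ^ (N + 1) * (1 / 2) ^ N :=
        mul_le_mul_of_nonneg_left (int_ind_le _ _) (by positivity)
      refine h4.trans (le_of_eq ?_)
      rw [pow_succ]
      have : β ^ N * (γ ^ N * γ) * (1 / 2) ^ N = (β * γ) ^ N * (1 / 2) ^ N * γ := by
        rw [mul_pow]; ring
      rw [this, hβγ, ← mul_pow]
      norm_num
    rw [Finset.card_insert_of_notMem hI]
    push_cast
    have h4 : Cf β γ = 2 * CV / (β - 1) + γ := rfl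
    rw [h4] at ih ⊢
    linarith

end Pool.Agent.Helper415.HA
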