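import Mathlib
import Pool.Agent.Helper415.HA1
import Pool.Agent.Helper415.HA3

/-! Haar functions and local averages. -/

set_option autoImplicit false

open MeasureTheory

namespace Pool.Agent.Helper415.HA

open Pool.Agent.Helper415

noncomputable def hb (p : ℝ) : ℝ := 2 ^ (1 / p)
noncomputable def bt (p : ℝ) : ℝ := 2 ^ (2 / p)
noncomputable def gm (p : ℝ) : ℝ := 2 ^ (1 - 2 / p)

section params
variable {p : ℝ}

lemma hb_sq (p : ℝ) : hb p ^ 2 = bt p := by
  unfold hb bt
  rw [← Real.rpow_natCast, ← Real.rpow_mul (by norm_num)]; norm_num; ring_nf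

lemma hb_pos (p : ℝ) : 0 < hb p := by unfold hb; positivity

lemma bt_pos (p : ℝ) : 0 < bt p := by unfold bt; positivity

lemma bt_gm (p : ℝ) : bt p * gm p = 2 := by
  unfold bt gm
  rw [← Real.rpow_add (by norm_num), show 2 / p + (1 - 2 / p) = 1 by ring, Real.rpow_one]

lemma bt_gt (hp : 2 < p) : 1 < bt p := by
  unfold bt
  exact Real.one_lt_rpow (by norm_num) (by positivity)

lemma gm_ge (hp : 2 < p) : 1 ≤ gm p := by
  unfold gm
  apply Real.one_le_rpow (by norm_num)
  rw [sub_nonneg, div_le_one (by linarith)]; linarith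

lemma hb_gt (hp : 2 < p) : 1 < hb p := by
  unfold hb
  exact Real.one_lt_rpow (by norm_num) (by positivity)

lemma hb_lt (hp : 2 < p) : hb p < 2 := by
  unfold hb
  calc (2:ℝ) ^ (1 / p) < 2 ^ (1:ℝ) := by
        apply Real.rpow_lt_rpow_of_exponent_lt (by norm_num)
        rw [div_lt_one (by linarith)]; linarith
    _ = 2 := Real.rpow_one 2

lemma hb_pow (hp : 2 < p) (n : ℕ) : (hb p ^ n) ^ p = 2 ^ n := by
  unfold hb
  rw [← Real.rpow_natCast, ← Real.rpow_mul (by positivity), ← Real.rpow_mul (by positivity),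
    ← Real.rpow_natCast]
  congr 1
  field_simp

lemma two_hb_rho (hp : 2 < p) (n : ℕ) : (2 ^ n * (1 / hb p) ^ n) ^ rho p = gm p ^ n := by
  have h1 : (2:ℝ) ^ n * (1 / hb p) ^ n = (2 / hb p) ^ n := by rw [← mul_pow]; ring
  have h2 : 2 / hb p = 2 ^ (1 - 1 / p) := by
    unfold hb
    rw [Real.rpow_sub (by norm_num), Real.rpow_one]
  rw [h1, h2, ← Real.rpow_natCast, ← Real.rpow_mul (by positivity), ← Real.rpow_mul (by positivity)]
  unfold gm rho
  rw [← Real.rpow_natCast, ← Real.rpow_mul (by positivity)]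
  congr 1
  have h3 : p - 1 ≠ 0 := by linarith
  have h4 : p ≠ 0 := by linarith
  field_simp

end params

/-- Index of a Haar function; `none` is the constant function. -/
abbrev Ix := Option (ℕ × ℕ)

def lev : Ix → ℕ
  | none => 0
  | some J => J.1

def cel : Ix → ℕ
  | none => 0
  | some J => J.2

/-- Valid indices. -/
def Valid (J : Ix) : Prop := cel J < 2 ^ lev J

/-- Haar functions normalized in `L_p`. -/
noncomputable def Hf (p : ℝ) : Ix → ℝ → ℝ
  | none => ind 0 0
  | some J => fun x => hb p ^ J.1 * (ind J.1 J.2 x * rs J.1 x)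

section haar
variable {p : ℝ}

lemma meas_Hf (p : ℝ) (J : Ix) : Measurable (Hf p J) := by
  cases J with
  | none => exact meas_ind 0 0
  | some J => exact ((meas_ind _ _).mul (meas_rs _)).const_mul _

lemma Hf_abs (p : ℝ) (J : Ix) (x : ℝ) : |Hf p J x| = hb p ^ lev J * ind (lev J) (cel J) x := by
  cases J with
  | none => simp only [Hf, lev, cel, pow_zero, one_mul]; exact abs_of_nonneg (ind_nonneg _ _ _)
  | some J =>
    simp only [Hf, lev, cel]
    rw [abs_mul, abs_mul, rs_abs, mul_one, abs_of_nonneg (ind_nonneg _ _ _),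
      abs_of_pos (pow_pos (hb_pos p) _)]

lemma Hf_sq (p : ℝ) (J : Ix) (x : ℝ) : Hf p J x ^ 2 = bt p ^ lev J * ind (lev J) (cel J) x := by
  rw [← sq_abs, Hf_abs, mul_pow, ind_sq, ← hb_sq, ← pow_mul, ← pow_mul, mul_comm 2]

lemma ind_rpow {q : ℝ} (hq : 0 < q) (n k : ℕ) (x : ℝ) : ind n k x ^ q = ind n k x := by
  unfold ind; split_ifs
  · exact Real.one_rpow q
  · exact Real.zero_rpow hq.ne'

lemma Hf_pow (hp : 2 < p) (J : Ix) (x : ℝ) : |Hf p J x| ^ p = 2 ^ lev J * ind (lev J) (cel J) x := by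
  rw [Hf_abs, Real.mul_rpow (pow_nonneg (hb_pos p).le _) (ind_nonneg _ _ _), hb_pow hp,
    ind_rpow (by linarith)]

lemma Hf_memLp (p : ℝ) (J : Ix) (q : ENNReal) : MemLp (Hf p J) q μ1 := by
  apply MemLp.of_bound (meas_Hf p J).aestronglyMeasurable (hb p ^ lev J)
  refine Filter.Eventually.of_forall (fun x => ?_)
  rw [Real.norm_eq_abs, Hf_abs]
  exact mul_le_of_le_one_right (pow_nonneg (hb_pos p).le _) (ind_le_one _ _ _)

lemma Hf_int (hp : 2 < p) (J : Ix) : ∫ x, |Hf p J x| ^ p ∂μ1 ≤ 1 := by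
  simp_rw [Hf_pow hp]
  rw [integral_const_mul]
  have h := int_ind_le (lev J) (cel J)
  calc (2:ℝ) ^ lev J * ∫ x, ind (lev J) (cel J) x ∂μ1 ≤ 2 ^ lev J * (1 / 2) ^ lev J :=
        mul_le_mul_of_nonneg_left h (by positivity)
    _ = 1 := by rw [← mul_pow]; norm_num

/-- The constant of the average bound. -/
noncomputable def Ca (p : ℝ) : ℝ := hb p / (2 - hb p)

lemma Ca_ge (hp : 2 < p) : 1 ≤ Ca p := by
  unfold Ca
  have h1 := hb_gt hp
  have h2 := hb_lt hp
  rw [le_div_iff₀ (by linarith)]; linarith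

/-- Averages over dyadic cells are controlled by the dual Haar coefficients. -/
lemma avg_bound (hp : 2 < p) {Ψ : ℝ → ℝ} (hΨ : Integrable Ψ μ1) {α : ℝ}
    (hα : ∀ J, Valid J → |∫ x, Ψ x * Hf p J x ∂μ1| ≤ α) (n : ℕ) :
    ∀ k, k < 2 ^ n → |∫ x, Ψ x * ind n k x ∂μ1| ≤ Ca p * α * (1 / hb p) ^ n := by
  have hα0 : 0 ≤ α := (abs_nonneg _).trans (hα none (by unfold Valid cel lev; norm_num))
  have h1 := hb_gt hp
  have h2 := hb_lt hp
  have hCa := Ca_ge hp
  induction n with
  | zero =>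
    intro k hk
    have hk0 : k = 0 := by simpa using hk
    subst hk0
    have h3 := hα none (by unfold Valid cel lev; norm_num)
    simp only [Hf] at h3
    rw [pow_zero, mul_one]
    nlinarith
  | succ n ih =>
    intro k hk
    have hj : k / 2 < 2 ^ n := by rw [pow_succ] at hk; omega
    set j := k / 2 with hjd
    have h3 := ih j hj
    have h4 := hα (some (n, j)) hj
    simp only [Hf] at h4
    have hpn : 0 < hb p ^ n := pow_pos (hb_pos p) n
    have e1 : ∫ x, Ψ x * (hb p ^ n * (ind n j x * rs n x)) ∂μ1 =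
        hb p ^ n * ∫ x, Ψ x * (ind n j x * rs n x) ∂μ1 := by
      rw [← integral_const_mul]; congr 1; funext x; ring
    rw [e1, abs_mul, abs_of_pos hpn] at h4
    have h5 : |∫ x, Ψ x * (ind n j x * rs n x) ∂μ1| ≤ α * (1 / hb p) ^ n := by
      rw [one_div_pow, mul_one_div, le_div_iff₀ hpn, mul_comm]; exact h4
    have i1 := integrable_mul_ind hΨ n j
    have i2 : Integrable (fun x => Ψ x * (ind n j x * rs n x)) μ1 := by
      have := (integrable_mul_ind hΨ (n + 1) (2 * j)).sub (integrable_mul_ind hΨ (n + 1) (2 * j + 1))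
      refine this.congr (Filter.Eventually.of_forall (fun x => ?_))
      show Ψ x * ind (n + 1) (2 * j) x - Ψ x * ind (n + 1) (2 * j + 1) x = Ψ x * (ind n j x * rs n x)
      rw [ind_rs]; ring
    have h6 : |∫ x, Ψ x * ind (n + 1) k x ∂μ1| ≤
        (1 / 2) * (|∫ x, Ψ x * ind n j x ∂μ1| + |∫ x, Ψ x * (ind n j x * rs n x) ∂μ1|) := by
      rcases Nat.mod_two_eq_zero_or_one k with h | h
      · have hk2 : k = 2 * j := by omega
        have e2 : ∀ x, Ψ x * ind (n + 1) k x =
            (1 / 2) * (Ψ x * ind n j x + Ψ x * (ind n j x * rs n x)) := by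
          intro x; rw [ind_rs, ind_split n j, hk2]; ring
        simp_rw [e2]
        rw [integral_const_mul, integral_add i1 i2, abs_mul, abs_of_pos (by norm_num : (0:ℝ) < 1 / 2)]
        exact mul_le_mul_of_nonneg_left (abs_add_le _ _) (by norm_num)
      · have hk2 : k = 2 * j + 1 := by omega
        have e2 : ∀ x, Ψ x * ind (n + 1) k x =
            (1 / 2) * (Ψ x * ind n j x - Ψ x * (ind n j x * rs n x)) := by
          intro x; rw [ind_rs, ind_split n j, hk2]; ring
        simp_rw [e2]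
        rw [integral_const_mul, integral_sub i1 i2, abs_mul, abs_of_pos (by norm_num : (0:ℝ) < 1 / 2)]
        exact mul_le_mul_of_nonneg_left (abs_sub _ _) (by norm_num)
    refine h6.trans ?_
    have h7 : (1 / 2 : ℝ) * (Ca p * α * (1 / hb p) ^ n + α * (1 / hb p) ^ n) =
        Ca p * α * (1 / hb p) ^ (n + 1) := by
      rw [pow_succ]
      unfold Ca
      have h8 : 2 - hb p ≠ 0 := by linarith
      have h9 : hb p ≠ 0 := (hb_pos p).ne'
      field_simp
      ring
    rw [← h7]
    exact mul_le_mul_of_nonneg_left (by linarith) (by norm_num)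

lemma Phi_meas (p : ℝ) {R : ℝ → ℝ} (hR : AEStronglyMeasurable R μ1) :
    AEStronglyMeasurable (fun x => Phi p (R x)) μ1 := by
  unfold Phi
  exact (WC.meas_abs_rpow hR (p - 2)).mul hR

lemma int_pow_sub_one {p : ℝ} (hp : 2 < p) {F : ℝ → ℝ} (hF : MemLp F (ENNReal.ofReal p) μ1) {q : ℝ}
    (hq0 : 0 ≤ q) (hq : q ≤ p) : Integrable (fun x => |F x| ^ q) μ1 := by
  have h1 := WC.int_rpow hp.le hF
  have h2 : Integrable (fun x => 1 + |F x| ^ p) μ1 := (integrable_const 1).add h1
  refine h2.mono' (WC.meas_abs_rpow hF.1 q) (Filter.Eventually.of_forall (fun x => ?_))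
  rw [Real.norm_eq_abs, abs_of_nonneg (by positivity)]
  rcases le_total |F x| 1 with h | h
  · have := Real.rpow_le_one (abs_nonneg (F x)) h hq0
    have h3 : 0 ≤ |F x| ^ p := by positivity
    linarith
  · have := Real.rpow_le_rpow_of_exponent_le h hq
    linarith

lemma int_Phi {p : ℝ} (hp : 2 < p) {R : ℝ → ℝ} (hR : MemLp R (ENNReal.ofReal p) μ1) :
    Integrable (fun x => Phi p (R x)) μ1 := by
  refine (int_pow_sub_one hp hR (q := p - 1) (by linarith) (by linarith)).mono'
    (Phi_meas p hR.1) (Filter.Eventually.of_forall (fun x => ?_))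
  rw [Real.norm_eq_abs, Phi_abs (by linarith)]

/-- The value of the step function on a cell. -/
lemma z_bound (hp : 2 < p) {F R : ℝ → ℝ} (hF : MemLp F (ENNReal.ofReal p) μ1)
    (hR : MemLp R (ENNReal.ofReal p) μ1) {n k : ℕ} (hk : k < 2 ^ n) {z : ℝ}
    (hRz : ∀ x ∈ Set.Ico (0:ℝ) 1, cell n x = k → R x = F x - z) :
    (|z| / 2) ^ (p - 1) * (1 / 2) ^ n ≤
      2 * ∫ x, |F x| ^ (p - 1) * ind n k x ∂μ1 + |∫ x, Phi p (R x) * ind n k x ∂μ1| := by
  have iF := int_pow_sub_one hp hF (q := p - 1) (by linarith) (by linarith)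
  have iFi := integrable_mul_ind iF n k
  have iP := integrable_mul_ind (int_Phi hp hR) n k
  have iI := integrable_ind n k
  have key : ∀ ε : ℝ, (ε = 1 ∨ ε = -1) → ε * |z| = -z →
      (|z| / 2) ^ (p - 1) * (1 / 2) ^ n ≤
      2 * ∫ x, |F x| ^ (p - 1) * ind n k x ∂μ1 + ε * ∫ x, Phi p (R x) * ind n k x ∂μ1 := by
    intro ε hε hz
    have hpt : ∀ᵐ x ∂μ1, (|z| / 2) ^ (p - 1) * ind n k x - 2 * (|F x| ^ (p - 1) * ind n k x) ≤
        ε * (Phi p (R x) * ind n k x) := by
      unfold μ1
      rw [ae_restrict_iff' measurableSet_Ico]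
      refine Filter.Eventually.of_forall (fun x hx => ?_)
      unfold ind
      split_ifs with hc
      · rw [hRz x hx hc, mul_one, mul_one, mul_one]
        have h1 := Phi_low hp.le (abs_nonneg z) (ε * F x)
        have h2 : |ε * F x| = |F x| := by
          rcases hε with h | h <;> rw [h] <;> simp
        have h3 : |z| + ε * F x = ε * (F x - z) := by
          rcases hε with h | h
          · rw [h] at hz ⊢; linarith
          · rw [h] at hz ⊢; linarith
        have h4 : Phi p (ε * (F x - z)) = ε * Phi p (F x - z) := by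
          rcases hε with h | h
          · rw [h, one_mul, one_mul]
          · rw [h, neg_one_mul, neg_one_mul, Phi_neg]
        rw [h2, h3, h4] at h1
        exact h1
      · simp
    have h1 := integral_mono_ae ((iI.const_mul _).sub (iFi.const_mul 2)) (iP.const_mul ε) hpt
    have h2 : ∫ x, ((fun x => (|z| / 2) ^ (p - 1) * ind n k x) -
        fun x => 2 * (|F x| ^ (p - 1) * ind n k x)) x ∂μ1 =
        (|z| / 2) ^ (p - 1) * (1 / 2) ^ n - 2 * ∫ x, |F x| ^ (p - 1) * ind n k x ∂μ1 := by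
      rw [integral_sub' (iI.const_mul _) (iFi.const_mul 2), integral_const_mul, integral_const_mul,
        int_ind_eq hk]
    have h3 : (|z| / 2) ^ (p - 1) * (1 / 2) ^ n - 2 * ∫ x, |F x| ^ (p - 1) * ind n k x ∂μ1 ≤
        ∫ x, ε * (Phi p (R x) * ind n k x) ∂μ1 := h2 ▸ h1
    rw [integral_const_mul] at h3
    linarith
  rcases le_total z 0 with h | h
  · have h1 := key 1 (Or.inl rfl) (by rw [abs_of_nonpos h]; ring)
    have h2 := le_abs_self (∫ x, Phi p (R x) * ind n k x ∂μ1)
    linarith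
  · have h1 := key (-1) (Or.inr rfl) (by rw [abs_of_nonneg h]; ring)
    have h2 := neg_le_abs (∫ x, Phi p (R x) * ind n k x ∂μ1)
    linarith

end haar

end Pool.Agent.Helper415.HA
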