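import Mathlib
import Pool.Agent.Helper415.HA4

/-! Step functions on the maximal pick-free cells. -/

set_option autoImplicit false

open MeasureTheory

namespace Pool.Agent.Helper415.HA

open Pool.Agent.Helper415

open Classical in
/-- The finite set of maximal pick-free cells. -/
noncomputable def LL (P : Finset (ℕ × ℕ)) : Finset (ℕ × ℕ) :=
  ((Finset.range (P.sup Prod.fst + 2)) ×ˢ (Finset.range (2 ^ (P.sup Prod.fst + 1)))).filter
    (fun J => J.2 < 2 ^ J.1 ∧ pf P J.1 J.2 ∧ ∀ m < J.1, ¬ pf P m (J.2 / 2 ^ (J.1 - m)))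

lemma lam_le_sup (P : Finset (ℕ × ℕ)) (x : ℝ) : lam P x ≤ P.sup Prod.fst + 1 :=
  lam_bdd (fun J hJ => Finset.le_sup (f := Prod.fst) hJ) x

lemma mem_LL {P : Finset (ℕ × ℕ)} {x : ℝ} (hx : x ∈ Set.Ico (0:ℝ) 1) :
    (lam P x, cell (lam P x) x) ∈ LL P := by
  classical
  unfold LL
  rw [Finset.mem_filter, Finset.mem_product]
  have h1 := lam_le_sup P x
  have h2 : cell (lam P x) x < 2 ^ lam P x := cell_lt hx
  refine ⟨⟨Finset.mem_range.mpr (by simp only; omega), Finset.mem_range.mpr ?_⟩, h2, lam_pf P x, ?_⟩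
  · exact lt_of_lt_of_le h2 (Nat.pow_le_pow_right (by norm_num) h1)
  · intro m hm hcon
    simp only at hm hcon
    rw [← cell_le hm.le x] at hcon
    exact lam_min hm hcon

lemma LL_unique {P : Finset (ℕ × ℕ)} {x : ℝ} {J : ℕ × ℕ} (hJ : J ∈ LL P) (hc : cell J.1 x = J.2) :
    J = (lam P x, cell (lam P x) x) := by
  classical
  unfold LL at hJ
  obtain ⟨_, _, h1, h2⟩ := Finset.mem_filter.mp hJ
  rw [← hc] at h1
  have h3 : lam P x = J.1 := by
    apply le_antisymm (lam_le h1)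
    by_contra hcon
    push Not at hcon
    apply h2 (lam P x) hcon
    rw [← hc, ← cell_le hcon.le x]
    exact lam_pf P x
  rw [h3, hc]

/-- Step functions on the maximal pick-free cells. -/
noncomputable def stepf (P : Finset (ℕ × ℕ)) (φ : ℕ → ℕ → ℝ) (x : ℝ) : ℝ :=
  ∑ J ∈ LL P, φ J.1 J.2 * ind J.1 J.2 x

lemma stepf_eq {P : Finset (ℕ × ℕ)} {φ : ℕ → ℕ → ℝ} {x : ℝ} (hx : x ∈ Set.Ico (0:ℝ) 1) :
    stepf P φ x = φ (lam P x) (cell (lam P x) x) := by
  classical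
  unfold stepf
  rw [Finset.sum_eq_single (lam P x, cell (lam P x) x)]
  · unfold ind; simp
  · intro J hJ hne
    have : ¬ cell J.1 x = J.2 := fun hc => hne (LL_unique hJ hc)
    unfold ind; rw [if_neg this, mul_zero]
  · intro h; exact absurd (mem_LL hx) h

lemma integrable_stepf (P : Finset (ℕ × ℕ)) (φ : ℕ → ℕ → ℝ) : Integrable (stepf P φ) μ1 := by
  unfold stepf
  exact integrable_finsetSum _ (fun J _ => (integrable_ind _ _).const_mul _)

lemma stepf_nonneg {P : Finset (ℕ × ℕ)} {φ : ℕ → ℕ → ℝ} (h : ∀ n k, 0 ≤ φ n k) (x : ℝ) :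
    0 ≤ stepf P φ x := Finset.sum_nonneg (fun J _ => mul_nonneg (h _ _) (ind_nonneg _ _ _))

lemma meas_stepf (P : Finset (ℕ × ℕ)) (φ : ℕ → ℕ → ℝ) : Measurable (stepf P φ) := by
  unfold stepf
  exact Finset.measurable_fun_sum _ (fun J _ => (meas_ind J.1 J.2).const_mul _)

lemma stepf_bdd (P : Finset (ℕ × ℕ)) (φ : ℕ → ℕ → ℝ) : ∃ C, ∀ x, |stepf P φ x| ≤ C := by
  refine ⟨∑ J ∈ LL P, |φ J.1 J.2|, fun x => ?_⟩
  unfold stepf
  refine (Finset.abs_sum_le_sum_abs _ _).trans (Finset.sum_le_sum (fun J _ => ?_))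
  rw [abs_mul, abs_of_nonneg (ind_nonneg _ _ _)]
  exact mul_le_of_le_one_right (abs_nonneg _) (ind_le_one _ _ _)

/-- Local average of `|F|^(p-1)`. -/
noncomputable def aa (p : ℝ) (F : ℝ → ℝ) (n k : ℕ) : ℝ := 2 ^ n * ∫ y, |F y| ^ (p - 1) * ind n k y ∂μ1

lemma aa_nonneg (p : ℝ) (F : ℝ → ℝ) (n k : ℕ) : 0 ≤ aa p F n k :=
  mul_nonneg (by positivity) (integral_nonneg (fun x => mul_nonneg (by positivity) (ind_nonneg _ _ _)))

section main
variable {p : ℝ}

/-- Jensen on the partition. -/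
lemma int_AA (hp : 2 < p) (P : Finset (ℕ × ℕ)) {F : ℝ → ℝ} (hF : MemLp F (ENNReal.ofReal p) μ1) :
    ∫ x, stepf P (fun n k => aa p F n k ^ (p / (p - 1))) x ∂μ1 ≤ ∫ x, |F x| ^ p ∂μ1 := by
  have hp1 : 0 < p - 1 := by linarith
  have i1 := int_pow_sub_one hp hF (q := p - 1) (by linarith) (by linarith)
  have i2 := WC.int_rpow hp.le hF
  have h1 : ∫ x, stepf P (fun n k => aa p F n k ^ (p / (p - 1))) x ∂μ1 =
      ∑ J ∈ LL P, aa p F J.1 J.2 ^ (p / (p - 1)) * ∫ x, ind J.1 J.2 x ∂μ1 := by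
    unfold stepf
    rw [integral_finsetSum _ (fun J _ => (integrable_ind _ _).const_mul _)]
    apply Finset.sum_congr rfl
    intro J _
    rw [integral_const_mul]
  have hpow : ∀ x, (|F x| ^ (p - 1)) ^ (p / (p - 1)) = |F x| ^ p := by
    intro x
    rw [← Real.rpow_mul (abs_nonneg _)]; congr 1; field_simp
  have h2 : ∀ J ∈ LL P, aa p F J.1 J.2 ^ (p / (p - 1)) * ∫ x, ind J.1 J.2 x ∂μ1 ≤
      ∫ x, |F x| ^ p * ind J.1 J.2 x ∂μ1 := by
    intro J hJ
    classical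
    have hv : J.2 < 2 ^ J.1 := (Finset.mem_filter.mp hJ).2.1
    have hm : (0:ℝ) < (1 / 2) ^ J.1 := by positivity
    have h3 := jensen_ind (μ := μ1) (q := p / (p - 1)) (g := fun x => |F x| ^ (p - 1))
      (w := ind J.1 J.2) (by rw [le_div_iff₀ hp1]; linarith) (fun x => by positivity)
      (ind_nonneg _ _) (integrable_ind _ _) (integrable_mul_ind i1 _ _)
      (by simp_rw [hpow]; exact integrable_mul_ind i2 _ _) hm (int_ind_eq hv)
    simp_rw [hpow] at h3
    rw [int_ind_eq hv]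
    refine le_trans (le_of_eq ?_) h3
    unfold aa
    rw [mul_comm]
    congr 2
    rw [one_div_pow]
    field_simp
  rw [h1]
  refine (Finset.sum_le_sum h2).trans ?_
  rw [← integral_finsetSum _ (fun J _ => integrable_mul_ind i2 _ _)]
  have h3 : ∀ᵐ x ∂μ1, ∑ J ∈ LL P, |F x| ^ p * ind J.1 J.2 x = |F x| ^ p := by
    unfold μ1
    rw [ae_restrict_iff' measurableSet_Ico]
    refine Filter.Eventually.of_forall (fun x hx => ?_)
    have h4 := stepf_eq (P := P) (φ := fun _ _ => |F x| ^ p) hx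
    exact h4
  rw [integral_congr_ae h3]

lemma add_rpow_le' {q : ℝ} (hq : 0 ≤ q) {a b : ℝ} (ha : 0 ≤ a) (hb : 0 ≤ b) :
    (a + b) ^ q ≤ 2 ^ q * (a ^ q + b ^ q) := by
  have h1 : a + b ≤ 2 * max a b := by
    have := le_max_left a b; have := le_max_right a b; linarith
  have h2 := Real.rpow_le_rpow (by positivity) h1 hq
  rw [Real.mul_rpow (by norm_num) (by positivity)] at h2
  refine h2.trans (mul_le_mul_of_nonneg_left ?_ (by positivity))
  have h3 : 0 ≤ a ^ q := by positivity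
  have h4 : 0 ≤ b ^ q := by positivity
  rcases le_total a b with h | h
  · rw [max_eq_right h]; linarith
  · rw [max_eq_left h]; linarith

/-- Constant. -/
noncomputable def CR (p : ℝ) : ℝ := 4 ^ (p - 2) * (2 * Ca p)

lemma CR_pos (hp : 2 < p) : 0 < CR p := by
  unfold CR
  have := Ca_ge hp
  positivity

/-- Pointwise bound of the residual. -/
lemma R_pow_bound (hp : 2 < p) (P : Finset (ℕ × ℕ)) {F Z : ℝ → ℝ}
    (hF : MemLp F (ENNReal.ofReal p) μ1) (hR : MemLp (fun x => F x - Z x) (ENNReal.ofReal p) μ1)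
    (hZ : ∀ n, ∀ x ∈ Set.Ico (0:ℝ) 1, ∀ y ∈ Set.Ico (0:ℝ) 1, cell n x = cell n y →
      pf P n (cell n x) → Z x = Z y) {α : ℝ}
    (hα : ∀ J, Valid J → |∫ x, Phi p (F x - Z x) * Hf p J x ∂μ1| ≤ α) {x : ℝ}
    (hx : x ∈ Set.Ico (0:ℝ) 1) :
    |F x - Z x| ^ (p - 2) ≤ CR p * ((|F x| ^ (p - 2) + stepf P (fun n k => aa p F n k ^ rho p) x)
      + α ^ rho p * gm p ^ lam P x) := by
  have hp1 : 0 < p - 1 := by linarith
  have hp2 : 0 < p - 2 := by linarith
  have hα0 : 0 ≤ α := (abs_nonneg _).trans (hα none (by unfold Valid cel lev; norm_num))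
  have hCa := Ca_ge hp
  have hρ0 : 0 < rho p := by unfold rho; positivity
  have hρ1 : rho p ≤ 1 := by unfold rho; rw [div_le_one hp1]; linarith
  rw [stepf_eq hx]
  set n := lam P x with hn
  set k := cell n x with hk
  set z := Z x with hz
  have hkn : k < 2 ^ n := cell_lt hx
  have h1 := z_bound hp hF hR hkn (z := z) (fun y hy hc => by
    rw [hz, hZ n x hx y hy (by rw [hc]) (lam_pf P x)])
  have h2 := avg_bound hp (int_Phi hp hR) hα n k hkn
  have h3 : (|z| / 2) ^ (p - 1) ≤ 2 * aa p F n k + Ca p * α * (2 ^ n * (1 / hb p) ^ n) := by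
    have h4 := h1.trans (add_le_add_right h2 _)
    have h5 := mul_le_mul_of_nonneg_left h4 (by positivity : (0:ℝ) ≤ 2 ^ n)
    have h6 : (2:ℝ) ^ n * ((|z| / 2) ^ (p - 1) * (1 / 2) ^ n) = (|z| / 2) ^ (p - 1) := by
      rw [one_div_pow]; field_simp
    rw [h6] at h5
    refine h5.trans (le_of_eq ?_)
    unfold aa; ring
  have haa := aa_nonneg p F n k
  have hhb : 0 ≤ (2:ℝ) ^ n * (1 / hb p) ^ n := by have := hb_pos p; positivity
  have h4 : (|z| / 2) ^ (p - 2) ≤ 2 * aa p F n k ^ rho p + Ca p * (α ^ rho p * gm p ^ n) := by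
    have h5 := Real.rpow_le_rpow (by positivity) h3 hρ0.le
    have h6 : ((|z| / 2) ^ (p - 1)) ^ rho p = (|z| / 2) ^ (p - 2) := by
      rw [← Real.rpow_mul (by positivity)]; congr 1; unfold rho; field_simp
    rw [h6] at h5
    have h7 := Real.rpow_add_le_add_rpow (by positivity : 0 ≤ 2 * aa p F n k)
      (by positivity : 0 ≤ Ca p * α * (2 ^ n * (1 / hb p) ^ n)) hρ0.le hρ1
    refine h5.trans (h7.trans ?_)
    rw [Real.mul_rpow (by norm_num) haa, Real.mul_rpow (by positivity) hhb, two_hb_rho hp,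
      Real.mul_rpow (by positivity) hα0]
    have h8 : (2:ℝ) ^ rho p ≤ 2 := by
      calc (2:ℝ) ^ rho p ≤ 2 ^ (1:ℝ) := Real.rpow_le_rpow_of_exponent_le (by norm_num) hρ1
        _ = 2 := Real.rpow_one 2
    have h9 : Ca p ^ rho p ≤ Ca p := by
      calc Ca p ^ rho p ≤ Ca p ^ (1:ℝ) := Real.rpow_le_rpow_of_exponent_le hCa hρ1
        _ = Ca p := Real.rpow_one _
    have h10 : 0 ≤ aa p F n k ^ rho p := by positivity
    have h11 : 0 ≤ α ^ rho p * gm p ^ n := by have := gm_ge hp; positivity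
    have h12 := mul_le_mul_of_nonneg_right h8 h10
    have h13 := mul_le_mul_of_nonneg_right h9 h11
    calc (2:ℝ) ^ rho p * aa p F n k ^ rho p + Ca p ^ rho p * α ^ rho p * gm p ^ n =
        2 ^ rho p * aa p F n k ^ rho p + Ca p ^ rho p * (α ^ rho p * gm p ^ n) := by ring
      _ ≤ _ := add_le_add h12 h13
  have h5 : |F x - z| ≤ |F x| + |z| := abs_sub _ _
  have h6 : |F x - z| ^ (p - 2) ≤ 2 ^ (p - 2) * (|F x| ^ (p - 2) + |z| ^ (p - 2)) :=
    (Real.rpow_le_rpow (abs_nonneg _) h5 hp2.le).trans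
      (add_rpow_le' hp2.le (abs_nonneg _) (abs_nonneg _))
  have h7 : |z| ^ (p - 2) = 2 ^ (p - 2) * (|z| / 2) ^ (p - 2) := by
    rw [← Real.mul_rpow (by norm_num) (by positivity)]; congr 1; ring
  refine h6.trans ?_
  rw [h7]
  have h8 : (4:ℝ) ^ (p - 2) = 2 ^ (p - 2) * 2 ^ (p - 2) := by
    rw [← Real.mul_rpow (by norm_num) (by norm_num)]; norm_num
  have h9 : (1:ℝ) ≤ 2 ^ (p - 2) := Real.one_le_rpow (by norm_num) hp2.le
  have hFx : 0 ≤ |F x| ^ (p - 2) := by positivity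
  have h10 : 0 ≤ aa p F n k ^ rho p := by positivity
  have h11 : 0 ≤ α ^ rho p * gm p ^ n := by have := gm_ge hp; positivity
  unfold CR
  rw [h8]
  set T : ℝ := 2 ^ (p - 2) with hT
  have h12 : T * (|F x| ^ (p - 2) + T * (|z| / 2) ^ (p - 2)) ≤
      T * (|F x| ^ (p - 2) + T * (2 * aa p F n k ^ rho p + Ca p * (α ^ rho p * gm p ^ n))) := by
    apply mul_le_mul_of_nonneg_left _ (by positivity)
    have := mul_le_mul_of_nonneg_left h4 (by positivity : 0 ≤ T)
    linarith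
  refine h12.trans ?_
  have h13 : |F x| ^ (p - 2) ≤ T * (2 * Ca p) * |F x| ^ (p - 2) := by
    have : 1 ≤ T * (2 * Ca p) := by nlinarith
    nlinarith
  have h14 : T * (2 * aa p F n k ^ rho p + Ca p * (α ^ rho p * gm p ^ n)) ≤
      T * (2 * Ca p) * (aa p F n k ^ rho p + α ^ rho p * gm p ^ n) := by
    have h15 : 2 * aa p F n k ^ rho p + Ca p * (α ^ rho p * gm p ^ n) ≤
        2 * Ca p * (aa p F n k ^ rho p + α ^ rho p * gm p ^ n) := by nlinarith
    have := mul_le_mul_of_nonneg_left h15 (by positivity : 0 ≤ T)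
    linarith
  have h16 : T * (|F x| ^ (p - 2) + T * (2 * aa p F n k ^ rho p + Ca p * (α ^ rho p * gm p ^ n))) ≤
      T * (T * (2 * Ca p) * |F x| ^ (p - 2) +
        T * (2 * Ca p) * (aa p F n k ^ rho p + α ^ rho p * gm p ^ n)) :=
    mul_le_mul_of_nonneg_left (add_le_add h13 h14) (by positivity)
  refine h16.trans (le_of_eq ?_)
  ring

end main

end Pool.Agent.Helper415.HA
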