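import Mathlib
import Pool.Agent.Helper415.HA5

/-! Sums over picks, and the lower `ℓ_p` estimate. -/

set_option autoImplicit false

open MeasureTheory

namespace Pool.Agent.Helper415.HA

open Pool.Agent.Helper415

section main
variable {p : ℝ}

lemma sumQ_le (p : ℝ) (Q : Finset Ix) (x : ℝ) :
    ∑ J ∈ Q, bt p ^ lev J * ind (lev J) (cel J) x ≤ VV (bt p) (Finset.eraseNone Q) x := by
  classical
  unfold VV
  rw [Finset.sum_eraseNone]
  have h1 : ∀ J ∈ Q, bt p ^ lev J * ind (lev J) (cel J) x ≤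
      (if J = none then (1:ℝ) else 0) +
        Option.elim' 0 (fun J : ℕ × ℕ => bt p ^ J.1 * ind J.1 J.2 x) J := by
    intro J _
    cases J with
    | none => simp only [lev, cel, pow_zero, one_mul, if_true, Option.elim'_none, add_zero]; exact ind_le_one _ _ _
    | some J => simp [lev, cel]
  refine (Finset.sum_le_sum h1).trans ?_
  rw [Finset.sum_add_distrib]
  apply add_le_add_left
  rw [Finset.sum_ite_eq']
  split_ifs <;> norm_num

lemma VV_le_const {β : ℝ} (hβ : 0 < β) (P : Finset (ℕ × ℕ)) (x : ℝ) :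
    VV β P x ≤ 1 + ∑ J ∈ P, β ^ J.1 := by
  unfold VV
  apply add_le_add_right
  apply Finset.sum_le_sum
  intro J _
  exact mul_le_of_le_one_right (by positivity) (ind_le_one _ _ _)

lemma integrable_mul_VV {β : ℝ} (hβ : 0 < β) {g : ℝ → ℝ} (hg : Integrable g μ1) (P : Finset (ℕ × ℕ)) :
    Integrable (fun x => g x * VV β P x) μ1 := by
  apply hg.mul_bdd (c := 1 + ∑ J ∈ P, β ^ J.1) (meas_VV β P).aestronglyMeasurable
  refine Filter.Eventually.of_forall (fun x => ?_)
  rw [Real.norm_eq_abs, abs_of_nonneg (by have := VV_ge_one β hβ P x; linarith)]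
  exact VV_le_const hβ P x

lemma sum_int_le (p : ℝ) (Q : Finset Ix) {g : ℝ → ℝ} (hg : Integrable g μ1) (hg0 : ∀ x, 0 ≤ g x) :
    ∑ J ∈ Q, bt p ^ lev J * ∫ x, g x * ind (lev J) (cel J) x ∂μ1 ≤
      ∫ x, g x * VV (bt p) (Finset.eraseNone Q) x ∂μ1 := by
  have h1 : ∑ J ∈ Q, bt p ^ lev J * ∫ x, g x * ind (lev J) (cel J) x ∂μ1 =
      ∫ x, ∑ J ∈ Q, bt p ^ lev J * (g x * ind (lev J) (cel J) x) ∂μ1 := by
    rw [integral_finsetSum _ (fun J _ => (integrable_mul_ind hg _ _).const_mul _)]
    apply Finset.sum_congr rfl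
    intro J _
    rw [integral_const_mul]
  rw [h1]
  apply integral_mono
  · exact integrable_finsetSum _ (fun J _ => (integrable_mul_ind hg _ _).const_mul _)
  · exact integrable_mul_VV (bt_pos p) hg _
  · intro x
    show ∑ J ∈ Q, bt p ^ lev J * (g x * ind (lev J) (cel J) x) ≤ _
    have h2 := mul_le_mul_of_nonneg_left (sumQ_le p Q x) (hg0 x)
    refine le_trans (le_of_eq ?_) h2
    rw [Finset.mul_sum]
    apply Finset.sum_congr rfl
    intro J _; ring

lemma integrable_gm_lam (hp : 2 < p) (P : Finset (ℕ × ℕ)) : Integrable (fun x => gm p ^ lam P x) μ1 := by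
  have hγ := gm_ge hp
  have hm : Measurable (fun x => gm p ^ lam P x) :=
    (measurable_from_nat (f := fun n => gm p ^ n)).comp (meas_lam P)
  refine (integrable_const (gm p ^ (P.sup Prod.fst + 1))).mono' hm.aestronglyMeasurable ?_
  refine Filter.Eventually.of_forall (fun x => ?_)
  rw [Real.norm_eq_abs, abs_of_nonneg (by positivity)]
  exact pow_le_pow_right₀ hγ (lam_le_sup P x)

/-- Sum of the `e_J`. -/
lemma esum (hp : 2 < p) (Q : Finset Ix) :
    ∑ J ∈ Q, bt p ^ lev J * ∫ x, gm p ^ lam (Finset.eraseNone Q) x * ind (lev J) (cel J) x ∂μ1 ≤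
      1 + Cf (bt p) (gm p) * (Q.card : ℝ) := by
  have hγ := gm_ge hp
  have hβ := bt_gt hp
  refine (sum_int_le p Q (integrable_gm_lam hp _) (fun x => by positivity)).trans ?_
  have h1 := tree_sum hβ hγ (bt_gm p) (Finset.eraseNone Q)
  have h2 : ∀ x, gm p ^ lam (Finset.eraseNone Q) x * VV (bt p) (Finset.eraseNone Q) x =
      VV (bt p) (Finset.eraseNone Q) x * gm p ^ lam (Finset.eraseNone Q) x := fun x => mul_comm _ _
  simp_rw [h2]
  refine h1.trans ?_
  have h3 : ((Finset.eraseNone Q).card : ℝ) ≤ Q.card := by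
    exact_mod_cast Finset.card_eraseNone_le Q
  have h4 : 0 ≤ Cf (bt p) (gm p) := by
    unfold Cf
    have : 0 < bt p - 1 := by linarith
    positivity
  have := mul_le_mul_of_nonneg_left h3 h4
  linarith

/-- Constant. -/
noncomputable def Cw (p : ℝ) : ℝ := (bt p / (bt p - 1) * bt p) ^ (p / 2)

lemma Cw_pos (hp : 2 < p) : 0 < Cw p := by
  unfold Cw
  have := bt_gt hp
  have h : 0 < bt p - 1 := by linarith
  have := bt_pos p
  positivity

lemma VV_pow (hp : 2 < p) (P : Finset (ℕ × ℕ)) (x : ℝ) :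
    VV (bt p) P x ^ (p / 2) ≤ Cw p * VV 2 P x := by
  classical
  have hβ := bt_gt hp
  have hβ1 : 0 < bt p - 1 := by linarith
  have hβ0 := bt_pos p
  have hV1 := VV_ge_one (bt p) hβ0 P x
  have hV2 := VV_ge_one 2 (by norm_num) P x
  have hc : 1 ≤ bt p / (bt p - 1) := by rw [le_div_iff₀ hβ1]; linarith
  have hbp : ∀ m : ℕ, (bt p ^ m) ^ (p / 2) = 2 ^ m := by
    intro m
    unfold bt
    rw [← Real.rpow_natCast, ← Real.rpow_mul (by positivity), ← Real.rpow_mul (by positivity),
      ← Real.rpow_natCast]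
    congr 1; field_simp
  set S := P.filter (fun J => cell J.1 x = J.2) with hS
  rcases S.eq_empty_or_nonempty with h | h
  · have h1 := VV_bound hβ (P := P) (x := x) (l := 0) (fun J hJ hx => by
      have : J ∈ S := Finset.mem_filter.mpr ⟨hJ, hx⟩
      rw [h] at this; exact absurd this (Finset.notMem_empty _))
    rw [pow_zero, mul_one] at h1
    have h2 := Real.rpow_le_rpow (by linarith) h1 (by linarith : 0 ≤ p / 2)
    refine h2.trans ?_
    have h3 : (bt p / (bt p - 1)) ^ (p / 2) ≤ Cw p := by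
      unfold Cw
      apply Real.rpow_le_rpow (by linarith) _ (by linarith)
      nlinarith
    have := Cw_pos hp
    nlinarith
  · obtain ⟨I, hI, hImax⟩ := S.exists_max_image (fun J => J.1) h
    have hI' := Finset.mem_filter.mp hI
    have h1 := VV_bound hβ (P := P) (x := x) (l := I.1 + 1) (fun J hJ hx => by
      have : J ∈ S := Finset.mem_filter.mpr ⟨hJ, hx⟩
      exact Nat.lt_succ_of_le (hImax J this))
    have h2 : bt p / (bt p - 1) * bt p ^ (I.1 + 1) = (bt p / (bt p - 1) * bt p) * bt p ^ I.1 := by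
      rw [pow_succ]; ring
    rw [h2] at h1
    have h3 := Real.rpow_le_rpow (by linarith) h1 (by linarith : 0 ≤ p / 2)
    rw [Real.mul_rpow (by positivity) (by positivity), hbp] at h3
    refine h3.trans (mul_le_mul_of_nonneg_left ?_ (Cw_pos hp).le)
    unfold VV
    have h4 : (2:ℝ) ^ I.1 * ind I.1 I.2 x ≤ ∑ J ∈ P, (2:ℝ) ^ J.1 * ind J.1 J.2 x :=
      Finset.single_le_sum (f := fun J : ℕ × ℕ => (2:ℝ) ^ J.1 * ind J.1 J.2 x)
        (fun J _ => mul_nonneg (by positivity) (ind_nonneg _ _ _)) hI'.1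
    have h5 : ind I.1 I.2 x = 1 := by unfold ind; rw [if_pos hI'.2]
    rw [h5, mul_one] at h4
    linarith

lemma int_VV_two (P : Finset (ℕ × ℕ)) : ∫ x, VV 2 P x ∂μ1 ≤ 1 + P.card := by
  unfold VV
  rw [integral_add (integrable_const _)
    (integrable_finsetSum _ (fun J _ => (integrable_ind _ _).const_mul _)),
    integral_finsetSum _ (fun J _ => (integrable_ind _ _).const_mul _), integral_const]
  have h1 : μ1.real Set.univ • (1:ℝ) = 1 := by unfold μ1; simp
  rw [h1]
  apply add_le_add_right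
  have h2 : ∀ J ∈ P, ∫ x, (2:ℝ) ^ J.1 * ind J.1 J.2 x ∂μ1 ≤ 1 := by
    intro J _
    rw [integral_const_mul]
    calc (2:ℝ) ^ J.1 * ∫ x, ind J.1 J.2 x ∂μ1 ≤ 2 ^ J.1 * (1 / 2) ^ J.1 :=
          mul_le_mul_of_nonneg_left (int_ind_le _ _) (by positivity)
      _ = 1 := by rw [← mul_pow]; norm_num
  refine (Finset.sum_le_sum h2).trans ?_
  simp

/-- The local quantity built from `F`. -/
noncomputable def yy (p : ℝ) (P : Finset (ℕ × ℕ)) (F : ℝ → ℝ) (x : ℝ) : ℝ :=
  |F x| ^ (p - 2) + stepf P (fun n k => aa p F n k ^ rho p) x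

lemma yy_nonneg (p : ℝ) (P : Finset (ℕ × ℕ)) (F : ℝ → ℝ) (x : ℝ) : 0 ≤ yy p P F x :=
  add_nonneg (by positivity) (stepf_nonneg (fun n k => by have := aa_nonneg p F n k; positivity) x)

lemma yy_integrable (hp : 2 < p) (P : Finset (ℕ × ℕ)) {F : ℝ → ℝ}
    (hF : MemLp F (ENNReal.ofReal p) μ1) : Integrable (yy p P F) μ1 :=
  (int_pow_sub_one hp hF (q := p - 2) (by linarith) (by linarith)).add (integrable_stepf _ _)

/-- Constant. -/
noncomputable def Cb (p : ℝ) : ℝ := Cw p + 2 * 2 ^ (p / (p - 2))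

lemma Cb_pos (hp : 2 < p) : 0 < Cb p := by unfold Cb; have := Cw_pos hp; positivity

/-- Block sum of the `b_J`. -/
lemma bsum (hp : 2 < p) (P : Finset (ℕ × ℕ)) {F : ℝ → ℝ} (hF : MemLp F (ENNReal.ofReal p) μ1)
    (Q : Finset Ix) {δ : ℝ} (hδ : 0 < δ) :
    ∑ J ∈ Q, bt p ^ lev J * ∫ x, yy p P F x * ind (lev J) (cel J) x ∂μ1 ≤
      Cb p * δ ^ rho p * (1 + Q.card + (∫ x, |F x| ^ p ∂μ1) / δ ^ (p / (p - 1))) := by
  have hp1 : 0 < p - 1 := by linarith
  have hp2 : 0 < p - 2 := by linarith
  have hβ0 := bt_pos p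
  have hρ0 : 0 < rho p := by unfold rho; positivity
  refine (sum_int_le p Q (yy_integrable hp P hF) (yy_nonneg p P F)).trans ?_
  set Q' := Finset.eraseNone Q with hQ'
  set d := δ ^ rho p with hd
  have hd0 : 0 < d := by positivity
  set D := δ ^ (p / (p - 1)) with hD
  have hD0 : 0 < D := by positivity
  have hdD : d ^ (p / (p - 2)) = D := by
    rw [hd, hD, ← Real.rpow_mul hδ.le]; congr 1; unfold rho; field_simp
  have hcard : (Q'.card : ℝ) ≤ Q.card := by exact_mod_cast Finset.card_eraseNone_le Q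
  have hpt : ∀ᵐ x ∂μ1, yy p P F x * VV (bt p) Q' x ≤ d * (Cw p * VV 2 Q' x +
      2 ^ (p / (p - 2)) / D * (|F x| ^ p + stepf P (fun n k => aa p F n k ^ (p / (p - 1))) x)) := by
    unfold μ1
    rw [ae_restrict_iff' measurableSet_Ico]
    refine Filter.Eventually.of_forall (fun x hx => ?_)
    have hy0 := yy_nonneg p P F x
    have hV1 := VV_ge_one (bt p) hβ0 Q' x
    have h1 := Real.young_inequality_of_nonneg (a := VV (bt p) Q' x) (b := yy p P F x / d)
      (p := p / 2) (q := p / (p - 2)) (by linarith) (by positivity) (by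
        rw [Real.holderConjugate_iff]
        refine ⟨by linarith, ?_⟩
        field_simp; ring)
    have h2 : VV (bt p) Q' x ^ (p / 2) / (p / 2) ≤ Cw p * VV 2 Q' x := by
      refine le_trans ?_ (VV_pow hp Q' x)
      apply div_le_self (by positivity)
      linarith
    have h3 : (yy p P F x / d) ^ (p / (p - 2)) / (p / (p - 2)) ≤
        2 ^ (p / (p - 2)) / D * (|F x| ^ p + stepf P (fun n k => aa p F n k ^ (p / (p - 1))) x) := by
      have h4 : (yy p P F x / d) ^ (p / (p - 2)) / (p / (p - 2)) ≤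
          (yy p P F x / d) ^ (p / (p - 2)) := by
        apply div_le_self (by positivity)
        rw [le_div_iff₀ hp2]; linarith
      refine h4.trans ?_
      rw [Real.div_rpow hy0 hd0.le, hdD, div_mul_eq_mul_div]
      apply div_le_div_of_nonneg_right _ hD0.le
      unfold yy
      rw [stepf_eq hx, stepf_eq hx]
      have h5 := add_rpow_le' (q := p / (p - 2)) (by positivity)
        (by positivity : 0 ≤ |F x| ^ (p - 2))
        (by have := aa_nonneg p F (lam P x) (cell (lam P x) x); positivity :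
          0 ≤ aa p F (lam P x) (cell (lam P x) x) ^ rho p)
      refine h5.trans (le_of_eq ?_)
      rw [← Real.rpow_mul (abs_nonneg _), ← Real.rpow_mul (aa_nonneg _ _ _ _)]
      congr 3
      · field_simp
      · unfold rho; field_simp
    have h4 : yy p P F x * VV (bt p) Q' x = d * (VV (bt p) Q' x * (yy p P F x / d)) := by
      field_simp
    rw [h4]
    exact mul_le_mul_of_nonneg_left (h1.trans (add_le_add h2 h3)) hd0.le
  have hV2i : Integrable (VV 2 Q') μ1 := by
    have := integrable_mul_VV (β := 2) (by norm_num) (integrable_const (μ := μ1) (1:ℝ)) Q'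
    simpa using this
  have hFi := WC.int_rpow hp.le hF
  have hAi := integrable_stepf P (fun n k => aa p F n k ^ (p / (p - 1)))
  have hFA : Integrable (fun x => |F x| ^ p + stepf P (fun n k => aa p F n k ^ (p / (p - 1))) x) μ1 :=
    hFi.add hAi
  have hs : Integrable (fun x => Cw p * VV 2 Q' x + 2 ^ (p / (p - 2)) / D *
      (|F x| ^ p + stepf P (fun n k => aa p F n k ^ (p / (p - 1))) x)) μ1 :=
    (hV2i.const_mul _).add (hFA.const_mul _)
  have h1 := integral_mono_ae (integrable_mul_VV hβ0 (yy_integrable hp P hF) Q')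
    (hs.const_mul d) hpt
  refine h1.trans ?_
  rw [integral_const_mul, integral_add (hV2i.const_mul _) (hFA.const_mul _), integral_const_mul,
    integral_const_mul, integral_add hFi hAi]
  have h2 := int_AA hp P hF
  have h3 := int_VV_two Q'
  have hU0 : 0 ≤ ∫ x, |F x| ^ p ∂μ1 := integral_nonneg (fun x => by positivity)
  set U := ∫ x, |F x| ^ p ∂μ1 with hU
  have hCw := Cw_pos hp
  have h4 : Cw p * ∫ x, VV 2 Q' x ∂μ1 ≤ Cw p * (1 + Q.card) :=
    mul_le_mul_of_nonneg_left (by linarith) hCw.le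
  have h5 : 2 ^ (p / (p - 2)) / D * (U + ∫ x, stepf P (fun n k => aa p F n k ^ (p / (p - 1))) x ∂μ1) ≤
      2 ^ (p / (p - 2)) / D * (2 * U) := mul_le_mul_of_nonneg_left (by linarith) (by positivity)
  have h6 : d * (Cw p * (1 + Q.card) + 2 ^ (p / (p - 2)) / D * (2 * U)) ≤
      Cb p * d * (1 + Q.card + U / D) := by
    unfold Cb
    set T : ℝ := 2 ^ (p / (p - 2)) with hT
    have hT0 : 0 < T := by positivity
    have h7 : T / D * (2 * U) = 2 * T * (U / D) := by ring
    rw [h7]
    have h8 : 0 ≤ U / D := by positivity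
    have h9 : (0:ℝ) ≤ 1 + Q.card := by positivity
    have h10 : Cw p * (1 + Q.card) + 2 * T * (U / D) ≤ (Cw p + 2 * T) * (1 + Q.card + U / D) := by
      nlinarith [mul_nonneg hCw.le h8, mul_nonneg hT0.le h9]
    calc d * (Cw p * (1 + Q.card) + 2 * T * (U / D)) ≤
        d * ((Cw p + 2 * T) * (1 + Q.card + U / D)) := mul_le_mul_of_nonneg_left h10 hd0.le
      _ = _ := by ring
  refine le_trans ?_ h6
  exact mul_le_mul_of_nonneg_left (add_le_add h4 h5) hd0.le

/-- Bound of the quadratic form. -/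
lemma B_bound (hp : 2 < p) (P : Finset (ℕ × ℕ)) {F Z : ℝ → ℝ}
    (hF : MemLp F (ENNReal.ofReal p) μ1) (hR : MemLp (fun x => F x - Z x) (ENNReal.ofReal p) μ1)
    (hZ : ∀ n, ∀ x ∈ Set.Ico (0:ℝ) 1, ∀ y ∈ Set.Ico (0:ℝ) 1, cell n x = cell n y →
      pf P n (cell n x) → Z x = Z y) {α : ℝ}
    (hα : ∀ J, Valid J → |∫ x, Phi p (F x - Z x) * Hf p J x ∂μ1| ≤ α) (J : Ix) :
    ∫ x, |F x - Z x| ^ (p - 2) * Hf p J x ^ 2 ∂μ1 ≤ CR p *
      (bt p ^ lev J * ∫ x, yy p P F x * ind (lev J) (cel J) x ∂μ1 + α ^ rho p *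
        (bt p ^ lev J * ∫ x, gm p ^ lam P x * ind (lev J) (cel J) x ∂μ1)) := by
  have hβ0 := bt_pos p
  have hCR := CR_pos hp
  have i1 := integrable_mul_ind (yy_integrable hp P hF) (lev J) (cel J)
  have i2 := integrable_mul_ind (integrable_gm_lam hp P) (lev J) (cel J)
  have i3 : Integrable (fun x => CR p * (bt p ^ lev J * (yy p P F x * ind (lev J) (cel J) x) +
      α ^ rho p * (bt p ^ lev J * (gm p ^ lam P x * ind (lev J) (cel J) x)))) μ1 :=
    ((i1.const_mul _).add ((i2.const_mul _).const_mul _)).const_mul _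
  have h1 : ∫ x, |F x - Z x| ^ (p - 2) * Hf p J x ^ 2 ∂μ1 ≤
      ∫ x, CR p * (bt p ^ lev J * (yy p P F x * ind (lev J) (cel J) x) +
      α ^ rho p * (bt p ^ lev J * (gm p ^ lam P x * ind (lev J) (cel J) x))) ∂μ1 := by
    apply integral_mono_ae (WC.int_Q hp.le hR (Hf_memLp p J _)) i3
    unfold μ1
    rw [Filter.EventuallyLE, ae_restrict_iff' measurableSet_Ico]
    refine Filter.Eventually.of_forall (fun x hx => ?_)
    rw [Hf_sq]
    have h2 := R_pow_bound hp P hF hR hZ hα hx
    have h3 : 0 ≤ bt p ^ lev J * ind (lev J) (cel J) x := mul_nonneg (by positivity) (ind_nonneg _ _ _)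
    have h4 := mul_le_mul_of_nonneg_right h2 h3
    refine h4.trans (le_of_eq ?_)
    unfold yy
    ring
  refine h1.trans (le_of_eq ?_)
  rw [integral_const_mul, integral_add (i1.const_mul _) ((i2.const_mul _).const_mul _),
    integral_const_mul, integral_const_mul, integral_const_mul]

/-! ### The lower estimate -/

/-- Order used for the induction. -/
def ord : Ix → ℕ
  | none => 0
  | some J => J.1 + 1

lemma Hf_const {J : Ix} {n k : ℕ} (hJ : ord J ≤ n + 1) (hne : J ≠ some (n, k)) {x y : ℝ}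
    (hx : x ∈ Set.Ico (0:ℝ) 1) (hy : y ∈ Set.Ico (0:ℝ) 1) (hxk : cell n x = k) (hyk : cell n y = k) :
    Hf p J x = Hf p J y := by
  cases J with
  | none =>
    simp only [Hf]
    unfold ind
    have h1 := cell_lt (n := 0) hx
    have h2 := cell_lt (n := 0) hy
    rw [pow_zero] at h1 h2
    rw [if_pos (by omega), if_pos (by omega)]
  | some J =>
    obtain ⟨m, j⟩ := J
    have hm : m ≤ n := by simp only [ord] at hJ; omega
    simp only [Hf]
    rcases hm.lt_or_eq with h | h
    · have e1 : cell m x = cell m y := by rw [cell_le hm x, cell_le hm y, hxk, hyk]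
      have e2 : cell (m + 1) x = cell (m + 1) y := by
        rw [cell_le (by omega : m + 1 ≤ n) x, cell_le (by omega : m + 1 ≤ n) y, hxk, hyk]
      unfold ind rs
      rw [e1, e2]
    · subst h
      have hjk : ¬ k = j := by
        intro h; apply hne; rw [h]
      unfold ind
      rw [hxk, hyk, if_neg hjk]; ring

lemma Hf_sum_bdd (p : ℝ) (Q : Finset Ix) (c : Ix → ℝ) :
    ∃ C, ∀ x, |∑ J ∈ Q, c J * Hf p J x| ≤ C := by
  refine ⟨∑ J ∈ Q, |c J| * hb p ^ lev J, fun x => ?_⟩
  refine (Finset.abs_sum_le_sum_abs _ _).trans (Finset.sum_le_sum (fun J _ => ?_))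
  rw [abs_mul, Hf_abs]
  apply mul_le_mul_of_nonneg_left _ (abs_nonneg _)
  exact mul_le_of_le_one_right (pow_nonneg (hb_pos p).le _) (ind_le_one _ _ _)

lemma Hf_sum_memLp (p : ℝ) (Q : Finset Ix) (c : Ix → ℝ) (q : ENNReal) :
    MemLp (fun x => ∑ J ∈ Q, c J * Hf p J x) q μ1 :=
  memLp_finsetSum _ (fun J _ => (Hf_memLp p J q).const_mul _)

/-- Lower `ℓ_p` estimate for Haar polynomials. -/
theorem haar_lower (hp : 2 < p) (Q : Finset Ix) (hQ : ∀ J ∈ Q, Valid J) (c : Ix → ℝ) :
    ∑ J ∈ Q, |c J| ^ p ≤ ∫ x, |∑ J ∈ Q, c J * Hf p J x| ^ p ∂μ1 := by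
  classical
  have hp0 : 0 < p := by linarith
  induction Q using Finset.induction_on_max_value ord with
  | empty => simp [Real.zero_rpow hp0.ne']
  | insert I s hI hmax ih =>
    have ih' := ih (fun J hJ => hQ J (Finset.mem_insert_of_mem hJ))
    have hIv := hQ I (Finset.mem_insert_self _ _)
    rw [Finset.sum_insert hI]
    simp_rw [Finset.sum_insert hI]
    cases I with
    | none =>
      have hs : s = ∅ := by
        apply Finset.eq_empty_of_forall_notMem
        intro J hJ
        cases J with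
        | none => exact hI hJ
        | some J => have := hmax _ hJ; simp [ord] at this
      subst hs
      simp only [Finset.sum_empty, add_zero, Hf]
      have h1 : ∀ x, |c none * ind 0 0 x| ^ p = |c none| ^ p * ind 0 0 x := by
        intro x
        rw [abs_mul, Real.mul_rpow (abs_nonneg _) (abs_nonneg _), abs_of_nonneg (ind_nonneg _ _ _),
          ind_rpow hp0]
      simp_rw [h1]
      rw [integral_const_mul, int_ind_eq (by norm_num)]
      simp
    | some I =>
      obtain ⟨n, k⟩ := I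
      have hk : k < 2 ^ n := hIv
      set h' : ℝ → ℝ := fun x => ∑ J ∈ s, c J * Hf p J x with hh'
      -- a point of the cell
      set x₀ : ℝ := (k : ℝ) / 2 ^ n with hx₀
      have h2n : (0:ℝ) < 2 ^ n := by positivity
      have hx₀m : x₀ ∈ Set.Ico (0:ℝ) 1 := by
        refine ⟨by positivity, ?_⟩
        rw [hx₀, div_lt_one h2n]; exact_mod_cast hk
      have hx₀c : cell n x₀ = k := by
        unfold cell
        rw [hx₀, mul_div_cancel₀ _ h2n.ne']; exact Nat.floor_natCast k
      set z := h' x₀ with hz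
      have hconst : ∀ x ∈ Set.Ico (0:ℝ) 1, cell n x = k → h' x = z := by
        intro x hx hc
        apply Finset.sum_congr rfl
        intro J hJ
        rw [Hf_const (hmax J hJ) (fun h => hI (h ▸ hJ)) hx hx₀m hc hx₀c]
      set w : ℝ := c (some (n, k)) * hb p ^ n with hw
      have hwp : |w| ^ p = |c (some (n, k))| ^ p * 2 ^ n := by
        rw [hw, abs_mul, Real.mul_rpow (abs_nonneg _) (abs_nonneg _),
          abs_of_pos (pow_pos (hb_pos p) n), hb_pow hp]
      have hmem := Hf_sum_memLp p s c (ENNReal.ofReal p)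
      have ih1 : Integrable (fun x => |h' x| ^ p) μ1 := WC.int_rpow hp.le hmem
      have ih2 := integrable_mul_ind ih1 n k
      have e1 : ∀ᵐ x ∂μ1, |c (some (n, k)) * Hf p (some (n, k)) x + h' x| ^ p =
          (|h' x| ^ p - |z| ^ p * ind n k x) +
            (|z + w| ^ p * ind (n + 1) (2 * k) x + |z - w| ^ p * ind (n + 1) (2 * k + 1) x) := by
        unfold μ1
        rw [ae_restrict_iff' measurableSet_Ico]
        refine Filter.Eventually.of_forall (fun x hx => ?_)
        simp only [Hf]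
        rw [ind_rs]
        have hsp := ind_split n k x
        by_cases hc : cell n x = k
        · rw [hconst x hx hc]
          have h1 : ind n k x = 1 := by unfold ind; rw [if_pos hc]
          rw [h1]
          rw [h1] at hsp
          by_cases hc2 : cell (n + 1) x = 2 * k
          · have h2 : ind (n + 1) (2 * k) x = 1 := by unfold ind; rw [if_pos hc2]
            rw [h2] at hsp ⊢
            have h3 : ind (n + 1) (2 * k + 1) x = 0 := by linarith
            rw [h3, hw]
            ring_nf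
          · have h2 : ind (n + 1) (2 * k) x = 0 := by unfold ind; rw [if_neg hc2]
            rw [h2] at hsp ⊢
            have h3 : ind (n + 1) (2 * k + 1) x = 1 := by linarith
            rw [h3, hw]
            have h4 : c (some (n, k)) * (hb p ^ n * (0 - 1)) + z = z - c (some (n, k)) * hb p ^ n := by ring
            rw [h4]; ring
        · have h1 : ind n k x = 0 := by unfold ind; rw [if_neg hc]
          rw [h1] at hsp ⊢
          have h2 := ind_nonneg (n + 1) (2 * k) x
          have h3 := ind_nonneg (n + 1) (2 * k + 1) x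
          have h4 : ind (n + 1) (2 * k) x = 0 := by linarith
          have h5 : ind (n + 1) (2 * k + 1) x = 0 := by linarith
          rw [h4, h5]
          simp
      have hk1 : 2 * k < 2 ^ (n + 1) := by rw [pow_succ]; omega
      have hk2 : 2 * k + 1 < 2 ^ (n + 1) := by rw [pow_succ]; omega
      have j1 : Integrable (fun x => |h' x| ^ p - |z| ^ p * ind n k x) μ1 :=
        ih1.sub ((integrable_ind n k).const_mul _)
      have j2 : Integrable (fun x => |z + w| ^ p * ind (n + 1) (2 * k) x +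
          |z - w| ^ p * ind (n + 1) (2 * k + 1) x) μ1 :=
        ((integrable_ind _ _).const_mul _).add ((integrable_ind _ _).const_mul _)
      rw [integral_congr_ae e1, integral_add j1 j2, integral_sub ih1 ((integrable_ind n k).const_mul _),
        integral_add ((integrable_ind _ _).const_mul _) ((integrable_ind _ _).const_mul _),
        integral_const_mul, integral_const_mul, integral_const_mul, int_ind_eq hk, int_ind_eq hk1,
        int_ind_eq hk2]
      have h2 := two_point hp.le z w
      have h3 : (1 / 2 : ℝ) ^ (n + 1) = (1 / 2) ^ n * (1 / 2) := pow_succ _ _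
      rw [h3]
      have h4 : (0:ℝ) < (1 / 2) ^ n := by positivity
      have h5 : |w| ^ p * (1 / 2) ^ n = |c (some (n, k))| ^ p := by
        rw [hwp, mul_assoc, ← mul_pow]; norm_num
      have h6 := mul_le_mul_of_nonneg_right h2 h4.le
      nlinarith

end main

end Pool.Agent.Helper415.HA
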