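import Mathlib
import Pool.Agent.Helper415.HA6

/-! Numerical lemmas for the final count. -/

set_option autoImplicit false

open MeasureTheory Finset

namespace Pool.Agent.Helper415.HA

lemma block_induction (N : ℕ) (U W x n : ℕ → ℝ) {C5 C6 θ : ℝ} (h5 : 0 ≤ C5)
    (hθ0 : 0 < θ) (hθ1 : θ < 1) (hU : ∀ k, k < N → 0 < U k)
    (hblock : ∀ s e, s < e → e ≤ N → (∀ k, s ≤ k → k < e → U s / 2 ≤ U k) →
      ∑ k ∈ Ico s e, x k ≤ C5 * W s)
    (hW1 : ∀ s, s < N → W s ≤ C6 * n s)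
    (hW2 : ∀ s s', s < s' → s' < N → U s' ≤ U s / 2 → W s ≤ C6 * (n s - n s') + θ * W s') :
    ∀ m s, s + m = N → 0 < m → ∑ k ∈ Ico s N, x k + (C5 * θ / (1 - θ)) * W s ≤
      ((C5 + C5 * θ / (1 - θ)) * C6) * n s := by
  classical
  set β := C5 * θ / (1 - θ) with hβ
  have h1θ : 0 < 1 - θ := by linarith
  have hβ0 : 0 ≤ β := by positivity
  have hβe : (C5 + β) * θ = β := by rw [hβ]; field_simp; ring
  have hCβ : 0 ≤ C5 + β := by linarith
  intro m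
  induction m using Nat.strong_induction_on with
  | _ m ih =>
    intro s hs hm
    have hsN : s < N := by omega
    by_cases hex : ∃ s', s < s' ∧ s' < N ∧ U s' < U s / 2
    · set s' := Nat.find hex with hs'
      obtain ⟨h1, h2, h3⟩ := Nat.find_spec hex
      rw [← hs'] at h1 h2 h3
      have hb := hblock s s' h1 h2.le (fun k hk1 hk2 => by
        by_contra hcon
        push Not at hcon
        rcases hk1.eq_or_lt with h | h
        · rw [← h] at hcon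
          have := hU s hsN
          linarith
        · exact Nat.find_min hex hk2 ⟨h, by omega, hcon⟩)
      have hi := ih (N - s') (by omega) s' (by omega) (by omega)
      have hw := hW2 s s' h1 h2 h3.le
      have hsum : ∑ k ∈ Ico s N, x k = ∑ k ∈ Ico s s', x k + ∑ k ∈ Ico s' N, x k :=
        (Finset.sum_Ico_consecutive x h1.le h2.le).symm
      rw [hsum]
      have h4 := mul_le_mul_of_nonneg_left hw hCβ
      have h5' : (C5 + β) * (C6 * (n s - n s') + θ * W s') =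
          ((C5 + β) * C6) * (n s - n s') + ((C5 + β) * θ) * W s' := by
        ring
      rw [hβe] at h5'
      rw [h5'] at h4
      nlinarith
    · push Not at hex
      have hb := hblock s N hsN le_rfl (fun k hk1 hk2 => by
        rcases hk1.eq_or_lt with h | h
        · rw [← h]; have := hU s hsN; linarith
        · exact hex k h hk2)
      have hw := hW1 s hsN
      have h4 := mul_le_mul_of_nonneg_left hw hCβ
      nlinarith

/-- A convexity inequality. -/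
lemma conv_ineq {q : ℝ} (hq : 1 ≤ q) {a b : ℝ} (ha : 0 ≤ a) (hb : 0 ≤ b) :
    (a + b) ^ q ≤ 4 ^ (q - 1) * a ^ q + (3 / 4) ^ (1 - q) * b ^ q := by
  have h1 := (convexOn_rpow hq).2 (Set.mem_Ici.mpr (by positivity : 0 ≤ 4 * a))
    (Set.mem_Ici.mpr (by positivity : 0 ≤ b * (4 / 3))) (by norm_num : (0:ℝ) ≤ 1 / 4)
    (by norm_num : (0:ℝ) ≤ 3 / 4) (by norm_num)
  simp only [smul_eq_mul] at h1
  have h2 : 1 / 4 * (4 * a) + 3 / 4 * (b * (4 / 3)) = a + b := by ring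
  rw [h2, Real.mul_rpow (by norm_num) ha, Real.mul_rpow hb (by norm_num)] at h1
  refine h1.trans (le_of_eq ?_)
  have h3 : (1 / 4 : ℝ) * 4 ^ q = 4 ^ (q - 1) := by
    rw [Real.rpow_sub_one (by norm_num)]; ring
  have h4 : (3 / 4 : ℝ) * (4 / 3) ^ q = (3 / 4) ^ (1 - q) := by
    have : (4 / 3 : ℝ) = (3 / 4)⁻¹ := by norm_num
    rw [this, Real.inv_rpow (by norm_num), Real.rpow_sub (by norm_num), Real.rpow_one]
    ring
  rw [← h3, ← h4]; ring

/-- Hölder in the form needed. -/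
lemma sum_pow_le {ι : Type*} (s : Finset ι) (a : ι → ℝ) (ha : ∀ i, 0 ≤ a i) {p : ℝ} (hp : 1 < p) {V : ℝ}
    (hV : ∑ i ∈ s, a i ^ p ≤ V) :
    (∑ i ∈ s, a i) ^ (p / (p - 1)) ≤ s.card * V ^ (1 / (p - 1)) := by
  have hp1 : 0 < p - 1 := by linarith
  have h1 := Real.rpow_sum_le_const_mul_sum_rpow s a hp.le
  simp_rw [abs_of_nonneg (ha _)] at h1
  have h0 : 0 ≤ ∑ i ∈ s, a i := Finset.sum_nonneg (fun i _ => ha i)
  have hc : (0:ℝ) ≤ s.card := Nat.cast_nonneg _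
  have h2 : (∑ i ∈ s, a i) ^ p ≤ (s.card : ℝ) ^ (p - 1) * V :=
    h1.trans (mul_le_mul_of_nonneg_left hV (by positivity))
  have hV0 : 0 ≤ V := (Finset.sum_nonneg (fun i _ => Real.rpow_nonneg (ha i) p)).trans hV
  have h3 := Real.rpow_le_rpow (by positivity) h2 (by positivity : 0 ≤ 1 / (p - 1))
  rw [← Real.rpow_mul h0, Real.mul_rpow (by positivity) hV0, ← Real.rpow_mul hc,
    mul_one_div_cancel hp1.ne', Real.rpow_one] at h3
  rw [show p / (p - 1) = p * (1 / (p - 1)) by ring]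
  exact h3

/-- The quantity `S^q U^(1-q)`. -/
noncomputable def WW (p S U : ℝ) : ℝ := S ^ (p / (p - 1)) * U ^ (1 - p / (p - 1))

lemma W1 {ι : Type*} (s : Finset ι) (a : ι → ℝ) (ha : ∀ i, 0 ≤ a i) {p : ℝ} (hp : 1 < p) {U CA : ℝ}
    (hU : 0 < U) (hCA : 0 ≤ CA) (hV : ∑ i ∈ s, a i ^ p ≤ CA * U) :
    WW p (∑ i ∈ s, a i) U ≤ CA ^ (1 / (p - 1)) * s.card := by
  have hp1 : 0 < p - 1 := by linarith
  have h1 := sum_pow_le s a ha hp hV
  unfold WW
  have h2 : 0 < U ^ (1 - p / (p - 1)) := by positivity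
  have h3 := mul_le_mul_of_nonneg_right h1 h2.le
  refine h3.trans (le_of_eq ?_)
  rw [Real.mul_rpow hCA hU.le]
  have h4 : U ^ (1 / (p - 1)) * U ^ (1 - p / (p - 1)) = 1 := by
    rw [← Real.rpow_add hU]
    have : 1 / (p - 1) + (1 - p / (p - 1)) = 0 := by field_simp; ring
    rw [this, Real.rpow_zero]
  calc (s.card : ℝ) * (CA ^ (1 / (p - 1)) * U ^ (1 / (p - 1))) * U ^ (1 - p / (p - 1)) =
      CA ^ (1 / (p - 1)) * s.card * (U ^ (1 / (p - 1)) * U ^ (1 - p / (p - 1))) := by ring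
    _ = _ := by rw [h4, mul_one]

lemma W2 {ι : Type*} [DecidableEq ι] (s s' : Finset ι) (hss : s' ⊆ s) (a : ι → ℝ) (ha : ∀ i, 0 ≤ a i)
    {p : ℝ} (hp : 1 < p) {U U' CA : ℝ} (hU' : 0 < U') (hUU : U' ≤ U / 2) (hCA : 0 ≤ CA)
    (hV : ∑ i ∈ s, a i ^ p ≤ CA * U) :
    WW p (∑ i ∈ s, a i) U ≤ (4 ^ (p / (p - 1) - 1) * CA ^ (1 / (p - 1))) * ((s.card : ℝ) - s'.card) +
      (3 / 2) ^ (1 - p / (p - 1)) * WW p (∑ i ∈ s', a i) U' := by
  have hp1 : 0 < p - 1 := by linarith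
  have hU : 0 < U := by linarith
  have hq : 1 ≤ p / (p - 1) := by rw [le_div_iff₀ hp1]; linarith
  set q := p / (p - 1) with hqd
  have hsplit : ∑ i ∈ s, a i = ∑ i ∈ s \ s', a i + ∑ i ∈ s', a i :=
    (Finset.sum_sdiff hss).symm
  have hA0 : 0 ≤ ∑ i ∈ s \ s', a i := Finset.sum_nonneg (fun i _ => ha i)
  have hB0 : 0 ≤ ∑ i ∈ s', a i := Finset.sum_nonneg (fun i _ => ha i)
  have h1 := conv_ineq hq hA0 hB0
  have hV' : ∑ i ∈ s \ s', a i ^ p ≤ CA * U :=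
    (Finset.sum_le_sum_of_subset_of_nonneg Finset.sdiff_subset
      (fun i _ _ => Real.rpow_nonneg (ha i) p)).trans hV
  have h2 := W1 (s \ s') a ha hp hU hCA hV'
  have hcard : ((s \ s').card : ℝ) = (s.card : ℝ) - s'.card := by
    rw [Finset.card_sdiff_of_subset hss, Nat.cast_sub (Finset.card_le_card hss)]
  rw [hcard] at h2
  have hUp : 0 < U ^ (1 - q) := by positivity
  have h3 : U ^ (1 - q) ≤ (2 : ℝ) ^ (1 - q) * U' ^ (1 - q) := by
    rw [← Real.mul_rpow (by norm_num) hU'.le]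
    exact Real.rpow_le_rpow_of_nonpos (by positivity) (by linarith) (by linarith)
  unfold WW at h2 ⊢
  rw [← hqd] at h2 ⊢
  rw [hsplit]
  have h4 := mul_le_mul_of_nonneg_right h1 hUp.le
  refine h4.trans ?_
  have h5 : (4:ℝ) ^ (q - 1) * ((∑ i ∈ s \ s', a i) ^ q * U ^ (1 - q)) ≤
      4 ^ (q - 1) * (CA ^ (1 / (p - 1)) * ((s.card : ℝ) - s'.card)) :=
    mul_le_mul_of_nonneg_left h2 (by positivity)
  have h6 : (3 / 4 : ℝ) ^ (1 - q) * (∑ i ∈ s', a i) ^ q * U ^ (1 - q) ≤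
      (3 / 4 : ℝ) ^ (1 - q) * (∑ i ∈ s', a i) ^ q * ((2 : ℝ) ^ (1 - q) * U' ^ (1 - q)) :=
    mul_le_mul_of_nonneg_left h3 (by positivity)
  have h7 : (3 / 2 : ℝ) ^ (1 - q) = (3 / 4) ^ (1 - q) * 2 ^ (1 - q) := by
    rw [← Real.mul_rpow (by norm_num) (by norm_num)]; norm_num
  rw [h7]
  calc (4 ^ (q - 1) * (∑ i ∈ s \ s', a i) ^ q + (3 / 4) ^ (1 - q) * (∑ i ∈ s', a i) ^ q) * U ^ (1 - q) =
      4 ^ (q - 1) * ((∑ i ∈ s \ s', a i) ^ q * U ^ (1 - q)) +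
        (3 / 4) ^ (1 - q) * (∑ i ∈ s', a i) ^ q * U ^ (1 - q) := by ring
    _ ≤ 4 ^ (q - 1) * (CA ^ (1 / (p - 1)) * ((s.card : ℝ) - s'.card)) +
        (3 / 4 : ℝ) ^ (1 - q) * (∑ i ∈ s', a i) ^ q * ((2 : ℝ) ^ (1 - q) * U' ^ (1 - q)) :=
        add_le_add h5 h6
    _ = _ := by ring

/-- The one step bound after replacing `a` by the smaller `δ`. -/
lemma step_mono {ρ a δ b e : ℝ} (hρ : ρ ≤ 2) (hδ : 0 < δ) (hδa : δ ≤ a) (hb : 0 ≤ b) (he : 0 < e) :
    δ ^ 2 / (b + δ ^ ρ * e) ≤ a ^ 2 / (b + a ^ ρ * e) := by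
  have ha : 0 < a := by linarith
  have h1 : 0 < δ ^ ρ := by positivity
  have h2 : 0 < a ^ ρ := by positivity
  rw [div_le_div_iff₀ (by positivity) (by positivity)]
  have h3 : δ ^ 2 ≤ a ^ 2 := pow_le_pow_left₀ hδ.le hδa 2
  have h4 : δ ^ 2 * a ^ ρ ≤ a ^ 2 * δ ^ ρ := by
    have e1 : δ ^ 2 = δ ^ (2 - ρ) * δ ^ ρ := by
      rw [← Real.rpow_add hδ, ← Real.rpow_two]; congr 1; ring
    have e2 : a ^ 2 = a ^ (2 - ρ) * a ^ ρ := by
      rw [← Real.rpow_add ha, ← Real.rpow_two]; congr 1; ring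
    rw [e1, e2]
    have h5 : δ ^ (2 - ρ) ≤ a ^ (2 - ρ) := Real.rpow_le_rpow hδ.le hδa (by linarith)
    have h6 := mul_le_mul_of_nonneg_right h5 (by positivity : 0 ≤ δ ^ ρ * a ^ ρ)
    nlinarith
  nlinarith [mul_le_mul_of_nonneg_right h3 hb, mul_le_mul_of_nonneg_right h4 he.le]

/-- Tangent line for `1/x`. -/
lemma tangent_inv {x τ : ℝ} (hx : 0 < x) (hτ : 0 < τ) : 2 / τ - x / τ ^ 2 ≤ 1 / x := by
  have h1 : 0 ≤ (x - τ) ^ 2 / (x * τ ^ 2) := by positivity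
  have h2 : (x - τ) ^ 2 / (x * τ ^ 2) = x / τ ^ 2 - 2 / τ + 1 / x := by
    field_simp
    ring
  linarith

/-- The count in one block. -/
lemma block_count {p : ℝ} (hp : 2 < p) {s e : ℕ} (hse : s < e) (U b e' : ℕ → ℝ) {δ c₈ Cbb M : ℝ}
    (hδ : 0 < δ) (hc : 0 < c₈) (hCb : 0 < Cbb) (hM : 2 * Cbb ≤ M)
    (hUe : 0 ≤ U e) (hUs : 0 ≤ U s)
    (hb0 : ∀ k, s ≤ k → k < e → 0 ≤ b k) (he0 : ∀ k, s ≤ k → k < e → 0 < e' k)
    (hD : ∀ k, s ≤ k → k < e → c₈ * (δ ^ 2 / (b k + δ ^ rho p * e' k)) ≤ U k - U (k + 1))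
    (hbs : ∑ k ∈ Ico s e, b k ≤ Cbb * δ ^ rho p * (1 + (e - s : ℕ) + U s / δ ^ (p / (p - 1)))) :
    ∑ k ∈ Ico s e, (1 - e' k / M) ≤ (M / c₈ + 1) * (U s / δ ^ (p / (p - 1))) := by
  have hp1 : 0 < p - 1 := by linarith
  have hM0 : 0 < M := by linarith
  set d := δ ^ rho p with hd
  have hd0 : 0 < d := by positivity
  set D := δ ^ (p / (p - 1)) with hDD
  have hD0 : 0 < D := by positivity
  have hdD : δ ^ 2 = d * D := by
    rw [hd, hDD, ← Real.rpow_add hδ, ← Real.rpow_two]; congr 1; unfold rho; field_simp; ring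
  set τ := M * d with hτ
  have hτ0 : 0 < τ := by positivity
  have h1 : ∀ k ∈ Ico s e, c₈ * (δ ^ 2 * (2 / τ - (b k + d * e' k) / τ ^ 2)) ≤ U k - U (k + 1) := by
    intro k hk
    obtain ⟨hk1, hk2⟩ := Finset.mem_Ico.mp hk
    refine le_trans ?_ (hD k hk1 hk2)
    apply mul_le_mul_of_nonneg_left _ hc.le
    have hx : 0 < b k + d * e' k := by
      have := hb0 k hk1 hk2; have := he0 k hk1 hk2; positivity
    have := mul_le_mul_of_nonneg_left (tangent_inv hx hτ0) (by positivity : 0 ≤ δ ^ 2)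
    refine this.trans (le_of_eq ?_)
    ring
  have h2 := Finset.sum_le_sum h1
  have h3 : ∑ k ∈ Ico s e, (U k - U (k + 1)) = U s - U e := by
    have := Finset.sum_Ico_sub U hse.le
    have h4 : ∑ k ∈ Ico s e, (U k - U (k + 1)) = -∑ k ∈ Ico s e, (U (k + 1) - U k) := by
      rw [← Finset.sum_neg_distrib]; apply Finset.sum_congr rfl; intro k _; ring
    rw [h4, this]; ring
  rw [h3, ← Finset.mul_sum, ← Finset.mul_sum, Finset.sum_sub_distrib] at h2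
  have h4 : ∑ k ∈ Ico s e, (2 / τ : ℝ) = ((e - s : ℕ) : ℝ) * (2 / τ) := by
    rw [Finset.sum_const, Nat.card_Ico, nsmul_eq_mul]
  have h5 : ∑ k ∈ Ico s e, (b k + d * e' k) / τ ^ 2 =
      (∑ k ∈ Ico s e, b k + d * ∑ k ∈ Ico s e, e' k) / τ ^ 2 := by
    rw [← Finset.sum_div, Finset.sum_add_distrib, Finset.mul_sum]
  rw [h4, h5] at h2
  set n : ℝ := ((e - s : ℕ) : ℝ) with hn
  have hn1 : 1 ≤ n := by
    rw [hn]; have : 1 ≤ e - s := by omega
    exact_mod_cast this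
  set B := ∑ k ∈ Ico s e, b k with hB
  set E := ∑ k ∈ Ico s e, e' k with hE
  set QQ := U s / D with hQQ
  have hQ0 : 0 ≤ QQ := by positivity
  -- multiply
  have h6 : c₈ * (δ ^ 2 * (n * (2 / τ) - (B + d * E) / τ ^ 2)) ≤ U s := by linarith
  have h7 : c₈ * (δ ^ 2 * (n * (2 / τ) - (B + d * E) / τ ^ 2)) =
      (c₈ * D / M) * (2 * n - (B / d + E) / M) := by
    rw [hdD, hτ]; field_simp
  rw [h7] at h6
  have h8 : 2 * n - (B / d + E) / M ≤ (M / c₈) * QQ := by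
    have h9 : 0 < c₈ * D / M := by positivity
    have h10 : (c₈ * D / M) * ((M / c₈) * QQ) = U s := by
      rw [hQQ]; field_simp
    rw [← h10] at h6
    exact le_of_mul_le_mul_left h6 h9
  have h9 : B / d ≤ Cbb * (1 + n + QQ) := by
    rw [div_le_iff₀ hd0]
    refine hbs.trans (le_of_eq ?_)
    ring
  have h10 : B / d / M ≤ (1 + n + QQ) / 2 := by
    rw [div_le_div_iff₀ hM0 (by norm_num)]
    have : 0 ≤ 1 + n + QQ := by linarith
    nlinarith
  have h11 : (B / d + E) / M = B / d / M + E / M := by ring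
  rw [h11] at h8
  rw [Finset.sum_sub_distrib, Finset.sum_const, Nat.card_Ico, nsmul_eq_mul, mul_one, ← Finset.sum_div]
  change n - E / M ≤ (M / c₈ + 1) * QQ
  nlinarith

end Pool.Agent.Helper415.HA
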