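import Mathlib
import Pool.Agent.Helper415.HA7
import Pool.Agent.Helper415.WC4

/-! The core count for the Haar basis, `p > 2`. -/

set_option autoImplicit false

open MeasureTheory

namespace Pool.Agent.Helper415.HA

open Pool.Agent.Helper415

variable {p : ℝ}

lemma J_sum' (hp : 2 ≤ p) {r : ℝ → ℝ} (hr : MemLp r (ENNReal.ofReal p) μ1)
    (Λ : Finset Ix) (c : Ix → ℝ) :
    ∫ x, |r x| ^ (p - 2) * r x * (∑ I ∈ Λ, c I * Hf p I x) ∂μ1 =
      ∑ I ∈ Λ, c I * ∫ x, |r x| ^ (p - 2) * r x * Hf p I x ∂μ1 := by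
  have h1 : ∀ I ∈ Λ, c I * ∫ x, |r x| ^ (p - 2) * r x * Hf p I x ∂μ1 =
      ∫ x, c I * (|r x| ^ (p - 2) * r x * Hf p I x) ∂μ1 := fun I _ => by rw [integral_const_mul]
  rw [Finset.sum_congr rfl h1, ← integral_finsetSum]
  · congr 1; funext x; rw [Finset.mul_sum]; apply Finset.sum_congr rfl; intro I _; ring
  · intro I _
    exact (WC.int_J hp hr (Hf_memLp p I _)).const_mul _

lemma Hf_pf_const {Q : Finset Ix} {I : Ix} (hI : I ∈ Q) {n : ℕ} {x y : ℝ}
    (hx : x ∈ Set.Ico (0:ℝ) 1) (hy : y ∈ Set.Ico (0:ℝ) 1) (hc : cell n x = cell n y)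
    (hpf : pf (Finset.eraseNone Q) n (cell n x)) : Hf p I x = Hf p I y := by
  cases I with
  | none =>
    simp only [Hf]
    unfold ind
    have h1 := cell_lt (n := 0) hx
    have h2 := cell_lt (n := 0) hy
    rw [pow_zero] at h1 h2
    rw [if_pos (by omega), if_pos (by omega)]
  | some I =>
    obtain ⟨m, j⟩ := I
    simp only [Hf]
    rcases Nat.lt_or_ge m n with h | h
    · have e1 : cell m x = cell m y := by rw [cell_le h.le x, cell_le h.le y, hc]
      have e2 : cell (m + 1) x = cell (m + 1) y := by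
        rw [cell_le (by omega : m + 1 ≤ n) x, cell_le (by omega : m + 1 ≤ n) y, hc]
      unfold ind rs
      rw [e1, e2]
    · have h1 := hpf (m, j) (Finset.mem_eraseNone.mpr hI) h
      simp only at h1
      have hxj : ¬ cell m x = j := by
        intro h2
        apply h1
        rw [← h2, ← cell_le h x]
      have hyj : ¬ cell m y = j := by
        intro h2
        apply h1
        rw [hc, ← h2, ← cell_le h y]
      unfold ind
      rw [if_neg hxj, if_neg hyj]; ring

lemma span_pf_const {Q : Finset Ix} {Z : ℝ → ℝ} (hZ : Z ∈ Submodule.span ℝ (Hf p '' (Q : Set Ix)))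
    (n : ℕ) (x : ℝ) (hx : x ∈ Set.Ico (0:ℝ) 1) (y : ℝ) (hy : y ∈ Set.Ico (0:ℝ) 1)
    (hc : cell n x = cell n y) (hpf : pf (Finset.eraseNone Q) n (cell n x)) : Z x = Z y := by
  induction hZ using Submodule.span_induction with
  | mem z hz =>
    obtain ⟨I, hI, rfl⟩ := hz
    exact Hf_pf_const (Finset.mem_coe.mp hI) hx hy hc hpf
  | zero => rfl
  | add a b _ _ ha hb => rw [Pi.add_apply, Pi.add_apply, ha, hb]
  | smul a b _ hb => rw [Pi.smul_apply, Pi.smul_apply, hb]

/-- `|a-b|^p ≤ 2^p (|a|^p+|b|^p)/2`-type inequality in the form needed. -/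
lemma sub_rpow_le (hp : 2 < p) (a b : ℝ) : |a - b| ^ p ≤ 2 ^ p * (|a| ^ p / 2 + |b| ^ p / 2) := by
  have h1 := (convexOn_rpow (by linarith : 1 ≤ p)).2 (Set.mem_Ici.mpr (abs_nonneg a))
    (Set.mem_Ici.mpr (abs_nonneg b)) (by norm_num : (0:ℝ) ≤ 1 / 2) (by norm_num : (0:ℝ) ≤ 1 / 2)
    (by norm_num)
  simp only [smul_eq_mul] at h1
  have h2 : |a - b| ≤ 2 * (1 / 2 * |a| + 1 / 2 * |b|) := by
    have := abs_sub a b
    linarith
  have h3 := Real.rpow_le_rpow (abs_nonneg _) h2 (by linarith : 0 ≤ p)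
  rw [Real.mul_rpow (by norm_num) (by positivity)] at h3
  refine h3.trans (mul_le_mul_of_nonneg_left ?_ (by positivity))
  linarith

/-- The constants. -/
noncomputable def C7 (p t : ℝ) : ℝ := CR p * t ^ (-rho p) + 1

noncomputable def c8 (p t : ℝ) : ℝ := cst p / C7 p t

noncomputable def MM (p : ℝ) : ℝ := 2 * Cb p + 2 * (2 + Cf (bt p) (gm p))

noncomputable def C5 (p t : ℝ) : ℝ := (MM p / c8 p t + 1) * (4 / t) ^ (p / (p - 1))

noncomputable def th (p : ℝ) : ℝ := (3 / 2) ^ (1 - p / (p - 1))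

noncomputable def C6 (p : ℝ) : ℝ := 4 ^ (p / (p - 1) - 1) * (2 ^ p) ^ (1 / (p - 1))

noncomputable def AA (p t : ℝ) : ℝ := (C5 p t + C5 p t * th p / (1 - th p)) * C6 p

lemma Cf_nonneg (hp : 2 < p) : 0 ≤ Cf (bt p) (gm p) := by
  unfold Cf
  have h1 := bt_gt hp
  have h2 := gm_ge hp
  have : 0 < bt p - 1 := by linarith
  positivity

lemma C7_pos (hp : 2 < p) {t : ℝ} (ht : 0 < t) : 0 < C7 p t := by
  unfold C7
  have := CR_pos hp
  positivity

lemma cst_pos (hp : 2 < p) : 0 < cst p := by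
  unfold cst
  have := WC.KK_pos hp.le
  positivity

lemma c8_pos (hp : 2 < p) {t : ℝ} (ht : 0 < t) : 0 < c8 p t := div_pos (cst_pos hp) (C7_pos hp ht)

lemma MM_pos (hp : 2 < p) : 0 < MM p := by
  unfold MM
  have := Cb_pos hp
  have := Cf_nonneg hp
  positivity

lemma C5_pos (hp : 2 < p) {t : ℝ} (ht : 0 < t) : 0 < C5 p t := by
  unfold C5
  have := MM_pos hp
  have := c8_pos hp ht
  positivity

lemma th_pos (p : ℝ) : 0 < th p := by unfold th; positivity

lemma th_lt (hp : 2 < p) : th p < 1 := by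
  unfold th
  apply Real.rpow_lt_one_of_one_lt_of_neg (by norm_num)
  have h1 : 0 < p - 1 := by linarith
  have h2 : 1 < p / (p - 1) := by rw [lt_div_iff₀ h1]; linarith
  linarith

lemma C6_pos (p : ℝ) : 0 < C6 p := by unfold C6; positivity

lemma AA_pos (hp : 2 < p) {t : ℝ} (ht : 0 < t) : 0 < AA p t := by
  unfold AA
  have h1 := C5_pos hp ht
  have h2 := th_pos p
  have h3 := th_lt hp
  have h4 := C6_pos p
  have h5 : 0 < 1 - th p := by linarith
  positivity

/-- The number of steps before the residual gets comparable with the noise. -/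
theorem core (hp : 2 < p) {t : ℝ} (ht : 0 < t) (ht1 : t ≤ 1)
    (f₀ : ℝ → ℝ) (hf₀ : MemLp f₀ (ENNReal.ofReal p) μ1) (J : ℕ → Ix) (hJv : ∀ n, Valid (J n))
    (G : ℕ → ℝ → ℝ)
    (hGs : ∀ n, G n ∈ Submodule.span ℝ ((fun i => Hf p (J i)) '' Set.Iio n))
    (hGm : ∀ n, ∀ h ∈ Submodule.span ℝ ((fun i => Hf p (J i)) '' Set.Iio n),
      ∫ x, |f₀ x - G n x| ^ p ∂μ1 ≤ ∫ x, |f₀ x - h x| ^ p ∂μ1)
    (hφ : ∀ n, ∀ I, Valid I →
      t * |∫ x, |f₀ x - G n x| ^ (p - 2) * (f₀ x - G n x) * Hf p I x ∂μ1| ≤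
      |∫ x, |f₀ x - G n x| ^ (p - 2) * (f₀ x - G n x) * Hf p (J n) x ∂μ1|)
    (Λ : Finset Ix) (hΛ : ∀ I ∈ Λ, Valid I) (c : Ix → ℝ) (σ : ℝ) (hσ : 0 ≤ σ)
    (hσ' : ∫ x, |f₀ x - ∑ I ∈ Λ, c I * Hf p I x| ^ p ∂μ1 ≤ σ ^ p)
    (N : ℕ) (hn : 4 ^ (1 + 1 / p) * 2 * σ < (∫ x, |f₀ x - G N x| ^ p ∂μ1) ^ (1 / p)) :
    (N : ℝ) ≤ 2 * AA p t * (Λ.card : ℝ) := by
  classical
  have hp2 : 2 ≤ p := hp.le
  have hp0 : 0 < p := by linarith
  have hp1 : 0 < p - 1 := by linarith
  have hρ0 : 0 ≤ rho p := by unfold rho; exact div_nonneg (by linarith) hp1.le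
  have hρ2 : rho p ≤ 2 := by unfold rho; rw [div_le_iff₀ hp1]; linarith
  set φ : ℕ → ℝ → ℝ := fun i => Hf p (J i) with hφd
  set r : ℕ → ℝ → ℝ := fun k x => f₀ x - G k x with hr
  have hφmem : ∀ n, ∀ g ∈ φ '' Set.Iio n, MemLp g (ENNReal.ofReal p) μ1 := by
    rintro n g ⟨j, _, rfl⟩
    exact Hf_memLp p _ _
  have hGmem : ∀ n, MemLp (G n) (ENNReal.ofReal p) μ1 := fun n => WC.memLp_span (hφmem n) (hGs n)
  have hrmem : ∀ n, MemLp (r n) (ENNReal.ofReal p) μ1 := fun n => hf₀.sub (hGmem n)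
  set U : ℕ → ℝ := fun k => ∫ x, |r k x| ^ p ∂μ1 with hU
  have hU0 : ∀ k, 0 ≤ U k := fun k => integral_nonneg (fun x => by positivity)
  set u : ℕ → ℝ := fun k => U k ^ (1 / p) with hu
  have hu0 : ∀ k, 0 ≤ u k := fun k => by simp only [hu]; exact Real.rpow_nonneg (hU0 k) _
  have huU : ∀ k, u k ^ p = U k := fun k => by
    simp only [hu]
    rw [← Real.rpow_mul (hU0 k), one_div, inv_mul_cancel₀ hp0.ne', Real.rpow_one]
  have hspan_mono : ∀ k l, k ≤ l → Submodule.span ℝ (φ '' Set.Iio k) ≤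
      Submodule.span ℝ (φ '' Set.Iio l) := fun k l hkl =>
    Submodule.span_mono (Set.image_mono (Set.Iio_subset_Iio hkl))
  have hUmono : ∀ k l, k ≤ l → U l ≤ U k := fun k l hkl =>
    hGm l (G k) (hspan_mono k l hkl (hGs k))
  have humono : ∀ k l, k ≤ l → u l ≤ u k := fun k l hkl =>
    Real.rpow_le_rpow (hU0 l) (hUmono k l hkl) (by positivity)
  have h4 : (0:ℝ) < 4 ^ (1 + 1 / p) := by positivity
  have hun : ∀ k, k ≤ N → 4 ^ (1 + 1 / p) * 2 * σ < u k := fun k hk => lt_of_lt_of_le hn (humono k N hk)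
  have hunpos : ∀ k, k ≤ N → 0 < u k := fun k hk =>
    lt_of_le_of_lt (by positivity) (hun k hk)
  have hUpos : ∀ k, k ≤ N → 0 < U k := fun k hk => by
    rw [← huU]; have := hunpos k hk; positivity
  -- the noise is small
  have hnoise : ∀ k, k ≤ N → 4 ^ p * σ ^ p ≤ (1 / 4) * U k := by
    intro k hk
    have h1 : (4 ^ (1 + 1 / p) * σ) ^ p ≤ (u k) ^ p := by
      apply Real.rpow_le_rpow (by positivity) _ hp0.le
      have := hun k hk
      nlinarith [mul_nonneg h4.le hσ]
    rw [Real.mul_rpow h4.le hσ, huU, ← Real.rpow_mul (by norm_num)] at h1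
    rw [show (1 + 1 / p) * p = p + 1 by field_simp, Real.rpow_add (by norm_num), Real.rpow_one] at h1
    linarith
  set g₀ : ℝ → ℝ := fun x => f₀ x - ∑ I ∈ Λ, c I * Hf p I x with hg₀
  have hsum_mem : MemLp (fun x => ∑ I ∈ Λ, c I * Hf p I x) (ENNReal.ofReal p) μ1 :=
    Hf_sum_memLp p Λ c _
  have hg₀mem : MemLp g₀ (ENNReal.ofReal p) μ1 := hf₀.sub hsum_mem
  set Pk : ℕ → Finset Ix := fun k => (Finset.range k).image J with hPk
  have himg : ∀ k, φ '' Set.Iio k = Hf p '' (Pk k : Set Ix) := by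
    intro k
    simp only [hPk, Finset.coe_image, Finset.coe_range, Set.image_image, hφd]
  set Γ : ℕ → Finset Ix := fun k => Λ.filter (fun I => I ∉ Pk k) with hΓ
  have hJzero : ∀ k, k ≤ N → ∀ h ∈ Submodule.span ℝ (φ '' Set.Iio k),
      ∫ x, |r k x| ^ (p - 2) * r k x * h x ∂μ1 = 0 := by
    intro k hk h hh
    apply WC.J_zero hp2 (hunpos k hk) (hrmem k) (WC.memLp_span (hφmem k) hh) (huU k).symm
    intro s
    rw [huU]
    have h1 := hGm k (G k + s • h) (Submodule.add_mem _ (hGs k) (Submodule.smul_mem _ s hh))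
    refine h1.trans (le_of_eq ?_)
    congr 1; funext x
    simp only [Pi.add_apply, Pi.smul_apply, smul_eq_mul, hr]
    congr 2; ring
  set a : ℕ → ℝ := fun k => |∫ x, |r k x| ^ (p - 2) * r k x * φ k x ∂μ1| with ha
  -- the main lower bound for the functional
  have hJlow : ∀ k, k ≤ N → t * U k / 2 ≤ (∑ I ∈ Γ k, |c I|) * a k := by
    intro k hk
    have e1 : U k = ∫ x, |r k x| ^ (p - 2) * r k x * r k x ∂μ1 := by
      simp only [hU]
      congr 1; funext x
      rcases eq_or_ne (r k x) 0 with h0 | h0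
      · rw [h0]; simp [Real.zero_rpow hp0.ne']
      · rw [WC.rpow_split hp2 (abs_pos.mpr h0), sq_abs]; ring
    have e2 : ∀ x, r k x = (∑ I ∈ Λ, c I * Hf p I x) + (g₀ x + (-1) * G k x) := fun x => by
      simp only [hr, hg₀]; ring
    have e3 : ∫ x, |r k x| ^ (p - 2) * r k x * r k x ∂μ1 =
        ∫ x, |r k x| ^ (p - 2) * r k x * ((∑ I ∈ Λ, c I * Hf p I x) + (g₀ x + (-1) * G k x)) ∂μ1 := by
      congr 1; funext x; congr 1; exact e2 x
    have hGk' : MemLp (fun x => (-1) * G k x) (ENNReal.ofReal p) μ1 := (hGmem k).const_mul (-1)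
    have hsum3 : MemLp (fun x => g₀ x + (-1) * G k x) (ENNReal.ofReal p) μ1 := hg₀mem.add hGk'
    rw [WC.J_add hp2 (hrmem k) hsum_mem hsum3] at e3
    have e4 : ∫ x, |r k x| ^ (p - 2) * r k x * (g₀ x + (-1) * G k x) ∂μ1 =
        ∫ x, |r k x| ^ (p - 2) * r k x * g₀ x ∂μ1 := by
      have := WC.J_add hp2 (hrmem k) hg₀mem hGk'
      rw [WC.J_smul, hJzero k hk (G k) (hGs k), mul_zero, add_zero] at this
      exact this
    have e5 : ∫ x, |r k x| ^ (p - 2) * r k x * (∑ I ∈ Λ, c I * Hf p I x) ∂μ1 =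
        ∑ I ∈ Γ k, c I * ∫ x, |r k x| ^ (p - 2) * r k x * Hf p I x ∂μ1 := by
      rw [J_sum' hp2 (hrmem k) Λ c]
      rw [← Finset.sum_filter_add_sum_filter_not Λ (fun I => I ∉ Pk k)]
      have : ∑ I ∈ Λ.filter (fun I => ¬ I ∉ Pk k),
          c I * ∫ x, |r k x| ^ (p - 2) * r k x * Hf p I x ∂μ1 = 0 := by
        apply Finset.sum_eq_zero
        intro I hI
        have hI2 : I ∈ Pk k := by
          have := (Finset.mem_filter.mp hI).2
          push Not at this
          exact this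
        rw [hJzero k hk (Hf p I) (Submodule.subset_span (by rw [himg]; exact ⟨I, hI2, rfl⟩)), mul_zero]
      rw [this, add_zero]
    have e6 := WC.noise_bound hp2 (hrmem k) hg₀mem
    have e7 : |∑ I ∈ Γ k, c I * ∫ x, |r k x| ^ (p - 2) * r k x * Hf p I x ∂μ1| ≤
        (∑ I ∈ Γ k, |c I|) * (a k / t) := by
      refine (Finset.abs_sum_le_sum_abs _ _).trans ?_
      rw [Finset.sum_mul]
      apply Finset.sum_le_sum
      intro I hI
      rw [abs_mul]
      apply mul_le_mul_of_nonneg_left _ (abs_nonneg _)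
      rw [le_div_iff₀ ht, mul_comm]
      exact hφ k I (hΛ I (Finset.mem_filter.mp hI).1)
    have e8 : 4 ^ p * ∫ x, |g₀ x| ^ p ∂μ1 ≤ 4 ^ p * σ ^ p :=
      mul_le_mul_of_nonneg_left hσ' (by positivity)
    have e9 := hnoise k hk
    have e10 : U k ≤ (∑ I ∈ Γ k, |c I|) * (a k / t) + (1 / 2) * U k := by
      have h1 : U k = ∑ I ∈ Γ k, c I * ∫ x, |r k x| ^ (p - 2) * r k x * Hf p I x ∂μ1 +
          ∫ x, |r k x| ^ (p - 2) * r k x * g₀ x ∂μ1 := by
        rw [← e5, ← e4, e1]; exact e3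
      have h2 := le_abs_self (∑ I ∈ Γ k, c I * ∫ x, |r k x| ^ (p - 2) * r k x * Hf p I x ∂μ1)
      have h3 := le_abs_self (∫ x, |r k x| ^ (p - 2) * r k x * g₀ x ∂μ1)
      have h5 : ∫ x, |r k x| ^ p ∂μ1 = U k := rfl
      rw [h5] at e6
      linarith
    have e11 : (∑ I ∈ Γ k, |c I|) * (a k / t) = ((∑ I ∈ Γ k, |c I|) * a k) / t := by ring
    rw [e11] at e10
    have e12 : (1 / 2) * U k ≤ ((∑ I ∈ Γ k, |c I|) * a k) / t := by linarith
    rw [le_div_iff₀ ht] at e12
    linarith
  have hS0 : ∀ k, 0 ≤ ∑ I ∈ Γ k, |c I| := fun k => Finset.sum_nonneg (fun I _ => abs_nonneg _)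
  have hapos : ∀ k, k ≤ N → 0 < a k := by
    intro k hk
    have h1 := hJlow k hk
    have h2 := hUpos k hk
    have h3 : 0 < t * U k / 2 := by positivity
    have h5 : 0 ≤ a k := abs_nonneg _
    rcases h5.eq_or_lt with h6 | h6
    · rw [← h6, mul_zero] at h1; linarith
    · exact h6
  have hSpos : ∀ k, k ≤ N → 0 < ∑ I ∈ Γ k, |c I| := by
    intro k hk
    have h1 := hJlow k hk
    have h2 := hUpos k hk
    have h3 : 0 < t * U k / 2 := by positivity
    rcases (hS0 k).eq_or_lt with h6 | h6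
    · rw [← h6, zero_mul] at h1; linarith
    · exact h6
  -- picks are distinct
  have hJinj : ∀ i j, i < j → j ≤ N → J i ≠ J j := by
    intro i j hij hj heq
    have h1 := hapos j hj
    have h2 := hJzero j hj (φ j) (Submodule.subset_span ⟨i, hij, by simp only [hφd]; rw [heq]⟩)
    simp only [ha] at h1
    rw [h2, abs_zero] at h1
    exact lt_irrefl _ h1
  have hcardimg : ∀ s e, s ≤ e → e ≤ N → ((Finset.Ico s e).image J).card = e - s := by
    intro s e _ he
    rw [Finset.card_image_of_injOn, Nat.card_Ico]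
    intro i hi j hj hij
    simp only [Finset.coe_Ico, Set.mem_Ico] at hi hj
    rcases lt_trichotomy i j with h | h | h
    · exact absurd hij (hJinj i j h (by omega))
    · exact h
    · exact absurd hij.symm (hJinj j i h (by omega))
  have hsuminj : ∀ (s e : ℕ), s ≤ e → e ≤ N → ∀ F : Ix → ℝ,
      ∑ k ∈ Finset.Ico s e, F (J k) = ∑ I ∈ (Finset.Ico s e).image J, F I := by
    intro s e _ he F
    rw [Finset.sum_image]
    intro i hi j hj hij
    simp only [Finset.coe_Ico, Set.mem_Ico] at hi hj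
    rcases lt_trichotomy i j with h | h | h
    · exact absurd hij (hJinj i j h (by omega))
    · exact h
    · exact absurd hij.symm (hJinj j i h (by omega))
  -- the lower estimate for the coefficients
  have hCA : ∀ k, k ≤ N → ∑ I ∈ Γ k, |c I| ^ p ≤ 2 ^ p * U k := by
    intro k hk
    have hGk := hGs k
    change G k ∈ Submodule.span ℝ (φ '' Set.Iio k) at hGk
    rw [himg] at hGk
    obtain ⟨d, hd⟩ := (Submodule.mem_span_image_finset_iff_exists_fun' ℝ).mp hGk
    set Q := Λ ∪ Pk k with hQ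
    set c' : Ix → ℝ := fun I => (if I ∈ Λ then c I else 0) - (if I ∈ Pk k then d I else 0) with hc'
    have hQv : ∀ I ∈ Q, Valid I := by
      intro I hI
      rcases Finset.mem_union.mp hI with h | h
      · exact hΛ I h
      · obtain ⟨j, _, rfl⟩ := Finset.mem_image.mp h
        exact hJv j
    have h1 := haar_lower hp Q hQv c'
    have h2 : ∑ I ∈ Γ k, |c I| ^ p ≤ ∑ I ∈ Q, |c' I| ^ p := by
      have h3 : ∑ I ∈ Γ k, |c I| ^ p = ∑ I ∈ Γ k, |c' I| ^ p := by
        apply Finset.sum_congr rfl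
        intro I hI
        obtain ⟨h4, h5⟩ := Finset.mem_filter.mp hI
        simp only [hc', if_pos h4, if_neg h5, sub_zero]
      rw [h3]
      apply Finset.sum_le_sum_of_subset_of_nonneg
      · intro I hI
        exact Finset.mem_union_left _ (Finset.mem_filter.mp hI).1
      · intro I _ _; positivity
    have h3 : ∀ x, ∑ I ∈ Q, c' I * Hf p I x = r k x - g₀ x := by
      intro x
      simp only [hc', sub_mul, Finset.sum_sub_distrib]
      have e1 : ∑ I ∈ Q, (if I ∈ Λ then c I else 0) * Hf p I x = ∑ I ∈ Λ, c I * Hf p I x := by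
        rw [← Finset.sum_subset (Finset.subset_union_left : Λ ⊆ Λ ∪ Pk k)]
        · apply Finset.sum_congr rfl
          intro I hI
          rw [if_pos hI]
        · intro I _ hI
          rw [if_neg hI, zero_mul]
      have e2 : ∑ I ∈ Q, (if I ∈ Pk k then d I else 0) * Hf p I x = G k x := by
        rw [← hd, Finset.sum_apply]
        rw [← Finset.sum_subset (Finset.subset_union_right : Pk k ⊆ Λ ∪ Pk k)]
        · apply Finset.sum_congr rfl
          intro I hI
          rw [if_pos hI, Pi.smul_apply, smul_eq_mul]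
        · intro I _ hI
          rw [if_neg hI, zero_mul]
      rw [e1, e2]
      simp only [hr, hg₀]; ring
    simp_rw [h3] at h1
    have h5 : ∫ x, |r k x - g₀ x| ^ p ∂μ1 ≤ ∫ x, 2 ^ p * (|r k x| ^ p / 2 + |g₀ x| ^ p / 2) ∂μ1 := by
      apply integral_mono (WC.int_rpow hp2 ((hrmem k).sub hg₀mem))
        ((((WC.int_rpow hp2 (hrmem k)).div_const 2).add
          ((WC.int_rpow hp2 hg₀mem).div_const 2)).const_mul _)
      intro x
      exact sub_rpow_le hp _ _
    rw [integral_const_mul, integral_add ((WC.int_rpow hp2 (hrmem k)).div_const 2)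
      ((WC.int_rpow hp2 hg₀mem).div_const 2), integral_div, integral_div] at h5
    have h6 : ∫ x, |g₀ x| ^ p ∂μ1 ≤ U k := by
      have e1 := hnoise k hk
      have e2 : (1:ℝ) ≤ 4 ^ p := Real.one_le_rpow (by norm_num) hp0.le
      have e3 : 0 ≤ σ ^ p := by positivity
      nlinarith [hU0 k]
    have h7 : (2:ℝ) ^ p * ((∫ x, |r k x| ^ p ∂μ1) / 2 + (∫ x, |g₀ x| ^ p ∂μ1) / 2) ≤ 2 ^ p * U k := by
      apply mul_le_mul_of_nonneg_left _ (by positivity)
      have h5 : ∫ x, |r k x| ^ p ∂μ1 = U k := rfl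
      rw [h5]; linarith
    linarith
  -- local quantities
  set P : Finset (ℕ × ℕ) := Finset.eraseNone (Pk N) with hP
  set eI : Ix → ℝ := fun I => bt p ^ lev I * ∫ x, gm p ^ lam P x * ind (lev I) (cel I) x ∂μ1 with heI
  set bI : ℕ → Ix → ℝ := fun s I => bt p ^ lev I * ∫ x, yy p P (r s) x * ind (lev I) (cel I) x ∂μ1
    with hbI
  have heI0 : ∀ I, 0 ≤ eI I := fun I => mul_nonneg (pow_nonneg (bt_pos p).le _)
    (integral_nonneg (fun x => mul_nonneg (pow_nonneg (by have := gm_ge hp; linarith) _)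
      (ind_nonneg _ _ _)))
  have hbI0 : ∀ s I, 0 ≤ bI s I := fun s I => mul_nonneg (pow_nonneg (bt_pos p).le _)
    (integral_nonneg (fun x => mul_nonneg (yy_nonneg p P (r s) x) (ind_nonneg _ _ _)))
  -- one step
  have hstep : ∀ s k, s ≤ k → k < N →
      c8 p t * (a k ^ 2 / (bI s (J k) + a k ^ rho p * (eI (J k) + 1))) ≤ U k - U (k + 1) := by
    intro s k hsk hk
    have hak := hapos k hk.le
    obtain ⟨τ, hτ⟩ := decrease2 hp (hrmem k) (Hf_memLp p (J k) _) (Hf_int hp (J k)) hak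
    have h1 : U (k + 1) ≤ ∫ x, |r k x - τ * Hf p (J k) x| ^ p ∂μ1 := by
      have h2 := hGm (k + 1) (G k + τ • φ k) (Submodule.add_mem _
        (hspan_mono k (k + 1) (by omega) (hGs k))
        (Submodule.smul_mem _ τ (Submodule.subset_span ⟨k, by simp, rfl⟩)))
      refine h2.trans (le_of_eq ?_)
      congr 1; funext x
      simp only [Pi.add_apply, Pi.smul_apply, smul_eq_mul, hr, hφd]
      congr 2; ring
    have hZmem : (fun x => G k x - G s x) ∈ Submodule.span ℝ (Hf p '' (Pk N : Set Ix)) := by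
      rw [← himg]
      exact Submodule.sub_mem _ (hspan_mono k N hk.le (hGs k)) (hspan_mono s N (by omega) (hGs s))
    have hrz : ∀ x, r s x - (G k x - G s x) = r k x := fun x => by simp only [hr]; ring
    have hB := B_bound hp P (F := r s) (Z := fun x => G k x - G s x) (hrmem s)
      (by simp_rw [hrz]; exact hrmem k)
      (fun n x hx y hy hc hpf => span_pf_const hZmem n x hx y hy hc hpf)
      (α := a k / t)
      (by
        intro I hI
        simp_rw [hrz]
        rw [le_div_iff₀ ht, mul_comm]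
        exact hφ k I hI) (J k)
    simp_rw [hrz] at hB
    set Bk := ∫ x, |r k x| ^ (p - 2) * Hf p (J k) x ^ 2 ∂μ1 with hBk
    change Bk ≤ CR p * (bI s (J k) + (a k / t) ^ rho p * eI (J k)) at hB
    have hBk0 : 0 ≤ Bk := integral_nonneg (fun x => by positivity)
    have hCR := CR_pos hp
    have htr : (1:ℝ) ≤ t ^ (-rho p) := Real.one_le_rpow_of_pos_of_le_one_of_nonpos ht ht1 (by linarith)
    have hdiv : (a k / t) ^ rho p = a k ^ rho p * t ^ (-rho p) := by
      rw [Real.div_rpow hak.le ht.le, Real.rpow_neg ht.le]; rfl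
    have hap : 0 < a k ^ rho p := by positivity
    have hC7 := C7_pos hp ht
    have hle : Bk + a k ^ rho p ≤ C7 p t * (bI s (J k) + a k ^ rho p * (eI (J k) + 1)) := by
      rw [hdiv] at hB
      have e1 : CR p * bI s (J k) ≤ C7 p t * bI s (J k) := by
        apply mul_le_mul_of_nonneg_right _ (hbI0 s _)
        unfold C7
        nlinarith
      have e2 : CR p * (a k ^ rho p * t ^ (-rho p) * eI (J k)) + a k ^ rho p ≤
          C7 p t * (a k ^ rho p * (eI (J k) + 1)) := by
        have h6 : 0 ≤ a k ^ rho p * eI (J k) := mul_nonneg hap.le (heI0 _)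
        have h7 : 0 ≤ CR p * t ^ (-rho p) * a k ^ rho p := by positivity
        have : C7 p t * (a k ^ rho p * (eI (J k) + 1)) =
            CR p * (a k ^ rho p * t ^ (-rho p) * eI (J k)) + a k ^ rho p +
              (a k ^ rho p * eI (J k) + CR p * t ^ (-rho p) * a k ^ rho p) := by
          unfold C7; ring
        rw [this]; linarith
      nlinarith
    have hden : 0 < Bk + a k ^ rho p := by linarith
    have hden2 : 0 < bI s (J k) + a k ^ rho p * (eI (J k) + 1) := by
      have := hbI0 s (J k)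
      have := heI0 (J k)
      have : 0 < a k ^ rho p * (eI (J k) + 1) := by positivity
      linarith
    have hcst := cst_pos hp
    have h5 : c8 p t * (a k ^ 2 / (bI s (J k) + a k ^ rho p * (eI (J k) + 1))) ≤
        cst p * a k ^ 2 / (Bk + a k ^ rho p) := by
      unfold c8
      rw [div_mul_div_comm, div_le_div_iff₀ (by positivity) hden]
      apply mul_le_mul_of_nonneg_left hle (by positivity)
    change ∫ x, |r k x - τ * Hf p (J k) x| ^ p ∂μ1 ≤ U k - cst p * a k ^ 2 / (Bk + a k ^ rho p) at hτ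
    linarith
  -- blocks
  have hΓmono : ∀ k l, k ≤ l → Γ l ⊆ Γ k := by
    intro k l hkl I hI
    obtain ⟨h1, h2⟩ := Finset.mem_filter.mp hI
    refine Finset.mem_filter.mpr ⟨h1, fun h3 => h2 ?_⟩
    obtain ⟨j, hj, rfl⟩ := Finset.mem_image.mp h3
    exact Finset.mem_image.mpr ⟨j, Finset.mem_range.mpr (by have := Finset.mem_range.mp hj; omega), rfl⟩
  set S : ℕ → ℝ := fun k => ∑ I ∈ Γ k, |c I| with hS
  have hSmono : ∀ k l, k ≤ l → S l ≤ S k := fun k l hkl =>
    Finset.sum_le_sum_of_subset_of_nonneg (hΓmono k l hkl) (fun I _ _ => abs_nonneg _)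
  set W : ℕ → ℝ := fun k => WW p (S k) (U k) with hW
  set M := MM p with hM
  have hMpos : 0 < M := MM_pos hp
  set x : ℕ → ℝ := fun k => 1 - (eI (J k) + 1) / M with hx
  have hblock : ∀ s e, s < e → e ≤ N → (∀ k, s ≤ k → k < e → U s / 2 ≤ U k) →
      ∑ k ∈ Finset.Ico s e, x k ≤ C5 p t * W s := by
    intro s e hse he hUk
    have hUs := hUpos s (by omega)
    have hSs := hSpos s (by omega)
    change 0 < S s at hSs
    set δ := t * U s / (4 * S s) with hδ
    have hδ0 : 0 < δ := by positivity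
    have hδa : ∀ k, s ≤ k → k < e → δ ≤ a k := by
      intro k hk1 hk2
      have h1 := hJlow k (by omega)
      change t * U k / 2 ≤ S k * a k at h1
      have h2 := hUk k hk1 hk2
      have h3 := hSmono s k hk1
      have h5 := hapos k (by omega)
      rw [hδ, div_le_iff₀ (by positivity)]
      nlinarith
    have hb := bsum hp P (hrmem s) ((Finset.Ico s e).image J) hδ0
    have h1 := block_count hp hse U (fun k => bI s (J k)) (fun k => eI (J k) + 1) hδ0 (c8_pos hp ht)
      (Cb_pos hp) (M := M) (by rw [hM]; unfold MM; have := Cf_nonneg hp; linarith) (hU0 e) hUs.le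
      (fun k _ _ => hbI0 s _) (fun k _ _ => by have := heI0 (J k); linarith)
      (fun k hk1 hk2 => by
        refine le_trans ?_ (hstep s k hk1 (by omega))
        apply mul_le_mul_of_nonneg_left _ (c8_pos hp ht).le
        exact step_mono hρ2 hδ0 (hδa k hk1 hk2) (hbI0 s _) (by have := heI0 (J k); linarith))
      (by
        rw [hsuminj s e hse.le he (bI s)]
        refine hb.trans (le_of_eq ?_)
        rw [hcardimg s e hse.le he])
    refine h1.trans (le_of_eq ?_)
    have h2 : U s / δ ^ (p / (p - 1)) = (4 / t) ^ (p / (p - 1)) * W s := by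
      simp only [hW]
      unfold WW
      have e1 : δ = (t / 4) * (U s / S s) := by rw [hδ]; field_simp
      rw [e1, Real.mul_rpow (by positivity) (by positivity), Real.div_rpow hUs.le hSs.le]
      have e2 : (4 / t) ^ (p / (p - 1)) = ((t / 4) ^ (p / (p - 1)))⁻¹ := by
        rw [← Real.inv_rpow (by positivity)]; congr 1; field_simp
      have e3 : U s ^ (1 - p / (p - 1)) = U s / U s ^ (p / (p - 1)) := by
        rw [Real.rpow_sub hUs, Real.rpow_one]
      rw [e2, e3]
      have h7 : 0 < U s ^ (p / (p - 1)) := by positivity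
      have h8 : 0 < S s ^ (p / (p - 1)) := by positivity
      have h9 : 0 < (t / 4) ^ (p / (p - 1)) := by positivity
      field_simp
    rw [h2]
    unfold C5
    rw [← hM]
    ring
  rcases Nat.eq_zero_or_pos N with hN0 | hNpos
  · rw [hN0]
    have := AA_pos hp ht
    push_cast
    positivity
  have hind := block_induction N U W x (fun k => ((Γ k).card : ℝ)) (C5 := C5 p t) (C6 := C6 p) (θ := th p)
    (C5_pos hp ht).le (th_pos p) (th_lt hp) (fun k hk => hUpos k hk.le) hblock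
    (by
      intro s hs
      have h1 := W1 (Γ s) (fun I => |c I|) (fun I => abs_nonneg _) (by linarith : 1 < p)
        (hUpos s hs.le) (by positivity : (0:ℝ) ≤ 2 ^ p) (hCA s hs.le)
      refine h1.trans ?_
      apply mul_le_mul_of_nonneg_right _ (Nat.cast_nonneg _)
      unfold C6
      have h2 : (1:ℝ) ≤ 4 ^ (p / (p - 1) - 1) := by
        apply Real.one_le_rpow (by norm_num)
        rw [sub_nonneg, le_div_iff₀ hp1]; linarith
      have h3 : (0:ℝ) ≤ (2 ^ p) ^ (1 / (p - 1)) := by positivity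
      nlinarith)
    (by
      intro s s' hss hs' hUU
      exact W2 (Γ s) (Γ s') (hΓmono s s' hss.le) (fun I => |c I|) (fun I => abs_nonneg _)
        (by linarith : 1 < p) (hUpos s' hs'.le) hUU (by positivity : (0:ℝ) ≤ 2 ^ p) (hCA s (by omega)))
    N 0 (by omega) hNpos
  have hW0 : 0 ≤ C5 p t * th p / (1 - th p) * W 0 := by
    have h1 := C5_pos hp ht
    have h2 := th_pos p
    have h3 := th_lt hp
    have h5 : 0 < 1 - th p := by linarith
    have h6 : 0 ≤ W 0 := by
      simp only [hW]; unfold WW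
      have := hS0 0
      have := hU0 0
      positivity
    positivity
  have hcard0 : ((Γ 0).card : ℝ) ≤ Λ.card := by exact_mod_cast Finset.card_filter_le _ _
  -- sum of the e's
  have hes : ∑ k ∈ Finset.Ico 0 N, eI (J k) ≤ 1 + Cf (bt p) (gm p) * N := by
    rw [hsuminj 0 N (Nat.zero_le _) le_rfl]
    have h1 : (Finset.Ico 0 N).image J = Pk N := by
      simp only [hPk]; rw [Finset.range_eq_Ico]
    rw [h1]
    have h2 := esum hp (Pk N)
    refine h2.trans ?_
    have h3 : ((Pk N).card : ℝ) ≤ N := by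
      have : (Pk N).card ≤ N := by
        refine Finset.card_image_le.trans ?_
        rw [Finset.card_range]
      exact_mod_cast this
    have := mul_le_mul_of_nonneg_left h3 (Cf_nonneg hp)
    linarith
  have hxs : (N : ℝ) / 2 ≤ ∑ k ∈ Finset.Ico 0 N, x k := by
    simp only [hx]
    rw [Finset.sum_sub_distrib, Finset.sum_const, Nat.card_Ico, ← Finset.sum_div,
      Finset.sum_add_distrib, Finset.sum_const, Nat.card_Ico, nsmul_eq_mul, mul_one, Nat.sub_zero]
    have hN1 : (1:ℝ) ≤ N := by exact_mod_cast hNpos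
    have h1 : (∑ k ∈ Finset.Ico 0 N, eI (J k) + N) / M ≤ N / 2 := by
      rw [div_le_iff₀ hMpos]
      have h2 : N / 2 * M = N * Cb p + N * (2 + Cf (bt p) (gm p)) := by
        rw [hM]; unfold MM; ring
      rw [h2]
      have := Cb_pos hp
      have h3 : 0 ≤ N * Cb p := by positivity
      nlinarith
    linarith
  have hfin : (N : ℝ) / 2 ≤ AA p t * (Γ 0).card := by
    have : (C5 p t + C5 p t * th p / (1 - th p)) * C6 p = AA p t := rfl
    rw [this] at hind
    linarith
  have h1 := mul_le_mul_of_nonneg_left hcard0 (AA_pos hp ht).le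
  linarith

end Pool.Agent.Helper415.HA
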