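import Mathlib
import Pool.Agent.Helper415.TGDefs

/-!
The Haar system normalized in `L_p`, and almost greediness with respect to the WCGA.
-/

set_option autoImplicit false

open MeasureTheory Filter Topology
open scoped ENNReal

namespace Pool.Agent.Helper415.HaarD

open Pool.Agent.Helper415.TG

/-- The dyadic interval `[k 2^{-n}, (k+1) 2^{-n})`. -/
def dyadic (n k : ℕ) : Set ℝ := Set.Ico ((k : ℝ) / 2 ^ n) (((k : ℝ) + 1) / 2 ^ n)

/-- The Haar function `H_{I,q} = |I|^{-1/q} (1_{I^-} - 1_{I^+})` of the dyadic interval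
`I = dyadic n k` of length `2^{-n}`; its left half `I^-` is `dyadic (n + 1) (2 k)` and its right
half `I^+` is `dyadic (n + 1) (2 k + 1)`. -/
noncomputable def haarFn (q : ℝ) (n k : ℕ) (x : ℝ) : ℝ :=
  ((2 : ℝ) ^ n) ^ (1 / q) * ((dyadic (n + 1) (2 * k)).indicator (fun _ => 1) x -
    (dyadic (n + 1) (2 * k + 1)).indicator (fun _ => 1) x)

/-- The univariate Haar system normalized in `L_q`: the constant function `1` and the functions
`H_{I,q}` of all dyadic intervals `I ⊆ [0,1)`. -/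
def haarSystem (q : ℝ) : Set (ℝ → ℝ) :=
  {f | f = (fun _ => 1) ∨ ∃ n k : ℕ, k < 2 ^ n ∧ f = haarFn q n k}

/-- Lebesgue measure on `[0,1]`. -/
noncomputable def leb : Measure ℝ := volume.restrict (Set.Icc 0 1)

/-- The univariate Haar basis `𝓗_p` of `L_p([0,1])`, normalized in `L_p`. -/
def Haar (p : ℝ≥0∞) [Fact (1 ≤ p)] : Set (Lp ℝ p leb) := classes leb p (haarSystem p.toReal)

/-- The dictionary `D` is almost greedy with respect to the WCGA: for each `t ∈ (0,1]` there are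
constants `C₁ ≥ 1` and `C₂` such that `‖f_{⌈C₁ m⌉}‖ ≤ C₂ σ_m(f₀, D)` for all `f₀`, all `m ≥ 1` and all
runs of WCGA(`t`). -/
def AlmostGreedyBasis {V : Type} [NormedAddCommGroup V] [NormedSpace ℝ V] (F : V → V → ℝ)
    (D : Set V) : Prop :=
  ∀ t : ℝ, 0 < t → t ≤ 1 → ∃ C₁ C₂ : ℝ, 1 ≤ C₁ ∧ 0 < C₂ ∧
    ∀ (f₀ : V) (φ r : ℕ → V), IsRun F D t f₀ φ r →
      ∀ m : ℕ, 1 ≤ m → ‖r ⌈C₁ * m⌉₊‖ ≤ C₂ * sigma D m f₀

end Pool.Agent.Helper415.HaarD
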