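import Mathlib
import Pool.Agent.Helper415.HA8
import Pool.Agent.Helper415.TG1
import Pool.Agent.Helper415.HaarDefs

/-! Transfer to `L_p`. -/

set_option autoImplicit false

open MeasureTheory Filter Topology
open scoped ENNReal

namespace Pool.Agent.Helper415.HA

open Pool.Agent.Helper415 Pool.Agent.Helper415.TG Pool.Agent.Helper415.HaarD

section gen

variable {X : Type} [MeasurableSpace X] {μ : Measure X} {p : ℝ≥0∞}

lemma lift_span' [Fact (1 ≤ p)] (φ : ℕ → Lp ℝ p μ) (ψ : ℕ → X → ℝ) (h : ∀ i, ψ i =ᵐ[μ] φ i) (k : ℕ)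
    (v : Lp ℝ p μ) (hv : v ∈ Submodule.span ℝ (φ '' Set.Iio k)) :
    ∃ w ∈ Submodule.span ℝ (ψ '' Set.Iio k), w =ᵐ[μ] v := by
  induction hv using Submodule.span_induction with
  | mem x hx =>
    obtain ⟨i, hi, rfl⟩ := hx
    exact ⟨ψ i, Submodule.subset_span ⟨i, hi, rfl⟩, h i⟩
  | zero => exact ⟨0, Submodule.zero_mem _, (Lp.coeFn_zero ℝ p _).symm⟩
  | add x y _ _ hx hy =>
    obtain ⟨w, hw, hw'⟩ := hx
    obtain ⟨z, hz, hz'⟩ := hy
    exact ⟨w + z, Submodule.add_mem _ hw hz, (hw'.add hz').trans (Lp.coeFn_add x y).symm⟩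
  | smul a x _ hx =>
    obtain ⟨w, hw, hw'⟩ := hx
    exact ⟨a • w, Submodule.smul_mem _ a hw, (hw'.const_smul a).trans (Lp.coeFn_smul a x).symm⟩

lemma lower_span' [Fact (1 ≤ p)] (φ : ℕ → Lp ℝ p μ) (ψ : ℕ → X → ℝ) (h : ∀ i, ψ i =ᵐ[μ] φ i) (k : ℕ)
    (w : X → ℝ) (hw : w ∈ Submodule.span ℝ (ψ '' Set.Iio k)) :
    ∃ v ∈ Submodule.span ℝ (φ '' Set.Iio k), w =ᵐ[μ] (v : Lp ℝ p μ) := by
  induction hw using Submodule.span_induction with
  | mem x hx =>
    obtain ⟨i, hi, rfl⟩ := hx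
    exact ⟨φ i, Submodule.subset_span ⟨i, hi, rfl⟩, h i⟩
  | zero => exact ⟨0, Submodule.zero_mem _, (Lp.coeFn_zero ℝ p _).symm⟩
  | add x y _ _ hx hy =>
    obtain ⟨w, hw, hw'⟩ := hx
    obtain ⟨z, hz, hz'⟩ := hy
    exact ⟨w + z, Submodule.add_mem _ hw hz, (hw'.add hz').trans (Lp.coeFn_add w z).symm⟩
  | smul a x _ hx =>
    obtain ⟨w, hw, hw'⟩ := hx
    exact ⟨a • w, Submodule.smul_mem _ a hw, (hw'.const_smul a).trans (Lp.coeFn_smul a w).symm⟩

end gen

lemma ind_eq_dyadic {n k : ℕ} {x : ℝ} (hx : 0 ≤ x) :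
    (dyadic n k).indicator (fun _ => (1:ℝ)) x = ind n k x := by
  have h2 : (0:ℝ) < 2 ^ n := by positivity
  have h : x ∈ dyadic n k ↔ cell n x = k := by
    unfold dyadic cell
    rw [Nat.floor_eq_iff (mul_nonneg h2.le hx), Set.mem_Ico, div_le_iff₀ h2, lt_div_iff₀ h2,
      mul_comm x]
  unfold ind Set.indicator
  simp only [h]

lemma haarFn_eq (q : ℝ) (n k : ℕ) : haarFn q n k =ᵐ[μ1] Hf q (some (n, k)) := by
  unfold μ1
  rw [Filter.EventuallyEq, ae_restrict_iff' measurableSet_Ico]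
  refine Filter.Eventually.of_forall (fun x hx => ?_)
  unfold haarFn
  simp only [Hf]
  rw [ind_eq_dyadic hx.1, ind_eq_dyadic hx.1, ind_rs]
  congr 1
  unfold hb
  rw [← Real.rpow_natCast, ← Real.rpow_natCast, ← Real.rpow_mul (by norm_num),
    ← Real.rpow_mul (by norm_num)]
  congr 1; ring

lemma one_eq (q : ℝ) : (fun _ : ℝ => (1:ℝ)) =ᵐ[μ1] Hf q none := by
  unfold μ1
  rw [Filter.EventuallyEq, ae_restrict_iff' measurableSet_Ico]
  refine Filter.Eventually.of_forall (fun x hx => ?_)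
  simp only [Hf]
  unfold ind
  have h1 := cell_lt (n := 0) hx
  rw [pow_zero] at h1
  rw [if_pos (by omega)]

section main

variable {p : ℝ≥0∞} [Fact (1 ≤ p)]

lemma rep {g : Lp ℝ p μ1} (hg : g ∈ classes μ1 p (haarSystem p.toReal)) :
    ∃ I, Valid I ∧ Hf p.toReal I =ᵐ[μ1] g := by
  obtain ⟨f, hf, hgf⟩ := hg
  rcases hf with rfl | ⟨n, k, hk, rfl⟩
  · exact ⟨none, by unfold Valid cel lev; norm_num, (hgf.trans (one_eq _)).symm⟩
  · exact ⟨some (n, k), hk, (hgf.trans (haarFn_eq _ n k)).symm⟩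

lemma unrep {I : Ix} (hI : Valid I) : ∃ g ∈ classes μ1 p (haarSystem p.toReal),
    Hf p.toReal I =ᵐ[μ1] g := by
  have hm := Hf_memLp p.toReal I p
  refine ⟨hm.toLp _, ?_, hm.coeFn_toLp.symm⟩
  cases I with
  | none => exact ⟨_, Or.inl rfl, hm.coeFn_toLp.trans (one_eq _).symm⟩
  | some J => exact ⟨_, Or.inr ⟨J.1, J.2, hI, rfl⟩, hm.coeFn_toLp.trans (haarFn_eq _ _ _).symm⟩

theorem ag_haar (hp2 : 2 < p) (hptop : p ≠ ⊤) :
    AlmostGreedyBasis normingF (classes μ1 p (haarSystem p.toReal)) := by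
  classical
  set D := classes μ1 p (haarSystem p.toReal) with hD
  set q : ℝ := p.toReal with hq
  have hpq : ENNReal.ofReal q = p := ENNReal.ofReal_toReal hptop
  have hp0 : p ≠ 0 := by
    intro h; rw [h] at hp2; exact absurd hp2 (by norm_num)
  have hq2 : 2 < q := by
    have := (ENNReal.toReal_lt_toReal (by norm_num) hptop).mpr hp2
    simpa using this
  have hq0 : 0 < q := by linarith
  obtain ⟨g₀, hg₀, hg₀'⟩ := unrep (p := p) (I := none) (by unfold Valid cel lev; norm_num)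
  have hmem : ∀ f : Lp ℝ p μ1, MemLp f (ENNReal.ofReal q) μ1 := fun f => by
    rw [hpq]; exact Lp.memLp f
  intro t ht ht1
  have hAA := AA_pos hq2 ht
  refine ⟨2 * AA q t + 1, 4 ^ (1 + 1 / q) * 2, by linarith, by positivity, ?_⟩
  intro f₀ φ₀ r hrun m hm
  obtain ⟨hr0, hstep⟩ := hrun
  set φ : ℕ → Lp ℝ p μ1 := fun n => if r n = 0 then g₀ else φ₀ n with hφ
  have hzero : ∀ j k, j ≤ k → r j = 0 → r k = 0 := by
    intro j k hjk hj
    induction k, hjk using Nat.le_induction with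
    | base => exact hj
    | succ k _ ih => exact (hstep k).1 ih
  have hφD : ∀ n, φ n ∈ D := by
    intro n
    by_cases hn : r n = 0
    · simp only [hφ, if_pos hn]; exact hg₀
    · simp only [hφ, if_neg hn]; exact ((hstep n).2 hn).1.1
  choose J hJv hJe using fun n => rep (hφD n)
  rw [← hq] at hJe
  -- all residuals are best residuals
  have hall : ∀ k, (f₀ - r k) ∈ Submodule.span ℝ (φ '' Set.Iio k) ∧
      ∀ h ∈ Submodule.span ℝ (φ '' Set.Iio k), ‖r k‖ ≤ ‖f₀ - h‖ := by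
    intro k
    induction k with
    | zero =>
      rw [hr0]
      refine ⟨by simp, ?_⟩
      intro h hh
      simp at hh
      rw [hh, sub_zero]
    | succ k ih =>
      by_cases hk : r k = 0
      · have hk1 := (hstep k).1 hk
        rw [hk1]
        refine ⟨?_, fun h _ => by rw [norm_zero]; exact norm_nonneg _⟩
        have h1 := ih.1
        rw [hk] at h1
        exact Submodule.span_mono (Set.image_mono (Set.Iio_subset_Iio (Nat.le_succ k))) h1
      · obtain ⟨_, G, ⟨hG, hGmin⟩, hrG⟩ := (hstep k).2 hk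
        have himg : φ '' Set.Iio (k + 1) = φ₀ '' Set.Iio (k + 1) := by
          apply Set.image_congr
          intro j hj
          have hj' : j ≤ k := Nat.lt_succ_iff.mp hj
          have : r j ≠ 0 := fun h => hk (hzero j k hj' h)
          simp only [hφ, if_neg this]
        rw [hrG, himg]
        refine ⟨by simpa using hG, hGmin⟩
  have hlift : ∀ k, ∃ w ∈ Submodule.span ℝ ((fun i => Hf q (J i)) '' Set.Iio k),
      w =ᵐ[μ1] (f₀ - r k : Lp ℝ p μ1) := fun k => lift_span' φ _ hJe k _ (hall k).1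
  choose G hGs hGe using hlift
  have hres : ∀ k, (fun x => (f₀ : ℝ → ℝ) x - G k x) =ᵐ[μ1] r k := by
    intro k
    filter_upwards [hGe k, Lp.coeFn_sub f₀ (r k)] with x h1 h2
    rw [h1, h2]; simp
  have hGm : ∀ n, ∀ h ∈ Submodule.span ℝ ((fun i => Hf q (J i)) '' Set.Iio n),
      ∫ x, |(f₀ : ℝ → ℝ) x - G n x| ^ q ∂μ1 ≤ ∫ x, |(f₀ : ℝ → ℝ) x - h x| ^ q ∂μ1 := by
    intro n h hh
    obtain ⟨v, hv, hve⟩ := lower_span' φ _ hJe n _ hh
    have h1 := (hall n).2 v hv
    have h2 : (fun x => (f₀ : ℝ → ℝ) x - h x) =ᵐ[μ1] (f₀ - v : Lp ℝ p μ1) := by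
      filter_upwards [hve, Lp.coeFn_sub f₀ v] with x h1 h2
      rw [h2, Pi.sub_apply, h1]
    rw [norm_eq hp0 hptop (r n) _ (hres n), norm_eq hp0 hptop (f₀ - v) _ h2] at h1
    exact (Real.rpow_le_rpow_iff (integral_nonneg (fun x => by positivity))
      (integral_nonneg (fun x => by positivity)) (by positivity)).mp h1
  have hsel : ∀ n, ∀ I, Valid I → t * |∫ x, |(f₀ : ℝ → ℝ) x - G n x| ^ (q - 2) *
        (f₀ x - G n x) * Hf q I x ∂μ1| ≤
      |∫ x, |(f₀ : ℝ → ℝ) x - G n x| ^ (q - 2) * (f₀ x - G n x) * Hf q (J n) x ∂μ1| := by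
    intro n I hI
    obtain ⟨j, hj, hjI⟩ := unrep (p := p) hI
    rw [← hq] at hjI
    have hrep : ∀ (j : Lp ℝ p μ1) (h : ℝ → ℝ), h =ᵐ[μ1] j → ∫ x, |(f₀ : ℝ → ℝ) x - G n x| ^ (q - 2) *
        (f₀ x - G n x) * h x ∂μ1 = ∫ x, |r n x| ^ (q - 2) * r n x * j x ∂μ1 := by
      intro j h hj
      apply integral_congr_ae
      filter_upwards [hres n, hj] with x hx hx'
      rw [hx, hx']
    rw [hrep j _ hjI, hrep (φ n) _ (hJe n)]
    by_cases hn : r n = 0
    · have hz : ∀ j : Lp ℝ p μ1, ∫ x, |r n x| ^ (q - 2) * r n x * j x ∂μ1 = 0 := by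
        intro j
        rw [← integral_zero (α := ℝ) (G := ℝ) (μ := μ1)]
        apply integral_congr_ae
        have h0 : (r n : ℝ → ℝ) =ᵐ[μ1] 0 := by
          rw [hn]; exact Lp.coeFn_zero ℝ p _
        filter_upwards [h0] with x hx
        rw [hx]; simp
      rw [hz, hz]; simp
    · have h1 := ((hstep n).2 hn).1.2 j hj
      have hnorm : 0 < ‖r n‖ := norm_pos_iff.mpr hn
      have hc : 0 < ‖r n‖ ^ (1 - p.toReal) := by positivity
      simp only [hφ, if_neg hn]
      simp only [normingF, pairing, abs_mul, abs_of_pos hc] at h1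
      have h2 : ‖r n‖ ^ (1 - p.toReal) * (t * |∫ x, |r n x| ^ (p.toReal - 2) * r n x * j x ∂μ1|) ≤
          ‖r n‖ ^ (1 - p.toReal) * |∫ x, |r n x| ^ (p.toReal - 2) * r n x * φ₀ n x ∂μ1| := by
        linarith
      exact le_of_mul_le_mul_left h2 hc
  -- conclusion
  have hbound : ∀ (g : Fin m → Lp ℝ p μ1) (c : Fin m → ℝ), (∀ i, g i ∈ D) →
      ‖r ⌈(2 * AA q t + 1) * m⌉₊‖ ≤ (4 ^ (1 + 1 / q) * 2) * ‖f₀ - ∑ i, c i • g i‖ := by
    intro g c hg
    choose I hIv hIe using fun i => rep (hg i)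
    rw [← hq] at hIe
    set N := ⌈(2 * AA q t + 1) * m⌉₊ with hN
    set Λ : Finset Ix := Finset.univ.image I with hΛ
    set c' : Ix → ℝ := fun A => ∑ i ∈ Finset.univ.filter (fun i => I i = A), c i with hc'
    set σ := ‖f₀ - ∑ i, c i • g i‖ with hσ
    have h2 : (fun x => (f₀ : ℝ → ℝ) x - ∑ A ∈ Λ, c' A * Hf q A x) =ᵐ[μ1]
        (f₀ - ∑ i, c i • g i : Lp ℝ p μ1) := by
      have h3 := coeFn_sum Finset.univ g c
      have h3' : ∀ᵐ x ∂μ1, ∀ i, Hf q (I i) x = g i x := by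
        rw [ae_all_iff]; exact hIe
      filter_upwards [h3, Lp.coeFn_sub f₀ (∑ i, c i • g i), h3'] with x h4 h5 h6
      rw [h5, Pi.sub_apply, h4]
      congr 1
      have h7 : ∀ A ∈ Λ, c' A * Hf q A x =
          ∑ i ∈ Finset.univ.filter (fun i => I i = A), c i * Hf q (I i) x := by
        intro A _
        simp only [hc']
        rw [Finset.sum_mul]
        apply Finset.sum_congr rfl
        intro i hi
        rw [(Finset.mem_filter.mp hi).2]
      rw [Finset.sum_congr rfl h7]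
      rw [Finset.sum_fiberwise_of_maps_to (g := I) (fun i _ => Finset.mem_image_of_mem I (Finset.mem_univ i))]
      apply Finset.sum_congr rfl
      intro i _
      rw [h6 i]
    have hσ' : ∫ x, |(f₀ : ℝ → ℝ) x - ∑ A ∈ Λ, c' A * Hf q A x| ^ q ∂μ1 ≤ σ ^ q := by
      rw [hσ, norm_eq hp0 hptop _ _ h2, ← hq,
        ← Real.rpow_mul (integral_nonneg (fun x => by positivity)), one_div,
        inv_mul_cancel₀ hq0.ne', Real.rpow_one]
    by_contra hcon
    push Not at hcon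
    have hcore := core hq2 ht ht1 f₀ (hmem f₀) J hJv G hGs hGm hsel Λ
      (by
        intro A hA
        obtain ⟨i, _, rfl⟩ := Finset.mem_image.mp hA
        exact hIv i) c' σ (norm_nonneg _) hσ' N
      (by
        rw [norm_eq hp0 hptop (r N) _ (hres N)] at hcon
        exact hcon)
    have hcard : (Λ.card : ℝ) ≤ m := by
      have : Λ.card ≤ m := by
        refine Finset.card_image_le.trans ?_
        simp
      exact_mod_cast this
    have h3 := mul_le_mul_of_nonneg_left hcard (by linarith : 0 ≤ 2 * AA q t)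
    have h4 : (2 * AA q t + 1) * m ≤ N := Nat.le_ceil _
    have h5 : (1:ℝ) ≤ m := by exact_mod_cast hm
    linarith
  unfold sigma
  rw [← div_le_iff₀' (by positivity)]
  apply le_csInf
  · exact ⟨_, fun _ => g₀, 0, fun _ => hg₀, rfl⟩
  · rintro e ⟨g, c, hg, rfl⟩
    rw [div_le_iff₀' (by positivity)]
    exact hbound g c hg

end main

lemma leb_eq : leb = μ1 := by
  unfold leb μ1
  exact (Measure.restrict_congr_set Ico_ae_eq_Icc).symm

/-- The univariate Haar basis is almost greedy with respect to the WCGA in `L_p`, `2 < p < ∞`. -/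
theorem haar_almost_greedy (p : ℝ≥0∞) [Fact (1 ≤ p)] (hp2 : 2 < p) (hptop : p ≠ ⊤) :
    AlmostGreedyBasis normingF (Haar p) := by
  have key : ∀ μ : Measure ℝ, μ = μ1 →
      AlmostGreedyBasis normingF (classes μ p (haarSystem p.toReal)) := by
    rintro μ rfl
    exact ag_haar hp2 hptop
  exact key leb leb_eq

end Pool.Agent.Helper415.HA
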