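import Mathlib
import Pool.Agent.Helper415.HA1
import Pool.Agent.Helper415.HA2

/-! Dyadic digits, flips. -/

set_option autoImplicit false

open MeasureTheory

namespace Pool.Agent.Helper415.HB

open Pool.Agent.Helper415 Pool.Agent.Helper415.HA

/-- The number of the dyadic cell of level `n` containing `x`. -/
noncomputable def cz (n : ℕ) (x : ℝ) : ℤ := ⌊(2:ℝ) ^ n * x⌋

/-- The sign of the digit `n + 1`. -/
noncomputable def sg (n : ℕ) (x : ℝ) : ℝ := if cz (n + 1) x % 2 = 0 then 1 else -1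

/-- Indicator of a cell. -/
noncomputable def ic (n : ℕ) (k : ℤ) (x : ℝ) : ℝ := if cz n x = k then 1 else 0

/-- The flip of the digit `n + 1`. -/
noncomputable def fl (n : ℕ) (x : ℝ) : ℝ := x + sg n x / 2 ^ (n + 1)

lemma cz_add (n m : ℕ) (x : ℝ) : cz n x = cz (n + m) x / 2 ^ m := by
  unfold cz
  have h : (2:ℝ) ^ n * x = ((2:ℝ) ^ (n + m) * x) / ((2 ^ m : ℕ) : ℝ) := by
    push_cast; rw [pow_add]; field_simp
  rw [h, Int.floor_div_natCast]
  push_cast; rfl

lemma cz_le {n m : ℕ} (h : n ≤ m) (x : ℝ) : cz n x = cz m x / 2 ^ (m - n) := by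
  obtain ⟨e, rfl⟩ := Nat.exists_eq_add_of_le h
  rw [Nat.add_sub_cancel_left]; exact cz_add n e x

lemma sg_or (n : ℕ) (x : ℝ) : sg n x = 1 ∨ sg n x = -1 := by
  unfold sg; split_ifs
  · exact Or.inl rfl
  · exact Or.inr rfl

lemma sg_sq (n : ℕ) (x : ℝ) : sg n x * sg n x = 1 := by
  rcases sg_or n x with h | h <;> rw [h] <;> norm_num

lemma sg_abs (n : ℕ) (x : ℝ) : |sg n x| = 1 := by
  rcases sg_or n x with h | h <;> rw [h] <;> simp

lemma ic_or (n : ℕ) (k : ℤ) (x : ℝ) : ic n k x = 0 ∨ ic n k x = 1 := by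
  unfold ic; split_ifs
  · exact Or.inr rfl
  · exact Or.inl rfl

lemma ic_nonneg (n : ℕ) (k : ℤ) (x : ℝ) : 0 ≤ ic n k x := by
  rcases ic_or n k x with h | h <;> rw [h]; norm_num

lemma ic_le (n : ℕ) (k : ℤ) (x : ℝ) : ic n k x ≤ 1 := by
  rcases ic_or n k x with h | h <;> rw [h]; norm_num

lemma meas_cz (n : ℕ) : Measurable (cz n) := by
  unfold cz
  exact Int.measurable_floor.comp (measurable_const.mul measurable_id)

lemma meas_sg (n : ℕ) : Measurable (sg n) := by
  unfold sg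
  exact Measurable.ite ((meas_cz (n + 1)) (MeasurableSet.of_discrete (s := {c | c % 2 = 0})))
    measurable_const measurable_const

lemma meas_ic (n : ℕ) (k : ℤ) : Measurable (ic n k) := by
  unfold ic
  exact Measurable.ite ((meas_cz n) (measurableSet_singleton k)) measurable_const measurable_const

lemma meas_fl (n : ℕ) : Measurable (fl n) := by
  unfold fl
  exact measurable_id.add ((meas_sg n).div_const _)

/-- Value of a fine cell number after a flip. -/
lemma cz_fl_ge (n m : ℕ) (x : ℝ) :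
    cz (n + 1 + m) (fl n x) = cz (n + 1 + m) x + (if cz (n + 1) x % 2 = 0 then 1 else -1) * 2 ^ m := by
  unfold fl
  have h : (2:ℝ) ^ (n + 1 + m) * (x + sg n x / 2 ^ (n + 1)) = (2:ℝ) ^ (n + 1 + m) * x +
      (((if cz (n + 1) x % 2 = 0 then 1 else -1) * 2 ^ m : ℤ) : ℝ) := by
    unfold sg
    rw [pow_add]
    split_ifs <;> (push_cast; field_simp)
  show ⌊(2:ℝ) ^ (n + 1 + m) * (x + sg n x / 2 ^ (n + 1))⌋ = _
  rw [h, Int.floor_add_intCast]
  rfl

lemma cz_fl_le {n m : ℕ} (h : m ≤ n) (x : ℝ) : cz m (fl n x) = cz m x := by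
  have h1 := cz_fl_ge n 0 x
  rw [add_zero, pow_zero, mul_one] at h1
  have h2 : cz n (fl n x) = cz n x := by
    rw [cz_add n 1, cz_add n 1 x, h1, pow_one]
    split_ifs with h3
    · omega
    · omega
  rw [cz_le h, cz_le h x, h2]

lemma sg_fl_self (n : ℕ) (x : ℝ) : sg n (fl n x) = - sg n x := by
  have h1 := cz_fl_ge n 0 x
  rw [add_zero, pow_zero, mul_one] at h1
  unfold sg
  rw [h1]
  by_cases h : cz (n + 1) x % 2 = 0
  · rw [if_pos h, if_pos h, if_neg (by omega)]
  · rw [if_neg h, if_neg h, if_pos (by omega)]; norm_num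

lemma sg_fl_ne {n m : ℕ} (h : m ≠ n) (x : ℝ) : sg m (fl n x) = sg m x := by
  rcases Nat.lt_or_gt_of_ne h with h | h
  · unfold sg
    rw [cz_fl_le (by omega : m + 1 ≤ n)]
  · obtain ⟨e, rfl⟩ := Nat.exists_eq_add_of_lt h
    have h1 := cz_fl_ge n (e + 1) x
    unfold sg
    rw [show n + e + 1 + 1 = n + 1 + (e + 1) by ring, h1]
    have h2 : (2:ℤ) ^ (e + 1) = 2 * 2 ^ e := by rw [pow_succ]; ring
    rw [h2]
    congr 1
    split_ifs <;> (apply propext; omega)

lemma fl_fl (n : ℕ) (x : ℝ) : fl n (fl n x) = x := by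
  show fl n x + sg n (fl n x) / 2 ^ (n + 1) = x
  rw [sg_fl_self]
  unfold fl
  ring

/-- The flip as a measurable equivalence. -/
noncomputable def flE (n : ℕ) : ℝ ≃ᵐ ℝ where
  toFun := fl n
  invFun := fl n
  left_inv := fl_fl n
  right_inv := fl_fl n
  measurable_toFun := meas_fl n
  measurable_invFun := meas_fl n

lemma fl_mp_volume (n : ℕ) : MeasurePreserving (fl n) (volume : Measure ℝ) volume := by
  refine ⟨meas_fl n, ?_⟩
  ext s hs
  rw [Measure.map_apply (meas_fl n) hs]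
  set E : Set ℝ := {x | cz (n + 1) x % 2 = 0} with hE
  have hEm : MeasurableSet E := (meas_cz (n + 1)) (MeasurableSet.of_discrete (s := {c | c % 2 = 0}))
  rw [← measure_inter_add_sdiff (fl n ⁻¹' s) hEm, ← measure_inter_add_sdiff s hEm]
  have hshift : ∀ (x : ℝ) (c : ℤ), cz (n + 1) (x + c / 2 ^ (n + 1)) = cz (n + 1) x + c := by
    intro x c
    unfold cz
    rw [← Int.floor_add_intCast]
    congr 1
    field_simp
  have h1 : fl n ⁻¹' s ∩ E = (fun x => x + 1 / 2 ^ (n + 1)) ⁻¹' (s \ E) := by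
    ext x
    simp only [Set.mem_inter_iff, Set.mem_preimage, Set.mem_sdiff, hE, Set.mem_ofPred_eq]
    have h2 := hshift x 1
    push_cast at h2
    rw [h2]
    constructor
    · rintro ⟨h3, h4⟩
      have : fl n x = x + 1 / 2 ^ (n + 1) := by unfold fl sg; rw [if_pos h4]
      rw [this] at h3
      exact ⟨h3, by omega⟩
    · rintro ⟨h3, h4⟩
      have h5 : cz (n + 1) x % 2 = 0 := by omega
      have : fl n x = x + 1 / 2 ^ (n + 1) := by unfold fl sg; rw [if_pos h5]
      rw [this]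
      exact ⟨h3, h5⟩
  have h2 : fl n ⁻¹' s \ E = (fun x => x + (-1) / 2 ^ (n + 1)) ⁻¹' (s ∩ E) := by
    ext x
    simp only [Set.mem_inter_iff, Set.mem_preimage, Set.mem_sdiff, hE, Set.mem_ofPred_eq]
    have h2 := hshift x (-1)
    push_cast at h2
    rw [h2]
    constructor
    · rintro ⟨h3, h4⟩
      have : fl n x = x + (-1) / 2 ^ (n + 1) := by unfold fl sg; rw [if_neg h4]
      rw [this] at h3
      exact ⟨h3, by omega⟩
    · rintro ⟨h3, h4⟩
      have h5 : ¬ cz (n + 1) x % 2 = 0 := by omega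
      have : fl n x = x + (-1) / 2 ^ (n + 1) := by unfold fl sg; rw [if_neg h5]
      rw [this]
      exact ⟨h3, h5⟩
  rw [h1, h2, measure_preimage_add_right, measure_preimage_add_right, add_comm]

lemma mem_Ico_iff (x : ℝ) : x ∈ Set.Ico (0:ℝ) 1 ↔ cz 0 x = 0 := by
  unfold cz
  rw [pow_zero, one_mul, Int.floor_eq_zero_iff]

lemma fl_mp (n : ℕ) : MeasurePreserving (fl n) μ1 μ1 := by
  have h := (fl_mp_volume n).restrict_preimage (s := Set.Ico (0:ℝ) 1) measurableSet_Ico
  have h2 : fl n ⁻¹' (Set.Ico (0:ℝ) 1) = Set.Ico 0 1 := by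
    ext x
    rw [Set.mem_preimage, mem_Ico_iff, mem_Ico_iff, cz_fl_le (Nat.zero_le n)]
  rw [h2] at h
  exact h

/-! ### Several variables -/

variable {d : ℕ}

/-- The product measure. -/
noncomputable def μd (d : ℕ) : Measure (Fin d → ℝ) := Measure.pi (fun _ => μ1)

instance : IsProbabilityMeasure μ1 := ⟨by
  unfold μ1; rw [Measure.restrict_apply_univ, Real.volume_Ico]; simp⟩

instance : IsProbabilityMeasure (μd d) := by unfold μd; infer_instance

/-- Flip of the digit `n + 1` of the coordinate `i`. -/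
noncomputable def E (i : Fin d) (n : ℕ) : (Fin d → ℝ) ≃ᵐ (Fin d → ℝ) :=
  MeasurableEquiv.piCongrRight (fun j => if j = i then flE n else MeasurableEquiv.refl ℝ)

lemma E_self (i : Fin d) (n : ℕ) (x : Fin d → ℝ) : E i n x i = fl n (x i) := by
  unfold E
  simp [MeasurableEquiv.piCongrRight]
  rfl

lemma E_ne {i j : Fin d} (h : j ≠ i) (n : ℕ) (x : Fin d → ℝ) : E i n x j = x j := by
  unfold E
  simp [MeasurableEquiv.piCongrRight, h]

lemma E_mp (i : Fin d) (n : ℕ) : MeasurePreserving (E i n) (μd d) (μd d) := by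
  have h := measurePreserving_pi (fun _ : Fin d => μ1) (fun _ => μ1)
    (f := fun j => if j = i then fl n else id) (fun j => by
      by_cases h : j = i
      · simp only [h, if_true]; exact fl_mp n
      · simp only [h, if_false]; exact MeasurePreserving.id _)
  have h2 : (fun (a : Fin d → ℝ) j => (if j = i then fl n else id) (a j)) = E i n := by
    funext a j
    by_cases hj : j = i
    · subst hj; rw [E_self]; simp
    · rw [E_ne hj]; simp [hj]
  rw [h2] at h
  exact h

lemma int_E (i : Fin d) (n : ℕ) (G : (Fin d → ℝ) → ℝ) : ∫ x, G (E i n x) ∂(μd d) = ∫ x, G x ∂(μd d) :=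
  (E_mp i n).integral_comp' G

lemma zero_of_flip (i : Fin d) (n : ℕ) {G : (Fin d → ℝ) → ℝ} (h : ∀ x, G (E i n x) = - G x) :
    ∫ x, G x ∂(μd d) = 0 := by
  have h1 := int_E i n G
  simp_rw [h] at h1
  rw [integral_neg] at h1
  linarith

lemma zero_of_flip2 (i j : Fin d) (n m : ℕ) {G : (Fin d → ℝ) → ℝ}
    (h : ∀ x, G (E i n (E j m x)) = - G x) : ∫ x, G x ∂(μd d) = 0 := by
  have h1 := int_E i n G
  have h2 := int_E j m (fun x => G (E i n x))
  simp_rw [h] at h2
  rw [integral_neg, h1] at h2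
  linarith

end Pool.Agent.Helper415.HB
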