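import Mathlib
import Pool.Agent.Helper415.HB1
import Pool.Agent.Helper415.TG4

/-! Discrete averages. -/

set_option autoImplicit false

open MeasureTheory Finset

namespace Pool.Agent.Helper415.HB

open Pool.Agent.Helper415 Pool.Agent.Helper415.HA

/-- Expectation of `h (ε₁ + ... + ε_n)` for independent signs. -/
noncomputable def EE : ℕ → (ℝ → ℝ) → ℝ
  | 0, h => h 0
  | n + 1, h => (EE n (fun s => h (s + 1)) + EE n (fun s => h (s - 1))) / 2

lemma EE_add (n : ℕ) : ∀ g h : ℝ → ℝ, EE n (fun s => g s + h s) = EE n g + EE n h := by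
  induction n with
  | zero => intro g h; rfl
  | succ n ih =>
    intro g h
    simp only [EE]
    rw [ih (fun s => g (s + 1)) (fun s => h (s + 1)), ih (fun s => g (s - 1)) (fun s => h (s - 1))]
    ring

lemma EE_smul (n : ℕ) (c : ℝ) : ∀ h : ℝ → ℝ, EE n (fun s => c * h s) = c * EE n h := by
  induction n with
  | zero => intro h; rfl
  | succ n ih =>
    intro h
    simp only [EE]
    rw [ih (fun s => h (s + 1)), ih (fun s => h (s - 1))]
    ring

lemma EE_const (n : ℕ) (c : ℝ) : EE n (fun _ => c) = c := by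
  induction n with
  | zero => rfl
  | succ n ih => simp only [EE]; rw [ih]; ring

lemma EE_mono (n : ℕ) : ∀ g h : ℝ → ℝ, (∀ s, g s ≤ h s) → EE n g ≤ EE n h := by
  induction n with
  | zero => intro g h hgh; exact hgh 0
  | succ n ih =>
    intro g h hgh
    simp only [EE]
    have h1 := ih (fun s => g (s + 1)) (fun s => h (s + 1)) (fun s => hgh _)
    have h2 := ih (fun s => g (s - 1)) (fun s => h (s - 1)) (fun s => hgh _)
    linarith

/-- Integration by parts. -/
lemma EE_ibp (n : ℕ) : ∀ h : ℝ → ℝ, EE (n + 1) (fun s => s * h s) =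
    ((n : ℝ) + 1) * EE n (fun s => (h (s + 1) - h (s - 1)) / 2) := by
  induction n with
  | zero => intro h; simp only [EE]; norm_num; ring
  | succ n ih =>
    intro h
    have h1 := ih (fun s => (h (s + 1) + h (s - 1)) / 2)
    have h2 : EE (n + 1 + 1) (fun s => s * h s) =
        EE (n + 1) (fun s => s * ((h (s + 1) + h (s - 1)) / 2)) +
          EE (n + 1) (fun s => (h (s + 1) - h (s - 1)) / 2) := by
      have e1 : EE (n + 1 + 1) (fun s => s * h s) =
          (EE (n + 1) (fun s => (s + 1) * h (s + 1)) + EE (n + 1) (fun s => (s - 1) * h (s - 1))) / 2 := rfl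
      rw [e1, ← EE_add, ← EE_add]
      have e2 : (fun s => s * ((h (s + 1) + h (s - 1)) / 2) + (h (s + 1) - h (s - 1)) / 2) =
          fun s => (1 / 2 : ℝ) * ((s + 1) * h (s + 1) + (s - 1) * h (s - 1)) := by
        funext s; ring
      rw [e2, EE_smul]
      ring
    rw [h2, h1]
    have h3 : EE n (fun s => ((h (s + 1 + 1) + h (s + 1 - 1)) / 2 - (h (s - 1 + 1) + h (s - 1 - 1)) / 2) / 2) =
        EE (n + 1) (fun s => (h (s + 1) - h (s - 1)) / 2) := by
      have e1 : EE (n + 1) (fun s => (h (s + 1) - h (s - 1)) / 2) =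
          (EE n (fun s => (h (s + 1 + 1) - h (s + 1 - 1)) / 2) +
            EE n (fun s => (h (s - 1 + 1) - h (s - 1 - 1)) / 2)) / 2 := rfl
      rw [e1, ← EE_add]
      have e2 : (fun s => ((h (s + 1 + 1) + h (s + 1 - 1)) / 2 - (h (s - 1 + 1) + h (s - 1 - 1)) / 2) / 2) =
          fun s => (1 / 2 : ℝ) * ((h (s + 1 + 1) - h (s + 1 - 1)) / 2 +
            (h (s - 1 + 1) - h (s - 1 - 1)) / 2) := by
        funext s
        have e3 : s + 1 - 1 = s := by ring
        have e4 : s - 1 + 1 = s := by ring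
        rw [e3, e4]; ring
      rw [e2, EE_smul]; ring
    rw [h3]
    push_cast
    ring

lemma EE_sq (n : ℕ) : EE n (fun s => s ^ 2) = n := by
  cases n with
  | zero => simp [EE]
  | succ n =>
    have h := EE_ibp n (fun s => s)
    have e1 : (fun s : ℝ => s ^ 2) = fun s => s * s := by funext s; ring
    have e2 : (fun s : ℝ => (s + 1 - (s - 1)) / 2) = fun _ => 1 := by funext s; ring
    rw [e1, h, e2, EE_const]; push_cast; ring

lemma EE_four (n : ℕ) : EE n (fun s => s ^ 4) ≤ 3 * (n : ℝ) ^ 2 := by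
  cases n with
  | zero => simp [EE]
  | succ n =>
    have h := EE_ibp n (fun s => s ^ 3)
    have e1 : (fun s : ℝ => s ^ 4) = fun s => s * s ^ 3 := by funext s; ring
    have e2 : (fun s : ℝ => ((s + 1) ^ 3 - (s - 1) ^ 3) / 2) = fun s => 3 * s ^ 2 + 1 := by
      funext s; ring
    rw [e1, h, e2, EE_add, EE_smul, EE_sq, EE_const]
    push_cast
    nlinarith

/-- The average of the first difference of the duality function. -/
noncomputable def DD (p : ℝ) (n : ℕ) : ℝ := EE n (fun s => (Phi p (s + 1) - Phi p (s - 1)) / 2)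

lemma Phi_mul {p : ℝ} (hp : 1 < p) (s : ℝ) : s * Phi p s = |s| ^ p := by
  unfold Phi
  rcases eq_or_ne s 0 with h | h
  · rw [h]; simp [Real.zero_rpow (by linarith : p ≠ 0)]
  · have h1 : 0 < |s| := abs_pos.mpr h
    have h2 : |s| ^ p = |s| ^ (p - 2) * (s * s) := by
      rw [← abs_mul_abs_self, ← sq, ← Real.rpow_two, ← Real.rpow_add h1]; ring_nf
    rw [h2]; ring

lemma DD_eq {p : ℝ} (hp : 1 < p) (n : ℕ) :
    ((n : ℝ) + 1) * DD p n = EE (n + 1) (fun s => |s| ^ p) := by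
  unfold DD
  rw [← EE_ibp n (Phi p)]
  congr 1
  funext s
  exact Phi_mul hp s

lemma jensen_ge {p : ℝ} (hp : 2 ≤ p) (n : ℕ) : ((n : ℝ)) ^ (p / 2) ≤ EE n (fun s => |s| ^ p) := by
  rcases Nat.eq_zero_or_pos n with h | h
  · subst h
    simp only [EE, Nat.cast_zero, abs_zero]
    rw [Real.zero_rpow (by linarith), Real.zero_rpow (by linarith)]
  have hn : (0:ℝ) < n := by exact_mod_cast h
  have key : ∀ s : ℝ, (n : ℝ) ^ (p / 2) - (p / 2) * (n : ℝ) ^ (p / 2 - 1) * n +
      ((p / 2) * (n : ℝ) ^ (p / 2 - 1)) * s ^ 2 ≤ |s| ^ p := by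
    intro s
    have h1 := TG.pow_convex (by linarith : 1 ≤ p / 2) (n : ℝ) (s ^ 2 - n)
    rw [show (n : ℝ) + (s ^ 2 - n) = s ^ 2 by ring, abs_of_pos hn, abs_of_nonneg (sq_nonneg s)] at h1
    have h2 : (s ^ 2) ^ (p / 2) = |s| ^ p := by
      rw [← sq_abs, ← Real.rpow_two, ← Real.rpow_mul (abs_nonneg _)]; ring_nf
    have h3 : (n : ℝ) ^ (p / 2 - 2) * n = (n : ℝ) ^ (p / 2 - 1) := by
      rw [← Real.rpow_add_one hn.ne']; ring_nf
    rw [h2] at h1
    refine le_trans (le_of_eq ?_) h1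
    rw [h3]; ring
  have h1 := EE_mono n _ _ key
  rw [EE_add, EE_const, EE_smul, EE_sq] at h1
  linarith

lemma jensen_le {p : ℝ} (hp : 0 < p) (hp2 : p ≤ 2) (n : ℕ) :
    EE n (fun s => |s| ^ p) ≤ ((n : ℝ)) ^ (p / 2) := by
  rcases Nat.eq_zero_or_pos n with h | h
  · subst h
    simp only [EE, Nat.cast_zero, abs_zero]
    rw [Real.zero_rpow (by linarith), Real.zero_rpow (by linarith)]
  have hn : (0:ℝ) < n := by exact_mod_cast h
  have key : ∀ s : ℝ, |s| ^ p ≤ (n : ℝ) ^ (p / 2) * (1 - p / 2) +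
      ((p / 2) * (n : ℝ) ^ (p / 2) / n) * s ^ 2 := by
    intro s
    have h2 : (s ^ 2) ^ (p / 2) = |s| ^ p := by
      rw [← sq_abs, ← Real.rpow_two, ← Real.rpow_mul (abs_nonneg _)]; ring_nf
    have h3 : (s ^ 2 / n) ^ (p / 2) ≤ 1 + (p / 2) * (s ^ 2 / n - 1) := by
      have h4 := rpow_one_add_le_one_add_mul_self (s := s ^ 2 / n - 1)
        (by have : 0 ≤ s ^ 2 / n := by positivity
            linarith) (p := p / 2) (by positivity) (by linarith)
      rwa [show 1 + (s ^ 2 / n - 1) = s ^ 2 / n by ring] at h4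
    rw [Real.div_rpow (sq_nonneg s) hn.le, h2, div_le_iff₀ (by positivity)] at h3
    refine h3.trans (le_of_eq ?_)
    field_simp
    ring
  have h1 := EE_mono n _ _ key
  rw [EE_add, EE_const, EE_smul, EE_sq] at h1
  refine h1.trans (le_of_eq ?_)
  field_simp
  ring

/-- Lower constant for `p < 2`. -/
noncomputable def clow (p : ℝ) : ℝ := 1 / 2 / 6 ^ (1 - p / 2)

lemma clow_pos (p : ℝ) : 0 < clow p := by unfold clow; positivity

lemma EE_low {p : ℝ} (_hp : 0 < p) (hp2 : p ≤ 2) (n : ℕ) (hn : 0 < n) :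
    clow p * (n : ℝ) ^ (p / 2) ≤ EE n (fun s => |s| ^ p) := by
  have hn' : (0:ℝ) < n := by exact_mod_cast hn
  set τ : ℝ := 6 * n with hτ
  have hτ0 : 0 < τ := by positivity
  have key : ∀ s : ℝ, s ^ 2 ≤ τ ^ (1 - p / 2) * |s| ^ p + (1 / τ) * s ^ 4 := by
    intro s
    rcases eq_or_ne s 0 with h0 | h0
    · rw [h0]
      have : 0 ≤ τ ^ (1 - p / 2) * |(0:ℝ)| ^ p := by positivity
      norm_num; positivity
    have hs : 0 < s ^ 2 := by positivity
    have h2 : (s ^ 2) ^ (p / 2) = |s| ^ p := by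
      rw [← sq_abs, ← Real.rpow_two, ← Real.rpow_mul (abs_nonneg _)]; ring_nf
    rcases le_or_gt (s ^ 2) τ with h | h
    · have h3 : s ^ 2 = (s ^ 2) ^ (1 - p / 2) * (s ^ 2) ^ (p / 2) := by
        rw [← Real.rpow_add hs]; ring_nf; simp
      have h4 : (s ^ 2) ^ (1 - p / 2) ≤ τ ^ (1 - p / 2) := Real.rpow_le_rpow hs.le h (by linarith)
      have h5 : 0 ≤ (1 / τ) * s ^ 4 := by positivity
      rw [h2] at h3
      have h6 := mul_le_mul_of_nonneg_right h4 (by positivity : 0 ≤ |s| ^ p)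
      linarith
    · have h3 : 0 ≤ τ ^ (1 - p / 2) * |s| ^ p := by positivity
      have h4 : s ^ 2 ≤ (1 / τ) * s ^ 4 := by
        rw [one_div, inv_mul_eq_div, le_div_iff₀ hτ0]
        nlinarith
      linarith
  have h1 := EE_mono n _ _ key
  rw [EE_add, EE_smul, EE_smul, EE_sq] at h1
  have h2 := EE_four n
  have h3 : (1 / τ) * EE n (fun s => s ^ 4) ≤ n / 2 := by
    rw [one_div, inv_mul_eq_div, div_le_iff₀ hτ0, hτ]
    nlinarith
  have h4 : (n : ℝ) / 2 ≤ τ ^ (1 - p / 2) * EE n (fun s => |s| ^ p) := by linarith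
  have h5 : τ ^ (1 - p / 2) = 6 ^ (1 - p / 2) * (n : ℝ) ^ (1 - p / 2) := by
    rw [hτ, Real.mul_rpow (by norm_num) hn'.le]
  have h6 : (n : ℝ) = (n : ℝ) ^ (p / 2) * (n : ℝ) ^ (1 - p / 2) := by
    rw [← Real.rpow_add hn']; ring_nf; simp
  rw [h5] at h4
  have h7 : 0 < (n : ℝ) ^ (1 - p / 2) := by positivity
  have h8 : (0:ℝ) < 6 ^ (1 - p / 2) := by positivity
  unfold clow
  rw [div_mul_eq_mul_div, div_le_iff₀ h8]
  have h9 : (1 / 2 * (n : ℝ) ^ (p / 2)) * (n : ℝ) ^ (1 - p / 2) ≤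
      (EE n (fun s => |s| ^ p) * 6 ^ (1 - p / 2)) * (n : ℝ) ^ (1 - p / 2) := by
    calc (1 / 2 * (n : ℝ) ^ (p / 2)) * (n : ℝ) ^ (1 - p / 2) =
        (1 / 2) * ((n : ℝ) ^ (p / 2) * (n : ℝ) ^ (1 - p / 2)) := by ring
      _ = (n : ℝ) / 2 := by rw [← h6]; ring
      _ ≤ _ := by linarith
  exact le_of_mul_le_mul_right h9 h7

lemma EE_exp (n : ℕ) (lam : ℝ) : EE n (fun s => Real.exp (lam * s)) = Real.cosh lam ^ n := by
  induction n with
  | zero => simp [EE]
  | succ n ih =>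
    simp only [EE]
    have e1 : (fun s => Real.exp (lam * (s + 1))) = fun s => Real.exp lam * Real.exp (lam * s) := by
      funext s; rw [← Real.exp_add]; ring_nf
    have e2 : (fun s => Real.exp (lam * (s - 1))) = fun s => Real.exp (-lam) * Real.exp (lam * s) := by
      funext s; rw [← Real.exp_add]; ring_nf
    rw [e1, e2, EE_smul, EE_smul, ih, pow_succ, Real.cosh_eq]
    ring

/-- Upper constant. -/
noncomputable def cup (q : ℝ) : ℝ := (⌈q⌉₊.factorial : ℝ) * Real.exp 2 * (2 * Real.exp (1 / 2))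

lemma cup_pos (q : ℝ) : 0 < cup q := by unfold cup; positivity

lemma EE_up {q : ℝ} (hq : 0 ≤ q) (n N : ℕ) (hnN : n ≤ N) (hN : 0 < N) :
    EE n (fun s => (2 + |s|) ^ q) ≤ cup q * (N : ℝ) ^ (q / 2) := by
  have hN' : (0:ℝ) < N := by exact_mod_cast hN
  have hN1 : (1:ℝ) ≤ N := by exact_mod_cast hN
  set R := Real.sqrt N with hR
  have hR0 : 0 < R := Real.sqrt_pos.mpr hN'
  have hR1 : 1 ≤ R := by rw [hR]; exact Real.one_le_sqrt.mpr hN1
  have hRq : R ^ q = (N : ℝ) ^ (q / 2) := by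
    rw [hR, Real.sqrt_eq_rpow, ← Real.rpow_mul hN'.le]; ring_nf
  have hRR : R ^ 2 = N := Real.sq_sqrt hN'.le
  set K := ⌈q⌉₊ with hK
  have key : ∀ s : ℝ, (2 + |s|) ^ q ≤ (R ^ q * (K.factorial : ℝ) * Real.exp 2) *
      (Real.exp ((1 / R) * s) + Real.exp ((-(1 / R)) * s)) := by
    intro s
    have h1 : 2 + |s| ≤ R * (2 + |s| / R) := by
      rw [mul_add, mul_div_cancel₀ _ hR0.ne']; linarith
    have h2 : (2 + |s|) ^ q ≤ R ^ q * (2 + |s| / R) ^ q := by
      rw [← Real.mul_rpow hR0.le (by positivity)]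
      exact Real.rpow_le_rpow (by positivity) h1 hq
    have h3 : (2 + |s| / R) ^ q ≤ (2 + |s| / R) ^ K := by
      rw [← Real.rpow_natCast]
      apply Real.rpow_le_rpow_of_exponent_le
      · have : 0 ≤ |s| / R := by positivity
        linarith
      · exact Nat.le_ceil q
    have h4 : (2 + |s| / R) ^ K ≤ (K.factorial : ℝ) * Real.exp (2 + |s| / R) := by
      have := Real.pow_div_factorial_le_exp (2 + |s| / R) (by positivity) K
      rw [div_le_iff₀ (by positivity)] at this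
      linarith
    have h5 : Real.exp (|s| / R) ≤ Real.exp ((1 / R) * s) + Real.exp ((-(1 / R)) * s) := by
      rcases le_total 0 s with h | h
      · rw [abs_of_nonneg h]
        have e1 : s / R = (1 / R) * s := by ring
        rw [e1]
        have := Real.exp_pos ((-(1 / R)) * s)
        linarith
      · rw [abs_of_nonpos h]
        have e1 : -s / R = (-(1 / R)) * s := by ring
        rw [e1]
        have := Real.exp_pos ((1 / R) * s)
        linarith
    calc (2 + |s|) ^ q ≤ R ^ q * (2 + |s| / R) ^ q := h2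
      _ ≤ R ^ q * ((K.factorial : ℝ) * Real.exp (2 + |s| / R)) :=
        mul_le_mul_of_nonneg_left (h3.trans h4) (by positivity)
      _ = (R ^ q * (K.factorial : ℝ) * Real.exp 2) * Real.exp (|s| / R) := by
        rw [Real.exp_add]; ring
      _ ≤ _ := mul_le_mul_of_nonneg_left h5 (by positivity)
  have h1 := EE_mono n _ _ key
  rw [EE_smul, EE_add, EE_exp, EE_exp, Real.cosh_neg] at h1
  have h2 : Real.cosh (1 / R) ^ n ≤ Real.exp (1 / 2) := by
    have h3 : Real.cosh (1 / R) ≤ Real.exp ((1 / R) ^ 2 / 2) := Real.cosh_le_exp_half_sq _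
    have h4 : Real.cosh (1 / R) ^ n ≤ Real.exp ((1 / R) ^ 2 / 2) ^ n :=
      pow_le_pow_left₀ (Real.cosh_pos _).le h3 n
    refine h4.trans ?_
    rw [← Real.exp_nat_mul]
    apply Real.exp_le_exp.mpr
    rw [div_pow, hRR, one_pow]
    have : (n : ℝ) ≤ N := by exact_mod_cast hnN
    rw [show (n : ℝ) * (1 / (N : ℝ) / 2) = (n / N) / 2 by ring]
    have : (n : ℝ) / N ≤ 1 := by rw [div_le_one hN']; exact this
    linarith
  refine h1.trans ?_
  have h3 : (R ^ q * (K.factorial : ℝ) * Real.exp 2) * (Real.cosh (1 / R) ^ n + Real.cosh (1 / R) ^ n) ≤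
      (R ^ q * (K.factorial : ℝ) * Real.exp 2) * (2 * Real.exp (1 / 2)) :=
    mul_le_mul_of_nonneg_left (by linarith) (by positivity)
  refine h3.trans (le_of_eq ?_)
  unfold cup
  rw [hRq]; ring

end Pool.Agent.Helper415.HB
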