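import Mathlib
import Pool.Agent.Helper415.HB2

/-! Distribution of sums of independent signs. -/

set_option autoImplicit false

open MeasureTheory Finset

namespace Pool.Agent.Helper415.HB

open Pool.Agent.Helper415 Pool.Agent.Helper415.HA

section gen

variable {Ω : Type*} [MeasurableSpace Ω] {μ : Measure Ω}

lemma sum_abs_le {ι : Type*} (A : Finset ι) (X : ι → Ω → ℝ)
    (hX1 : ∀ l ∈ A, ∀ x, X l x = 1 ∨ X l x = -1) (x : Ω) : |∑ l ∈ A, X l x| ≤ A.card := by
  refine (Finset.abs_sum_le_sum_abs _ _).trans ?_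
  have : ∀ l ∈ A, |X l x| ≤ 1 := by
    intro l hl
    rcases hX1 l hl x with h | h <;> rw [h] <;> simp
  refine (Finset.sum_le_sum this).trans ?_
  simp

lemma int_Wh {ι : Type*} (A : Finset ι) (X : ι → Ω → ℝ)
    (hX1 : ∀ l ∈ A, ∀ x, X l x = 1 ∨ X l x = -1) (hXm : ∀ l ∈ A, Measurable (X l))
    {W : Ω → ℝ} (hW : Integrable W μ) {h : ℝ → ℝ} (hh : Continuous h) :
    Integrable (fun x => W x * h (∑ l ∈ A, X l x)) μ := by
  obtain ⟨C, hC⟩ := (isCompact_Icc (a := -(A.card : ℝ)) (b := A.card)).exists_bound_of_continuousOn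
    hh.continuousOn
  apply hW.mul_bdd (c := C)
  · exact (hh.measurable.comp (Finset.measurable_sum A hXm)).aestronglyMeasurable
  · refine Filter.Eventually.of_forall (fun x => ?_)
    apply hC
    have := sum_abs_le A X hX1 x
    exact abs_le.mp this

/-- The distribution of a sum of signs. -/
theorem dist {ι : Type*} (A : Finset ι) (X : ι → Ω → ℝ) (φ : ι → Ω ≃ᵐ Ω)
    (hφ : ∀ l ∈ A, MeasurePreserving (φ l) μ μ)
    (hX1 : ∀ l ∈ A, ∀ x, X l x = 1 ∨ X l x = -1) (hXm : ∀ l ∈ A, Measurable (X l))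
    (hXf : ∀ l ∈ A, ∀ x, X l (φ l x) = - X l x)
    (hXo : ∀ l ∈ A, ∀ l' ∈ A, l' ≠ l → ∀ x, X l' (φ l x) = X l' x)
    {W : Ω → ℝ} (hW : Integrable W μ) (hWi : ∀ l ∈ A, ∀ x, W (φ l x) = W x)
    {h : ℝ → ℝ} (hh : Continuous h) :
    ∫ x, W x * h (∑ l ∈ A, X l x) ∂μ = EE A.card h * ∫ x, W x ∂μ := by
  classical
  induction A using Finset.induction_on generalizing h with
  | empty =>
    simp only [Finset.sum_empty, Finset.card_empty, EE]
    rw [← integral_const_mul]
    congr 1; funext x; ring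
  | insert a A ha ih =>
    have hA : ∀ l ∈ A, l ∈ insert a A := fun l hl => Finset.mem_insert_of_mem hl
    have haA : a ∈ insert a A := Finset.mem_insert_self a A
    have ih' := fun {h : ℝ → ℝ} (hh : Continuous h) => ih (fun l hl => hφ l (hA l hl))
      (fun l hl => hX1 l (hA l hl)) (fun l hl => hXm l (hA l hl)) (fun l hl => hXf l (hA l hl))
      (fun l hl l' hl' => hXo l (hA l hl) l' (hA l' hl')) (fun l hl => hWi l (hA l hl)) (h := h) hh
    simp_rw [Finset.sum_insert ha]
    rw [Finset.card_insert_of_notMem ha]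
    set S : Ω → ℝ := fun x => ∑ l ∈ A, X l x with hS
    have hp : Continuous (fun s => h (s + 1)) := hh.comp (continuous_id.add continuous_const)
    have hm : Continuous (fun s => h (s - 1)) := hh.comp (continuous_id.sub continuous_const)
    have i1 := int_Wh A X (fun l hl => hX1 l (hA l hl)) (fun l hl => hXm l (hA l hl)) hW hp
    have i2 := int_Wh A X (fun l hl => hX1 l (hA l hl)) (fun l hl => hXm l (hA l hl)) hW hm
    have i3 : Integrable (fun x => W x * h (X a x + S x)) μ := by
      have := int_Wh (insert a A) X hX1 hXm hW hh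
      simp_rw [Finset.sum_insert ha] at this
      exact this
    have hSf : ∀ x, S (φ a x) = S x := by
      intro x
      apply Finset.sum_congr rfl
      intro l hl
      exact hXo a haA l (hA l hl) (fun h => ha (h ▸ hl)) x
    have e1 : ∫ x, W x * h (X a x + S x) ∂μ = ∫ x, W x * h (-X a x + S x) ∂μ := by
      have := (hφ a haA).integral_comp' (fun x => W x * h (X a x + S x))
      rw [← this]
      congr 1; funext x
      rw [hWi a haA, hXf a haA, hSf]
    have i4 : Integrable (fun x => W x * h (-X a x + S x)) μ := by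
      have h1 := (hφ a haA).integrable_comp_of_integrable i3
      refine h1.congr (Filter.Eventually.of_forall (fun x => ?_))
      show W (φ a x) * h (X a (φ a x) + S (φ a x)) = _
      rw [hWi a haA, hXf a haA, hSf]
    have e2 : ∫ x, W x * h (X a x + S x) ∂μ + ∫ x, W x * h (-X a x + S x) ∂μ =
        ∫ x, W x * h (S x + 1) ∂μ + ∫ x, W x * h (S x - 1) ∂μ := by
      rw [← integral_add i3 i4, ← integral_add i1 i2]
      congr 1; funext x
      rcases hX1 a haA x with h0 | h0
      · rw [h0, add_comm 1 (S x), show -1 + S x = S x - 1 by ring]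
      · rw [h0, show -1 + S x = S x - 1 by ring, show - -1 + S x = S x + 1 by ring]; ring
    have e3 := ih' hp
    have e4 := ih' hm
    simp only [EE]
    have e5 : ∫ x, W x * h (X a x + S x) ∂μ =
        (∫ x, W x * h (S x + 1) ∂μ + ∫ x, W x * h (S x - 1) ∂μ) / 2 := by linarith
    rw [e5]
    have e6 : ∫ x, W x * h (S x + 1) ∂μ = EE A.card (fun s => h (s + 1)) * ∫ x, W x ∂μ := e3
    have e7 : ∫ x, W x * h (S x - 1) ∂μ = EE A.card (fun s => h (s - 1)) * ∫ x, W x ∂μ := e4
    rw [e6, e7]; ring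

/-- Changing the sign of all terms. -/
theorem odd_sum {ι : Type*} (A : Finset ι) (Y : ι → Ω → ℝ) (φ : ι → Ω ≃ᵐ Ω)
    (hφ : ∀ l ∈ A, MeasurePreserving (φ l) μ μ)
    (hYf : ∀ l ∈ A, ∀ x, Y l (φ l x) = - Y l x)
    (hYo : ∀ l ∈ A, ∀ l' ∈ A, l' ≠ l → ∀ x, Y l' (φ l x) = Y l' x)
    {W : Ω → ℝ} (hWi : ∀ l ∈ A, ∀ x, W (φ l x) = W x)
    {h : ℝ → ℝ} (hodd : ∀ s, h (-s) = - h s) :
    ∫ x, W x * h (∑ l ∈ A, Y l x) ∂μ = 0 := by
  classical
  have key : ∀ B : Finset ι, B ⊆ A → ∫ x, W x * h (∑ l ∈ A, Y l x) ∂μ =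
      ∫ x, W x * h (∑ l ∈ A, (if l ∈ B then -1 else 1) * Y l x) ∂μ := by
    intro B
    induction B using Finset.induction_on with
    | empty => intro _; simp
    | insert b B hb ih =>
      intro hB
      have hbA : b ∈ A := hB (Finset.mem_insert_self b B)
      rw [ih (fun l hl => hB (Finset.mem_insert_of_mem hl))]
      rw [← (hφ b hbA).integral_comp' (fun x => W x * h (∑ l ∈ A, (if l ∈ B then -1 else 1) * Y l x))]
      congr 1; funext x
      rw [hWi b hbA]
      congr 2
      apply Finset.sum_congr rfl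
      intro l hl
      by_cases hlb : l = b
      · subst hlb
        rw [hYf l hl, if_neg hb, if_pos (Finset.mem_insert_self l B)]; ring
      · rw [hYo b hbA l hl hlb]
        simp only [Finset.mem_insert, hlb, false_or]
  have h1 := key A subset_rfl
  have h2 : ∀ x, W x * h (∑ l ∈ A, (if l ∈ A then -1 else 1) * Y l x) =
      -(W x * h (∑ l ∈ A, Y l x)) := by
    intro x
    have : ∑ l ∈ A, (if l ∈ A then -1 else 1) * Y l x = -∑ l ∈ A, Y l x := by
      rw [← Finset.sum_neg_distrib]
      apply Finset.sum_congr rfl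
      intro l hl
      rw [if_pos hl]; ring
    rw [this, hodd]; ring
  simp_rw [h2] at h1
  rw [integral_neg] at h1
  linarith

end gen

end Pool.Agent.Helper415.HB
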