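import Mathlib
import Pool.Agent.Helper415.HB3
import Pool.Agent.Helper415.HA4

/-! Multivariate Haar functions and the function `S`. -/

set_option autoImplicit false

open MeasureTheory Finset

namespace Pool.Agent.Helper415.HB

open Pool.Agent.Helper415 Pool.Agent.Helper415.HA

/-! ### Invariance of cells -/

lemma ic_fl {n m : ℕ} (h : n ≤ m) (k : ℤ) (x : ℝ) : ic n k (fl m x) = ic n k x := by
  unfold ic; rw [cz_fl_le h]

/-- Haar functions, everywhere defined. -/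
noncomputable def hz (p : ℝ) : Ix → ℝ → ℝ
  | none => fun _ => 1
  | some J => fun x => hb p ^ J.1 * (ic J.1 J.2 x * sg J.1 x)

/-- Support. -/
noncomputable def icI : Ix → ℝ → ℝ
  | none => fun _ => 1
  | some J => fun x => ic J.1 J.2 x

lemma icI_nonneg (J : Ix) (x : ℝ) : 0 ≤ icI J x := by
  cases J with
  | none => exact zero_le_one
  | some J => exact ic_nonneg _ _ _

lemma icI_le (J : Ix) (x : ℝ) : icI J x ≤ 1 := by
  cases J with
  | none => exact le_rfl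
  | some J => exact ic_le _ _ _

lemma meas_icI (J : Ix) : Measurable (icI J) := by
  cases J with
  | none => exact measurable_const
  | some J => exact meas_ic _ _

lemma meas_hz (p : ℝ) (J : Ix) : Measurable (hz p J) := by
  cases J with
  | none => exact measurable_const
  | some J => exact ((meas_ic _ _).mul (meas_sg _)).const_mul _

lemma hz_abs (p : ℝ) (J : Ix) (x : ℝ) : |hz p J x| = hb p ^ lev J * icI J x := by
  cases J with
  | none => simp [hz, icI, lev]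
  | some J =>
    simp only [hz, icI, lev]
    rw [abs_mul, abs_mul, sg_abs, mul_one, abs_of_nonneg (ic_nonneg _ _ _),
      abs_of_pos (pow_pos (hb_pos p) _)]

lemma hz_abs_le (p : ℝ) (J : Ix) (x : ℝ) : |hz p J x| ≤ hb p ^ lev J := by
  rw [hz_abs]
  exact mul_le_of_le_one_right (pow_nonneg (hb_pos p).le _) (icI_le _ _)

lemma hz_fl_self (p : ℝ) (n k : ℕ) (x : ℝ) : hz p (some (n, k)) (fl n x) = - hz p (some (n, k)) x := by
  simp only [hz]
  rw [ic_fl le_rfl, sg_fl_self]; ring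

/-- The Haar function does not see the digit `m + 1`. -/
def Below (J : Ix) (m : ℕ) : Prop := ∀ n k, J = some (n, k) → n < m

lemma hz_fl_below {p : ℝ} {J : Ix} {m : ℕ} (h : Below J m) (x : ℝ) : hz p J (fl m x) = hz p J x := by
  cases J with
  | none => rfl
  | some J =>
    obtain ⟨n, k⟩ := J
    have := h n k rfl
    simp only [hz]
    rw [ic_fl this.le, sg_fl_ne this.ne]

/-! ### Integrals -/

lemma int_ic_le (n : ℕ) (k : ℤ) : ∫ x, ic n k x ∂μ1 ≤ (1 / 2 : ℝ) ^ n := by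
  have h2 : (0:ℝ) < 2 ^ n := by positivity
  have hset : MeasurableSet {x : ℝ | cz n x = k} := (meas_cz n) (measurableSet_singleton k)
  have e : ic n k = Set.indicator {x : ℝ | cz n x = k} 1 := by
    funext x; unfold ic Set.indicator; simp
  rw [e, integral_indicator_one hset]
  unfold μ1
  rw [Measure.real, Measure.restrict_apply hset]
  have hs : {x : ℝ | cz n x = k} ∩ Set.Ico 0 1 ⊆
      Set.Ico ((k : ℝ) / 2 ^ n) (((k : ℝ) + 1) / 2 ^ n) := by
    intro x hx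
    have h1 := hx.1
    simp only [Set.mem_ofPred_eq, cz] at h1
    rw [Int.floor_eq_iff] at h1
    rw [Set.mem_Ico, div_le_iff₀ h2, lt_div_iff₀ h2, mul_comm x]
    exact h1
  have h3 := measure_mono (μ := (volume : Measure ℝ)) hs
  rw [Real.volume_Ico, ← sub_div, add_sub_cancel_left] at h3
  have h4 := ENNReal.toReal_mono (by simp) h3
  rw [ENNReal.toReal_ofReal (by positivity)] at h4
  rw [one_div_pow]
  exact h4

lemma int_ic_eq {n k : ℕ} (hk : k < 2 ^ n) : ∫ x, ic n k x ∂μ1 = (1 / 2 : ℝ) ^ n := by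
  rw [← int_ind_eq hk]
  unfold μ1
  apply setIntegral_congr_fun measurableSet_Ico
  intro x hx
  have h2 : (0:ℝ) ≤ 2 ^ n * x := mul_nonneg (by positivity) hx.1
  show ic n k x = ind n k x
  unfold ic ind cz cell
  rw [← Int.natCast_floor_eq_floor h2]
  simp only [Nat.cast_inj]

lemma int_icI_le (J : Ix) : ∫ x, icI J x ∂μ1 ≤ (1 / 2 : ℝ) ^ lev J := by
  cases J with
  | none => simp [icI, lev]
  | some J => exact int_ic_le _ _

/-- Decay per level. -/
noncomputable def bet (p : ℝ) : ℝ := hb p / 2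

lemma bet_pos (p : ℝ) : 0 < bet p := by unfold bet; have := hb_pos p; positivity

lemma hb_half (p : ℝ) (n : ℕ) : hb p ^ n * (1 / 2 : ℝ) ^ n = bet p ^ n := by
  unfold bet; rw [← mul_pow]; ring

lemma bet_lt {p : ℝ} (hp : 1 < p) : bet p < 1 := by
  unfold bet hb
  rw [div_lt_one (by norm_num)]
  calc (2:ℝ) ^ (1 / p) < 2 ^ (1:ℝ) := by
        apply Real.rpow_lt_rpow_of_exponent_lt (by norm_num)
        rw [div_lt_one (by linarith)]; linarith
    _ = 2 := Real.rpow_one 2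

lemma int_hz_abs (p : ℝ) (J : Ix) : ∫ x, |hz p J x| ∂μ1 ≤ bet p ^ lev J := by
  simp_rw [hz_abs]
  rw [integral_const_mul, ← hb_half]
  exact mul_le_mul_of_nonneg_left (int_icI_le J) (pow_nonneg (hb_pos p).le _)

variable {d : ℕ}

lemma int_prod (G : Fin d → ℝ → ℝ) : ∫ x, ∏ j, G j (x j) ∂(μd d) = ∏ j, ∫ y, G j y ∂μ1 :=
  integral_fintype_prod_eq_prod (𝕜 := ℝ) G

/-- Multivariate Haar function. -/
noncomputable def HH (p : ℝ) (K : Fin d → Ix) (x : Fin d → ℝ) : ℝ := ∏ j, hz p (K j) (x j)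

lemma meas_HH (p : ℝ) (K : Fin d → Ix) : Measurable (HH p K) := by
  unfold HH
  exact Finset.measurable_prod _ (fun j _ => (meas_hz p (K j)).comp (measurable_pi_apply j))

lemma HH_bdd (p : ℝ) (K : Fin d → Ix) (x : Fin d → ℝ) : |HH p K x| ≤ ∏ j, hb p ^ lev (K j) := by
  unfold HH
  rw [Finset.abs_prod]
  exact Finset.prod_le_prod (fun j _ => abs_nonneg _) (fun j _ => hz_abs_le _ _ _)

lemma HH_split (p : ℝ) (K : Fin d → Ix) (i : Fin d) (x : Fin d → ℝ) :
    HH p K x = hz p (K i) (x i) * ∏ j ∈ univ.erase i, hz p (K j) (x j) := by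
  unfold HH
  exact (Finset.mul_prod_erase univ _ (mem_univ i)).symm

lemma HH_E_self (p : ℝ) {K : Fin d → Ix} {i : Fin d} {n k : ℕ} (h : K i = some (n, k)) (x : Fin d → ℝ) :
    HH p K (E i n x) = - HH p K x := by
  rw [HH_split p K i, HH_split p K i x, E_self, h, hz_fl_self]
  rw [Finset.prod_congr rfl (g := fun j => hz p (K j) (x j))]
  · ring
  · intro j hj
    rw [E_ne (Finset.ne_of_mem_erase hj)]

lemma HH_E_below (p : ℝ) {K : Fin d → Ix} {i : Fin d} {m : ℕ} (h : Below (K i) m) (x : Fin d → ℝ) :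
    HH p K (E i m x) = HH p K x := by
  rw [HH_split p K i, HH_split p K i x, E_self, hz_fl_below h]
  rw [Finset.prod_congr rfl (g := fun j => hz p (K j) (x j))]
  intro j hj
  rw [E_ne (Finset.ne_of_mem_erase hj)]

/-! ### The building blocks -/

section blocks

variable (g L : ℕ) (i0 i1 : Fin d)

/-- The functions `X_l`. -/
noncomputable def XX (l : ℕ) (x : Fin d → ℝ) : ℝ := sg (1 + g * l) (x i0) * sg (g * (L - l)) (x i1)

lemma XX_or (l : ℕ) (x : Fin d → ℝ) : XX g L i0 i1 l x = 1 ∨ XX g L i0 i1 l x = -1 := by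
  unfold XX
  rcases sg_or (1 + g * l) (x i0) with h | h <;> rcases sg_or (g * (L - l)) (x i1) with h' | h' <;>
    rw [h, h'] <;> norm_num

lemma meas_XX (l : ℕ) : Measurable (XX g L i0 i1 l) := by
  unfold XX
  exact ((meas_sg _).comp (measurable_pi_apply i0)).mul ((meas_sg _).comp (measurable_pi_apply i1))

variable {g L i0 i1}

lemma XX_E0_self (h01 : i0 ≠ i1) (l : ℕ) (x : Fin d → ℝ) :
    XX g L i0 i1 l (E i0 (1 + g * l) x) = - XX g L i0 i1 l x := by
  unfold XX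
  rw [E_self, E_ne h01.symm, sg_fl_self]; ring

lemma XX_E0_ne (h01 : i0 ≠ i1) {l m : ℕ} (h : m ≠ 1 + g * l) (x : Fin d → ℝ) :
    XX g L i0 i1 l (E i0 m x) = XX g L i0 i1 l x := by
  unfold XX
  rw [E_self, E_ne h01.symm, sg_fl_ne h.symm]

lemma XX_E1_self (h01 : i0 ≠ i1) (l : ℕ) (x : Fin d → ℝ) :
    XX g L i0 i1 l (E i1 (g * (L - l)) x) = - XX g L i0 i1 l x := by
  unfold XX
  rw [E_self, E_ne h01, sg_fl_self]; ring

lemma XX_E1_ne (h01 : i0 ≠ i1) {l m : ℕ} (h : m ≠ g * (L - l)) (x : Fin d → ℝ) :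
    XX g L i0 i1 l (E i1 m x) = XX g L i0 i1 l x := by
  unfold XX
  rw [E_self, E_ne h01, sg_fl_ne h.symm]

lemma XX_Ej {j : Fin d} (h0 : j ≠ i0) (h1 : j ≠ i1) (l m : ℕ) (x : Fin d → ℝ) :
    XX g L i0 i1 l (E j m x) = XX g L i0 i1 l x := by
  unfold XX
  rw [E_ne h0.symm, E_ne h1.symm]

lemma lev0_ne (hg : 0 < g) {l l' : ℕ} (h : l' ≠ l) : 1 + g * l ≠ 1 + g * l' := by
  intro h2
  apply h
  have : g * l = g * l' := by omega
  exact (Nat.eq_of_mul_eq_mul_left hg this).symm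

lemma lev1_ne (hg : 0 < g) {l l' : ℕ} (hl : l ≤ L) (hl' : l' ≤ L) (h : l' ≠ l) :
    g * (L - l) ≠ g * (L - l') := by
  intro h2
  apply h
  have := Nat.eq_of_mul_eq_mul_left hg h2
  omega

/-- The coefficient of the term `l`. -/
noncomputable def cw (i0 i1 : Fin d) (j₀ : ℕ) (w : ℝ → ℝ → ℝ) (l : ℕ) (x : Fin d → ℝ) : ℝ :=
  if l = j₀ then w (x i0) (x i1) else 1

/-- The function `S` with the shapes `< j₀` removed and the shape `j₀` partially removed. -/
noncomputable def SW (g L : ℕ) (i0 i1 : Fin d) (j₀ : ℕ) (w : ℝ → ℝ → ℝ) (x : Fin d → ℝ) : ℝ :=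
  ∑ l ∈ Icc j₀ L, cw i0 i1 j₀ w l x * XX g L i0 i1 l x

/-- Conditions on the weight. -/
structure WOK (g L j₀ : ℕ) (w : ℝ → ℝ → ℝ) : Prop where
  or01 : ∀ a b, w a b = 0 ∨ w a b = 1
  meas : Measurable (Function.uncurry w)
  inv0 : ∀ m, 1 + g * j₀ ≤ m → ∀ a b, w (fl m a) b = w a b
  inv1 : ∀ m, g * (L - j₀) ≤ m → ∀ a b, w a (fl m b) = w a b
  crit : ∀ (c : ℤ) (m : ℕ), m < g * (L - j₀) → ∃ k : ℤ, ∀ a b, cz (1 + g * j₀) a = c → cz m b ≠ k →
    w a (fl m b) = w a b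

variable {j₀ : ℕ} {w : ℝ → ℝ → ℝ}

lemma cw_or (hw : WOK g L j₀ w) (l : ℕ) (x : Fin d → ℝ) :
    cw i0 i1 j₀ w l x = 0 ∨ cw i0 i1 j₀ w l x = 1 := by
  unfold cw
  split_ifs
  · exact hw.or01 _ _
  · exact Or.inr rfl

lemma cw_abs_le (hw : WOK g L j₀ w) (l : ℕ) (x : Fin d → ℝ) : |cw i0 i1 j₀ w l x| ≤ 1 := by
  rcases cw_or (i0 := i0) (i1 := i1) hw l x with h | h <;> rw [h] <;> simp

lemma meas_w (hw : WOK g L j₀ w) : Measurable (fun x : Fin d → ℝ => w (x i0) (x i1)) := by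
  have h : Measurable (fun x : Fin d → ℝ => (x i0, x i1)) :=
    (measurable_pi_apply i0).prodMk (measurable_pi_apply i1)
  exact hw.meas.comp h

lemma meas_cw (hw : WOK g L j₀ w) (l : ℕ) : Measurable (cw i0 i1 j₀ w l) := by
  unfold cw
  split_ifs
  · exact meas_w hw
  · exact measurable_const

lemma meas_SW (hw : WOK g L j₀ w) : Measurable (SW g L i0 i1 j₀ w) := by
  unfold SW
  exact Finset.measurable_sum _ (fun l _ => (meas_cw hw l).mul (meas_XX g L i0 i1 l))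

lemma term_abs_le (hw : WOK g L j₀ w) (l : ℕ) (x : Fin d → ℝ) :
    |cw i0 i1 j₀ w l x * XX g L i0 i1 l x| ≤ 1 := by
  rw [abs_mul]
  have h1 := cw_abs_le (i0 := i0) (i1 := i1) hw l x
  have h2 : |XX g L i0 i1 l x| = 1 := by
    rcases XX_or g L i0 i1 l x with h | h <;> rw [h] <;> simp
  rw [h2, mul_one]; exact h1

lemma SW_abs_le (hw : WOK g L j₀ w) (x : Fin d → ℝ) : |SW g L i0 i1 j₀ w x| ≤ (L : ℝ) + 1 := by
  unfold SW
  refine (Finset.abs_sum_le_sum_abs _ _).trans ?_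
  refine (Finset.sum_le_sum (fun l _ => term_abs_le hw l x)).trans ?_
  rw [Finset.sum_const, Nat.card_Icc, nsmul_eq_mul, mul_one]
  have : L + 1 - j₀ ≤ L + 1 := Nat.sub_le _ _
  exact_mod_cast this

lemma cw_E0 (h01 : i0 ≠ i1) (hw : WOK g L j₀ w) {m : ℕ} (hm : 1 + g * j₀ ≤ m) (l : ℕ) (x : Fin d → ℝ) :
    cw i0 i1 j₀ w l (E i0 m x) = cw i0 i1 j₀ w l x := by
  unfold cw
  rw [E_self, E_ne h01.symm, hw.inv0 m hm]

lemma cw_E1 (h01 : i0 ≠ i1) (hw : WOK g L j₀ w) {m : ℕ} (hm : g * (L - j₀) ≤ m) (l : ℕ) (x : Fin d → ℝ) :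
    cw i0 i1 j₀ w l (E i1 m x) = cw i0 i1 j₀ w l x := by
  unfold cw
  rw [E_self, E_ne h01, hw.inv1 m hm]

lemma cw_Ej {j : Fin d} (h0 : j ≠ i0) (h1 : j ≠ i1) (m l : ℕ) (x : Fin d → ℝ) :
    cw i0 i1 j₀ w l (E j m x) = cw i0 i1 j₀ w l x := by
  unfold cw
  rw [E_ne h0.symm, E_ne h1.symm]

/-- The dual coefficient of `S`. -/
noncomputable def SP (p : ℝ) (g L : ℕ) (i0 i1 : Fin d) (j₀ : ℕ) (w : ℝ → ℝ → ℝ) (K : Fin d → Ix) : ℝ :=
  ∫ x, ic 1 0 (x i0) * Phi p (SW g L i0 i1 j₀ w x) * HH p K x ∂(μd d)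

/-- No contribution if another variable is involved. -/
lemma SP_zero1 {p : ℝ} {j : Fin d} (h0 : j ≠ i0) (h1 : j ≠ i1) {K : Fin d → Ix} {m k : ℕ}
    (hK : K j = some (m, k)) : SP p g L i0 i1 j₀ w K = 0 := by
  unfold SP
  apply zero_of_flip j m
  intro x
  have hS : SW g L i0 i1 j₀ w (E j m x) = SW g L i0 i1 j₀ w x := by
    unfold SW
    apply Finset.sum_congr rfl
    intro l _
    rw [cw_Ej h0 h1, XX_Ej h0 h1]
  rw [E_ne h0.symm, hS, HH_E_self p hK]
  ring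

/-- No contribution of coarse functions in the first variable. -/
lemma SP_zero2 {p : ℝ} (hg : 0 < g) (h01 : i0 ≠ i1) (hw : WOK g L j₀ w) {K : Fin d → Ix}
    (hK : Below (K i0) (1 + g * j₀)) : SP p g L i0 i1 j₀ w K = 0 := by
  unfold SP
  have h := odd_sum (μ := μd d) (Icc j₀ L) (fun l x => cw i0 i1 j₀ w l x * XX g L i0 i1 l x)
    (fun l => E i0 (1 + g * l)) (fun l _ => E_mp i0 _)
    (fun l hl x => by
      have hj : j₀ ≤ l := (Finset.mem_Icc.mp hl).1
      have : 1 + g * j₀ ≤ 1 + g * l := by have := Nat.mul_le_mul_left g hj; omega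
      show cw i0 i1 j₀ w l (E i0 (1 + g * l) x) * XX g L i0 i1 l (E i0 (1 + g * l) x) = _
      rw [cw_E0 h01 hw this, XX_E0_self h01]; ring)
    (fun l hl l' _ hne x => by
      have hj : j₀ ≤ l := (Finset.mem_Icc.mp hl).1
      have : 1 + g * j₀ ≤ 1 + g * l := by have := Nat.mul_le_mul_left g hj; omega
      show cw i0 i1 j₀ w l' (E i0 (1 + g * l) x) * XX g L i0 i1 l' (E i0 (1 + g * l) x) = _
      rw [cw_E0 h01 hw this, XX_E0_ne h01 (lev0_ne hg hne)])
    (W := fun x => ic 1 0 (x i0) * HH p K x)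
    (fun l hl x => by
      have hj : j₀ ≤ l := (Finset.mem_Icc.mp hl).1
      have : 1 + g * j₀ ≤ 1 + g * l := by have := Nat.mul_le_mul_left g hj; omega
      show ic 1 0 (E i0 (1 + g * l) x i0) * HH p K (E i0 (1 + g * l) x) = _
      rw [E_self, ic_fl (by omega), HH_E_below p (fun n k h => lt_of_lt_of_le (hK n k h) this)])
    (h := Phi p) (fun s => Phi_neg p s)
  rw [← h]
  congr 1; funext x
  unfold SW
  ring

/-- No contribution of other levels in the first variable. -/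
lemma SP_zero3 {p : ℝ} (h01 : i0 ≠ i1) (hw : WOK g L j₀ w) {K : Fin d → Ix} {m k : ℕ}
    (hK : K i0 = some (m, k)) (hm : 1 + g * j₀ ≤ m) (hne : ∀ l, j₀ ≤ l → l ≤ L → m ≠ 1 + g * l) :
    SP p g L i0 i1 j₀ w K = 0 := by
  unfold SP
  apply zero_of_flip i0 m
  intro x
  have hS : SW g L i0 i1 j₀ w (E i0 m x) = SW g L i0 i1 j₀ w x := by
    unfold SW
    apply Finset.sum_congr rfl
    intro l hl
    obtain ⟨h1, h2⟩ := Finset.mem_Icc.mp hl
    rw [cw_E0 h01 hw hm, XX_E0_ne h01 (hne l h1 h2)]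
  rw [E_self, hS, HH_E_self p hK, ic_fl (by omega)]
  ring

end blocks

end Pool.Agent.Helper415.HB
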