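import Mathlib
import Pool.Agent.Helper415.HB4

/-! Estimates of the dual coefficients of `S`. -/

set_option autoImplicit false

open MeasureTheory Finset

namespace Pool.Agent.Helper415.HB

open Pool.Agent.Helper415 Pool.Agent.Helper415.HA

lemma Phi_cont {p : ℝ} (hp : 1 < p) : Continuous (Phi p) := by
  have h : Phi p = fun y => (max y 0) ^ (p - 1) - (max (-y) 0) ^ (p - 1) := by
    funext y
    rcases le_total 0 y with h | h
    · rw [Phi_nonneg_eq hp h, max_eq_left h, max_eq_right (by linarith : -y ≤ 0),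
        Real.zero_rpow (by linarith), sub_zero]
    · have h' : 0 ≤ -y := by linarith
      have e : Phi p y = -Phi p (-y) := by rw [Phi_neg, neg_neg]
      rw [e, Phi_nonneg_eq hp h', max_eq_right h, max_eq_left h', Real.zero_rpow (by linarith),
        zero_sub]
  rw [h]
  apply Continuous.sub
  · exact (continuous_id.max continuous_const).rpow_const (fun _ => Or.inr (by linarith))
  · exact (continuous_neg.max continuous_const).rpow_const (fun _ => Or.inr (by linarith))

lemma Phi_diff {p : ℝ} (hp : 2 < p) (s y : ℝ) (hy : |y| ≤ 1) :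
    |Phi p (s + y) - Phi p (s - y)| ≤ (2 * p + 2) * (1 + |s|) ^ (p - 2) := by
  have hp1 : 1 < p := by linarith
  have key : ∀ s : ℝ, 0 ≤ s → |Phi p (s + y) - Phi p (s - y)| ≤ (2 * p + 2) * (1 + s) ^ (p - 2) := by
    intro s hs
    have h0 : 0 < (1 + s) ^ (p - 2) := by positivity
    rcases le_or_gt s 1 with h | h
    · have e : ∀ z : ℝ, |z| ≤ 1 + s → |Phi p z| ≤ 2 * (1 + s) ^ (p - 2) := by
        intro z hz
        rw [Phi_abs hp1]
        have h1 := Real.rpow_le_rpow (abs_nonneg z) hz (by linarith : 0 ≤ p - 1)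
        have h2 : (1 + s) ^ (p - 1) = (1 + s) ^ (p - 2) * (1 + s) := by
          rw [← Real.rpow_add_one (by linarith)]; ring_nf
        rw [h2] at h1
        nlinarith
      have h1 := e (s + y) ((abs_add_le _ _).trans (by rw [abs_of_nonneg hs]; linarith))
      have h2 := e (s - y) ((abs_sub _ _).trans (by rw [abs_of_nonneg hs]; linarith))
      have h3 := abs_sub (Phi p (s + y)) (Phi p (s - y))
      nlinarith
    · have e : ∀ z : ℝ, 0 ≤ z → z ≤ 1 → Phi p (s + z) - Phi p (s - z) ≤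
          (2 * p + 2) * (1 + s) ^ (p - 2) ∧ 0 ≤ Phi p (s + z) - Phi p (s - z) := by
        intro z hz hz1
        have h1 : 0 < s + z := by linarith
        have h2 : 0 ≤ s - z := by linarith
        rw [Phi_nonneg_eq hp1 h1.le, Phi_nonneg_eq hp1 h2]
        have h3 := TG.pow_convex (by linarith : 1 ≤ p - 1) (s + z) (-(2 * z))
        rw [show s + z + -(2 * z) = s - z by ring, abs_of_pos h1, abs_of_nonneg h2] at h3
        have h4 : (s + z) ^ (p - 1 - 2) * (s + z) = (s + z) ^ (p - 2) := by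
          rw [← Real.rpow_add_one h1.ne']; ring_nf
        rw [h4] at h3
        have h5 : (s + z) ^ (p - 2) ≤ (1 + s) ^ (p - 2) :=
          Real.rpow_le_rpow h1.le (by linarith) (by linarith)
        have h6 : 0 < (s + z) ^ (p - 2) := by positivity
        have h7 : (p - 1) * ((s + z) ^ (p - 2) * (2 * z)) ≤ (2 * p + 2) * (1 + s) ^ (p - 2) := by
          have e1 : (s + z) ^ (p - 2) * (2 * z) ≤ (1 + s) ^ (p - 2) * 2 :=
            mul_le_mul h5 (by linarith) (by linarith) h0.le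
          have e2 := mul_le_mul_of_nonneg_left e1 (by linarith : 0 ≤ p - 1)
          nlinarith
        have h8 := Real.rpow_le_rpow h2 (by linarith : s - z ≤ s + z) (by linarith : 0 ≤ p - 1)
        constructor
        · linarith
        · linarith
      rcases le_total 0 y with h1 | h1
      · rw [abs_of_nonneg h1] at hy
        obtain ⟨e1, e2⟩ := e y h1 hy
        rw [abs_of_nonneg e2]; exact e1
      · rw [abs_of_nonpos h1] at hy
        obtain ⟨e1, e2⟩ := e (-y) (by linarith) hy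
        rw [sub_neg_eq_add, ← sub_eq_add_neg] at e1 e2
        rw [abs_sub_comm, abs_of_nonneg e2]; exact e1
  rcases le_total 0 s with h | h
  · rw [abs_of_nonneg h]; exact key s h
  · rw [abs_of_nonpos h]
    have h1 := key (-s) (by linarith)
    have e1 : Phi p (-s + y) = -Phi p (s - y) := by rw [← Phi_neg]; ring_nf
    have e2 : Phi p (-s - y) = -Phi p (s + y) := by rw [← Phi_neg]; ring_nf
    rw [e1, e2] at h1
    have e3 : -Phi p (s - y) - -Phi p (s + y) = Phi p (s + y) - Phi p (s - y) := by ring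
    rwa [e3] at h1

lemma Phi_abs_le {p : ℝ} (hp : 1 < p) {z B : ℝ} (hz : |z| ≤ B) : |Phi p z| ≤ B ^ (p - 1) := by
  rw [Phi_abs hp]
  exact Real.rpow_le_rpow (abs_nonneg _) hz (by linarith)

section blocks

variable {d : ℕ} {g L : ℕ} {i0 i1 : Fin d} {j₀ : ℕ} {w : ℝ → ℝ → ℝ}

lemma integrable_bdd {f : (Fin d → ℝ) → ℝ} (hm : Measurable f) {C : ℝ} (h : ∀ x, |f x| ≤ C) :
    Integrable f (μd d) :=
  (integrable_const C).mono' hm.aestronglyMeasurable (Filter.Eventually.of_forall h)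

lemma int_two (h01 : i0 ≠ i1) (G0 G1 : ℝ → ℝ) :
    ∫ x, G0 (x i0) * G1 (x i1) ∂(μd d) = (∫ y, G0 y ∂μ1) * ∫ y, G1 y ∂μ1 := by
  classical
  have h1 := int_prod (fun j : Fin d => if j = i0 then G0 else if j = i1 then G1 else fun _ => 1)
  have h2 : ∀ x : Fin d → ℝ, ∏ j, (if j = i0 then G0 else if j = i1 then G1 else fun _ => (1:ℝ)) (x j) =
      G0 (x i0) * G1 (x i1) := by
    intro x
    rw [← Finset.mul_prod_erase univ _ (mem_univ i0), ← Finset.mul_prod_erase (univ.erase i0) _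
      (Finset.mem_erase.mpr ⟨h01.symm, mem_univ i1⟩)]
    rw [Finset.prod_eq_one, mul_one]
    · simp [h01.symm]
    · intro j hj
      have h3 := Finset.ne_of_mem_erase hj
      have h4 := Finset.ne_of_mem_erase (Finset.mem_of_mem_erase hj)
      simp [h3, h4]
  simp_rw [h2] at h1
  rw [h1]
  rw [← Finset.mul_prod_erase univ _ (mem_univ i0), ← Finset.mul_prod_erase (univ.erase i0) _
      (Finset.mem_erase.mpr ⟨h01.symm, mem_univ i1⟩)]
  rw [Finset.prod_eq_one, mul_one]
  · simp [h01.symm]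
  · intro j hj
    have h3 := Finset.ne_of_mem_erase hj
    have h4 := Finset.ne_of_mem_erase (Finset.mem_of_mem_erase hj)
    simp [h3, h4]

lemma HH_two (h01 : i0 ≠ i1) (p : ℝ) {K : Fin d → Ix} (hK : ∀ j, j ≠ i0 → j ≠ i1 → K j = none)
    (x : Fin d → ℝ) : HH p K x = hz p (K i0) (x i0) * hz p (K i1) (x i1) := by
  classical
  unfold HH
  rw [← Finset.mul_prod_erase univ _ (mem_univ i0), ← Finset.mul_prod_erase (univ.erase i0) _
      (Finset.mem_erase.mpr ⟨h01.symm, mem_univ i1⟩)]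
  rw [Finset.prod_eq_one, mul_one]
  intro j hj
  have h3 := Finset.ne_of_mem_erase hj
  have h4 := Finset.ne_of_mem_erase (Finset.mem_of_mem_erase hj)
  rw [hK j h4 h3]
  rfl

lemma SW_split (hw : j₀ ≤ L) (x : Fin d → ℝ) :
    SW g L i0 i1 j₀ w x = w (x i0) (x i1) * XX g L i0 i1 j₀ x + ∑ l ∈ Ioc j₀ L, XX g L i0 i1 l x := by
  classical
  unfold SW
  rw [← Finset.add_sum_erase _ _ (Finset.left_mem_Icc.mpr hw)]
  congr 1
  · unfold cw; rw [if_pos rfl]
  · rw [Finset.Icc_erase_left]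
    apply Finset.sum_congr rfl
    intro l hl
    have : l ≠ j₀ := (Finset.mem_Ioc.mp hl).1.ne'
    unfold cw; rw [if_neg this, one_mul]

/-- Constant. -/
noncomputable def CK (p : ℝ) : ℝ := (p + 1) * cup (p - 2)

lemma CK_pos {p : ℝ} (hp : 2 < p) : 0 < CK p := by
  unfold CK; have := cup_pos (p - 2); positivity

/-- The basic estimate by the first difference. -/
lemma KB {p : ℝ} (hp : 2 < p) (hg : 0 < g) (h01 : i0 ≠ i1) (hw : WOK g L j₀ w) {i : ℕ}
    (hji : j₀ ≤ i) (hiL : i ≤ L) (k k' : ℤ) (m' : ℕ)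
    (hm : ∀ l, j₀ < l → l < i → m' ≤ g * (L - l)) (ψ : (Fin d → ℝ) → ℝ) (hψm : Measurable ψ)
    {B : ℝ} (hB : 0 ≤ B) (hψ : ∀ x, |ψ x| ≤ B * ic m' k' (x i1))
    (hψE : ∀ x, ψ (E i0 (1 + g * i) x) = ψ x) :
    |∫ x, ic 1 0 (x i0) * Phi p (SW g L i0 i1 j₀ w x) *
      (ic (1 + g * i) k (x i0) * sg (1 + g * i) (x i0) * ψ x) ∂(μd d)| ≤
      B * (CK p * ((L : ℝ) + 1) ^ ((p - 2) / 2)) * ((1 / 2) ^ (1 + g * i) * (1 / 2) ^ m') := by
  classical
  have hp1 : 1 < p := by linarith
  have hjL : j₀ ≤ L := hji.trans hiL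
  have hlev : 1 + g * j₀ ≤ 1 + g * i := by have := Nat.mul_le_mul_left g hji; omega
  set S' : (Fin d → ℝ) → ℝ := fun x => ∑ l ∈ (Icc j₀ L).erase i, cw i0 i1 j₀ w l x * XX g L i0 i1 l x with hS'
  set y : (Fin d → ℝ) → ℝ := fun x => cw i0 i1 j₀ w i x * XX g L i0 i1 i x with hy
  set T : (Fin d → ℝ) → ℝ := fun x => ∑ l ∈ (Ioc j₀ L).erase i, XX g L i0 i1 l x with hT
  have hSW : ∀ x, SW g L i0 i1 j₀ w x = y x + S' x := by
    intro x
    simp only [hy, hS']
    unfold SW
    rw [← Finset.add_sum_erase _ _ (Finset.mem_Icc.mpr ⟨hji, hiL⟩)]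
  have hyE : ∀ x, y (E i0 (1 + g * i) x) = - y x := by
    intro x
    simp only [hy]
    rw [cw_E0 h01 hw hlev, XX_E0_self h01]; ring
  have hS'E : ∀ x, S' (E i0 (1 + g * i) x) = S' x := by
    intro x
    apply Finset.sum_congr rfl
    intro l hl
    rw [cw_E0 h01 hw hlev, XX_E0_ne h01 (lev0_ne hg (Finset.ne_of_mem_erase hl))]
  have hy1 : ∀ x, |y x| ≤ 1 := fun x => term_abs_le hw i x
  have hST : ∀ x, |S' x| ≤ 1 + |T x| := by
    intro x
    have h1 := SW_split (g := g) (i0 := i0) (i1 := i1) (w := w) hjL x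
    have h2 := hSW x
    rcases hji.eq_or_lt with h | h
    · have h3 : T x = ∑ l ∈ Ioc j₀ L, XX g L i0 i1 l x := by
        simp only [hT]
        rw [Finset.erase_eq_of_notMem (by rw [← h]; simp)]
      have h4 : y x = w (x i0) (x i1) * XX g L i0 i1 j₀ x := by
        simp only [hy]; unfold cw; rw [if_pos h.symm, ← h]
      have h5 : S' x = T x := by rw [h3]; linarith
      rw [h5]; linarith [abs_nonneg (T x)]
    · have h3 : T x = ∑ l ∈ Ioc j₀ L, XX g L i0 i1 l x - XX g L i0 i1 i x := by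
        simp only [hT]
        rw [← Finset.add_sum_erase _ _ (Finset.mem_Ioc.mpr ⟨h, hiL⟩)]; ring
      have h4 : y x = XX g L i0 i1 i x := by
        simp only [hy]; unfold cw; rw [if_neg h.ne', one_mul]
      have h5 : S' x = w (x i0) (x i1) * XX g L i0 i1 j₀ x + T x := by rw [h3]; linarith
      rw [h5]
      refine (abs_add_le _ _).trans ?_
      have h6 : |w (x i0) (x i1) * XX g L i0 i1 j₀ x| ≤ 1 := by
        have := term_abs_le (i0 := i0) (i1 := i1) hw j₀ x
        unfold cw at this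
        rwa [if_pos rfl] at this
      linarith
  have mS' : Measurable S' := Finset.measurable_sum _ (fun l _ => (meas_cw hw l).mul (meas_XX g L i0 i1 l))
  have my : Measurable y := (meas_cw hw i).mul (meas_XX g L i0 i1 i)
  have mT : Measurable T := Finset.measurable_sum _ (fun l _ => meas_XX g L i0 i1 l)
  have hPm : Measurable (Phi p) := (Phi_cont hp1).measurable
  have mic0 : Measurable (fun x : Fin d → ℝ => ic 1 0 (x i0)) := (meas_ic 1 0).comp (measurable_pi_apply i0)
  have mick : Measurable (fun x : Fin d → ℝ => ic (1 + g * i) k (x i0)) :=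
    (meas_ic _ _).comp (measurable_pi_apply i0)
  have msg : Measurable (fun x : Fin d → ℝ => sg (1 + g * i) (x i0)) :=
    (meas_sg _).comp (measurable_pi_apply i0)
  have mick' : Measurable (fun x : Fin d → ℝ => ic m' k' (x i1)) :=
    (meas_ic _ _).comp (measurable_pi_apply i1)
  set G : (Fin d → ℝ) → ℝ := fun x => ic 1 0 (x i0) * Phi p (SW g L i0 i1 j₀ w x) *
      (ic (1 + g * i) k (x i0) * sg (1 + g * i) (x i0) * ψ x) with hG
  have hGE : ∀ x, G (E i0 (1 + g * i) x) = -(ic 1 0 (x i0) * Phi p (S' x - y x) *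
      (ic (1 + g * i) k (x i0) * sg (1 + g * i) (x i0) * ψ x)) := by
    intro x
    simp only [hG]
    rw [hSW, hyE, hS'E, hψE, E_self, ic_fl (by omega), ic_fl le_rfl, sg_fl_self]
    rw [show - y x + S' x = S' x - y x by ring]
    ring
  have mG : Measurable G := (mic0.mul (hPm.comp (meas_SW hw))).mul ((mick.mul msg).mul hψm)
  have hψB : ∀ x, |ψ x| ≤ B := fun x => (hψ x).trans (mul_le_of_le_one_right hB (ic_le _ _ _))
  have bG : ∀ x, |G x| ≤ ((L : ℝ) + 1) ^ (p - 1) * B := by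
    intro x
    simp only [hG]
    rw [abs_mul, abs_mul, abs_mul, abs_mul, sg_abs, mul_one, abs_of_nonneg (ic_nonneg _ _ _),
      abs_of_nonneg (ic_nonneg (1 + g * i) k (x i0))]
    have h1 := Phi_abs_le hp1 (SW_abs_le (i0 := i0) (i1 := i1) hw x)
    have h2 := ic_le 1 0 (x i0)
    have h3 := ic_le (1 + g * i) k (x i0)
    have h4 := ic_nonneg 1 0 (x i0)
    have h5 := ic_nonneg (1 + g * i) k (x i0)
    have h6 := hψB x
    have h7 := abs_nonneg (ψ x)
    have h8 := abs_nonneg (Phi p (SW g L i0 i1 j₀ w x))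
    calc ic 1 0 (x i0) * |Phi p (SW g L i0 i1 j₀ w x)| * (ic (1 + g * i) k (x i0) * |ψ x|) ≤
        (1 * ((L : ℝ) + 1) ^ (p - 1)) * (1 * B) := by gcongr
      _ = _ := by ring
  have iG := integrable_bdd mG bG
  have iGE : Integrable (fun x => G (E i0 (1 + g * i) x)) (μd d) :=
    (E_mp i0 _).integrable_comp_of_integrable iG
  have h2G : 2 * ∫ x, G x ∂(μd d) = ∫ x, (G x + G (E i0 (1 + g * i) x)) ∂(μd d) := by
    rw [integral_add iG iGE, int_E i0 _ G]; ring
  set W : (Fin d → ℝ) → ℝ := fun x => ic (1 + g * i) k (x i0) * ic m' k' (x i1) with hW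
  have hW0 : ∀ x, 0 ≤ W x := fun x => mul_nonneg (ic_nonneg _ _ _) (ic_nonneg _ _ _)
  have mW : Measurable W := mick.mul mick'
  have iW : Integrable W (μd d) := by
    apply integrable_bdd mW (C := 1)
    intro x
    rw [abs_of_nonneg (hW0 x)]
    exact mul_le_one₀ (ic_le _ _ _) (ic_nonneg _ _ _) (ic_le _ _ _)
  have hcont : Continuous (fun s : ℝ => (2 + |s|) ^ (p - 2)) :=
    (continuous_const.add continuous_abs).rpow_const (fun s => Or.inr (by linarith))
  have hdist := dist (μ := μd d) ((Ioc j₀ L).erase i) (XX g L i0 i1)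
    (fun l => if i < l then E i0 (1 + g * l) else E i1 (g * (L - l)))
    (fun l _ => by split_ifs; exacts [E_mp _ _, E_mp _ _])
    (fun l _ x => XX_or g L i0 i1 l x) (fun l _ => meas_XX g L i0 i1 l)
    (fun l _ x => by split_ifs; exacts [XX_E0_self h01 l x, XX_E1_self h01 l x])
    (fun l hl l' hl' hne x => by
      have hlL := (Finset.mem_Ioc.mp (Finset.mem_of_mem_erase hl)).2
      have hlL' := (Finset.mem_Ioc.mp (Finset.mem_of_mem_erase hl')).2
      split_ifs
      · exact XX_E0_ne h01 (lev0_ne hg hne) x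
      · exact XX_E1_ne h01 (lev1_ne hg hlL hlL' hne) x)
    (W := W) iW
    (fun l hl x => by
      have hli := Finset.ne_of_mem_erase hl
      have hlj := (Finset.mem_Ioc.mp (Finset.mem_of_mem_erase hl)).1
      simp only [hW]
      split_ifs with h
      · have : 1 + g * i ≤ 1 + g * l := by have := Nat.mul_le_mul_left g h.le; omega
        rw [E_self, E_ne h01.symm, ic_fl this]
      · have hlt : l < i := by omega
        rw [E_self, E_ne h01, ic_fl (hm l hlj hlt)])
    (h := fun s => (2 + |s|) ^ (p - 2)) hcont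
  have hH : ∀ x, |G x + G (E i0 (1 + g * i) x)| ≤ ((2 * p + 2) * B) * (W x * (2 + |T x|) ^ (p - 2)) := by
    intro x
    rw [hGE]
    have e1 : G x = ic 1 0 (x i0) * Phi p (S' x + y x) *
      (ic (1 + g * i) k (x i0) * sg (1 + g * i) (x i0) * ψ x) := by
      simp only [hG]; rw [hSW, add_comm]
    rw [e1]
    have e2 : ic 1 0 (x i0) * Phi p (S' x + y x) *
      (ic (1 + g * i) k (x i0) * sg (1 + g * i) (x i0) * ψ x) + -(ic 1 0 (x i0) * Phi p (S' x - y x) *
      (ic (1 + g * i) k (x i0) * sg (1 + g * i) (x i0) * ψ x)) =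
      ic 1 0 (x i0) * (Phi p (S' x + y x) - Phi p (S' x - y x)) *
        (ic (1 + g * i) k (x i0) * sg (1 + g * i) (x i0) * ψ x) := by ring
    rw [e2, abs_mul, abs_mul, abs_mul, abs_mul, sg_abs, mul_one, abs_of_nonneg (ic_nonneg _ _ _),
      abs_of_nonneg (ic_nonneg (1 + g * i) k (x i0))]
    have h1 := Phi_diff hp (S' x) (y x) (hy1 x)
    have h2 : (1 + |S' x|) ^ (p - 2) ≤ (2 + |T x|) ^ (p - 2) :=
      Real.rpow_le_rpow (by positivity) (by have := hST x; linarith) (by linarith)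
    have h3 := ic_le 1 0 (x i0)
    have h4 := ic_nonneg 1 0 (x i0)
    have h5 := ic_nonneg (1 + g * i) k (x i0)
    have h6 := hψ x
    have h7 := abs_nonneg (ψ x)
    have h8 : |Phi p (S' x + y x) - Phi p (S' x - y x)| ≤ (2 * p + 2) * (2 + |T x|) ^ (p - 2) :=
      h1.trans (mul_le_mul_of_nonneg_left h2 (by linarith))
    have h9 : 0 ≤ (2 * p + 2) * (2 + |T x|) ^ (p - 2) := (abs_nonneg _).trans h8
    calc ic 1 0 (x i0) * |Phi p (S' x + y x) - Phi p (S' x - y x)| *
          (ic (1 + g * i) k (x i0) * |ψ x|) ≤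
        (1 * ((2 * p + 2) * (2 + |T x|) ^ (p - 2))) *
          (ic (1 + g * i) k (x i0) * (B * ic m' k' (x i1))) := by gcongr
      _ = _ := by simp only [hW]; ring
  have iR : Integrable (fun x => ((2 * p + 2) * B) * (W x * (2 + |T x|) ^ (p - 2))) (μd d) :=
    (int_Wh _ _ (fun l _ x => XX_or g L i0 i1 l x) (fun l _ => meas_XX g L i0 i1 l) iW hcont).const_mul _
  have h3 : |∫ x, (G x + G (E i0 (1 + g * i) x)) ∂(μd d)| ≤
      ∫ x, ((2 * p + 2) * B) * (W x * (2 + |T x|) ^ (p - 2)) ∂(μd d) := by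
    refine (abs_integral_le_integral_abs).trans ?_
    exact integral_mono (iG.add iGE).abs iR hH
  rw [integral_const_mul] at h3
  have h4 : ∫ x, W x * (2 + |T x|) ^ (p - 2) ∂(μd d) =
      EE ((Ioc j₀ L).erase i).card (fun s => (2 + |s|) ^ (p - 2)) * ∫ x, W x ∂(μd d) := hdist
  have h5 : EE ((Ioc j₀ L).erase i).card (fun s => (2 + |s|) ^ (p - 2)) ≤
      cup (p - 2) * ((L : ℝ) + 1) ^ ((p - 2) / 2) := by
    have := EE_up (q := p - 2) (by linarith) ((Ioc j₀ L).erase i).card (L + 1) (by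
      refine (Finset.card_erase_le).trans ?_
      rw [Nat.card_Ioc]; omega) (by omega)
    push_cast at this
    exact this
  have h6 : ∫ x, W x ∂(μd d) ≤ (1 / 2) ^ (1 + g * i) * (1 / 2) ^ m' := by
    have := int_two h01 (ic (1 + g * i) k) (ic m' k')
    simp only [hW]
    rw [this]
    exact mul_le_mul (int_ic_le _ _) (int_ic_le _ _) (integral_nonneg (fun x => ic_nonneg _ _ _))
      (by positivity)
  have h7 : 0 ≤ ∫ x, W x ∂(μd d) := integral_nonneg hW0
  rw [h4] at h3
  have h8 : EE ((Ioc j₀ L).erase i).card (fun s => (2 + |s|) ^ (p - 2)) * ∫ x, W x ∂(μd d) ≤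
      (cup (p - 2) * ((L : ℝ) + 1) ^ ((p - 2) / 2)) * ((1 / 2) ^ (1 + g * i) * (1 / 2) ^ m') :=
    mul_le_mul h5 h6 h7 (by have := cup_pos (p - 2); positivity)
  have h9 := mul_le_mul_of_nonneg_left h8 (by positivity : 0 ≤ (2 * p + 2) * B)
  have h10 : 2 * |∫ x, G x ∂(μd d)| = |∫ x, (G x + G (E i0 (1 + g * i) x)) ∂(μd d)| := by
    rw [← h2G, abs_mul, abs_of_pos (by norm_num : (0:ℝ) < 2)]
  have h11 : (2 * p + 2) * B * ((cup (p - 2) * ((L : ℝ) + 1) ^ ((p - 2) / 2)) *
      ((1 / 2) ^ (1 + g * i) * (1 / 2) ^ m')) =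
      2 * (B * (CK p * ((L : ℝ) + 1) ^ ((p - 2) / 2)) * ((1 / 2) ^ (1 + g * i) * (1 / 2) ^ m')) := by
    unfold CK; ring
  linarith

end blocks

end Pool.Agent.Helper415.HB
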