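import Mathlib
import Pool.Agent.Helper415.HB5

/-! Dual coefficients of `S`: exact value, trivial bound, critical case. -/

set_option autoImplicit false

open MeasureTheory Finset

namespace Pool.Agent.Helper415.HB

open Pool.Agent.Helper415 Pool.Agent.Helper415.HA

section blocks

variable {d : ℕ} {g L : ℕ} {i0 i1 : Fin d} {j₀ : ℕ} {w : ℝ → ℝ → ℝ}

lemma bet_pow_le {p : ℝ} (hp : 1 < p) {a b : ℕ} (h : a ≤ b) : bet p ^ b ≤ bet p ^ a :=
  pow_le_pow_of_le_one (bet_pos p).le (bet_lt hp).le h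

lemma prod_bet_le {p : ℝ} (hp : 1 < p) (h01 : i0 ≠ i1) (K : Fin d → Ix) :
    ∏ j, bet p ^ lev (K j) ≤ bet p ^ (lev (K i0) + lev (K i1)) := by
  classical
  rw [← Finset.mul_prod_erase univ _ (mem_univ i0), ← Finset.mul_prod_erase (univ.erase i0) _
      (Finset.mem_erase.mpr ⟨h01.symm, mem_univ i1⟩), ← mul_assoc, ← pow_add]
  apply mul_le_of_le_one_right (pow_nonneg (bet_pos p).le _)
  apply Finset.prod_le_one
  · intro j _; exact pow_nonneg (bet_pos p).le _
  · intro j _; exact pow_le_one₀ (bet_pos p).le (bet_lt hp).le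

lemma int_HH_abs {p : ℝ} (K : Fin d → Ix) :
    ∫ x, |HH p K x| ∂(μd d) ≤ ∏ j, bet p ^ lev (K j) := by
  have h1 : (fun x : Fin d → ℝ => |HH p K x|) = fun x => ∏ j, (fun j y => |hz p (K j) y|) j (x j) := by
    funext x; unfold HH; rw [Finset.abs_prod]
  have h2 := int_prod (fun j y => |hz p (K j) y|)
  rw [h1, h2]
  exact Finset.prod_le_prod (fun j _ => integral_nonneg (fun x => abs_nonneg _))
    (fun j _ => int_hz_abs p (K j))

lemma integrable_HH (p : ℝ) (K : Fin d → Ix) : Integrable (HH p K) (μd d) :=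
  integrable_bdd (meas_HH p K) (HH_bdd p K)

/-- Trivial bound. -/
lemma TRIV {p : ℝ} (hp : 1 < p) (h01 : i0 ≠ i1) (hw : WOK g L j₀ w) (K : Fin d → Ix) :
    |SP p g L i0 i1 j₀ w K| ≤ ((L : ℝ) + 1) ^ (p - 1) * bet p ^ (lev (K i0) + lev (K i1)) := by
  unfold SP
  refine (abs_integral_le_integral_abs).trans ?_
  have h1 : ∀ x, |ic 1 0 (x i0) * Phi p (SW g L i0 i1 j₀ w x) * HH p K x| ≤
      ((L : ℝ) + 1) ^ (p - 1) * |HH p K x| := by
    intro x
    rw [abs_mul, abs_mul, abs_of_nonneg (ic_nonneg _ _ _)]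
    have h2 := Phi_abs_le hp (SW_abs_le (i0 := i0) (i1 := i1) hw x)
    have h3 := ic_le 1 0 (x i0)
    have h4 := ic_nonneg 1 0 (x i0)
    have h5 := abs_nonneg (HH p K x)
    calc ic 1 0 (x i0) * |Phi p (SW g L i0 i1 j₀ w x)| * |HH p K x| ≤
        (1 * ((L : ℝ) + 1) ^ (p - 1)) * |HH p K x| := by gcongr
      _ = _ := by ring
  have h2 := integral_mono_of_nonneg (μ := μd d)
    (f := fun x => |ic 1 0 (x i0) * Phi p (SW g L i0 i1 j₀ w x) * HH p K x|)
    (Filter.Eventually.of_forall (fun x => abs_nonneg _)) ((integrable_HH p K).abs.const_mul _)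
    (Filter.Eventually.of_forall h1)
  refine h2.trans ?_
  rw [integral_const_mul]
  apply mul_le_mul_of_nonneg_left _ (by positivity)
  exact (int_HH_abs K).trans (prod_bet_le hp h01 K)

/-- Cancellation by a double flip. -/
lemma flip2 {p : ℝ} (h01 : i0 ≠ i1) (hg : 0 < g) (hw : WOK g L j₀ w) {i : ℕ} (hji : j₀ ≤ i)
    (hiL : i ≤ L) {K : Fin d → Ix} {k : ℕ} (hK0 : K i0 = some (1 + g * i, k))
    (hK1 : Below (K i1) (g * (L - i))) (χ : ℝ → ℝ) (hχ : ∀ b, χ (fl (g * (L - i)) b) = χ b)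
    (hwχ : ∀ a b, cz (1 + g * i) a = k → χ b ≠ 0 → w a (fl (g * (L - i)) b) = w a b) :
    ∫ x, ic 1 0 (x i0) * Phi p (SW g L i0 i1 j₀ w x) * HH p K x * χ (x i1) ∂(μd d) = 0 := by
  have hlev : 1 + g * j₀ ≤ 1 + g * i := by have := Nat.mul_le_mul_left g hji; omega
  apply zero_of_flip2 i0 i1 (1 + g * i) (g * (L - i))
  intro x
  have hH : HH p K (E i0 (1 + g * i) (E i1 (g * (L - i)) x)) = - HH p K x := by
    rw [HH_E_self p hK0, HH_E_below p hK1]
  have hx0 : E i0 (1 + g * i) (E i1 (g * (L - i)) x) i0 = fl (1 + g * i) (x i0) := by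
    rw [E_self, E_ne h01]
  have hx1 : E i0 (1 + g * i) (E i1 (g * (L - i)) x) i1 = fl (g * (L - i)) (x i1) := by
    rw [E_ne h01.symm, E_self]
  rw [hH, hx0, hx1, hχ, ic_fl (by omega)]
  by_cases hc : χ (x i1) = 0
  · rw [hc]; ring
  by_cases hk : cz (1 + g * i) (x i0) = k
  · have hww : w (fl (1 + g * i) (x i0)) (fl (g * (L - i)) (x i1)) = w (x i0) (x i1) := by
      rw [hw.inv0 _ hlev, hwχ _ _ hk hc]
    have hS : SW g L i0 i1 j₀ w (E i0 (1 + g * i) (E i1 (g * (L - i)) x)) = SW g L i0 i1 j₀ w x := by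
      unfold SW
      apply Finset.sum_congr rfl
      intro l hl
      have hlL := (Finset.mem_Icc.mp hl).2
      have e1 : cw i0 i1 j₀ w l (E i0 (1 + g * i) (E i1 (g * (L - i)) x)) = cw i0 i1 j₀ w l x := by
        unfold cw
        rw [hx0, hx1, hww]
      rw [e1]
      congr 1
      by_cases hli : l = i
      · subst hli
        rw [XX_E0_self h01, XX_E1_self h01]; ring
      · rw [XX_E0_ne h01 (lev0_ne hg hli), XX_E1_ne h01 (lev1_ne hg hiL hlL hli)]
    rw [hS]; ring
  · have h0 : HH p K x = 0 := by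
      rw [HH_split p K i0, hK0]
      simp only [hz]
      have : ic (1 + g * i) (k : ℤ) (x i0) = 0 := by unfold ic; rw [if_neg hk]
      rw [this]; ring
    rw [h0]; ring

/-- The critical case. -/
lemma CRIT {p : ℝ} (hp : 2 < p) (hg : 0 < g) (h01 : i0 ≠ i1) (hw : WOK g L j₀ w) {i : ℕ}
    (hji : j₀ ≤ i) (hiL : i ≤ L) {K : Fin d → Ix} {k : ℕ} (hK0 : K i0 = some (1 + g * i, k))
    (hK1 : Below (K i1) (g * (L - i))) (hKj : ∀ j, j ≠ i0 → j ≠ i1 → K j = none) :
    |SP p g L i0 i1 j₀ w K| ≤ CK p * ((L : ℝ) + 1) ^ ((p - 2) / 2) * bet p ^ (1 + g * L) := by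
  have hp1 : 1 < p := by linarith
  have hlev : 1 + g * j₀ ≤ 1 + g * i := by have := Nat.mul_le_mul_left g hji; omega
  -- the critical cell
  have hcrit : ∃ k' : ℤ, ∀ a b, cz (1 + g * i) a = k → cz (g * (L - i)) b ≠ k' →
      w a (fl (g * (L - i)) b) = w a b := by
    rcases hji.eq_or_lt with h | h
    · refine ⟨0, fun a b _ _ => hw.inv1 _ ?_ a b⟩
      rw [h]
    · have hm : g * (L - i) < g * (L - j₀) := Nat.mul_lt_mul_of_pos_left (by omega) hg
      obtain ⟨k', hk'⟩ := hw.crit ((k : ℤ) / 2 ^ (1 + g * i - (1 + g * j₀))) _ hm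
      refine ⟨k', fun a b ha hb => hk' a b ?_ hb⟩
      rw [cz_le hlev a, ha]
  obtain ⟨k', hk'⟩ := hcrit
  set m := g * (L - i) with hm
  have h1 := flip2 (p := p) h01 hg hw hji hiL hK0 hK1 (fun b => 1 - ic m k' b)
    (fun b => by rw [ic_fl le_rfl]) (fun a b ha hb => hk' a b ha (by
      intro h; apply hb; unfold ic; rw [if_pos h]; ring))
  have hlevK : lev (K i1) ≤ m := by
    rcases hK : K i1 with _ | ⟨n, k''⟩
    · simp [lev]
    · have := hK1 n k'' hK
      simp only [lev]; exact this.le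
  set ψ : (Fin d → ℝ) → ℝ := fun x => hb p ^ (1 + g * i) * (hz p (K i1) (x i1) * ic m k' (x i1)) with hψ
  have hb1 : 1 ≤ hb p := by unfold hb; exact Real.one_le_rpow (by norm_num) (by positivity)
  have h2 := KB hp hg h01 hw hji hiL k k' m (by
      intro l hl1 hl2
      exact Nat.mul_le_mul_left g (by omega)) ψ (by
      exact (((meas_hz p (K i1)).comp (measurable_pi_apply i1)).mul
        ((meas_ic _ _).comp (measurable_pi_apply i1))).const_mul _)
    (B := hb p ^ (1 + g * i) * hb p ^ m) (by have := hb_pos p; positivity)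
    (by
      intro x
      simp only [hψ]
      rw [abs_mul, abs_mul, abs_of_nonneg (ic_nonneg _ _ _), abs_of_pos (pow_pos (hb_pos p) _),
        mul_assoc]
      apply mul_le_mul_of_nonneg_left _ (pow_nonneg (hb_pos p).le _)
      apply mul_le_mul_of_nonneg_right _ (ic_nonneg _ _ _)
      exact (hz_abs_le _ _ _).trans (pow_le_pow_right₀ hb1 hlevK))
    (by
      intro x
      simp only [hψ]
      rw [E_ne h01.symm])
  have hsum : SP p g L i0 i1 j₀ w K =
      ∫ x, ic 1 0 (x i0) * Phi p (SW g L i0 i1 j₀ w x) * HH p K x * (1 - ic m k' (x i1)) ∂(μd d) +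
      ∫ x, ic 1 0 (x i0) * Phi p (SW g L i0 i1 j₀ w x) *
        (ic (1 + g * i) k (x i0) * sg (1 + g * i) (x i0) * ψ x) ∂(μd d) := by
    unfold SP
    have mic0 : Measurable (fun x : Fin d → ℝ => ic 1 0 (x i0)) := (meas_ic 1 0).comp (measurable_pi_apply i0)
    have mG : Measurable (fun x => ic 1 0 (x i0) * Phi p (SW g L i0 i1 j₀ w x)) :=
      mic0.mul ((Phi_cont hp1).measurable.comp (meas_SW hw))
    have bG : ∀ x, |ic 1 0 (x i0) * Phi p (SW g L i0 i1 j₀ w x)| ≤ ((L : ℝ) + 1) ^ (p - 1) := by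
      intro x
      rw [abs_mul, abs_of_nonneg (ic_nonneg _ _ _)]
      have h2 := Phi_abs_le hp1 (SW_abs_le (i0 := i0) (i1 := i1) hw x)
      calc ic 1 0 (x i0) * |Phi p (SW g L i0 i1 j₀ w x)| ≤ 1 * ((L : ℝ) + 1) ^ (p - 1) :=
            mul_le_mul (ic_le _ _ _) h2 (abs_nonneg _) zero_le_one
        _ = _ := one_mul _
    have iG : Integrable (fun x => ic 1 0 (x i0) * Phi p (SW g L i0 i1 j₀ w x) * HH p K x) (μd d) :=
      (integrable_HH p K).bdd_mul mG.aestronglyMeasurable (Filter.Eventually.of_forall bG)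
    have mic : Measurable (fun x : Fin d → ℝ => ic m k' (x i1)) := (meas_ic _ _).comp (measurable_pi_apply i1)
    have i1' : Integrable (fun x => ic 1 0 (x i0) * Phi p (SW g L i0 i1 j₀ w x) * HH p K x *
        (1 - ic m k' (x i1))) (μd d) := by
      apply iG.mul_bdd (c := 1) (measurable_const.sub mic).aestronglyMeasurable
      refine Filter.Eventually.of_forall (fun x => ?_)
      show |(1:ℝ) - ic m k' (x i1)| ≤ 1
      rw [abs_le]
      have := ic_le m k' (x i1); have := ic_nonneg m k' (x i1)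
      constructor <;> linarith
    have i2' : Integrable (fun x => ic 1 0 (x i0) * Phi p (SW g L i0 i1 j₀ w x) * HH p K x *
        ic m k' (x i1)) (μd d) := by
      apply iG.mul_bdd (c := 1) mic.aestronglyMeasurable
      refine Filter.Eventually.of_forall (fun x => ?_)
      rw [Real.norm_eq_abs, abs_of_nonneg (ic_nonneg _ _ _)]
      exact ic_le _ _ _
    have e1 : ∀ x, ic 1 0 (x i0) * Phi p (SW g L i0 i1 j₀ w x) *
        (ic (1 + g * i) k (x i0) * sg (1 + g * i) (x i0) * ψ x) =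
        ic 1 0 (x i0) * Phi p (SW g L i0 i1 j₀ w x) * HH p K x * ic m k' (x i1) := by
      intro x
      rw [HH_two h01 p hKj, hK0]
      simp only [hψ, hz]
      ring
    simp_rw [e1]
    rw [← integral_add i1' i2']
    congr 1; funext x; ring
  rw [hsum, h1, zero_add]
  refine h2.trans (le_of_eq ?_)
  have e1 : bet p ^ (1 + g * L) = bet p ^ (1 + g * i) * bet p ^ m := by
    rw [← pow_add]; congr 1
    rw [hm, Nat.mul_sub]
    have := Nat.mul_le_mul_left g hiL
    omega
  rw [e1, ← hb_half, ← hb_half]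
  ring

/-- Exact value for the rectangles of `S`. -/
lemma OWN {p : ℝ} (hp : 1 < p) (hg : 0 < g) (h01 : i0 ≠ i1) (_hw : WOK g L j₀ w) {i : ℕ}
    (hji : j₀ ≤ i) (hiL : i ≤ L) {K : Fin d → Ix} {k k' : ℕ} (hK0 : K i0 = some (1 + g * i, k))
    (hK1 : K i1 = some (g * (L - i), k')) (hKj : ∀ j, j ≠ i0 → j ≠ i1 → K j = none)
    (hwR : ∀ a b, cz (1 + g * i) a = k → cz (g * (L - i)) b = k' → w a b = 1) :
    SP p g L i0 i1 j₀ w K = hb p ^ (1 + g * i) * hb p ^ (g * (L - i)) * (DD p (L - j₀) *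
      ∫ x, ic 1 0 (x i0) * ic (1 + g * i) k (x i0) * ic (g * (L - i)) k' (x i1) ∂(μd d)) := by
  classical
  have hlev : 1 + g * j₀ ≤ 1 + g * i := by have := Nat.mul_le_mul_left g hji; omega
  set A := (Icc j₀ L).erase i with hA
  have hAcard : A.card = L - j₀ := by
    rw [hA, Finset.card_erase_of_mem (Finset.mem_Icc.mpr ⟨hji, hiL⟩), Nat.card_Icc]; omega
  set T : (Fin d → ℝ) → ℝ := fun x => ∑ l ∈ A, XX g L i0 i1 l x with hT
  set W : (Fin d → ℝ) → ℝ := fun x => ic 1 0 (x i0) * ic (1 + g * i) k (x i0) * ic (g * (L - i)) k' (x i1)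
    with hW
  have hW0 : ∀ x, 0 ≤ W x := fun x =>
    mul_nonneg (mul_nonneg (ic_nonneg _ _ _) (ic_nonneg _ _ _)) (ic_nonneg _ _ _)
  have hWm : Measurable W := (((meas_ic 1 0).comp (measurable_pi_apply i0)).mul
    ((meas_ic _ _).comp (measurable_pi_apply i0))).mul ((meas_ic _ _).comp (measurable_pi_apply i1))
  have hW1 : ∀ x, |W x| ≤ 1 := by
    intro x
    rw [abs_of_nonneg (hW0 x)]
    exact mul_le_one₀ (mul_le_one₀ (ic_le _ _ _) (ic_nonneg _ _ _) (ic_le _ _ _)) (ic_nonneg _ _ _)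
      (ic_le _ _ _)
  have iW := integrable_bdd hWm hW1
  have hint : ∀ x, ic 1 0 (x i0) * Phi p (SW g L i0 i1 j₀ w x) * HH p K x =
      (hb p ^ (1 + g * i) * hb p ^ (g * (L - i))) *
        (W x * (Phi p (XX g L i0 i1 i x + T x) * XX g L i0 i1 i x)) := by
    intro x
    rw [HH_two h01 p hKj, hK0, hK1]
    simp only [hz, hW]
    by_cases h : cz (1 + g * i) (x i0) = k ∧ cz (g * (L - i)) (x i1) = k'
    · have hS : SW g L i0 i1 j₀ w x = XX g L i0 i1 i x + T x := by
        unfold SW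
        rw [← Finset.add_sum_erase _ _ (Finset.mem_Icc.mpr ⟨hji, hiL⟩)]
        have hc : ∀ l, cw i0 i1 j₀ w l x = 1 := by
          intro l; unfold cw; rw [hwR _ _ h.1 h.2]; simp
        simp only [hc, one_mul, hT, hA]
      rw [hS]
      unfold XX
      ring
    · have h0 : ic (1 + g * i) (k : ℤ) (x i0) * ic (g * (L - i)) (k' : ℤ) (x i1) = 0 := by
        by_cases h1 : cz (1 + g * i) (x i0) = k
        · have h2 : ¬ cz (g * (L - i)) (x i1) = k' := fun h2 => h ⟨h1, h2⟩
          unfold ic; rw [if_neg h2, mul_zero]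
        · unfold ic; rw [if_neg h1, zero_mul]
      have e1 : ic 1 0 (x i0) * Phi p (SW g L i0 i1 j₀ w x) *
          ((hb p ^ (1 + g * i) * (ic (1 + g * i) (k : ℤ) (x i0) * sg (1 + g * i) (x i0))) *
            (hb p ^ (g * (L - i)) * (ic (g * (L - i)) (k' : ℤ) (x i1) * sg (g * (L - i)) (x i1)))) =
          (ic (1 + g * i) (k : ℤ) (x i0) * ic (g * (L - i)) (k' : ℤ) (x i1)) *
          (ic 1 0 (x i0) * Phi p (SW g L i0 i1 j₀ w x) * hb p ^ (1 + g * i) * hb p ^ (g * (L - i)) *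
            sg (1 + g * i) (x i0) * sg (g * (L - i)) (x i1)) := by ring
      have e2 : hb p ^ (1 + g * i) * hb p ^ (g * (L - i)) *
          (ic 1 0 (x i0) * ic (1 + g * i) (k : ℤ) (x i0) * ic (g * (L - i)) (k' : ℤ) (x i1) *
            (Phi p (XX g L i0 i1 i x + T x) * XX g L i0 i1 i x)) =
          (ic (1 + g * i) (k : ℤ) (x i0) * ic (g * (L - i)) (k' : ℤ) (x i1)) *
          (hb p ^ (1 + g * i) * hb p ^ (g * (L - i)) * ic 1 0 (x i0) *
            (Phi p (XX g L i0 i1 i x + T x) * XX g L i0 i1 i x)) := by ring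
      rw [e1, e2, h0, zero_mul, zero_mul]
  unfold SP
  simp_rw [hint]
  rw [integral_const_mul]
  congr 1
  -- symmetrize
  have hcont1 : Continuous (Phi p) := Phi_cont hp
  have hδc : Continuous (fun s : ℝ => (Phi p (s + 1) - Phi p (s - 1)) / 2) :=
    ((hcont1.comp (continuous_id.add continuous_const)).sub
      (hcont1.comp (continuous_id.sub continuous_const))).div_const 2
  set F : (Fin d → ℝ) → ℝ := fun x => W x * (Phi p (XX g L i0 i1 i x + T x) * XX g L i0 i1 i x) with hF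
  have hTE : ∀ x, T (E i0 (1 + g * i) x) = T x := by
    intro x
    apply Finset.sum_congr rfl
    intro l hl
    exact XX_E0_ne h01 (lev0_ne hg (Finset.ne_of_mem_erase hl)) x
  have hWE : ∀ x, W (E i0 (1 + g * i) x) = W x := by
    intro x
    simp only [hW]
    rw [E_self, E_ne h01.symm, ic_fl (by omega), ic_fl le_rfl]
  have hFE : ∀ x, F (E i0 (1 + g * i) x) = W x * (Phi p (-XX g L i0 i1 i x + T x) * (-XX g L i0 i1 i x)) := by
    intro x
    simp only [hF]
    rw [hWE, hTE, XX_E0_self h01]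
  have mT : Measurable T := Finset.measurable_sum _ (fun l _ => meas_XX g L i0 i1 l)
  have mF : Measurable F := hWm.mul ((hcont1.measurable.comp ((meas_XX g L i0 i1 i).add mT)).mul
    (meas_XX g L i0 i1 i))
  have hXabs : ∀ x, |XX g L i0 i1 i x| = 1 := by
    intro x; rcases XX_or g L i0 i1 i x with h | h <;> rw [h] <;> simp
  have bF : ∀ x, |F x| ≤ ((A.card : ℝ) + 1) ^ (p - 1) := by
    intro x
    simp only [hF]
    rw [abs_mul (W x), abs_mul (Phi p _), hXabs, mul_one]
    have h1 : |XX g L i0 i1 i x + T x| ≤ (A.card : ℝ) + 1 := by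
      refine (abs_add_le _ _).trans ?_
      rw [hXabs]
      have := sum_abs_le A (XX g L i0 i1) (fun l _ x => XX_or g L i0 i1 l x) x
      linarith
    have h2 := Phi_abs_le hp h1
    calc |W x| * |Phi p (XX g L i0 i1 i x + T x)| ≤ 1 * ((A.card : ℝ) + 1) ^ (p - 1) :=
          mul_le_mul (hW1 x) h2 (abs_nonneg _) zero_le_one
      _ = _ := one_mul _
  have iF := integrable_bdd mF bF
  have iFE : Integrable (fun x => F (E i0 (1 + g * i) x)) (μd d) :=
    (E_mp i0 _).integrable_comp_of_integrable iF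
  have h2F : 2 * ∫ x, F x ∂(μd d) = ∫ x, (F x + F (E i0 (1 + g * i) x)) ∂(μd d) := by
    rw [integral_add iF iFE, int_E i0 _ F]; ring
  have hpt : ∀ x, F x + F (E i0 (1 + g * i) x) = 2 * (W x * ((Phi p (T x + 1) - Phi p (T x - 1)) / 2)) := by
    intro x
    rw [hFE]
    simp only [hF]
    rcases XX_or g L i0 i1 i x with h | h
    · rw [h, add_comm 1 (T x), show -1 + T x = T x - 1 by ring]; ring
    · rw [h, show -1 + T x = T x - 1 by ring, show - -1 + T x = T x + 1 by ring]; ring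
  simp_rw [hpt] at h2F
  rw [integral_const_mul] at h2F
  have hdist := dist (μ := μd d) A (XX g L i0 i1)
    (fun l => if i < l then E i0 (1 + g * l) else E i1 (g * (L - l)))
    (fun l _ => by split_ifs; exacts [E_mp _ _, E_mp _ _])
    (fun l _ x => XX_or g L i0 i1 l x) (fun l _ => meas_XX g L i0 i1 l)
    (fun l _ x => by split_ifs; exacts [XX_E0_self h01 l x, XX_E1_self h01 l x])
    (fun l hl l' hl' hne x => by
      have hlL := (Finset.mem_Icc.mp (Finset.mem_of_mem_erase hl)).2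
      have hlL' := (Finset.mem_Icc.mp (Finset.mem_of_mem_erase hl')).2
      split_ifs
      · exact XX_E0_ne h01 (lev0_ne hg hne) x
      · exact XX_E1_ne h01 (lev1_ne hg hlL hlL' hne) x)
    (W := W) iW
    (fun l hl x => by
      have hli := Finset.ne_of_mem_erase hl
      simp only [hW]
      split_ifs with h
      · have : 1 + g * i ≤ 1 + g * l := by have := Nat.mul_le_mul_left g h.le; omega
        rw [E_self, E_ne h01.symm, ic_fl this, ic_fl (by omega)]
      · have hlt : l < i := by omega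
        have : g * (L - i) ≤ g * (L - l) := Nat.mul_le_mul_left g (by omega)
        rw [E_self, E_ne h01, ic_fl this])
    (h := fun s => (Phi p (s + 1) - Phi p (s - 1)) / 2) hδc
  rw [hAcard] at hdist
  have h3 : ∫ x, W x * ((Phi p (T x + 1) - Phi p (T x - 1)) / 2) ∂(μd d) =
      DD p (L - j₀) * ∫ x, W x ∂(μd d) := hdist
  rw [h3] at h2F
  have h4 : ∫ x, F x ∂(μd d) = DD p (L - j₀) * ∫ x, W x ∂(μd d) := by linarith
  exact h4

/-- The measure of the rectangle, upper bound. -/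
lemma int_W_le (h01 : i0 ≠ i1) (n m : ℕ) (k k' : ℤ) :
    ∫ x : Fin d → ℝ, ic 1 0 (x i0) * ic n k (x i0) * ic m k' (x i1) ∂(μd d) ≤
      (1 / 2) ^ n * (1 / 2) ^ m := by
  have h1 := int_two (d := d) h01 (fun a => ic 1 0 a * ic n k a) (ic m k')
  rw [h1]
  apply mul_le_mul _ (int_ic_le _ _) (integral_nonneg (fun x => ic_nonneg _ _ _)) (by positivity)
  refine le_trans ?_ (int_ic_le n k)
  apply integral_mono_of_nonneg (Filter.Eventually.of_forall
    (fun x => mul_nonneg (ic_nonneg _ _ _) (ic_nonneg _ _ _)))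
  · refine (integrable_const (1:ℝ)).mono' (meas_ic _ _).aestronglyMeasurable
      (Filter.Eventually.of_forall (fun x => ?_))
    rw [Real.norm_eq_abs, abs_of_nonneg (ic_nonneg _ _ _)]
    exact ic_le _ _ _
  · exact Filter.Eventually.of_forall (fun x => mul_le_of_le_one_left (ic_nonneg _ _ _) (ic_le _ _ _))

/-- The measure of the rectangle, exact value. -/
lemma int_W_eq (h01 : i0 ≠ i1) {n m k k' : ℕ} (hk : k < 2 ^ n) (hk' : k' < 2 ^ m) :
    ∫ x : Fin d → ℝ, ic 1 0 (x i0) * ic (1 + n) k (x i0) * ic m k' (x i1) ∂(μd d) =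
      (1 / 2) ^ (1 + n) * (1 / 2) ^ m := by
  have h1 := int_two (d := d) h01 (fun a => ic 1 0 a * ic (1 + n) k a) (ic m k')
  rw [h1, int_ic_eq hk']
  congr 1
  rw [← int_ic_eq (n := 1 + n) (k := k) (by rw [pow_add]; omega)]
  congr 1; funext a
  by_cases h : cz (1 + n) a = k
  · have h2 : cz 1 a = 0 := by
      rw [cz_add 1 n, h]
      have h3 : (k : ℤ) < 2 ^ n := by exact_mod_cast hk
      exact Int.ediv_eq_zero_of_lt (by positivity) h3
    unfold ic
    rw [if_pos h2, one_mul]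
  · unfold ic
    rw [if_neg h, mul_zero]

end blocks

end Pool.Agent.Helper415.HB
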