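import Mathlib
import Pool.Agent.Helper415.HB6

/-! The sup bounds for the dual coefficients and the block part. -/

set_option autoImplicit false

open MeasureTheory Finset

namespace Pool.Agent.Helper415.HB

open Pool.Agent.Helper415 Pool.Agent.Helper415.HA

lemma DD_nonneg {p : ℝ} (hp : 1 < p) (n : ℕ) : 0 ≤ DD p n := by
  have h := DD_eq hp n
  have h1 : EE (n + 1) (fun _ => (0:ℝ)) ≤ EE (n + 1) (fun s => |s| ^ p) :=
    EE_mono _ _ _ (fun s => by positivity)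
  rw [EE_const] at h1
  have h2 : (0:ℝ) < (n : ℝ) + 1 := by positivity
  by_contra hcon
  push Not at hcon
  nlinarith

lemma DD_le {p : ℝ} (hp : 1 < p) (hp2 : p ≤ 2) (n : ℕ) : DD p n ≤ ((n : ℝ) + 1) ^ (p / 2 - 1) := by
  have h := DD_eq hp n
  have h1 := jensen_le (by linarith : 0 < p) hp2 (n + 1)
  push_cast at h1
  have h2 : (0:ℝ) < (n : ℝ) + 1 := by positivity
  rw [← h] at h1
  rw [Real.rpow_sub_one h2.ne', le_div_iff₀ h2]
  linarith

lemma DD_ge {p : ℝ} (hp : 2 ≤ p) (n : ℕ) : ((n : ℝ) + 1) ^ (p / 2 - 1) ≤ DD p n := by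
  have h := DD_eq (by linarith : 1 < p) n
  have h1 := jensen_ge hp (n + 1)
  push_cast at h1
  have h2 : (0:ℝ) < (n : ℝ) + 1 := by positivity
  rw [← h] at h1
  rw [Real.rpow_sub_one h2.ne', div_le_iff₀ h2]
  linarith

section blocks

variable {d : ℕ} {g L : ℕ} {i0 i1 : Fin d} {j₀ : ℕ} {w : ℝ → ℝ → ℝ}

lemma below_or (J : Ix) (m : ℕ) : Below J m ∨ ∃ n k, J = some (n, k) ∧ m ≤ n := by
  cases J with
  | none => left; intro n k h; exact absurd h (by simp)
  | some J =>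
    obtain ⟨n, k⟩ := J
    rcases Nat.lt_or_ge n m with h | h
    · left; intro n' k' h'; simp only [Option.some.injEq, Prod.mk.injEq] at h'; omega
    · right; exact ⟨n, k, rfl, h⟩

/-- No contribution of other levels in the second variable. -/
lemma SP_zero4 {p : ℝ} (h01 : i0 ≠ i1) {K : Fin d → Ix} {m k : ℕ} (hK : K i1 = some (m, k))
    (hwm : ∀ a b, w a (fl m b) = w a b) (hne : ∀ l, j₀ ≤ l → l ≤ L → m ≠ g * (L - l)) :
    SP p g L i0 i1 j₀ w K = 0 := by
  unfold SP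
  apply zero_of_flip i1 m
  intro x
  have hS : SW g L i0 i1 j₀ w (E i1 m x) = SW g L i0 i1 j₀ w x := by
    unfold SW
    apply Finset.sum_congr rfl
    intro l hl
    obtain ⟨h1, h2⟩ := Finset.mem_Icc.mp hl
    rw [XX_E1_ne h01 (hne l h1 h2)]
    unfold cw
    rw [E_self, E_ne h01, hwm]
  rw [E_ne h01, hS, HH_E_self p hK]
  ring

lemma lev_mul (hiL : j₀ ≤ L) : 1 + g * j₀ + g * (L - j₀) = 1 + g * L := by
  rw [add_assoc, ← Nat.mul_add]; congr 2; omega

/-- Sup bound, `p > 2`. -/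
theorem P2 {p : ℝ} (hp : 2 < p) (hg : 0 < g) (h01 : i0 ≠ i1) (hw : WOK g L j₀ w)
    (hgb : bet p ^ g * ((L : ℝ) + 1) ^ (p - 1) ≤ 1) (K : Fin d → Ix) :
    |SP p g L i0 i1 j₀ w K| ≤ (CK p + 1) * ((L : ℝ) + 1) ^ ((p - 2) / 2) * bet p ^ (1 + g * L) := by
  have hp1 : 1 < p := by linarith
  have hb := bet_pos p
  have hCK := CK_pos hp
  have hN1 : (1:ℝ) ≤ ((L : ℝ) + 1) ^ ((p - 2) / 2) := by
    apply Real.one_le_rpow
    · have : (0:ℝ) ≤ L := Nat.cast_nonneg _
      linarith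
    · linarith
  have hpos : 0 ≤ (CK p + 1) * ((L : ℝ) + 1) ^ ((p - 2) / 2) * bet p ^ (1 + g * L) := by positivity
  have hmono : CK p * ((L : ℝ) + 1) ^ ((p - 2) / 2) * bet p ^ (1 + g * L) ≤
      (CK p + 1) * ((L : ℝ) + 1) ^ ((p - 2) / 2) * bet p ^ (1 + g * L) := by
    have : 0 < bet p ^ (1 + g * L) := by positivity
    nlinarith
  by_cases hKj : ∀ j, j ≠ i0 → j ≠ i1 → K j = none
  swap
  · push Not at hKj
    obtain ⟨j, h0, h1, h2⟩ := hKj
    obtain ⟨⟨m, k⟩, hmk⟩ := Option.ne_none_iff_exists'.mp h2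
    rw [SP_zero1 h0 h1 hmk, abs_zero]; exact hpos
  rcases below_or (K i0) (1 + g * j₀) with h0 | ⟨a, k, hK0, ha⟩
  · rw [SP_zero2 hg h01 hw h0, abs_zero]; exact hpos
  by_cases hal : ∀ l, j₀ ≤ l → l ≤ L → a ≠ 1 + g * l
  · rw [SP_zero3 h01 hw hK0 ha hal, abs_zero]; exact hpos
  push Not at hal
  obtain ⟨i, hji, hiL, rfl⟩ := hal
  have hlev := lev_mul (g := g) hiL
  rcases below_or (K i1) (g * (L - i)) with h1 | ⟨b, k', hK1, hb'⟩
  · exact (CRIT hp hg h01 hw hji hiL hK0 h1 hKj).trans hmono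
  by_cases hbl : ∀ l, j₀ < l → l < i → b ≤ g * (L - l)
  · -- first difference
    have h2 := KB hp hg h01 hw hji hiL k k' b hbl
      (fun x => HA.hb p ^ (1 + g * i) * hz p (K i1) (x i1))
      (((meas_hz p (K i1)).comp (measurable_pi_apply i1)).const_mul _)
      (B := HA.hb p ^ (1 + g * i) * HA.hb p ^ b) (by have := hb_pos p; positivity)
      (by
        intro x
        rw [abs_mul, abs_of_pos (pow_pos (hb_pos p) _), mul_assoc]
        apply mul_le_mul_of_nonneg_left _ (pow_nonneg (hb_pos p).le _)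
        rw [hz_abs, hK1]
        simp only [lev, icI]
        exact le_rfl)
      (by intro x; rw [E_ne h01.symm])
    have e1 : SP p g L i0 i1 j₀ w K = ∫ x, ic 1 0 (x i0) * Phi p (SW g L i0 i1 j₀ w x) *
      (ic (1 + g * i) k (x i0) * sg (1 + g * i) (x i0) *
        (HA.hb p ^ (1 + g * i) * hz p (K i1) (x i1))) ∂(μd d) := by
      unfold SP
      congr 1; funext x
      rw [HH_two h01 p hKj, hK0]
      simp only [hz]
      ring
    rw [e1]
    refine h2.trans ?_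
    refine le_trans ?_ hmono
    have e2 : HA.hb p ^ (1 + g * i) * HA.hb p ^ b * (CK p * ((L : ℝ) + 1) ^ ((p - 2) / 2)) *
        ((1 / 2) ^ (1 + g * i) * (1 / 2) ^ b) =
        CK p * ((L : ℝ) + 1) ^ ((p - 2) / 2) * (bet p ^ (1 + g * i) * bet p ^ b) := by
      rw [← hb_half, ← hb_half]; ring
    rw [e2, ← pow_add]
    apply mul_le_mul_of_nonneg_left _ (by positivity)
    exact bet_pow_le hp1 (by omega)
  · push Not at hbl
    obtain ⟨l, hjl, hli, hbl⟩ := hbl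
    have h2 := TRIV hp1 h01 hw K
    have e1 : lev (K i0) + lev (K i1) = 1 + g * i + b := by rw [hK0, hK1]; simp [lev]
    rw [e1] at h2
    have h3 : g * (L - i) + g ≤ b := by
      have : g * (L - i) + g = g * (L - i + 1) := by ring
      rw [this]
      have h4 : g * (L - i + 1) ≤ g * (L - l) := Nat.mul_le_mul_left g (by omega)
      omega
    have h4 : bet p ^ (1 + g * i + b) ≤ bet p ^ (1 + g * L) * bet p ^ g := by
      rw [← pow_add]
      exact bet_pow_le hp1 (by omega)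
    have h5 : ((L : ℝ) + 1) ^ (p - 1) * bet p ^ (1 + g * i + b) ≤ bet p ^ (1 + g * L) := by
      have h6 : (0:ℝ) ≤ ((L : ℝ) + 1) ^ (p - 1) := by positivity
      have h7 := mul_le_mul_of_nonneg_left h4 h6
      have h8 : (0:ℝ) ≤ bet p ^ (1 + g * L) := by positivity
      have h9 := mul_le_mul_of_nonneg_left hgb h8
      nlinarith
    refine h2.trans (h5.trans ?_)
    have h6 : (1:ℝ) ≤ (CK p + 1) * ((L : ℝ) + 1) ^ ((p - 2) / 2) := by nlinarith
    have h8 : (0:ℝ) ≤ bet p ^ (1 + g * L) := by positivity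
    nlinarith

/-- The trivial weight. -/
lemma WOK_one (g L : ℕ) : WOK g L 0 (fun _ _ => 1) where
  or01 := fun _ _ => Or.inr rfl
  meas := measurable_const
  inv0 := fun _ _ _ _ => rfl
  inv1 := fun _ _ _ _ => rfl
  crit := fun _ _ _ => ⟨0, fun _ _ _ _ => rfl⟩

/-- Sup bound, `p < 2`. -/
theorem P1 {p : ℝ} (hp : 1 < p) (hp2 : p ≤ 2) (hg : 0 < g) (h01 : i0 ≠ i1)
    (hgb : bet p ^ g * ((L : ℝ) + 1) ^ (p / 2) ≤ 1) (K : Fin d → Ix) :
    |SP p g L i0 i1 0 (fun _ _ => 1) K| ≤ ((L : ℝ) + 1) ^ (p / 2 - 1) * bet p ^ (1 + g * L) := by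
  have hw := WOK_one g L
  have hb := bet_pos p
  have hN : (0:ℝ) < (L : ℝ) + 1 := by positivity
  have hpos : 0 ≤ ((L : ℝ) + 1) ^ (p / 2 - 1) * bet p ^ (1 + g * L) := by positivity
  by_cases hKj : ∀ j, j ≠ i0 → j ≠ i1 → K j = none
  swap
  · push Not at hKj
    obtain ⟨j, h0, h1, h2⟩ := hKj
    obtain ⟨⟨m, k⟩, hmk⟩ := Option.ne_none_iff_exists'.mp h2
    rw [SP_zero1 h0 h1 hmk, abs_zero]; exact hpos
  rcases below_or (K i0) (1 + g * 0) with h0 | ⟨a, k, hK0, ha⟩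
  · rw [SP_zero2 hg h01 hw h0, abs_zero]; exact hpos
  by_cases hal : ∀ l, 0 ≤ l → l ≤ L → a ≠ 1 + g * l
  · rw [SP_zero3 h01 hw hK0 ha hal, abs_zero]; exact hpos
  push Not at hal
  obtain ⟨i, hji, hiL, rfl⟩ := hal
  have hlev := lev_mul (g := g) hiL
  rcases below_or (K i1) (g * (L - i)) with h1 | ⟨b, k', hK1, hb'⟩
  · have h2 := flip2 (p := p) h01 hg hw hji hiL hK0 h1 (fun _ => 1) (fun _ => rfl)
      (fun _ _ _ _ => rfl)
    have e1 : SP p g L i0 i1 0 (fun _ _ => 1) K = 0 := by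
      unfold SP
      rw [← h2]
      congr 1; funext x; ring
    rw [e1, abs_zero]; exact hpos
  rcases hb'.eq_or_lt with h | h
  · subst h
    rw [OWN hp hg h01 hw hji hiL hK0 hK1 hKj (fun _ _ _ _ => rfl), Nat.sub_zero]
    have h3 := int_W_le (d := d) h01 (1 + g * i) (g * (L - i)) k k'
    have h4 : 0 ≤ ∫ x : Fin d → ℝ, ic 1 0 (x i0) * ic (1 + g * i) k (x i0) * ic (g * (L - i)) k' (x i1)
        ∂(μd d) := integral_nonneg (fun x =>
          mul_nonneg (mul_nonneg (ic_nonneg _ _ _) (ic_nonneg _ _ _)) (ic_nonneg _ _ _))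
    have h5 := DD_nonneg hp L
    have h6 := DD_le hp hp2 L
    have h7 := hb_pos p
    rw [abs_of_nonneg (by positivity)]
    have h8 : DD p L * ∫ x : Fin d → ℝ, ic 1 0 (x i0) * ic (1 + g * i) k (x i0) *
        ic (g * (L - i)) k' (x i1) ∂(μd d) ≤
        ((L : ℝ) + 1) ^ (p / 2 - 1) * ((1 / 2) ^ (1 + g * i) * (1 / 2) ^ (g * (L - i))) :=
      mul_le_mul h6 h3 h4 (by positivity)
    have h9 := mul_le_mul_of_nonneg_left h8 (by positivity :
      0 ≤ HA.hb p ^ (1 + g * i) * HA.hb p ^ (g * (L - i)))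
    refine h9.trans (le_of_eq ?_)
    rw [← hlev, pow_add (bet p), ← hb_half, ← hb_half]
    ring
  by_cases hbl : ∀ l, 0 ≤ l → l ≤ L → b ≠ g * (L - l)
  · rw [SP_zero4 h01 hK1 (fun _ _ => rfl) hbl, abs_zero]; exact hpos
  · push Not at hbl
    obtain ⟨l, _, hlL, hbl⟩ := hbl
    have h2 := TRIV hp h01 hw K
    have e1 : lev (K i0) + lev (K i1) = 1 + g * i + b := by rw [hK0, hK1]; simp [lev]
    rw [e1] at h2
    have hli : l < i := by
      by_contra hcon
      push Not at hcon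
      have : g * (L - l) ≤ g * (L - i) := Nat.mul_le_mul_left g (by omega)
      omega
    have h3 : g * (L - i) + g ≤ b := by
      have : g * (L - i) + g = g * (L - i + 1) := by ring
      rw [this, hbl]
      exact Nat.mul_le_mul_left g (by omega)
    have h4 : bet p ^ (1 + g * i + b) ≤ bet p ^ (1 + g * L) * bet p ^ g := by
      rw [← pow_add]
      exact bet_pow_le hp (by omega)
    have h5 : ((L : ℝ) + 1) ^ (p - 1) = ((L : ℝ) + 1) ^ (p / 2 - 1) * ((L : ℝ) + 1) ^ (p / 2) := by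
      rw [← Real.rpow_add hN]; ring_nf
    have h6 : (0:ℝ) < ((L : ℝ) + 1) ^ (p / 2 - 1) := by positivity
    have h7 : (0:ℝ) < ((L : ℝ) + 1) ^ (p / 2) := by positivity
    have h8 : (0:ℝ) < bet p ^ (1 + g * L) := by positivity
    refine h2.trans ?_
    rw [h5]
    calc ((L : ℝ) + 1) ^ (p / 2 - 1) * ((L : ℝ) + 1) ^ (p / 2) * bet p ^ (1 + g * i + b) ≤
        ((L : ℝ) + 1) ^ (p / 2 - 1) * ((L : ℝ) + 1) ^ (p / 2) * (bet p ^ (1 + g * L) * bet p ^ g) :=
          mul_le_mul_of_nonneg_left h4 (by positivity)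
      _ = (((L : ℝ) + 1) ^ (p / 2 - 1) * bet p ^ (1 + g * L)) * (bet p ^ g * ((L : ℝ) + 1) ^ (p / 2)) := by
          ring
      _ ≤ (((L : ℝ) + 1) ^ (p / 2 - 1) * bet p ^ (1 + g * L)) * 1 :=
          mul_le_mul_of_nonneg_left hgb (by positivity)
      _ = _ := mul_one _

/-! ### The block -/

/-- Indicator of the cells of level `ν` with number at least `c`. -/
noncomputable def bu (ν : ℕ) (c : ℤ) (a : ℝ) : ℝ := if c ≤ cz ν a then 1 else 0

lemma bu_or (ν : ℕ) (c : ℤ) (a : ℝ) : bu ν c a = 0 ∨ bu ν c a = 1 := by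
  unfold bu; split_ifs
  · exact Or.inr rfl
  · exact Or.inl rfl

lemma meas_bu (ν : ℕ) (c : ℤ) : Measurable (bu ν c) := by
  unfold bu
  exact Measurable.ite ((meas_cz ν) (MeasurableSet.of_discrete (s := {k | c ≤ k}))) measurable_const
    measurable_const

lemma bu_fl {ν m : ℕ} (h : ν ≤ m) (c : ℤ) (a : ℝ) : bu ν c (fl m a) = bu ν c a := by
  unfold bu; rw [cz_fl_le h]

lemma Phi_zero (p : ℝ) : Phi p 0 = 0 := by unfold Phi; ring

lemma Phi_block {p : ℝ} (hp : 1 < p) {A : ℝ} (hA : 0 ≤ A) (ν : ℕ) (c : ℤ) (a : ℝ) :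
    Phi p (A * (bu ν c a * sg ν a)) = A ^ (p - 1) * (bu ν c a * sg ν a) := by
  rcases bu_or ν c a with h | h
  · rw [h, zero_mul, mul_zero, mul_zero, Phi_zero]
  · rcases sg_or ν a with h' | h'
    · rw [h, h', one_mul, mul_one, mul_one, Phi_nonneg_eq hp hA]
    · rw [h, h', one_mul, mul_neg, mul_one, mul_neg, mul_one, Phi_neg, Phi_nonneg_eq hp hA]

/-- The dual coefficient of the block. -/
noncomputable def BP (p A : ℝ) (ν : ℕ) (c : ℤ) (i0 : Fin d) (K : Fin d → Ix) : ℝ :=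
  ∫ x, Phi p (A * (bu ν c (x i0) * sg ν (x i0))) * HH p K x ∂(μd d)

lemma BP_eq {p : ℝ} (hp : 1 < p) {A : ℝ} (hA : 0 ≤ A) (ν : ℕ) (c : ℤ) (K : Fin d → Ix) :
    BP p A ν c i0 K = A ^ (p - 1) * ∫ x, bu ν c (x i0) * sg ν (x i0) * HH p K x ∂(μd d) := by
  unfold BP
  rw [← integral_const_mul]
  congr 1; funext x
  rw [Phi_block hp hA]; ring

lemma BP_zero1 {p : ℝ} (hp : 1 < p) {A : ℝ} (hA : 0 ≤ A) (ν : ℕ) (c : ℤ) {K : Fin d → Ix} {j : Fin d}
    (hj : j ≠ i0) {m k : ℕ} (hK : K j = some (m, k)) : BP p A ν c i0 K = 0 := by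
  rw [BP_eq hp hA, zero_of_flip j m, mul_zero]
  intro x
  rw [E_ne hj.symm, HH_E_self p hK]; ring

lemma BP_zero2 {p : ℝ} (hp : 1 < p) {A : ℝ} (hA : 0 ≤ A) (ν : ℕ) (c : ℤ) {K : Fin d → Ix}
    (hK : ∀ k, K i0 ≠ some (ν, k)) : BP p A ν c i0 K = 0 := by
  rw [BP_eq hp hA]
  rcases below_or (K i0) ν with h | ⟨n, k, h, hn⟩
  · rw [zero_of_flip i0 ν, mul_zero]
    intro x
    rw [E_self, HH_E_below p h, bu_fl le_rfl, sg_fl_self]; ring
  · have hne : n ≠ ν := by
      intro h'; subst h'; exact hK k h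
    rw [zero_of_flip i0 n, mul_zero]
    intro x
    rw [E_self, HH_E_self p h, bu_fl hn, sg_fl_ne hne.symm]; ring

lemma BP_bound {p : ℝ} (hp : 1 < p) {A : ℝ} (hA : 0 ≤ A) (ν : ℕ) (c : ℤ) (K : Fin d → Ix) :
    |BP p A ν c i0 K| ≤ A ^ (p - 1) * bet p ^ ν := by
  classical
  have hb := bet_pos p
  by_cases h : ∃ k, K i0 = some (ν, k)
  · obtain ⟨k, hk⟩ := h
    rw [BP_eq hp hA, abs_mul, abs_of_nonneg (by positivity : 0 ≤ A ^ (p - 1))]
    apply mul_le_mul_of_nonneg_left _ (by positivity)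
    refine (abs_integral_le_integral_abs).trans ?_
    have h1 : ∀ x, |bu ν c (x i0) * sg ν (x i0) * HH p K x| ≤ |HH p K x| := by
      intro x
      rw [abs_mul, abs_mul, sg_abs, mul_one]
      apply mul_le_of_le_one_left (abs_nonneg _)
      rcases bu_or ν c (x i0) with h | h <;> rw [h] <;> simp
    have h2 := integral_mono_of_nonneg (μ := μd d)
      (f := fun x => |bu ν c (x i0) * sg ν (x i0) * HH p K x|)
      (Filter.Eventually.of_forall (fun x => abs_nonneg _)) (integrable_HH p K).abs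
      (Filter.Eventually.of_forall h1)
    refine h2.trans ((int_HH_abs K).trans ?_)
    rw [← Finset.mul_prod_erase univ _ (mem_univ i0), hk]
    simp only [lev]
    apply mul_le_of_le_one_right (by positivity)
    apply Finset.prod_le_one
    · intro j _; positivity
    · intro j _; exact pow_le_one₀ (bet_pos p).le (bet_lt hp).le
  · push Not at h
    rw [BP_zero2 hp hA ν c h, abs_zero]; positivity

/-- Index of a Haar function of the first variable. -/
def K0 (i0 : Fin d) (n k : ℕ) : Fin d → Ix := fun j => if j = i0 then some (n, k) else none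

lemma HH_K0 (p : ℝ) (n k : ℕ) (x : Fin d → ℝ) : HH p (K0 i0 n k) x = hz p (some (n, k)) (x i0) := by
  classical
  rw [HH_split p _ i0]
  have h1 : K0 i0 n k i0 = some (n, k) := by unfold K0; rw [if_pos rfl]
  rw [h1, Finset.prod_eq_one, mul_one]
  intro j hj
  have : K0 i0 n k j = none := by unfold K0; rw [if_neg (Finset.ne_of_mem_erase hj)]
  rw [this]; rfl

lemma int_one (G0 : ℝ → ℝ) : ∫ x : Fin d → ℝ, G0 (x i0) ∂(μd d) = ∫ y, G0 y ∂μ1 := by
  classical
  have h1 := int_prod (fun j : Fin d => if j = i0 then G0 else fun _ => 1)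
  have h2 : ∀ x : Fin d → ℝ, ∏ j, (if j = i0 then G0 else fun _ => (1:ℝ)) (x j) = G0 (x i0) := by
    intro x
    rw [← Finset.mul_prod_erase univ _ (mem_univ i0), Finset.prod_eq_one, mul_one]
    · simp
    · intro j hj
      simp [Finset.ne_of_mem_erase hj]
  simp_rw [h2] at h1
  rw [h1, ← Finset.mul_prod_erase univ _ (mem_univ i0), Finset.prod_eq_one, mul_one]
  · simp
  · intro j hj
    simp [Finset.ne_of_mem_erase hj]

lemma BP_exact {p : ℝ} (hp : 1 < p) {A : ℝ} (hA : 0 ≤ A) (ν : ℕ) (c : ℤ) {k : ℕ} (hc : c ≤ k)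
    (hk : k < 2 ^ ν) : BP p A ν c i0 (K0 i0 ν k) = A ^ (p - 1) * bet p ^ ν := by
  rw [BP_eq hp hA]
  congr 1
  have h1 : ∀ x : Fin d → ℝ, bu ν c (x i0) * sg ν (x i0) * HH p (K0 i0 ν k) x =
      (fun a => hb p ^ ν * ic ν k a) (x i0) := by
    intro x
    rw [HH_K0]
    simp only [hz]
    by_cases h : cz ν (x i0) = k
    · have h2 : bu ν c (x i0) = 1 := by unfold bu; rw [if_pos (by rw [h]; exact hc)]
      rw [h2]
      have h3 := sg_sq ν (x i0)
      have e : 1 * sg ν (x i0) * (HA.hb p ^ ν * (ic ν (k : ℤ) (x i0) * sg ν (x i0))) =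
          HA.hb p ^ ν * ic ν (k : ℤ) (x i0) * (sg ν (x i0) * sg ν (x i0)) := by ring
      rw [e, h3, mul_one]
    · have h2 : ic ν (k : ℤ) (x i0) = 0 := by unfold ic; rw [if_neg h]
      rw [h2]; ring
  have h2 := int_one (i0 := i0) (fun a => HA.hb p ^ ν * ic ν (k : ℤ) a)
  simp_rw [h1]
  rw [h2, integral_const_mul, int_ic_eq hk, hb_half]

end blocks

end Pool.Agent.Helper415.HB
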