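import Mathlib
import Pool.Agent.Helper415.HB7

/-! The residual functions. -/

set_option autoImplicit false

open MeasureTheory Finset

namespace Pool.Agent.Helper415.HB

open Pool.Agent.Helper415 Pool.Agent.Helper415.HA

/-- The weight of a partially removed shape. -/
noncomputable def wt (g L j₀ : ℕ) (s : ℕ) (a b : ℝ) : ℝ :=
  if (s : ℤ) ≤ cz (1 + g * j₀) a * 2 ^ (g * (L - j₀)) + cz (g * (L - j₀)) b then 1 else 0

lemma ediv_lt_iff' {a b c : ℤ} (hc : 0 < c) : a / c < b ↔ a < b * c := Int.ediv_lt_iff_lt_mul hc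

lemma WOK_wt (g L j₀ s : ℕ) : WOK g L j₀ (wt g L j₀ s) where
  or01 := fun a b => by
    unfold wt; split_ifs
    · exact Or.inr rfl
    · exact Or.inl rfl
  meas := by
    unfold wt Function.uncurry
    apply Measurable.ite _ measurable_const measurable_const
    apply measurableSet_le measurable_const
    exact (((meas_cz _).comp measurable_fst).mul_const _).add ((meas_cz _).comp measurable_snd)
  inv0 := fun m hm a b => by unfold wt; rw [cz_fl_le hm]
  inv1 := fun m hm a b => by unfold wt; rw [cz_fl_le hm]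
  crit := fun c m hm => by
    set M := g * (L - j₀) with hM
    set θ : ℤ := (s : ℤ) - c * 2 ^ M with hθ
    have h2 : (0:ℤ) < 2 ^ (M - m) := by positivity
    refine ⟨θ / 2 ^ (M - m), fun a b ha hb => ?_⟩
    have e1 : ∀ b', wt g L j₀ s a b' = if θ ≤ cz M b' then 1 else 0 := by
      intro b'
      unfold wt
      rw [ha, ← hM]
      congr 1
      apply propext
      rw [hθ]
      constructor <;> intro h <;> linarith
    rw [e1, e1]
    have e2 := cz_le hm.le b
    have e3 := cz_le hm.le (fl m b)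
    rw [cz_fl_le le_rfl] at e3
    rcases lt_or_gt_of_ne hb with h | h
    · have h3 : ¬ θ ≤ cz M b := by
        intro hcon
        have := Int.ediv_le_ediv h2 hcon
        rw [← e2] at this
        omega
      have h4 : ¬ θ ≤ cz M (fl m b) := by
        intro hcon
        have := Int.ediv_le_ediv h2 hcon
        rw [← e3] at this
        omega
      rw [if_neg h3, if_neg h4]
    · have h3 : θ ≤ cz M b := by
        by_contra hcon
        push Not at hcon
        have := Int.ediv_le_ediv h2 hcon.le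
        rw [← e2] at this
        omega
      have h4 : θ ≤ cz M (fl m b) := by
        by_contra hcon
        push Not at hcon
        have := Int.ediv_le_ediv h2 hcon.le
        rw [← e3] at this
        omega
      rw [if_pos h3, if_pos h4]

section blocks

variable {d : ℕ} {i0 i1 : Fin d}

/-- The rank of the rectangle of shape `l` containing `x`. -/
noncomputable def rk (g L l : ℕ) (i0 i1 : Fin d) (x : Fin d → ℝ) : ℤ :=
  cz (1 + g * l) (x i0) * 2 ^ (g * (L - l)) + cz (g * (L - l)) (x i1)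

/-- The function `S` after `n` removals. -/
noncomputable def V (g L : ℕ) (i0 i1 : Fin d) (n : ℕ) (x : Fin d → ℝ) : ℝ :=
  ∑ l ∈ range (L + 1), (if (n : ℤ) ≤ (l : ℤ) * 2 ^ (g * L) + rk g L l i0 i1 x then (1:ℝ) else 0) *
    XX g L i0 i1 l x

/-- The domain. -/
def Dom (x : Fin d → ℝ) : Prop := ∀ i, cz 0 (x i) = 0

lemma cz_range {m : ℕ} {y : ℝ} (h : cz 0 y = 0) : 0 ≤ cz m y ∧ cz m y < 2 ^ m := by
  have h1 := cz_add 0 m y
  rw [zero_add, h] at h1
  have h2 : (0:ℤ) < 2 ^ m := by positivity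
  constructor
  · by_contra hcon
    push Not at hcon
    have := Int.ediv_neg_of_neg_of_pos hcon h2
    omega
  · by_contra hcon
    push Not at hcon
    have := Int.ediv_le_ediv h2 hcon
    rw [Int.ediv_self h2.ne'] at this
    omega

lemma pow_split {g L l : ℕ} (hl : l ≤ L) : (2:ℤ) ^ (g * L) = 2 ^ (g * l) * 2 ^ (g * (L - l)) := by
  rw [← pow_add, ← Nat.mul_add]; congr 2; omega

lemma rk_range {g L l : ℕ} (hl : l ≤ L) {x : Fin d → ℝ} (hx : Dom x) (hh : cz 1 (x i0) = 0) :
    0 ≤ rk g L l i0 i1 x ∧ rk g L l i0 i1 x < 2 ^ (g * L) := by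
  unfold rk
  obtain ⟨h1, h2⟩ := cz_range (m := g * (L - l)) (hx i1)
  have h3 := (cz_range (m := 1 + g * l) (hx i0)).1
  have h4 : cz (1 + g * l) (x i0) < 2 ^ (g * l) := by
    have e := cz_add 1 (g * l) (x i0)
    rw [hh] at e
    have h5 : (0:ℤ) < 2 ^ (g * l) := by positivity
    by_contra hcon
    push Not at hcon
    have := Int.ediv_le_ediv h5 hcon
    rw [Int.ediv_self h5.ne'] at this
    omega
  have h5 : (0:ℤ) < 2 ^ (g * (L - l)) := by positivity
  rw [pow_split hl]
  constructor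
  · positivity
  · have h6 : cz (1 + g * l) (x i0) + 1 ≤ 2 ^ (g * l) := by omega
    have h7 := mul_le_mul_of_nonneg_right h6 h5.le
    linarith

lemma V_eq_SW {g L n : ℕ} (hn : n / 2 ^ (g * L) ≤ L) {x : Fin d → ℝ} (hx : Dom x)
    (hh : cz 1 (x i0) = 0) :
    V g L i0 i1 n x = SW g L i0 i1 (n / 2 ^ (g * L)) (wt g L (n / 2 ^ (g * L)) (n % 2 ^ (g * L))) x := by
  classical
  set Q := 2 ^ (g * L) with hQ
  set j := n / Q with hj
  set s := n % Q with hs
  have hQ0 : 0 < Q := by positivity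
  have hns : n = j * Q + s := by rw [hj, hs]; exact (Nat.div_add_mod' n Q).symm
  have hsQ : s < Q := Nat.mod_lt _ hQ0
  have hQz : ((Q : ℕ) : ℤ) = 2 ^ (g * L) := by rw [hQ]; push_cast; rfl
  unfold V SW
  have hsub : Icc j L ⊆ range (L + 1) := by
    intro l hl; rw [Finset.mem_Icc] at hl; rw [Finset.mem_range]; omega
  rw [← Finset.sum_subset hsub]
  · apply Finset.sum_congr rfl
    intro l hl
    obtain ⟨h1, h2⟩ := Finset.mem_Icc.mp hl
    congr 1
    obtain ⟨hr0, hr1⟩ := rk_range (g := g) (i1 := i1) h2 hx hh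
    unfold cw
    by_cases hlj : l = j
    · rw [if_pos hlj, hlj]
      unfold wt
      have : rk g L j i0 i1 x = cz (1 + g * j) (x i0) * 2 ^ (g * (L - j)) + cz (g * (L - j)) (x i1) := rfl
      rw [← this]
      congr 1
      apply propext
      rw [hns]
      push_cast
      rw [← hQz]
      constructor <;> intro h <;> linarith
    · rw [if_neg hlj, if_pos]
      have h3 : j + 1 ≤ l := by omega
      have h4 : ((j : ℤ) + 1) * Q ≤ (l : ℤ) * Q := by
        apply mul_le_mul_of_nonneg_right _ (by positivity)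
        exact_mod_cast h3
      have h5 : (s : ℤ) < Q := by exact_mod_cast hsQ
      rw [hns]
      push_cast
      rw [← hQz]
      nlinarith
  · intro l hl hl'
    rw [Finset.mem_range] at hl
    rw [Finset.mem_Icc] at hl'
    have h1 : l < j := by omega
    obtain ⟨hr0, hr1⟩ := rk_range (g := g) (i1 := i1) (by omega : l ≤ L) hx hh
    rw [if_neg, zero_mul]
    intro hcon
    have h4 : ((l : ℤ) + 1) * Q ≤ (j : ℤ) * Q := by
      apply mul_le_mul_of_nonneg_right _ (by positivity)
      exact_mod_cast h1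
    rw [hns] at hcon
    push_cast at hcon
    rw [← hQz] at hcon hr1
    have : (0:ℤ) ≤ s := by positivity
    nlinarith

lemma V_zero_eq {g L : ℕ} {x : Fin d → ℝ} (hx : Dom x) (hh : cz 1 (x i0) = 0) :
    V g L i0 i1 0 x = SW g L i0 i1 0 (fun _ _ => 1) x := by
  unfold V SW
  rw [Finset.range_eq_Ico]
  have : Ico 0 (L + 1) = Icc 0 L := by
    ext l; rw [Finset.mem_Ico, Finset.mem_Icc]; omega
  rw [this]
  apply Finset.sum_congr rfl
  intro l hl
  congr 1
  obtain ⟨hr0, hr1⟩ := rk_range (g := g) (i1 := i1) (Finset.mem_Icc.mp hl).2 hx hh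
  rw [if_pos (by push_cast; positivity)]
  unfold cw; simp

lemma V_last {g L : ℕ} {x : Fin d → ℝ} (hx : Dom x) (hh : cz 1 (x i0) = 0) :
    V g L i0 i1 ((L + 1) * 2 ^ (g * L)) x = 0 := by
  unfold V
  apply Finset.sum_eq_zero
  intro l hl
  rw [Finset.mem_range] at hl
  obtain ⟨hr0, hr1⟩ := rk_range (g := g) (i1 := i1) (by omega : l ≤ L) hx hh
  rw [if_neg, zero_mul]
  intro hcon
  push_cast at hcon
  have h1 : (l : ℤ) ≤ L := by exact_mod_cast (by omega : l ≤ L)
  have h2 : (0:ℤ) < 2 ^ (g * L) := by positivity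
  nlinarith

/-- The index of the removed element. -/
def KS (g L : ℕ) (i0 i1 : Fin d) (n : ℕ) : Fin d → Ix := fun j =>
  if j = i0 then some (1 + g * (n / 2 ^ (g * L)),
      (n % 2 ^ (g * L)) / 2 ^ (g * (L - n / 2 ^ (g * L))))
  else if j = i1 then some (g * (L - n / 2 ^ (g * L)),
      (n % 2 ^ (g * L)) % 2 ^ (g * (L - n / 2 ^ (g * L))))
  else none

lemma KS_0 (g L n : ℕ) : KS g L i0 i1 n i0 = some (1 + g * (n / 2 ^ (g * L)),
      (n % 2 ^ (g * L)) / 2 ^ (g * (L - n / 2 ^ (g * L)))) := by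
  unfold KS; rw [if_pos rfl]

lemma KS_1 (h01 : i0 ≠ i1) (g L n : ℕ) : KS g L i0 i1 n i1 = some (g * (L - n / 2 ^ (g * L)),
      (n % 2 ^ (g * L)) % 2 ^ (g * (L - n / 2 ^ (g * L)))) := by
  unfold KS; rw [if_neg h01.symm, if_pos rfl]

lemma KS_j (g L n : ℕ) {j : Fin d} (h0 : j ≠ i0) (h1 : j ≠ i1) : KS g L i0 i1 n j = none := by
  unfold KS; rw [if_neg h0, if_neg h1]

lemma KS_lt {g L n : ℕ} (hn : n / 2 ^ (g * L) ≤ L) :
    (n % 2 ^ (g * L)) / 2 ^ (g * (L - n / 2 ^ (g * L))) < 2 ^ (g * (n / 2 ^ (g * L))) := by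
  apply Nat.div_lt_of_lt_mul
  have h1 : n % 2 ^ (g * L) < 2 ^ (g * L) := Nat.mod_lt _ (by positivity)
  have h2 : 2 ^ (g * (L - n / 2 ^ (g * L))) * 2 ^ (g * (n / 2 ^ (g * L))) = 2 ^ (g * L) := by
    rw [← pow_add, ← Nat.mul_add]; congr 2; omega
  rw [h2]; exact h1

/-- One removal. -/
lemma V_diff {g L n : ℕ} (h01 : i0 ≠ i1) (hn : n / 2 ^ (g * L) ≤ L) (p : ℝ) {x : Fin d → ℝ}
    (hx : Dom x) :
    ic 1 0 (x i0) * V g L i0 i1 n x - ic 1 0 (x i0) * V g L i0 i1 (n + 1) x =
      ((hb p) ^ (1 + g * L))⁻¹ * HH p (KS g L i0 i1 n) x := by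
  classical
  have hbp : 0 < hb p ^ (1 + g * L) := pow_pos (hb_pos p) _
  set Q := 2 ^ (g * L) with hQ
  set j := n / Q with hj
  set s := n % Q with hs
  have hQ0 : 0 < Q := by positivity
  have hns : n = j * Q + s := by rw [hj, hs]; exact (Nat.div_add_mod' n Q).symm
  have hsQ : s < Q := Nat.mod_lt _ hQ0
  have hQz : ((Q : ℕ) : ℤ) = 2 ^ (g * L) := by rw [hQ]; push_cast; rfl
  set M := g * (L - j) with hM
  have hHH : HH p (KS g L i0 i1 n) x = hb p ^ (1 + g * L) *
      (ic (1 + g * j) ((s / 2 ^ M : ℕ) : ℤ) (x i0) * ic M ((s % 2 ^ M : ℕ) : ℤ) (x i1) *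
        XX g L i0 i1 j x) := by
    rw [HH_two h01 p (fun j h0 h1 => KS_j g L n h0 h1), KS_0, KS_1 h01]
    simp only [hz]
    rw [← hQ, ← hj, ← hs, ← hM]
    have e1 : hb p ^ (1 + g * L) = hb p ^ (1 + g * j) * hb p ^ M := by
      rw [← pow_add, hM, lev_mul hn]
    rw [e1]
    unfold XX
    rw [← hM]
    ring
  rw [hHH, ← mul_assoc, inv_mul_cancel₀ hbp.ne', one_mul, ← mul_sub]
  by_cases hh : cz 1 (x i0) = 0
  · have h1 : ic 1 0 (x i0) = 1 := by unfold ic; rw [if_pos hh]
    rw [h1, one_mul]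
    unfold V
    rw [← Finset.sum_sub_distrib]
    rw [Finset.sum_eq_single j]
    · rw [← sub_mul]
      congr 1
      obtain ⟨hr0, hr1⟩ := rk_range (g := g) (i1 := i1) hn hx hh
      obtain ⟨hc0, hc1⟩ := cz_range (m := M) (hx i1)
      have hP : (0:ℤ) < 2 ^ M := by positivity
      have hrk : rk g L j i0 i1 x = cz (1 + g * j) (x i0) * 2 ^ M + cz M (x i1) := rfl
      have hs2 : (s : ℤ) = (s / 2 ^ M : ℕ) * 2 ^ M + (s % 2 ^ M : ℕ) := by
        have := Nat.div_add_mod' s (2 ^ M)
        exact_mod_cast this.symm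
      have hm1 : ((s % 2 ^ M : ℕ) : ℤ) < 2 ^ M := by
        have := Nat.mod_lt s (by positivity : 0 < 2 ^ M)
        exact_mod_cast this
      have hm0 : (0:ℤ) ≤ ((s % 2 ^ M : ℕ) : ℤ) := by positivity
      have hiff : rk g L j i0 i1 x = s ↔
          (cz (1 + g * j) (x i0) = ((s / 2 ^ M : ℕ) : ℤ) ∧ cz M (x i1) = ((s % 2 ^ M : ℕ) : ℤ)) := by
        rw [hrk]
        constructor
        · intro h
          rw [hs2] at h
          have e1 : cz (1 + g * j) (x i0) = ((s / 2 ^ M : ℕ) : ℤ) := by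
            by_contra hne
            rcases lt_or_gt_of_ne hne with h3 | h3
            · have : (cz (1 + g * j) (x i0) + 1) * 2 ^ M ≤ ((s / 2 ^ M : ℕ) : ℤ) * 2 ^ M :=
                mul_le_mul_of_nonneg_right (by omega) hP.le
              linarith
            · have : (((s / 2 ^ M : ℕ) : ℤ) + 1) * 2 ^ M ≤ cz (1 + g * j) (x i0) * 2 ^ M :=
                mul_le_mul_of_nonneg_right (by omega) hP.le
              linarith
          refine ⟨e1, ?_⟩
          rw [e1] at h; linarith
        · rintro ⟨e1, e2⟩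
          rw [e1, e2]; exact hs2.symm
      have hval : ic (1 + g * j) ((s / 2 ^ M : ℕ) : ℤ) (x i0) * ic M ((s % 2 ^ M : ℕ) : ℤ) (x i1) =
          if rk g L j i0 i1 x = s then 1 else 0 := by
        unfold ic
        by_cases h : rk g L j i0 i1 x = s
        · obtain ⟨e1, e2⟩ := hiff.mp h
          rw [if_pos e1, if_pos e2, if_pos h, mul_one]
        · rw [if_neg h]
          by_cases e1 : cz (1 + g * j) (x i0) = ((s / 2 ^ M : ℕ) : ℤ)
          · have e2 : ¬ cz M (x i1) = ((s % 2 ^ M : ℕ) : ℤ) := fun e2 => h (hiff.mpr ⟨e1, e2⟩)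
            rw [if_neg e2, mul_zero]
          · rw [if_neg e1, zero_mul]
      rw [hval]
      have hn1 : (n : ℤ) = j * 2 ^ (g * L) + s := by
        rw [← hQz]; exact_mod_cast hns
      have hn2 : ((n + 1 : ℕ) : ℤ) = j * 2 ^ (g * L) + s + 1 := by push_cast; rw [hn1]
      rw [hn2, hn1]
      by_cases h : rk g L j i0 i1 x = s
      · rw [if_pos h, if_pos (by linarith), if_neg (by linarith)]; norm_num
      · rw [if_neg h]
        rcases lt_or_gt_of_ne h with h3 | h3
        · rw [if_neg (by linarith), if_neg (by linarith)]; norm_num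
        · rw [if_pos (by linarith), if_pos (by linarith)]; norm_num
    · intro l hl hne
      rw [Finset.mem_range] at hl
      obtain ⟨hr0, hr1⟩ := rk_range (g := g) (i1 := i1) (by omega : l ≤ L) hx hh
      have hn1 : (n : ℤ) = j * 2 ^ (g * L) + s := by
        rw [← hQz]; exact_mod_cast hns
      have hn2 : ((n + 1 : ℕ) : ℤ) = j * 2 ^ (g * L) + s + 1 := by push_cast; rw [hn1]
      have hs1 : (s : ℤ) < 2 ^ (g * L) := by rw [← hQz]; exact_mod_cast hsQ
      have hs0 : (0:ℤ) ≤ s := by positivity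
      rw [hn2, hn1]
      rcases Nat.lt_or_gt_of_ne hne with h3 | h3
      · have h4 : ((l : ℤ) + 1) * 2 ^ (g * L) ≤ (j : ℤ) * 2 ^ (g * L) :=
          mul_le_mul_of_nonneg_right (by exact_mod_cast h3) (by positivity)
        rw [if_neg (by linarith), if_neg (by linarith)]; ring
      · have h4 : ((j : ℤ) + 1) * 2 ^ (g * L) ≤ (l : ℤ) * 2 ^ (g * L) :=
          mul_le_mul_of_nonneg_right (by exact_mod_cast h3) (by positivity)
        rw [if_pos (by linarith), if_pos (by linarith)]; ring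
    · intro h
      exfalso; apply h; rw [Finset.mem_range]; omega
  · have h1 : ic 1 0 (x i0) = 0 := by unfold ic; rw [if_neg hh]
    rw [h1, zero_mul]
    have h2 : ic (1 + g * j) ((s / 2 ^ M : ℕ) : ℤ) (x i0) = 0 := by
      unfold ic
      rw [if_neg]
      intro h3
      apply hh
      rw [cz_add 1 (g * j), h3]
      have h4 := KS_lt hn
      rw [← hj, ← hs, ← hM] at h4
      apply Int.ediv_eq_zero_of_lt (by positivity)
      exact_mod_cast h4
    rw [h2]; ring

end blocks

end Pool.Agent.Helper415.HB
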