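import Mathlib
import Pool.Agent.Helper415.HB8

/-! Pairings of the residual functions, norms. -/

set_option autoImplicit false

open MeasureTheory Finset

namespace Pool.Agent.Helper415.HB

open Pool.Agent.Helper415 Pool.Agent.Helper415.HA

section blocks

variable {d : ℕ} {i0 i1 : Fin d}

lemma bu_zero_of_half {ν : ℕ} (hν : 1 ≤ ν) {c : ℤ} (hc : 2 ^ (ν - 1) ≤ c) {a : ℝ} (h : cz 1 a = 0) :
    bu ν c a = 0 := by
  unfold bu
  rw [if_neg]
  intro hcon
  have e := cz_le hν a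
  rw [h] at e
  have h2 : (0:ℤ) < 2 ^ (ν - 1) := by positivity
  have := Int.ediv_le_ediv h2 (hc.trans hcon)
  rw [Int.ediv_self h2.ne', ← e] at this
  omega

lemma Phi_bdd_ae {p : ℝ} (hp : 1 < p) {f : (Fin d → ℝ) → ℝ} (hf : Measurable f) {B : ℝ}
    (hB : ∀ x, |f x| ≤ B) (K : Fin d → Ix) :
    Integrable (fun x => Phi p (f x) * HH p K x) (μd d) :=
  (integrable_HH p K).bdd_mul ((Phi_cont hp).measurable.comp hf).aestronglyMeasurable
    (Filter.Eventually.of_forall (fun x => by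
      rw [Real.norm_eq_abs]; exact Phi_abs_le hp (hB x)))

variable {g L j₀ : ℕ} {w : ℝ → ℝ → ℝ}

/-- The residual function. -/
noncomputable def RF (g L : ℕ) (i0 i1 : Fin d) (j₀ : ℕ) (w : ℝ → ℝ → ℝ) (A : ℝ) (ν : ℕ) (c : ℤ)
    (x : Fin d → ℝ) : ℝ :=
  ic 1 0 (x i0) * SW g L i0 i1 j₀ w x + A * (bu ν c (x i0) * sg ν (x i0))

lemma pair_RF {p : ℝ} (hp : 1 < p) (hw : WOK g L j₀ w) {A : ℝ} {ν : ℕ} (hν : 1 ≤ ν)
    {c : ℤ} (hc : 2 ^ (ν - 1) ≤ c) (K : Fin d → Ix) :
    ∫ x, Phi p (RF g L i0 i1 j₀ w A ν c x) * HH p K x ∂(μd d) =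
      SP p g L i0 i1 j₀ w K + BP p A ν c i0 K := by
  have e1 : ∀ x, Phi p (RF g L i0 i1 j₀ w A ν c x) * HH p K x =
      ic 1 0 (x i0) * Phi p (SW g L i0 i1 j₀ w x) * HH p K x +
      Phi p (A * (bu ν c (x i0) * sg ν (x i0))) * HH p K x := by
    intro x
    rw [← add_mul]
    congr 1
    unfold RF
    by_cases h : cz 1 (x i0) = 0
    · rw [bu_zero_of_half hν hc h, zero_mul, mul_zero, add_zero, Phi_zero, add_zero]
      unfold ic; rw [if_pos h, one_mul, one_mul]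
    · unfold ic; rw [if_neg h, zero_mul, zero_mul, zero_add, zero_add]
  simp_rw [e1]
  have i1' : Integrable (fun x => ic 1 0 (x i0) * Phi p (SW g L i0 i1 j₀ w x) * HH p K x) (μd d) := by
    apply (integrable_HH p K).bdd_mul (c := ((L : ℝ) + 1) ^ (p - 1))
    · exact (((meas_ic 1 0).comp (measurable_pi_apply i0)).mul
        ((Phi_cont hp).measurable.comp (meas_SW hw))).aestronglyMeasurable
    · refine Filter.Eventually.of_forall (fun x => ?_)
      rw [Real.norm_eq_abs, abs_mul, abs_of_nonneg (ic_nonneg _ _ _)]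
      have h2 := Phi_abs_le hp (SW_abs_le (i0 := i0) (i1 := i1) hw x)
      calc ic 1 0 (x i0) * |Phi p (SW g L i0 i1 j₀ w x)| ≤ 1 * ((L : ℝ) + 1) ^ (p - 1) :=
            mul_le_mul (ic_le _ _ _) h2 (abs_nonneg _) zero_le_one
        _ = _ := one_mul _
  have i2' : Integrable (fun x => Phi p (A * (bu ν c (x i0) * sg ν (x i0))) * HH p K x) (μd d) := by
    apply Phi_bdd_ae hp (B := |A|)
    · exact (((meas_bu ν c).comp (measurable_pi_apply i0)).mul
        ((meas_sg ν).comp (measurable_pi_apply i0))).const_mul A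
    · intro x
      rw [abs_mul, abs_mul, sg_abs, mul_one]
      apply mul_le_of_le_one_right (abs_nonneg _)
      rcases bu_or ν c (x i0) with h | h <;> rw [h] <;> simp
  rw [integral_add i1' i2']
  rfl

/-- Orthogonality to the removed elements. -/
lemma SP_orth {p : ℝ} (hg : 0 < g) (h01 : i0 ≠ i1) {n j : ℕ} (hn : n / 2 ^ (g * L) ≤ L) (hjn : j < n) :
    SP p g L i0 i1 (n / 2 ^ (g * L)) (wt g L (n / 2 ^ (g * L)) (n % 2 ^ (g * L))) (KS g L i0 i1 j) = 0 := by
  have hw := WOK_wt g L (n / 2 ^ (g * L)) (n % 2 ^ (g * L))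
  have hle : j / 2 ^ (g * L) ≤ n / 2 ^ (g * L) := Nat.div_le_div_right hjn.le
  rcases hle.lt_or_eq with h | h
  · apply SP_zero2 hg h01 hw
    intro a k hK
    rw [KS_0] at hK
    simp only [Option.some.injEq, Prod.mk.injEq] at hK
    rw [← hK.1]
    have := Nat.mul_lt_mul_of_pos_left h hg
    omega
  · set Q := 2 ^ (g * L) with hQ
    have hs : j % Q < n % Q := by
      have h1 := Nat.div_add_mod j Q
      have h2 := Nat.div_add_mod n Q
      rw [h] at h1
      omega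
    set j₁ := n / Q with hj₁
    set M := g * (L - j₁) with hM
    unfold SP
    apply zero_of_flip i0 (1 + g * j₁)
    intro x
    have hK0 : KS g L i0 i1 j i0 = some (1 + g * j₁, (j % Q) / 2 ^ M) := by
      rw [KS_0, ← hQ, h]
    have hK1 : KS g L i0 i1 j i1 = some (M, (j % Q) % 2 ^ M) := by
      rw [KS_1 h01, ← hQ, h]
    rw [E_self, ic_fl (by omega), HH_E_self p hK0]
    by_cases hR : cz (1 + g * j₁) (x i0) = ((j % Q / 2 ^ M : ℕ) : ℤ) ∧
        cz M (x i1) = ((j % Q % 2 ^ M : ℕ) : ℤ)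
    · have hw0 : wt g L j₁ (n % Q) (x i0) (x i1) = 0 := by
        unfold wt
        rw [← hM, hR.1, hR.2, if_neg]
        have h3 := Nat.div_add_mod' (j % Q) (2 ^ M)
        have h4 : ((j % Q / 2 ^ M : ℕ) : ℤ) * 2 ^ M + ((j % Q % 2 ^ M : ℕ) : ℤ) = ((j % Q : ℕ) : ℤ) := by
          exact_mod_cast h3
        rw [h4]
        have : ((j % Q : ℕ) : ℤ) < ((n % Q : ℕ) : ℤ) := by exact_mod_cast hs
        omega
      have hS : SW g L i0 i1 j₁ (wt g L j₁ (n % Q)) (E i0 (1 + g * j₁) x) =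
          SW g L i0 i1 j₁ (wt g L j₁ (n % Q)) x := by
        rw [SW_split hn, SW_split hn]
        rw [E_self, E_ne h01.symm, hw.inv0 _ le_rfl, hw0, zero_mul, zero_mul]
        congr 1
        apply Finset.sum_congr rfl
        intro l hl
        exact XX_E0_ne h01 (lev0_ne hg (Finset.mem_Ioc.mp hl).1.ne') x
      rw [hS]; ring
    · have h0 : HH p (KS g L i0 i1 j) x = 0 := by
        rw [HH_two h01 p (fun j' h0 h1 => KS_j g L j h0 h1), hK0, hK1]
        simp only [hz]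
        unfold ic
        by_cases h1 : cz (1 + g * j₁) (x i0) = ((j % Q / 2 ^ M : ℕ) : ℤ)
        · rw [if_neg (fun h2 => hR ⟨h1, h2⟩ : ¬ cz M (x i1) = ((j % Q % 2 ^ M : ℕ) : ℤ))]; ring
        · rw [if_neg h1]; ring
      rw [h0]; ring

/-- The dual coefficient of the next element. -/
lemma SP_pick {p : ℝ} (hp : 1 < p) (hg : 0 < g) (h01 : i0 ≠ i1) {n : ℕ} (hn : n / 2 ^ (g * L) ≤ L) :
    SP p g L i0 i1 (n / 2 ^ (g * L)) (wt g L (n / 2 ^ (g * L)) (n % 2 ^ (g * L))) (KS g L i0 i1 n) =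
      bet p ^ (1 + g * L) * DD p (L - n / 2 ^ (g * L)) := by
  have hw := WOK_wt g L (n / 2 ^ (g * L)) (n % 2 ^ (g * L))
  set Q := 2 ^ (g * L) with hQ
  set j₁ := n / Q with hj₁
  set M := g * (L - j₁) with hM
  have hK0 : KS g L i0 i1 n i0 = some (1 + g * j₁, (n % Q) / 2 ^ M) := by
    rw [KS_0]
  have hK1 : KS g L i0 i1 n i1 = some (M, (n % Q) % 2 ^ M) := by
    rw [KS_1 h01]
  rw [OWN hp hg h01 hw le_rfl hn hK0 hK1 (fun j h0 h1 => KS_j g L n h0 h1)]
  · rw [int_W_eq h01 (KS_lt hn) (Nat.mod_lt _ (by positivity))]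
    rw [← lev_mul hn, pow_add (bet p), ← hb_half, ← hb_half]
    ring
  · intro a b ha hb'
    unfold wt
    rw [ha]
    rw [← hM] at hb' ⊢
    rw [hb', if_pos]
    have h3 := Nat.div_add_mod' (n % Q) (2 ^ M)
    have h4 : ((n % Q / 2 ^ M : ℕ) : ℤ) * 2 ^ M + ((n % Q % 2 ^ M : ℕ) : ℤ) = ((n % Q : ℕ) : ℤ) := by
      exact_mod_cast h3
    rw [h4]

lemma SP_K0 {p : ℝ} {ν k : ℕ} (hν : 1 ≤ ν) (hk : 2 ^ (ν - 1) ≤ k) :
    SP p g L i0 i1 j₀ w (K0 i0 ν k) = 0 := by
  unfold SP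
  rw [← integral_zero (α := Fin d → ℝ) (G := ℝ) (μ := μd d)]
  congr 1; funext x
  rw [HH_K0]
  simp only [hz]
  by_cases h : cz ν (x i0) = k
  · have h1 : ic 1 0 (x i0) = 0 := by
      unfold ic
      rw [if_neg]
      intro h2
      have e := cz_le hν (x i0)
      rw [h2, h] at e
      have h3 : (0:ℤ) < 2 ^ (ν - 1) := by positivity
      have h4 : (2:ℤ) ^ (ν - 1) ≤ k := by exact_mod_cast hk
      have := Int.ediv_le_ediv h3 h4
      rw [Int.ediv_self h3.ne', ← e] at this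
      omega
    rw [h1]; ring
  · have h1 : ic ν (k : ℤ) (x i0) = 0 := by unfold ic; rw [if_neg h]
    rw [h1]; ring

lemma BP_K0_zero {p : ℝ} {A : ℝ} {ν k : ℕ} {c : ℤ} (hk : (k : ℤ) < c) :
    BP p A ν c i0 (K0 i0 ν k) = 0 := by
  unfold BP
  rw [← integral_zero (α := Fin d → ℝ) (G := ℝ) (μ := μd d)]
  congr 1; funext x
  rw [HH_K0]
  simp only [hz]
  by_cases h : cz ν (x i0) = k
  · have h1 : bu ν c (x i0) = 0 := by unfold bu; rw [if_neg (by rw [h]; omega)]
    rw [h1, zero_mul, mul_zero, Phi_zero, zero_mul]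
  · have h1 : ic ν (k : ℤ) (x i0) = 0 := by unfold ic; rw [if_neg h]
    rw [h1]; ring

lemma bu_diff (p A : ℝ) (ν n : ℕ) (x : Fin d → ℝ) :
    A * (bu ν ((n : ℕ) : ℤ) (x i0) * sg ν (x i0)) - A * (bu ν ((n + 1 : ℕ) : ℤ) (x i0) * sg ν (x i0)) =
      (A * (hb p ^ ν)⁻¹) * HH p (K0 i0 ν n) x := by
  have hbp : 0 < hb p ^ ν := pow_pos (hb_pos p) _
  rw [HH_K0]
  simp only [hz]
  have h1 : bu ν ((n : ℕ) : ℤ) (x i0) - bu ν ((n + 1 : ℕ) : ℤ) (x i0) = ic ν n (x i0) := by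
    unfold bu ic
    push_cast
    rcases lt_trichotomy (cz ν (x i0)) (n : ℤ) with h | h | h
    · rw [if_neg (by omega), if_neg (by omega), if_neg (by omega)]; norm_num
    · rw [if_pos (by omega), if_neg (by omega), if_pos h]; norm_num
    · rw [if_pos (by omega), if_pos (by omega), if_neg (by omega)]; norm_num
  rw [← h1]
  field_simp

lemma bu_last {ν : ℕ} {a : ℝ} (ha : cz 0 a = 0) : bu ν ((2 ^ ν : ℕ) : ℤ) a = 0 := by
  unfold bu
  rw [if_neg]
  have := (cz_range (m := ν) ha).2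
  push_cast
  omega

lemma bu_first {ν : ℕ} (hν : 1 ≤ ν) {a : ℝ} (ha : cz 0 a = 0) :
    bu ν ((2 ^ (ν - 1) : ℕ) : ℤ) a = 1 - ic 1 0 a := by
  by_cases h : cz 1 a = 0
  · rw [bu_zero_of_half hν (by push_cast; exact le_rfl) h]
    unfold ic; rw [if_pos h]; ring
  · have h1 := (cz_range (m := 1) ha)
    have h2 : cz 1 a = 1 := by
      have := h1.1; have := h1.2; omega
    have e := cz_le hν a
    rw [h2] at e
    unfold bu ic
    rw [if_neg h, if_pos]
    · ring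
    · push_cast
      by_contra hcon
      push Not at hcon
      have h3 := Int.ediv_lt_of_lt_mul (by positivity : (0:ℤ) < 2 ^ (ν - 1))
        (by rw [one_mul]; exact hcon : cz ν a < 1 * 2 ^ (ν - 1))
      omega

lemma int_half : ∫ x : Fin d → ℝ, ic 1 0 (x i0) ∂(μd d) = 1 / 2 := by
  have h := int_one (i0 := i0) (ic 1 0)
  rw [h]
  have := int_ic_eq (n := 1) (k := 0) (by norm_num)
  push_cast at this
  rw [this]; norm_num

/-- Norm of the full `S`. -/
lemma norm_S {p : ℝ} (hp : 0 < p) (hg : 0 < g) (h01 : i0 ≠ i1) :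
    ∫ x, |ic 1 0 (x i0) * SW g L i0 i1 0 (fun _ _ => 1) x| ^ p ∂(μd d) =
      EE (L + 1) (fun s => |s| ^ p) * (1 / 2) := by
  have hcont : Continuous (fun s : ℝ => |s| ^ p) :=
    continuous_abs.rpow_const (fun s => Or.inr hp.le)
  have iW : Integrable (fun x : Fin d → ℝ => ic 1 0 (x i0)) (μd d) := by
    apply integrable_bdd ((meas_ic 1 0).comp (measurable_pi_apply i0)) (C := 1)
    intro x
    rw [Function.comp, abs_of_nonneg (ic_nonneg _ _ _)]; exact ic_le _ _ _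
  have hdist := dist (μ := μd d) (Icc 0 L) (XX g L i0 i1) (fun l => E i0 (1 + g * l))
    (fun l _ => E_mp _ _) (fun l _ x => XX_or g L i0 i1 l x) (fun l _ => meas_XX g L i0 i1 l)
    (fun l _ x => XX_E0_self h01 l x) (fun l _ l' _ hne x => XX_E0_ne h01 (lev0_ne hg hne) x)
    (W := fun x => ic 1 0 (x i0)) iW (fun l _ x => by rw [E_self, ic_fl (by omega)])
    (h := fun s => |s| ^ p) hcont
  rw [Nat.card_Icc, Nat.sub_zero, int_half] at hdist
  rw [← hdist]
  congr 1; funext x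
  have h1 : SW g L i0 i1 0 (fun _ _ => 1) x = ∑ l ∈ Icc 0 L, XX g L i0 i1 l x := by
    unfold SW
    apply Finset.sum_congr rfl
    intro l _
    unfold cw; simp
  rw [h1, abs_mul, Real.mul_rpow (abs_nonneg _) (abs_nonneg _), abs_of_nonneg (ic_nonneg _ _ _)]
  congr 1
  rcases ic_or 1 0 (x i0) with h | h
  · rw [h, Real.zero_rpow hp.ne']
  · rw [h, Real.one_rpow]

/-- Norm of the block. -/
lemma norm_B {p : ℝ} (hp : 0 < p) {A : ℝ} (hA : 0 ≤ A) {ν : ℕ} (hν : 1 ≤ ν) :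
    ∫ x : Fin d → ℝ, |A * (bu ν ((2 ^ (ν - 1) : ℕ) : ℤ) (x i0) * sg ν (x i0))| ^ p ∂(μd d) =
      A ^ p * (1 / 2) := by
  have h1 := int_one (i0 := i0) (fun a => |A * (bu ν ((2 ^ (ν - 1) : ℕ) : ℤ) a * sg ν a)| ^ p)
  rw [h1]
  have h2 : ∀ᵐ a ∂μ1, |A * (bu ν ((2 ^ (ν - 1) : ℕ) : ℤ) a * sg ν a)| ^ p =
      A ^ p * (1 - ic 1 0 a) := by
    unfold μ1
    rw [ae_restrict_iff' measurableSet_Ico]
    refine Filter.Eventually.of_forall (fun a ha => ?_)
    have ha' := (mem_Ico_iff a).mp ha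
    rw [bu_first hν ha', abs_mul, abs_mul, sg_abs, mul_one, abs_of_nonneg hA,
      Real.mul_rpow hA (abs_nonneg _)]
    congr 1
    rcases ic_or 1 0 a with h | h
    · rw [h]; simp
    · rw [h]; simp [Real.zero_rpow hp.ne']
  rw [integral_congr_ae h2, integral_const_mul]
  congr 1
  have i1' : Integrable (ic 1 0) μ1 := by
    refine (integrable_const (1:ℝ)).mono' (meas_ic _ _).aestronglyMeasurable
      (Filter.Eventually.of_forall (fun x => ?_))
    rw [Real.norm_eq_abs, abs_of_nonneg (ic_nonneg _ _ _)]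
    exact ic_le _ _ _
  rw [integral_sub (integrable_const _) i1', integral_const]
  have := int_ic_eq (n := 1) (k := 0) (by norm_num)
  push_cast at this
  rw [this]
  simp
  norm_num

lemma μd_eq : μd d = volume.restrict (Set.univ.pi fun _ => Set.Ico (0:ℝ) 1) := by
  unfold μd μ1
  rw [volume_pi, Measure.restrict_pi_pi]

lemma Dom_ae : ∀ᵐ x ∂(μd d), Dom x := by
  rw [μd_eq]
  have h := ae_restrict_mem (μ := (volume : Measure (Fin d → ℝ)))
    (MeasurableSet.univ_pi (t := fun _ : Fin d => Set.Ico (0:ℝ) 1) (fun _ => measurableSet_Ico))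
  filter_upwards [h] with x hx i
  exact (mem_Ico_iff _).mp (hx i (Set.mem_univ i))

end blocks

end Pool.Agent.Helper415.HB
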