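import Mathlib
import Pool.Agent.Helper415.HaarDefs

/-!
The multivariate Haar system normalized in `L_p([0,1]^d)`.
-/

set_option autoImplicit false

open MeasureTheory
open scoped ENNReal

namespace Pool.Agent.Helper415.HaarD

open Pool.Agent.Helper415.TG

/-- The `d`-variate Haar system normalized in `L_q`: all products `h_1(x_1) ⋯ h_d(x_d)` with
`h_1, …, h_d` in the univariate Haar system normalized in `L_q`. -/
def haarSystemMulti (d : ℕ) (q : ℝ) : Set ((Fin d → ℝ) → ℝ) :=
  {f | ∃ h : Fin d → ℝ → ℝ, (∀ j, h j ∈ haarSystem q) ∧ f = fun x => ∏ j, h j (x j)}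

/-- Lebesgue measure on the cube `[0,1]^d`. -/
noncomputable def cube (d : ℕ) : Measure (Fin d → ℝ) :=
  volume.restrict (Set.univ.pi fun _ => Set.Icc (0 : ℝ) 1)

/-- The multivariate Haar basis `𝓗_p^d` of `L_p([0,1]^d)`, normalized in `L_p`. -/
def HaarMulti (d : ℕ) (p : ℝ≥0∞) [Fact (1 ≤ p)] : Set (Lp ℝ p (cube d)) :=
  classes (cube d) p (haarSystemMulti d p.toReal)

end Pool.Agent.Helper415.HaarD
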