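import Mathlib
import Pool.Agent.Helper415.HB9
import Pool.Agent.Helper415.TG2
import Pool.Agent.Helper415.TG4
import Pool.Agent.Helper415.HaarDefsMulti

/-! General lemmas in `L_p`. -/

set_option autoImplicit false

open MeasureTheory Filter Topology
open scoped ENNReal

namespace Pool.Agent.Helper415.HB

open Pool.Agent.Helper415 Pool.Agent.Helper415.HA Pool.Agent.Helper415.TG Pool.Agent.Helper415.HaarD

section abs

variable {V : Type} [NormedAddCommGroup V] [NormedSpace ℝ V]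

lemma not_ag_of {F : V → V → ℝ} {D : Set V} {t : ℝ} (ht0 : 0 < t) (ht1 : t < 1) (hne : D.Nonempty)
    (hB : ∀ f, BddAbove ((fun g => |F f g|) '' D))
    (H : ∀ C₁ C₂ : ℝ, 1 ≤ C₁ → 0 < C₂ → ∃ (m : ℕ) (r φ : ℕ → V), 1 ≤ m ∧
      (∀ k < ⌈C₁ * m⌉₊, Step F D t (r 0) φ r k) ∧ C₂ * sigma D m (r 0) < ‖r ⌈C₁ * m⌉₊‖) :
    ¬ AlmostGreedyBasis F D := by
  intro h
  obtain ⟨C₁, C₂, h1, h2, hmain⟩ := h t ht0 ht1.le
  obtain ⟨m, r, φ, hm, hs, hlt⟩ := H C₁ C₂ h1 h2
  obtain ⟨φ', r', hI, _, hr⟩ := extend_run ht1 hne hB φ r ⌈C₁ * m⌉₊ rfl hs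
  have h3 := hmain _ φ' r' hI m hm
  rw [hr _ le_rfl] at h3
  linarith

lemma sigma_le_telescope {D : Set V} (B : V) (m : ℕ) (e : ℕ → V) (c : ℝ) (φ : ℕ → V)
    (hφ : ∀ n < m, φ n ∈ D) (hd : ∀ n < m, e n - e (n + 1) = c • φ n) (hlast : e m = 0) :
    sigma D m (e 0 + B) ≤ ‖B‖ := by
  unfold sigma
  apply csInf_le
  · refine ⟨0, ?_⟩
    rintro x ⟨_, _, _, rfl⟩
    exact norm_nonneg _
  · refine ⟨fun i => φ i, fun _ => c, fun i => hφ i i.2, ?_⟩
    congr 1
    have h1 : ∑ i : Fin m, c • φ i = e 0 := by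
      rw [Fin.sum_univ_eq_sum_range (fun n => c • φ n) m]
      rw [Finset.sum_congr rfl (fun n hn => (hd n (Finset.mem_range.mp hn)).symm)]
      rw [Finset.sum_range_sub', hlast, sub_zero]
    rw [h1]; abel

end abs

section gen

variable {X : Type} [MeasurableSpace X] {μ : Measure X} [IsFiniteMeasure μ] {p : ℝ≥0∞} [Fact (1 ≤ p)]

/-- A partial run from residuals and picks. -/
lemma partial_run_gen (hp0 : p ≠ 0) (hptop : p ≠ ⊤) (hP : 1 < p.toReal) {D : Set (Lp ℝ p μ)} {t : ℝ}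
    (K : ℕ) (r φ : ℕ → Lp ℝ p μ) (hb : ∀ k ≤ K, ∃ B, ∀ᵐ x ∂μ, |r k x| ≤ B)
    (hφ : ∀ k < K, φ k ∈ D) (hdiff : ∀ k < K, ∃ c : ℝ, r k - r (k + 1) = c • φ k)
    (horth : ∀ k ≤ K, ∀ j < k, pairing μ p.toReal (r k) (φ j) = 0)
    (hsel : ∀ k < K, ∀ g ∈ D, t * |pairing μ p.toReal (r k) g| ≤ |pairing μ p.toReal (r k) (φ k)|) :
    ∀ k < K, Step normingF D t (r 0) φ r k := by
  have hmem : ∀ k ≤ K, r 0 - r k ∈ Submodule.span ℝ (φ '' Set.Iio k) := by
    intro k
    induction k with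
    | zero => intro _; simp
    | succ k ih =>
      intro hk
      have h1 := ih (by omega)
      obtain ⟨c, hc⟩ := hdiff k (by omega)
      have h2 : r 0 - r (k + 1) = (r 0 - r k) + (r k - r (k + 1)) := by abel
      rw [h2, hc]
      apply Submodule.add_mem
      · exact Submodule.span_mono (Set.image_mono (Set.Iio_subset_Iio (Nat.le_succ k))) h1
      · exact Submodule.smul_mem _ _ (Submodule.subset_span ⟨k, Nat.lt_succ_self k, rfl⟩)
  have hbest : ∀ k < K, ∀ h ∈ Submodule.span ℝ (φ '' Set.Iio (k + 1)), ‖r (k + 1)‖ ≤ ‖r 0 - h‖ := by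
    intro k hk h hh
    have h1 : r 0 - h = r (k + 1) + ((r 0 - r (k + 1)) - h) := by abel
    rw [h1]
    obtain ⟨B, hB⟩ := hb (k + 1) hk
    apply norm_le_of_pairing hP.le hp0 hptop _ _ (int_pair hP _ _ B hB)
    apply pairing_span hP _ B hB (φ '' Set.Iio (k + 1)) _ _ (Submodule.sub_mem _ (hmem (k + 1) hk) hh)
    rintro _ ⟨j, hj, rfl⟩
    exact horth (k + 1) hk j hj
  intro k hk
  refine ⟨fun h0 => ?_, fun hne => ⟨⟨hφ k hk, ?_⟩, r 0 - r (k + 1), ⟨hmem (k + 1) hk, ?_⟩, by abel⟩⟩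
  · have h1 := hbest k hk (r 0 - r k)
      (Submodule.span_mono (Set.image_mono (Set.Iio_subset_Iio (Nat.le_succ k))) (hmem k hk.le))
    rw [sub_sub_cancel, h0, norm_zero] at h1
    exact norm_le_zero_iff.mp h1
  · intro g hg
    unfold normingF
    rw [abs_mul, abs_mul, abs_of_nonneg (by positivity : 0 ≤ ‖r k‖ ^ (1 - p.toReal))]
    have h1 := hsel k hk g hg
    have h2 : 0 ≤ ‖r k‖ ^ (1 - p.toReal) := by positivity
    have h3 := mul_le_mul_of_nonneg_left h1 h2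
    linarith
  · intro h hh
    rw [sub_sub_cancel]
    exact hbest k hk h hh

omit [IsFiniteMeasure μ] in
/-- The functionals are bounded on bounded sets. -/
lemma bdd_of (hp0 : p ≠ 0) (hptop : p ≠ ⊤) (hP : 1 < p.toReal) {D : Set (Lp ℝ p μ)} {R : ℝ}
    (hD : ∀ g ∈ D, ∫ x, |g x| ^ p.toReal ∂μ ≤ R) (f : Lp ℝ p μ) :
    BddAbove ((fun g => |normingF f g|) '' D) := by
  have hint : ∀ g : Lp ℝ p μ, Integrable (fun x => |g x| ^ p.toReal) μ := by
    intro g
    have h1 := (Lp.memLp g).integrable_norm_rpow hp0 hptop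
    simpa [Real.norm_eq_abs] using h1
  refine ⟨‖f‖ ^ (1 - p.toReal) * (∫ x, |f x| ^ p.toReal ∂μ + R), ?_⟩
  rintro _ ⟨g, hg, rfl⟩
  show |normingF f g| ≤ _
  unfold normingF pairing
  rw [abs_mul, abs_of_nonneg (by positivity)]
  apply mul_le_mul_of_nonneg_left _ (by positivity)
  refine (abs_integral_le_integral_abs).trans ?_
  have h1 : ∫ x, |(|f x| ^ (p.toReal - 2) * f x * g x)| ∂μ ≤
      ∫ x, (|f x| ^ p.toReal + |g x| ^ p.toReal) ∂μ := by
    apply integral_mono_of_nonneg (Eventually.of_forall (fun x => abs_nonneg _))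
      ((hint f).add (hint g))
    refine Eventually.of_forall (fun x => ?_)
    show |(|f x| ^ (p.toReal - 2) * f x * g x)| ≤ |f x| ^ p.toReal + |g x| ^ p.toReal
    rw [abs_mul]
    have e1 : |(|f x| ^ (p.toReal - 2) * f x)| = |f x| ^ (p.toReal - 1) := Phi_abs hP (f x)
    rw [e1]
    have hf := abs_nonneg (f x)
    have hg' := abs_nonneg (g x)
    rcases le_total |f x| |g x| with h | h
    · have h2 := Real.rpow_le_rpow hf h (by linarith : 0 ≤ p.toReal - 1)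
      have h3 := mul_le_mul_of_nonneg_right h2 hg'
      have h4 : |g x| ^ (p.toReal - 1) * |g x| = |g x| ^ p.toReal := by
        rcases hg'.eq_or_lt with h0 | h0
        · rw [← h0, mul_zero, Real.zero_rpow (by linarith)]
        · rw [← Real.rpow_add_one h0.ne']; ring_nf
      rw [h4] at h3
      have : 0 ≤ |f x| ^ p.toReal := by positivity
      linarith
    · have h3 := mul_le_mul_of_nonneg_left h (by positivity : 0 ≤ |f x| ^ (p.toReal - 1))
      have h4 : |f x| ^ (p.toReal - 1) * |f x| = |f x| ^ p.toReal := by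
        rcases hf.eq_or_lt with h0 | h0
        · rw [← h0, mul_zero, Real.zero_rpow (by linarith)]
        · rw [← Real.rpow_add_one h0.ne']; ring_nf
      rw [h4] at h3
      have : 0 ≤ |g x| ^ p.toReal := by positivity
      linarith
  rw [integral_add (hint f) (hint g)] at h1
  have := hD g hg
  linarith

open Classical in
/-- The element of `L_p` given by a function. -/
noncomputable def toL (μ : Measure X) (p : ℝ≥0∞) (f : X → ℝ) : Lp ℝ p μ :=
  if h : MemLp f p μ then h.toLp f else 0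

omit [IsFiniteMeasure μ] [Fact (1 ≤ p)] in
lemma toL_coe {f : X → ℝ} (h : MemLp f p μ) : (toL μ p f : X → ℝ) =ᵐ[μ] f := by
  unfold toL; rw [dif_pos h]; exact h.coeFn_toLp

omit [Fact (1 ≤ p)] in
lemma memLp_bdd {f : X → ℝ} (hm : Measurable f) {C : ℝ} (h : ∀ x, |f x| ≤ C) : MemLp f p μ :=
  MemLp.of_bound hm.aestronglyMeasurable C (Eventually.of_forall h)

omit [IsFiniteMeasure μ] [Fact (1 ≤ p)] in
lemma toL_diff {f g h : X → ℝ} (hf : MemLp f p μ) (hg : MemLp g p μ) (hh : MemLp h p μ) (c : ℝ)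
    (he : ∀ᵐ x ∂μ, f x - g x = c * h x) : toL μ p f - toL μ p g = c • toL μ p h := by
  apply Lp.ext
  filter_upwards [Lp.coeFn_sub (toL μ p f) (toL μ p g), Lp.coeFn_smul c (toL μ p h), toL_coe hf,
    toL_coe hg, toL_coe hh, he] with x h1 h2 h3 h4 h5 h6
  rw [h1, h2, Pi.sub_apply, Pi.smul_apply, h3, h4, h5, smul_eq_mul]; exact h6

omit [IsFiniteMeasure μ] [Fact (1 ≤ p)] in
lemma toL_add {f g h : X → ℝ} (hf : MemLp f p μ) (hg : MemLp g p μ) (hh : MemLp h p μ)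
    (he : ∀ᵐ x ∂μ, f x = g x + h x) : toL μ p f = toL μ p g + toL μ p h := by
  apply Lp.ext
  filter_upwards [Lp.coeFn_add (toL μ p g) (toL μ p h), toL_coe hf, toL_coe hg, toL_coe hh, he]
    with x h1 h3 h4 h5 h6
  rw [h1, Pi.add_apply, h3, h4, h5]; exact h6

omit [IsFiniteMeasure μ] [Fact (1 ≤ p)] in
lemma toL_zero {f : X → ℝ} (hf : MemLp f p μ) (he : ∀ᵐ x ∂μ, f x = 0) : toL μ p f = 0 := by
  apply Lp.ext
  filter_upwards [Lp.coeFn_zero ℝ p μ, toL_coe hf, he] with x h1 h2 h3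
  rw [h1, h2, h3]; rfl

omit [IsFiniteMeasure μ] in
lemma toL_norm (hp0 : p ≠ 0) (hptop : p ≠ ⊤) {f : X → ℝ} (hf : MemLp f p μ) :
    ‖toL μ p f‖ = (∫ x, |f x| ^ p.toReal ∂μ) ^ (1 / p.toReal) :=
  norm_eq hp0 hptop _ _ (toL_coe hf).symm

end gen

section haar

variable {d : ℕ} {p : ℝ≥0∞} [Fact (1 ≤ p)]

lemma dyadic_ic {n k : ℕ} (y : ℝ) : (dyadic n k).indicator (fun _ => (1:ℝ)) y = ic n k y := by
  have h2 : (0:ℝ) < 2 ^ n := by positivity
  have h : y ∈ dyadic n k ↔ cz n y = k := by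
    unfold dyadic cz
    rw [Int.floor_eq_iff, Set.mem_Ico, div_le_iff₀ h2, lt_div_iff₀ h2, mul_comm y]
    push_cast; rfl
  unfold ic Set.indicator
  simp only [h]

lemma ic_sg (n k : ℕ) (y : ℝ) :
    ic (n + 1) ((2 * k : ℕ) : ℤ) y - ic (n + 1) ((2 * k + 1 : ℕ) : ℤ) y = ic n k y * sg n y := by
  have e := cz_add n 1 y
  rw [pow_one] at e
  unfold ic sg
  rw [e]
  push_cast
  by_cases h1 : cz (n + 1) y = 2 * k
  · rw [if_pos h1, if_neg (by omega), if_pos (by omega), if_pos (by omega)]; norm_num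
  · by_cases h2 : cz (n + 1) y = 2 * k + 1
    · rw [if_neg h1, if_pos h2, if_pos (by omega), if_neg (by omega)]; norm_num
    · rw [if_neg h1, if_neg h2, if_neg (by omega)]; norm_num

lemma haarFn_hz (q : ℝ) (n k : ℕ) : haarFn q n k = hz q (some (n, k)) := by
  funext y
  unfold haarFn
  rw [dyadic_ic, dyadic_ic, ic_sg]
  simp only [hz]
  congr 1
  unfold hb
  rw [← Real.rpow_natCast, ← Real.rpow_natCast, ← Real.rpow_mul (by norm_num),
    ← Real.rpow_mul (by norm_num)]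
  congr 1; ring

/-- The dictionary over `μd`. -/
def DH (d : ℕ) (p : ℝ≥0∞) : Set (Lp ℝ p (μd d)) := classes (μd d) p (haarSystemMulti d p.toReal)

omit [Fact (1 ≤ p)] in
lemma DH_rep {g : Lp ℝ p (μd d)} (hg : g ∈ DH d p) :
    ∃ K : Fin d → Ix, (∀ j, Valid (K j)) ∧ g =ᵐ[μd d] HH p.toReal K := by
  obtain ⟨f, ⟨h, hh, rfl⟩, hgf⟩ := hg
  have : ∀ j, ∃ I : Ix, Valid I ∧ h j = hz p.toReal I := by
    intro j
    rcases hh j with h1 | ⟨n, k, hk, h1⟩
    · exact ⟨none, by unfold Valid cel lev; norm_num, h1⟩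
    · exact ⟨some (n, k), hk, by rw [h1, haarFn_hz]⟩
  choose K hK1 hK2 using this
  refine ⟨K, hK1, ?_⟩
  have e : (fun x => ∏ j, h j (x j)) = HH p.toReal K := by
    funext x; unfold HH; apply Finset.prod_congr rfl; intro j _; rw [hK2]
  rw [e] at hgf
  exact hgf

omit [Fact (1 ≤ p)] in
lemma HH_memLp (q : ℝ) (K : Fin d → Ix) : MemLp (HH q K) p (μd d) :=
  memLp_bdd (meas_HH q K) (HH_bdd q K)

omit [Fact (1 ≤ p)] in
lemma DH_mem {K : Fin d → Ix} (hK : ∀ j, Valid (K j)) : toL (μd d) p (HH p.toReal K) ∈ DH d p := by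
  refine ⟨HH p.toReal K, ⟨fun j => hz p.toReal (K j), ?_, rfl⟩, toL_coe (HH_memLp _ _)⟩
  intro j
  show hz p.toReal (K j) ∈ haarSystem p.toReal
  have h := hK j
  generalize K j = I at h ⊢
  cases I with
  | none => exact Or.inl rfl
  | some J => exact Or.inr ⟨J.1, J.2, h, (haarFn_hz _ _ _).symm⟩

lemma hz_pow {q : ℝ} (hq : 0 < q) (J : Ix) (y : ℝ) : |hz q J y| ^ q = 2 ^ lev J * icI J y := by
  rw [hz_abs, Real.mul_rpow (pow_nonneg (hb_pos q).le _) (icI_nonneg _ _)]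
  congr 1
  · unfold hb
    rw [← Real.rpow_natCast, ← Real.rpow_mul (by positivity), ← Real.rpow_mul (by positivity),
      ← Real.rpow_natCast]
    congr 1; field_simp
  · cases J with
    | none => simp [icI]
    | some J =>
      simp only [icI]
      rcases ic_or J.1 J.2 y with h | h
      · rw [h, Real.zero_rpow hq.ne']
      · rw [h, Real.one_rpow]

lemma int_HH_pow {q : ℝ} (hq : 0 < q) (K : Fin d → Ix) : ∫ x, |HH q K x| ^ q ∂(μd d) ≤ 1 := by
  have h1 : (fun x : Fin d → ℝ => |HH q K x| ^ q) = fun x => ∏ j, (fun j y => |hz q (K j) y| ^ q) j (x j) := by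
    funext x; unfold HH
    rw [Finset.abs_prod, Real.finsetProd_rpow _ _ (fun j _ => abs_nonneg _)]
  have h2 := int_prod (fun j y => |hz q (K j) y| ^ q)
  rw [h1, h2]
  apply Finset.prod_le_one
  · intro j _; exact integral_nonneg (fun y => by positivity)
  · intro j _
    simp_rw [hz_pow hq]
    rw [integral_const_mul]
    calc (2:ℝ) ^ lev (K j) * ∫ x, icI (K j) x ∂μ1 ≤ 2 ^ lev (K j) * (1 / 2) ^ lev (K j) :=
          mul_le_mul_of_nonneg_left (int_icI_le (K j)) (by positivity)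
      _ = 1 := by rw [← mul_pow]; norm_num

omit [Fact (1 ≤ p)] in
lemma DH_nonempty : (DH d p).Nonempty :=
  ⟨_, DH_mem (K := fun _ => none) (fun _ => by unfold Valid cel lev; norm_num)⟩

lemma DH_bdd (hp0 : p ≠ 0) (hptop : p ≠ ⊤) (hP : 1 < p.toReal) (f : Lp ℝ p (μd d)) :
    BddAbove ((fun g => |normingF f g|) '' DH d p) := by
  apply bdd_of hp0 hptop hP (R := 1)
  intro g hg
  obtain ⟨K, _, hK⟩ := DH_rep hg
  rw [integral_congr_ae (hK.mono (fun x hx => by show |g x| ^ p.toReal = |HH p.toReal K x| ^ p.toReal; rw [hx]))]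
  exact int_HH_pow (by linarith) K

omit [Fact (1 ≤ p)] in
lemma pairing_eq {f : Lp ℝ p (μd d)} {F : (Fin d → ℝ) → ℝ} (hF : f =ᵐ[μd d] F) {g : Lp ℝ p (μd d)}
    {K : Fin d → Ix} (hg : g =ᵐ[μd d] HH p.toReal K) :
    pairing (μd d) p.toReal f g = ∫ x, Phi p.toReal (F x) * HH p.toReal K x ∂(μd d) := by
  unfold pairing
  apply integral_congr_ae
  filter_upwards [hF, hg] with x h1 h2
  rw [h1, h2]; rfl

end haar

end Pool.Agent.Helper415.HB
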