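import Mathlib
import Pool.Agent.Helper415.HB10

/-! The elements of `L_p` used in the construction. -/

set_option autoImplicit false

open MeasureTheory Filter Topology
open scoped ENNReal

namespace Pool.Agent.Helper415.HB

open Pool.Agent.Helper415 Pool.Agent.Helper415.HA Pool.Agent.Helper415.TG Pool.Agent.Helper415.HaarD

section el

variable {d : ℕ} (p : ℝ≥0∞) (g L : ℕ) (i0 i1 : Fin d) (A : ℝ) (ν : ℕ)

noncomputable def fS (n : ℕ) (x : Fin d → ℝ) : ℝ := ic 1 0 (x i0) * V g L i0 i1 n x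

noncomputable def fB (n : ℕ) (x : Fin d → ℝ) : ℝ := A * (bu ν ((n : ℕ) : ℤ) (x i0) * sg ν (x i0))

lemma meas_V (n : ℕ) : Measurable (V g L i0 i1 n) := by
  unfold V
  apply Finset.measurable_sum
  intro l _
  apply Measurable.mul _ (meas_XX g L i0 i1 l)
  apply Measurable.ite _ measurable_const measurable_const
  apply measurableSet_le measurable_const
  unfold rk
  exact measurable_const.add ((((meas_cz _).comp (measurable_pi_apply i0)).mul_const _).add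
    ((meas_cz _).comp (measurable_pi_apply i1)))

lemma V_bdd (n : ℕ) (x : Fin d → ℝ) : |V g L i0 i1 n x| ≤ (L : ℝ) + 1 := by
  unfold V
  refine (Finset.abs_sum_le_sum_abs _ _).trans ?_
  have : ∀ l ∈ Finset.range (L + 1), |(if (n : ℤ) ≤ (l : ℤ) * 2 ^ (g * L) + rk g L l i0 i1 x then (1:ℝ)
      else 0) * XX g L i0 i1 l x| ≤ 1 := by
    intro l _
    rw [abs_mul]
    have h2 : |XX g L i0 i1 l x| = 1 := by
      rcases XX_or g L i0 i1 l x with h | h <;> rw [h] <;> simp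
    rw [h2, mul_one]
    split_ifs <;> simp
  refine (Finset.sum_le_sum this).trans ?_
  simp

lemma fS_mem (n : ℕ) : MemLp (fS g L i0 i1 n) p (μd d) := by
  apply memLp_bdd (C := (L : ℝ) + 1)
  · exact ((meas_ic 1 0).comp (measurable_pi_apply i0)).mul (meas_V g L i0 i1 n)
  · intro x
    unfold fS
    rw [abs_mul, abs_of_nonneg (ic_nonneg _ _ _)]
    calc ic 1 0 (x i0) * |V g L i0 i1 n x| ≤ 1 * ((L : ℝ) + 1) :=
          mul_le_mul (ic_le _ _ _) (V_bdd g L i0 i1 n x) (abs_nonneg _) zero_le_one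
      _ = _ := one_mul _

lemma fB_mem (n : ℕ) : MemLp (fB i0 A ν n) p (μd d) := by
  apply memLp_bdd (C := |A|)
  · exact (((meas_bu ν _).comp (measurable_pi_apply i0)).mul
        ((meas_sg ν).comp (measurable_pi_apply i0))).const_mul A
  · intro x
    unfold fB
    rw [abs_mul, abs_mul, sg_abs, mul_one]
    apply mul_le_of_le_one_right (abs_nonneg _)
    rcases bu_or ν ((n : ℕ) : ℤ) (x i0) with h | h <;> rw [h] <;> simp

noncomputable def eS (n : ℕ) : Lp ℝ p (μd d) := toL (μd d) p (fS g L i0 i1 n)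
noncomputable def eB (n : ℕ) : Lp ℝ p (μd d) := toL (μd d) p (fB i0 A ν n)
noncomputable def φS (n : ℕ) : Lp ℝ p (μd d) := toL (μd d) p (HH p.toReal (KS g L i0 i1 n))
noncomputable def φB (n : ℕ) : Lp ℝ p (μd d) := toL (μd d) p (HH p.toReal (K0 i0 ν n))

variable {p g L i0 i1 A ν}

lemma φS_mem {n : ℕ} (hn : n / 2 ^ (g * L) ≤ L) : φS p g L i0 i1 n ∈ DH d p := by
  apply DH_mem
  intro j
  by_cases h0 : j = i0
  · rw [h0, KS_0]
    unfold Valid cel lev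
    simp only
    have := KS_lt hn
    calc n % 2 ^ (g * L) / 2 ^ (g * (L - n / 2 ^ (g * L))) < 2 ^ (g * (n / 2 ^ (g * L))) := this
      _ ≤ 2 ^ (1 + g * (n / 2 ^ (g * L))) := Nat.pow_le_pow_right (by norm_num) (by omega)
  · by_cases h1 : j = i1
    · rw [h1, KS_1 (fun h => h0 (h1.trans h.symm))]
      unfold Valid cel lev
      simp only
      exact Nat.mod_lt _ (by positivity)
    · rw [KS_j g L n h0 h1]
      unfold Valid cel lev; norm_num

lemma φB_mem {n : ℕ} (hn : n < 2 ^ ν) : φB p i0 ν n ∈ DH d p := by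
  apply DH_mem
  intro j
  unfold K0
  split_ifs
  · exact hn
  · unfold Valid cel lev; norm_num

lemma eS_diff (h01 : i0 ≠ i1) {n : ℕ} (hn : n / 2 ^ (g * L) ≤ L) :
    eS p g L i0 i1 n - eS p g L i0 i1 (n + 1) =
      ((hb p.toReal) ^ (1 + g * L))⁻¹ • φS p g L i0 i1 n := by
  apply toL_diff (fS_mem p g L i0 i1 n) (fS_mem p g L i0 i1 (n + 1)) (HH_memLp _ _)
  filter_upwards [Dom_ae] with x hx
  exact V_diff h01 hn _ hx

lemma eS_last : eS p g L i0 i1 ((L + 1) * 2 ^ (g * L)) = 0 := by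
  apply toL_zero (fS_mem p g L i0 i1 _)
  filter_upwards [Dom_ae] with x hx
  unfold fS
  by_cases h : cz 1 (x i0) = 0
  · rw [V_last hx h, mul_zero]
  · unfold ic; rw [if_neg h, zero_mul]

lemma eB_diff (n : ℕ) :
    eB p i0 A ν n - eB p i0 A ν (n + 1) = (A * ((hb p.toReal) ^ ν)⁻¹) • φB p i0 ν n := by
  apply toL_diff (fB_mem p i0 A ν n) (fB_mem p i0 A ν (n + 1)) (HH_memLp _ _)
  exact Eventually.of_forall (fun x => bu_diff _ A ν n x)

lemma eB_last : eB p i0 A ν (2 ^ ν) = 0 := by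
  apply toL_zero (fB_mem p i0 A ν _)
  filter_upwards [Dom_ae] with x hx
  unfold fB
  rw [bu_last (hx i0)]; ring

lemma coe_sum {a b : ℕ} : (eS p g L i0 i1 a + eB p i0 A ν b : Lp ℝ p (μd d)) =ᵐ[μd d]
    fun x => fS g L i0 i1 a x + fB i0 A ν b x := by
  filter_upwards [Lp.coeFn_add (eS p g L i0 i1 a) (eB p i0 A ν b), toL_coe (fS_mem p g L i0 i1 a),
    toL_coe (fB_mem p i0 A ν b)] with x h1 h2 h3
  rw [h1, Pi.add_apply]
  unfold eS eB
  rw [h2, h3]

lemma sum_bdd {a b : ℕ} : ∃ B, ∀ᵐ x ∂(μd d), |(eS p g L i0 i1 a + eB p i0 A ν b : Lp ℝ p (μd d)) x| ≤ B := by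
  refine ⟨((L : ℝ) + 1) + |A|, ?_⟩
  filter_upwards [coe_sum (p := p) (g := g) (L := L) (i0 := i0) (i1 := i1) (A := A) (ν := ν) (a := a) (b := b)]
    with x hx
  rw [hx]
  refine (abs_add_le _ _).trans (add_le_add ?_ ?_)
  · unfold fS
    rw [abs_mul, abs_of_nonneg (ic_nonneg _ _ _)]
    calc ic 1 0 (x i0) * |V g L i0 i1 a x| ≤ 1 * ((L : ℝ) + 1) :=
          mul_le_mul (ic_le _ _ _) (V_bdd g L i0 i1 a x) (abs_nonneg _) zero_le_one
      _ = _ := one_mul _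
  · unfold fB
    rw [abs_mul, abs_mul, sg_abs, mul_one]
    apply mul_le_of_le_one_right (abs_nonneg _)
    rcases bu_or ν ((b : ℕ) : ℤ) (x i0) with h | h <;> rw [h] <;> simp

/-- The residual in terms of `RF`. -/
lemma rep_wt {a b : ℕ} (ha : a / 2 ^ (g * L) ≤ L) :
    (eS p g L i0 i1 a + eB p i0 A ν b : Lp ℝ p (μd d)) =ᵐ[μd d]
    RF g L i0 i1 (a / 2 ^ (g * L)) (wt g L (a / 2 ^ (g * L)) (a % 2 ^ (g * L))) A ν ((b : ℕ) : ℤ) := by
  filter_upwards [coe_sum (p := p) (g := g) (L := L) (i0 := i0) (i1 := i1) (A := A) (ν := ν) (a := a) (b := b),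
    Dom_ae] with x hx hd
  rw [hx]
  unfold fS fB RF
  congr 1
  by_cases h : cz 1 (x i0) = 0
  · rw [V_eq_SW ha hd h]
  · unfold ic; rw [if_neg h, zero_mul, zero_mul]

lemma rep_one {b : ℕ} :
    (eS p g L i0 i1 0 + eB p i0 A ν b : Lp ℝ p (μd d)) =ᵐ[μd d]
    RF g L i0 i1 0 (fun _ _ => 1) A ν ((b : ℕ) : ℤ) := by
  filter_upwards [coe_sum (p := p) (g := g) (L := L) (i0 := i0) (i1 := i1) (A := A) (ν := ν) (a := 0) (b := b),
    Dom_ae] with x hx hd
  rw [hx]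
  unfold fS fB RF
  congr 1
  by_cases h : cz 1 (x i0) = 0
  · rw [V_zero_eq hd h]
  · unfold ic; rw [if_neg h, zero_mul, zero_mul]

lemma fB_zero (hν : 1 ≤ ν) {b : ℕ} (hb : 2 ^ (ν - 1) ≤ b) {x : Fin d → ℝ} (h : cz 1 (x i0) = 0) :
    fB i0 A ν b x = 0 := by
  unfold fB
  rw [bu_zero_of_half hν (by exact_mod_cast hb) h]; ring

lemma fS_zero {a : ℕ} {x : Fin d → ℝ} (h : ¬ cz 1 (x i0) = 0) : fS g L i0 i1 a x = 0 := by
  unfold fS ic; rw [if_neg h, zero_mul]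

variable [Fact (1 ≤ p)]

lemma norm_ge_S (hp0 : p ≠ 0) (hptop : p ≠ ⊤) (hν : 1 ≤ ν) {a b : ℕ} (hb : 2 ^ (ν - 1) ≤ b) :
    ‖eS p g L i0 i1 a‖ ≤ ‖eS p g L i0 i1 a + eB p i0 A ν b‖ := by
  have hq : 0 < p.toReal := ENNReal.toReal_pos hp0 hptop
  have hsum := (fS_mem p g L i0 i1 a).add (fB_mem p i0 A ν b)
  rw [norm_eq hp0 hptop _ _ (coe_sum (a := a) (b := b)).symm]
  unfold eS
  rw [toL_norm hp0 hptop (fS_mem p g L i0 i1 a)]
  apply Real.rpow_le_rpow (integral_nonneg (fun x => by positivity)) _ (by positivity)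
  apply integral_mono_of_nonneg (Eventually.of_forall (fun x => by positivity))
  · have h1 := hsum.integrable_norm_rpow hp0 hptop
    simpa [Real.norm_eq_abs] using h1
  · refine Eventually.of_forall (fun x => ?_)
    show |fS g L i0 i1 a x| ^ p.toReal ≤ |fS g L i0 i1 a x + fB i0 A ν b x| ^ p.toReal
    by_cases h : cz 1 (x i0) = 0
    · rw [fB_zero hν hb h, add_zero]
    · rw [fS_zero h, abs_zero, Real.zero_rpow hq.ne']; positivity

lemma norm_ge_B (hp0 : p ≠ 0) (hptop : p ≠ ⊤) (hν : 1 ≤ ν) {a b : ℕ} (hb : 2 ^ (ν - 1) ≤ b) :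
    ‖eB p i0 A ν b‖ ≤ ‖eS p g L i0 i1 a + eB p i0 A ν b‖ := by
  have hq : 0 < p.toReal := ENNReal.toReal_pos hp0 hptop
  have hsum := (fS_mem p g L i0 i1 a).add (fB_mem p i0 A ν b)
  rw [norm_eq hp0 hptop _ _ (coe_sum (a := a) (b := b)).symm]
  unfold eB
  rw [toL_norm hp0 hptop (fB_mem p i0 A ν b)]
  apply Real.rpow_le_rpow (integral_nonneg (fun x => by positivity)) _ (by positivity)
  apply integral_mono_of_nonneg (Eventually.of_forall (fun x => by positivity))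
  · have h1 := hsum.integrable_norm_rpow hp0 hptop
    simpa [Real.norm_eq_abs] using h1
  · refine Eventually.of_forall (fun x => ?_)
    show |fB i0 A ν b x| ^ p.toReal ≤ |fS g L i0 i1 a x + fB i0 A ν b x| ^ p.toReal
    by_cases h : cz 1 (x i0) = 0
    · rw [fB_zero hν hb h, abs_zero, Real.zero_rpow hq.ne']; positivity
    · rw [fS_zero h, zero_add]

lemma norm_eS (hp0 : p ≠ 0) (hptop : p ≠ ⊤) (hg : 0 < g) (h01 : i0 ≠ i1) :
    ‖eS p g L i0 i1 0‖ = (EE (L + 1) (fun s => |s| ^ p.toReal) * (1 / 2)) ^ (1 / p.toReal) := by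
  have hq : 0 < p.toReal := ENNReal.toReal_pos hp0 hptop
  unfold eS
  rw [toL_norm hp0 hptop (fS_mem p g L i0 i1 0), ← norm_S hq hg h01]
  congr 1
  apply integral_congr_ae
  filter_upwards [Dom_ae] with x hx
  unfold fS
  by_cases h : cz 1 (x i0) = 0
  · rw [V_zero_eq hx h]
  · unfold ic; rw [if_neg h, zero_mul, zero_mul]

lemma norm_eB (hp0 : p ≠ 0) (hptop : p ≠ ⊤) (hA : 0 ≤ A) (hν : 1 ≤ ν) :
    ‖eB p i0 A ν (2 ^ (ν - 1))‖ = (A ^ p.toReal * (1 / 2)) ^ (1 / p.toReal) := by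
  have hq : 0 < p.toReal := ENNReal.toReal_pos hp0 hptop
  unfold eB
  rw [toL_norm hp0 hptop (fB_mem p i0 A ν _), ← norm_B hq hA hν]
  rfl

omit [Fact (1 ≤ p)] in
/-- Pairing of the residual with an element of the dictionary. -/
lemma pair_wt (hP : 1 < p.toReal) (hν : 1 ≤ ν) {a b : ℕ} (ha : a / 2 ^ (g * L) ≤ L)
    (hb : 2 ^ (ν - 1) ≤ b) {u : Lp ℝ p (μd d)} {K : Fin d → Ix} (hu : u =ᵐ[μd d] HH p.toReal K) :
    pairing (μd d) p.toReal (eS p g L i0 i1 a + eB p i0 A ν b : Lp ℝ p (μd d)) u =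
      SP p.toReal g L i0 i1 (a / 2 ^ (g * L)) (wt g L (a / 2 ^ (g * L)) (a % 2 ^ (g * L))) K +
        BP p.toReal A ν ((b : ℕ) : ℤ) i0 K := by
  rw [pairing_eq (rep_wt ha) hu]
  exact pair_RF hP (WOK_wt _ _ _ _) hν (by exact_mod_cast hb) K

omit [Fact (1 ≤ p)] in
lemma pair_one (hP : 1 < p.toReal) (hν : 1 ≤ ν) {b : ℕ}
    (hb : 2 ^ (ν - 1) ≤ b) {u : Lp ℝ p (μd d)} {K : Fin d → Ix} (hu : u =ᵐ[μd d] HH p.toReal K) :
    pairing (μd d) p.toReal (eS p g L i0 i1 0 + eB p i0 A ν b : Lp ℝ p (μd d)) u =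
      SP p.toReal g L i0 i1 0 (fun _ _ => 1) K + BP p.toReal A ν ((b : ℕ) : ℤ) i0 K := by
  rw [pairing_eq rep_one hu]
  exact pair_RF hP (WOK_one _ _) hν (by exact_mod_cast hb) K

end el

/-! ### Parameters -/

section par

variable {q : ℝ}

lemma bet_rpow (hq : 1 < q) (l : ℕ) : (bet q ^ l) ^ (q / (q - 1)) = (1 / 2) ^ l := by
  have hq1 : 0 < q - 1 := by linarith
  have h1 : bet q = 2 ^ (1 / q - 1) := by
    unfold bet hb
    rw [Real.rpow_sub_one (by norm_num)]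
  have h2 : (1 / 2 : ℝ) ^ l = 2 ^ (-(l : ℝ)) := by
    rw [Real.rpow_neg (by norm_num), Real.rpow_natCast, one_div, inv_pow]
  rw [h1, h2, ← Real.rpow_natCast, ← Real.rpow_mul (by positivity), ← Real.rpow_mul (by positivity)]
  congr 1
  field_simp
  ring

/-- The amplitude. -/
noncomputable def Amp (q y : ℝ) (l : ℕ) : ℝ := (y / bet q ^ l) ^ (1 / (q - 1))

lemma Amp_nonneg {y : ℝ} (hy : 0 < y) (l : ℕ) : 0 ≤ Amp q y l := by
  unfold Amp
  have hb := bet_pos q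
  positivity

lemma Amp_pow1 (hq : 1 < q) {y : ℝ} (hy : 0 < y) (l : ℕ) : Amp q y l ^ (q - 1) = y / bet q ^ l := by
  unfold Amp
  have hb := bet_pos q
  have hq1 : 0 < q - 1 := by linarith
  rw [← Real.rpow_mul (by positivity), one_div_mul_cancel hq1.ne', Real.rpow_one]

lemma Amp_pow2 (hq : 1 < q) {y : ℝ} (hy : 0 < y) (l : ℕ) :
    Amp q y l ^ q = y ^ (q / (q - 1)) * 2 ^ l := by
  unfold Amp
  have hb := bet_pos q
  have hq1 : 0 < q - 1 := by linarith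
  rw [← Real.rpow_mul (by positivity), show 1 / (q - 1) * q = q / (q - 1) by ring,
    Real.div_rpow hy.le (by positivity), bet_rpow hq, one_div, inv_pow, div_inv_eq_mul]

lemma exists_g (hq : 1 < q) {M : ℝ} (hM : 0 < M) : ∃ g : ℕ, 0 < g ∧ bet q ^ g * M ≤ 1 := by
  obtain ⟨n, hn⟩ := exists_pow_lt_of_lt_one (by positivity : 0 < 1 / M) (bet_lt hq)
  refine ⟨n + 1, by omega, ?_⟩
  have h1 := bet_pow_le hq (Nat.le_succ n)
  have h2 : bet q ^ (n + 1) ≤ 1 / M := h1.trans hn.le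
  rwa [le_div_iff₀ hM] at h2

lemma exists_k {e : ℝ} (he : 0 < e) (R : ℝ) (k₁ : ℕ) : ∃ k : ℕ, k₁ ≤ k ∧ R < ((2:ℝ) ^ k) ^ e := by
  obtain ⟨k, hk⟩ := pow_unbounded_of_one_lt ((max R 1) ^ (1 / e)) (by norm_num : (1:ℝ) < 2)
  refine ⟨max k k₁, le_max_right _ _, ?_⟩
  have h0 : (0:ℝ) < max R 1 := lt_max_of_lt_right one_pos
  have h1 : (max R 1) ^ (1 / e) < 2 ^ (max k k₁) :=
    hk.trans_le (pow_le_pow_right₀ (by norm_num) (le_max_left _ _))
  have h2 := Real.rpow_lt_rpow (by positivity) h1 he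
  rw [← Real.rpow_mul h0.le, one_div_mul_cancel he.ne', Real.rpow_one] at h2
  exact lt_of_le_of_lt (le_max_left _ _) h2

end par

end Pool.Agent.Helper415.HB
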