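import Mathlib
import Pool.Agent.Helper415.HB11

/-! The case `p < 2`. -/

set_option autoImplicit false

open MeasureTheory Filter Topology
open scoped ENNReal

namespace Pool.Agent.Helper415.HB

open Pool.Agent.Helper415 Pool.Agent.Helper415.HA Pool.Agent.Helper415.TG Pool.Agent.Helper415.HaarD

variable {d : ℕ} {p : ℝ≥0∞} [Fact (1 ≤ p)] {i0 i1 : Fin d}

theorem neg_lt (h01 : i0 ≠ i1) (hp1 : 1 < p) (hp2 : p < 2) :
    ¬ AlmostGreedyBasis normingF (DH d p) := by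
  have hptop : p ≠ ⊤ := (hp2.trans (by norm_num)).ne
  have hp0 : p ≠ 0 := (lt_trans (by norm_num) hp1).ne'
  set q : ℝ := p.toReal with hqdef
  have hq1 : 1 < q := by
    have := (ENNReal.toReal_lt_toReal (by norm_num) hptop).mpr hp1
    simpa using this
  have hq2 : q < 2 := by
    have := (ENNReal.toReal_lt_toReal hptop (by norm_num)).mpr hp2
    simpa using this
  have hq0 : 0 < q := by linarith
  have hqm : 0 < q - 1 := by linarith
  apply not_ag_of (t := 1 / 2) (by norm_num) (by norm_num) DH_nonempty (DH_bdd hp0 hptop hq1)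
  intro C₁ C₂ hC₁ hC₂
  obtain ⟨k₀, hk₀'⟩ := pow_unbounded_of_one_lt (C₁ + 1) (by norm_num : (1:ℝ) < 2)
  have hk₀ := hk₀'.le
  set e : ℝ := (1 - q / 2) / (q - 1) with he
  have he0 : 0 < e := by
    rw [he]; apply div_pos _ hqm; linarith
  have hcl := clow_pos q
  obtain ⟨k, _, hk⟩ := exists_k he0 (C₂ ^ q * 2 ^ k₀ / clow q) 0
  set L : ℕ := 2 ^ k - 1 with hL
  have h2k : 1 ≤ 2 ^ k := Nat.one_le_two_pow
  have hL1 : L + 1 = 2 ^ k := by omega
  set N : ℝ := (L : ℝ) + 1 with hN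
  have hN2 : N = 2 ^ k := by rw [hN]; exact_mod_cast hL1
  have hN0 : 0 < N := by positivity
  obtain ⟨g, hg0, hg⟩ := exists_g hq1 (by positivity : 0 < N ^ (q / 2))
  set l : ℕ := k + k₀ with hl
  set ν : ℕ := 1 + g * L + l with hν
  have hν1 : 1 ≤ ν := by omega
  set y : ℝ := N ^ (q / 2 - 1) with hy
  have hy0 : 0 < y := by positivity
  set A : ℝ := Amp q y l with hA
  have hA0 : 0 ≤ A := Amp_nonneg hy0 l
  have hb := bet_pos q
  have hAb : A ^ (q - 1) * bet q ^ ν = y * bet q ^ (1 + g * L) := by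
    rw [hA, Amp_pow1 hq1 hy0, hν, pow_add (bet q) (1 + g * L) l]
    have : bet q ^ l ≠ 0 := by positivity
    field_simp
  set m : ℕ := (L + 1) * 2 ^ (g * L) with hm
  have hm1 : 1 ≤ m := by rw [hm]; exact Nat.one_le_iff_ne_zero.mpr (by positivity)
  set K : ℕ := ⌈C₁ * m⌉₊ with hK
  have hνm : 2 ^ (ν - 1) = m * 2 ^ k₀ := by
    rw [hm, hL1, hν, hl, show 1 + g * L + (k + k₀) - 1 = g * L + k + k₀ by omega, pow_add, pow_add]
    ring
  have hKle : K ≤ 2 ^ (ν - 1) := by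
    rw [hK, Nat.ceil_le, hνm]
    push_cast
    have hm' : (0:ℝ) ≤ m := Nat.cast_nonneg _
    nlinarith
  have h2ν : 2 ^ ν = 2 ^ (ν - 1) + 2 ^ (ν - 1) := by
    have : ν = (ν - 1) + 1 := by omega
    conv_lhs => rw [this]
    rw [pow_succ]; ring
  refine ⟨m, fun n => eS p g L i0 i1 0 + eB p i0 A ν (2 ^ (ν - 1) + n),
    fun n => φB p i0 ν (2 ^ (ν - 1) + n), hm1, ?_, ?_⟩
  · apply partial_run_gen hp0 hptop hq1
    · intro n _; exact sum_bdd
    · intro n hn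
      apply φB_mem
      omega
    · intro n hn
      refine ⟨A * ((HA.hb p.toReal) ^ ν)⁻¹, ?_⟩
      rw [← eB_diff]
      show (eS p g L i0 i1 0 + eB p i0 A ν (2 ^ (ν - 1) + n)) -
        (eS p g L i0 i1 0 + eB p i0 A ν (2 ^ (ν - 1) + (n + 1))) = _
      rw [← add_assoc]; abel
    · intro n hn j hj
      have hu : φB p i0 ν (2 ^ (ν - 1) + j) =ᵐ[μd d] HH p.toReal (K0 i0 ν (2 ^ (ν - 1) + j)) :=
        toL_coe (HH_memLp _ _)
      show pairing (μd d) p.toReal (eS p g L i0 i1 0 + eB p i0 A ν (2 ^ (ν - 1) + n) : Lp ℝ p (μd d))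
        (φB p i0 ν (2 ^ (ν - 1) + j)) = 0
      rw [pair_one hq1 hν1 (by omega) hu, SP_K0 hν1 (by omega), BP_K0_zero (by push_cast; omega),
        add_zero]
    · intro n hn u hu
      obtain ⟨I, _, hI⟩ := DH_rep hu
      have hv : φB p i0 ν (2 ^ (ν - 1) + n) =ᵐ[μd d] HH p.toReal (K0 i0 ν (2 ^ (ν - 1) + n)) :=
        toL_coe (HH_memLp _ _)
      show 1 / 2 * |pairing (μd d) p.toReal (eS p g L i0 i1 0 + eB p i0 A ν (2 ^ (ν - 1) + n) :
        Lp ℝ p (μd d)) u| ≤ |pairing (μd d) p.toReal (eS p g L i0 i1 0 + eB p i0 A ν (2 ^ (ν - 1) + n) :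
        Lp ℝ p (μd d)) (φB p i0 ν (2 ^ (ν - 1) + n))|
      rw [pair_one hq1 hν1 (by omega) hv, pair_one hq1 hν1 (by omega) hI, SP_K0 hν1 (by omega), zero_add,
        BP_exact hq1 hA0 ν _ le_rfl (by omega)]
      have h1 := P1 (i0 := i0) (i1 := i1) hq1 hq2.le hg0 h01 hg I
      have h2 := BP_bound (i0 := i0) hq1 hA0 ν ((2 ^ (ν - 1) + n : ℕ) : ℤ) I
      have h3 : 0 ≤ A ^ (q - 1) * bet q ^ ν := by positivity
      rw [abs_of_nonneg h3]
      have h4 := abs_add_le (SP p.toReal g L i0 i1 0 (fun _ _ => 1) I)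
        (BP p.toReal A ν ((2 ^ (ν - 1) + n : ℕ) : ℤ) i0 I)
      have h5 : |SP q g L i0 i1 0 (fun _ _ => 1) I| ≤ A ^ (q - 1) * bet q ^ ν := by
        rw [hAb]; exact h1
      linarith
  · show C₂ * sigma (DH d p) m (eS p g L i0 i1 0 + eB p i0 A ν (2 ^ (ν - 1) + 0)) <
      ‖eS p g L i0 i1 0 + eB p i0 A ν (2 ^ (ν - 1) + K)‖
    rw [add_zero]
    have hdivlt : ∀ n < m, n / 2 ^ (g * L) ≤ L := by
      intro n hn
      apply Nat.le_of_lt_succ
      apply Nat.div_lt_of_lt_mul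
      rw [hm] at hn
      rw [mul_comm]; exact hn
    have hσ := sigma_le_telescope (D := DH d p) (eB p i0 A ν (2 ^ (ν - 1))) m
      (fun n => eS p g L i0 i1 n) (((HA.hb p.toReal) ^ (1 + g * L))⁻¹) (fun n => φS p g L i0 i1 n)
      (fun n hn => φS_mem (hdivlt n hn)) (fun n hn => eS_diff h01 (hdivlt n hn)) eS_last
    have hge := norm_ge_S (g := g) (L := L) (i0 := i0) (i1 := i1) (A := A) hp0 hptop hν1 (a := 0)
      (b := 2 ^ (ν - 1) + K) (by omega)
    rw [norm_eS hp0 hptop hg0 h01] at hge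
    rw [norm_eB hp0 hptop hA0 hν1] at hσ
    refine lt_of_lt_of_le ?_ hge
    refine lt_of_le_of_lt (mul_le_mul_of_nonneg_left hσ hC₂.le) ?_
    -- numeric
    have hE := EE_low hq0 hq2.le (L + 1) (by omega)
    rw [← hqdef]
    have e0 : ∀ Z : ℝ, 0 ≤ Z → C₂ * Z ^ (1 / q) = (C₂ ^ q * Z) ^ (1 / q) := by
      intro Z hZ
      rw [Real.mul_rpow (by positivity) hZ, ← Real.rpow_mul hC₂.le,
        mul_one_div_cancel hq0.ne', Real.rpow_one]
    rw [e0 _ (by positivity)]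
    apply Real.rpow_lt_rpow (by positivity) _ (by positivity)
    have h1 : A ^ q = y ^ (q / (q - 1)) * 2 ^ l := Amp_pow2 hq1 hy0 l
    have h2 : (2:ℝ) ^ l = N * 2 ^ k₀ := by rw [hl, pow_add, hN2]
    have h3 : y ^ (q / (q - 1)) * N * N ^ e = N ^ (q / 2) := by
      rw [hy, ← Real.rpow_mul hN0.le]
      have : N = N ^ (1:ℝ) := (Real.rpow_one N).symm
      nth_rewrite 2 [this]
      rw [← Real.rpow_add hN0, ← Real.rpow_add hN0]
      congr 1
      rw [he]
      field_simp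
      ring
    have h4 : C₂ ^ q * 2 ^ k₀ < clow q * N ^ e := by
      rw [← hN2, div_lt_iff₀ hcl] at hk
      linarith
    have h5 : 0 < y ^ (q / (q - 1)) * N := by positivity
    have hcast : ((L + 1 : ℕ) : ℝ) = N := by push_cast; rfl
    rw [hcast] at hE
    have h6 : C₂ ^ q * A ^ q < EE (L + 1) (fun s => |s| ^ q) := by
      refine lt_of_lt_of_le ?_ hE
      rw [h1, h2, ← h3]
      calc C₂ ^ q * (y ^ (q / (q - 1)) * (N * 2 ^ k₀)) = (y ^ (q / (q - 1)) * N) * (C₂ ^ q * 2 ^ k₀) := by ring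
        _ < (y ^ (q / (q - 1)) * N) * (clow q * N ^ e) := mul_lt_mul_of_pos_left h4 h5
        _ = _ := by ring
    linarith

end Pool.Agent.Helper415.HB
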