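import Mathlib
import Pool.Agent.Helper415.HB12

/-! The case `p > 2`. -/

set_option autoImplicit false

open MeasureTheory Filter Topology
open scoped ENNReal

namespace Pool.Agent.Helper415.HB

open Pool.Agent.Helper415 Pool.Agent.Helper415.HA Pool.Agent.Helper415.TG Pool.Agent.Helper415.HaarD

variable {d : ℕ} {p : ℝ≥0∞} [Fact (1 ≤ p)] {i0 i1 : Fin d}

theorem neg_gt (h01 : i0 ≠ i1) (hp2 : 2 < p) (hptop : p ≠ ⊤) :
    ¬ AlmostGreedyBasis normingF (DH d p) := by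
  have hp0 : p ≠ 0 := (lt_trans (by norm_num) hp2).ne'
  set q : ℝ := p.toReal with hqdef
  have hq2 : 2 < q := by
    have := (ENNReal.toReal_lt_toReal (by norm_num) hptop).mpr hp2
    simpa using this
  have hq1 : 1 < q := by linarith
  have hq0 : 0 < q := by linarith
  have hqm : 0 < q - 1 := by linarith
  have hCK := CK_pos hq2
  have hhalf : (0:ℝ) < (1 / 2) ^ (q / 2 - 1) := by positivity
  have hhalf1 : (1 / 2 : ℝ) ^ (q / 2 - 1) ≤ 1 := Real.rpow_le_one (by norm_num) (by norm_num) (by linarith)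
  set t : ℝ := (1 / 2) ^ (q / 2 - 1) / (CK q + 2) with ht
  have ht0 : 0 < t := by positivity
  have ht1 : t < 1 := by
    rw [ht, div_lt_one (by linarith)]; linarith
  apply not_ag_of ht0 ht1 DH_nonempty (DH_bdd hp0 hptop hq1)
  intro C₁ C₂ hC₁ hC₂
  obtain ⟨k₀, hk₀'⟩ := pow_unbounded_of_one_lt (2 * (C₁ + 1)) (by norm_num : (1:ℝ) < 2)
  have hk₀ := hk₀'.le
  set e : ℝ := (q / 2 - 1) / (q - 1) with he
  have he0 : 0 < e := by
    rw [he]; apply div_pos _ hqm; linarith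
  have hcu := cup_pos q
  obtain ⟨k, hkk, hk⟩ := exists_k he0 (C₂ ^ q * cup q * 2 ^ k₀) (k₀ + 1)
  set L : ℕ := 2 ^ k - 1 with hL
  have h2k : 1 ≤ 2 ^ k := Nat.one_le_two_pow
  have hL1 : L + 1 = 2 ^ k := by omega
  have h2kk : 2 ^ k = 2 ^ (k - 1) + 2 ^ (k - 1) := by
    have : k = (k - 1) + 1 := by omega
    conv_lhs => rw [this]
    rw [pow_succ]; ring
  have h2k1 : 1 ≤ 2 ^ (k - 1) := Nat.one_le_two_pow
  have hkL : 2 ^ (k - 1) ≤ L := by omega
  set N : ℝ := (L : ℝ) + 1 with hN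
  have hN2 : N = 2 ^ k := by rw [hN]; exact_mod_cast hL1
  have hN0 : 0 < N := by positivity
  obtain ⟨g, hg0, hg⟩ := exists_g hq1 (by positivity : 0 < N ^ (q - 1))
  set l : ℕ := k - k₀ with hl
  set ν : ℕ := 1 + g * L + l with hν
  have hν1 : 1 ≤ ν := by omega
  set y : ℝ := N ^ (q / 2 - 1) with hy
  have hy0 : 0 < y := by positivity
  set A : ℝ := Amp q y l with hA
  have hA0 : 0 ≤ A := Amp_nonneg hy0 l
  have hb := bet_pos q
  have hAb : A ^ (q - 1) * bet q ^ ν = y * bet q ^ (1 + g * L) := by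
    rw [hA, Amp_pow1 hq1 hy0, hν, pow_add (bet q) (1 + g * L) l]
    have : bet q ^ l ≠ 0 := by positivity
    field_simp
  set m : ℕ := 2 ^ (ν - 1) with hm
  have hm1 : 1 ≤ m := Nat.one_le_two_pow
  set K : ℕ := ⌈C₁ * m⌉₊ with hK
  have hνm : m * 2 ^ k₀ = 2 ^ (g * L) * 2 ^ k := by
    rw [hm, hν, show 1 + g * L + l - 1 = g * L + l by omega, pow_add, mul_assoc, ← pow_add]
    congr 2; omega
  have hKle : K ≤ 2 ^ (g * L) * 2 ^ (k - 1) := by
    rw [hK, Nat.ceil_le]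
    push_cast
    have hm' : (0:ℝ) ≤ m := Nat.cast_nonneg _
    have h1 : (m : ℝ) * 2 ^ k₀ = 2 ^ (g * L) * 2 ^ k := by exact_mod_cast hνm
    have h2 : (2:ℝ) ^ k = 2 * 2 ^ (k - 1) := by
      rw [← pow_succ']; congr 1; omega
    rw [h2] at h1
    nlinarith
  have hdle : ∀ n ≤ K, n / 2 ^ (g * L) ≤ L := by
    intro n hn
    have h1 : n / 2 ^ (g * L) ≤ 2 ^ (k - 1) := by
      apply Nat.div_le_of_le_mul
      exact hn.trans hKle
    exact h1.trans hkL
  have hdlt : ∀ n < K, n / 2 ^ (g * L) < 2 ^ (k - 1) := by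
    intro n hn
    apply Nat.div_lt_of_lt_mul
    exact lt_of_lt_of_le hn hKle
  refine ⟨m, fun n => eS p g L i0 i1 n + eB p i0 A ν (2 ^ (ν - 1)),
    fun n => φS p g L i0 i1 n, hm1, ?_, ?_⟩
  · apply partial_run_gen hp0 hptop hq1
    · intro n _; exact sum_bdd
    · intro n hn
      exact φS_mem (hdle n hn.le)
    · intro n hn
      refine ⟨((HA.hb p.toReal) ^ (1 + g * L))⁻¹, ?_⟩
      rw [← eS_diff h01 (hdle n hn.le)]
      show (eS p g L i0 i1 n + eB p i0 A ν (2 ^ (ν - 1))) -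
        (eS p g L i0 i1 (n + 1) + eB p i0 A ν (2 ^ (ν - 1))) = _
      abel
    · intro n hn j hj
      have hu : φS p g L i0 i1 j =ᵐ[μd d] HH p.toReal (KS g L i0 i1 j) :=
        toL_coe (HH_memLp _ _)
      show pairing (μd d) p.toReal (eS p g L i0 i1 n + eB p i0 A ν (2 ^ (ν - 1)) : Lp ℝ p (μd d))
        (φS p g L i0 i1 j) = 0
      rw [pair_wt hq1 hν1 (hdle n hn) le_rfl hu, SP_orth hg0 h01 (hdle n hn) hj,
        BP_zero1 hq1 hA0 ν _ h01.symm (KS_1 h01 g L j), add_zero]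
    · intro n hn u hu
      obtain ⟨I, _, hI⟩ := DH_rep hu
      have hv : φS p g L i0 i1 n =ᵐ[μd d] HH p.toReal (KS g L i0 i1 n) :=
        toL_coe (HH_memLp _ _)
      show t * |pairing (μd d) p.toReal (eS p g L i0 i1 n + eB p i0 A ν (2 ^ (ν - 1)) :
        Lp ℝ p (μd d)) u| ≤ |pairing (μd d) p.toReal (eS p g L i0 i1 n + eB p i0 A ν (2 ^ (ν - 1)) :
        Lp ℝ p (μd d)) (φS p g L i0 i1 n)|
      rw [pair_wt hq1 hν1 (hdle n hn.le) le_rfl hv, pair_wt hq1 hν1 (hdle n hn.le) le_rfl hI,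
        BP_zero1 hq1 hA0 ν _ h01.symm (KS_1 h01 g L n), add_zero,
        SP_pick hq1 hg0 h01 (hdle n hn.le)]
      set j₀ := n / 2 ^ (g * L) with hj₀
      have h1 := P2 (i0 := i0) (i1 := i1) hq2 hg0 h01 (WOK_wt g L j₀ (n % 2 ^ (g * L))) hg I
      have h2 := BP_bound (i0 := i0) hq1 hA0 ν ((2 ^ (ν - 1) : ℕ) : ℤ) I
      have h4 := abs_add_le (SP p.toReal g L i0 i1 j₀ (wt g L j₀ (n % 2 ^ (g * L))) I)
        (BP p.toReal A ν ((2 ^ (ν - 1) : ℕ) : ℤ) i0 I)
      have hyy : ((L : ℝ) + 1) ^ ((q - 2) / 2) = y := by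
        rw [hy, hN]; congr 1; ring
      rw [hyy] at h1
      have h1' : |SP q g L i0 i1 j₀ (wt g L j₀ (n % 2 ^ (g * L))) I| ≤
          (CK q + 1) * y * bet q ^ (1 + g * L) := h1
      have h2' : |BP q A ν ((2 ^ (ν - 1) : ℕ) : ℤ) i0 I| ≤ y * bet q ^ (1 + g * L) := by
        rw [← hAb]; exact h2
      have hDD := DD_ge hq2.le (L - j₀)
      have hcast : ((L - j₀ : ℕ) : ℝ) + 1 = N - j₀ := by
        have : j₀ ≤ L := hdle n hn.le
        rw [Nat.cast_sub this, hN]; ring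
      rw [hcast] at hDD
      have hge : N * (1 / 2) ≤ N - j₀ := by
        have h5 : (j₀ : ℝ) ≤ 2 ^ (k - 1) := by exact_mod_cast (hdlt n hn).le
        have h6 : (2:ℝ) ^ k = 2 * 2 ^ (k - 1) := by
          rw [← pow_succ']; congr 1; omega
        rw [hN2, h6]; linarith
      have h7 : y * (1 / 2) ^ (q / 2 - 1) ≤ DD q (L - j₀) := by
        refine le_trans ?_ hDD
        rw [hy, ← Real.mul_rpow hN0.le (by norm_num)]
        exact Real.rpow_le_rpow (by positivity) hge (by linarith)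
      have h8 : 0 ≤ DD q (L - j₀) := DD_nonneg hq1 _
      have h9 : |bet p.toReal ^ (1 + g * L) * DD p.toReal (L - j₀)| =
          bet q ^ (1 + g * L) * DD q (L - j₀) := abs_of_nonneg (by positivity)
      rw [h9]
      have h10 : |SP p.toReal g L i0 i1 j₀ (wt g L j₀ (n % 2 ^ (g * L))) I +
          BP p.toReal A ν ((2 ^ (ν - 1) : ℕ) : ℤ) i0 I| ≤ (CK q + 2) * (y * bet q ^ (1 + g * L)) := by
        refine h4.trans ?_
        have := add_le_add h1' h2'
        refine this.trans (le_of_eq ?_)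
        ring
      calc t * |SP p.toReal g L i0 i1 j₀ (wt g L j₀ (n % 2 ^ (g * L))) I +
          BP p.toReal A ν ((2 ^ (ν - 1) : ℕ) : ℤ) i0 I| ≤
          t * ((CK q + 2) * (y * bet q ^ (1 + g * L))) := mul_le_mul_of_nonneg_left h10 ht0.le
        _ = bet q ^ (1 + g * L) * (y * (1 / 2) ^ (q / 2 - 1)) := by
            rw [ht]; field_simp
        _ ≤ _ := mul_le_mul_of_nonneg_left h7 (by positivity)
  · show C₂ * sigma (DH d p) m (eS p g L i0 i1 0 + eB p i0 A ν (2 ^ (ν - 1))) <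
      ‖eS p g L i0 i1 K + eB p i0 A ν (2 ^ (ν - 1))‖
    have h2ν : 2 ^ ν = 2 ^ (ν - 1) + 2 ^ (ν - 1) := by
      have : ν = (ν - 1) + 1 := by omega
      conv_lhs => rw [this]
      rw [pow_succ]; ring
    have hσ := sigma_le_telescope (D := DH d p) (eS p g L i0 i1 0) m
      (fun n => eB p i0 A ν (2 ^ (ν - 1) + n)) (A * ((HA.hb p.toReal) ^ ν)⁻¹)
      (fun n => φB p i0 ν (2 ^ (ν - 1) + n))
      (fun n hn => φB_mem (by omega))
      (fun n _ => eB_diff _)
      (by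
        show eB p i0 A ν (2 ^ (ν - 1) + m) = 0
        rw [hm, ← h2ν]; exact eB_last)
    have hσ' : sigma (DH d p) m (eS p g L i0 i1 0 + eB p i0 A ν (2 ^ (ν - 1))) ≤ ‖eS p g L i0 i1 0‖ := by
      rw [add_comm]
      exact hσ
    have hge := norm_ge_B (g := g) (L := L) (i0 := i0) (i1 := i1) (A := A) hp0 hptop hν1 (a := K)
      (b := 2 ^ (ν - 1)) le_rfl
    rw [norm_eB hp0 hptop hA0 hν1] at hge
    rw [norm_eS hp0 hptop hg0 h01] at hσ'
    refine lt_of_lt_of_le ?_ hge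
    refine lt_of_le_of_lt (mul_le_mul_of_nonneg_left hσ' hC₂.le) ?_
    rw [← hqdef]
    have hEE0 : 0 ≤ EE (L + 1) (fun s => |s| ^ q) := by
      have := EE_mono (L + 1) (fun _ => 0) (fun s => |s| ^ q) (fun s => by positivity)
      rwa [EE_const] at this
    have e0 : ∀ Z : ℝ, 0 ≤ Z → C₂ * Z ^ (1 / q) = (C₂ ^ q * Z) ^ (1 / q) := by
      intro Z hZ
      rw [Real.mul_rpow (by positivity) hZ, ← Real.rpow_mul hC₂.le,
        mul_one_div_cancel hq0.ne', Real.rpow_one]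
    rw [e0 _ (by positivity)]
    apply Real.rpow_lt_rpow (by positivity) _ (by positivity)
    have h1 : A ^ q = y ^ (q / (q - 1)) * 2 ^ l := Amp_pow2 hq1 hy0 l
    have h2 : (2:ℝ) ^ l * 2 ^ k₀ = N := by
      rw [← pow_add, hN2]; congr 1; omega
    have h3 : y ^ (q / (q - 1)) * N = N ^ (q / 2) * N ^ e := by
      rw [hy, ← Real.rpow_mul hN0.le]
      have : N = N ^ (1:ℝ) := (Real.rpow_one N).symm
      nth_rewrite 2 [this]
      rw [← Real.rpow_add hN0, ← Real.rpow_add hN0]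
      congr 1
      rw [he]
      field_simp
      ring
    have h4 : C₂ ^ q * cup q * 2 ^ k₀ < N ^ e := by
      rw [← hN2] at hk; exact hk
    have hE : EE (L + 1) (fun s => |s| ^ q) ≤ cup q * N ^ (q / 2) := by
      have h5 := EE_mono (L + 1) (fun s => |s| ^ q) (fun s => (2 + |s|) ^ q) (fun s =>
        Real.rpow_le_rpow (abs_nonneg _) (by linarith) hq0.le)
      have h6 := EE_up hq0.le (L + 1) (L + 1) le_rfl (by omega)
      push_cast at h6
      exact h5.trans h6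
    have hNq : 0 < N ^ (q / 2) := by positivity
    have h2k₀ : (0:ℝ) < 2 ^ k₀ := by positivity
    have h6 : C₂ ^ q * EE (L + 1) (fun s => |s| ^ q) < A ^ q := by
      have h7 : C₂ ^ q * EE (L + 1) (fun s => |s| ^ q) ≤ C₂ ^ q * (cup q * N ^ (q / 2)) :=
        mul_le_mul_of_nonneg_left hE (by positivity)
      refine lt_of_le_of_lt h7 ?_
      have h8 : (C₂ ^ q * (cup q * N ^ (q / 2))) * 2 ^ k₀ < A ^ q * 2 ^ k₀ := by
        rw [h1, mul_assoc (y ^ (q / (q - 1))), h2, h3]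
        calc (C₂ ^ q * (cup q * N ^ (q / 2))) * 2 ^ k₀ = N ^ (q / 2) * (C₂ ^ q * cup q * 2 ^ k₀) := by ring
          _ < N ^ (q / 2) * N ^ e := mul_lt_mul_of_pos_left h4 hNq
      exact lt_of_mul_lt_mul_right h8 h2k₀.le
    linarith

end Pool.Agent.Helper415.HB
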