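import Mathlib
import Pool.Agent.Helper415.HB13
import Pool.Agent.Helper415.TG1

/-! The case `p = 2` and the final theorem. -/

set_option autoImplicit false

open MeasureTheory Filter Topology
open scoped ENNReal

namespace Pool.Agent.Helper415.HB

open Pool.Agent.Helper415 Pool.Agent.Helper415.HA Pool.Agent.Helper415.TG Pool.Agent.Helper415.HaarD

section abs

variable {V : Type} [NormedAddCommGroup V] [NormedSpace ℝ V]

lemma run_antitone {F : V → V → ℝ} {D : Set V} {t : ℝ} {f₀ : V} {φ r : ℕ → V}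
    (h : IsRun F D t f₀ φ r) (k : ℕ) : ‖r (k + 1)‖ ≤ ‖r k‖ := by
  obtain ⟨h0, hs⟩ := h
  by_cases hk : r k = 0
  · rw [(hs k).1 hk, hk]
  · obtain ⟨_, G, ⟨_, hmin⟩, hrG⟩ := (hs k).2 hk
    have hmem : f₀ - r k ∈ Submodule.span ℝ (φ '' Set.Iio (k + 1)) := by
      cases k with
      | zero => rw [h0, sub_self]; exact Submodule.zero_mem _
      | succ j =>
        have hj : r j ≠ 0 := fun h => hk ((hs j).1 h)
        obtain ⟨_, G', ⟨hG', _⟩, hrG'⟩ := (hs j).2 hj
        rw [hrG', sub_sub_cancel]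
        exact Submodule.span_mono (Set.image_mono (Set.Iio_subset_Iio (Nat.le_succ _))) hG'
    have h1 := hmin _ hmem
    rw [sub_sub_cancel] at h1
    rw [hrG]; exact h1

lemma ag_basis_of {F : V → V → ℝ} {D : Set V} (h : AlmostGreedy F D) : AlmostGreedyBasis F D := by
  intro t ht0 ht1
  obtain ⟨C, hC, hmain⟩ := h t ht0 ht1
  refine ⟨max C 1, C, le_max_right _ _, hC, ?_⟩
  intro f₀ φ r hr m hm
  refine le_trans ?_ (hmain f₀ φ r hr m hm)
  have hanti : Antitone (fun k => ‖r k‖) := antitone_nat_of_succ_le (run_antitone hr)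
  apply hanti
  apply Nat.ceil_mono
  exact mul_le_mul_of_nonneg_right (le_max_left _ _) (Nat.cast_nonneg _)

end abs

lemma zero_of_flip1 (n : ℕ) {G : ℝ → ℝ} (h : ∀ x, G (fl n x) = - G x) : ∫ x, G x ∂μ1 = 0 := by
  have h0 : MeasurePreserving (flE n) μ1 μ1 := fl_mp n
  have h1 := h0.integral_comp' G
  have h2 : ∀ x, G (flE n x) = - G x := h
  simp_rw [h2] at h1
  rw [integral_neg] at h1
  linarith

lemma hz_orth (q : ℝ) {I J : Ix} (hne : I ≠ J) : ∫ x, hz q I x * hz q J x ∂μ1 = 0 := by
  have key : ∀ (I : Ix) (n k : ℕ), Below I n → ∫ x, hz q I x * hz q (some (n, k)) x ∂μ1 = 0 := by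
    intro I n k hI
    apply zero_of_flip1 n
    intro x
    rw [hz_fl_below hI, hz_fl_self]; ring
  rcases I with _ | ⟨n, k⟩
  · rcases J with _ | ⟨m, k'⟩
    · exact absurd rfl hne
    · exact key none m k' (fun n k h => absurd h (by simp))
  · rcases J with _ | ⟨m, k'⟩
    · have := key none n k (fun n k h => absurd h (by simp))
      rw [← this]; congr 1; funext x; ring
    · rcases lt_trichotomy n m with h | h | h
      · exact key _ m k' (fun n' k'' h' => by
          simp only [Option.some.injEq, Prod.mk.injEq] at h'; omega)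
      · subst h
        have hkk : k ≠ k' := fun h' => hne (by rw [h'])
        rw [← integral_zero (α := ℝ) (G := ℝ) (μ := μ1)]
        congr 1; funext x
        simp only [hz]
        by_cases h1 : cz n x = (k : ℤ)
        · have h2 : ¬ cz n x = (k' : ℤ) := by rw [h1]; exact_mod_cast hkk
          unfold ic; rw [if_neg h2]; ring
        · unfold ic; rw [if_neg h1]; ring
      · have := key (some (m, k')) n k (fun n' k'' h' => by
          simp only [Option.some.injEq, Prod.mk.injEq] at h'; omega)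
        rw [← this]; congr 1; funext x; ring

variable {d : ℕ}

lemma HH_orth (q : ℝ) {K K' : Fin d → Ix} (hne : K ≠ K') :
    ∫ x, HH q K x * HH q K' x ∂(μd d) = 0 := by
  obtain ⟨j, hj⟩ := Function.ne_iff.mp hne
  have h1 : (fun x : Fin d → ℝ => HH q K x * HH q K' x) =
      fun x => ∏ j, (fun j y => hz q (K j) y * hz q (K' j) y) j (x j) := by
    funext x; unfold HH; rw [← Finset.prod_mul_distrib]
  have h2 := int_prod (fun j y => hz q (K j) y * hz q (K' j) y)
  rw [h1, h2]
  exact Finset.prod_eq_zero (Finset.mem_univ j) (hz_orth q hj)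

lemma int_HH_pow_eq {q : ℝ} (hq : 0 < q) {K : Fin d → Ix} (hK : ∀ j, Valid (K j)) :
    ∫ x, |HH q K x| ^ q ∂(μd d) = 1 := by
  have h1 : (fun x : Fin d → ℝ => |HH q K x| ^ q) = fun x => ∏ j, (fun j y => |hz q (K j) y| ^ q) j (x j) := by
    funext x; unfold HH
    rw [Finset.abs_prod, Real.finsetProd_rpow _ _ (fun j _ => abs_nonneg _)]
  have h2 := int_prod (fun j y => |hz q (K j) y| ^ q)
  rw [h1, h2]
  apply Finset.prod_eq_one
  intro j _
  simp_rw [hz_pow hq]
  rw [integral_const_mul]
  have hv := hK j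
  generalize K j = I at hv ⊢
  cases I with
  | none => simp [icI, lev]
  | some J =>
    simp only [icI, lev]
    have hv' : J.2 < 2 ^ J.1 := hv
    rw [int_ic_eq hv', ← mul_pow]; norm_num

/-- For `p = 2` the Haar system is almost greedy. -/
theorem pos_two [Fact ((1:ℝ≥0∞) ≤ 2)] : AlmostGreedyBasis normingF (DH d 2) := by
  have h2 : (2:ℝ≥0∞).toReal = 2 := by simp
  have hsq : ∀ x : ℝ, |x| ^ (2:ℝ≥0∞).toReal = x ^ 2 := by
    intro x; rw [h2, Real.rpow_two, sq_abs]
  apply ag_basis_of
  apply ag_of le_rfl (by norm_num) (DH d 2) 1 one_pos DH_nonempty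
  · intro u hu
    obtain ⟨K, hK, hKu⟩ := DH_rep hu
    rw [norm_eq (by norm_num) (by norm_num) u _ hKu.symm, int_HH_pow_eq (by rw [h2]; norm_num) hK,
      Real.one_rpow]
  · intro u hu
    obtain ⟨K, hK, hKu⟩ := DH_rep hu
    have h3 := int_HH_pow_eq (q := (2:ℝ≥0∞).toReal) (by rw [h2]; norm_num) hK
    simp_rw [hsq] at h3
    rw [integral_congr_ae (hKu.mono (fun x hx => by show u x ^ 2 = HH (2:ℝ≥0∞).toReal K x ^ 2; rw [hx])), h3]
  · intro u hu v hv hne
    obtain ⟨K, hK, hKu⟩ := DH_rep hu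
    obtain ⟨K', hK', hKv⟩ := DH_rep hv
    have hKK : K ≠ K' := by
      intro h; subst h
      exact hne (Lp.ext (hKu.trans hKv.symm))
    rw [← HH_orth (2:ℝ≥0∞).toReal hKK]
    apply integral_congr_ae
    filter_upwards [hKu, hKv] with x h3 h4
    rw [h3, h4]

lemma cube_eq (d : ℕ) : cube d = μd d := by
  unfold cube μd μ1
  rw [volume_pi, Measure.restrict_pi_pi]
  congr 1
  funext i
  exact (Measure.restrict_congr_set Ico_ae_eq_Icc).symm

/-- The multivariate Haar basis is almost greedy with respect to the WCGA if and only if `p = 2`. -/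
theorem haar_multi (d : ℕ) (hd : 2 ≤ d) (p : ℝ≥0∞) [Fact (1 ≤ p)] (hp1 : 1 < p) (hptop : p ≠ ⊤) :
    AlmostGreedyBasis normingF (HaarMulti d p) ↔ p = 2 := by
  have key : ∀ μ : Measure (Fin d → ℝ), μ = μd d →
      (AlmostGreedyBasis normingF (classes μ p (haarSystemMulti d p.toReal)) ↔ p = 2) := by
    rintro μ rfl
    constructor
    · intro h
      have h01 : (⟨0, by omega⟩ : Fin d) ≠ ⟨1, by omega⟩ := by
        intro h; simp [Fin.ext_iff] at h
      rcases lt_trichotomy p 2 with h1 | h1 | h1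
      · exact absurd h (neg_lt h01 hp1 h1)
      · exact h1
      · exact absurd h (neg_gt h01 h1 hptop)
    · intro h
      subst h
      exact pos_two
  exact key (cube d) (cube_eq d)

end Pool.Agent.Helper415.HB
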