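import Mathlib

set_option autoImplicit false

namespace Pool.Agent.Helper415.RC

/-- `n x ^ (1 - 1/n)` -/
noncomputable def pw (n : ℕ) (x : ℝ) : ℝ := (n:ℝ) * x ^ (1 - 1 / (n:ℝ))

/-- `φ(x) = inf_{n ≥ 1} n x ^ (1 - 1/n)` -/
noncomputable def phi (x : ℝ) : ℝ := ⨅ n : ℕ, pw (n + 1) x

lemma pw_nonneg (n : ℕ) {x : ℝ} (hx : 0 ≤ x) : 0 ≤ pw n x := by
  unfold pw; positivity

lemma phi_le {x : ℝ} (hx : 0 ≤ x) (n : ℕ) (hn : 1 ≤ n) : phi x ≤ pw n x := by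
  obtain ⟨k, rfl⟩ : ∃ k, n = k + 1 := ⟨n - 1, by omega⟩
  exact ciInf_le ⟨0, by rintro _ ⟨j, rfl⟩; exact pw_nonneg _ hx⟩ k

lemma le_phi {x c : ℝ} (h : ∀ n : ℕ, 1 ≤ n → c ≤ pw n x) : c ≤ phi x :=
  le_ciInf fun n => h (n + 1) (by omega)

lemma phi_nonneg {x : ℝ} (hx : 0 ≤ x) : 0 ≤ phi x := le_phi fun n _ => pw_nonneg n hx

lemma pw_one (x : ℝ) : pw 1 x = 1 := by simp [pw]

lemma phi_le_one {x : ℝ} (hx : 0 ≤ x) : phi x ≤ 1 := by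
  have := phi_le hx 1 le_rfl
  rwa [pw_one] at this

lemma pw_two_zero : pw 2 0 = 0 := by
  unfold pw
  rw [Real.zero_rpow (by norm_num)]; simp

lemma phi_zero : phi 0 = 0 := by
  apply le_antisymm
  · have := phi_le (le_refl (0:ℝ)) 2 (by norm_num)
    rwa [pw_two_zero] at this
  · exact phi_nonneg le_rfl

/-- tangent inequality -/
lemma pw_le_tangent (n : ℕ) (hn : 1 ≤ n) {a A x : ℝ} (ha : 0 < a) (hA : 0 < A)
    (haA : a * A ^ n = 1) (hx : 0 ≤ x) : pw n x ≤ A * (((n:ℝ) - 1) * x + a) := by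
  have hn0 : (0:ℝ) < n := by exact_mod_cast hn
  have hn1 : (1:ℝ) ≤ n := by exact_mod_cast hn
  have h1 := Real.geom_mean_le_arith_mean2_weighted (w₁ := 1 - 1 / (n:ℝ)) (w₂ := 1 / (n:ℝ))
    (p₁ := x) (p₂ := a) (by rw [sub_nonneg, div_le_one hn0]; exact hn1) (by positivity) hx ha.le
    (by ring)
  have h2 : A * a ^ (1 / (n:ℝ)) = 1 := by
    have h3 : a = (A ^ n)⁻¹ := by field_simp; linarith
    rw [h3, Real.inv_rpow (by positivity), ← Real.rpow_natCast, ← Real.rpow_mul hA.le,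
      mul_one_div_cancel hn0.ne', Real.rpow_one]
    exact mul_inv_cancel₀ hA.ne'
  have h4 : pw n x = n * A * (x ^ (1 - 1 / (n:ℝ)) * a ^ (1 / (n:ℝ))) := by
    unfold pw
    calc (n:ℝ) * x ^ (1 - 1 / (n:ℝ)) = n * x ^ (1 - 1 / (n:ℝ)) * (A * a ^ (1 / (n:ℝ))) := by
          rw [h2, mul_one]
      _ = _ := by ring
  rw [h4]
  calc (n:ℝ) * A * (x ^ (1 - 1 / (n:ℝ)) * a ^ (1 / (n:ℝ)))
      ≤ n * A * ((1 - 1 / (n:ℝ)) * x + 1 / (n:ℝ) * a) :=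
        mul_le_mul_of_nonneg_left h1 (by positivity)
    _ = A * (((n:ℝ) - 1) * x + a) := by field_simp

/-- one step towards zero -/
lemma pw_succ_le (k : ℕ) (hk : 1 ≤ k) {b B x : ℝ} (hb : 0 < b) (hB : 0 < B)
    (hbB : b * B ^ k = 1) (hx : 0 ≤ x) : pw (k + 1) x ≤ (k:ℝ) * B * x + b := by
  have hk0 : (0:ℝ) < k := by exact_mod_cast hk
  have h1 := Real.geom_mean_le_arith_mean2_weighted (w₁ := 1 - 1 / ((k + 1 : ℕ):ℝ))
    (w₂ := 1 / ((k + 1 : ℕ):ℝ))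
    (p₁ := B * x) (p₂ := b) (by rw [sub_nonneg, div_le_one (by positivity)]; push_cast; linarith)
    (by positivity) (by positivity) hb.le (by ring)
  have h2 : B ^ (1 - 1 / ((k + 1 : ℕ):ℝ)) * b ^ (1 / ((k + 1 : ℕ):ℝ)) = 1 := by
    have h3 : b = (B ^ k)⁻¹ := by field_simp; linarith
    rw [h3, Real.inv_rpow (by positivity), ← Real.rpow_natCast, ← Real.rpow_mul hB.le]
    have e : (k:ℝ) * (1 / ((k + 1 : ℕ):ℝ)) = 1 - 1 / ((k + 1 : ℕ):ℝ) := by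
      push_cast; field_simp; ring
    rw [e]
    exact mul_inv_cancel₀ (by positivity)
  have h4 : pw (k + 1) x = ((k + 1 : ℕ):ℝ) *
      ((B * x) ^ (1 - 1 / ((k + 1 : ℕ):ℝ)) * b ^ (1 / ((k + 1 : ℕ):ℝ))) := by
    unfold pw
    rw [Real.mul_rpow hB.le hx]
    calc ((k + 1 : ℕ):ℝ) * x ^ (1 - 1 / ((k + 1 : ℕ):ℝ))
        = ((k + 1 : ℕ):ℝ) * x ^ (1 - 1 / ((k + 1 : ℕ):ℝ)) *
          (B ^ (1 - 1 / ((k + 1 : ℕ):ℝ)) * b ^ (1 / ((k + 1 : ℕ):ℝ))) := by rw [h2, mul_one]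
      _ = _ := by ring
  rw [h4]
  calc ((k + 1 : ℕ):ℝ) * ((B * x) ^ (1 - 1 / ((k + 1 : ℕ):ℝ)) * b ^ (1 / ((k + 1 : ℕ):ℝ)))
      ≤ ((k + 1 : ℕ):ℝ) * ((1 - 1 / ((k + 1 : ℕ):ℝ)) * (B * x) + 1 / ((k + 1 : ℕ):ℝ) * b) :=
        mul_le_mul_of_nonneg_left h1 (by positivity)
    _ = (k:ℝ) * B * x + b := by push_cast; field_simp; ring

/-- the minimum is attained -/
lemma phi_attained {x : ℝ} (hx : 0 < x) (hx1 : x ≤ 1) : ∃ n : ℕ, 1 ≤ n ∧ phi x = pw n x := by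
  -- for large n, pw n x ≥ n x > 1
  obtain ⟨N, hN⟩ := exists_nat_gt (1 / x)
  have hbig : ∀ n : ℕ, N ≤ n → 1 ≤ n → 1 ≤ pw n x := by
    intro n hn hn1
    have hn0 : (0:ℝ) < n := by exact_mod_cast hn1
    have h1 : x ≤ x ^ (1 - 1 / (n:ℝ)) := by
      calc x = x ^ (1:ℝ) := (Real.rpow_one x).symm
        _ ≤ x ^ (1 - 1 / (n:ℝ)) := Real.rpow_le_rpow_of_exponent_ge hx hx1
          (by have : 0 ≤ 1 / (n:ℝ) := by positivity
              linarith)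
    have h2 : (N:ℝ) ≤ n := by exact_mod_cast hn
    unfold pw
    calc (1:ℝ) = 1 / x * x := by field_simp
      _ ≤ n * x := mul_le_mul_of_nonneg_right (by linarith) hx.le
      _ ≤ _ := mul_le_mul_of_nonneg_left h1 hn0.le
  obtain ⟨n, hn, hmin⟩ := Finset.exists_min_image (Finset.Icc 1 (N + 1)) (fun n => pw n x)
    ⟨1, by simp⟩
  have hn1 : 1 ≤ n := (Finset.mem_Icc.mp hn).1
  refine ⟨n, hn1, le_antisymm (phi_le hx.le n hn1) (le_phi fun j hj => ?_)⟩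
  by_cases hjN : j ≤ N + 1
  · exact hmin j (Finset.mem_Icc.mpr ⟨hj, hjN⟩)
  · have h1 : pw n x ≤ pw 1 x := hmin 1 (by simp)
    rw [pw_one] at h1
    exact h1.trans (hbig j (by omega) hj)

/-- value at the index -/
lemma pw_eq (n : ℕ) (hn : 1 ≤ n) {a A : ℝ} (ha : 0 < a) (hA : 0 < A) (haA : a * A ^ n = 1) :
    pw n a = n * (a * A) := by
  have hn0 : (0:ℝ) < n := by exact_mod_cast hn
  have h2 : A * a ^ (1 / (n:ℝ)) = 1 := by
    have h3 : a = (A ^ n)⁻¹ := by field_simp; linarith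
    rw [h3, Real.inv_rpow (by positivity), ← Real.rpow_natCast, ← Real.rpow_mul hA.le,
      mul_one_div_cancel hn0.ne', Real.rpow_one]
    exact mul_inv_cancel₀ hA.ne'
  unfold pw
  rw [Real.rpow_sub ha, Real.rpow_one]
  have h5 : a ^ (1 / (n:ℝ)) = A⁻¹ := by
    field_simp
    linarith [h2]
  rw [h5, div_inv_eq_mul]

lemma exists_root (n : ℕ) (hn : 1 ≤ n) {a : ℝ} (ha : 0 < a) : ∃ A : ℝ, 0 < A ∧ a * A ^ n = 1 := by
  refine ⟨a ^ (-(1 / (n:ℝ))), by positivity, ?_⟩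
  have hn0 : (0:ℝ) < n := by exact_mod_cast hn
  rw [← Real.rpow_natCast, ← Real.rpow_mul ha.le, neg_mul, one_div_mul_cancel hn0.ne',
    Real.rpow_neg_one]
  exact mul_inv_cancel₀ ha.ne'

end Pool.Agent.Helper415.RC
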