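import Mathlib
import Pool.Agent.Helper415.RC1

set_option autoImplicit false

namespace Pool.Agent.Helper415.RC

set_option maxHeartbeats 4000000 in
lemma core_num (n k : ℕ) (hk : 1 ≤ k) (hn : k ≤ n) {a b A B lam Φ : ℝ} (ha : 0 < a) (hab : a < b)
    (hl0 : 0 ≤ lam) (hl1 : lam ≤ 1) (hA : 0 < A) (hB : 0 < B)
    (haA : a * A ^ n = 1) (hbB : b * B ^ k = 1)
    (hA2 : 2 ≤ n → 2 ≤ A) (hA3 : 3 ≤ n → 9 / 4 ≤ A) (hA2' : n = 2 → A ≤ 27 / 8)
    (hB1 : k = 1 → B ≤ 4) (hB2 : k = 2 → B ≤ 27 / 8) (hB3 : 3 ≤ k → B ≤ 13 / 4)
    (hTa : Φ ≤ A * (((n:ℝ) - 1) * ((1 - lam) * a + lam * b) + a))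
    (hTb : Φ ≤ B * (((k:ℝ) - 1) * ((1 - lam) * a + lam * b) + b))
    (hZ : Φ ≤ (k:ℝ) * B * ((1 - lam) * a + lam * b) + b) :
    Φ ≤ (1 - lam) * (n * (a * A)) + lam * (k * (b * B)) + (b - a) := by
  by_contra hcon
  push Not at hcon
  have hh : 0 < b - a := sub_pos.mpr hab
  have hbp : 0 < b := ha.trans hab
  have hm0 : 0 ≤ 1 - lam := by linarith
  obtain ⟨δ, hδ⟩ : ∃ δ : ℝ, δ = n * A - k * B := ⟨_, rfl⟩
  have e1 : b - a < (1 - lam) * ((b - a) * B - a * δ) := by
    have := hcon.trans_le hTb
    rw [hδ]; nlinarith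
  have e2 : b - a < lam * (b * δ - (b - a) * A) := by
    have := hcon.trans_le hTa
    rw [hδ]; nlinarith
  have e3 : (1 - lam) * δ < 1 := by
    have h1 := hcon.trans_le hZ
    have h2 : (1 - lam) * δ * a < 1 * a := by rw [hδ]; nlinarith
    exact lt_of_mul_lt_mul_right h2 ha.le
  have hδ0 : 0 < δ := by
    by_contra h0
    push Not at h0
    have h1 : b * δ - (b - a) * A ≤ 0 := by nlinarith [mul_pos hh hA]
    nlinarith [mul_nonneg hl0 (neg_nonneg.mpr h1)]
  have hm : 0 < 1 - lam := by
    rcases hm0.eq_or_lt with h0 | h0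
    · rw [← h0, zero_mul] at e1; linarith
    · exact h0
  have e4 : b * δ < (b - a) * B := by
    have h1 : (1 - lam) * ((b - a) * δ) < (1 - lam) * ((b - a) * B - a * δ) := by
      have : (1 - lam) * ((b - a) * δ) < b - a := by nlinarith
      linarith
    have h2 := lt_of_mul_lt_mul_left h1 hm.le
    nlinarith
  have e5 : 1 < lam * (B - A) := by
    have h1 : lam * (b * δ - (b - a) * A) ≤ lam * ((b - a) * B - (b - a) * A) :=
      mul_le_mul_of_nonneg_left (by linarith) hl0
    have h2 : 1 * (b - a) < lam * (B - A) * (b - a) := by nlinarith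
    exact lt_of_mul_lt_mul_right h2 hh.le
  have e6 : 1 < (1 - lam) * B := by
    have h1 : (1 - lam) * ((b - a) * B - a * δ) ≤ (1 - lam) * ((b - a) * B) :=
      mul_le_mul_of_nonneg_left (by nlinarith [mul_pos ha hδ0]) hm.le
    have h2 : 1 * (b - a) < (1 - lam) * B * (b - a) := by nlinarith
    exact lt_of_mul_lt_mul_right h2 hh.le
  rcases Nat.lt_or_ge k 3 with hk3 | hk3
  · interval_cases k
    · -- k = 1
      have hB4 := hB1 rfl
      rw [pow_one] at hbB
      rcases Nat.lt_or_ge n 3 with hn3 | hn3
      · interval_cases n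
        · -- n = 1
          rw [pow_one] at haA
          have : B < A := by
            have h1 : a * B < a * A := by
              rw [haA, ← hbB]; exact mul_lt_mul_of_pos_right hab hB
            exact lt_of_mul_lt_mul_left h1 ha.le
          nlinarith
        · -- n = 2
          have hA27 := hA2' rfl
          have hδ' : δ = 2 * A - B := by rw [hδ]; push_cast; ring
          obtain ⟨α, hα⟩ : ∃ α : ℝ, α * (b - a) = b * δ - (b - a) * A :=
            ⟨(b * δ - (b - a) * A) / (b - a), by field_simp⟩
          obtain ⟨β, hβ⟩ : ∃ β : ℝ, β * (b - a) = (b - a) * B - a * δ :=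
            ⟨((b - a) * B - a * δ) / (b - a), by field_simp⟩
          have hsum : α + β = A := by
            have : (α + β) * (b - a) = A * (b - a) := by
              rw [add_mul, hα, hβ, hδ']; ring
            exact mul_right_cancel₀ hh.ne' this
          have f1 : 1 < lam * α := by
            have h2 : 1 * (b - a) < lam * α * (b - a) := by
              rw [mul_assoc, hα, one_mul]; exact e2
            exact lt_of_mul_lt_mul_right h2 hh.le
          have f2 : 1 < (1 - lam) * β := by
            have h2 : 1 * (b - a) < (1 - lam) * β * (b - a) := by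
              rw [mul_assoc, hβ, one_mul]; exact e1
            exact lt_of_mul_lt_mul_right h2 hh.le
          have hα0 : 0 < α := by
            by_contra h; push Not at h; nlinarith
          have hβ0 : 0 < β := by
            by_contra h; push Not at h; nlinarith
          have f3 : 1 < (lam * α) * ((1 - lam) * β) := by nlinarith [mul_pos (sub_pos.mpr f1) (sub_pos.mpr f2)]
          have f4 : lam * (1 - lam) ≤ 1 / 4 := by nlinarith [sq_nonneg (lam - 1 / 2)]
          have f5 : 4 < α * β := by nlinarith [mul_pos hα0 hβ0]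
          nlinarith [sq_nonneg (α - β)]
      · -- n ≥ 3
        have hA94 := hA3 hn3
        have hb4 : 1 / 4 ≤ b := by
          by_contra h; push Not at h
          nlinarith
        have hnA : (0:ℝ) < n * A := by positivity
        -- (n A) b^2 - 2 b + a < 0
        have g1 : (n * A) * b ^ 2 - 2 * b + a < 0 := by
          have h1 : b * (b * δ) < b * ((b - a) * B) := mul_lt_mul_of_pos_left e4 hbp
          have h2 : b * ((b - a) * B) = b - a := by
            calc b * ((b - a) * B) = (b - a) * (b * B) := by ring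
              _ = b - a := by rw [hbB, mul_one]
          have h3 : b * (b * δ) = (n * A) * b ^ 2 - b := by
            rw [hδ]; push_cast
            calc b * (b * (n * A - 1 * B)) = (n * A) * b ^ 2 - b * (b * B) := by ring
              _ = _ := by rw [hbB, mul_one]
          rw [h2, h3] at h1
          linarith
        rcases Nat.lt_or_ge n 4 with hn4 | hn4
        · have : n = 3 := by omega
          subst this
          push_cast at g1
          have g2 : 3 * A / 16 - 1 / 2 ≤ 3 * A * b ^ 2 - 2 * b := by
            have : 0 ≤ (b - 1 / 4) * (3 * A * (b + 1 / 4) - 2) := by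
              apply mul_nonneg (by linarith)
              nlinarith
            nlinarith
          have g3 : 3 * A / 16 - 1 / 2 + a < 0 := by linarith
          have g4 : 0 ≤ (A - 2) ^ 2 * (3 * A ^ 2 + 4 * A + 4) := by positivity
          have g5 : (3 * A / 16 - 1 / 2 + a) * (16 * A ^ 3) =
              (A - 2) ^ 2 * (3 * A ^ 2 + 4 * A + 4) := by
            have : (3 * A / 16 - 1 / 2 + a) * (16 * A ^ 3) =
              3 * A ^ 4 - 8 * A ^ 3 + 16 * (a * A ^ 3) := by ring
            rw [this, haA]; ring
          have g6 : 0 < 16 * A ^ 3 := by positivity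
          nlinarith [mul_neg_of_neg_of_pos g3 g6]
        · have hn4' : (4:ℝ) ≤ n := by exact_mod_cast hn4
          have g2 : (9:ℝ) ≤ n * A := by nlinarith
          nlinarith [mul_nonneg (sub_nonneg.mpr g2) (sq_nonneg b)]
    · -- k = 2
      have hA2v := hA2 hn
      have hB27 := hB2 rfl
      have h1 : lam * (B - A) ≤ lam * (11 / 8) := mul_le_mul_of_nonneg_left (by linarith) hl0
      have h2 : (1 - lam) * B ≤ (1 - lam) * (27 / 8) := mul_le_mul_of_nonneg_left hB27 hm.le
      nlinarith
  · have hA94 := hA3 (hk3.trans hn)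
    have hB13 := hB3 hk3
    have h1 : lam * (B - A) ≤ lam * 1 := mul_le_mul_of_nonneg_left (by linarith) hl0
    linarith

end Pool.Agent.Helper415.RC
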