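import Mathlib
import Pool.Agent.Helper415.RC2

set_option autoImplicit false

namespace Pool.Agent.Helper415.RC

/-- upper window -/
lemma win_up (k : ℕ) (hk : 1 ≤ k) {b B : ℝ} (hb : 0 < b) (hB : 0 < B) (hbB : b * B ^ k = 1)
    (hmin : phi b = pw k b) : (k:ℝ) ^ (k + 1) * B ≤ ((k:ℝ) + 1) ^ (k + 1) := by
  obtain ⟨C, hC, hbC⟩ := exists_root (k + 1) (by omega) hb
  have h1 : pw k b ≤ pw (k + 1) b := hmin ▸ phi_le hb.le (k + 1) (by omega)
  rw [pw_eq k hk hb hB hbB, pw_eq (k + 1) (by omega) hb hC hbC] at h1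
  have h2 : (k:ℝ) * B ≤ ((k:ℝ) + 1) * C := by
    have : ((k:ℝ) * B) * b ≤ (((k:ℝ) + 1) * C) * b := by push_cast at h1; nlinarith
    exact le_of_mul_le_mul_right this hb
  have hk0 : (0:ℝ) < k := by exact_mod_cast hk
  have h3 := pow_le_pow_left₀ (by positivity) h2 (k + 1)
  rw [mul_pow, mul_pow] at h3
  -- B^(k+1) = B * B^k, C^(k+1) = B^k
  have h4 : C ^ (k + 1) = B ^ k := by
    have : b * C ^ (k + 1) = b * B ^ k := by rw [hbC, hbB]
    exact mul_left_cancel₀ hb.ne' this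
  rw [h4, pow_succ B k] at h3
  have h5 : ((k:ℝ) ^ (k + 1) * B) * B ^ k ≤ (((k:ℝ) + 1) ^ (k + 1)) * B ^ k := by linarith
  exact le_of_mul_le_mul_right h5 (by positivity)

/-- lower window -/
lemma win_low (j : ℕ) (hj : 1 ≤ j) {a A : ℝ} (ha : 0 < a) (hA : 0 < A) (haA : a * A ^ (j + 1) = 1)
    (hmin : phi a = pw (j + 1) a) : ((j:ℝ) + 1) ^ j ≤ (j:ℝ) ^ j * A := by
  obtain ⟨D, hD, haD⟩ := exists_root j hj ha
  have h1 : pw (j + 1) a ≤ pw j a := hmin ▸ phi_le ha.le j hj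
  rw [pw_eq j hj ha hD haD, pw_eq (j + 1) (by omega) ha hA haA] at h1
  have h2 : ((j:ℝ) + 1) * A ≤ (j:ℝ) * D := by
    have : (((j:ℝ) + 1) * A) * a ≤ ((j:ℝ) * D) * a := by push_cast at h1; nlinarith
    exact le_of_mul_le_mul_right this ha
  have hj0 : (0:ℝ) < j := by exact_mod_cast hj
  have h3 := pow_le_pow_left₀ (by positivity) h2 j
  rw [mul_pow, mul_pow] at h3
  have h4 : D ^ j = A ^ (j + 1) := by
    have : a * D ^ j = a * A ^ (j + 1) := by rw [haD, haA]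
    exact mul_left_cancel₀ ha.ne' this
  rw [h4, pow_succ A j] at h3
  have h5 : (((j:ℝ) + 1) ^ j) * A ^ j ≤ ((j:ℝ) ^ j * A) * A ^ j := by linarith
  exact le_of_mul_le_mul_right h5 (by positivity)

lemma pow_second (t : ℝ) (ht : 0 ≤ t) (j : ℕ) :
    1 + j * t + (j:ℝ) * ((j:ℝ) - 1) / 2 * t ^ 2 ≤ (1 + t) ^ j := by
  induction j with
  | zero => simp
  | succ j ih =>
    rw [pow_succ]
    have h1 := mul_le_mul_of_nonneg_right ih (by linarith : 0 ≤ 1 + t)
    refine le_trans ?_ h1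
    push_cast
    have h2 : 0 ≤ (j:ℝ) * ((j:ℝ) - 1) / 2 * t ^ 3 := by
      rcases Nat.eq_zero_or_pos j with h | h
      · subst h; simp
      · have : (1:ℝ) ≤ j := by exact_mod_cast h
        have h3 : 0 ≤ (j:ℝ) - 1 := by linarith
        positivity
    nlinarith

lemma low_num (j : ℕ) (hj : 2 ≤ j) {A : ℝ} (h : ((j:ℝ) + 1) ^ j ≤ (j:ℝ) ^ j * A) : 9 / 4 ≤ A := by
  have hj0 : (0:ℝ) < j := by exact_mod_cast (by omega : 0 < j)
  have hj2 : (2:ℝ) ≤ j := by exact_mod_cast hj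
  have h1 := pow_second (1 / (j:ℝ)) (by positivity) j
  have h2 : (1 + 1 / (j:ℝ)) ^ j ≤ A := by
    have : 1 + 1 / (j:ℝ) = ((j:ℝ) + 1) / j := by field_simp
    rw [this, div_pow, div_le_iff₀ (by positivity)]
    linarith
  have h3 : 1 + (j:ℝ) * (1 / (j:ℝ)) + (j:ℝ) * ((j:ℝ) - 1) / 2 * (1 / (j:ℝ)) ^ 2 =
      2 + ((j:ℝ) - 1) / (2 * j) := by field_simp; ring
  rw [h3] at h1
  have h4 : 1 / 4 ≤ ((j:ℝ) - 1) / (2 * j) := by
    rw [div_le_div_iff₀ (by norm_num) (by positivity)]; linarith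
  linarith

lemma up_num (k : ℕ) (hk : 3 ≤ k) {B : ℝ} (h : (k:ℝ) ^ (k + 1) * B ≤ ((k:ℝ) + 1) ^ (k + 1)) :
    B ≤ 13 / 4 := by
  have hk0 : (0:ℝ) < k := by exact_mod_cast (by omega : 0 < k)
  rcases Nat.lt_or_ge k 6 with hk6 | hk6
  · interval_cases k
    · norm_num at h; linarith
    · norm_num at h; linarith
    · norm_num at h; linarith
  · have hk6' : (6:ℝ) ≤ k := by exact_mod_cast hk6
    have h2 : B ≤ (1 + 1 / (k:ℝ)) ^ (k + 1) := by
      have : 1 + 1 / (k:ℝ) = ((k:ℝ) + 1) / k := by field_simp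
      rw [this, div_pow, le_div_iff₀ (by positivity)]
      linarith
    have h3 : (1 + 1 / (k:ℝ)) ^ (k + 1) ≤ Real.exp (1 / (k:ℝ)) ^ (k + 1) := by
      apply pow_le_pow_left₀ (by positivity)
      linarith [Real.add_one_le_exp (1 / (k:ℝ))]
    rw [← Real.exp_nat_mul] at h3
    have h4 : ((k + 1 : ℕ):ℝ) * (1 / (k:ℝ)) ≤ 7 / 6 := by
      push_cast
      rw [mul_one_div, div_le_div_iff₀ hk0 (by norm_num)]; linarith
    have h5 : Real.exp (7 / 6) ≤ 13 / 4 := by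
      have h6 : Real.exp (7 / 6) ^ 6 ≤ (13 / 4) ^ 6 := by
        rw [← Real.exp_nat_mul]
        have : ((6:ℕ):ℝ) * (7 / 6) = ((7:ℕ):ℝ) * 1 := by norm_num
        rw [this, Real.exp_nat_mul]
        calc Real.exp 1 ^ 7 ≤ (2.7182818286:ℝ) ^ 7 :=
              pow_le_pow_left₀ (Real.exp_pos _).le Real.exp_one_lt_d9.le 7
          _ ≤ (13 / 4) ^ 6 := by norm_num
      exact le_of_pow_le_pow_left₀ (by norm_num) (by norm_num) h6
    exact h2.trans (h3.trans ((Real.exp_le_exp.mpr h4).trans h5))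

lemma crossing (n k : ℕ) (hn : 1 ≤ n) (hk : 1 ≤ k) {a b : ℝ} (ha : 0 < a) (hab : a < b)
    (h1 : pw n a ≤ pw k a) (h2 : pw k b ≤ pw n b) : k ≤ n := by
  by_contra hlt
  push Not at hlt
  have hn0 : (0:ℝ) < n := by exact_mod_cast hn
  have hk0 : (0:ℝ) < k := by exact_mod_cast hk
  have hb : 0 < b := ha.trans hab
  unfold pw at h1 h2
  have e1 : (1:ℝ) - 1 / n < 1 - 1 / k := by
    have : (1:ℝ) / k < 1 / n := one_div_lt_one_div_of_lt hn0 (by exact_mod_cast hlt)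
    linarith
  have h3 : (a / b) ^ ((1:ℝ) - 1 / k) < (a / b) ^ ((1:ℝ) - 1 / n) :=
    Real.rpow_lt_rpow_of_exponent_gt (by positivity) ((div_lt_one hb).mpr hab) e1
  rw [Real.div_rpow ha.le hb.le, Real.div_rpow ha.le hb.le,
    div_lt_div_iff₀ (by positivity) (by positivity)] at h3
  have h4 := mul_le_mul h1 h2 (by positivity) (by positivity)
  have h5 : (n:ℝ) * k * (a ^ ((1:ℝ) - 1 / k) * b ^ ((1:ℝ) - 1 / n)) <
      n * k * (a ^ ((1:ℝ) - 1 / n) * b ^ ((1:ℝ) - 1 / k)) :=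
    mul_lt_mul_of_pos_left h3 (by positivity)
  nlinarith

/-- the two point inequality -/
theorem two_point {a b lam : ℝ} (ha : 0 ≤ a) (hab : a < b) (hb1 : b ≤ 1) (hl0 : 0 ≤ lam)
    (hl1 : lam ≤ 1) :
    phi ((1 - lam) * a + lam * b) ≤ (1 - lam) * phi a + lam * phi b + (b - a) := by
  have hb : 0 < b := lt_of_le_of_lt ha hab
  have hx0 : 0 ≤ (1 - lam) * a + lam * b := by
    have : 0 ≤ 1 - lam := by linarith
    positivity
  obtain ⟨k, hk, hkb⟩ := phi_attained hb hb1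
  obtain ⟨B, hB, hbB⟩ := exists_root k hk hb
  have hZ : phi ((1 - lam) * a + lam * b) ≤ (k:ℝ) * B * ((1 - lam) * a + lam * b) + b :=
    (phi_le hx0 (k + 1) (by omega)).trans (pw_succ_le k hk hb hB hbB hx0)
  have hphib : phi b = k * (b * B) := by rw [hkb, pw_eq k hk hb hB hbB]
  rcases ha.eq_or_lt with ha0 | ha0
  · subst ha0
    rw [phi_zero, hphib]
    linarith
  · obtain ⟨n, hn, hna⟩ := phi_attained ha0 (hab.le.trans hb1)
    obtain ⟨A, hA, haA⟩ := exists_root n hn ha0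
    have hphia : phi a = n * (a * A) := by rw [hna, pw_eq n hn ha0 hA haA]
    have hkn : k ≤ n := crossing n k hn hk ha0 hab (hna ▸ phi_le ha0.le k hk)
      (hkb ▸ phi_le hb.le n hn)
    have hTa := (phi_le hx0 n hn).trans (pw_le_tangent n hn ha0 hA haA hx0)
    have hTb := (phi_le hx0 k hk).trans (pw_le_tangent k hk hb hB hbB hx0)
    have hA3 : 3 ≤ n → 9 / 4 ≤ A := by
      intro h
      obtain ⟨j, rfl⟩ : ∃ j, n = j + 1 := ⟨n - 1, by omega⟩
      exact low_num j (by omega) (win_low j (by omega) ha0 hA haA hna)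
    have hA2 : 2 ≤ n → 2 ≤ A := by
      intro h
      rcases Nat.lt_or_ge n 3 with h3 | h3
      · obtain rfl : n = 2 := by omega
        have := win_low 1 le_rfl ha0 hA haA hna
        norm_num at this
        linarith
      · linarith [hA3 h3]
    have hA2' : n = 2 → A ≤ 27 / 8 := by
      intro h; subst h
      have := win_up 2 (by norm_num) ha0 hA haA hna
      norm_num at this
      linarith
    have hwB := win_up k hk hb hB hbB hkb
    have hB1 : k = 1 → B ≤ 4 := by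
      intro h; subst h
      norm_num at hwB
      linarith
    have hB2 : k = 2 → B ≤ 27 / 8 := by
      intro h; subst h
      norm_num at hwB
      linarith
    have hB3 : 3 ≤ k → B ≤ 13 / 4 := fun h => up_num k h hwB
    rw [hphia, hphib]
    exact core_num n k hk hkn ha0 hab hl0 hl1 hA hB haA hbB hA2 hA3 hA2' hB1 hB2 hB3 hTa hTb hZ

end Pool.Agent.Helper415.RC
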