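import Mathlib
import Pool.Agent.Helper415.RC3

set_option autoImplicit false

namespace Pool.Agent.Helper415.RC

lemma phi_mono {a b : ℝ} (ha : 0 ≤ a) (hab : a ≤ b) : phi a ≤ phi b := by
  apply le_phi
  intro n hn
  refine (phi_le ha n hn).trans ?_
  unfold pw
  have hn0 : (0:ℝ) < n := by exact_mod_cast hn
  have hn1 : (1:ℝ) ≤ n := by exact_mod_cast hn
  exact mul_le_mul_of_nonneg_left (Real.rpow_le_rpow ha hab
    (by rw [sub_nonneg, div_le_one hn0]; exact hn1)) hn0.le

lemma phi_concave {a b lam : ℝ} (ha : 0 ≤ a) (hb : 0 ≤ b) (hl0 : 0 ≤ lam) (hl1 : lam ≤ 1) :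
    (1 - lam) * phi a + lam * phi b ≤ phi ((1 - lam) * a + lam * b) := by
  apply le_phi
  intro n hn
  have hn0 : (0:ℝ) < n := by exact_mod_cast hn
  have hn1 : (1:ℝ) ≤ n := by exact_mod_cast hn
  have hcc := Real.concaveOn_rpow (p := 1 - 1 / (n:ℝ))
    (by rw [sub_nonneg, div_le_one hn0]; exact hn1)
    (by have : 0 ≤ 1 / (n:ℝ) := by positivity
        linarith)
  have hc := hcc.2 (Set.mem_Ici.mpr ha) (Set.mem_Ici.mpr hb) (by linarith : 0 ≤ 1 - lam) hl0
    (by ring)
  simp only [smul_eq_mul] at hc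
  have h1 := mul_le_mul_of_nonneg_left (phi_le ha n hn) (by linarith : 0 ≤ 1 - lam)
  have h2 := mul_le_mul_of_nonneg_left (phi_le hb n hn) hl0
  have h3 := mul_le_mul_of_nonneg_left hc hn0.le
  unfold pw at h1 h2 ⊢
  nlinarith

lemma phi_quarter : phi (1 / 4) = 1 := by
  apply le_antisymm (phi_le_one (by norm_num))
  apply le_phi
  intro n hn
  have hn0 : (0:ℝ) < n := by exact_mod_cast hn
  unfold pw
  rcases Nat.lt_or_ge n 4 with h4 | h4
  · interval_cases n
    · norm_num
    · have : (1 / 4 : ℝ) ^ (1 - 1 / ((2:ℕ):ℝ)) = 1 / 2 := by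
        have e : (1:ℝ) - 1 / ((2:ℕ):ℝ) = 1 / 2 := by norm_num
        rw [e, ← Real.sqrt_eq_rpow]
        rw [show (1 / 4 : ℝ) = (1 / 2) ^ 2 by norm_num]
        exact Real.sqrt_sq (by norm_num)
      rw [this]; norm_num
    · -- 3 * (1/4)^(2/3) ≥ 1
      have h1 : (1 / 3 : ℝ) ≤ (1 / 4 : ℝ) ^ (1 - 1 / ((3:ℕ):ℝ)) := by
        apply le_of_pow_le_pow_left₀ (n := 3) (by norm_num) (by positivity)
        rw [← Real.rpow_natCast ((1 / 4 : ℝ) ^ _), ← Real.rpow_mul (by norm_num)]
        have e : ((1:ℝ) - 1 / ((3:ℕ):ℝ)) * ((3:ℕ):ℝ) = ((2:ℕ):ℝ) := by norm_num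
        rw [e, Real.rpow_natCast]
        norm_num
      push_cast at h1 ⊢
      linarith
  · have h4' : (4:ℝ) ≤ n := by exact_mod_cast h4
    have h1 : (1 / 4 : ℝ) ≤ (1 / 4 : ℝ) ^ (1 - 1 / (n:ℝ)) := by
      calc (1 / 4 : ℝ) = (1 / 4) ^ (1:ℝ) := (Real.rpow_one _).symm
        _ ≤ _ := Real.rpow_le_rpow_of_exponent_ge (by norm_num) (by norm_num)
          (by have : 0 ≤ 1 / (n:ℝ) := by positivity
              linarith)
    nlinarith

lemma phi_eq_one {x : ℝ} (hx : 1 / 4 ≤ x) : phi x = 1 :=
  le_antisymm (phi_le_one (by linarith))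
    (phi_quarter ▸ phi_mono (by norm_num) hx)

lemma phi_ge_four {x : ℝ} (hx : 0 ≤ x) (hx4 : x ≤ 1 / 4) : 4 * x ≤ phi x := by
  have := phi_concave (a := 0) (b := 1 / 4) (lam := 4 * x) le_rfl (by norm_num) (by linarith)
    (by linarith)
  rw [phi_zero, phi_quarter] at this
  have e : (1 - 4 * x) * 0 + 4 * x * (1 / 4) = x := by ring
  rw [e] at this
  linarith

lemma mixed {a c μ : ℝ} (ha : 0 ≤ a) (hc : 0 ≤ c) (ha4 : a ≤ 1 / 4) (hc4 : c ≤ 1 / 4)
    (hμ0 : 0 ≤ μ) (hμ : μ ≤ 1 / 4) :
    phi (c + μ * (1 - a - c)) ≤ μ * phi a + (1 - μ) * phi c + (1 - a - c) := by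
  obtain ⟨w, hw⟩ : ∃ w : ℝ, w = 1 - a - c := ⟨_, rfl⟩
  have hw2 : 1 / 2 ≤ w := by rw [hw]; linarith
  have hw1 : w ≤ 1 := by rw [hw]; linarith
  rw [← hw]
  have hwp : 0 < w := by linarith
  obtain ⟨h, hh⟩ : ∃ h : ℝ, h = μ * w := ⟨_, rfl⟩
  rw [← hh]
  have hh0 : 0 ≤ h := by rw [hh]; positivity
  have hh4 : h ≤ w / 4 := by rw [hh]; nlinarith
  have hfa := phi_le_one ha
  have hfc := phi_le_one hc
  have hfa0 := phi_nonneg ha
  have hfc0 := phi_nonneg hc
  have hfa4 := phi_ge_four ha ha4
  have hfc4 := phi_ge_four hc hc4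
  obtain ⟨P, hP⟩ : ∃ P : ℝ, P = 1 - phi c := ⟨_, rfl⟩
  obtain ⟨Q, hQ⟩ : ∃ Q : ℝ, Q = 1 - phi a := ⟨_, rfl⟩
  have hP0 : 0 ≤ P := by rw [hP]; linarith
  have hQ0 : 0 ≤ Q := by rw [hQ]; linarith
  rcases le_or_gt P h with hPh | hPh
  · have h1 : phi (c + h) ≤ 1 := phi_le_one (by linarith)
    have h2 : μ * phi c ≤ 1 / 4 := by nlinarith
    have h3 : 0 ≤ μ * phi a := by positivity
    nlinarith
  · rcases hh0.eq_or_lt with h0 | h0
    · have hμ' : μ = 0 := by
        rcases mul_eq_zero.mp (hh ▸ h0.symm : μ * w = 0) with h1 | h1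
        · exact h1
        · linarith
      rw [← h0, hμ', add_zero]
      linarith
    · have hPp : 0 < P := h0.trans hPh
      obtain ⟨s, hs⟩ : ∃ s : ℝ, s = Real.sqrt (h * P) := ⟨_, rfl⟩
      have hs2 : s ^ 2 = h * P := by rw [hs]; exact Real.sq_sqrt (by positivity)
      have hs0 : 0 < s := by rw [hs]; exact Real.sqrt_pos.mpr (by positivity)
      have hhs : h ≤ s := by
        apply le_of_sq_le_sq _ hs0.le
        rw [hs2, sq]; exact mul_le_mul_of_nonneg_left hPh.le h0.le
      have hP1 : P ≤ 1 := by rw [hP]; linarith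
      have hs12 : s ≤ 1 / 2 := by
        apply le_of_sq_le_sq _ (by norm_num)
        rw [hs2]; nlinarith
      have h1 := two_point (a := c) (b := c + s) (lam := h / s) hc (by linarith) (by linarith)
        (by positivity) ((div_le_one hs0).mpr hhs)
      have e1 : (1 - h / s) * c + h / s * (c + s) = c + h := by
        field_simp; ring
      rw [e1] at h1
      have hz := phi_le_one (x := c + s) (by linarith)
      have h2 : phi (c + h) ≤ phi c + 2 * s := by
        have h3 : h / s * phi (c + s) ≤ h / s * 1 :=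
          mul_le_mul_of_nonneg_left hz (by positivity)
        have h4 : h / s * P = s := by
          rw [div_mul_eq_mul_div, ← hs2]; field_simp
        have h5 : (1 - h / s) * phi c + h / s * 1 = phi c + h / s * P := by rw [hP]; ring
        linarith
      obtain ⟨q, hq⟩ : ∃ q : ℝ, q = Real.sqrt (h * Q) := ⟨_, rfl⟩
      have hq2 : q ^ 2 = h * Q := by rw [hq]; exact Real.sq_sqrt (by positivity)
      have hq0 : 0 ≤ q := by rw [hq]; exact Real.sqrt_nonneg _
      have h6 : s + q ≤ w := by
        apply le_of_sq_le_sq _ hwp.le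
        have h7 : (s + q) ^ 2 ≤ 2 * (s ^ 2 + q ^ 2) := by nlinarith [sq_nonneg (s - q)]
        rw [hs2, hq2] at h7
        have h8 : P + Q ≤ 2 * w := by rw [hP, hQ, hw]; linarith
        have h9 : h * P + h * Q ≤ w / 4 * (2 * w) := by
          calc h * P + h * Q = h * (P + Q) := by ring
            _ ≤ w / 4 * (2 * w) := mul_le_mul hh4 h8 (by linarith) (by linarith)
        nlinarith
      have h10 : h * Q ≤ (w - s) ^ 2 := by
        rw [← hq2]
        exact pow_le_pow_left₀ hq0 (by linarith) 2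
      -- multiply by w
      have h11 : 2 * s * w ≤ (μ * (P - Q) + w) * w := by
        have : (μ * (P - Q) + w) * w = h * P - h * Q + w ^ 2 := by rw [hh]; ring
        rw [this, ← hs2]; nlinarith
      have h12 : 2 * s ≤ μ * (P - Q) + w := le_of_mul_le_mul_right h11 hwp
      have h13 : μ * phi a + (1 - μ) * phi c + w = phi c + (μ * (P - Q) + w) := by
        rw [hP, hQ]; ring
      rw [h13]; linarith

/-- the symmetric limit function -/
noncomputable def lim (x : ℝ) : ℝ := min (phi x) (phi (1 - x))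

lemma lim_symm (x : ℝ) : lim (1 - x) = lim x := by
  unfold lim
  rw [sub_sub_cancel, min_comm]

lemma lim_concave {a b lam : ℝ} (ha : 0 ≤ a) (ha1 : a ≤ 1) (hb : 0 ≤ b) (hb1 : b ≤ 1)
    (hl0 : 0 ≤ lam) (hl1 : lam ≤ 1) :
    (1 - lam) * lim a + lam * lim b ≤ lim ((1 - lam) * a + lam * b) := by
  have hm : 0 ≤ 1 - lam := by linarith
  apply le_min
  · refine le_trans (add_le_add (mul_le_mul_of_nonneg_left (min_le_left _ _) hm)
      (mul_le_mul_of_nonneg_left (min_le_left _ _) hl0)) (phi_concave ha hb hl0 hl1)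
  · have e : 1 - ((1 - lam) * a + lam * b) = (1 - lam) * (1 - a) + lam * (1 - b) := by ring
    rw [e]
    refine le_trans (add_le_add (mul_le_mul_of_nonneg_left (min_le_right _ _) hm)
      (mul_le_mul_of_nonneg_left (min_le_right _ _) hl0))
      (phi_concave (by linarith) (by linarith) hl0 hl1)

theorem lim_two_point {a b lam : ℝ} (ha : 0 ≤ a) (hab : a < b) (hb1 : b ≤ 1) (hl0 : 0 ≤ lam)
    (hl1 : lam ≤ 1) :
    lim ((1 - lam) * a + lam * b) ≤ (1 - lam) * lim a + lam * lim b + (b - a) := by
  have hL : lim ((1 - lam) * a + lam * b) ≤ phi ((1 - lam) * a + lam * b) := min_le_left _ _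
  have hR : lim ((1 - lam) * a + lam * b) ≤ phi (1 - ((1 - lam) * a + lam * b)) :=
    min_le_right _ _
  have h1 := two_point ha hab hb1 hl0 hl1
  have h2 := two_point (a := 1 - b) (b := 1 - a) (lam := 1 - lam) (by linarith) (by linarith)
    (by linarith) (by linarith) (by linarith)
  have e2 : (1 - (1 - lam)) * (1 - b) + (1 - lam) * (1 - a) =
      1 - ((1 - lam) * a + lam * b) := by ring
  rw [e2] at h2
  rcases min_choice (phi a) (phi (1 - a)) with hA | hA
  · rcases min_choice (phi b) (phi (1 - b)) with hB | hB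
    · have ea : lim a = phi a := hA
      have eb : lim b = phi b := hB
      rw [ea, eb]; linarith
    · have ea : lim a = phi a := hA
      have eb : lim b = phi (1 - b) := hB
      rw [ea, eb]
      by_cases ha4 : 1 / 4 ≤ a
      · have e3 : phi a = 1 := phi_eq_one ha4
        have e4 : phi (1 - a) = 1 := by
          have h5 : phi a ≤ phi (1 - a) := by rw [← ea]; exact min_le_right _ _
          exact le_antisymm (phi_le_one (by linarith)) (by linarith)
        rw [e3]; rw [e4] at h2; linarith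
      · push Not at ha4
        by_cases hb4 : 1 / 4 ≤ 1 - b
        · have e3 : phi (1 - b) = 1 := phi_eq_one hb4
          have e4 : phi b = 1 := by
            have h5 : phi (1 - b) ≤ phi b := by rw [← eb]; exact min_le_left _ _
            exact le_antisymm (phi_le_one (by linarith)) (by linarith)
          rw [e3]; rw [e4] at h1; linarith
        · push Not at hb4
          have hfa4 := phi_ge_four ha ha4.le
          have hfb4 := phi_ge_four (by linarith : 0 ≤ 1 - b) hb4.le
          by_cases hl4 : lam ≤ 1 / 4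
          · have h5 := mixed (a := 1 - b) (c := a) (μ := lam) (by linarith) ha hb4.le ha4.le hl0 hl4
            have e5 : a + lam * (1 - (1 - b) - a) = (1 - lam) * a + lam * b := by ring
            rw [e5] at h5
            linarith
          · push Not at hl4
            by_cases hm4 : 1 - lam ≤ 1 / 4
            · have h5 := mixed (a := a) (c := 1 - b) (μ := 1 - lam) ha (by linarith) ha4.le hb4.le
                (by linarith) hm4
              have e5 : 1 - b + (1 - lam) * (1 - a - (1 - b)) =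
                  1 - ((1 - lam) * a + lam * b) := by ring
              rw [e5] at h5
              linarith
            · push Not at hm4
              have h6 : phi ((1 - lam) * a + lam * b) ≤ 1 :=
                phi_le_one (by nlinarith [mul_nonneg (by linarith : 0 ≤ 1 - lam) ha])
              have h7 : a ≤ (1 - lam) * phi a := by nlinarith
              have h8 : 1 - b ≤ lam * phi (1 - b) := by nlinarith
              linarith
  · rcases min_choice (phi b) (phi (1 - b)) with hB | hB
    · have ea : lim a = phi (1 - a) := hA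
      have eb : lim b = phi b := hB
      rw [ea, eb]
      -- monotonicity: either a ≤ 1 - a or ...
      rcases le_total a (1 - a) with h3 | h3
      · have h4 : phi a ≤ phi (1 - a) := phi_mono ha h3
        have h5 : phi (1 - a) ≤ phi a := by rw [← ea]; exact min_le_left _ _
        have h6 : phi (1 - a) = phi a := le_antisymm h5 h4
        rw [h6]; linarith
      · have h4 : 1 - b ≤ b := by linarith
        have h5 : phi (1 - b) ≤ phi b := phi_mono (by linarith) h4
        have h6 : phi b ≤ phi (1 - b) := by rw [← eb]; exact min_le_right _ _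
        have h7 : phi b = phi (1 - b) := le_antisymm h6 h5
        rw [h7]; linarith
    · have ea : lim a = phi (1 - a) := hA
      have eb : lim b = phi (1 - b) := hB
      rw [ea, eb]; linarith

end Pool.Agent.Helper415.RC
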