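import Mathlib
import Pool.Agent.Helper415.RC4

set_option autoImplicit false

open Finset

namespace Pool.Agent.Helper415.RC

/-- the class `𝓕_m` -/
def InClass (m : ℕ) (f : ℝ → ℝ) : Prop :=
  max (f 0) (f 1) ≤ 0 ∧
  ∀ x : Fin m → ℝ, (∀ i, x i ∈ Set.Icc (0:ℝ) 1) → ∀ i j : Fin m,
    (∀ l, x i ≤ x l ∧ x l ≤ x j) →
    f ((∑ l, x l) / m) ≤ (∑ l, f (x l)) / m + (x j - x i)

lemma lim_le_one {x : ℝ} (hx : 0 ≤ x) : lim x ≤ 1 := (min_le_left _ _).trans (phi_le_one hx)

lemma lim_zero : lim 0 = 0 := by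
  unfold lim
  rw [phi_zero, sub_zero]
  exact min_eq_left (phi_nonneg (by norm_num))

lemma lim_one : lim 1 = 0 := by
  have := lim_symm 0
  rw [sub_zero] at this
  rw [this, lim_zero]

/-- the limit function belongs to every class -/
theorem lim_inClass (m : ℕ) (hm : 1 ≤ m) : InClass m lim := by
  have hm0 : (0:ℝ) < m := by exact_mod_cast hm
  refine ⟨by rw [lim_zero, lim_one]; simp, ?_⟩
  intro x hx i j hij
  have hi := hx i
  have hj := hx j
  rcases eq_or_lt_of_le (hij j).1 with hab | hab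
  · -- all equal
    have hall : ∀ l, x l = x i := fun l =>
      le_antisymm ((hij l).2.trans hab.symm.le) (hij l).1
    simp_rw [hall]
    simp only [sum_const, card_univ, Fintype.card_fin, nsmul_eq_mul]
    rw [mul_div_cancel_left₀ _ hm0.ne', mul_div_cancel_left₀ _ hm0.ne']
    linarith
  · obtain ⟨t, ht⟩ : ∃ t : Fin m → ℝ, ∀ l, t l = (x l - x i) / (x j - x i) := ⟨_, fun _ => rfl⟩
    have hd : 0 < x j - x i := sub_pos.mpr hab
    have ht0 : ∀ l, 0 ≤ t l := fun l => by
      rw [ht]; exact div_nonneg (sub_nonneg.mpr (hij l).1) hd.le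
    have ht1 : ∀ l, t l ≤ 1 := fun l => by
      rw [ht, div_le_one hd]; linarith [(hij l).2]
    have hxl : ∀ l, x l = (1 - t l) * x i + t l * x j := fun l => by
      have : t l * (x j - x i) = x l - x i := by rw [ht]; field_simp
      linarith
    have hc : ∀ l, (1 - t l) * lim (x i) + t l * lim (x j) ≤ lim (x l) := fun l => by
      have := lim_concave hi.1 hi.2 hj.1 hj.2 (ht0 l) (ht1 l)
      rwa [← hxl l] at this
    obtain ⟨T, hT⟩ : ∃ T : ℝ, T = (∑ l, t l) / m := ⟨_, rfl⟩
    have hTm : T * m = ∑ l, t l := by rw [hT]; field_simp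
    have hT0 : 0 ≤ T := by rw [hT]; exact div_nonneg (sum_nonneg fun l _ => ht0 l) hm0.le
    have hT1 : T ≤ 1 := by
      rw [hT, div_le_one hm0]
      calc ∑ l, t l ≤ ∑ _l : Fin m, (1:ℝ) := sum_le_sum fun l _ => ht1 l
        _ = m := by simp
    have hmean : (∑ l, x l) / m = (1 - T) * x i + T * x j := by
      rw [div_eq_iff hm0.ne']
      have : ∑ l, x l = ∑ l, (x i + t l * (x j - x i)) :=
        sum_congr rfl fun l _ => by rw [hxl l]; ring
      rw [this, sum_add_distrib, ← sum_mul, ← hTm]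
      simp only [sum_const, card_univ, Fintype.card_fin, nsmul_eq_mul]
      ring
    have hsum : (1 - T) * lim (x i) + T * lim (x j) ≤ (∑ l, lim (x l)) / m := by
      rw [le_div_iff₀ hm0]
      calc ((1 - T) * lim (x i) + T * lim (x j)) * m
          = m * lim (x i) + (T * m) * (lim (x j) - lim (x i)) := by ring
        _ = ∑ l, ((1 - t l) * lim (x i) + t l * lim (x j)) := by
            rw [hTm, sum_mul]
            have : ∑ l, ((1 - t l) * lim (x i) + t l * lim (x j)) =
                ∑ l, (lim (x i) + t l * (lim (x j) - lim (x i))) :=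
              sum_congr rfl fun l _ => by ring
            rw [this, sum_add_distrib]
            simp only [sum_const, card_univ, Fintype.card_fin, nsmul_eq_mul]
        _ ≤ ∑ l, lim (x l) := sum_le_sum fun l _ => hc l
    rw [hmean]
    have := lim_two_point hi.1 hab hj.2 hT0 hT1
    linarith

/-- one step of the upper bound -/
lemma chain_step {m : ℕ} (hm : 1 ≤ m) {f : ℝ → ℝ} (hf : InClass m f) (k : ℕ) (hk : k ≤ m)
    {y : ℝ} (hy : y ∈ Set.Icc (0:ℝ) 1) : f ((k:ℝ) / m * y) ≤ (k:ℝ) / m * f y + y := by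
  have hm0 : (0:ℝ) < m := by exact_mod_cast hm
  have hf0 : f 0 ≤ 0 := (le_max_left _ _).trans hf.1
  rcases Nat.eq_zero_or_pos k with h0 | h0
  · subst h0
    simp only [Nat.cast_zero, zero_div, zero_mul, zero_add]
    exact hf0.trans hy.1
  · rcases hk.eq_or_lt with hkm | hkm
    · subst hkm
      rw [div_self hm0.ne', one_mul, one_mul]
      linarith [hy.1]
    · have hcount : (univ.filter (fun l : Fin m => (l:ℕ) < k)).card = k := by
        have := Fin.card_filter_val_lt (n := m) (m := k)
        simpa [hkm.le] using this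
      have h1 := hf.2 (fun l : Fin m => if (l:ℕ) < k then y else 0)
        (fun i => by
          by_cases h : (i:ℕ) < k
          · simp only [h, if_true]; exact hy
          · simp only [h, if_false]; exact ⟨le_rfl, zero_le_one⟩)
        ⟨k, hkm⟩ ⟨0, by omega⟩ (fun l => by
          by_cases h : (l:ℕ) < k
          · simp [h, h0, hy.1]
          · simp [h, h0, hy.1])
      have e1 : ∑ l : Fin m, (if (l:ℕ) < k then y else 0) = k * y := by
        rw [← sum_filter, sum_const, hcount, nsmul_eq_mul]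
      have e2 : ∑ l : Fin m, f (if (l:ℕ) < k then y else 0) ≤ k * f y := by
        calc ∑ l : Fin m, f (if (l:ℕ) < k then y else 0)
            ≤ ∑ l : Fin m, (if (l:ℕ) < k then f y else 0) := by
              apply sum_le_sum
              intro l _
              by_cases h : (l:ℕ) < k
              · simp [h]
              · simp [h, hf0]
          _ = k * f y := by rw [← sum_filter, sum_const, hcount, nsmul_eq_mul]
      rw [e1] at h1
      simp only [lt_self_iff_false, if_false, h0, if_true, sub_zero] at h1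
      have e3 : (k:ℝ) / m * y = k * y / m := by ring
      have e4 : (∑ l : Fin m, f (if (l:ℕ) < k then y else 0)) / m ≤ (k:ℝ) / m * f y := by
        rw [div_mul_eq_mul_div]
        exact div_le_div_of_nonneg_right e2 hm0.le
      rw [e3]
      linarith

lemma exact_up {m : ℕ} (hm : 1 ≤ m) {f : ℝ → ℝ} (hf : InClass m f) (k : ℕ) (hk : k ≤ m) (n : ℕ) :
    f (((k:ℝ) / m) ^ (n + 1)) ≤ ((n:ℝ) + 1) * ((k:ℝ) / m) ^ n := by
  have hm0 : (0:ℝ) < m := by exact_mod_cast hm
  have hk1 : (k:ℝ) / m ≤ 1 := by rw [div_le_one hm0]; exact_mod_cast hk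
  have hk0 : 0 ≤ (k:ℝ) / m := by positivity
  have hf1 : f 1 ≤ 0 := (le_max_right _ _).trans hf.1
  induction n with
  | zero =>
    have := chain_step hm hf k hk (y := 1) ⟨zero_le_one, le_rfl⟩
    rw [mul_one] at this
    rw [zero_add, pow_one, pow_zero]
    push_cast
    nlinarith
  | succ n ih =>
    have := chain_step hm hf k hk (y := ((k:ℝ) / m) ^ (n + 1))
      ⟨by positivity, pow_le_one₀ hk0 hk1⟩
    have e : (k:ℝ) / m * ((k:ℝ) / m) ^ (n + 1) = ((k:ℝ) / m) ^ (n + 1 + 1) := by ring
    rw [e] at this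
    have h2 := mul_le_mul_of_nonneg_left ih hk0
    push_cast
    have e3 : (k:ℝ) / m * (((n:ℝ) + 1) * ((k:ℝ) / m) ^ n) = ((n:ℝ) + 1) * ((k:ℝ) / m) ^ (n + 1) := by
      ring
    rw [e3] at h2
    linarith

lemma inClass_symm {m : ℕ} (hm : 1 ≤ m) {f : ℝ → ℝ} (hf : InClass m f) :
    InClass m (fun x => f (1 - x)) := by
  have hm0 : (0:ℝ) < m := by exact_mod_cast hm
  refine ⟨by simp only [sub_zero, sub_self]; rw [max_comm]; exact hf.1, ?_⟩
  intro x hx i j hij
  have h1 := hf.2 (fun l => 1 - x l) (fun l => ⟨by linarith [(hx l).2], by linarith [(hx l).1]⟩)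
    j i (fun l => ⟨by linarith [(hij l).2], by linarith [(hij l).1]⟩)
  have e : (∑ l : Fin m, (1 - x l)) / m = 1 - (∑ l, x l) / m := by
    rw [sum_sub_distrib]
    simp only [sum_const, card_univ, Fintype.card_fin, nsmul_eq_mul, mul_one]
    field_simp
  rw [e] at h1
  simp only
  linarith

end Pool.Agent.Helper415.RC
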