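import Mathlib
import Pool.Agent.Helper415.RC5

set_option autoImplicit false

open Finset

namespace Pool.Agent.Helper415.RC

lemma xlogx_up (n j : ℕ) (_hn : 1 ≤ n) (hj : n + 1 ≤ j) :
    ((j:ℝ) - n) * (((n:ℝ) + 1) * Real.log ((n:ℝ) + 1)) ≤
      ((j:ℝ) - n - 1) * ((n:ℝ) * Real.log n) + (j:ℝ) * Real.log j := by
  have hd : (1:ℝ) ≤ (j:ℝ) - n := by
    have : ((n + 1 : ℕ):ℝ) ≤ j := by exact_mod_cast hj
    push_cast at this; linarith
  have hd0 : (0:ℝ) < (j:ℝ) - n := by linarith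
  have hw1 : (0:ℝ) ≤ ((j:ℝ) - n - 1) / ((j:ℝ) - n) := div_nonneg (by linarith) hd0.le
  have hw2 : (0:ℝ) ≤ 1 / ((j:ℝ) - n) := by positivity
  have hw3 : ((j:ℝ) - n - 1) / ((j:ℝ) - n) + 1 / ((j:ℝ) - n) = 1 := by
    rw [← add_div, sub_add_cancel, div_self hd0.ne']
  have h := Real.convexOn_mul_log.2 (Set.mem_Ici.mpr (Nat.cast_nonneg n : (0:ℝ) ≤ n))
    (Set.mem_Ici.mpr (Nat.cast_nonneg j : (0:ℝ) ≤ j)) hw1 hw2 hw3
  simp only [smul_eq_mul] at h
  have e : ((j:ℝ) - n - 1) / ((j:ℝ) - n) * n + 1 / ((j:ℝ) - n) * j = (n:ℝ) + 1 := by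
    field_simp; ring
  rw [e] at h
  have h2 := mul_le_mul_of_nonneg_left h hd0.le
  have e2 : ((j:ℝ) - n) * (((j:ℝ) - n - 1) / ((j:ℝ) - n) * ((n:ℝ) * Real.log n) +
      1 / ((j:ℝ) - n) * ((j:ℝ) * Real.log j)) =
      ((j:ℝ) - n - 1) * ((n:ℝ) * Real.log n) + (j:ℝ) * Real.log j := by
    field_simp
  rw [e2] at h2
  exact h2

lemma xlogx_down (n j : ℕ) (hj : j + 1 ≤ n) :
    ((n:ℝ) - j) * (((n:ℝ) - 1) * Real.log ((n:ℝ) - 1)) ≤
      ((n:ℝ) - j - 1) * ((n:ℝ) * Real.log n) + (j:ℝ) * Real.log j := by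
  have hd : (1:ℝ) ≤ (n:ℝ) - j := by
    have : ((j + 1 : ℕ):ℝ) ≤ n := by exact_mod_cast hj
    push_cast at this; linarith
  have hd0 : (0:ℝ) < (n:ℝ) - j := by linarith
  have hw1 : (0:ℝ) ≤ ((n:ℝ) - j - 1) / ((n:ℝ) - j) := div_nonneg (by linarith) hd0.le
  have hw2 : (0:ℝ) ≤ 1 / ((n:ℝ) - j) := by positivity
  have hw3 : ((n:ℝ) - j - 1) / ((n:ℝ) - j) + 1 / ((n:ℝ) - j) = 1 := by
    rw [← add_div, sub_add_cancel, div_self hd0.ne']
  have h := Real.convexOn_mul_log.2 (Set.mem_Ici.mpr (Nat.cast_nonneg n : (0:ℝ) ≤ n))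
    (Set.mem_Ici.mpr (Nat.cast_nonneg j : (0:ℝ) ≤ j)) hw1 hw2 hw3
  simp only [smul_eq_mul] at h
  have e : ((n:ℝ) - j - 1) / ((n:ℝ) - j) * n + 1 / ((n:ℝ) - j) * j = (n:ℝ) - 1 := by
    field_simp; ring
  rw [e] at h
  have h2 := mul_le_mul_of_nonneg_left h hd0.le
  have e2 : ((n:ℝ) - j) * (((n:ℝ) - j - 1) / ((n:ℝ) - j) * ((n:ℝ) * Real.log n) +
      1 / ((n:ℝ) - j) * ((j:ℝ) * Real.log j)) =
      ((n:ℝ) - j - 1) * ((n:ℝ) * Real.log n) + (j:ℝ) * Real.log j := by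
    field_simp
  rw [e2] at h2
  exact h2

/-- exact value of `phi` at the window points -/
lemma phi_window (n : ℕ) (hn : 1 ≤ n) {ρ : ℝ} (h0 : 0 < ρ)
    (h1 : ((n:ℝ) / ((n:ℝ) + 1)) ^ (n + 1) ≤ ρ) (h2 : ρ ≤ (((n:ℝ) - 1) / n) ^ (n - 1)) :
    phi (ρ ^ n) = n * ρ ^ (n - 1) := by
  have hn0 : (0:ℝ) < n := by exact_mod_cast hn
  obtain ⟨L, hL⟩ : ∃ L : ℝ, L = -Real.log ρ := ⟨_, rfl⟩
  have hG : ∀ j : ℕ, 1 ≤ j → L * ((j:ℝ) - n) ≤ (j:ℝ) * (Real.log j - Real.log n) := by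
    intro j hj
    have hj0 : (0:ℝ) < j := by exact_mod_cast hj
    rcases lt_trichotomy j n with h | h | h
    · -- j < n
      have hn2 : 2 ≤ n := by omega
      have hnm : (0:ℝ) < (n:ℝ) - 1 := by
        have : (2:ℝ) ≤ n := by exact_mod_cast hn2
        linarith
      have h3 := xlogx_down n j (by omega)
      have h4 : -L ≤ ((n:ℝ) - 1) * (Real.log ((n:ℝ) - 1) - Real.log n) := by
        have := Real.log_le_log h0 h2
        rw [Real.log_pow, Real.log_div hnm.ne' hn0.ne'] at this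
        rw [hL, neg_neg]
        have e : ((n - 1 : ℕ):ℝ) = (n:ℝ) - 1 := by
          rw [Nat.cast_sub hn]; simp
        rw [e] at this
        exact this
      have hd : (0:ℝ) ≤ (n:ℝ) - j := by
        have : (j:ℝ) ≤ n := by exact_mod_cast h.le
        linarith
      have h5 := mul_le_mul_of_nonneg_left h4 hd
      nlinarith
    · subst h; simp
    · have h3 := xlogx_up n j hn h
      have hn1 : (0:ℝ) < (n:ℝ) + 1 := by linarith
      have h4 : L ≤ ((n:ℝ) + 1) * (Real.log ((n:ℝ) + 1) - Real.log n) := by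
        have := Real.log_le_log (by positivity) h1
        rw [Real.log_pow, Real.log_div hn0.ne' hn1.ne'] at this
        rw [hL]
        push_cast at this
        linarith
      have hd : (0:ℝ) ≤ (j:ℝ) - n := by
        have : (n:ℝ) ≤ j := by exact_mod_cast h.le
        linarith
      have h5 := mul_le_mul_of_nonneg_left h4 hd
      nlinarith
  have hpos : 0 < ρ ^ n := by positivity
  have hval : pw n (ρ ^ n) = n * ρ ^ (n - 1) := by
    unfold pw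
    congr 1
    rw [← Real.rpow_natCast, ← Real.rpow_mul h0.le, ← Real.rpow_natCast ρ (n - 1), Nat.cast_sub hn]
    congr 1
    push_cast; field_simp
  apply le_antisymm
  · rw [← hval]; exact phi_le hpos.le n hn
  · apply le_phi
    intro j hj
    have hj0 : (0:ℝ) < j := by exact_mod_cast hj
    have hlog : Real.log (n * ρ ^ (n - 1)) ≤ Real.log (pw j (ρ ^ n)) := by
      unfold pw
      rw [Real.log_mul hn0.ne' (by positivity), Real.log_mul hj0.ne' (by positivity),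
        Real.log_rpow hpos, Real.log_pow, Real.log_pow, Nat.cast_sub hn]
      have h3 := hG j hj
      have h4 : Real.log ρ = -L := by rw [hL]; ring
      rw [h4]
      have h5 : L * (((j:ℝ) - n) / j) ≤ Real.log j - Real.log n := by
        rw [← mul_div_assoc, div_le_iff₀ hj0]; linarith
      have h6 : (1 - 1 / (j:ℝ)) * ((n:ℝ) * -L) = -(n:ℝ) * L + n * L / j := by ring
      have h7 : L * (((j:ℝ) - n) / j) = L - n * L / j := by field_simp
      rw [h6]; rw [h7] at h5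
      push_cast
      linarith
    exact (Real.log_le_log_iff (by positivity) (by unfold pw; positivity)).mp hlog

lemma window_le_half (n : ℕ) (hn : 2 ≤ n) {ρ : ℝ} (h2 : ρ ≤ (((n:ℝ) - 1) / n) ^ (n - 1)) :
    ρ ≤ 1 / 2 := by
  have hn2 : (2:ℝ) ≤ n := by exact_mod_cast hn
  have hn0 : (0:ℝ) < n := by linarith
  have hnm : (0:ℝ) < (n:ℝ) - 1 := by linarith
  refine h2.trans ?_
  have h3 := one_add_mul_le_pow (a := 1 / ((n:ℝ) - 1))
    (by have : 0 < 1 / ((n:ℝ) - 1) := by positivity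
        linarith) (n - 1)
  have e : ((n - 1 : ℕ):ℝ) = (n:ℝ) - 1 := by
    rw [Nat.cast_sub (by omega)]; simp
  rw [e] at h3
  have e2 : 1 + ((n:ℝ) - 1) * (1 / ((n:ℝ) - 1)) = 2 := by field_simp; norm_num
  have e3 : 1 + 1 / ((n:ℝ) - 1) = ((((n:ℝ) - 1) / n))⁻¹ := by
    rw [inv_div]; field_simp; ring
  rw [e2, e3, inv_pow] at h3
  have h4 : (0:ℝ) < (((n:ℝ) - 1) / n) ^ (n - 1) := by positivity
  rw [le_inv_comm₀ (by norm_num) h4] at h3
  simpa using h3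

/-- exact value of the limit function at window points, `n ≥ 2` -/
lemma lim_window (n : ℕ) (hn : 2 ≤ n) {ρ : ℝ} (h0 : 0 < ρ)
    (h1 : ((n:ℝ) / ((n:ℝ) + 1)) ^ (n + 1) ≤ ρ) (h2 : ρ ≤ (((n:ℝ) - 1) / n) ^ (n - 1)) :
    lim (ρ ^ n) = n * ρ ^ (n - 1) := by
  have h3 := window_le_half n hn h2
  have h4 : ρ ^ n ≤ 1 / 4 := by
    calc ρ ^ n ≤ ρ ^ 2 := pow_le_pow_of_le_one h0.le (by linarith) hn
      _ ≤ (1 / 2) ^ 2 := pow_le_pow_left₀ h0.le h3 2
      _ = 1 / 4 := by norm_num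
  unfold lim
  rw [phi_eq_one (x := 1 - ρ ^ n) (by linarith), phi_window n (by omega) h0 h1 h2]
  apply min_eq_left
  rw [← phi_window n (by omega) h0 h1 h2]
  exact phi_le_one (by positivity)

lemma lim_mid {x : ℝ} (h1 : 1 / 4 ≤ x) (h2 : x ≤ 3 / 4) : lim x = 1 := by
  unfold lim
  rw [phi_eq_one h1, phi_eq_one (by linarith), min_self]

end Pool.Agent.Helper415.RC
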