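import Mathlib
import Pool.Agent.Helper415.RC6

set_option autoImplicit false

open Finset

namespace Pool.Agent.Helper415.RC

/-- the members of `𝓕_m` that are bounded above on `[0,1]` -/
def InClassB (m : ℕ) (f : ℝ → ℝ) : Prop := InClass m f ∧ BddAbove (f '' Set.Icc (0:ℝ) 1)

lemma lim_inClassB (m : ℕ) (hm : 1 ≤ m) : InClassB m lim :=
  ⟨lim_inClass m hm, ⟨1, by rintro _ ⟨x, hx, rfl⟩; exact lim_le_one hx.1⟩⟩

lemma class_one {m : ℕ} (hm : 1 ≤ m) {f : ℝ → ℝ} (hf : InClass m f) (x : Fin m → ℝ)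
    (hx : ∀ i, x i ∈ Set.Icc (0:ℝ) 1) : f ((∑ l, x l) / m) ≤ (∑ l, f (x l)) / m + 1 := by
  have : Nonempty (Fin m) := ⟨⟨0, hm⟩⟩
  obtain ⟨i, hi⟩ := Finite.exists_min x
  obtain ⟨j, hj⟩ := Finite.exists_max x
  have := hf.2 x hx i j (fun l => ⟨hi l, hj l⟩)
  linarith [(hx i).1, (hx j).2]

lemma sup_bound {m : ℕ} (hm : 2 ≤ m) {f : ℝ → ℝ} (hf : InClassB m f) {y : ℝ}
    (hy : y ∈ Set.Icc (0:ℝ) 1) : f y ≤ 1 + 2 / m := by
  have hm0 : (0:ℝ) < m := by exact_mod_cast (by omega : 0 < m)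
  have hm2 : (2:ℝ) ≤ m := by exact_mod_cast hm
  obtain ⟨hfc, hbdd⟩ := hf
  have hf0 : f 0 ≤ 0 := (le_max_left _ _).trans hfc.1
  have hf1 : f 1 ≤ 0 := (le_max_right _ _).trans hfc.1
  obtain ⟨M, hM⟩ : ∃ M : ℝ, M = max (sSup (f '' Set.Icc (0:ℝ) 1)) 0 := ⟨_, rfl⟩
  have hM0 : 0 ≤ M := by rw [hM]; exact le_max_right _ _
  have hfM : ∀ z ∈ Set.Icc (0:ℝ) 1, f z ≤ M := fun z hz => by
    rw [hM]
    exact (le_csSup hbdd ⟨z, hz, rfl⟩).trans (le_max_left _ _)
  have hstep : ∀ z ∈ Set.Icc (0:ℝ) 1, f z ≤ M / m + 1 := by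
    intro z hz
    rcases eq_or_lt_of_le hz.2 with h1 | h1
    · rw [h1]
      have : 0 ≤ M / m := by positivity
      linarith
    · have hmz : 0 ≤ (m:ℝ) * z := mul_nonneg hm0.le hz.1
      obtain ⟨k, hk⟩ : ∃ k : ℕ, k = ⌊(m:ℝ) * z⌋₊ := ⟨_, rfl⟩
      have hk1 : (k:ℝ) ≤ m * z := by rw [hk]; exact Nat.floor_le hmz
      have hk2 : m * z < (k:ℝ) + 1 := by rw [hk]; exact Nat.lt_floor_add_one _
      have hkm : k < m := by
        have : (k:ℝ) < m := by nlinarith
        exact_mod_cast this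
      obtain ⟨s, hs⟩ : ∃ s : ℝ, s = m * z - k := ⟨_, rfl⟩
      have hs0 : 0 ≤ s := by rw [hs]; linarith
      have hs1 : s ≤ 1 := by rw [hs]; linarith
      have hcount : (univ.filter (fun l : Fin m => (l:ℕ) < k)).card = k := by
        have := Fin.card_filter_val_lt (n := m) (m := k)
        simpa [hkm.le] using this
      have h2 := class_one (by omega) hfc
        (fun l : Fin m => if (l:ℕ) < k then 1 else if l = ⟨k, hkm⟩ then s else 0)
        (fun i => by
          by_cases h : (i:ℕ) < k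
          · simp [h]
          · by_cases h' : i = ⟨k, hkm⟩
            · subst h'; simp [hs0, hs1]
            · simp [h, h'])
      have e1 : ∑ l : Fin m, (if (l:ℕ) < k then (1:ℝ) else if l = ⟨k, hkm⟩ then s else 0) =
          m * z := by
        have : ∀ l : Fin m, (if (l:ℕ) < k then (1:ℝ) else if l = ⟨k, hkm⟩ then s else 0) =
            (if (l:ℕ) < k then (1:ℝ) else 0) + (if l = ⟨k, hkm⟩ then s else 0) := by
          intro l
          by_cases h : (l:ℕ) < k
          · have h' : l ≠ ⟨k, hkm⟩ := by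
              intro h0; rw [h0] at h; simp at h
            simp [h, h']
          · simp [h]
        rw [sum_congr rfl fun l _ => this l, sum_add_distrib, ← sum_filter, sum_const, hcount,
          sum_ite_eq' univ (⟨k, hkm⟩ : Fin m) (fun _ => s)]
        simp [hs]
      have e2 : ∑ l : Fin m, f (if (l:ℕ) < k then (1:ℝ) else if l = ⟨k, hkm⟩ then s else 0) ≤
          M := by
        calc ∑ l : Fin m, f (if (l:ℕ) < k then (1:ℝ) else if l = ⟨k, hkm⟩ then s else 0)
            ≤ ∑ l : Fin m, (if l = ⟨k, hkm⟩ then M else 0) := by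
              apply sum_le_sum
              intro l _
              by_cases h : (l:ℕ) < k
              · have h' : l ≠ ⟨k, hkm⟩ := by
                  intro h0; rw [h0] at h; simp at h
                simp [h, h', hf1]
              · by_cases h' : l = ⟨k, hkm⟩
                · subst h'; simp [hfM s ⟨hs0, hs1⟩]
                · simp [h, h', hf0]
          _ = M := by
              rw [sum_ite_eq' univ (⟨k, hkm⟩ : Fin m) (fun _ => M)]; simp
      rw [e1, mul_div_cancel_left₀ _ hm0.ne'] at h2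
      have e3 := div_le_div_of_nonneg_right e2 hm0.le
      linarith
  have hMM : M ≤ M / m + 1 := by
    rw [hM]
    apply max_le
    · rw [← hM]
      refine csSup_le (Set.Nonempty.image f ⟨0, ⟨le_rfl, zero_le_one⟩⟩) ?_
      rintro _ ⟨z, hz, rfl⟩
      exact hstep z hz
    · rw [← hM]
      have : 0 ≤ M / m := by positivity
      linarith
  have h3 : M ≤ 1 + 2 / m := by
    have h4 : M * m ≤ M + m := by
      have := mul_le_mul_of_nonneg_right hMM hm0.le
      have e : (M / m + 1) * m = M + m := by field_simp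
      linarith
    have h5 : M * m ≤ (1 + 2 / m) * m := by
      have e : (1 + 2 / (m:ℝ)) * m = m + 2 := by field_simp
      rw [e]
      have h6 : M * (m - 1) ≤ 2 * (m - 1) := by nlinarith
      have h7 : M ≤ 2 := le_of_mul_le_mul_right h6 (by linarith)
      linarith
    exact le_of_mul_le_mul_right h5 hm0
  exact (hfM y hy).trans h3

lemma chain_all {m : ℕ} (hm : 1 ≤ m) {f : ℝ → ℝ} (hf : InClass m f) (k : ℕ) (hk : k ≤ m)
    {y : ℝ} (hy : y ∈ Set.Icc (0:ℝ) 1) (j : ℕ) :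
    f (((k:ℝ) / m) ^ (j + 1) * y) ≤ ((k:ℝ) / m) ^ (j + 1) * f y + ((j:ℝ) + 1) * (((k:ℝ) / m) ^ j * y) := by
  have hm0 : (0:ℝ) < m := by exact_mod_cast hm
  have hk1 : (k:ℝ) / m ≤ 1 := by rw [div_le_one hm0]; exact_mod_cast hk
  have hk0 : 0 ≤ (k:ℝ) / m := by positivity
  induction j with
  | zero =>
    have := chain_step hm hf k hk hy
    simpa using this
  | succ j ih =>
    have h1 := chain_step hm hf k hk (y := ((k:ℝ) / m) ^ (j + 1) * y)
      ⟨mul_nonneg (by positivity) hy.1, mul_le_one₀ (pow_le_one₀ hk0 hk1) hy.1 hy.2⟩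
    have e : (k:ℝ) / m * (((k:ℝ) / m) ^ (j + 1) * y) = ((k:ℝ) / m) ^ (j + 1 + 1) * y := by ring
    rw [e] at h1
    have h2 := mul_le_mul_of_nonneg_left ih hk0
    have e2 : (k:ℝ) / m * (((k:ℝ) / m) ^ (j + 1) * f y + ((j:ℝ) + 1) * (((k:ℝ) / m) ^ j * y)) =
        ((k:ℝ) / m) ^ (j + 1 + 1) * f y + ((j:ℝ) + 1) * (((k:ℝ) / m) ^ (j + 1) * y) := by ring
    rw [e2] at h2
    push_cast
    linarith

lemma pow_diff {u v : ℝ} (hv : 0 ≤ v) (huv : v ≤ u) (p : ℕ) :
    u ^ (p + 1) ≤ v ^ (p + 1) + ((p:ℝ) + 1) * (u - v) * u ^ p := by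
  have hu : 0 ≤ u := hv.trans huv
  induction p with
  | zero => simp
  | succ p ih =>
    have h1 := mul_le_mul_of_nonneg_left ih hu
    have h2 : v ^ (p + 1) * (u - v) ≤ u ^ (p + 1) * (u - v) :=
      mul_le_mul_of_nonneg_right (pow_le_pow_left₀ hv huv _) (by linarith)
    have e1 : u ^ (p + 1 + 1) = u * u ^ (p + 1) := by ring
    have e2 : u * (v ^ (p + 1) + ((p:ℝ) + 1) * (u - v) * u ^ p) =
        v ^ (p + 1 + 1) + v ^ (p + 1) * (u - v) + ((p:ℝ) + 1) * (u - v) * u ^ (p + 1) := by ring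
    rw [e1]
    rw [e2] at h1
    push_cast
    nlinarith

lemma three_quarter (q : ℕ) : ((q:ℝ) + 1) * (3 / 4) ^ q ≤ 2 := by
  rcases Nat.lt_or_ge q 2 with h | h
  · interval_cases q <;> norm_num
  · induction q, h using Nat.le_induction with
    | base => norm_num
    | succ q hq ih =>
      have hq' : (2:ℝ) ≤ q := by exact_mod_cast hq
      have h1 : (((q + 1 : ℕ):ℝ) + 1) * (3 / 4) ≤ (q:ℝ) + 1 := by push_cast; linarith
      calc (((q + 1 : ℕ):ℝ) + 1) * (3 / 4) ^ (q + 1)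
          = ((((q + 1 : ℕ):ℝ) + 1) * (3 / 4)) * (3 / 4) ^ q := by ring
        _ ≤ ((q:ℝ) + 1) * (3 / 4) ^ q := mul_le_mul_of_nonneg_right h1 (by positivity)
        _ ≤ 2 := ih

lemma upper_phi {m : ℕ} (hm : 4 ≤ m) {f : ℝ → ℝ} (hf : InClassB m f) {x : ℝ}
    (hx : x ∈ Set.Icc (0:ℝ) 1) : f x ≤ phi x + 4 / m := by
  have hm0 : (0:ℝ) < m := by exact_mod_cast (by omega : 0 < m)
  have hm4 : (4:ℝ) ≤ m := by exact_mod_cast hm
  have hm1 : 1 / (m:ℝ) ≤ 1 / 4 := one_div_le_one_div_of_le (by norm_num) hm4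
  have h2m : (2:ℝ) / m ≤ 4 / m := div_le_div_of_nonneg_right (by norm_num) hm0.le
  rcases le_or_gt (1 / 4) x with h4 | h4
  · rw [phi_eq_one h4]
    have := sup_bound (by omega) hf hx
    linarith
  · rcases hx.1.eq_or_lt with h0 | h0
    · rw [← h0, phi_zero]
      have : f 0 ≤ 0 := (le_max_left _ _).trans hf.1.1
      have : (0:ℝ) ≤ 4 / m := by positivity
      linarith
    · obtain ⟨n, hn, hphi⟩ := phi_attained h0 hx.2
      obtain ⟨R, hR, hxR⟩ := exists_root n hn h0
      by_cases hn1 : n = 1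
      · subst hn1
        rw [hphi, pw_one]
        have := sup_bound (by omega) hf hx
        linarith
      · obtain ⟨q, rfl⟩ : ∃ q, n = q + 2 := ⟨n - 2, by omega⟩
        have hwin := win_low (q + 1) (by omega) h0 hR hxR hphi
        obtain ⟨r, hr⟩ : ∃ r : ℝ, r = R⁻¹ := ⟨_, rfl⟩
        have hr0 : 0 < r := by rw [hr]; positivity
        have hrn : r ^ (q + 2) = x := by
          rw [hr, inv_pow]; field_simp; linarith
        have hrhalf : r ≤ 1 / 2 := by
          apply window_le_half (q + 2) (by omega)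
          have e : (((q + 2 : ℕ):ℝ) - 1) / ((q + 2 : ℕ):ℝ) = (((q + 1 : ℕ)):ℝ) / (((q + 1 : ℕ):ℝ) + 1) := by
            push_cast; congr 1 <;> ring
          have e' : q + 2 - 1 = q + 1 := by omega
          rw [e, e', div_pow, le_div_iff₀ (by positivity), hr]
          rw [inv_mul_le_iff₀ hR]
          linarith
        have hphi' : phi x = ((q:ℝ) + 2) * r ^ (q + 1) := by
          rw [hphi, pw_eq (q + 2) (by omega) h0 hR hxR]
          have : x * R = r ^ (q + 1) := by
            rw [← hrn, hr, pow_succ]; field_simp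
          rw [this]; push_cast; ring
        obtain ⟨k, hk⟩ : ∃ k : ℕ, k = ⌈(m:ℝ) * r⌉₊ := ⟨_, rfl⟩
        have hk1 : m * r ≤ (k:ℝ) := by rw [hk]; exact Nat.le_ceil _
        have hk2 : (k:ℝ) < m * r + 1 := by rw [hk]; exact Nat.ceil_lt_add_one (by positivity)
        have hkm : k ≤ m := by
          have : (k:ℝ) ≤ m := by nlinarith
          exact_mod_cast this
        obtain ⟨ρ, hρ⟩ : ∃ ρ : ℝ, ρ = (k:ℝ) / m := ⟨_, rfl⟩
        have hrρ : r ≤ ρ := by rw [hρ, le_div_iff₀ hm0]; linarith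
        have hρr : ρ - r ≤ 1 / m := by
          rw [hρ, sub_le_iff_le_add, div_le_iff₀ hm0]
          have : (1 / (m:ℝ) + r) * m = 1 + m * r := by field_simp
          rw [this]; linarith
        have hρ34 : ρ ≤ 3 / 4 := by linarith
        have hρ0 : 0 < ρ := hr0.trans_le hrρ
        obtain ⟨y, hy⟩ : ∃ y : ℝ, y = x / ρ ^ (q + 1) := ⟨_, rfl⟩
        have hyx : ρ ^ (q + 1) * y = x := by rw [hy]; field_simp
        have hy0 : 0 ≤ y := by rw [hy]; positivity
        have hr1 : r ≤ 1 := by linarith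
        have hy1 : y ≤ 1 := by
          rw [hy, div_le_one (by positivity), ← hrn]
          calc r ^ (q + 2) ≤ r ^ (q + 1) := pow_le_pow_of_le_one hr0.le hr1 (by omega)
            _ ≤ ρ ^ (q + 1) := pow_le_pow_left₀ hr0.le hrρ _
        have hch := chain_all (by omega) hf.1 k hkm (y := y) ⟨hy0, hy1⟩ q
        rw [← hρ, hyx] at hch
        have hsy := sup_bound (by omega) hf (y := y) ⟨hy0, hy1⟩
        have hs1 : ρ ^ q * y ≤ r ^ (q + 1) := by
          have e : ρ ^ q * y = x / ρ := by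
            rw [hy, pow_succ]; field_simp
          rw [e, div_le_iff₀ hρ0, ← hrn, pow_succ r (q + 1)]
          exact mul_le_mul_of_nonneg_left hrρ (by positivity)
        have hd := pow_diff hr0.le hrρ q
        have h34 : ρ ^ q ≤ (3 / 4) ^ q := pow_le_pow_left₀ hρ0.le hρ34 q
        have htq := three_quarter q
        have hq1 : (0:ℝ) ≤ (q:ℝ) + 1 := by positivity
        have hd2 : ((q:ℝ) + 1) * (ρ - r) * ρ ^ q ≤ 2 / m := by
          calc ((q:ℝ) + 1) * (ρ - r) * ρ ^ q ≤ ((q:ℝ) + 1) * (1 / m) * (3 / 4) ^ q := by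
                apply mul_le_mul (mul_le_mul_of_nonneg_left hρr hq1) h34 (by positivity)
                  (by positivity)
            _ = (((q:ℝ) + 1) * (3 / 4) ^ q) * (1 / m) := by ring
            _ ≤ 2 * (1 / m) := mul_le_mul_of_nonneg_right htq (by positivity)
            _ = 2 / m := by ring
        have hpow1 : ρ ^ (q + 1) ≤ 1 := pow_le_one₀ hρ0.le (by linarith)
        have hpow0 : 0 ≤ ρ ^ (q + 1) := by positivity
        have h5 : ρ ^ (q + 1) * f y ≤ ρ ^ (q + 1) + 2 / m := by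
          have h6 : ρ ^ (q + 1) * f y ≤ ρ ^ (q + 1) * (1 + 2 / m) :=
            mul_le_mul_of_nonneg_left hsy hpow0
          have h7 : ρ ^ (q + 1) * (2 / m) ≤ 1 * (2 / m) :=
            mul_le_mul_of_nonneg_right hpow1 (by positivity)
          linarith
        have h6 : ((q:ℝ) + 1) * (ρ ^ q * y) ≤ ((q:ℝ) + 1) * r ^ (q + 1) :=
          mul_le_mul_of_nonneg_left hs1 hq1
        rw [hphi']
        have e4 : (4:ℝ) / m = 2 / m + 2 / m := by ring
        rw [e4]
        linarith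

theorem upper_lim {m : ℕ} (hm : 4 ≤ m) {f : ℝ → ℝ} (hf : InClassB m f) {x : ℝ}
    (hx : x ∈ Set.Icc (0:ℝ) 1) : f x ≤ lim x + 4 / m := by
  have h1 := upper_phi hm hf hx
  have hg : InClassB m (fun z => f (1 - z)) := by
    refine ⟨inClass_symm (by omega) hf.1, ?_⟩
    obtain ⟨C, hC⟩ := hf.2
    refine ⟨C, ?_⟩
    rintro _ ⟨z, hz, rfl⟩
    exact hC ⟨1 - z, ⟨by linarith [hz.2], by linarith [hz.1]⟩, rfl⟩
  have h2 := upper_phi hm hg (x := 1 - x) ⟨by linarith [hx.2], by linarith [hx.1]⟩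
  simp only [sub_sub_cancel] at h2
  unfold lim
  rcases min_choice (phi x) (phi (1 - x)) with h | h
  · rw [h]; exact h1
  · rw [h]; exact h2

end Pool.Agent.Helper415.RC
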