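import Mathlib
import Pool.Agent.Helper415.RC7

set_option autoImplicit false

open Finset

namespace Pool.Agent.Helper415.RC

/-- distance to the nearest integer -/
noncomputable def nn (t : ℝ) : ℝ := |t - round t|

lemma nn_nonneg (t : ℝ) : 0 ≤ nn t := abs_nonneg _

lemma nn_le_half (t : ℝ) : nn t ≤ 1 / 2 := abs_sub_round t

lemma nn_add (s t : ℝ) : nn (s + t) ≤ nn s + nn t := by
  unfold nn
  have h1 := round_le (s + t) (round s + round t)
  refine h1.trans ?_
  have e : s + t - ((round s + round t : ℤ) : ℝ) = (s - round s) + (t - round t) := by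
    push_cast; ring
  rw [e]; exact abs_add_le _ _

lemma nn_lip (s t : ℝ) : nn s ≤ nn t + |s - t| := by
  unfold nn
  have h1 := round_le s (round t)
  refine h1.trans ?_
  have e : s - (round t : ℝ) = (t - round t) + (s - t) := by ring
  rw [e]; exact abs_add_le _ _

lemma nn_zero : nn 0 = 0 := by simp [nn]

lemma nn_sum {m : ℕ} (x : Fin m → ℝ) : nn (∑ l, x l) ≤ ∑ l, nn (x l) := by
  classical
  have : ∀ s : Finset (Fin m), nn (∑ l ∈ s, x l) ≤ ∑ l ∈ s, nn (x l) := by
    intro s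
    induction s using Finset.induction_on with
    | empty => simp [nn_zero]
    | insert a s ha ih =>
      rw [sum_insert ha, sum_insert ha]
      exact (nn_add _ _).trans (by linarith)
  exact this univ

lemma lim_half : lim (1 / 2) = 1 := lim_mid (by norm_num) (by norm_num)

lemma lim_ge_two {x : ℝ} (hx : 0 ≤ x) (hx2 : x ≤ 1 / 2) : 2 * x ≤ lim x := by
  have := lim_concave (a := 0) (b := 1 / 2) (lam := 2 * x) le_rfl (by norm_num) (by norm_num)
    (by norm_num) (by linarith) (by linarith)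
  rw [lim_zero, lim_half] at this
  have e : (1 - 2 * x) * 0 + 2 * x * (1 / 2) = x := by ring
  rw [e] at this
  linarith

lemma lim_ge_nn {x : ℝ} (hx : x ∈ Set.Icc (0:ℝ) 1) : 2 * nn x ≤ lim x := by
  rcases le_total x (1 / 2) with h | h
  · have h1 : nn x ≤ x := by
      have := round_le x 0
      unfold nn
      refine this.trans ?_
      rw [Int.cast_zero, sub_zero, abs_of_nonneg hx.1]
    linarith [lim_ge_two hx.1 h]
  · have h1 : nn x ≤ 1 - x := by
      have := round_le x 1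
      unfold nn
      refine this.trans ?_
      rw [Int.cast_one, abs_of_nonpos (by linarith [hx.2])]; linarith
    have h2 := lim_ge_two (x := 1 - x) (by linarith [hx.2]) (by linarith)
    rw [lim_symm] at h2
    linarith

lemma lim_ge_four {x : ℝ} (hx : 0 ≤ x) (hx4 : x ≤ 1 / 4) : 4 * x ≤ lim x := by
  unfold lim
  rw [phi_eq_one (x := 1 - x) (by linarith)]
  exact le_min (phi_ge_four hx hx4) (by linarith)

/-- the case `b ≤ 3/4` -/
lemma slack_one {a b lam x : ℝ} (ha : 0 ≤ a) (ha4 : a ≤ 1 / 4) (hl0 : 0 < lam) (hl1 : lam ≤ 1)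
    (hx : x = (1 - lam) * a + lam * b) (hx1 : 2 / 5 ≤ x) (hb : lim b = 1) :
    1 + 3 / 20 ≤ (1 - lam) * lim a + lam * lim b + (b - a) := by
  have h4 := lim_ge_four ha ha4
  rw [hb]
  have h1 : (1 - lam) * (4 * a) ≤ (1 - lam) * lim a :=
    mul_le_mul_of_nonneg_left h4 (by linarith)
  -- b - a = (x - a) / lam
  have h2 : lam * (b - a) = x - a := by rw [hx]; ring
  have h3 : 3 / 20 ≤ (b - a) - (1 - 4 * a) * (1 - lam) := by
    have h5 : 3 / 20 * lam ≤ ((b - a) - (1 - 4 * a) * (1 - lam)) * lam := by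
      have e : ((b - a) - (1 - 4 * a) * (1 - lam)) * lam =
          lam * (b - a) - (1 - 4 * a) * (lam * (1 - lam)) := by ring
      rw [e, h2]
      have h6 : lam * (1 - lam) ≤ 1 / 4 := by nlinarith [sq_nonneg (lam - 1 / 2)]
      nlinarith
    exact le_of_mul_le_mul_right h5 hl0
  nlinarith

/-- both ends close to the boundary -/
lemma slack_two {a c lam x : ℝ} (ha : 0 ≤ a) (ha4 : a ≤ 1 / 4) (hc : 0 ≤ c) (hc4 : c ≤ 1 / 4)
    (hl0 : 0 ≤ lam) (hl1 : lam ≤ 1)
    (hx : x = (1 - lam) * a + lam * (1 - c)) (hx1 : 2 / 5 ≤ x) (hx2 : x ≤ 3 / 5) :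
    1 + 1 / 5 * (a + c) ≤ (1 - lam) * lim a + lam * lim (1 - c) + (1 - c - a) := by
  have h4 := lim_ge_four ha ha4
  have h5 := lim_ge_four hc hc4
  rw [lim_symm]
  have h1 : (1 - lam) * (4 * a) ≤ (1 - lam) * lim a :=
    mul_le_mul_of_nonneg_left h4 (by linarith)
  have h2 : lam * (4 * c) ≤ lam * lim c := mul_le_mul_of_nonneg_left h5 hl0
  have h3 : lam * (1 - a - c) = x - a := by rw [hx]; ring
  obtain ⟨w, hw⟩ : ∃ w : ℝ, w = 1 - a - c := ⟨_, rfl⟩
  have hw0 : 0 < w := by rw [hw]; linarith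
  have hw1 : w ≤ 1 := by rw [hw]; linarith
  -- T * w = Q
  have hQ : 1 / 5 * (a + c) ≤ a * (3 - 4 * x) + c * (4 * x - 1) + a ^ 2 - 6 * a * c + c ^ 2 := by
    have p1 : 0 ≤ a * (3 / 5 - x) := mul_nonneg ha (by linarith)
    have p2 : 0 ≤ c * (x - 2 / 5) := mul_nonneg hc (by linarith)
    have p3 : 0 ≤ a * (x - 2 / 5) := mul_nonneg ha (by linarith)
    have p4 : 0 ≤ c * (3 / 5 - x) := mul_nonneg hc (by linarith)
    rcases le_total a c with h | h
    · nlinarith [mul_nonneg ha hc, mul_nonneg ha (sub_nonneg.mpr hc4),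
        mul_nonneg hc (sub_nonneg.mpr ha4), sq_nonneg (a - c), mul_nonneg ha (sub_nonneg.mpr h),
        mul_nonneg (sub_nonneg.mpr ha4) (sub_nonneg.mpr hc4)]
    · nlinarith [mul_nonneg ha hc, mul_nonneg ha (sub_nonneg.mpr hc4),
        mul_nonneg hc (sub_nonneg.mpr ha4), sq_nonneg (a - c), mul_nonneg hc (sub_nonneg.mpr h),
        mul_nonneg (sub_nonneg.mpr ha4) (sub_nonneg.mpr hc4)]
  have hT : 1 / 5 * (a + c) ≤ (3 - 4 * lam) * a + (4 * lam - 1) * c := by
    have h6 : 1 / 5 * (a + c) * w ≤ ((3 - 4 * lam) * a + (4 * lam - 1) * c) * w := by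
      have e : ((3 - 4 * lam) * a + (4 * lam - 1) * c) * w =
          (3 * a - c) * w + 4 * (lam * w) * (c - a) := by ring
      have e2 : lam * w = x - a := by rw [hw]; exact h3
      rw [e, e2, hw]
      have h7 : 1 / 5 * (a + c) * (1 - a - c) ≤ 1 / 5 * (a + c) := by
        nlinarith [mul_nonneg (add_nonneg ha hc) (add_nonneg ha hc)]
      nlinarith
    exact le_of_mul_le_mul_right h6 hw0
  nlinarith

end Pool.Agent.Helper415.RC
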