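import Mathlib
import Pool.Agent.Helper415.RC8

set_option autoImplicit false

open Finset

namespace Pool.Agent.Helper415.RC

lemma mean_ge {m : ℕ} (hm : 1 ≤ m) (x : Fin m → ℝ) (hx : ∀ i, x i ∈ Set.Icc (0:ℝ) 1)
    (i j : Fin m) (hij : ∀ l, x i ≤ x l ∧ x l ≤ x j) (hab : x i < x j) :
    ∃ T : ℝ, 0 ≤ T ∧ T ≤ 1 ∧ (∑ l, x l) / m = (1 - T) * x i + T * x j ∧
      (1 - T) * lim (x i) + T * lim (x j) ≤ (∑ l, lim (x l)) / m := by
  have hm0 : (0:ℝ) < m := by exact_mod_cast hm
  have hi := hx i
  have hj := hx j
  obtain ⟨t, ht⟩ : ∃ t : Fin m → ℝ, ∀ l, t l = (x l - x i) / (x j - x i) := ⟨_, fun _ => rfl⟩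
  have hd : 0 < x j - x i := sub_pos.mpr hab
  have ht0 : ∀ l, 0 ≤ t l := fun l => by
    rw [ht]; exact div_nonneg (sub_nonneg.mpr (hij l).1) hd.le
  have ht1 : ∀ l, t l ≤ 1 := fun l => by
    rw [ht, div_le_one hd]; linarith [(hij l).2]
  have hxl : ∀ l, x l = (1 - t l) * x i + t l * x j := fun l => by
    have : t l * (x j - x i) = x l - x i := by rw [ht]; field_simp
    linarith
  have hc : ∀ l, (1 - t l) * lim (x i) + t l * lim (x j) ≤ lim (x l) := fun l => by
    have := lim_concave hi.1 hi.2 hj.1 hj.2 (ht0 l) (ht1 l)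
    rwa [← hxl l] at this
  obtain ⟨T, hT⟩ : ∃ T : ℝ, T = (∑ l, t l) / m := ⟨_, rfl⟩
  have hTm : T * m = ∑ l, t l := by rw [hT]; field_simp
  have hT0 : 0 ≤ T := by rw [hT]; exact div_nonneg (sum_nonneg fun l _ => ht0 l) hm0.le
  have hT1 : T ≤ 1 := by
    rw [hT, div_le_one hm0]
    calc ∑ l, t l ≤ ∑ _l : Fin m, (1:ℝ) := sum_le_sum fun l _ => ht1 l
      _ = m := by simp
  refine ⟨T, hT0, hT1, ?_, ?_⟩
  · rw [div_eq_iff hm0.ne']
    have : ∑ l, x l = ∑ l, (x i + t l * (x j - x i)) :=
      sum_congr rfl fun l _ => by rw [hxl l]; ring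
    rw [this, sum_add_distrib, ← sum_mul, ← hTm]
    simp only [sum_const, card_univ, Fintype.card_fin, nsmul_eq_mul]
    ring
  · rw [le_div_iff₀ hm0]
    calc ((1 - T) * lim (x i) + T * lim (x j)) * m
        = m * lim (x i) + (T * m) * (lim (x j) - lim (x i)) := by ring
      _ = ∑ l, ((1 - t l) * lim (x i) + t l * lim (x j)) := by
          rw [hTm, sum_mul]
          have : ∑ l, ((1 - t l) * lim (x i) + t l * lim (x j)) =
              ∑ l, (lim (x i) + t l * (lim (x j) - lim (x i))) :=
            sum_congr rfl fun l _ => by ring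
          rw [this, sum_add_distrib]
          simp only [sum_const, card_univ, Fintype.card_fin, nsmul_eq_mul]
      _ ≤ ∑ l, lim (x l) := sum_le_sum fun l _ => hc l

/-- the bump -/
noncomputable def bump (m : ℕ) (x : ℝ) : ℝ :=
  1 / 3 * min (nn (m * x) / m) (max (1 / 10 - |x - 1 / 2|) 0)

lemma bump_nonneg (m : ℕ) (x : ℝ) : 0 ≤ bump m x := by
  unfold bump
  have : 0 ≤ nn (m * x) / m := div_nonneg (nn_nonneg _) (Nat.cast_nonneg _)
  exact mul_nonneg (by norm_num) (le_min this (le_max_right _ _))

lemma bump_le (m : ℕ) (x : ℝ) : bump m x ≤ 1 / 30 := by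
  unfold bump
  have h1 : max (1 / 10 - |x - 1 / 2|) 0 ≤ 1 / 10 :=
    max_le (by linarith [abs_nonneg (x - 1 / 2)]) (by norm_num)
  have := (min_le_right (nn (m * x) / m) (max (1 / 10 - |x - 1 / 2|) 0)).trans h1
  linarith

lemma bump_le_nn (m : ℕ) (x : ℝ) : bump m x ≤ nn (m * x) / (3 * m) := by
  unfold bump
  have := min_le_left (nn (m * x) / m) (max (1 / 10 - |x - 1 / 2|) 0)
  have e : nn (m * x) / (3 * m) = 1 / 3 * (nn (m * x) / m) := by ring
  rw [e]
  linarith

lemma bump_lip {m : ℕ} (hm : 1 ≤ m) (x y : ℝ) : bump m x ≤ bump m y + |x - y| := by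
  have hm0 : (0:ℝ) < m := by exact_mod_cast hm
  unfold bump
  have h1 : nn (m * x) / m ≤ nn (m * y) / m + |x - y| := by
    have := nn_lip (m * x) (m * y)
    rw [← mul_sub, abs_mul, abs_of_pos hm0] at this
    rw [div_le_iff₀ hm0]
    have e : (nn (m * y) / m + |x - y|) * m = nn (m * y) + m * |x - y| := by field_simp
    rw [e]; exact this
  have h2 : max (1 / 10 - |x - 1 / 2|) 0 ≤ max (1 / 10 - |y - 1 / 2|) 0 + |x - y| := by
    apply max_le
    · have h3 : |y - 1 / 2| ≤ |x - 1 / 2| + |x - y| := by
        have e : y - 1 / 2 = (x - 1 / 2) - (x - y) := by ring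
        rw [e]; exact abs_sub _ _
      have := le_max_left (1 / 10 - |y - 1 / 2|) 0
      linarith
    · have := le_max_right (1 / 10 - |y - 1 / 2|) (0:ℝ)
      have h4 := abs_nonneg (x - y)
      linarith
  have h3 : min (nn (m * x) / m) (max (1 / 10 - |x - 1 / 2|) 0) ≤
      min (nn (m * y) / m) (max (1 / 10 - |y - 1 / 2|) 0) + |x - y| := by
    rw [← min_add_add_right]
    exact min_le_min h1 h2
  have h4 := abs_nonneg (x - y)
  linarith

lemma bump_zero {m : ℕ} {x : ℝ} (h : 1 / 10 ≤ |x - 1 / 2|) : bump m x = 0 := by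
  unfold bump
  have h1 : max (1 / 10 - |x - 1 / 2|) 0 = 0 := max_eq_right (by linarith)
  rw [h1]
  have : 0 ≤ nn (m * x) / m := div_nonneg (nn_nonneg _) (Nat.cast_nonneg _)
  rw [min_eq_right this, mul_zero]

/-- `lim` plus the bump belongs to the class -/
theorem bumped_inClass (m : ℕ) (hm : 1 ≤ m) : InClass m (fun x => lim x + bump m x) := by
  have hm0 : (0:ℝ) < m := by exact_mod_cast hm
  refine ⟨?_, ?_⟩
  · have h0 : bump m 0 = 0 := bump_zero (by rw [abs_of_nonpos] <;> norm_num)
    have h1 : bump m 1 = 0 := bump_zero (by rw [abs_of_nonneg] <;> norm_num)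
    simp only [h0, h1, lim_zero, lim_one]; simp
  · intro x hx i j hij
    have hclass := (lim_inClass m hm).2 x hx i j hij
    simp only
    rw [sum_add_distrib, add_div]
    have hB0 : 0 ≤ (∑ l, bump m (x l)) / m :=
      div_nonneg (sum_nonneg fun l _ => bump_nonneg m _) hm0.le
    rcases le_or_gt (1 / 10) |(∑ l, x l) / m - 1 / 2| with hfar | hnear
    · rw [bump_zero hfar]; linarith
    · obtain ⟨X, hX⟩ : ∃ X : ℝ, X = (∑ l, x l) / m := ⟨_, rfl⟩
      rw [← hX] at hnear hclass ⊢
      have hX1 : 2 / 5 < X := by have := (abs_lt.mp hnear).1; linarith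
      have hX2 : X < 3 / 5 := by have := (abs_lt.mp hnear).2; linarith
      have hlimX : lim X = 1 := lim_mid (by linarith) (by linarith)
      have hmX : (m:ℝ) * X = ∑ l, x l := by rw [hX]; field_simp
      -- bounds of the mean
      have hXa : x i ≤ X := by
        rw [hX, le_div_iff₀ hm0]
        calc x i * m = ∑ _l : Fin m, x i := by simp [mul_comm]
          _ ≤ ∑ l, x l := sum_le_sum fun l _ => (hij l).1
      have hXb : X ≤ x j := by
        rw [hX, div_le_iff₀ hm0]
        calc ∑ l, x l ≤ ∑ _l : Fin m, x j := sum_le_sum fun l _ => (hij l).2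
          _ = x j * m := by simp [mul_comm]
      by_cases hmid : 1 / 4 ≤ x i ∧ x j ≤ 3 / 4
      · -- all points in the middle
        have hlx : ∀ l, lim (x l) = 1 := fun l =>
          lim_mid (hmid.1.trans (hij l).1) ((hij l).2.trans hmid.2)
        have hs1 : (∑ l, lim (x l)) / m = 1 := by
          simp_rw [hlx]; simp [hm0.ne']
        have hs2 : bump m X ≤ (∑ l, bump m (x l)) / m + (x j - x i) := by
          have h1 : ∀ l, bump m X - (x j - x i) ≤ bump m (x l) := fun l => by
            have h2 := bump_lip hm X (x l)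
            have h3 : |X - x l| ≤ x j - x i := by
              rw [abs_le]; constructor <;> linarith [(hij l).1, (hij l).2]
            linarith
          have h4 : bump m X - (x j - x i) ≤ (∑ l, bump m (x l)) / m := by
            rw [le_div_iff₀ hm0]
            calc (bump m X - (x j - x i)) * m = ∑ _l : Fin m, (bump m X - (x j - x i)) := by
                  simp only [sum_const, card_univ, Fintype.card_fin, nsmul_eq_mul]; ring
              _ ≤ ∑ l, bump m (x l) := sum_le_sum fun l _ => h1 l
          linarith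
        rw [hlimX, hs1]; linarith
      · -- slack
        have hab : x i < x j := by
          by_contra h
          push Not at h
          apply hmid
          constructor <;> linarith
        obtain ⟨T, hT0, hT1, hTm, hTl⟩ := mean_ge hm x hx i j hij hab
        rw [← hX] at hTm
        have hslack : bump m X ≤ (∑ l, lim (x l)) / m + (x j - x i) - 1 := by
          by_cases hi4 : x i ≤ 1 / 4
          · by_cases hj4 : x j ≤ 3 / 4
            · -- case A
              have hTpos : 0 < T := by
                rcases hT0.eq_or_lt with h | h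
                · rw [← h] at hTm; linarith
                · exact h
              have := slack_one (hx i).1 hi4 hTpos hT1 hTm (by linarith)
                (lim_mid (by linarith) hj4)
              have hb := bump_le m X
              linarith
            · push Not at hj4
              -- case C
              have e1 : X = (1 - T) * x i + T * (1 - (1 - x j)) := by rw [hTm]; ring
              have h1 := slack_two (c := 1 - x j) (hx i).1 hi4 (by linarith [(hx j).2])
                (by linarith) hT0 hT1 e1 (by linarith) (by linarith)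
              rw [sub_sub_cancel] at h1
              have h2 : 2 * (nn (m * X) / m) ≤ (∑ l, lim (x l)) / m := by
                rw [hmX, ← mul_div_assoc]
                apply div_le_div_of_nonneg_right _ hm0.le
                calc 2 * nn (∑ l, x l) ≤ 2 * ∑ l, nn (x l) :=
                      mul_le_mul_of_nonneg_left (nn_sum x) (by norm_num)
                  _ = ∑ l, 2 * nn (x l) := by rw [mul_sum]
                  _ ≤ ∑ l, lim (x l) := sum_le_sum fun l _ => lim_ge_nn (hx l)
              have hb := bump_le_nn m X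
              have e2 : nn (m * X) / (3 * m) = 1 / 3 * (nn (m * X) / m) := by ring
              rw [e2] at hb
              linarith
          · push Not at hi4
            -- case B
            have hj4 : 3 / 4 < x j := by
              by_contra h
              push Not at h
              exact hmid ⟨hi4.le, h⟩
            have hTpos : 0 < 1 - T := by
              rcases hT1.eq_or_lt with h | h
              · rw [h] at hTm; linarith
              · linarith
            have hla : lim (x i) = 1 := lim_mid hi4.le (by linarith)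
            have := slack_one (a := 1 - x j) (b := 1 - x i) (lam := 1 - T) (x := 1 - X)
              (by linarith [(hx j).2]) (by linarith) hTpos (by linarith)
              (by rw [hTm]; ring) (by linarith) (by rw [lim_symm]; exact hla)
            rw [lim_symm, lim_symm] at this
            have hb := bump_le m X
            linarith
        rw [hlimX]; linarith

lemma bumped_inClassB (m : ℕ) (hm : 1 ≤ m) : InClassB m (fun x => lim x + bump m x) := by
  refine ⟨bumped_inClass m hm, ⟨1 + 1 / 30, ?_⟩⟩
  rintro _ ⟨x, hx, rfl⟩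
  have := lim_le_one hx.1
  have := bump_le m x
  simp only
  linarith

lemma bump_eq {m : ℕ} (hm : 10 ≤ m) {x : ℝ} (hx : |x - 1 / 2| ≤ 1 / 20) :
    bump m x = nn (m * x) / (3 * m) := by
  have hm0 : (10:ℝ) ≤ m := by exact_mod_cast hm
  unfold bump
  have h1 : nn (m * x) / m ≤ 1 / 20 := by
    rw [div_le_iff₀ (by linarith)]
    linarith [nn_le_half (m * x)]
  have h2 : 1 / 20 ≤ max (1 / 10 - |x - 1 / 2|) 0 := le_trans (by linarith) (le_max_left _ _)
  rw [min_eq_left (h1.trans h2)]
  ring

/-- one step to the fractional part -/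
lemma frac_step {m : ℕ} (hm : 1 ≤ m) {f : ℝ → ℝ} (hf : InClass m f) {z : ℝ}
    (hz : z ∈ Set.Ico (0:ℝ) 1) : f z ≤ f (Int.fract (m * z)) / m + 1 := by
  have hm0 : (0:ℝ) < m := by exact_mod_cast hm
  have hf0 : f 0 ≤ 0 := (le_max_left _ _).trans hf.1
  have hf1 : f 1 ≤ 0 := (le_max_right _ _).trans hf.1
  have hmz : 0 ≤ (m:ℝ) * z := mul_nonneg hm0.le hz.1
  obtain ⟨k, hk⟩ : ∃ k : ℕ, k = ⌊(m:ℝ) * z⌋₊ := ⟨_, rfl⟩
  have hk1 : (k:ℝ) ≤ m * z := by rw [hk]; exact Nat.floor_le hmz
  have hk2 : m * z < (k:ℝ) + 1 := by rw [hk]; exact Nat.lt_floor_add_one _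
  have hkm : k < m := by
    have : (k:ℝ) < m := by nlinarith [hz.2]
    exact_mod_cast this
  obtain ⟨s, hs⟩ : ∃ s : ℝ, s = m * z - k := ⟨_, rfl⟩
  have hs0 : 0 ≤ s := by rw [hs]; linarith
  have hs1 : s ≤ 1 := by rw [hs]; linarith
  have hfr : Int.fract (m * z) = s := by
    rw [hs, Int.fract_eq_iff]
    exact ⟨by linarith, by linarith, ⟨k, by push_cast; ring⟩⟩
  rw [hfr]
  have hcount : (univ.filter (fun l : Fin m => (l:ℕ) < k)).card = k := by
    have := Fin.card_filter_val_lt (n := m) (m := k)
    simpa [hkm.le] using this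
  have h2 := class_one hm hf
    (fun l : Fin m => if (l:ℕ) < k then 1 else if l = ⟨k, hkm⟩ then s else 0)
    (fun i => by
      by_cases h : (i:ℕ) < k
      · simp [h]
      · by_cases h' : i = ⟨k, hkm⟩
        · subst h'; simp [hs0, hs1]
        · simp [h, h'])
  have e1 : ∑ l : Fin m, (if (l:ℕ) < k then (1:ℝ) else if l = ⟨k, hkm⟩ then s else 0) =
      m * z := by
    have : ∀ l : Fin m, (if (l:ℕ) < k then (1:ℝ) else if l = ⟨k, hkm⟩ then s else 0) =
        (if (l:ℕ) < k then (1:ℝ) else 0) + (if l = ⟨k, hkm⟩ then s else 0) := by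
      intro l
      by_cases h : (l:ℕ) < k
      · have h' : l ≠ ⟨k, hkm⟩ := by
          intro h0; rw [h0] at h; simp at h
        simp [h, h']
      · simp [h]
    rw [sum_congr rfl fun l _ => this l, sum_add_distrib, ← sum_filter, sum_const, hcount,
      sum_ite_eq' univ (⟨k, hkm⟩ : Fin m) (fun _ => s)]
    simp [hs]
  have e2 : ∑ l : Fin m, f (if (l:ℕ) < k then (1:ℝ) else if l = ⟨k, hkm⟩ then s else 0) ≤
      f s := by
    calc ∑ l : Fin m, f (if (l:ℕ) < k then (1:ℝ) else if l = ⟨k, hkm⟩ then s else 0)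
        ≤ ∑ l : Fin m, (if l = ⟨k, hkm⟩ then f s else 0) := by
          apply sum_le_sum
          intro l _
          by_cases h : (l:ℕ) < k
          · have h' : l ≠ ⟨k, hkm⟩ := by
              intro h0; rw [h0] at h; simp at h
            simp [h, h', hf1]
          · by_cases h' : l = ⟨k, hkm⟩
            · subst h'; simp
            · simp [h, h', hf0]
      _ = f s := by
          rw [sum_ite_eq' univ (⟨k, hkm⟩ : Fin m) (fun _ => f s)]; simp
  rw [e1, mul_div_cancel_left₀ _ hm0.ne'] at h2
  have e3 := div_le_div_of_nonneg_right e2 hm0.le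
  linarith

end Pool.Agent.Helper415.RC
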