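import Mathlib
import Pool.Agent.Helper415.RC9

set_option autoImplicit false

open Finset

namespace Pool.Agent.Helper415.RC

/-- periodic extension of `lim` -/
noncomputable def LL (t : ℝ) : ℝ := lim (Int.fract t)

lemma lim_nonneg {x : ℝ} (hx : x ∈ Set.Icc (0:ℝ) 1) : 0 ≤ lim x :=
  le_min (phi_nonneg hx.1) (phi_nonneg (by linarith [hx.2]))

lemma LL_nonneg (t : ℝ) : 0 ≤ LL t := lim_nonneg ⟨Int.fract_nonneg _, (Int.fract_lt_one _).le⟩

lemma LL_le_one (t : ℝ) : LL t ≤ 1 := lim_le_one (Int.fract_nonneg _)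

lemma LL_eq {x : ℝ} (hx : x ∈ Set.Icc (0:ℝ) 1) : LL x = lim x := by
  unfold LL
  rcases eq_or_lt_of_le hx.2 with h | h
  · rw [h, Int.fract_one, lim_zero, lim_one]
  · rw [Int.fract_eq_self.mpr ⟨hx.1, h⟩]

lemma LL_add_int (t : ℝ) (z : ℤ) : LL (t + z) = LL t := by
  unfold LL; rw [Int.fract_add_intCast]

lemma lim_sub {u v : ℝ} (hu : 0 ≤ u) (hv : 0 ≤ v) (huv : u + v ≤ 1) :
    lim (u + v) ≤ lim u + lim v := by
  rcases (add_nonneg hu hv).eq_or_lt with h | h
  · have hu0 : u = 0 := by linarith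
    have hv0 : v = 0 := by linarith
    rw [hu0, hv0, add_zero, lim_zero, add_zero]
  · have h1 := lim_concave (a := 0) (b := u + v) (lam := u / (u + v)) le_rfl (by norm_num) h.le huv
      (by positivity) ((div_le_one h).mpr (by linarith))
    have h2 := lim_concave (a := 0) (b := u + v) (lam := v / (u + v)) le_rfl (by norm_num) h.le huv
      (by positivity) ((div_le_one h).mpr (by linarith))
    have e1 : (1 - u / (u + v)) * 0 + u / (u + v) * (u + v) = u := by field_simp; ring
    have e2 : (1 - v / (u + v)) * 0 + v / (u + v) * (u + v) = v := by field_simp; ring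
    rw [e1, lim_zero, mul_zero, zero_add] at h1
    rw [e2, lim_zero, mul_zero, zero_add] at h2
    have e3 : u / (u + v) * lim (u + v) + v / (u + v) * lim (u + v) = lim (u + v) := by
      field_simp
    linarith

lemma LL_add (s t : ℝ) : LL (s + t) ≤ LL s + LL t := by
  obtain ⟨u, hu⟩ : ∃ u : ℝ, u = Int.fract s := ⟨_, rfl⟩
  obtain ⟨v, hv⟩ : ∃ v : ℝ, v = Int.fract t := ⟨_, rfl⟩
  have hu0 : 0 ≤ u := hu ▸ Int.fract_nonneg _
  have hv0 : 0 ≤ v := hv ▸ Int.fract_nonneg _
  have hu1 : u < 1 := hu ▸ Int.fract_lt_one _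
  have hv1 : v < 1 := hv ▸ Int.fract_lt_one _
  have e : s + t = (u + v) + ((⌊s⌋ + ⌊t⌋ : ℤ) : ℝ) := by
    rw [hu, hv]; unfold Int.fract; push_cast; ring
  have hs : LL s = lim u := by unfold LL; rw [hu]
  have ht : LL t = lim v := by unfold LL; rw [hv]
  rw [e, LL_add_int, hs, ht]
  rcases le_or_gt (u + v) 1 with h | h
  · rw [LL_eq ⟨by linarith, h⟩]
    exact lim_sub hu0 hv0 h
  · have e2 : u + v = (u + v - 1) + ((1:ℤ):ℝ) := by push_cast; ring
    rw [e2, LL_add_int, LL_eq ⟨by linarith, by linarith⟩]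
    have h1 := lim_sub (u := 1 - u) (v := 1 - v) (by linarith) (by linarith) (by linarith)
    rw [lim_symm, lim_symm] at h1
    have e3 : (1 - u) + (1 - v) = 1 - (u + v - 1) := by ring
    rw [e3, lim_symm] at h1
    exact h1

lemma LL_zero : LL 0 = 0 := by unfold LL; rw [Int.fract_zero, lim_zero]

lemma LL_sum {m : ℕ} (x : Fin m → ℝ) : LL (∑ l, x l) ≤ ∑ l, LL (x l) := by
  classical
  have : ∀ s : Finset (Fin m), LL (∑ l ∈ s, x l) ≤ ∑ l ∈ s, LL (x l) := by
    intro s
    induction s using Finset.induction_on with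
    | empty => simp [LL_zero]
    | insert a s ha ih =>
      rw [sum_insert ha, sum_insert ha]
      exact (LL_add _ _).trans (by linarith)
  exact this univ

lemma LL_neg (t : ℝ) : LL (-t) = LL t := by
  unfold LL
  by_cases h : Int.fract t = 0
  · have h2 : Int.fract (-t) = 0 := Int.fract_neg_eq_zero.mpr h
    rw [h, h2]
  · rw [Int.fract_neg h, lim_symm]

/-- local inequality for tuples straddling `0`, positive mean -/
lemma LL_straddle {m : ℕ} (hm : 1 ≤ m) (s : Fin m → ℝ) (al be : ℝ) (hal : 0 ≤ al)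
    (hab : al + be ≤ 1) (hs : ∀ l, -al ≤ s l ∧ s l ≤ be) (hmean : 0 ≤ (∑ l, s l) / m) :
    LL ((∑ l, s l) / m) ≤ (∑ l, LL (s l)) / m + (al + be) := by
  classical
  have hm0 : (0:ℝ) < m := by exact_mod_cast hm
  have : Nonempty (Fin m) := ⟨⟨0, hm⟩⟩
  obtain ⟨X, hX⟩ : ∃ X : ℝ, X = (∑ l, s l) / m := ⟨_, rfl⟩
  rw [← hX] at hmean ⊢
  have hXm : X * m = ∑ l, s l := by rw [hX]; field_simp
  obtain ⟨t, ht⟩ : ∃ t : Fin m → ℝ, ∀ l, t l = max (s l) 0 := ⟨_, fun _ => rfl⟩
  have hbe0 : 0 ≤ be := by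
    by_contra h
    push Not at h
    have : ∑ l, s l < 0 := by
      calc ∑ l, s l ≤ ∑ _l : Fin m, be := sum_le_sum fun l _ => (hs l).2
        _ = m * be := by simp
        _ < 0 := by nlinarith
    nlinarith
  have hbe1 : be ≤ 1 := by linarith
  have ht0 : ∀ l, 0 ≤ t l := fun l => by rw [ht]; exact le_max_right _ _
  have htb : ∀ l, t l ≤ be := fun l => by rw [ht]; exact max_le (hs l).2 hbe0
  have htI : ∀ l, t l ∈ Set.Icc (0:ℝ) 1 := fun l => ⟨ht0 l, (htb l).trans hbe1⟩
  obtain ⟨i, hi⟩ := Finite.exists_min t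
  obtain ⟨j, hj⟩ := Finite.exists_max t
  have hcl := (lim_inClass m hm).2 t htI i j (fun l => ⟨hi l, hj l⟩)
  obtain ⟨τ, hτ⟩ : ∃ τ : ℝ, τ = (∑ l, t l) / m := ⟨_, rfl⟩
  rw [← hτ] at hcl
  have hτm : τ * m = ∑ l, t l := by rw [hτ]; field_simp
  have hlt : (∑ l, lim (t l)) / m ≤ (∑ l, LL (s l)) / m := by
    apply div_le_div_of_nonneg_right _ hm0.le
    apply sum_le_sum
    intro l _
    by_cases h : 0 ≤ s l
    · have e : t l = s l := by rw [ht]; exact max_eq_left h
      rw [e, LL_eq ⟨h, (hs l).2.trans hbe1⟩]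
    · push Not at h
      have e : t l = 0 := by rw [ht]; exact max_eq_right h.le
      rw [e, lim_zero]; exact LL_nonneg _
  have hXτ : X ≤ τ := by
    have : X * m ≤ τ * m := by
      rw [hXm, hτm]
      exact sum_le_sum fun l _ => by rw [ht]; exact le_max_left _ _
    exact le_of_mul_le_mul_right this hm0
  have hτbe : τ ≤ be := by
    have : τ * m ≤ be * m := by
      rw [hτm]
      calc ∑ l, t l ≤ ∑ _l : Fin m, be := sum_le_sum fun l _ => htb l
        _ = be * m := by simp [mul_comm]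
    exact le_of_mul_le_mul_right this hm0
  have hτ1 : τ ≤ 1 := hτbe.trans hbe1
  have hX1 : X ≤ 1 := hXτ.trans hτ1
  rw [LL_eq ⟨hmean, hX1⟩]
  -- τ - X ≤ (1 - τ) al
  have hdiff : τ - X ≤ (1 - τ) * al := by
    have h1 : (τ - X) * m ≤ (1 - τ) * al * m := by
      have e : (τ - X) * m = ∑ l, (t l - s l) := by
        rw [sub_mul, hτm, hXm, sum_sub_distrib]
      have e2 : (1 - τ) * al * m = ∑ l, (1 - t l) * al := by
        rw [← sum_mul, sum_sub_distrib, ← hτm]; simp; ring
      rw [e, e2]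
      apply sum_le_sum
      intro l _
      by_cases h : 0 ≤ s l
      · have e : t l = s l := by rw [ht]; exact max_eq_left h
        rw [e, sub_self]
        exact mul_nonneg (by linarith [(hs l).2]) hal
      · push Not at h
        have e : t l = 0 := by rw [ht]; exact max_eq_right h.le
        rw [e]; linarith [(hs l).1]
    exact le_of_mul_le_mul_right h1 hm0
  -- lim X ≤ lim τ + al
  have hlim : lim X ≤ lim τ + al := by
    rcases eq_or_lt_of_le hτ1 with h1 | h1
    · have : X = τ := by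
        rw [h1] at hdiff hXτ ⊢
        linarith
      rw [this]; linarith
    · rcases eq_or_lt_of_le hXτ with h2 | h2
      · rw [h2]; linarith
      · -- τ between X and 1
        have hd : 0 < 1 - X := by linarith
        have h3 := lim_concave (a := X) (b := 1) (lam := (τ - X) / (1 - X)) hmean hX1
          (by norm_num) le_rfl (div_nonneg (by linarith) hd.le)
          ((div_le_one hd).mpr (by linarith))
        have e : (1 - (τ - X) / (1 - X)) * X + (τ - X) / (1 - X) * 1 = τ := by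
          field_simp; ring
        rw [e, lim_one, mul_zero, add_zero] at h3
        have hLX : lim X ≤ 1 := lim_le_one hmean
        have hLX0 : 0 ≤ lim X := lim_nonneg ⟨hmean, hX1⟩
        -- (1 - θ) lim X ≤ lim τ, θ ≤ al
        have hθ : (τ - X) / (1 - X) ≤ al := by
          rw [div_le_iff₀ hd]
          nlinarith
        have h4 : (τ - X) / (1 - X) * lim X ≤ al * 1 :=
          mul_le_mul hθ hLX hLX0 hal
        linarith
  have h5 : t j - t i ≤ be := by linarith [htb j, ht0 i]
  linarith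

end Pool.Agent.Helper415.RC
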