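import Mathlib
import Pool.Agent.Helper415.RC10

set_option autoImplicit false

open Finset

namespace Pool.Agent.Helper415.RC

lemma mean_shift {m : ℕ} (hm : 1 ≤ m) (s : Fin m → ℝ) (z : ℝ) :
    (∑ l, (s l - z)) / m = (∑ l, s l) / m - z := by
  have hm0 : (0:ℝ) < m := by exact_mod_cast hm
  rw [sum_sub_distrib]
  simp only [sum_const, card_univ, Fintype.card_fin, nsmul_eq_mul]
  field_simp

/-- relaxed convexity of the periodic extension on the whole line -/
theorem LL_local {m : ℕ} (hm : 1 ≤ m) (s : Fin m → ℝ) (i j : Fin m)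
    (hij : ∀ l, s i ≤ s l ∧ s l ≤ s j) :
    LL ((∑ l, s l) / m) ≤ (∑ l, LL (s l)) / m + (s j - s i) := by
  have hm0 : (0:ℝ) < m := by exact_mod_cast hm
  have hS0 : 0 ≤ (∑ l, LL (s l)) / m := div_nonneg (sum_nonneg fun l _ => LL_nonneg _) hm0.le
  rcases le_or_gt 1 (s j - s i) with h1 | h1
  · linarith [LL_le_one ((∑ l, s l) / m)]
  · have hshift : ∀ (z : ℤ) (t : ℝ), LL (t - z) = LL t := fun z t => by
      have := LL_add_int (t - z) z
      rw [sub_add_cancel] at this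
      exact this.symm
    rcases le_or_gt (s j) ((⌊s i⌋ : ℝ) + 1) with h2 | h2
    · -- same cell
      obtain ⟨t, ht⟩ : ∃ t : Fin m → ℝ, ∀ l, t l = s l - (⌊s i⌋ : ℝ) := ⟨_, fun _ => rfl⟩
      have htI : ∀ l, t l ∈ Set.Icc (0:ℝ) 1 := fun l => by
        rw [ht]
        exact ⟨by linarith [(hij l).1, Int.floor_le (s i)], by linarith [(hij l).2]⟩
      have hcl := (lim_inClass m hm).2 t htI i j (fun l => by
        rw [ht, ht, ht]; exact ⟨by linarith [(hij l).1], by linarith [(hij l).2]⟩)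
      have e1 : (∑ l, t l) / m = (∑ l, s l) / m - (⌊s i⌋ : ℝ) := by
        rw [← mean_shift hm s]; simp_rw [ht]
      have e2 : ∀ l, lim (t l) = LL (s l) := fun l => by
        rw [← LL_eq (htI l), ht, hshift]
      have hmI : (∑ l, t l) / m ∈ Set.Icc (0:ℝ) 1 := by
        constructor
        · exact div_nonneg (sum_nonneg fun l _ => (htI l).1) hm0.le
        · rw [div_le_one hm0]
          calc ∑ l, t l ≤ ∑ _l : Fin m, (1:ℝ) := sum_le_sum fun l _ => (htI l).2
            _ = m := by simp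
      rw [← LL_eq hmI, e1, hshift] at hcl
      simp_rw [e2] at hcl
      have e3 : t j - t i = s j - s i := by rw [ht, ht]; ring
      rw [e3] at hcl
      exact hcl
    · -- straddling the integer z
      obtain ⟨z, hz⟩ : ∃ z : ℤ, z = ⌊s i⌋ + 1 := ⟨_, rfl⟩
      have hzr : (z:ℝ) = (⌊s i⌋ : ℝ) + 1 := by rw [hz]; push_cast; ring
      have hzi : s i < z := by rw [hzr]; exact Int.lt_floor_add_one _
      have hzj : (z:ℝ) < s j := by rw [hzr]; exact h2
      obtain ⟨u, hu⟩ : ∃ u : Fin m → ℝ, ∀ l, u l = s l - (z:ℝ) := ⟨_, fun _ => rfl⟩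
      have eu : (∑ l, u l) / m = (∑ l, s l) / m - (z:ℝ) := by
        rw [← mean_shift hm s]; simp_rw [hu]
      have eL : ∀ l, LL (u l) = LL (s l) := fun l => by rw [hu, hshift]
      have eX : LL ((∑ l, s l) / m) = LL ((∑ l, u l) / m) := by rw [eu, hshift]
      rcases le_total 0 ((∑ l, u l) / m) with h3 | h3
      · have := LL_straddle hm u ((z:ℝ) - s i) (s j - z) (by linarith) (by linarith)
          (fun l => by rw [hu]; exact ⟨by linarith [(hij l).1], by linarith [(hij l).2]⟩) h3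
        simp_rw [eL] at this
        rw [eX]
        linarith
      · have h4 : 0 ≤ (∑ l, (-u l)) / m := by
          rw [sum_neg_distrib, neg_div]; linarith
        have := LL_straddle hm (fun l => -u l) (s j - z) ((z:ℝ) - s i) (by linarith) (by linarith)
          (fun l => by
            show -(s j - z) ≤ -u l ∧ -u l ≤ (z:ℝ) - s i
            rw [hu]
            exact ⟨by linarith [(hij l).2], by linarith [(hij l).1]⟩) h4
        rw [sum_neg_distrib, neg_div, LL_neg] at this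
        simp only [LL_neg] at this
        simp_rw [eL] at this
        rw [eX]
        linarith

/-- linear lower bound near zero with large slope -/
lemma phi_ge_K (K : ℕ) (hK : 1 ≤ K) {a : ℝ} (ha : 0 < a) (haK : a * (K:ℝ) ^ K ≤ 1) :
    K * a ≤ phi a := by
  have hK1 : (1:ℝ) ≤ K := by exact_mod_cast hK
  have hK0 : (0:ℝ) < K := by linarith
  have ha1 : a ≤ 1 := by
    have : a * 1 ≤ a * (K:ℝ) ^ K := mul_le_mul_of_nonneg_left (one_le_pow₀ hK1) ha.le
    linarith
  apply le_phi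
  intro n hn
  have hn0 : (0:ℝ) < n := by exact_mod_cast hn
  have hn1 : (1:ℝ) ≤ n := by exact_mod_cast hn
  unfold pw
  rcases le_or_gt K n with h | h
  · have h1 : a ≤ a ^ (1 - 1 / (n:ℝ)) := by
      calc a = a ^ (1:ℝ) := (Real.rpow_one a).symm
        _ ≤ a ^ (1 - 1 / (n:ℝ)) := Real.rpow_le_rpow_of_exponent_ge ha ha1
          (by have : 0 ≤ 1 / (n:ℝ) := by positivity
              linarith)
    have h2 : (K:ℝ) ≤ n := by exact_mod_cast h
    exact mul_le_mul h2 h1 ha.le hn0.le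
  · have h1 : K * a ≤ a ^ (1 - 1 / (n:ℝ)) := by
      apply le_of_pow_le_pow_left₀ (n := n) (by omega) (by positivity)
      rw [← Real.rpow_natCast (a ^ _) n, ← Real.rpow_mul ha.le]
      have e : (1 - 1 / (n:ℝ)) * (n:ℝ) = ((n - 1 : ℕ):ℝ) := by
        rw [Nat.cast_sub hn]; push_cast; field_simp
      rw [e, Real.rpow_natCast, mul_pow]
      have e2 : a ^ n = a ^ (n - 1) * a := by
        rw [← pow_succ]; congr 1; omega
      rw [e2]
      have h3 : (K:ℝ) ^ n * a ≤ 1 := by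
        have : (K:ℝ) ^ n ≤ (K:ℝ) ^ K := pow_le_pow_right₀ hK1 h.le
        nlinarith
      calc (K:ℝ) ^ n * (a ^ (n - 1) * a) = ((K:ℝ) ^ n * a) * a ^ (n - 1) := by ring
        _ ≤ 1 * a ^ (n - 1) := mul_le_mul_of_nonneg_right h3 (by positivity)
        _ = a ^ (n - 1) := one_mul _
    calc (K:ℝ) * a ≤ 1 * a ^ (1 - 1 / (n:ℝ)) := by rw [one_mul]; exact h1
      _ ≤ n * a ^ (1 - 1 / (n:ℝ)) := mul_le_mul_of_nonneg_right hn1 (by positivity)

lemma lim_ge_K (K : ℕ) (hK : 4 ≤ K) {a : ℝ} (ha : 0 ≤ a) (haK : a * (K:ℝ) ^ K ≤ 1) :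
    K * a ≤ lim a := by
  rcases ha.eq_or_lt with h | h
  · rw [← h, mul_zero, lim_zero]
  · have hK4 : (4:ℝ) ≤ K := by exact_mod_cast hK
    have h1 : (K:ℝ) ≤ (K:ℝ) ^ K := le_self_pow₀ (by linarith) (by omega)
    have h2 : a * K ≤ 1 := (mul_le_mul_of_nonneg_left h1 ha).trans haK
    have h3 : a ≤ 1 / 4 := by nlinarith
    unfold lim
    rw [phi_eq_one (x := 1 - a) (by linarith)]
    exact le_min (phi_ge_K K (by omega) h haK) (by linarith)

/-- both ends very close to the boundary -/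
lemma slack_K (K : ℕ) (hK : 4 ≤ K) {a c lam x : ℝ} (ha : 0 ≤ a) (hc : 0 ≤ c)
    (hac : (a + c) * (K:ℝ) ^ K ≤ 1) (hl0 : 0 ≤ lam) (hl1 : lam ≤ 1)
    (hx : x = (1 - lam) * a + lam * (1 - c)) (hx1 : 2 / 5 ≤ x) (hx2 : x ≤ 3 / 5) :
    1 + (3 / 10 * K - 1) * (a + c) ≤ (1 - lam) * lim a + lam * lim (1 - c) + (1 - c - a) := by
  have hK4 : (4:ℝ) ≤ K := by exact_mod_cast hK
  have hKK : (16:ℝ) ≤ (K:ℝ) ^ K := by
    calc (16:ℝ) = 4 ^ 2 := by norm_num
      _ ≤ (K:ℝ) ^ 2 := pow_le_pow_left₀ (by norm_num) hK4 2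
      _ ≤ (K:ℝ) ^ K := pow_le_pow_right₀ (by linarith) (by omega)
  have hKp : (0:ℝ) < (K:ℝ) ^ K := by linarith
  have h1 := lim_ge_K K hK ha (by nlinarith)
  have h2 := lim_ge_K K hK hc (by nlinarith)
  have hg : (a + c) ≤ 1 / 16 := by nlinarith
  rw [lim_symm]
  have hlam1 : 3 / 10 ≤ lam := by nlinarith
  have hlam2 : 3 / 10 ≤ 1 - lam := by nlinarith
  have h3 : 3 / 10 * (K * a) ≤ (1 - lam) * lim a := by
    calc 3 / 10 * (K * a) ≤ (1 - lam) * (K * a) :=
          mul_le_mul_of_nonneg_right hlam2 (by positivity)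
      _ ≤ _ := mul_le_mul_of_nonneg_left h1 (by linarith)
  have h4 : 3 / 10 * (K * c) ≤ lam * lim c := by
    calc 3 / 10 * (K * c) ≤ lam * (K * c) := mul_le_mul_of_nonneg_right hlam1 (by positivity)
      _ ≤ _ := mul_le_mul_of_nonneg_left h2 hl0
  linarith

end Pool.Agent.Helper415.RC
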