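import Mathlib
import Pool.Agent.Helper415.RC11

set_option autoImplicit false

open Finset

namespace Pool.Agent.Helper415.RC

/-- the fine bump -/
noncomputable def bump2 (m : ℕ) (θ x : ℝ) : ℝ :=
  max (θ * LL (m * x) / m - 20 / m * max (|x - 1 / 2| - 1 / 20) 0) 0

lemma bump2_nonneg (m : ℕ) (θ x : ℝ) : 0 ≤ bump2 m θ x := le_max_right _ _

lemma bump2_le {m : ℕ} {θ : ℝ} (hθ : 0 ≤ θ) (x : ℝ) : bump2 m θ x ≤ θ * (LL (m * x) / m) := by
  unfold bump2
  have h1 : 0 ≤ 20 / (m:ℝ) * max (|x - 1 / 2| - 1 / 20) 0 :=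
    mul_nonneg (by positivity) (le_max_right _ _)
  have h2 : 0 ≤ θ * (LL (m * x) / m) :=
    mul_nonneg hθ (div_nonneg (LL_nonneg _) (Nat.cast_nonneg _))
  apply max_le _ h2
  rw [mul_div_assoc]; linarith

lemma bump2_le_inv {m : ℕ} {θ : ℝ} (hθ : 0 ≤ θ) (hθ1 : θ ≤ 1) (x : ℝ) :
    bump2 m θ x ≤ 1 / m := by
  have h1 := bump2_le (m := m) hθ x
  have h2 : LL (m * x) / m ≤ 1 / m :=
    div_le_div_of_nonneg_right (LL_le_one _) (Nat.cast_nonneg _)
  have h3 : 0 ≤ LL (m * x) / m := div_nonneg (LL_nonneg _) (Nat.cast_nonneg _)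
  nlinarith

lemma bump2_zero {m : ℕ} {θ : ℝ} (_hθ : 0 ≤ θ) (hθ1 : θ ≤ 1) {x : ℝ}
    (h : 1 / 10 ≤ |x - 1 / 2|) : bump2 m θ x = 0 := by
  unfold bump2
  apply max_eq_right
  have h2 : LL (m * x) / m ≤ 1 / m :=
    div_le_div_of_nonneg_right (LL_le_one _) (Nat.cast_nonneg _)
  have h3 : 0 ≤ LL (m * x) / m := div_nonneg (LL_nonneg _) (Nat.cast_nonneg _)
  have h4 : 1 / 20 ≤ max (|x - 1 / 2| - 1 / 20) 0 := le_trans (by linarith) (le_max_left _ _)
  have h5 : 20 / (m:ℝ) * (1 / 20) ≤ 20 / (m:ℝ) * max (|x - 1 / 2| - 1 / 20) 0 :=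
    mul_le_mul_of_nonneg_left h4 (by positivity)
  have h6 : 20 / (m:ℝ) * (1 / 20) = 1 / m := by ring
  rw [mul_div_assoc]
  nlinarith

lemma bump2_eq {m : ℕ} {θ : ℝ} (hθ : 0 ≤ θ) {x : ℝ} (hx : |x - 1 / 2| ≤ 1 / 20) :
    bump2 m θ x = θ * (LL (m * x) / m) := by
  unfold bump2
  have h1 : max (|x - 1 / 2| - 1 / 20) 0 = 0 := max_eq_right (by linarith)
  have h2 : 0 ≤ θ * (LL (m * x) / m) :=
    mul_nonneg hθ (div_nonneg (LL_nonneg _) (Nat.cast_nonneg _))
  rw [h1, mul_zero, sub_zero, mul_div_assoc, max_eq_left h2]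

lemma bump2_local {m : ℕ} (hm : 1 ≤ m) {θ : ℝ} (hθ : 0 ≤ θ) (hθ1 : θ + 20 / m ≤ 1)
    (x : Fin m → ℝ) (i j : Fin m) (hij : ∀ l, x i ≤ x l ∧ x l ≤ x j) {X : ℝ}
    (hX : X = (∑ l, x l) / m) :
    bump2 m θ X ≤ (∑ l, bump2 m θ (x l)) / m + (x j - x i) := by
  have hm0 : (0:ℝ) < m := by exact_mod_cast hm
  have hr : 0 ≤ x j - x i := by linarith [(hij i).2]
  have hXa : x i ≤ X := by
    rw [hX, le_div_iff₀ hm0]
    calc x i * m = ∑ _l : Fin m, x i := by simp [mul_comm]
      _ ≤ ∑ l, x l := sum_le_sum fun l _ => (hij l).1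
  have hXb : X ≤ x j := by
    rw [hX, div_le_iff₀ hm0]
    calc ∑ l, x l ≤ ∑ _l : Fin m, x j := sum_le_sum fun l _ => (hij l).2
      _ = x j * m := by simp [mul_comm]
  obtain ⟨C, hC⟩ : ∃ C : ℝ → ℝ, ∀ y, C y = max (|y - 1 / 2| - 1 / 20) 0 := ⟨_, fun _ => rfl⟩
  have hB0 : 0 ≤ (∑ l, bump2 m θ (x l)) / m :=
    div_nonneg (sum_nonneg fun l _ => bump2_nonneg m θ _) hm0.le
  have hCl : ∀ l, C (x l) ≤ C X + (x j - x i) := fun l => by
    rw [hC, hC]
    have h3 : |X - x l| ≤ x j - x i := by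
      rw [abs_le]; constructor <;> linarith [(hij l).1, (hij l).2]
    apply max_le
    · have h4 : |x l - 1 / 2| ≤ |X - 1 / 2| + |X - x l| := by
        have e : x l - 1 / 2 = (X - 1 / 2) - (X - x l) := by ring
        rw [e]; exact abs_sub _ _
      have := le_max_left (|X - 1 / 2| - 1 / 20) 0
      linarith
    · have := le_max_right (|X - 1 / 2| - 1 / 20) (0:ℝ)
      linarith
  have hL := LL_local hm (fun l => m * x l) i j (fun l =>
    ⟨mul_le_mul_of_nonneg_left (hij l).1 hm0.le, mul_le_mul_of_nonneg_left (hij l).2 hm0.le⟩)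
  have eX : (∑ l, (m:ℝ) * x l) / m = m * X := by rw [← mul_sum, hX, mul_div_assoc]
  rw [eX] at hL
  have hsum : ∑ l, (θ * LL (m * x l) / m - 20 / m * C (x l)) ≤ ∑ l, bump2 m θ (x l) :=
    sum_le_sum fun l _ => by
      unfold bump2; rw [hC]; exact le_max_left _ _
  have e1 : ∑ l, (θ * LL (m * x l) / m - 20 / m * C (x l)) =
      θ * (∑ l, LL (m * x l)) / m - 20 / m * ∑ l, C (x l) := by
    rw [sum_sub_distrib, ← mul_sum, ← sum_div, ← mul_sum]
  have hCs : (∑ l, C (x l)) / m ≤ C X + (x j - x i) := by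
    rw [div_le_iff₀ hm0]
    calc ∑ l, C (x l) ≤ ∑ _l : Fin m, (C X + (x j - x i)) := sum_le_sum fun l _ => hCl l
      _ = (C X + (x j - x i)) * m := by
          simp only [sum_const, card_univ, Fintype.card_fin, nsmul_eq_mul]; ring
  have hsum2 := div_le_div_of_nonneg_right hsum hm0.le
  rw [e1] at hsum2
  have e2 : (θ * (∑ l, LL (m * x l)) / m - 20 / m * ∑ l, C (x l)) / m =
      θ / m * ((∑ l, LL (m * x l)) / m) - 20 / m * ((∑ l, C (x l)) / m) := by
    ring
  rw [e2] at hsum2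
  have h5 : θ / m * LL (m * X) ≤ θ / m * ((∑ l, LL (m * x l)) / m + (m * x j - m * x i)) :=
    mul_le_mul_of_nonneg_left hL (by positivity)
  have h6 : 20 / (m:ℝ) * ((∑ l, C (x l)) / m) ≤ 20 / m * (C X + (x j - x i)) :=
    mul_le_mul_of_nonneg_left hCs (by positivity)
  have e3 : θ / m * (m * x j - m * x i) = θ * (x j - x i) := by field_simp
  have h7 : (θ + 20 / m) * (x j - x i) ≤ 1 * (x j - x i) :=
    mul_le_mul_of_nonneg_right hθ1 hr
  unfold bump2
  rw [← hC X]
  apply max_le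
  · have e4 : θ * LL (m * X) / m = θ / m * LL (m * X) := by ring
    rw [e4]
    have hB : (∑ l, bump2 m θ (x l)) / m = (∑ l, max (θ * LL (m * x l) / m -
      20 / m * max (|x l - 1 / 2| - 1 / 20) 0) 0) / m := rfl
    rw [← hB]
    nlinarith
  · have hB : (∑ l, bump2 m θ (x l)) / m = (∑ l, max (θ * LL (m * x l) / m -
      20 / m * max (|x l - 1 / 2| - 1 / 20) 0) 0) / m := rfl
    rw [← hB]
    linarith

/-- `lim` plus the fine bump belongs to the class -/
theorem bumped2_inClass (m K : ℕ) (θ : ℝ) (hK : 4 ≤ K) (hm : 7 ≤ m) (hθ : 0 ≤ θ)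
    (h1 : θ + 20 / m ≤ 1) (h2 : θ * (3 / 10 * K) ≤ 3 / 10 * K - 1) (h3 : 5 * (K:ℝ) ^ K ≤ m) :
    InClass m (fun x => lim x + bump2 m θ x) := by
  have hm0 : (0:ℝ) < m := by exact_mod_cast (by omega : 0 < m)
  have hm7 : (7:ℝ) ≤ m := by exact_mod_cast hm
  have hθ1 : θ ≤ 1 := by
    have : 0 ≤ 20 / (m:ℝ) := by positivity
    linarith
  have hinv : 1 / (m:ℝ) ≤ 3 / 20 := by
    rw [div_le_div_iff₀ hm0 (by norm_num)]; linarith
  refine ⟨?_, ?_⟩
  · have h0 : bump2 m θ 0 = 0 := bump2_zero hθ hθ1 (by rw [abs_of_nonpos] <;> norm_num)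
    have h1 : bump2 m θ 1 = 0 := bump2_zero hθ hθ1 (by rw [abs_of_nonneg] <;> norm_num)
    simp only [h0, h1, lim_zero, lim_one]; simp
  · intro x hx i j hij
    have hclass := (lim_inClass m (by omega)).2 x hx i j hij
    simp only
    rw [sum_add_distrib, add_div]
    have hB0 : 0 ≤ (∑ l, bump2 m θ (x l)) / m :=
      div_nonneg (sum_nonneg fun l _ => bump2_nonneg m θ _) hm0.le
    rcases le_or_gt (1 / 10) |(∑ l, x l) / m - 1 / 2| with hfar | hnear
    · rw [bump2_zero hθ hθ1 hfar]; linarith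
    · obtain ⟨X, hX⟩ : ∃ X : ℝ, X = (∑ l, x l) / m := ⟨_, rfl⟩
      have hloc := bump2_local (by omega) hθ h1 x i j hij hX
      rw [← hX] at hnear hclass ⊢
      have hX1 : 2 / 5 < X := by have := (abs_lt.mp hnear).1; linarith
      have hX2 : X < 3 / 5 := by have := (abs_lt.mp hnear).2; linarith
      have hlimX : lim X = 1 := lim_mid (by linarith) (by linarith)
      have hmX : (m:ℝ) * X = ∑ l, x l := by rw [hX]; field_simp
      have hXa : x i ≤ X := by
        rw [hX, le_div_iff₀ hm0]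
        calc x i * m = ∑ _l : Fin m, x i := by simp [mul_comm]
          _ ≤ ∑ l, x l := sum_le_sum fun l _ => (hij l).1
      have hXb : X ≤ x j := by
        rw [hX, div_le_iff₀ hm0]
        calc ∑ l, x l ≤ ∑ _l : Fin m, x j := sum_le_sum fun l _ => (hij l).2
          _ = x j * m := by simp [mul_comm]
      have hb := bump2_le_inv (m := m) hθ hθ1 X
      by_cases hmid : 1 / 4 ≤ x i ∧ x j ≤ 3 / 4
      · have hlx : ∀ l, lim (x l) = 1 := fun l =>
          lim_mid (hmid.1.trans (hij l).1) ((hij l).2.trans hmid.2)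
        have hs1 : (∑ l, lim (x l)) / m = 1 := by
          simp_rw [hlx]; simp [hm0.ne']
        rw [hlimX, hs1]; linarith
      · have hab : x i < x j := by
          by_contra h
          push Not at h
          apply hmid
          constructor <;> linarith
        obtain ⟨T, hT0, hT1, hTm, hTl⟩ := mean_ge (by omega) x hx i j hij hab
        rw [← hX] at hTm
        have hslack : bump2 m θ X ≤ (∑ l, lim (x l)) / m + (x j - x i) - 1 := by
          by_cases hi4 : x i ≤ 1 / 4
          · by_cases hj4 : x j ≤ 3 / 4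
            · have hTpos : 0 < T := by
                rcases hT0.eq_or_lt with h | h
                · rw [← h] at hTm; linarith
                · exact h
              have := slack_one (hx i).1 hi4 hTpos hT1 hTm (by linarith)
                (lim_mid (by linarith) hj4)
              linarith
            · push Not at hj4
              have e1 : X = (1 - T) * x i + T * (1 - (1 - x j)) := by rw [hTm]; ring
              obtain ⟨g, hg⟩ : ∃ g : ℝ, g = x i + (1 - x j) := ⟨_, rfl⟩
              rcases le_or_gt (g * (K:ℝ) ^ K) 1 with hgK | hgK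
              · have h4 := slack_K K hK (c := 1 - x j) (hx i).1 (by linarith [(hx j).2])
                  (by rw [← hg]; exact hgK) hT0 hT1 e1 (by linarith) (by linarith)
                rw [sub_sub_cancel, ← hg] at h4
                have h5 : LL (m * X) / m ≤ (∑ l, lim (x l)) / m := by
                  apply div_le_div_of_nonneg_right _ hm0.le
                  rw [hmX]
                  calc LL (∑ l, x l) ≤ ∑ l, LL (x l) := LL_sum x
                    _ = ∑ l, lim (x l) := sum_congr rfl fun l _ => LL_eq (hx l)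
                obtain ⟨L, hL⟩ : ∃ L : ℝ, L = LL (m * X) / m := ⟨_, rfl⟩
                have hL0 : 0 ≤ L := by
                  rw [hL]; exact div_nonneg (LL_nonneg _) hm0.le
                have hb2 := bump2_le (m := m) hθ X
                rw [← hL] at h5 hb2
                obtain ⟨S, hS⟩ : ∃ S : ℝ, S = (∑ l, lim (x l)) / m + (x j - x i) - 1 := ⟨_, rfl⟩
                rw [← hS]
                have hS1 : (3 / 10 * K - 1) * g ≤ S := by rw [hS]; linarith
                have hS2 : L - g ≤ S := by rw [hS, hg]; linarith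
                have hK4 : (4:ℝ) ≤ K := by exact_mod_cast hK
                have hk0 : 0 ≤ 3 / 10 * (K:ℝ) - 1 := by linarith
                have h6 : (3 / 10 * (K:ℝ) - 1) * (L - g) ≤ (3 / 10 * K - 1) * S :=
                  mul_le_mul_of_nonneg_left hS2 hk0
                have h7 : θ * (3 / 10 * K) * L ≤ (3 / 10 * K - 1) * L :=
                  mul_le_mul_of_nonneg_right h2 hL0
                have h8 : (3 / 10 * (K:ℝ)) * (θ * L) ≤ (3 / 10 * K) * S := by nlinarith
                have h9 : θ * L ≤ S := le_of_mul_le_mul_left h8 (by linarith)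
                linarith
              · have h4 := slack_two (c := 1 - x j) (hx i).1 hi4 (by linarith [(hx j).2])
                  (by linarith) hT0 hT1 e1 (by linarith) (by linarith)
                rw [sub_sub_cancel, ← hg] at h4
                have hg0 : 0 ≤ g := by rw [hg]; linarith [(hx i).1, (hx j).2]
                have h5 : 1 / (m:ℝ) ≤ 1 / 5 * g := by
                  rw [div_le_iff₀ hm0]
                  have : g * (5 * (K:ℝ) ^ K) ≤ g * m := mul_le_mul_of_nonneg_left h3 hg0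
                  nlinarith
                linarith
          · push Not at hi4
            have hj4 : 3 / 4 < x j := by
              by_contra h
              push Not at h
              exact hmid ⟨hi4.le, h⟩
            have hTpos : 0 < 1 - T := by
              rcases hT1.eq_or_lt with h | h
              · rw [h] at hTm; linarith
              · linarith
            have hla : lim (x i) = 1 := lim_mid hi4.le (by linarith)
            have := slack_one (a := 1 - x j) (b := 1 - x i) (lam := 1 - T) (x := 1 - X)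
              (by linarith [(hx j).2]) (by linarith) hTpos (by linarith)
              (by rw [hTm]; ring) (by linarith) (by rw [lim_symm]; exact hla)
            rw [lim_symm, lim_symm] at this
            linarith
        rw [hlimX]; linarith

lemma bumped2_inClassB (m K : ℕ) (θ : ℝ) (hK : 4 ≤ K) (hm : 7 ≤ m) (hθ : 0 ≤ θ)
    (h1 : θ + 20 / m ≤ 1) (h2 : θ * (3 / 10 * K) ≤ 3 / 10 * K - 1) (h3 : 5 * (K:ℝ) ^ K ≤ m) :
    InClassB m (fun x => lim x + bump2 m θ x) := by
  have hm0 : (0:ℝ) < m := by exact_mod_cast (by omega : 0 < m)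
  have hθ1 : θ ≤ 1 := by
    have : 0 ≤ 20 / (m:ℝ) := by positivity
    linarith
  refine ⟨bumped2_inClass m K θ hK hm hθ h1 h2 h3, ⟨1 + 1 / m, ?_⟩⟩
  rintro _ ⟨x, hx, rfl⟩
  have := lim_le_one hx.1
  have := bump2_le_inv (m := m) hθ hθ1 x
  simp only
  linarith

/-- the parameters -/
lemma params {ε : ℝ} (hε : 0 < ε) : ∃ (θ : ℝ) (K M : ℕ), 1 - ε ≤ θ ∧ 0 ≤ θ ∧ 4 ≤ K ∧ 10 ≤ M ∧
    θ * (3 / 10 * K) ≤ 3 / 10 * K - 1 ∧
    ∀ m : ℕ, M ≤ m → θ + 20 / m ≤ 1 ∧ 5 * (K:ℝ) ^ K ≤ m := by
  obtain ⟨δ, hδ⟩ : ∃ δ : ℝ, δ = min ε 1 := ⟨_, rfl⟩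
  have hδ0 : 0 < δ := by rw [hδ]; exact lt_min hε one_pos
  have hδ1 : δ ≤ 1 := by rw [hδ]; exact min_le_right _ _
  have hδε : δ ≤ ε := by rw [hδ]; exact min_le_left _ _
  obtain ⟨K, hK⟩ : ∃ K : ℕ, K = max 4 ⌈10 / (3 * δ)⌉₊ := ⟨_, rfl⟩
  have hKδ : 10 / (3 * δ) ≤ K := by
    rw [hK]; push_cast
    exact (Nat.le_ceil _).trans (le_max_right _ _)
  obtain ⟨M, hM⟩ : ∃ M : ℕ, M = max 10 (max ⌈20 / δ⌉₊ (5 * K ^ K)) := ⟨_, rfl⟩
  refine ⟨1 - δ, K, M, by linarith, by linarith, by rw [hK]; exact le_max_left _ _,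
    by rw [hM]; exact le_max_left _ _, ?_, ?_⟩
  · rw [div_le_iff₀ (by positivity)] at hKδ
    nlinarith
  · intro m hm
    have hm10 : 10 ≤ m := le_trans (by rw [hM]; exact le_max_left _ _) hm
    have hm0 : (0:ℝ) < m := by exact_mod_cast (by omega : 0 < m)
    have h1 : ⌈20 / δ⌉₊ ≤ m :=
      le_trans (by rw [hM]; exact (le_max_left _ _).trans (le_max_right _ _)) hm
    have h2 : 5 * K ^ K ≤ m :=
      le_trans (by rw [hM]; exact (le_max_right _ _).trans (le_max_right _ _)) hm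
    have h1' : 20 / δ ≤ m := (Nat.le_ceil _).trans (by exact_mod_cast h1)
    constructor
    · have : 20 / (m:ℝ) ≤ δ := by
        rw [div_le_iff₀ hδ0] at h1'
        rw [div_le_iff₀ hm0]; linarith
      linarith
    · exact_mod_cast h2

end Pool.Agent.Helper415.RC
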