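import Mathlib
import Pool.Agent.Helper415.RC12

set_option autoImplicit false

open Finset

namespace Pool.Agent.Helper415.RC

/-- the fine bump -/
noncomputable def bump3 (m : ℕ) (θ c r x : ℝ) : ℝ :=
  max (θ * LL (m * x) / m - c * max (|x - 1 / 2| - r) 0) 0

lemma bump3_nonneg (m : ℕ) (θ c r x : ℝ) : 0 ≤ bump3 m θ c r x := le_max_right _ _

lemma bump3_le {m : ℕ} {θ c r : ℝ} (hc : 0 ≤ c) (hθ : 0 ≤ θ) (x : ℝ) : bump3 m θ c r x ≤ θ * (LL (m * x) / m) := by
  unfold bump3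
  have h1 : 0 ≤ c * max (|x - 1 / 2| - r) 0 :=
    mul_nonneg hc (le_max_right _ _)
  have h2 : 0 ≤ θ * (LL (m * x) / m) :=
    mul_nonneg hθ (div_nonneg (LL_nonneg _) (Nat.cast_nonneg _))
  apply max_le _ h2
  rw [mul_div_assoc]; linarith

lemma bump3_le_inv {m : ℕ} {θ c r : ℝ} (hc : 0 ≤ c) (hθ : 0 ≤ θ) (hθ1 : θ ≤ 1) (x : ℝ) :
    bump3 m θ c r x ≤ 1 / m := by
  have h1 := bump3_le (m := m) (r := r) hc hθ x
  have h2 : LL (m * x) / m ≤ 1 / m :=
    div_le_div_of_nonneg_right (LL_le_one _) (Nat.cast_nonneg _)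
  have h3 : 0 ≤ LL (m * x) / m := div_nonneg (LL_nonneg _) (Nat.cast_nonneg _)
  nlinarith

lemma bump3_zero {m : ℕ} {θ c r : ℝ} (hθ1 : θ ≤ 1) {x : ℝ}
    (h : 1 / (m:ℝ) ≤ c * max (|x - 1 / 2| - r) 0) : bump3 m θ c r x = 0 := by
  unfold bump3
  apply max_eq_right
  have h2 : LL (m * x) / m ≤ 1 / m :=
    div_le_div_of_nonneg_right (LL_le_one _) (Nat.cast_nonneg _)
  have h3 : 0 ≤ LL (m * x) / m := div_nonneg (LL_nonneg _) (Nat.cast_nonneg _)
  rw [mul_div_assoc]
  nlinarith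

lemma bump3_eq {m : ℕ} {θ c r : ℝ} (hθ : 0 ≤ θ) {x : ℝ} (hx : |x - 1 / 2| ≤ r) :
    bump3 m θ c r x = θ * (LL (m * x) / m) := by
  unfold bump3
  have h1 : max (|x - 1 / 2| - r) 0 = 0 := max_eq_right (by linarith)
  have h2 : 0 ≤ θ * (LL (m * x) / m) :=
    mul_nonneg hθ (div_nonneg (LL_nonneg _) (Nat.cast_nonneg _))
  rw [h1, mul_zero, sub_zero, mul_div_assoc, max_eq_left h2]

lemma bump3_local {m : ℕ} (hm : 1 ≤ m) {θ c r : ℝ} (hc : 0 ≤ c) (hθ : 0 ≤ θ) (hθ1 : θ + c ≤ 1)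
    (x : Fin m → ℝ) (i j : Fin m) (hij : ∀ l, x i ≤ x l ∧ x l ≤ x j) {X : ℝ}
    (hX : X = (∑ l, x l) / m) :
    bump3 m θ c r X ≤ (∑ l, bump3 m θ c r (x l)) / m + (x j - x i) := by
  have hm0 : (0:ℝ) < m := by exact_mod_cast hm
  have hr : 0 ≤ x j - x i := by linarith [(hij i).2]
  have hXa : x i ≤ X := by
    rw [hX, le_div_iff₀ hm0]
    calc x i * m = ∑ _l : Fin m, x i := by simp [mul_comm]
      _ ≤ ∑ l, x l := sum_le_sum fun l _ => (hij l).1
  have hXb : X ≤ x j := by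
    rw [hX, div_le_iff₀ hm0]
    calc ∑ l, x l ≤ ∑ _l : Fin m, x j := sum_le_sum fun l _ => (hij l).2
      _ = x j * m := by simp [mul_comm]
  obtain ⟨C, hC⟩ : ∃ C : ℝ → ℝ, ∀ y, C y = max (|y - 1 / 2| - r) 0 := ⟨_, fun _ => rfl⟩
  have hB0 : 0 ≤ (∑ l, bump3 m θ c r (x l)) / m :=
    div_nonneg (sum_nonneg fun l _ => bump3_nonneg m θ c r _) hm0.le
  have hCl : ∀ l, C (x l) ≤ C X + (x j - x i) := fun l => by
    rw [hC, hC]
    have h3 : |X - x l| ≤ x j - x i := by
      rw [abs_le]; constructor <;> linarith [(hij l).1, (hij l).2]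
    apply max_le
    · have h4 : |x l - 1 / 2| ≤ |X - 1 / 2| + |X - x l| := by
        have e : x l - 1 / 2 = (X - 1 / 2) - (X - x l) := by ring
        rw [e]; exact abs_sub _ _
      have := le_max_left (|X - 1 / 2| - r) 0
      linarith
    · have := le_max_right (|X - 1 / 2| - r) (0:ℝ)
      linarith
  have hL := LL_local hm (fun l => m * x l) i j (fun l =>
    ⟨mul_le_mul_of_nonneg_left (hij l).1 hm0.le, mul_le_mul_of_nonneg_left (hij l).2 hm0.le⟩)
  have eX : (∑ l, (m:ℝ) * x l) / m = m * X := by rw [← mul_sum, hX, mul_div_assoc]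
  rw [eX] at hL
  have hsum : ∑ l, (θ * LL (m * x l) / m - c * C (x l)) ≤ ∑ l, bump3 m θ c r (x l) :=
    sum_le_sum fun l _ => by
      unfold bump3; rw [hC]; exact le_max_left _ _
  have e1 : ∑ l, (θ * LL (m * x l) / m - c * C (x l)) =
      θ * (∑ l, LL (m * x l)) / m - c * ∑ l, C (x l) := by
    rw [sum_sub_distrib, ← mul_sum, ← sum_div, ← mul_sum]
  have hCs : (∑ l, C (x l)) / m ≤ C X + (x j - x i) := by
    rw [div_le_iff₀ hm0]
    calc ∑ l, C (x l) ≤ ∑ _l : Fin m, (C X + (x j - x i)) := sum_le_sum fun l _ => hCl l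
      _ = (C X + (x j - x i)) * m := by
          simp only [sum_const, card_univ, Fintype.card_fin, nsmul_eq_mul]; ring
  have hsum2 := div_le_div_of_nonneg_right hsum hm0.le
  rw [e1] at hsum2
  have e2 : (θ * (∑ l, LL (m * x l)) / m - c * ∑ l, C (x l)) / m =
      θ / m * ((∑ l, LL (m * x l)) / m) - c * ((∑ l, C (x l)) / m) := by
    ring
  rw [e2] at hsum2
  have h5 : θ / m * LL (m * X) ≤ θ / m * ((∑ l, LL (m * x l)) / m + (m * x j - m * x i)) :=
    mul_le_mul_of_nonneg_left hL (by positivity)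
  have h6 : c * ((∑ l, C (x l)) / m) ≤ c * (C X + (x j - x i)) :=
    mul_le_mul_of_nonneg_left hCs hc
  have e3 : θ / m * (m * x j - m * x i) = θ * (x j - x i) := by field_simp
  have h7 : (θ + c) * (x j - x i) ≤ 1 * (x j - x i) :=
    mul_le_mul_of_nonneg_right hθ1 hr
  unfold bump3
  rw [← hC X]
  apply max_le
  · have e4 : θ * LL (m * X) / m = θ / m * LL (m * X) := by ring
    rw [e4]
    have hB : (∑ l, bump3 m θ c r (x l)) / m = (∑ l, max (θ * LL (m * x l) / m -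
      c * max (|x l - 1 / 2| - r) 0) 0) / m := rfl
    rw [← hB]
    nlinarith
  · have hB : (∑ l, bump3 m θ c r (x l)) / m = (∑ l, max (θ * LL (m * x l) / m -
      c * max (|x l - 1 / 2| - r) 0) 0) / m := rfl
    rw [← hB]
    linarith


lemma slack_one' {a b lam x e : ℝ} (ha4 : a ≤ 1 / 4) (ha : 0 ≤ a) (hl0 : 0 < lam) (hl1 : lam ≤ 1)
    (he : 0 ≤ e) (hx : x = (1 - lam) * a + lam * b) (hx1 : 1 / 4 + e ≤ x) (hb : lim b = 1) :
    1 + e ≤ (1 - lam) * lim a + lam * lim b + (b - a) := by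
  have h4 := lim_ge_four ha ha4
  rw [hb]
  have h1 : (1 - lam) * (4 * a) ≤ (1 - lam) * lim a :=
    mul_le_mul_of_nonneg_left h4 (by linarith)
  have h2 : lam * (b - a) = x - a := by rw [hx]; ring
  have h3 : lam * (1 + e) ≤ lam * ((1 - lam) * (4 * a) + lam * 1 + (b - a)) := by
    have e1 : lam * ((1 - lam) * (4 * a) + lam * 1 + (b - a)) =
        lam * (1 - lam) * (4 * a) + lam ^ 2 + (x - a) := by rw [← h2]; ring
    rw [e1]
    have h5 : 0 ≤ (lam - 1 / 2) ^ 2 * (1 - 4 * a) := mul_nonneg (sq_nonneg _) (by linarith)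
    have h6 : 0 ≤ e * (1 - lam) := mul_nonneg he (by linarith)
    nlinarith
  have := le_of_mul_le_mul_left h3 hl0
  linarith

lemma slack_two' {a c lam x e : ℝ} (ha : 0 ≤ a) (ha4 : a ≤ 1 / 4) (hc : 0 ≤ c) (hc4 : c ≤ 1 / 4)
    (hl0 : 0 ≤ lam) (hl1 : lam ≤ 1) (he : 0 ≤ e)
    (hx : x = (1 - lam) * a + lam * (1 - c)) (hx1 : 1 / 4 + e ≤ x) (hx2 : x ≤ 3 / 4 - e) :
    1 + e * (a + c) ≤ (1 - lam) * lim a + lam * lim (1 - c) + (1 - c - a) := by
  have h4 := lim_ge_four ha ha4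
  have h5 := lim_ge_four hc hc4
  rw [lim_symm]
  have h1 : (1 - lam) * (4 * a) ≤ (1 - lam) * lim a :=
    mul_le_mul_of_nonneg_left h4 (by linarith)
  have h2 : lam * (4 * c) ≤ lam * lim c := mul_le_mul_of_nonneg_left h5 hl0
  obtain ⟨D, hD⟩ : ∃ D : ℝ, D = 1 - a - c := ⟨_, rfl⟩
  have hD0 : 1 / 2 ≤ D := by rw [hD]; linarith
  have hD1 : D ≤ 1 := by rw [hD]; linarith
  have hlD : lam * D = x - a := by rw [hD, hx]; ring
  have h6 : D * (e * (a + c)) ≤ D * ((1 - lam) * (4 * a) + lam * (4 * c) - a - c) := by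
    have e1 : D * ((1 - lam) * (4 * a) + lam * (4 * c) - a - c) =
        a * (3 - 4 * x) + c * (4 * x - 1) + a ^ 2 + c ^ 2 - 6 * (a * c) := by
      have : D * ((1 - lam) * (4 * a) + lam * (4 * c) - a - c) =
        D * (3 * a - c) + (lam * D) * (4 * c - 4 * a) := by ring
      rw [this, hlD, hD]; ring
    rw [e1]
    have h7 : a * c * (3 - 4 * x) ≤ 1 / 4 * (a * (3 - 4 * x)) := by
      have : c * (a * (3 - 4 * x)) ≤ 1 / 4 * (a * (3 - 4 * x)) :=
        mul_le_mul_of_nonneg_right hc4 (mul_nonneg ha (by linarith))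
      linarith
    have h8 : a * c * (4 * x - 1) ≤ 1 / 4 * (c * (4 * x - 1)) := by
      have : a * (c * (4 * x - 1)) ≤ 1 / 4 * (c * (4 * x - 1)) :=
        mul_le_mul_of_nonneg_right ha4 (mul_nonneg hc (by linarith))
      linarith
    have h9 : a * (4 * e) ≤ a * (3 - 4 * x) := mul_le_mul_of_nonneg_left (by linarith) ha
    have h10 : c * (4 * e) ≤ c * (4 * x - 1) := mul_le_mul_of_nonneg_left (by linarith) hc
    have h11 : D * (e * (a + c)) ≤ 1 * (e * (a + c)) :=
      mul_le_mul_of_nonneg_right hD1 (mul_nonneg he (by linarith))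
    nlinarith [sq_nonneg a, sq_nonneg c]
  have := le_of_mul_le_mul_left h6 (by linarith)
  linarith

lemma slack_K' (K : ℕ) (hK : 4 ≤ K) {a c lam x e : ℝ} (ha : 0 ≤ a) (hc : 0 ≤ c)
    (hac : (a + c) * (K:ℝ) ^ K ≤ 1) (hge : a + c ≤ e) (hl0 : 0 ≤ lam) (hl1 : lam ≤ 1)
    (hx : x = (1 - lam) * a + lam * (1 - c)) (hx1 : 1 / 4 + e ≤ x) (hx2 : x ≤ 3 / 4 - e) :
    1 + (1 / 4 * K - 1) * (a + c) ≤ (1 - lam) * lim a + lam * lim (1 - c) + (1 - c - a) := by
  have hK4 : (4:ℝ) ≤ K := by exact_mod_cast hK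
  have hKp : (0:ℝ) < (K:ℝ) ^ K := by positivity
  have h1 := lim_ge_K K hK ha (by nlinarith)
  have h2 := lim_ge_K K hK hc (by nlinarith)
  rw [lim_symm]
  have hlam1 : 1 / 4 ≤ lam := by nlinarith
  have hlam2 : 1 / 4 ≤ 1 - lam := by nlinarith
  have h3 : 1 / 4 * (K * a) ≤ (1 - lam) * lim a := by
    calc 1 / 4 * (K * a) ≤ (1 - lam) * (K * a) :=
          mul_le_mul_of_nonneg_right hlam2 (by positivity)
      _ ≤ _ := mul_le_mul_of_nonneg_left h1 (by linarith)
  have h4 : 1 / 4 * (K * c) ≤ lam * lim c := by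
    calc 1 / 4 * (K * c) ≤ lam * (K * c) := mul_le_mul_of_nonneg_right hlam1 (by positivity)
      _ ≤ _ := mul_le_mul_of_nonneg_left h2 hl0
  linarith

/-- `lim` plus the fine bump belongs to the class -/
theorem bumped3_inClass (m K : ℕ) (θ c r e : ℝ) (hK : 4 ≤ K) (hm : 7 ≤ m) (hθ : 0 ≤ θ)
    (hc0 : 0 ≤ c) (he : 0 < e) (he4 : e ≤ 1 / 4) (hce : 1 / (m:ℝ) ≤ c * (1 / 4 - e - r))
    (hKe : 1 ≤ e * (K:ℝ) ^ K)
    (h1 : θ + c ≤ 1) (h2 : θ * (1 / 4 * K) ≤ 1 / 4 * K - 1) (h3 : (K:ℝ) ^ K ≤ e * m) :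
    InClass m (fun x => lim x + bump3 m θ c r x) := by
  have hm0 : (0:ℝ) < m := by exact_mod_cast (by omega : 0 < m)
  have hm7 : (7:ℝ) ≤ m := by exact_mod_cast hm
  have hθ1 : θ ≤ 1 := by linarith
  have hK4 : (4:ℝ) ≤ K := by exact_mod_cast hK
  have hKp : (1:ℝ) ≤ (K:ℝ) ^ K := one_le_pow₀ (by linarith)
  have hinv : 1 / (m:ℝ) ≤ e := by
    rw [div_le_iff₀ hm0]; linarith
  have hz : ∀ y : ℝ, 1 / 4 - e ≤ |y - 1 / 2| → bump3 m θ c r y = 0 := fun y hy =>
    bump3_zero hθ1 (hce.trans (mul_le_mul_of_nonneg_left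
      (le_trans (by linarith) (le_max_left _ _)) hc0))
  refine ⟨?_, ?_⟩
  · have h0 : bump3 m θ c r 0 = 0 := hz _ (by rw [abs_of_nonpos (by norm_num)]; linarith)
    have h1 : bump3 m θ c r 1 = 0 := hz _ (by rw [abs_of_nonneg (by norm_num)]; linarith)
    simp only [h0, h1, lim_zero, lim_one]; simp
  · intro x hx i j hij
    have hclass := (lim_inClass m (by omega)).2 x hx i j hij
    simp only
    rw [sum_add_distrib, add_div]
    have hB0 : 0 ≤ (∑ l, bump3 m θ c r (x l)) / m :=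
      div_nonneg (sum_nonneg fun l _ => bump3_nonneg m θ c r _) hm0.le
    rcases le_or_gt (1 / 4 - e) |(∑ l, x l) / m - 1 / 2| with hfar | hnear
    · rw [hz _ hfar]; linarith
    · obtain ⟨X, hX⟩ : ∃ X : ℝ, X = (∑ l, x l) / m := ⟨_, rfl⟩
      have hloc := bump3_local (r := r) (by omega) hc0 hθ h1 x i j hij hX
      rw [← hX] at hnear hclass ⊢
      have hX1 : 1 / 4 + e < X := by have := (abs_lt.mp hnear).1; linarith
      have hX2 : X < 3 / 4 - e := by have := (abs_lt.mp hnear).2; linarith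
      have hlimX : lim X = 1 := lim_mid (by linarith) (by linarith)
      have hmX : (m:ℝ) * X = ∑ l, x l := by rw [hX]; field_simp
      have hXa : x i ≤ X := by
        rw [hX, le_div_iff₀ hm0]
        calc x i * m = ∑ _l : Fin m, x i := by simp [mul_comm]
          _ ≤ ∑ l, x l := sum_le_sum fun l _ => (hij l).1
      have hXb : X ≤ x j := by
        rw [hX, div_le_iff₀ hm0]
        calc ∑ l, x l ≤ ∑ _l : Fin m, x j := sum_le_sum fun l _ => (hij l).2
          _ = x j * m := by simp [mul_comm]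
      have hb := bump3_le_inv (m := m) (r := r) hc0 hθ hθ1 X
      by_cases hmid : 1 / 4 ≤ x i ∧ x j ≤ 3 / 4
      · have hlx : ∀ l, lim (x l) = 1 := fun l =>
          lim_mid (hmid.1.trans (hij l).1) ((hij l).2.trans hmid.2)
        have hs1 : (∑ l, lim (x l)) / m = 1 := by
          simp_rw [hlx]; simp [hm0.ne']
        rw [hlimX, hs1]; linarith
      · have hab : x i < x j := by
          by_contra h
          push Not at h
          apply hmid
          constructor <;> linarith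
        obtain ⟨T, hT0, hT1, hTm, hTl⟩ := mean_ge (by omega) x hx i j hij hab
        rw [← hX] at hTm
        have hslack : bump3 m θ c r X ≤ (∑ l, lim (x l)) / m + (x j - x i) - 1 := by
          by_cases hi4 : x i ≤ 1 / 4
          · by_cases hj4 : x j ≤ 3 / 4
            · have hTpos : 0 < T := by
                rcases hT0.eq_or_lt with h | h
                · rw [← h] at hTm; linarith
                · exact h
              have := slack_one' hi4 (hx i).1 hTpos hT1 he.le hTm hX1.le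
                (lim_mid (by linarith) hj4)
              linarith
            · push Not at hj4
              have e1 : X = (1 - T) * x i + T * (1 - (1 - x j)) := by rw [hTm]; ring
              obtain ⟨g, hg⟩ : ∃ g : ℝ, g = x i + (1 - x j) := ⟨_, rfl⟩
              rcases le_or_gt (g * (K:ℝ) ^ K) 1 with hgK | hgK
              · have hge : g ≤ e := by
                  have : g * (K:ℝ) ^ K ≤ e * (K:ℝ) ^ K := hgK.trans hKe
                  exact le_of_mul_le_mul_right this (by linarith)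
                have h4 := slack_K' K hK (c := 1 - x j) (hx i).1 (by linarith [(hx j).2])
                  (by rw [← hg]; exact hgK) (by rw [← hg]; exact hge) hT0 hT1 e1 hX1.le hX2.le
                rw [sub_sub_cancel, ← hg] at h4
                have h5 : LL (m * X) / m ≤ (∑ l, lim (x l)) / m := by
                  apply div_le_div_of_nonneg_right _ hm0.le
                  rw [hmX]
                  calc LL (∑ l, x l) ≤ ∑ l, LL (x l) := LL_sum x
                    _ = ∑ l, lim (x l) := sum_congr rfl fun l _ => LL_eq (hx l)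
                obtain ⟨L, hL⟩ : ∃ L : ℝ, L = LL (m * X) / m := ⟨_, rfl⟩
                have hL0 : 0 ≤ L := by
                  rw [hL]; exact div_nonneg (LL_nonneg _) hm0.le
                have hb2 := bump3_le (m := m) (r := r) hc0 hθ X
                rw [← hL] at h5 hb2
                obtain ⟨S, hS⟩ : ∃ S : ℝ, S = (∑ l, lim (x l)) / m + (x j - x i) - 1 := ⟨_, rfl⟩
                rw [← hS]
                have hS1 : (1 / 4 * K - 1) * g ≤ S := by rw [hS]; linarith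
                have hS2 : L - g ≤ S := by rw [hS, hg]; linarith
                have hk0 : 0 ≤ 1 / 4 * (K:ℝ) - 1 := by linarith
                have h6 : (1 / 4 * (K:ℝ) - 1) * (L - g) ≤ (1 / 4 * K - 1) * S :=
                  mul_le_mul_of_nonneg_left hS2 hk0
                have h7 : θ * (1 / 4 * K) * L ≤ (1 / 4 * K - 1) * L :=
                  mul_le_mul_of_nonneg_right h2 hL0
                have h8 : (1 / 4 * (K:ℝ)) * (θ * L) ≤ (1 / 4 * K) * S := by nlinarith
                have h9 : θ * L ≤ S := le_of_mul_le_mul_left h8 (by linarith)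
                linarith
              · have h4 := slack_two' (c := 1 - x j) (hx i).1 hi4 (by linarith [(hx j).2])
                  (by linarith) hT0 hT1 he.le e1 hX1.le hX2.le
                rw [sub_sub_cancel, ← hg] at h4
                have hg0 : 0 ≤ g := by rw [hg]; linarith [(hx i).1, (hx j).2]
                have h5 : 1 / (m:ℝ) ≤ e * g := by
                  rw [div_le_iff₀ hm0]
                  have : g * (K:ℝ) ^ K ≤ g * (e * m) := mul_le_mul_of_nonneg_left h3 hg0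
                  nlinarith
                linarith
          · push Not at hi4
            have hj4 : 3 / 4 < x j := by
              by_contra h
              push Not at h
              exact hmid ⟨hi4.le, h⟩
            have hTpos : 0 < 1 - T := by
              rcases hT1.eq_or_lt with h | h
              · rw [h] at hTm; linarith
              · linarith
            have hla : lim (x i) = 1 := lim_mid hi4.le (by linarith)
            have := slack_one' (a := 1 - x j) (b := 1 - x i) (lam := 1 - T) (x := 1 - X) (e := e)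
              (by linarith) (by linarith [(hx j).2]) hTpos (by linarith) he.le
              (by rw [hTm]; ring) (by linarith) (by rw [lim_symm]; exact hla)
            rw [lim_symm, lim_symm] at this
            linarith
        rw [hlimX]; linarith

lemma bumped3_inClassB (m K : ℕ) (θ c r e : ℝ) (hK : 4 ≤ K) (hm : 7 ≤ m) (hθ : 0 ≤ θ)
    (hc0 : 0 ≤ c) (he : 0 < e) (he4 : e ≤ 1 / 4) (hce : 1 / (m:ℝ) ≤ c * (1 / 4 - e - r))
    (hKe : 1 ≤ e * (K:ℝ) ^ K)
    (h1 : θ + c ≤ 1) (h2 : θ * (1 / 4 * K) ≤ 1 / 4 * K - 1) (h3 : (K:ℝ) ^ K ≤ e * m) :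
    InClassB m (fun x => lim x + bump3 m θ c r x) := by
  refine ⟨bumped3_inClass m K θ c r e hK hm hθ hc0 he he4 hce hKe h1 h2 h3, ⟨1 + 1 / m, ?_⟩⟩
  rintro _ ⟨x, hx, rfl⟩
  have := lim_le_one hx.1
  have := bump3_le_inv (m := m) (r := r) hc0 hθ (by linarith) x
  simp only
  linarith

/-- the parameters -/
lemma params3 {ε : ℝ} (hε : 0 < ε) : ∃ (θ e : ℝ) (K M : ℕ), 1 - ε ≤ θ ∧ 0 ≤ θ ∧ 4 ≤ K ∧ 10 ≤ M ∧
    0 < e ∧ e ≤ 1 / 4 ∧ 2 * e ≤ ε ∧ 1 ≤ e * (K:ℝ) ^ K ∧
    θ * (1 / 4 * K) ≤ 1 / 4 * K - 1 ∧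
    ∀ m : ℕ, M ≤ m → θ + 1 / (e * m) ≤ 1 ∧ (K:ℝ) ^ K ≤ e * m := by
  obtain ⟨δ, hδ⟩ : ∃ δ : ℝ, δ = min ε (1 / 2) := ⟨_, rfl⟩
  have hδ0 : 0 < δ := by rw [hδ]; exact lt_min hε (by norm_num)
  have hδ1 : δ ≤ 1 / 2 := by rw [hδ]; exact min_le_right _ _
  have hδε : δ ≤ ε := by rw [hδ]; exact min_le_left _ _
  obtain ⟨K, hK⟩ : ∃ K : ℕ, K = max 4 ⌈4 / δ⌉₊ := ⟨_, rfl⟩
  have hKδ : 4 / δ ≤ K := by
    rw [hK]; push_cast
    exact (Nat.le_ceil _).trans (le_max_right _ _)
  have hK4 : 4 ≤ K := by rw [hK]; exact le_max_left _ _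
  have hK4r : (4:ℝ) ≤ K := by exact_mod_cast hK4
  rw [div_le_iff₀ hδ0] at hKδ
  obtain ⟨M, hM⟩ : ∃ M : ℕ, M = max 10 (max ⌈2 / δ ^ 2⌉₊ ⌈(K:ℝ) ^ K * (2 / δ)⌉₊) := ⟨_, rfl⟩
  refine ⟨1 - δ, δ / 2, K, M, by linarith, by linarith, hK4,
    by rw [hM]; exact le_max_left _ _, by linarith, by linarith, by linarith, ?_, ?_, ?_⟩
  · have : (K:ℝ) ≤ (K:ℝ) ^ K := le_self_pow₀ (by linarith) (by omega)
    nlinarith
  · nlinarith
  · intro m hm
    have hm10 : 10 ≤ m := le_trans (by rw [hM]; exact le_max_left _ _) hm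
    have hm0 : (0:ℝ) < m := by exact_mod_cast (by omega : 0 < m)
    have h1 : ⌈2 / δ ^ 2⌉₊ ≤ m :=
      le_trans (by rw [hM]; exact (le_max_left _ _).trans (le_max_right _ _)) hm
    have h2 : ⌈(K:ℝ) ^ K * (2 / δ)⌉₊ ≤ m :=
      le_trans (by rw [hM]; exact (le_max_right _ _).trans (le_max_right _ _)) hm
    have h1' : 2 / δ ^ 2 ≤ m := (Nat.le_ceil _).trans (by exact_mod_cast h1)
    have h2' : (K:ℝ) ^ K * (2 / δ) ≤ m := (Nat.le_ceil _).trans (by exact_mod_cast h2)
    constructor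
    · have : 1 / (δ / 2 * (m:ℝ)) ≤ δ := by
        rw [div_le_iff₀ (by positivity)] at h1' ⊢
        nlinarith
      linarith
    · have e1 : (K:ℝ) ^ K = (K:ℝ) ^ K * (2 / δ) * (δ / 2) := by field_simp
      rw [e1]
      have := mul_le_mul_of_nonneg_right h2' (by positivity : 0 ≤ δ / 2)
      linarith

end Pool.Agent.Helper415.RC
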